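import Pool.Agent.FPX.PLO
/-!
PLC (helper1). Squares of free vectors in the box coordinates, three components.
-/
set_option autoImplicit false

noncomputable section

namespace Pool.Agent.FPX.PLK

open List (Forall₂)

/-! ### rows with the values of the chunks -/

/-- value of a linear form -/
def df : (ℕ → ℝ) → List ℝ → ℝ
  | _, [] => 0
  | g, d :: D => g 0 * d + df (fun i => g (i + 1)) D

/-- the row `x` has the chunks `g` -/
def RC (B K : ℕ) (w : List ℝ) (x : PV) (g : ℕ → ℝ) (m : ℕ) : Prop :=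
  ∀ D : List ℝ, D.length = m → RR B K w D x (df g D)

/-- triangular table -/
def RT (B K : ℕ) (w : List ℝ) (b : ℕ) : List ℕ → List ℕ → (ℕ → ℕ → ℝ) → ℕ → Prop
  | p :: ps, n :: ns, T, m + 1 => RC B K w ⟨p, n, b⟩ (T 0) (m + 1) ∧ RT B K w b ps ns (fun a i => T (a + 1) (i + 1)) m
  | [], [], _, 0 => True
  | _, _, _, _ => False

/-- quadratic form of a symmetric table -/
def e2 : (ℕ → ℕ → ℝ) → List ℝ → ℝ
  | _, [] => 0
  | T, d :: D => d * (T 0 0 * d + 2 * df (fun i => T 0 (i + 1)) D) + e2 (fun a i => T (a + 1) (i + 1)) D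

theorem df_add : ∀ (g h : ℕ → ℝ) (D : List ℝ), df (fun i => g i + h i) D = df g D + df h D
  | _, _, [] => by simp [df]
  | g, h, d :: D => by
    simp only [df]
    rw [df_add (fun i => g (i + 1)) (fun i => h (i + 1)) D]
    ring

theorem df_mul (c : ℝ) : ∀ (g : ℕ → ℝ) (D : List ℝ), df (fun i => c * g i) D = c * df g D
  | _, [] => by simp [df]
  | g, d :: D => by
    simp only [df]
    rw [df_mul c (fun i => g (i + 1)) D]
    ring

theorem df_zero : ∀ (D : List ℝ), df (fun _ => 0) D = 0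
  | [] => rfl
  | d :: D => by
    simp only [df]
    rw [df_zero D]
    ring

theorem df_zeros : ∀ (g : ℕ → ℝ) (m : ℕ), df g (List.replicate m 0) = 0
  | _, 0 => rfl
  | g, m + 1 => by
    simp only [List.replicate_succ, df]
    rw [df_zeros _ m]
    ring

theorem e2_add : ∀ (T S : ℕ → ℕ → ℝ) (D : List ℝ), e2 (fun a i => T a i + S a i) D = e2 T D + e2 S D
  | _, _, [] => by simp [e2]
  | T, S, d :: D => by
    simp only [e2]
    rw [e2_add (fun a i => T (a + 1) (i + 1)) (fun a i => S (a + 1) (i + 1)) D, df_add]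
    ring

theorem e2_mul (c : ℝ) : ∀ (T : ℕ → ℕ → ℝ) (D : List ℝ), e2 (fun a i => c * T a i) D = c * e2 T D
  | _, [] => by simp [e2]
  | T, d :: D => by
    simp only [e2]
    rw [e2_mul c (fun a i => T (a + 1) (i + 1)) D, df_mul]
    ring

theorem e2_zero : ∀ (D : List ℝ), e2 (fun _ _ => 0) D = 0
  | [] => rfl
  | d :: D => by
    simp only [e2]
    rw [e2_zero D, df_zero]
    ring

section RC

variable {B K : ℕ} {w : List ℝ}

theorem wf_zeros : ∀ (m : ℕ) (P : List ℕ), ip (wf w (List.replicate m 0)) P = 0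
  | 0, P => by simp [wf]
  | m + 1, P => by
    have key : ∀ (w : List ℝ) (P : List ℕ) (v : List ℝ), (∀ P : List ℕ, ip v P = 0) →
        ip ((w.map fun x => (0 : ℝ) * x) ++ v) P = 0 := by
      intro w
      induction w with
      | nil => intro P v h; simpa using h P
      | cons a w ih =>
        intro P v h
        cases P with
        | nil => simp
        | cons p P =>
          simp only [List.map_cons, List.cons_append, ip]
          rw [ih P v h]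
          ring
    rw [List.replicate_succ, wf]
    exact key w P _ fun P => wf_zeros m P

theorem RR.zeros {x : PV} {t : ℝ} {m : ℕ} (h : RR B K w (List.replicate m 0) x t) : t = 0 := by
  obtain ⟨P, N, _, _, _, _, _, _, a7⟩ := h
  rw [a7, wf_zeros, wf_zeros]
  ring

theorem RC.add {x y : PV} {g h : ℕ → ℝ} {m : ℕ} (h1 : RC B K w x g m) (h2 : RC B K w y h m) :
    RC B K w (PV.add x y) (fun i => g i + h i) m := fun D hD => by
  rw [df_add]
  exact RV.add (h1 D hD) (h2 D hD)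

theorem RC.mulN {x : PV} {g : ℕ → ℝ} {m : ℕ} (h1 : RC B K w x g m) (a : ℕ) :
    RC B K w ⟨Nat.mul a x.p, Nat.mul a x.n, Nat.mul a x.b⟩ (fun i => a * g i) m := fun D hD => by
  rw [df_mul]
  exact RV.mulN (h1 D hD) a

theorem RC.swap {x : PV} {g : ℕ → ℝ} {m : ℕ} (h1 : RC B K w x g m) :
    RC B K w ⟨x.n, x.p, x.b⟩ (fun i => -1 * g i) m := fun D hD => by
  rw [df_mul, neg_one_mul]
  exact RV.swap (h1 D hD)

theorem RC.mono {p n b b' : ℕ} {g : ℕ → ℝ} {m : ℕ} (h1 : RC B K w ⟨p, n, b⟩ g m) (hb : b ≤ b') :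
    RC B K w ⟨p, n, b'⟩ g m := fun D hD => RV.mono (h1 D hD) hb

theorem RC.zero (m : ℕ) : RC B K w ⟨0, 0, 0⟩ (fun _ => 0) m := fun D _ => by
  rw [df_zero]
  exact RR.zero

theorem RC.hd (hw : w.length = K) {x : PV} {g : ℕ → ℝ} {m : ℕ} (h : RC B K w x g (m + 1)) (hb : x.b < B) :
    RV B K w (PV.hd (B ^ K) x) (g 0) := by
  obtain ⟨s, t', h1, h2, h3⟩ := RR.uncons hw (h (1 :: List.replicate m 0) (by simp)) hb
  have e := RR.zeros h2
  simp only [df, df_zeros] at h3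
  rw [e] at h3
  have e2 : s = g 0 := by linarith
  rw [← e2]
  exact h1

theorem RC.tl (hw : w.length = K) {x : PV} {g : ℕ → ℝ} {m : ℕ} (h : RC B K w x g (m + 1)) (hb : x.b < B) :
    RC B K w (PV.tl (B ^ K) x) (fun i => g (i + 1)) m := fun D hD => by
  obtain ⟨s, t', h1, h2, h3⟩ := RR.uncons hw (h (0 :: D) (by simp [hD])) hb
  simp only [df] at h3
  have e2 : t' = df (fun i => g (i + 1)) D := by linarith
  rw [← e2]
  exact h2

/-- sums of lists -/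
def adS : List ℕ → List ℕ → List ℕ
  | a :: l, b :: m => Nat.add a b :: adS l m
  | [], m => m
  | l, [] => l

theorem RT.add : ∀ {ps ns ps' ns' : List ℕ} {T S : ℕ → ℕ → ℝ} {m b b' : ℕ}, RT B K w b ps ns T m →
    RT B K w b' ps' ns' S m → RT B K w (b + b') (adS ps ps') (adS ns ns') (fun a i => T a i + S a i) m
  | p :: ps, n :: ns, p' :: ps', n' :: ns', T, S, m + 1, b, b', ⟨h1, h2⟩, ⟨h3, h4⟩ =>
    ⟨RC.add h1 h3, RT.add h2 h4⟩
  | [], [], [], [], _, _, 0, _, _, _, _ => trivial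
  | [], [], _ :: _, _, _, _, _ + 1, _, _, h, _ => h.elim
  | [], [], _ :: _, ns, _, _, 0, _, _, _, h => by cases ns <;> exact h.elim
  | _ :: _, _ :: _, [], _, _, _, 0, _, _, h, _ => h.elim
  | _ :: _, _ :: _, [], ns, _, _, _ + 1, _, _, _, h => by cases ns <;> exact h.elim

theorem RT.mono : ∀ {ps ns : List ℕ} {T : ℕ → ℕ → ℝ} {m b b' : ℕ}, RT B K w b ps ns T m → b ≤ b' →
    RT B K w b' ps ns T m
  | p :: ps, n :: ns, T, m + 1, b, b', ⟨h1, h2⟩, h => ⟨RC.mono h1 h, RT.mono h2 h⟩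
  | [], [], _, 0, _, _, _, _ => trivial

/-- the rows `d_a x` with `x` without its first `a` chunks -/
def rowS (C : ℕ) : List ℕ → ℕ → List ℕ
  | [], _ => []
  | d :: l, P => Nat.mul d P :: rowS C l (Nat.div P C)

theorem rowS_ok (hw : w.length = K) {W : ℕ} : ∀ (l : List ℕ) (P N b : ℕ) (y : ℕ → ℝ), RC B K w ⟨P, N, b⟩ y l.length →
    b < B → (∀ d ∈ l, d ≤ W) →
    RT B K w (W * b) (rowS (B ^ K) l P) (rowS (B ^ K) l N) (fun a i => (l.getD a 0 : ℝ) * y i) l.length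
  | [], _, _, _, _, _, _, _ => trivial
  | d :: l, P, N, b, y, h, hb, hl => by
    refine ⟨RC.mono (RC.mulN h d) (Nat.mul_le_mul_right b (hl d (by simp))), ?_⟩
    exact rowS_ok hw (W := W) l (Nat.div P (B ^ K)) (Nat.div N (B ^ K)) b (fun i => y (i + 1)) (RC.tl hw h hb) hb
      fun e he => hl e (by simp [he])

theorem rowS_add (C : ℕ) : ∀ (l m : List ℕ) (N : ℕ), l.length = m.length →
    adS (rowS C l N) (rowS C m N) = rowS C (adS l m) N
  | [], [], _, _ => rfl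
  | a :: l, b :: m, N, h => by
    simp only [rowS, adS, rowS_add C l m _ (by simpa using h)]
    congr 1
    change a * N + b * N = (a + b) * N
    ring
  | [], _ :: _, _, h => by simp at h
  | _ :: _, [], _, h => by simp at h

theorem adS_length : ∀ {l m : List ℕ} {k : ℕ}, l.length = k → m.length = k → (adS l m).length = k
  | [], [], k, h1, _ => by simpa [adS] using h1
  | a :: l, b :: m, 0, h1, _ => by simp at h1
  | a :: l, b :: m, k + 1, h1, h2 => by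
    simp only [adS, List.length_cons]
    rw [adS_length (k := k) (by simpa using h1) (by simpa using h2)]
  | [], _ :: _, k, h1, h2 => by simp at h1; subst h1; simp at h2
  | _ :: _, [], k, h1, h2 => by simp at h2; subst h2; simp at h1

/-- the rows `x` without the first `a` chunks, times `o` -/
def rowD (C o : ℕ) : ℕ → ℕ → List ℕ
  | 0, _ => []
  | m + 1, P => Nat.mul o P :: rowD C o m (Nat.div P C)

theorem rowD_ok (hw : w.length = K) (o : ℕ) : ∀ (m P N b : ℕ) (y : ℕ → ℝ), RC B K w ⟨P, N, b⟩ y m →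
    b < B → RT B K w (o * b) (rowD (B ^ K) o m P) (rowD (B ^ K) o m N) (fun _ i => (o : ℝ) * y i) m
  | 0, _, _, _, _, _, _ => trivial
  | m + 1, P, N, b, y, h, hb =>
    ⟨RC.mulN h o, rowD_ok hw o m (P / B ^ K) (N / B ^ K) b (fun i => y (i + 1)) (RC.tl hw h hb) hb⟩

theorem RT.swap : ∀ {ps ns : List ℕ} {T : ℕ → ℕ → ℝ} {m b : ℕ}, RT B K w b ps ns T m →
    RT B K w b ns ps (fun a i => -1 * T a i) m
  | p :: ps, n :: ns, T, m + 1, b, ⟨h1, h2⟩ => ⟨RC.swap h1, RT.swap h2⟩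
  | [], [], _, 0, _, _ => trivial

/-- minus `h` times the symmetric table -/
def dbL (C h b : ℕ) : List ℕ → List ℕ → List PV
  | p :: ps, n :: ns => ⟨Nat.mul h (Nat.add (Nat.mul 2 n) (Nat.mod p C)),
      Nat.mul h (Nat.add (Nat.mul 2 p) (Nat.mod n C)), Nat.mul h (Nat.mul 3 b)⟩ :: dbL C h b ps ns
  | _, _ => []

theorem dbL_ok (hw : w.length = K) (h : ℕ) : ∀ (ps ns : List ℕ) (T : ℕ → ℕ → ℝ) (m b : ℕ) (D : List ℝ),
    RT B K w b ps ns T m → b < B → D.length = m → TV B K w (dbL (B ^ K) h b ps ns) D (-(h * e2 T D))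
  | p :: ps, n :: ns, T, m + 1, b, d :: D, ⟨h1, h2⟩, hb, hD => by
    have ih := dbL_ok hw h ps ns _ m b D h2 hb (by simpa using hD)
    have k1 := RC.hd hw h1 hb
    have k2 := h1 (d :: D) hD
    have k3 := RR.cons hw (d := d) k1 (RR.zero (D := D))
    have k4 : RR B K w (d :: D) ⟨Nat.mod p (B ^ K), Nat.mod n (B ^ K), b⟩ (d * T 0 0 + 0) := by
      have e : PV.cons (B ^ K) (PV.hd (B ^ K) ⟨p, n, b⟩) ⟨0, 0, 0⟩ = ⟨Nat.mod p (B ^ K), Nat.mod n (B ^ K), b⟩ := by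
        have : mx b 0 = b := by
          change b + (0 - b) = b
          omega
        simp only [PV.cons, PV.hd, this, PV.mk.injEq]
        exact ⟨rfl, rfl, trivial⟩
      rw [← e]
      exact k3
    have k5 := RV.mulN (RV.sub k4 (RV.add k2 k2)) h
    refine ⟨(h : ℕ) * ((d * T 0 0 + 0) - (df (T 0) (d :: D) + df (T 0) (d :: D))), _, ?_, ih, ?_⟩
    · have e : (⟨Nat.mul h (Nat.add (Nat.mul 2 n) (Nat.mod p (B ^ K))), Nat.mul h (Nat.add (Nat.mul 2 p)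
          (Nat.mod n (B ^ K))), Nat.mul h (Nat.mul 3 b)⟩ : PV) = ⟨Nat.mul h (PV.sub ⟨Nat.mod p (B ^ K),
          Nat.mod n (B ^ K), b⟩ (PV.add ⟨p, n, b⟩ ⟨p, n, b⟩)).p, Nat.mul h (PV.sub ⟨Nat.mod p (B ^ K),
          Nat.mod n (B ^ K), b⟩ (PV.add ⟨p, n, b⟩ ⟨p, n, b⟩)).n, Nat.mul h (PV.sub ⟨Nat.mod p (B ^ K),
          Nat.mod n (B ^ K), b⟩ (PV.add ⟨p, n, b⟩ ⟨p, n, b⟩)).b⟩ := by
        simp only [PV.add, PV.sub, PV.mk.injEq, Nat.add_eq, Nat.mul_eq]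
        exact ⟨by ring, by ring, by ring⟩
      rw [e]
      exact k5
    · simp only [e2, df]
      ring
  | [], [], _, 0, _, [], _, _, _ => by simp [dbL, TV, e2]

end RC

/-! ### squares -/

/-- complement of a digit row -/
def cmp (Z X : ℕ) : ℕ := Nat.sub (Nat.mul 2 Z) X

/-- the rows `2 Re (conj e z)` for the basis, negative parts constant -/
def mkP (B : ℕ) (p q r s t u Z W : ℕ) : Y6 :=
  let g := fun (l : List ℕ) (x : ℕ) => PV.out (mkV B l z9) ⟨x, Z, W⟩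
  ⟨PV.add (g [2, 0, 0, 0, 0, 0, 0, 0, 0] p) (PV.add (PV.add (g [0, 0, 0, 1, 0, 0, 0, 0, 0] r)
      (g [0, 0, 0, 0, 1, 0, 0, 0, 0] s)) (PV.add (g [0, 0, 0, 0, 0, 1, 0, 0, 0] t) (g [0, 0, 0, 0, 0, 0, 1, 0, 0] u))),
    PV.add (g [2, 0, 0, 0, 0, 0, 0, 0, 0] q) (PV.add (PV.add (g [0, 0, 0, 1, 0, 0, 0, 0, 0] s)
      (g [0, 0, 0, 0, 1, 0, 0, 0, 0] (cmp Z r))) (PV.add (g [0, 0, 0, 0, 0, 1, 0, 0, 0] u)
      (g [0, 0, 0, 0, 0, 0, 1, 0, 0] (cmp Z t)))),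
    PV.add (g [0, 2, 0, 0, 0, 0, 0, 0, 0] r) (PV.add (PV.add (g [0, 0, 0, 1, 0, 0, 0, 0, 0] p)
      (g [0, 0, 0, 0, 1, 0, 0, 0, 0] (cmp Z q))) (PV.add (g [0, 0, 0, 0, 0, 0, 0, 1, 0] t)
      (g [0, 0, 0, 0, 0, 0, 0, 0, 1] u))),
    PV.add (g [0, 2, 0, 0, 0, 0, 0, 0, 0] s) (PV.add (PV.add (g [0, 0, 0, 1, 0, 0, 0, 0, 0] q)
      (g [0, 0, 0, 0, 1, 0, 0, 0, 0] p)) (PV.add (g [0, 0, 0, 0, 0, 0, 0, 1, 0] u)
      (g [0, 0, 0, 0, 0, 0, 0, 0, 1] (cmp Z t)))),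
    PV.add (g [0, 0, 2, 0, 0, 0, 0, 0, 0] t) (PV.add (PV.add (g [0, 0, 0, 0, 0, 1, 0, 0, 0] p)
      (g [0, 0, 0, 0, 0, 0, 1, 0, 0] (cmp Z q))) (PV.add (g [0, 0, 0, 0, 0, 0, 0, 1, 0] r)
      (g [0, 0, 0, 0, 0, 0, 0, 0, 1] (cmp Z s)))),
    PV.add (g [0, 0, 2, 0, 0, 0, 0, 0, 0] u) (PV.add (PV.add (g [0, 0, 0, 0, 0, 1, 0, 0, 0] q)
      (g [0, 0, 0, 0, 0, 0, 1, 0, 0] p)) (PV.add (g [0, 0, 0, 0, 0, 0, 0, 1, 0] s)
      (g [0, 0, 0, 0, 0, 0, 0, 0, 1] r)))⟩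

/-- `2 Re (conj e y)` for the basis -/
def Ph (z1 z2 z3 : ℂ) (y : V6) : V6 :=
  ⟨2 * Complex.normSq z1 * y.a + ((2 * ((starRingEnd ℂ) z1 * z2).re) * y.c + -(2 * ((starRingEnd ℂ) z1 * z2).im) * y.d
      + ((2 * ((starRingEnd ℂ) z1 * z3).re) * y.e + -(2 * ((starRingEnd ℂ) z1 * z3).im) * y.f)),
    2 * Complex.normSq z1 * y.b + ((2 * ((starRingEnd ℂ) z1 * z2).re) * y.d + -(2 * ((starRingEnd ℂ) z1 * z2).im) * -y.c
      + ((2 * ((starRingEnd ℂ) z1 * z3).re) * y.f + -(2 * ((starRingEnd ℂ) z1 * z3).im) * -y.e)),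
    2 * Complex.normSq z2 * y.c + ((2 * ((starRingEnd ℂ) z1 * z2).re) * y.a + -(2 * ((starRingEnd ℂ) z1 * z2).im) * -y.b
      + ((2 * ((starRingEnd ℂ) z2 * z3).re) * y.e + -(2 * ((starRingEnd ℂ) z2 * z3).im) * y.f)),
    2 * Complex.normSq z2 * y.d + ((2 * ((starRingEnd ℂ) z1 * z2).re) * y.b + -(2 * ((starRingEnd ℂ) z1 * z2).im) * y.a
      + ((2 * ((starRingEnd ℂ) z2 * z3).re) * y.f + -(2 * ((starRingEnd ℂ) z2 * z3).im) * -y.e)),
    2 * Complex.normSq z3 * y.e + ((2 * ((starRingEnd ℂ) z1 * z3).re) * y.a + -(2 * ((starRingEnd ℂ) z1 * z3).im) * -y.b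
      + ((2 * ((starRingEnd ℂ) z2 * z3).re) * y.c + -(2 * ((starRingEnd ℂ) z2 * z3).im) * -y.d)),
    2 * Complex.normSq z3 * y.f + ((2 * ((starRingEnd ℂ) z1 * z3).re) * y.b + -(2 * ((starRingEnd ℂ) z1 * z3).im) * y.a
      + ((2 * ((starRingEnd ℂ) z2 * z3).re) * y.d + -(2 * ((starRingEnd ℂ) z2 * z3).im) * y.c))⟩

def Bl (z1 z2 z3 : ℂ) (x y : V6) : ℝ :=
  x.a * (Ph z1 z2 z3 y).a + x.b * (Ph z1 z2 z3 y).b + x.c * (Ph z1 z2 z3 y).c + x.d * (Ph z1 z2 z3 y).d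
    + x.e * (Ph z1 z2 z3 y).e + x.f * (Ph z1 z2 z3 y).f

theorem Bl_self (z1 z2 z3 : ℂ) (x : V6) :
    Bl z1 z2 z3 x x = 2 * Complex.normSq (⟨x.a, x.b⟩ * z1 + ⟨x.c, x.d⟩ * z2 + ⟨x.e, x.f⟩ * z3) := by
  simp only [Bl, Ph, Complex.normSq_apply, Complex.add_re, Complex.add_im, Complex.mul_re, Complex.mul_im,
    Complex.conj_re, Complex.conj_im]
  ring

/-- componentwise linear form -/
def dv (u : ℕ → V6) (D : List ℝ) : V6 :=
  ⟨df (fun i => (u i).a) D, df (fun i => (u i).b) D, df (fun i => (u i).c) D, df (fun i => (u i).d) D,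
    df (fun i => (u i).e) D, df (fun i => (u i).f) D⟩

theorem df_Bl (z1 z2 z3 : ℂ) (x : V6) : ∀ (u : ℕ → V6) (D : List ℝ),
    df (fun i => Bl z1 z2 z3 x (u i)) D = Bl z1 z2 z3 x (dv u D)
  | u, [] => by simp [df, dv, Bl, Ph]
  | u, d :: D => by
    simp only [df]
    rw [df_Bl z1 z2 z3 x (fun i => u (i + 1)) D]
    simp only [dv, df, Bl, Ph]
    ring

theorem e2_Bl (z1 z2 z3 : ℂ) : ∀ (u : ℕ → V6) (D : List ℝ),
    e2 (fun a i => Bl z1 z2 z3 (u a) (u i)) D = Bl z1 z2 z3 (dv u D) (dv u D)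
  | u, [] => by simp [e2, dv, df, Bl, Ph]
  | u, d :: D => by
    simp only [e2]
    rw [e2_Bl z1 z2 z3 (fun i => u (i + 1)) D, df_Bl z1 z2 z3 (u 0) (fun i => u (i + 1)) D]
    simp only [dv, df, Bl, Ph]
    ring

theorem e2_Bl_nonneg (z1 z2 z3 : ℂ) (u : ℕ → V6) (D : List ℝ) : 0 ≤ e2 (fun a i => Bl z1 z2 z3 (u a) (u i)) D := by
  rw [e2_Bl, Bl_self]
  exact mul_nonneg (by norm_num) (Complex.normSq_nonneg _)

/-! ### digits -/

/-- row of integers with the values `g` -/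
def XR (C : ℕ) (x Z W : ℕ) (g : ℕ → ℝ) (m : ℕ) : Prop :=
  ∀ D : List ℝ, D.length = m → RV C D.length D ⟨x, Z, W⟩ (df g D)

theorem ip_df : ∀ (l : List ℕ) (D : List ℝ), l.length = D.length → ip D l = df (fun i => (l.getD i 0 : ℝ)) D
  | [], [], _ => rfl
  | a :: l, d :: D, h => by
    have ih := ip_df l D (by simpa using h)
    simp only [ip, df, List.getD_cons_zero, List.getD_cons_succ]
    rw [ih]
    ring
  | [], _ :: _, h => by simp at h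
  | _ :: _, [], h => by simp at h

theorem df_const (c : ℝ) : ∀ D : List ℝ, df (fun _ => c) D = c * D.sum
  | [] => by simp [df]
  | d :: D => by
    simp only [df, List.sum_cons]
    rw [df_const c D]
    ring

theorem XR_of {C W o : ℕ} (ho : o ≤ W) {l : List ℕ} (hl : ∀ d ∈ l, d ≤ W) :
    XR C (od C l) (od C (List.replicate l.length o)) W (fun i => (l.getD i 0 : ℝ) - o) l.length := fun D hD => by
  refine ⟨l, List.replicate l.length o, hD.symm, by simp [hD], rfl, rfl, hl, fun d hd => ?_, ?_⟩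
  · rw [List.eq_of_mem_replicate hd]
    exact ho
  · rw [ip_df l D hD.symm, ← hD, ip_rep', sub_eq_add_neg]
    have e : df (fun i => (l.getD i 0 : ℝ) - o) D = df (fun i => (l.getD i 0 : ℝ)) D + df (fun _ => -(o : ℝ)) D := by
      rw [← df_add]
      rfl
    rw [e, df_const]
    ring

theorem od_cmp (C o : ℕ) : ∀ l : List ℕ, (∀ d ∈ l, d ≤ 2 * o) →
    od C (l.map fun d => 2 * o - d) + od C l = 2 * od C (List.replicate l.length o)
  | [], _ => by simp [od]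
  | d :: l, h => by
    have ih := od_cmp C o l fun e he => h e (by simp [he])
    have h1 := h d (by simp)
    simp only [List.map_cons, List.length_cons, List.replicate_succ, od, Nat.add_eq, Nat.mul_eq]
    obtain ⟨e, he⟩ := Nat.exists_eq_add_of_le h1
    have h2 : 2 * o - d = e := by omega
    rw [h2]
    calc e + C * od C (l.map fun d => 2 * o - d) + (d + C * od C l)
        = (d + e) + C * (od C (l.map fun d => 2 * o - d) + od C l) := by ring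
      _ = 2 * (o + C * od C (List.replicate l.length o)) := by
        rw [ih, ← he]
        ring

theorem XR_cmp {C o : ℕ} {l : List ℕ} (hl : ∀ d ∈ l, d ≤ 2 * o) :
    XR C (cmp (od C (List.replicate l.length o)) (od C l)) (od C (List.replicate l.length o)) (2 * o)
      (fun i => -((l.getD i 0 : ℝ) - o)) l.length := by
  have h0 := od_cmp C o l hl
  have e : cmp (od C (List.replicate l.length o)) (od C l) = od C (l.map fun d => 2 * o - d) := by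
    unfold cmp
    change 2 * od C (List.replicate l.length o) - od C l = _
    omega
  intro D hD
  rw [e]
  refine ⟨_, List.replicate l.length o, by simp [hD], by simp [hD], rfl, rfl, fun d hd => ?_, fun d hd => ?_, ?_⟩
  · obtain ⟨x, _, rfl⟩ := List.mem_map.1 hd
    exact Nat.sub_le _ _
  · rw [List.eq_of_mem_replicate hd]
    change o ≤ 2 * o
    omega
  · have key : ∀ (l : List ℕ) (D : List ℝ), (∀ d ∈ l, d ≤ 2 * o) → l.length = D.length →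
        ip D (l.map fun d => 2 * o - d) = 2 * o * D.sum - ip D l := by
      intro l
      induction l with
      | nil =>
        intro D _ h
        cases D with
        | nil => simp
        | cons _ _ => simp at h
      | cons a l ih =>
        intro D h1 h2
        cases D with
        | nil => simp at h2
        | cons d D =>
          have h3 := ih D (fun e he => h1 e (by simp [he])) (by simpa using h2)
          simp only [List.map_cons, ip, List.sum_cons]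
          rw [h3, Nat.cast_sub (h1 a (by simp))]
          push_cast
          ring
    rw [key l D hl hD.symm, ip_df l D hD.symm, ← hD, ip_rep']
    have e : df (fun i => -((l.getD i 0 : ℝ) - o)) D
        = -1 * (df (fun i => (l.getD i 0 : ℝ)) D + df (fun _ => -(o : ℝ)) D) := by
      rw [← df_add, ← df_mul]
      congr 1
      funext i
      ring
    rw [e, df_const]
    ring

theorem RC.out {B K : ℕ} {w : List ℝ} (hw : w.length = K) {c : PV} {s : ℝ} (h1 : RV B K w c s) {x Z W m : ℕ}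
    {g : ℕ → ℝ} (h2 : XR (B ^ K) x Z W g m) : RC B K w (PV.out c ⟨x, Z, W⟩) (fun i => s * g i) m := fun D hD => by
  rw [df_mul]
  exact out_RI hw h1 (h2 D hD)

/-- values of the digits at the index `i` -/
def uV (o : ℕ) (l1 l2 l3 l4 l5 l6 : List ℕ) (i : ℕ) : V6 :=
  ⟨(l1.getD i 0 : ℝ) - o, (l2.getD i 0 : ℝ) - o, (l3.getD i 0 : ℝ) - o, (l4.getD i 0 : ℝ) - o, (l5.getD i 0 : ℝ) - o,
    (l6.getD i 0 : ℝ) - o⟩

/-- digit lists related to the rows of `mkP` -/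
structure Dg (m W : ℕ) (l1 l2 l3 l4 l5 l6 : List ℕ) : Prop where
  h1 : l1.length = m
  h2 : l2.length = m
  h3 : l3.length = m
  h4 : l4.length = m
  h5 : l5.length = m
  h6 : l6.length = m
  k1 : ∀ d ∈ l1, d ≤ W
  k2 : ∀ d ∈ l2, d ≤ W
  k3 : ∀ d ∈ l3, d ≤ W
  k4 : ∀ d ∈ l4, d ≤ W
  k5 : ∀ d ∈ l5, d ≤ W
  k6 : ∀ d ∈ l6, d ≤ W

/-- the rows of a square -/
def mkQ (B C o m : ℕ) (l1 l2 l3 l4 l5 l6 : List ℕ) : Y6 :=
  mkP B (od C l1) (od C l2) (od C l3) (od C l4) (od C l5) (od C l6) (od C (List.replicate m o)) (Nat.mul 2 o)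

theorem mkQ_ok {B o m : ℕ} {z1 z2 z3 : ℂ} {l1 l2 l3 l4 l5 l6 : List ℕ} (H : Dg m (2 * o) l1 l2 l3 l4 l5 l6) :
    RC B 9 (w3 z1 z2 z3) (mkQ B (B ^ 9) o m l1 l2 l3 l4 l5 l6).a (fun i => (Ph z1 z2 z3 (uV o l1 l2 l3 l4 l5 l6 i)).a) m ∧
    RC B 9 (w3 z1 z2 z3) (mkQ B (B ^ 9) o m l1 l2 l3 l4 l5 l6).b (fun i => (Ph z1 z2 z3 (uV o l1 l2 l3 l4 l5 l6 i)).b) m ∧
    RC B 9 (w3 z1 z2 z3) (mkQ B (B ^ 9) o m l1 l2 l3 l4 l5 l6).c (fun i => (Ph z1 z2 z3 (uV o l1 l2 l3 l4 l5 l6 i)).c) m ∧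
    RC B 9 (w3 z1 z2 z3) (mkQ B (B ^ 9) o m l1 l2 l3 l4 l5 l6).d (fun i => (Ph z1 z2 z3 (uV o l1 l2 l3 l4 l5 l6 i)).d) m ∧
    RC B 9 (w3 z1 z2 z3) (mkQ B (B ^ 9) o m l1 l2 l3 l4 l5 l6).e (fun i => (Ph z1 z2 z3 (uV o l1 l2 l3 l4 l5 l6 i)).e) m ∧
    RC B 9 (w3 z1 z2 z3) (mkQ B (B ^ 9) o m l1 l2 l3 l4 l5 l6).f
      (fun i => (Ph z1 z2 z3 (uV o l1 l2 l3 l4 l5 l6 i)).f) m := by
  have ho : o ≤ 2 * o := by omega
  have p1 := XR_of (C := B ^ 9) ho H.k1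
  have p2 := XR_of (C := B ^ 9) ho H.k2
  have p3 := XR_of (C := B ^ 9) ho H.k3
  have p4 := XR_of (C := B ^ 9) ho H.k4
  have p5 := XR_of (C := B ^ 9) ho H.k5
  have p6 := XR_of (C := B ^ 9) ho H.k6
  have c2 := XR_cmp (C := B ^ 9) H.k2
  have c3 := XR_cmp (C := B ^ 9) H.k3
  have c4 := XR_cmp (C := B ^ 9) H.k4
  have c5 := XR_cmp (C := B ^ 9) H.k5
  rw [H.h1] at p1
  rw [H.h2] at p2 c2
  rw [H.h3] at p3 c3
  rw [H.h4] at p4 c4
  rw [H.h5] at p5 c5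
  rw [H.h6] at p6
  have g : ∀ (l : List ℕ), l.length = 9 → ∀ {x : ℕ} {v : ℕ → ℝ}, XR (B ^ 9) x (od (B ^ 9) (List.replicate m o)) (2 * o) v m →
      RC B 9 (w3 z1 z2 z3) (PV.out (mkV B l z9) ⟨x, od (B ^ 9) (List.replicate m o), 2 * o⟩)
      (fun i => (ip (w3 z1 z2 z3) l - ip (w3 z1 z2 z3) z9) * v i) m := fun l hl x v h =>
    RC.out (w := w3 z1 z2 z3) (K := 9) rfl (mkV_ok hl rfl) h
  have fix : ∀ {x : PV} {u v : ℕ → ℝ}, RC B 9 (w3 z1 z2 z3) x u m → (∀ i, u i = v i) → RC B 9 (w3 z1 z2 z3) x v m := by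
    intro x u v h1 h2
    have : u = v := funext h2
    rw [← this]
    exact h1
  refine ⟨?_, ?_, ?_, ?_, ?_, ?_⟩
  · refine fix (RC.add (g [2, 0, 0, 0, 0, 0, 0, 0, 0] rfl p1) (RC.add (RC.add
      (g [0, 0, 0, 1, 0, 0, 0, 0, 0] rfl p3) (g [0, 0, 0, 0, 1, 0, 0, 0, 0] rfl p4)) (RC.add
      (g [0, 0, 0, 0, 0, 1, 0, 0, 0] rfl p5) (g [0, 0, 0, 0, 0, 0, 1, 0, 0] rfl p6)))) fun i => ?_
    simp only [w3, ip, z9, Ph, uV]
    push_cast
    ring
  · refine fix (RC.add (g [2, 0, 0, 0, 0, 0, 0, 0, 0] rfl p2) (RC.add (RC.add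
      (g [0, 0, 0, 1, 0, 0, 0, 0, 0] rfl p4) (g [0, 0, 0, 0, 1, 0, 0, 0, 0] rfl c3)) (RC.add
      (g [0, 0, 0, 0, 0, 1, 0, 0, 0] rfl p6) (g [0, 0, 0, 0, 0, 0, 1, 0, 0] rfl c5)))) fun i => ?_
    simp only [w3, ip, z9, Ph, uV]
    push_cast
    ring
  · refine fix (RC.add (g [0, 2, 0, 0, 0, 0, 0, 0, 0] rfl p3) (RC.add (RC.add
      (g [0, 0, 0, 1, 0, 0, 0, 0, 0] rfl p1) (g [0, 0, 0, 0, 1, 0, 0, 0, 0] rfl c2)) (RC.add
      (g [0, 0, 0, 0, 0, 0, 0, 1, 0] rfl p5) (g [0, 0, 0, 0, 0, 0, 0, 0, 1] rfl p6)))) fun i => ?_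
    simp only [w3, ip, z9, Ph, uV]
    push_cast
    ring
  · refine fix (RC.add (g [0, 2, 0, 0, 0, 0, 0, 0, 0] rfl p4) (RC.add (RC.add
      (g [0, 0, 0, 1, 0, 0, 0, 0, 0] rfl p2) (g [0, 0, 0, 0, 1, 0, 0, 0, 0] rfl p1)) (RC.add
      (g [0, 0, 0, 0, 0, 0, 0, 1, 0] rfl p6) (g [0, 0, 0, 0, 0, 0, 0, 0, 1] rfl c5)))) fun i => ?_
    simp only [w3, ip, z9, Ph, uV]
    push_cast
    ring
  · refine fix (RC.add (g [0, 0, 2, 0, 0, 0, 0, 0, 0] rfl p5) (RC.add (RC.add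
      (g [0, 0, 0, 0, 0, 1, 0, 0, 0] rfl p1) (g [0, 0, 0, 0, 0, 0, 1, 0, 0] rfl c2)) (RC.add
      (g [0, 0, 0, 0, 0, 0, 0, 1, 0] rfl p3) (g [0, 0, 0, 0, 0, 0, 0, 0, 1] rfl c4)))) fun i => ?_
    simp only [w3, ip, z9, Ph, uV]
    push_cast
    ring
  · refine fix (RC.add (g [0, 0, 2, 0, 0, 0, 0, 0, 0] rfl p6) (RC.add (RC.add
      (g [0, 0, 0, 0, 0, 1, 0, 0, 0] rfl p2) (g [0, 0, 0, 0, 0, 0, 1, 0, 0] rfl p1)) (RC.add
      (g [0, 0, 0, 0, 0, 0, 0, 1, 0] rfl p4) (g [0, 0, 0, 0, 0, 0, 0, 0, 1] rfl p3)))) fun i => ?_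
    simp only [w3, ip, z9, Ph, uV]
    push_cast
    ring

/-- the negative parts and the bounds of the rows are constant -/
theorem mkQ_const (B C o m : ℕ) (l1 l2 l3 l4 l5 l6 : List ℕ) :
    (mkQ B C o m l1 l2 l3 l4 l5 l6).a.n = (mkP B 0 0 0 0 0 0 (od C (List.replicate m o)) (Nat.mul 2 o)).a.n ∧
    (mkQ B C o m l1 l2 l3 l4 l5 l6).b.n = (mkP B 0 0 0 0 0 0 (od C (List.replicate m o)) (Nat.mul 2 o)).b.n ∧
    (mkQ B C o m l1 l2 l3 l4 l5 l6).c.n = (mkP B 0 0 0 0 0 0 (od C (List.replicate m o)) (Nat.mul 2 o)).c.n ∧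
    (mkQ B C o m l1 l2 l3 l4 l5 l6).d.n = (mkP B 0 0 0 0 0 0 (od C (List.replicate m o)) (Nat.mul 2 o)).d.n ∧
    (mkQ B C o m l1 l2 l3 l4 l5 l6).e.n = (mkP B 0 0 0 0 0 0 (od C (List.replicate m o)) (Nat.mul 2 o)).e.n ∧
    (mkQ B C o m l1 l2 l3 l4 l5 l6).f.n = (mkP B 0 0 0 0 0 0 (od C (List.replicate m o)) (Nat.mul 2 o)).f.n := by
  refine ⟨?_, ?_, ?_, ?_, ?_, ?_⟩ <;>
  simp [mkQ, mkP, PV.add, PV.out, mkV, z9, od]

theorem mkQ_b (B C o m : ℕ) (l1 l2 l3 l4 l5 l6 : List ℕ) :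
    (mkQ B C o m l1 l2 l3 l4 l5 l6).a.b = 24 * o ∧ (mkQ B C o m l1 l2 l3 l4 l5 l6).b.b = 24 * o ∧
    (mkQ B C o m l1 l2 l3 l4 l5 l6).c.b = 24 * o ∧ (mkQ B C o m l1 l2 l3 l4 l5 l6).d.b = 24 * o ∧
    (mkQ B C o m l1 l2 l3 l4 l5 l6).e.b = 24 * o ∧ (mkQ B C o m l1 l2 l3 l4 l5 l6).f.b = 24 * o := by
  refine ⟨?_, ?_, ?_, ?_, ?_, ?_⟩ <;>
  · simp [mkQ, mkP, PV.add, PV.out, mkV, z9]
    ring

/-! ### sums over the squares -/

/-- sum of the row tables -/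
def sP (C m : ℕ) (f : ℕ → List ℕ) (g : ℕ → ℕ) : List ℕ → List ℕ
  | [] => List.replicate m 0
  | x :: qs => adS (rowS C (f x) (g x)) (sP C m f g qs)

/-- sum of the digit lists -/
def sL (m : ℕ) (f : ℕ → List ℕ) : List ℕ → List ℕ
  | [] => List.replicate m 0
  | x :: qs => adS (f x) (sL m f qs)

/-- sum of numbers -/
def sN (g : ℕ → ℕ) : List ℕ → ℕ
  | [] => 0
  | x :: qs => Nat.add (g x) (sN g qs)

/-- sum of functions -/
def sF (y : ℕ → ℕ → ℝ) : List ℕ → ℕ → ℝ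
  | [] => fun _ => 0
  | x :: qs => fun i => y x i + sF y qs i

def sF2 (y : ℕ → ℕ → ℕ → ℝ) : List ℕ → ℕ → ℕ → ℝ
  | [] => fun _ _ => 0
  | x :: qs => fun a i => y x a i + sF2 y qs a i

theorem e2_sF2 (y : ℕ → ℕ → ℕ → ℝ) (h : ∀ x D, 0 ≤ e2 (y x) D) : ∀ (qs : List ℕ) (D : List ℝ), 0 ≤ e2 (sF2 y qs) D
  | [], D => by
    simp only [sF2]
    rw [e2_zero]
  | x :: qs, D => by
    simp only [sF2]
    rw [e2_add]
    exact add_nonneg (h x D) (e2_sF2 y h qs D)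

section sums

variable {B K : ℕ} {w : List ℝ}

theorem RT.zero : ∀ m : ℕ, RT B K w 0 (List.replicate m 0) (List.replicate m 0) (fun _ _ => 0) m
  | 0 => trivial
  | m + 1 => ⟨RC.zero (m + 1), RT.zero m⟩

theorem rowS_zero (C : ℕ) : ∀ (m N : ℕ), rowS C (List.replicate m 0) N = List.replicate m 0
  | 0, _ => rfl
  | m + 1, N => by
    simp only [List.replicate_succ, rowS, rowS_zero C m]
    congr 1
    exact Nat.zero_mul N

theorem sL_length {m : ℕ} {f : ℕ → List ℕ} (hf : ∀ x, (f x).length = m) : ∀ qs, (sL m f qs).length = m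
  | [] => by simp [sL]
  | x :: qs => adS_length (hf x) (sL_length hf qs)

theorem sP_ok (hw : w.length = K) {m W N b : ℕ} {f : ℕ → List ℕ} {g : ℕ → ℕ} {y : ℕ → ℕ → ℝ}
    (hf : ∀ x, (f x).length = m) (hd : ∀ x, ∀ d ∈ f x, d ≤ W) (hg : ∀ x, RC B K w ⟨g x, N, b⟩ (y x) m) (hb : b < B) :
    ∀ qs : List ℕ, RT B K w (qs.length * (W * b)) (sP (B ^ K) m f g qs) (rowS (B ^ K) (sL m f qs) N)
      (sF2 (fun x a i => ((f x).getD a 0 : ℝ) * y x i) qs) m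
  | [] => by
    simp only [sP, sL, sF2, List.length_nil, Nat.zero_mul]
    rw [rowS_zero]
    exact RT.zero m
  | x :: qs => by
    have ih := sP_ok hw hf hd hg hb qs
    have h1 := rowS_ok hw (W := W) (f x) (g x) N b (y x) (by rw [hf]; exact hg x) hb (hd x)
    rw [hf] at h1
    have h2 := RT.add h1 ih
    simp only [sP, sL, sF2, List.length_cons]
    rw [← rowS_add _ _ _ _ ((hf x).trans (sL_length hf qs).symm)]
    have e : W * b + qs.length * (W * b) = (qs.length + 1) * (W * b) := by ring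
    rw [← e]
    exact h2

theorem sN_ok {m N b : ℕ} {g : ℕ → ℕ} {y : ℕ → ℕ → ℝ} (hg : ∀ x, RC B K w ⟨g x, N, b⟩ (y x) m) :
    ∀ qs : List ℕ, RC B K w ⟨sN g qs, Nat.mul qs.length N, qs.length * b⟩ (sF y qs) m
  | [] => by
    have : (⟨sN g [], Nat.mul ([] : List ℕ).length N, ([] : List ℕ).length * b⟩ : PV) = ⟨0, 0, 0⟩ := by
      simp [sN]
    rw [this]
    exact RC.zero m
  | x :: qs => by
    have h := RC.add (hg x) (sN_ok hg qs)
    have e : PV.add ⟨g x, N, b⟩ ⟨sN g qs, Nat.mul qs.length N, qs.length * b⟩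
        = ⟨sN g (x :: qs), Nat.mul (x :: qs).length N, (x :: qs).length * b⟩ := by
      simp only [PV.add, sN, PV.mk.injEq, List.length_cons, Nat.add_eq, Nat.mul_eq]
      exact ⟨trivial, by ring, by ring⟩
    rw [← e]
    exact h

end sums

/-- minus `h` times the sum of the squares -/
def frG (B C h o m : ℕ) (f1 f2 f3 f4 f5 f6 : ℕ → List ℕ) (qs : List ℕ) : List PV :=
  let Z := od C (List.replicate m o)
  let Y := fun x => mkQ B C o m (f1 x) (f2 x) (f3 x) (f4 x) (f5 x) (f6 x)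
  let N := mkP B 0 0 0 0 0 0 Z (Nat.mul 2 o)
  let ap := adS (sP C m f1 (fun x => (Y x).a.p) qs) (adS (sP C m f2 (fun x => (Y x).b.p) qs)
    (adS (sP C m f3 (fun x => (Y x).c.p) qs) (adS (sP C m f4 (fun x => (Y x).d.p) qs)
    (adS (sP C m f5 (fun x => (Y x).e.p) qs) (sP C m f6 (fun x => (Y x).f.p) qs)))))
  let an := adS (rowS C (sL m f1 qs) N.a.n) (adS (rowS C (sL m f2 qs) N.b.n)
    (adS (rowS C (sL m f3 qs) N.c.n) (adS (rowS C (sL m f4 qs) N.d.n)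
    (adS (rowS C (sL m f5 qs) N.e.n) (rowS C (sL m f6 qs) N.f.n)))))
  let pp := Nat.add (sN (fun x => (Y x).a.p) qs) (Nat.add (sN (fun x => (Y x).b.p) qs)
    (Nat.add (sN (fun x => (Y x).c.p) qs) (Nat.add (sN (fun x => (Y x).d.p) qs)
    (Nat.add (sN (fun x => (Y x).e.p) qs) (sN (fun x => (Y x).f.p) qs)))))
  let pn := Nat.mul qs.length (Nat.add N.a.n (Nat.add N.b.n (Nat.add N.c.n (Nat.add N.d.n (Nat.add N.e.n N.f.n)))))
  dbL C h (Nat.mul 432 (Nat.mul qs.length (Nat.mul o o))) (adS ap (rowD C o m pn)) (adS an (rowD C o m pp))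

theorem frG_ok {B : ℕ} {z1 z2 z3 : ℂ} (h o m : ℕ) {f1 f2 f3 f4 f5 f6 : ℕ → List ℕ}
    (H : ∀ x, Dg m (2 * o) (f1 x) (f2 x) (f3 x) (f4 x) (f5 x) (f6 x)) (qs : List ℕ) (ho : 0 < o) (hq : 0 < qs.length)
    (hB : 432 * (qs.length * (o * o)) < B) {D : List ℝ} (hD : D.length = m) :
    ∃ t, TV B 9 (w3 z1 z2 z3) (frG B (B ^ 9) h o m f1 f2 f3 f4 f5 f6 qs) D t ∧ t ≤ 0 := by
  have hq2 : 24 * o ≤ 432 * (qs.length * (o * o)) := by
    have h1 : o ≤ o * o := Nat.le_mul_of_pos_right o ho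
    have h2 : o * o ≤ qs.length * (o * o) := Nat.le_mul_of_pos_left _ hq
    omega
  have hb1 : 24 * o < B := lt_of_le_of_lt hq2 hB
  have hq3 : 6 * (qs.length * (24 * o)) ≤ 432 * (qs.length * (o * o)) := by
    have h1 : o ≤ o * o := Nat.le_mul_of_pos_right o ho
    have h2 := Nat.mul_le_mul_left qs.length h1
    nlinarith
  have hb2 : qs.length * (24 * o) + (qs.length * (24 * o) + (qs.length * (24 * o) + (qs.length * (24 * o)
      + (qs.length * (24 * o) + qs.length * (24 * o))))) < B := by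
    have : qs.length * (24 * o) + (qs.length * (24 * o) + (qs.length * (24 * o) + (qs.length * (24 * o)
      + (qs.length * (24 * o) + qs.length * (24 * o))))) = 6 * (qs.length * (24 * o)) := by ring
    omega
  have hY := fun x => mkQ_ok (B := B) (z1 := z1) (z2 := z2) (z3 := z3) (H x)
  have hc := fun x => mkQ_const B (B ^ 9) o m (f1 x) (f2 x) (f3 x) (f4 x) (f5 x) (f6 x)
  have hb := fun x => mkQ_b B (B ^ 9) o m (f1 x) (f2 x) (f3 x) (f4 x) (f5 x) (f6 x)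
  have hR : ∀ {x : PV} {n b : ℕ} {g : ℕ → ℝ}, RC B 9 (w3 z1 z2 z3) x g m → x.n = n → x.b = b →
      RC B 9 (w3 z1 z2 z3) ⟨x.p, n, b⟩ g m := by
    intro x n b g h1 h2 h3
    subst h2 h3
    exact h1
  have ya := fun x => hR (hY x).1 (hc x).1 (hb x).1
  have yb := fun x => hR (hY x).2.1 (hc x).2.1 (hb x).2.1
  have yc := fun x => hR (hY x).2.2.1 (hc x).2.2.1 (hb x).2.2.1
  have yd := fun x => hR (hY x).2.2.2.1 (hc x).2.2.2.1 (hb x).2.2.2.1
  have ye := fun x => hR (hY x).2.2.2.2.1 (hc x).2.2.2.2.1 (hb x).2.2.2.2.1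
  have yf := fun x => hR (hY x).2.2.2.2.2 (hc x).2.2.2.2.2 (hb x).2.2.2.2.2
  have A := RT.add (sP_ok (w := w3 z1 z2 z3) (K := 9) rfl (fun x => (H x).h1) (fun x => (H x).k1) ya hb1 qs)
    (RT.add (sP_ok (w := w3 z1 z2 z3) (K := 9) rfl (fun x => (H x).h2) (fun x => (H x).k2) yb hb1 qs)
    (RT.add (sP_ok (w := w3 z1 z2 z3) (K := 9) rfl (fun x => (H x).h3) (fun x => (H x).k3) yc hb1 qs)
    (RT.add (sP_ok (w := w3 z1 z2 z3) (K := 9) rfl (fun x => (H x).h4) (fun x => (H x).k4) yd hb1 qs)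
    (RT.add (sP_ok (w := w3 z1 z2 z3) (K := 9) rfl (fun x => (H x).h5) (fun x => (H x).k5) ye hb1 qs)
    (sP_ok (w := w3 z1 z2 z3) (K := 9) rfl (fun x => (H x).h6) (fun x => (H x).k6) yf hb1 qs)))))
  have P := RC.add (sN_ok ya qs) (RC.add (sN_ok yb qs) (RC.add (sN_ok yc qs) (RC.add (sN_ok yd qs)
    (RC.add (sN_ok ye qs) (sN_ok yf qs)))))
  have e : ∀ k a b c d e f : ℕ, Nat.add (Nat.mul k a) (Nat.add (Nat.mul k b) (Nat.add (Nat.mul k c) (Nat.add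
      (Nat.mul k d) (Nat.add (Nat.mul k e) (Nat.mul k f))))) = Nat.mul k (Nat.add a (Nat.add b (Nat.add c (Nat.add d
      (Nat.add e f))))) := by
    intro k a b c d e f
    simp only [Nat.add_eq, Nat.mul_eq]
    ring
  have P2 := P
  simp only [PV.add] at P2
  rw [e] at P2
  have Q := RT.swap (rowD_ok (w := w3 z1 z2 z3) (K := 9) rfl o m _ _ _ _ P2 hb2)
  have T := RT.add A Q
  have hT := RT.mono T (b' := Nat.mul 432 (Nat.mul qs.length (Nat.mul o o))) (by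
    simp only [Nat.add_eq, Nat.mul_eq]
    apply le_of_eq
    ring)
  have key := dbL_ok (w := w3 z1 z2 z3) (K := 9) rfl h _ _ _ m _ D hT hB hD
  refine ⟨_, key, ?_⟩
  have e3 : ∀ (qs : List ℕ) (a i : ℕ),
      (sF2 (fun x a i => ((f1 x).getD a 0 : ℝ) * (Ph z1 z2 z3 (uV o (f1 x) (f2 x) (f3 x) (f4 x) (f5 x) (f6 x) i)).a) qs a i
      + (sF2 (fun x a i => ((f2 x).getD a 0 : ℝ) * (Ph z1 z2 z3 (uV o (f1 x) (f2 x) (f3 x) (f4 x) (f5 x) (f6 x) i)).b) qs a i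
      + (sF2 (fun x a i => ((f3 x).getD a 0 : ℝ) * (Ph z1 z2 z3 (uV o (f1 x) (f2 x) (f3 x) (f4 x) (f5 x) (f6 x) i)).c) qs a i
      + (sF2 (fun x a i => ((f4 x).getD a 0 : ℝ) * (Ph z1 z2 z3 (uV o (f1 x) (f2 x) (f3 x) (f4 x) (f5 x) (f6 x) i)).d) qs a i
      + (sF2 (fun x a i => ((f5 x).getD a 0 : ℝ) * (Ph z1 z2 z3 (uV o (f1 x) (f2 x) (f3 x) (f4 x) (f5 x) (f6 x) i)).e) qs a i
      + sF2 (fun x a i => ((f6 x).getD a 0 : ℝ) * (Ph z1 z2 z3 (uV o (f1 x) (f2 x) (f3 x) (f4 x) (f5 x) (f6 x) i)).f) qs a i)))))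
      + -1 * ((o : ℝ) * (sF (fun x i => (Ph z1 z2 z3 (uV o (f1 x) (f2 x) (f3 x) (f4 x) (f5 x) (f6 x) i)).a) qs i
      + (sF (fun x i => (Ph z1 z2 z3 (uV o (f1 x) (f2 x) (f3 x) (f4 x) (f5 x) (f6 x) i)).b) qs i
      + (sF (fun x i => (Ph z1 z2 z3 (uV o (f1 x) (f2 x) (f3 x) (f4 x) (f5 x) (f6 x) i)).c) qs i
      + (sF (fun x i => (Ph z1 z2 z3 (uV o (f1 x) (f2 x) (f3 x) (f4 x) (f5 x) (f6 x) i)).d) qs i
      + (sF (fun x i => (Ph z1 z2 z3 (uV o (f1 x) (f2 x) (f3 x) (f4 x) (f5 x) (f6 x) i)).e) qs i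
      + sF (fun x i => (Ph z1 z2 z3 (uV o (f1 x) (f2 x) (f3 x) (f4 x) (f5 x) (f6 x) i)).f) qs i))))))
      = sF2 (fun x a i => Bl z1 z2 z3 (uV o (f1 x) (f2 x) (f3 x) (f4 x) (f5 x) (f6 x) a)
          (uV o (f1 x) (f2 x) (f3 x) (f4 x) (f5 x) (f6 x) i)) qs a i := by
    intro qs a i
    induction qs with
    | nil =>
      simp only [sF2, sF]
      ring
    | cons x qs ih =>
      simp only [sF2, sF]
      rw [← ih]
      have e4 : ∀ y, Bl z1 z2 z3 (uV o (f1 x) (f2 x) (f3 x) (f4 x) (f5 x) (f6 x) a) y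
          = (((f1 x).getD a 0 : ℝ) - o) * (Ph z1 z2 z3 y).a + (((f2 x).getD a 0 : ℝ) - o) * (Ph z1 z2 z3 y).b
          + (((f3 x).getD a 0 : ℝ) - o) * (Ph z1 z2 z3 y).c + (((f4 x).getD a 0 : ℝ) - o) * (Ph z1 z2 z3 y).d
          + (((f5 x).getD a 0 : ℝ) - o) * (Ph z1 z2 z3 y).e + (((f6 x).getD a 0 : ℝ) - o) * (Ph z1 z2 z3 y).f := by
        intro y
        rfl
      rw [e4]
      generalize (Ph z1 z2 z3 (uV o (f1 x) (f2 x) (f3 x) (f4 x) (f5 x) (f6 x) i)) = Y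
      ring
  simp only [e3]
  have e5 := e2_sF2 (fun x a i => Bl z1 z2 z3 (uV o (f1 x) (f2 x) (f3 x) (f4 x) (f5 x) (f6 x) a)
    (uV o (f1 x) (f2 x) (f3 x) (f4 x) (f5 x) (f6 x) i)) (fun x D => e2_Bl_nonneg z1 z2 z3 _ D) qs D
  have e6 := mul_nonneg (Nat.cast_nonneg (α := ℝ) h) e5
  linarith

end Pool.Agent.FPX.PLK
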