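import Pool.Agent.FPX.PLU
/-!
PLE (helper1). Four lanes in one natural number: positions 0, 1, 4, 6; products, masks, tests of all lanes at once.
-/
set_option autoImplicit false

noncomputable section

namespace Pool.Agent.FPX.PLK

theorem and_split {q a b : ℕ} (ha : a < 2 ^ q) (hb : b < 2 ^ q) (x y : ℕ) :
    (a + 2 ^ q * x) &&& (b + 2 ^ q * y) = (a &&& b) + 2 ^ q * (x &&& y) := by
  have h1 := Nat.mod_add_div ((a + 2 ^ q * x) &&& (b + 2 ^ q * y)) (2 ^ q)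
  rw [Nat.and_mod_two_pow, Nat.and_div_two_pow, Nat.add_mul_mod_self_left, Nat.add_mul_mod_self_left,
    Nat.mod_eq_of_lt ha, Nat.mod_eq_of_lt hb, Nat.add_mul_div_left _ _ (by positivity),
    Nat.add_mul_div_left _ _ (by positivity), Nat.div_eq_of_lt ha, Nat.div_eq_of_lt hb, Nat.zero_add, Nat.zero_add] at h1
  exact h1.symm

theorem od_and {q : ℕ} : ∀ l m : List ℕ, (∀ d ∈ l, d < 2 ^ q) → (∀ d ∈ m, d < 2 ^ q) →
    od (2 ^ q) l &&& od (2 ^ q) m = od (2 ^ q) (List.zipWith (fun x y => x &&& y) l m)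
  | [], _, _, _ => by simp [od]
  | _ :: _, [], _, _ => by simp [od]
  | a :: l, b :: m, h1, h2 => by
    have ih := od_and l m (fun d hd => h1 d (by simp [hd])) (fun d hd => h2 d (by simp [hd]))
    simp only [od, Nat.add_eq, Nat.mul_eq, List.zipWith_cons_cons]
    rw [and_split (h1 a (by simp)) (h2 b (by simp)), ih]

theorem od_inj {B : ℕ} {l m : List ℕ} (hl : l.length = m.length) (h1 : ∀ d ∈ l, d < B) (h2 : ∀ d ∈ m, d < B)
    (h : od B l = od B m) : l = m := by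
  rw [← dgs_od l h1, ← dgs_od m h2, hl, h]

/-- one step of a shift with a mask -/
theorem shr_step {p s t a : ℕ} (hst : s + t ≤ p) (ha : a < 2 ^ p) (Y Z : ℕ) :
    ((a + 2 ^ p * Y) >>> s) &&& ((2 ^ t - 1) + 2 ^ p * Z) = (a >>> s) % 2 ^ t + 2 ^ p * ((Y >>> s) &&& Z) := by
  have h1 := Nat.mod_add_div (((a + 2 ^ p * Y) >>> s) &&& ((2 ^ t - 1) + 2 ^ p * Z)) (2 ^ p)
  have ht : 2 ^ t - 1 < 2 ^ p := by
    have : 2 ^ t ≤ 2 ^ p := Nat.pow_le_pow_right (by norm_num) (by omega)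
    have := Nat.two_pow_pos t
    omega
  rw [Nat.and_mod_two_pow, Nat.and_div_two_pow, Nat.add_mul_mod_self_left, Nat.mod_eq_of_lt ht,
    Nat.add_mul_div_left _ _ (by positivity), Nat.div_eq_of_lt ht, Nat.zero_add,
    Nat.and_two_pow_sub_one_eq_mod] at h1
  rw [← h1]
  have e1 : (a + 2 ^ p * Y) >>> s = a >>> s + 2 ^ (p - s) * Y := by
    rw [Nat.shiftRight_eq_div_pow, Nat.shiftRight_eq_div_pow]
    have : 2 ^ p * Y = 2 ^ s * (2 ^ (p - s) * Y) := by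
      rw [← mul_assoc, ← pow_add, Nat.add_sub_cancel' (by omega)]
    rw [this, Nat.add_mul_div_left _ _ (by positivity)]
  have e2 : (a + 2 ^ p * Y) >>> s % 2 ^ p % 2 ^ t = (a >>> s) % 2 ^ t := by
    rw [Nat.mod_mod_of_dvd _ (pow_dvd_pow 2 (by omega)), e1]
    obtain ⟨c, hc⟩ : 2 ^ t ∣ 2 ^ (p - s) := pow_dvd_pow 2 (by omega)
    rw [hc, mul_assoc, Nat.add_mul_mod_self_left]
  have e3 : (a + 2 ^ p * Y) >>> s / 2 ^ p = Y >>> s := by
    rw [Nat.shiftRight_eq_div_pow, Nat.shiftRight_eq_div_pow, Nat.div_div_eq_div_mul, mul_comm (2 ^ s),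
      ← Nat.div_div_eq_div_mul, Nat.add_mul_div_left _ _ (by positivity), Nat.div_eq_of_lt ha, Nat.zero_add]
  rw [e2, e3]

/-! ### lanes -/

/-- four lanes -/
def EF (Q : ℕ) (u : ℕ → ℕ) : ℕ := u 0 + Q * u 1 + Q ^ 4 * u 2 + Q ^ 6 * u 3

/-- cross terms of a product -/
def GF (Q : ℕ) (g : ℕ → ℕ) : ℕ := Q * g 1 + Q ^ 4 * g 4 + Q ^ 5 * g 5 + Q ^ 6 * g 6 + Q ^ 7 * g 7 + Q ^ 10 * g 10

theorem EF_od (Q : ℕ) (u : ℕ → ℕ) : EF Q u = od Q [u 0, u 1, 0, 0, u 2, 0, u 3] := by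
  simp only [EF, od, Nat.add_eq, Nat.mul_eq]
  ring

theorem EG_od (Q : ℕ) (w g : ℕ → ℕ) :
    EF (Q ^ 2) w + GF Q g = od Q [w 0, g 1, w 1, 0, g 4, g 5, g 6, g 7, w 2, 0, g 10, 0, w 3] := by
  simp only [EF, GF, od, Nat.add_eq, Nat.mul_eq]
  ring

theorem EF_const (Q a : ℕ) : EF Q (fun _ => a) = EF Q (fun _ => 1) * a := by
  simp only [EF]
  ring

theorem EF_add (Q : ℕ) (u v : ℕ → ℕ) : EF Q u + EF Q v = EF Q (fun i => u i + v i) := by
  simp only [EF]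
  ring

theorem EF_sub {Q : ℕ} {u v : ℕ → ℕ} (h : ∀ i < 4, v i ≤ u i) : EF Q u - EF Q v = EF Q (fun i => u i - v i) := by
  have e : EF Q u = EF Q (fun i => u i - v i) + EF Q v := by
    rw [EF_add]
    simp only [EF]
    rw [Nat.sub_add_cancel (h 0 (by norm_num)), Nat.sub_add_cancel (h 1 (by norm_num)),
      Nat.sub_add_cancel (h 2 (by norm_num)), Nat.sub_add_cancel (h 3 (by norm_num))]
  rw [e, Nat.add_sub_cancel]

theorem EF_congr {Q : ℕ} {u v : ℕ → ℕ} (h : ∀ i < 4, u i = v i) : EF Q u = EF Q v := by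
  simp only [EF]
  rw [h 0 (by norm_num), h 1 (by norm_num), h 2 (by norm_num), h 3 (by norm_num)]

theorem lanes {P : ℕ → Prop} (h0 : P 0) (h1 : P 1) (h2 : P 2) (h3 : P 3) : ∀ i < 4, P i := by
  intro i hi
  interval_cases i <;> assumption

theorem l7_lt {m : ℕ} {u : ℕ → ℕ} (hu : ∀ i < 4, u i < 2 ^ m) :
    ∀ d ∈ [u 0, u 1, 0, 0, u 2, 0, u 3], d < 2 ^ m := by
  have hp : 0 < 2 ^ m := by positivity
  have h0 := hu 0 (by norm_num)
  have h1 := hu 1 (by norm_num)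
  have h2 := hu 2 (by norm_num)
  have h3 := hu 3 (by norm_num)
  simp [h0, h1, h2, h3, hp]

theorem EF_and {m : ℕ} {u c : ℕ → ℕ} (hu : ∀ i < 4, u i < 2 ^ m) (hc : ∀ i < 4, c i < 2 ^ m) :
    EF (2 ^ m) u &&& EF (2 ^ m) c = EF (2 ^ m) (fun i => u i &&& c i) := by
  rw [EF_od, EF_od, EF_od, od_and _ _ (l7_lt hu) (l7_lt hc)]
  simp

theorem EF_inj {m : ℕ} {u c : ℕ → ℕ} (hu : ∀ i < 4, u i < 2 ^ m) (hc : ∀ i < 4, c i < 2 ^ m)
    (h : EF (2 ^ m) u = EF (2 ^ m) c) : ∀ i < 4, u i = c i := by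
  rw [EF_od, EF_od] at h
  have h4 := od_inj (l := [u 0, u 1, 0, 0, u 2, 0, u 3]) (m := [c 0, c 1, 0, 0, c 2, 0, c 3]) rfl (l7_lt hu) (l7_lt hc) h
  simp only [List.cons.injEq, and_true] at h4
  exact lanes h4.1 h4.2.1 h4.2.2.2.2.1 h4.2.2.2.2.2.2

theorem EF_shr {m s t : ℕ} (hst : s + t ≤ m) {u : ℕ → ℕ} (hu : ∀ i < 4, u i < 2 ^ m) :
    (EF (2 ^ m) u >>> s) &&& EF (2 ^ m) (fun _ => 2 ^ t - 1) = EF (2 ^ m) (fun i => (u i >>> s) % 2 ^ t) := by
  have nest : ∀ u : ℕ → ℕ, EF (2 ^ m) u = u 0 + 2 ^ m * (u 1 + 2 ^ (3 * m) * (u 2 + 2 ^ (2 * m) * u 3)) := by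
    intro u
    simp only [EF, show 3 * m = m * 3 by ring, show 2 * m = m * 2 by ring, pow_mul]
    ring
  have h1 : u 1 < 2 ^ (3 * m) := (hu 1 (by norm_num)).trans_le (Nat.pow_le_pow_right (by norm_num) (by omega))
  have h2 : u 2 < 2 ^ (2 * m) := (hu 2 (by norm_num)).trans_le (Nat.pow_le_pow_right (by norm_num) (by omega))
  rw [nest u, nest, nest, shr_step hst (hu 0 (by norm_num)), shr_step (by omega) h1, shr_step (by omega) h2,
    Nat.and_two_pow_sub_one_eq_mod]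

theorem EF_mul (Q : ℕ) {u v : ℕ → ℕ} {a b : ℕ} (hu : ∀ i < 4, u i ≤ a) (hv : ∀ i < 4, v i ≤ b) :
    ∃ g : ℕ → ℕ, (∀ i, g i ≤ 2 * (a * b)) ∧ EF Q u * EF Q v = EF (Q ^ 2) (fun i => u i * v i) + GF Q g := by
  have hb : ∀ i < 4, ∀ j < 4, u i * v j ≤ a * b := fun i hi j hj => Nat.mul_le_mul (hu i hi) (hv j hj)
  refine ⟨fun i => if i = 1 then u 0 * v 1 + u 1 * v 0 else if i = 4 then u 0 * v 2 + u 2 * v 0 else
    if i = 5 then u 1 * v 2 + u 2 * v 1 else if i = 6 then u 0 * v 3 + u 3 * v 0 else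
    if i = 7 then u 1 * v 3 + u 3 * v 1 else u 2 * v 3 + u 3 * v 2, fun i => ?_, ?_⟩
  · have h01 := hb 0 (by norm_num) 1 (by norm_num)
    have h10 := hb 1 (by norm_num) 0 (by norm_num)
    have h02 := hb 0 (by norm_num) 2 (by norm_num)
    have h20 := hb 2 (by norm_num) 0 (by norm_num)
    have h12 := hb 1 (by norm_num) 2 (by norm_num)
    have h21 := hb 2 (by norm_num) 1 (by norm_num)
    have h03 := hb 0 (by norm_num) 3 (by norm_num)
    have h30 := hb 3 (by norm_num) 0 (by norm_num)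
    have h13 := hb 1 (by norm_num) 3 (by norm_num)
    have h31 := hb 3 (by norm_num) 1 (by norm_num)
    have h23 := hb 2 (by norm_num) 3 (by norm_num)
    have h32 := hb 3 (by norm_num) 2 (by norm_num)
    dsimp only
    split_ifs <;> omega
  · simp only [EF, GF]
    norm_num
    ring

/-- three products and a constant -/
theorem EF_mul3 (Q : ℕ) {u v u' v' u'' v'' k : ℕ → ℕ} {a b : ℕ} (hu : ∀ i < 4, u i ≤ a) (hv : ∀ i < 4, v i ≤ b)
    (hu' : ∀ i < 4, u' i ≤ a) (hv' : ∀ i < 4, v' i ≤ b) (hu'' : ∀ i < 4, u'' i ≤ a) (hv'' : ∀ i < 4, v'' i ≤ b) :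
    ∃ g : ℕ → ℕ, (∀ i, g i ≤ 6 * (a * b)) ∧
      EF Q u * EF Q v + (EF Q u' * EF Q v' + EF Q u'' * EF Q v'') + EF (Q ^ 2) k
        = EF (Q ^ 2) (fun i => u i * v i + (u' i * v' i + u'' i * v'' i) + k i) + GF Q g := by
  obtain ⟨g, g1, g2⟩ := EF_mul Q hu hv
  obtain ⟨h, h1, h2⟩ := EF_mul Q hu' hv'
  obtain ⟨j, j1, j2⟩ := EF_mul Q hu'' hv''
  refine ⟨fun i => g i + (h i + j i), fun i => ?_, ?_⟩
  · have := g1 i
    have := h1 i
    have := j1 i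
    dsimp only
    omega
  · rw [g2, h2, j2]
    simp only [EF, GF]
    ring

theorem sel {m t : ℕ} (ht : t ≤ m) {w g : ℕ → ℕ} (hw : ∀ i < 4, w i < 2 ^ m) (hg : ∀ i, g i < 2 ^ m) :
    (EF ((2 ^ m) ^ 2) w + GF (2 ^ m) g) &&& EF ((2 ^ m) ^ 2) (fun _ => 2 ^ t - 1)
      = EF ((2 ^ m) ^ 2) (fun i => w i % 2 ^ t) := by
  have h0 := hw 0 (by norm_num)
  have h1 := hw 1 (by norm_num)
  have h2 := hw 2 (by norm_num)
  have h3 := hw 3 (by norm_num)
  have hp : 0 < 2 ^ m := by positivity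
  have ht' : 2 ^ t - 1 < 2 ^ m := by
    have : 2 ^ t ≤ 2 ^ m := Nat.pow_le_pow_right (by norm_num) ht
    have := Nat.two_pow_pos t
    omega
  have e := EG_od (2 ^ m) (fun _ => 2 ^ t - 1) (fun _ => 0)
  have e' := EG_od (2 ^ m) (fun i => w i % 2 ^ t) (fun _ => 0)
  simp only [show GF (2 ^ m) (fun _ => 0) = 0 by simp [GF], Nat.add_zero] at e e'
  rw [EG_od, e, e', od_and]
  · simp [Nat.and_two_pow_sub_one_eq_mod]
  · simp [h0, h1, h2, h3, hg, hp]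
  · simp [ht', hp]

theorem tst {m t : ℕ} (ht : t < m) {w g : ℕ → ℕ} (hw : ∀ i < 4, w i < 2 ^ m) (hg : ∀ i, g i < 2 ^ m)
    (h : (EF ((2 ^ m) ^ 2) w + GF (2 ^ m) g) &&& EF ((2 ^ m) ^ 2) (fun _ => 2 ^ t) = EF ((2 ^ m) ^ 2) (fun _ => 2 ^ t)) :
    ∀ i < 4, 2 ^ t ≤ w i := by
  have h0 := hw 0 (by norm_num)
  have h1 := hw 1 (by norm_num)
  have h2 := hw 2 (by norm_num)
  have h3 := hw 3 (by norm_num)
  have hp : 0 < 2 ^ m := by positivity
  have ht' : 2 ^ t < 2 ^ m := Nat.pow_lt_pow_right (by norm_num) ht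
  have e := EG_od (2 ^ m) (fun _ => 2 ^ t) (fun _ => 0)
  simp only [show GF (2 ^ m) (fun _ => 0) = 0 by simp [GF], Nat.add_zero] at e
  rw [EG_od, e, od_and] at h
  · have h4 := od_inj (by simp) (by
      intro d hd
      simp only [List.zipWith_cons_cons, List.zipWith_nil_right, List.mem_cons, List.not_mem_nil, or_false,
        Nat.and_zero] at hd
      have hle : ∀ x, x &&& 2 ^ t < 2 ^ m := fun x => Nat.and_le_right.trans_lt ht'
      rcases hd with rfl | rfl | rfl | rfl | rfl | rfl | rfl | rfl | rfl | rfl | rfl | rfl | rfl <;>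
        first
        | exact hle _
        | exact hp) (by simp [ht', hp]) h
    simp only [List.zipWith_cons_cons, List.zipWith_nil_right, List.cons.injEq] at h4
    refine lanes ?_ ?_ ?_ ?_
    · rw [← h4.1]
      exact Nat.and_le_left
    · rw [← h4.2.2.1]
      exact Nat.and_le_left
    · rw [← h4.2.2.2.2.2.2.2.2.1]
      exact Nat.and_le_left
    · rw [← h4.2.2.2.2.2.2.2.2.2.2.2.2.1]
      exact Nat.and_le_left
  · simp [h0, h1, h2, h3, hg, hp]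
  · simp [ht', hp]

end Pool.Agent.FPX.PLK
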