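import Pool.Agent.FPX.PLP
/-!
PLF (helper59). A faster form of the test of a pair (three components): the four corners are tested together, with
one natural number for each component of the four matrices (lanes 0, 1, 4, 6, so that the products of lanes do not
collide).
-/
set_option autoImplicit false
set_option exponentiation.threshold 3000

noncomputable section

namespace Pool.Agent.FPX.PLK.F9


/-! ### constants -/

def qn : ℕ := Nat.pow 2 40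
def Yn : ℕ := Nat.pow 2 80
def Qn : ℕ := Nat.pow 2 400
def Zn : ℕ := Nat.pow 2 800

/-- four lanes -/
def L4 (X a b c d : ℕ) : ℕ := od X [a, b, 0, 0, c, 0, d]

/-- full digit -/
def fq : ℕ := Nat.sub qn 1

/-- the same mask in the four lanes -/
def mk4 (m : ℕ) : ℕ := L4 Qn m m m m

def c0 : ℕ := mk4 (od qn [fq])
def c2 : ℕ := mk4 (od qn [0, 0, fq])
def c78 : ℕ := mk4 (od qn [0, 0, 0, 0, 0, 0, 0, fq, fq])
def c35 : ℕ := mk4 (od qn [0, 0, 0, fq, 0, fq])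
def c46 : ℕ := mk4 (od qn [0, 0, 0, 0, fq, 0, fq])
def c127 : ℕ := mk4 (od qn [0, fq, fq, 0, 0, 0, 0, fq])
def c579 : ℕ := mk4 (od qn [0, 0, 0, 0, 0, fq, 0, fq, 0, fq])
def c8 : ℕ := mk4 (od qn [0, 0, 0, 0, 0, 0, 0, 0, fq])
def cRR : ℕ := od qn [1, 0, 0, 0, 1, 0, 0, 1]

def g0 : ℕ := Nat.pow 2 32
def g1 : ℕ := Nat.pow 2 31
def t39 : ℕ := Nat.pow 2 39
def t78 : ℕ := Nat.pow 2 78

def hm : ℕ := msk 40 31 9
def cHM : ℕ := od Qn [hm, hm, 0, 0, hm]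
def cFL : ℕ := mk4 (od qn [t39, t39, t39])
def cd (o : ℕ) : ℕ := od qn [Nat.sub (Nat.pred t39) o, Nat.sub t39 o, Nat.sub t39 o]
def dd (o : ℕ) : ℕ := od qn [o, o, o]
/-- offset of the fourth lane -/
def of4 (o : ℕ) : ℕ := Nat.add o (Nat.add g0 g1)
def cCT (o : ℕ) : ℕ := L4 Qn (cd o) (cd o) (cd o) (cd (Nat.add (of4 o) 5))
def cOD (o : ℕ) : ℕ := L4 Qn (dd o) (dd o) (dd o) (dd (Nat.add (of4 o) 5))
def om (o : ℕ) : ℕ := L4 Qn o o o (of4 o)
def g5 : ℕ := od Yn [t78, t78, t78, t78, t78]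
def GQ : ℕ := od Qn [g5, g5, g5, g5, g5, g5, g5, g5, g5, g5, g5, g5, g5]
def k1 (o : ℕ) : ℕ := Nat.mul (Nat.mul 2 (Nat.succ Yn)) (om o)
def k2 (o : ℕ) : ℕ := Nat.mul (Nat.mul 2 Yn) (om o)
def k3 (o : ℕ) : ℕ := Nat.mul 4 (om o)
def k4 (o : ℕ) : ℕ := Nat.mul Yn (om o)
def kc (o : ℕ) : ℕ := Nat.mul (Nat.mul 2 (Nat.mul (Nat.succ Yn) (Nat.succ Yn))) (Nat.mul (om o) (om o))
def kP (o : ℕ) : ℕ := Nat.sub GQ (kc o)
def kS (o : ℕ) : ℕ := Nat.sub (Nat.add GQ (Nat.mul (Nat.mul 4 Yn) (Nat.mul (om o) (om o)))) (kc o)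

/-- the same mask in the lanes of the squares -/
def sl (x : ℕ) : ℕ := od Qn [x, 0, x, 0, 0, 0, 0, 0, x, 0, 0, 0, x]
def cFS : ℕ := sl (od Yn [t78, 0, t78])
def cS0 : ℕ := sl (Nat.pred t78)
def cS2 : ℕ := sl (od Yn [0, 0, Nat.pred t78])
def cR : ℕ := sl (od Yn [0, Nat.pred Yn])
def JZ : ℕ := L4 Zn 1 1 1 1
def kJ : ℕ := Nat.mul (Nat.pow 2 79) JZ
def t170 : ℕ := Nat.pow 2 170
def G4 : ℕ := od Zn [t170, t170, t170, t170, t170, t170, t170, t170, t170, t170, t170, t170, t170]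
def kG : ℕ := Nat.sub G4 (Nat.mul (Nat.pow 2 157) (Nat.mul JZ JZ))
def cF4 : ℕ := od Zn [t170, 0, t170, 0, 0, 0, 0, 0, t170, 0, 0, 0, t170]
def cCF : ℕ := od qn [g1, g1, g1, g1, g1, g1, g1, g1, g1]

/-! ### the test -/

/-- second level -/
def lv2 (P1 P2 R I : ℕ) : Bool :=
  Nat.beq (Nat.land (Nat.sub (Nat.add (Nat.add (Nat.mul 4 (Nat.mul P1 P2)) (Nat.mul kJ (Nat.add R I))) kG)
    (Nat.add (Nat.mul R R) (Nat.mul I I))) cF4) cF4

/-- from the first to the second level -/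
def lv1 (Φ Ψ : ℕ) : Bool :=
  Nat.beq (Nat.land Φ cFS) cFS && lv2 (Nat.land Φ cS0) (Nat.shiftRight (Nat.land Φ cS2) 160)
    (Nat.shiftRight (Nat.land Φ cR) 80) (Nat.shiftRight (Nat.land Ψ cR) 80)

def phF (o A U V W X : ℕ) : ℕ :=
  Nat.sub (Nat.add (Nat.add (Nat.mul A W) X) (kP o)) (Nat.add (Nat.mul (k2 o) A) (Nat.add (Nat.mul U U) (Nat.mul V V)))

def psF (o A U V E G B X : ℕ) : ℕ :=
  Nat.sub (Nat.add (Nat.add (Nat.add (Nat.mul A E) (Nat.mul G B)) X) (kS o))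
    (Nat.add (Nat.add (Nat.mul (k2 o) A) (Nat.mul U (Nat.add V V))) (Nat.add (Nat.mul (k3 o) G) (Nat.mul (k4 o) B)))

def lv0 (o A U V W E : ℕ) : Bool :=
  lv1 (phF o A U V W (Nat.mul (k1 o) (Nat.add U V)))
    (psF o A U V E (Nat.land U c2) (Nat.mul 4 (Nat.land V c0)) (Nat.mul (k1 o) (Nat.add U V)))

def lvT (o T : ℕ) : Bool :=
  lv0 o (Nat.land T c0) (Nat.shiftRight (Nat.land T c35) 120) (Nat.shiftRight (Nat.land T c46) 160)
    (Nat.shiftRight (Nat.land (Nat.mul (Nat.land T c127) cRR) c579) 200) (Nat.shiftRight (Nat.land T c8) 240)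

def lvD (o T : ℕ) : Bool := lvT o (Nat.add T (Nat.land T c78))

/-- the four matrices are assembled -/
def lvA (o T f : ℕ) : Bool :=
  (fun T => Nat.beq (Nat.land (Nat.add T (cCT o)) cFL) cFL && lvD o (Nat.sub T (cOD o))) (Nat.add T (Nat.shiftLeft f 2400))

/-- fourth corner -/
def lvE (β o T a b d E : ℕ) : Bool :=
  Nat.beq (Nat.land E (msk β 33 9)) 0 &&
    lvA o T (Nat.sub (Nat.add (Nat.add b d) (Nat.add (sp9 qn (Nat.pow 2 β) E) cCF)) a)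

def lvF (β o T a b d x y : ℕ) : Bool :=
  Nat.ble y x && lvE β o T a b d (Nat.sub x y)

def flm (β σ : ℕ) : ℕ := od (Nat.pow 2 β) (List.replicate 9 (Nat.pred (Nat.pow 2 (Nat.sub β σ))))
def gof (β : ℕ) : ℕ := od (Nat.pow 2 β) (List.replicate 9 g0)

def lvG (β σ o a b d e e' : ℕ) : Bool :=
  (fun T => Nat.beq (Nat.land T cHM) 0 &&
    lvF β o T a b d (Nat.add (Nat.land (Nat.shiftRight e σ) (flm β σ)) (gof β)) (Nat.land (Nat.shiftRight e' σ) (flm β σ)))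
  (Nat.add a (Nat.add (Nat.shiftLeft b 400) (Nat.shiftLeft d 1600)))

/-- the parameters -/
def prm (ws B S o β σ : ℕ) : Bool :=
  Nat.beq ws 40 && (Nat.beq B (Nat.pow 2 β) && (Nat.beq S (Nat.pow 2 σ) && (Nat.ble 1 σ && (Nat.ble 40 β &&
    (Nat.ble σ β && (Nat.ble o g1 && (Nat.ble (kc o) GQ && Nat.ble (Nat.mul (Nat.pow 2 157) (Nat.mul JZ JZ)) G4)))))))

/-- **the test of a pair** -/
def prF (ws B S o : ℕ) (a b d e e' : ℕ) : Bool :=
  prm ws B S o (Nat.log2 B) (Nat.log2 S) &&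
    lvG (Nat.log2 B) (Nat.log2 S) o (Nat.mod a (Nat.pow qn 9)) (Nat.mod b (Nat.pow qn 9)) (Nat.mod d (Nat.pow qn 9)) e e'

/-! ### digits and masks -/

theorem land_cons {w d m x y : ℕ} (hd : d < 2 ^ w) (hm : m < 2 ^ w) :
    (d + 2 ^ w * x) &&& (m + 2 ^ w * y) = (d &&& m) + 2 ^ w * (x &&& y) := by
  have hp : 0 < 2 ^ w := by positivity
  have e1 : ((d + 2 ^ w * x) &&& (m + 2 ^ w * y)) % 2 ^ w = d &&& m := by
    rw [Nat.and_mod_two_pow, Nat.add_mul_mod_self_left, Nat.add_mul_mod_self_left, Nat.mod_eq_of_lt hd,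
      Nat.mod_eq_of_lt hm]
  have e2 : ((d + 2 ^ w * x) &&& (m + 2 ^ w * y)) / 2 ^ w = x &&& y := by
    rw [Nat.and_div_two_pow, Nat.add_mul_div_left _ _ hp, Nat.add_mul_div_left _ _ hp, Nat.div_eq_of_lt hd,
      Nat.div_eq_of_lt hm, Nat.zero_add, Nat.zero_add]
  rw [← e1, ← e2, Nat.mod_add_div]

theorem land_od {w : ℕ} : ∀ P M : List ℕ, (∀ d ∈ P, d < 2 ^ w) → (∀ d ∈ M, d < 2 ^ w) →
    od (2 ^ w) P &&& od (2 ^ w) M = od (2 ^ w) (List.zipWith (fun a b => a &&& b) P M)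
  | [], M, _, _ => by simp [od]
  | d :: P, [], _, _ => by simp [od]
  | d :: P, m :: M, h1, h2 => by
    have ih := land_od P M (fun x hx => h1 x (by simp [hx])) (fun x hx => h2 x (by simp [hx]))
    simp only [od, List.zipWith, Nat.add_eq, Nat.mul_eq]
    rw [land_cons (h1 d (by simp)) (h2 m (by simp)), ih]

theorem qn_pow : qn = 2 ^ 40 := rfl
theorem Yn_pow : Yn = 2 ^ 80 := rfl
theorem Qn_pow : Qn = 2 ^ 400 := rfl
theorem Zn_pow : Zn = 2 ^ 800 := rfl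
theorem Yn_q : Yn = qn ^ 2 := by rw [Yn_pow, qn_pow, ← pow_mul]
theorem Qn_q : Qn = qn ^ 10 := by rw [Qn_pow, qn_pow, ← pow_mul]
theorem Qn_Y : Qn = Yn ^ 5 := by rw [Qn_pow, Yn_pow, ← pow_mul]
theorem Zn_Q : Zn = Qn ^ 2 := by rw [Zn_pow, Qn_pow, ← pow_mul]

theorem and_fq {d : ℕ} (h : d < qn) : d &&& fq = d := by
  have e : fq = 2 ^ 40 - 1 := rfl
  rw [e, Nat.and_two_pow_sub_one_eq_mod]
  exact Nat.mod_eq_of_lt h

theorem fq_lt : fq < qn := by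
  have : 0 < qn := by rw [qn_pow]; positivity
  exact Nat.sub_lt this (by norm_num)

theorem mask_ok (M : List ℕ) (h : ∀ d ∈ M, d = 0 ∨ d = fq) : ∀ d ∈ M, d < 2 ^ 40 := by
  intro d hd
  rcases h d hd with rfl | rfl
  · positivity
  · exact fq_lt

theorem L4_eq (X a b c d : ℕ) : L4 X a b c d = a + X * (b + X * (X * (X * (c + X * (X * d))))) := by
  simp [L4, od]

theorem L4_mul (X k a b c d : ℕ) : L4 X (k * a) (k * b) (k * c) (k * d) = k * L4 X a b c d := by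
  simp only [L4_eq]
  ring

theorem land_L4 {w a b c d m : ℕ} (h0 : a < 2 ^ w) (h1 : b < 2 ^ w) (h2 : c < 2 ^ w) (h3 : d < 2 ^ w) (hm : m < 2 ^ w) :
    L4 (2 ^ w) a b c d &&& L4 (2 ^ w) m m m m = L4 (2 ^ w) (a &&& m) (b &&& m) (c &&& m) (d &&& m) := by
  have hp : 0 < 2 ^ w := by positivity
  unfold L4
  rw [land_od _ _ (by simp [h0, h1, h2, h3]) (by simp [hm])]
  simp

theorem shr_mul (k X : ℕ) : (2 ^ k * X) >>> k = X := by
  rw [Nat.shiftRight_eq_div_pow, Nat.mul_div_cancel_left _ (by positivity)]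

/-- nine digits -/
def d9 (x : Fin 9 → ℕ) : List ℕ := [x 0, x 1, x 2, x 3, x 4, x 5, x 6, x 7, x 8]

theorem d9_lt {x : Fin 9 → ℕ} {q : ℕ} (h : ∀ k, x k < q) : ∀ d ∈ d9 x, d < q := by
  intro d hd
  simp only [d9, List.mem_cons, List.not_mem_nil, or_false] at hd
  rcases hd with rfl | rfl | rfl | rfl | rfl | rfl | rfl | rfl | rfl <;> exact h _

section masks

variable {x : Fin 9 → ℕ} (h : ∀ k, x k < qn)
include h

theorem and_m0 : od qn (d9 x) &&& od qn [fq] = x 0 := by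
  rw [qn_pow, land_od _ _ (d9_lt h) (mask_ok _ (by simp))]
  simp only [d9, List.zipWith, and_fq (h _), od, Nat.add_eq, Nat.mul_eq]
  ring

theorem and_m35 : od qn (d9 x) &&& od qn [0, 0, 0, fq, 0, fq] = 2 ^ 120 * (x 3 + Yn * x 5) := by
  rw [qn_pow, land_od _ _ (d9_lt h) (mask_ok _ (by simp))]
  simp only [d9, List.zipWith, Nat.and_zero, and_fq (h _)]
  have e : (2 : ℕ) ^ 120 = (2 ^ 40) ^ 3 := by rw [← pow_mul]
  rw [Yn_q, qn_pow, e]
  generalize (2 : ℕ) ^ 40 = q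
  simp only [od, Nat.add_eq, Nat.mul_eq]
  ring

theorem and_m46 : od qn (d9 x) &&& od qn [0, 0, 0, 0, fq, 0, fq] = 2 ^ 160 * (x 4 + Yn * x 6) := by
  rw [qn_pow, land_od _ _ (d9_lt h) (mask_ok _ (by simp))]
  simp only [d9, List.zipWith, Nat.and_zero, and_fq (h _)]
  have e : (2 : ℕ) ^ 160 = (2 ^ 40) ^ 4 := by rw [← pow_mul]
  rw [Yn_q, qn_pow, e]
  generalize (2 : ℕ) ^ 40 = q
  simp only [od, Nat.add_eq, Nat.mul_eq]
  ring

theorem and_m8 : od qn (d9 x) &&& od qn [0, 0, 0, 0, 0, 0, 0, 0, fq] = 2 ^ 240 * (Yn * x 8) := by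
  rw [qn_pow, land_od _ _ (d9_lt h) (mask_ok _ (by simp))]
  simp only [d9, List.zipWith, Nat.and_zero, and_fq (h _)]
  have e : (2 : ℕ) ^ 240 = (2 ^ 40) ^ 6 := by rw [← pow_mul]
  rw [Yn_q, qn_pow, e]
  generalize (2 : ℕ) ^ 40 = q
  simp only [od, Nat.add_eq, Nat.mul_eq]
  ring

theorem and_m78 : od qn (d9 x) &&& od qn [0, 0, 0, 0, 0, 0, 0, fq, fq] = od qn [0, 0, 0, 0, 0, 0, 0, x 7, x 8] := by
  rw [qn_pow, land_od _ _ (d9_lt h) (mask_ok _ (by simp))]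
  simp only [d9, List.zipWith, Nat.and_zero, and_fq (h _)]

theorem and_m127 : od qn (d9 x) &&& od qn [0, fq, fq, 0, 0, 0, 0, fq] = od qn [0, x 1, x 2, 0, 0, 0, 0, x 7] := by
  rw [qn_pow, land_od _ _ (d9_lt h) (mask_ok _ (by simp))]
  simp only [d9, List.zipWith, Nat.and_zero, and_fq (h _)]

theorem n9_lt : od qn (d9 x) < 2 ^ 400 := by
  have h1 := od_lt (d9 x) (d9_lt h)
  have h2 : qn ^ 9 < Qn := by
    rw [Qn_q]
    exact Nat.pow_lt_pow_right (by rw [qn_pow]; norm_num) (by norm_num)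
  exact h1.trans h2

end masks

theorem mk_lt (M : List ℕ) (hl : M.length ≤ 10) (h : ∀ d ∈ M, d = 0 ∨ d = fq) : od qn M < 2 ^ 400 := by
  have h1 := od_lt M (B := qn) (mask_ok M h)
  have h2 : qn ^ M.length ≤ Qn := by
    rw [Qn_q]
    exact Nat.pow_le_pow_right (by rw [qn_pow]; positivity) hl
  exact h1.trans_le h2

/-- four numbers -/
def l4 (X : ℕ) (n : Fin 4 → ℕ) : ℕ := L4 X (n 0) (n 1) (n 2) (n 3)

theorem l4_land {n : Fin 4 → ℕ} {m : ℕ} (h : ∀ i, n i < 2 ^ 400) (hm : m < 2 ^ 400) :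
    Nat.land (l4 Qn n) (mk4 m) = l4 Qn fun i => n i &&& m := land_L4 (h 0) (h 1) (h 2) (h 3) hm

theorem l4_mul (X k : ℕ) (n : Fin 4 → ℕ) : (l4 X fun i => k * n i) = k * l4 X n := L4_mul _ _ _ _ _ _

section lanes

variable {x : Fin 4 → Fin 9 → ℕ} (h : ∀ i k, x i k < qn)
include h

theorem ex0 : Nat.land (l4 Qn fun i => od qn (d9 (x i))) c0 = l4 Qn fun i => x i 0 := by
  unfold c0
  rw [l4_land (fun i => n9_lt (h i)) (mk_lt _ (by simp) (by simp))]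
  simp only [and_m0 (h _)]

theorem ex35 : Nat.shiftRight (Nat.land (l4 Qn fun i => od qn (d9 (x i))) c35) 120 = l4 Qn fun i => x i 3 + Yn * x i 5 := by
  unfold c35
  rw [l4_land (fun i => n9_lt (h i)) (mk_lt _ (by simp) (by simp))]
  simp only [and_m35 (h _)]
  rw [l4_mul]
  exact shr_mul _ _

theorem ex46 : Nat.shiftRight (Nat.land (l4 Qn fun i => od qn (d9 (x i))) c46) 160 = l4 Qn fun i => x i 4 + Yn * x i 6 := by
  unfold c46
  rw [l4_land (fun i => n9_lt (h i)) (mk_lt _ (by simp) (by simp))]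
  simp only [and_m46 (h _)]
  rw [l4_mul]
  exact shr_mul _ _

theorem ex8 : Nat.shiftRight (Nat.land (l4 Qn fun i => od qn (d9 (x i))) c8) 240 = l4 Qn fun i => Yn * x i 8 := by
  unfold c8
  rw [l4_land (fun i => n9_lt (h i)) (mk_lt _ (by simp) (by simp))]
  simp only [and_m8 (h _)]
  rw [l4_mul]
  exact shr_mul _ _

theorem ex78 : Nat.land (l4 Qn fun i => od qn (d9 (x i))) c78
    = l4 Qn fun i => od qn [0, 0, 0, 0, 0, 0, 0, x i 7, x i 8] := by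
  unfold c78
  rw [l4_land (fun i => n9_lt (h i)) (mk_lt _ (by simp) (by simp))]
  simp only [and_m78 (h _)]

theorem ex127 : Nat.land (l4 Qn fun i => od qn (d9 (x i))) c127
    = l4 Qn fun i => od qn [0, x i 1, x i 2, 0, 0, 0, 0, x i 7] := by
  unfold c127
  rw [l4_land (fun i => n9_lt (h i)) (mk_lt _ (by simp) (by simp))]
  simp only [and_m127 (h _)]

end lanes

/-- the product with the three shifts -/
theorem exRR (D F E : Fin 4 → ℕ) : Nat.mul (l4 Qn fun i => od qn [0, D i, F i, 0, 0, 0, 0, E i]) cRR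
    = od Qn [od qn [0, D 0, F 0, 0, 0, D 0, F 0, E 0, D 0, F 0],
      od qn [0, D 1 + E 0, F 1, 0, E 0, D 1, F 1, E 1, D 1, F 1], od qn [0, E 1, 0, 0, E 1], 0,
      od qn [0, D 2, F 2, 0, 0, D 2, F 2, E 2, D 2, F 2], od qn [0, E 2, 0, 0, E 2],
      od qn [0, D 3, F 3, 0, 0, D 3, F 3, E 3, D 3, F 3], od qn [0, E 3, 0, 0, E 3]] := by
  unfold cRR l4
  rw [L4_eq, Qn_q]
  generalize qn = q
  simp only [od, Nat.add_eq, Nat.mul_eq]
  ring

theorem m579_10 {a0 a1 a2 a3 a4 a5 a6 a7 a8 a9 : ℕ} (h : ∀ d ∈ [a0, a1, a2, a3, a4, a5, a6, a7, a8, a9], d < 2 ^ 40) :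
    od qn [a0, a1, a2, a3, a4, a5, a6, a7, a8, a9] &&& od qn [0, 0, 0, 0, 0, fq, 0, fq, 0, fq]
      = 2 ^ 200 * (a5 + Yn * a7 + Yn ^ 2 * a9) := by
  rw [qn_pow, land_od _ _ h (mask_ok _ (by simp))]
  have h5 : a5 < qn := h a5 (by simp)
  have h7 : a7 < qn := h a7 (by simp)
  have h9 : a9 < qn := h a9 (by simp)
  simp only [List.zipWith, Nat.and_zero, and_fq h5, and_fq h7, and_fq h9]
  have e : (2 : ℕ) ^ 200 = (2 ^ 40) ^ 5 := by rw [← pow_mul]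
  rw [Yn_q, qn_pow, e]
  generalize (2 : ℕ) ^ 40 = q
  simp only [od, Nat.add_eq, Nat.mul_eq]
  ring

theorem exW {D F E : Fin 4 → ℕ} (hD : ∀ i, D i < 2 ^ 38) (hF : ∀ i, F i < 2 ^ 38) (hE : ∀ i, E i < 2 ^ 38) :
    Nat.shiftRight (Nat.land (Nat.mul (l4 Qn fun i => od qn [0, D i, F i, 0, 0, 0, 0, E i]) cRR) c579) 200
      = l4 Qn fun i => D i + Yn * E i + Yn ^ 2 * F i := by
  have w0 : (0 : ℕ) < 2 ^ 40 := by positivity
  have wl : (2 : ℕ) ^ 38 < 2 ^ 40 := by norm_num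
  have hD' : ∀ i, D i < 2 ^ 40 := fun i => (hD i).trans wl
  have hF' : ∀ i, F i < 2 ^ 40 := fun i => (hF i).trans wl
  have hE' : ∀ i, E i < 2 ^ 40 := fun i => (hE i).trans wl
  have hS : D 1 + E 0 < 2 ^ 40 := by
    have := hD 1
    have := hE 0
    omega
  have l10 : ∀ P : List ℕ, P.length ≤ 10 → (∀ d ∈ P, d < 2 ^ 40) → od qn P < 2 ^ 400 := by
    intro P hl hP
    have h1 := od_lt (B := qn) P hP
    have h2 : qn ^ P.length ≤ Qn := by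
      rw [Qn_q]
      exact Nat.pow_le_pow_right (by rw [qn_pow]; positivity) hl
    exact h1.trans_le h2
  have a0 : ∀ d ∈ [0, D 0, F 0, 0, 0, D 0, F 0, E 0, D 0, F 0], d < 2 ^ 40 := by
    intro d hd
    simp only [List.mem_cons, List.not_mem_nil, or_false] at hd
    rcases hd with rfl | rfl | rfl | rfl | rfl | rfl | rfl | rfl | rfl | rfl <;>
      first | exact w0 | exact hD' _ | exact hF' _ | exact hE' _
  have a1 : ∀ d ∈ [0, D 1 + E 0, F 1, 0, E 0, D 1, F 1, E 1, D 1, F 1], d < 2 ^ 40 := by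
    intro d hd
    simp only [List.mem_cons, List.not_mem_nil, or_false] at hd
    rcases hd with rfl | rfl | rfl | rfl | rfl | rfl | rfl | rfl | rfl | rfl <;>
      first | exact w0 | exact hS | exact hD' _ | exact hF' _ | exact hE' _
  have a4 : ∀ d ∈ [0, D 2, F 2, 0, 0, D 2, F 2, E 2, D 2, F 2], d < 2 ^ 40 := by
    intro d hd
    simp only [List.mem_cons, List.not_mem_nil, or_false] at hd
    rcases hd with rfl | rfl | rfl | rfl | rfl | rfl | rfl | rfl | rfl | rfl <;>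
      first | exact w0 | exact hD' _ | exact hF' _ | exact hE' _
  have a6 : ∀ d ∈ [0, D 3, F 3, 0, 0, D 3, F 3, E 3, D 3, F 3], d < 2 ^ 40 := by
    intro d hd
    simp only [List.mem_cons, List.not_mem_nil, or_false] at hd
    rcases hd with rfl | rfl | rfl | rfl | rfl | rfl | rfl | rfl | rfl | rfl <;>
      first | exact w0 | exact hD' _ | exact hF' _ | exact hE' _
  have b : ∀ i, ∀ d ∈ [0, E i, 0, 0, E i], d < 2 ^ 40 := by
    intro i d hd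
    simp only [List.mem_cons, List.not_mem_nil, or_false] at hd
    rcases hd with rfl | rfl | rfl | rfl | rfl <;> first | exact w0 | exact hE' _
  have w4 : (0 : ℕ) < 2 ^ 400 := by positivity
  have hm : od qn [0, 0, 0, 0, 0, fq, 0, fq, 0, fq] < 2 ^ 400 := mk_lt _ (by simp) (by simp)
  rw [exRR]
  unfold c579 mk4 L4
  change Nat.shiftRight (_ &&& _) 200 = _
  rw [Qn_pow, land_od _ _ (by
    intro d hd
    simp only [List.mem_cons, List.not_mem_nil, or_false] at hd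
    rcases hd with rfl | rfl | rfl | rfl | rfl | rfl | rfl | rfl
    · exact l10 _ (by simp) a0
    · exact l10 _ (by simp) a1
    · exact l10 _ (by simp) (b _)
    · exact w4
    · exact l10 _ (by simp) a4
    · exact l10 _ (by simp) (b _)
    · exact l10 _ (by simp) a6
    · exact l10 _ (by simp) (b _)) (by
    intro d hd
    simp only [List.mem_cons, List.not_mem_nil, or_false] at hd
    rcases hd with rfl | rfl | rfl | rfl | rfl | rfl | rfl <;> first | exact w4 | exact hm)]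
  simp only [List.zipWith, Nat.and_zero, m579_10 a0, m579_10 a1, m579_10 a4, m579_10 a6]
  rw [← Qn_pow]
  have e : od Qn [2 ^ 200 * (D 0 + Yn * E 0 + Yn ^ 2 * F 0), 2 ^ 200 * (D 1 + Yn * E 1 + Yn ^ 2 * F 1), 0, 0,
      2 ^ 200 * (D 2 + Yn * E 2 + Yn ^ 2 * F 2), 0, 2 ^ 200 * (D 3 + Yn * E 3 + Yn ^ 2 * F 3)]
      = 2 ^ 200 * l4 Qn fun i => D i + Yn * E i + Yn ^ 2 * F i := L4_mul _ _ _ _ _ _
  rw [e]
  exact shr_mul _ _

/-! ### products of numbers with four lanes -/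

/-- a number with four lanes, integers -/
def z4 (X : ℤ) (n : Fin 4 → ℤ) : ℤ := n 0 + n 1 * X + n 2 * X ^ 4 + n 3 * X ^ 6

/-- products of lanes -/
def cvz (X : ℤ) (c : Fin 4 → Fin 4 → ℤ) : ℤ :=
  c 0 0 + (c 0 1 + c 1 0) * X + c 1 1 * X ^ 2 + (c 0 2 + c 2 0) * X ^ 4 + (c 1 2 + c 2 1) * X ^ 5
    + (c 0 3 + c 3 0) * X ^ 6 + (c 1 3 + c 3 1) * X ^ 7 + c 2 2 * X ^ 8 + (c 2 3 + c 3 2) * X ^ 10 + c 3 3 * X ^ 12

theorem l4_cast (X : ℕ) (n : Fin 4 → ℕ) : ((l4 X n : ℕ) : ℤ) = z4 X fun i => (n i : ℤ) := by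
  unfold l4 z4
  rw [L4_eq]
  push_cast
  ring

theorem z4_mul (X : ℤ) (a b : Fin 4 → ℤ) : z4 X a * z4 X b = cvz X fun i j => a i * b j := by
  simp only [z4, cvz]
  ring

theorem z4_lin (X : ℤ) (a b : Fin 4 → ℤ) (s t : ℤ) :
    s * z4 X a + t * z4 X b = z4 X fun i => s * a i + t * b i := by
  simp only [z4]
  ring

theorem cvz_lin (X : ℤ) (c d : Fin 4 → Fin 4 → ℤ) (s t : ℤ) :
    s * cvz X c + t * cvz X d = cvz X fun i j => s * c i j + t * d i j := by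
  simp only [cvz]
  ring

def pw13 (X : ℤ) : ℤ := 1 + X + X ^ 2 + X ^ 3 + X ^ 4 + X ^ 5 + X ^ 6 + X ^ 7 + X ^ 8 + X ^ 9 + X ^ 10 + X ^ 11 + X ^ 12

/-- the thirteen digits -/
def th (g : ℤ) (c : Fin 4 → Fin 4 → ℤ) : List ℕ :=
  [(g + c 0 0).toNat, (g + (c 0 1 + c 1 0)).toNat, (g + c 1 1).toNat, g.toNat, (g + (c 0 2 + c 2 0)).toNat,
    (g + (c 1 2 + c 2 1)).toNat, (g + (c 0 3 + c 3 0)).toNat, (g + (c 1 3 + c 3 1)).toNat, (g + c 2 2).toNat, g.toNat,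
    (g + (c 2 3 + c 3 2)).toNat, g.toNat, (g + c 3 3).toNat]

theorem th_val {X : ℕ} {g m : ℤ} {c : Fin 4 → Fin 4 → ℤ} (hc : ∀ i j, |c i j| ≤ m) (hg : 2 * m ≤ g) :
    ((od X (th g c) : ℕ) : ℤ) = g * pw13 X + cvz X c := by
  have b : ∀ i j, -m ≤ c i j := fun i j => (abs_le.1 (hc i j)).1
  have hm : 0 ≤ m := (abs_nonneg _).trans (hc 0 0)
  have e1 : ∀ i, (((g + c i i).toNat : ℕ) : ℤ) = g + c i i := fun i => Int.toNat_of_nonneg (by
    have := b i i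
    omega)
  have e2 : ∀ i j, (((g + (c i j + c j i)).toNat : ℕ) : ℤ) = g + (c i j + c j i) := fun i j => Int.toNat_of_nonneg (by
    have := b i j
    have := b j i
    omega)
  have e3 : ((g.toNat : ℕ) : ℤ) = g := Int.toNat_of_nonneg (by omega)
  simp only [th, od, Nat.add_eq, Nat.mul_eq]
  push_cast [e1, e2, e3]
  simp only [pw13, cvz]
  ring

theorem th_lt {X : ℕ} {g m : ℤ} {c : Fin 4 → Fin 4 → ℤ} (hc : ∀ i j, |c i j| ≤ m) (hX : g + 2 * m < X)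
    (h0 : 0 < X) : ∀ d ∈ th g c, d < X := by
  have b : ∀ i j, c i j ≤ m := fun i j => (abs_le.1 (hc i j)).2
  have hm : 0 ≤ m := (abs_nonneg _).trans (hc 0 0)
  have e1 : ∀ i, (g + c i i).toNat < X := fun i => by
    have := b i i
    omega
  have e2 : ∀ i j, (g + (c i j + c j i)).toNat < X := fun i j => by
    have := b i j
    have := b j i
    omega
  have e3 : g.toNat < X := by omega
  intro d hd
  simp only [th, List.mem_cons, List.not_mem_nil, or_false] at hd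
  rcases hd with rfl | rfl | rfl | rfl | rfl | rfl | rfl | rfl | rfl | rfl | rfl | rfl | rfl <;>
    first | exact e1 _ | exact e2 _ _ | exact e3

/-- the lanes of squares -/
def s4 (X : ℕ) (n : Fin 4 → ℕ) : ℕ := od X [n 0, 0, n 1, 0, 0, 0, 0, 0, n 2, 0, 0, 0, n 3]

theorem th_land {w : ℕ} {g : ℤ} {c : Fin 4 → Fin 4 → ℤ} (hlt : ∀ d ∈ th g c, d < 2 ^ w) {t : ℕ} (ht : t < 2 ^ w) :
    od (2 ^ w) (th g c) &&& s4 (2 ^ w) (fun _ => t) = s4 (2 ^ w) fun i => (g + c i i).toNat &&& t := by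
  unfold s4
  have w0 : (0 : ℕ) < 2 ^ w := by positivity
  rw [land_od _ _ hlt (by
    intro d hd
    simp only [List.mem_cons, List.not_mem_nil, or_false] at hd
    rcases hd with rfl | rfl | rfl | rfl | rfl | rfl | rfl | rfl | rfl | rfl | rfl | rfl | rfl <;>
      first | exact ht | exact w0)]
  simp only [th, List.zipWith, Nat.and_zero]

theorem s4_inj {X : ℕ} {n m : Fin 4 → ℕ} (hn : ∀ i, n i < X) (hm : ∀ i, m i < X) (h : s4 X n = s4 X m) :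
    ∀ i, n i = m i := by
  have w0 : 0 < X := (Nat.zero_le _).trans_lt (hn 0)
  have key : ∀ k : Fin 4 → ℕ, (∀ i, k i < X) → dgs X 13 (s4 X k)
      = [k 0, 0, k 1, 0, 0, 0, 0, 0, k 2, 0, 0, 0, k 3] := by
    intro k hk
    exact dgs_od [k 0, 0, k 1, 0, 0, 0, 0, 0, k 2, 0, 0, 0, k 3] (by
      intro d hd
      simp only [List.mem_cons, List.not_mem_nil, or_false] at hd
      rcases hd with rfl | rfl | rfl | rfl | rfl | rfl | rfl | rfl | rfl | rfl | rfl | rfl | rfl <;>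
        first | exact hk _ | exact w0)
  have e := key n hn
  rw [h, key m hm] at e
  simp only [List.cons.injEq, true_and, and_true] at e
  intro i
  fin_cases i
  · exact e.1.symm
  · exact e.2.1.symm
  · exact e.2.2.1.symm
  · exact e.2.2.2.symm

theorem s4_l4 (X : ℕ) (n : Fin 4 → ℕ) : s4 X n = l4 (X ^ 2) n := by
  unfold s4 l4
  rw [L4_eq]
  simp only [od, Nat.add_eq, Nat.mul_eq]
  ring

theorem le_of_land {n t : ℕ} (h : n &&& t = t) : t ≤ n := h ▸ Nat.and_le_left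

theorem sub_val {P M n : ℕ} (h : (P : ℤ) - M = n) : Nat.sub P M = n := by
  change P - M = n
  omega

theorem mul_bd {a b A B : ℤ} (ha : |a| ≤ A) (hb : |b| ≤ B) : |a * b| ≤ A * B := by
  rw [abs_mul]
  exact mul_le_mul ha hb (abs_nonneg _) ((abs_nonneg _).trans ha)

/-! ### second level -/

theorem G4_eq : ((G4 : ℕ) : ℤ) = (t170 : ℤ) * pw13 (Zn : ℤ) := by
  unfold G4 pw13
  generalize Zn = Z
  generalize t170 = t
  simp only [od, Nat.add_eq, Nat.mul_eq]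
  push_cast
  ring

theorem cF4_eq : cF4 = s4 (2 ^ 800) fun _ => t170 := rfl

theorem JZ_eq : ((JZ : ℕ) : ℤ) = z4 (Zn : ℤ) fun _ => 1 := by
  have := l4_cast Zn fun _ => 1
  exact_mod_cast this

theorem lv2_val {s u r t : Fin 4 → ℕ} (hJ : Nat.mul (Nat.pow 2 157) (Nat.mul JZ JZ) ≤ G4) :
    ((Nat.add (Nat.add (Nat.mul 4 (Nat.mul (l4 Zn s) (l4 Zn u))) (Nat.mul kJ (Nat.add (l4 Zn r) (l4 Zn t)))) kG : ℕ) : ℤ)
      - ((Nat.add (Nat.mul (l4 Zn r) (l4 Zn r)) (Nat.mul (l4 Zn t) (l4 Zn t)) : ℕ) : ℤ)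
    = (t170 : ℤ) * pw13 (Zn : ℤ) + cvz (Zn : ℤ) fun i j => 4 * (s i * u j)
        - (((r i : ℤ) - 2 ^ 78) * ((r j : ℤ) - 2 ^ 78) + ((t i : ℤ) - 2 ^ 78) * ((t j : ℤ) - 2 ^ 78)) := by
  have eG : ((kG : ℕ) : ℤ) = (t170 : ℤ) * pw13 (Zn : ℤ) - 2 ^ 157 * ((JZ : ℤ) * JZ) := by
    unfold kG
    rw [← G4_eq]
    change ((G4 - Nat.mul (Nat.pow 2 157) (Nat.mul JZ JZ) : ℕ) : ℤ) = _
    rw [Nat.cast_sub hJ]
    have : ((Nat.mul (Nat.pow 2 157) (Nat.mul JZ JZ) : ℕ) : ℤ) = 2 ^ 157 * ((JZ : ℤ) * JZ) := by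
      change ((2 ^ 157 * (JZ * JZ) : ℕ) : ℤ) = _
      push_cast
      ring
    rw [this]
  have eJ : ((kJ : ℕ) : ℤ) = 2 ^ 79 * (JZ : ℤ) := by
    change ((2 ^ 79 * JZ : ℕ) : ℤ) = _
    push_cast
    ring
  have e1 : ((l4 Zn r : ℕ) : ℤ) = 2 ^ 78 * (JZ : ℤ) + z4 (Zn : ℤ) fun i => (r i : ℤ) - 2 ^ 78 := by
    rw [l4_cast, JZ_eq]
    simp only [z4]
    ring
  have e2 : ((l4 Zn t : ℕ) : ℤ) = 2 ^ 78 * (JZ : ℤ) + z4 (Zn : ℤ) fun i => (t i : ℤ) - 2 ^ 78 := by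
    rw [l4_cast, JZ_eq]
    simp only [z4]
    ring
  have e3 : ((l4 Zn s : ℕ) : ℤ) = z4 (Zn : ℤ) fun i => (s i : ℤ) := l4_cast _ _
  have e4 : ((l4 Zn u : ℕ) : ℤ) = z4 (Zn : ℤ) fun i => (u i : ℤ) := l4_cast _ _
  simp only [Nat.add_eq, Nat.mul_eq, Nat.cast_add, Nat.cast_mul, Nat.cast_ofNat]
  rw [eG, eJ, e1, e2, e3, e4]
  generalize (JZ : ℤ) = J
  have q : (cvz (Zn : ℤ) fun i j => 4 * ((s i : ℤ) * u j)
        - (((r i : ℤ) - 2 ^ 78) * ((r j : ℤ) - 2 ^ 78) + ((t i : ℤ) - 2 ^ 78) * ((t j : ℤ) - 2 ^ 78)))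
      = 4 * ((z4 (Zn : ℤ) fun i => (s i : ℤ)) * z4 (Zn : ℤ) fun i => (u i : ℤ))
        - ((z4 (Zn : ℤ) fun i => (r i : ℤ) - 2 ^ 78) * (z4 (Zn : ℤ) fun i => (r i : ℤ) - 2 ^ 78)
          + (z4 (Zn : ℤ) fun i => (t i : ℤ) - 2 ^ 78) * (z4 (Zn : ℤ) fun i => (t i : ℤ) - 2 ^ 78)) := by
    rw [z4_mul, z4_mul, z4_mul]
    simp only [cvz]
    ring
  rw [q]
  ring

theorem t170_eq : t170 = 2 ^ 170 := rfl

/-- **second level** -/
theorem lv2_ok {s u r t : Fin 4 → ℕ} (hs : ∀ i, s i < 2 ^ 78) (hu : ∀ i, u i < 2 ^ 78) (hr : ∀ i, r i < 2 ^ 79)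
    (ht : ∀ i, t i < 2 ^ 79) (hJ : Nat.mul (Nat.pow 2 157) (Nat.mul JZ JZ) ≤ G4)
    (h : lv2 (l4 Zn s) (l4 Zn u) (l4 Zn r) (l4 Zn t) = true) (i : Fin 4) :
    ((r i : ℤ) - 2 ^ 78) * ((r i : ℤ) - 2 ^ 78) + ((t i : ℤ) - 2 ^ 78) * ((t i : ℤ) - 2 ^ 78) ≤ 4 * (s i * u i) := by
  obtain ⟨c, hc⟩ : ∃ c : Fin 4 → Fin 4 → ℤ, c = fun i j => 4 * ((s i : ℤ) * u j)
        - (((r i : ℤ) - 2 ^ 78) * ((r j : ℤ) - 2 ^ 78) + ((t i : ℤ) - 2 ^ 78) * ((t j : ℤ) - 2 ^ 78)) := ⟨_, rfl⟩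
  have hb : ∀ i j, |c i j| ≤ 2 ^ 160 := by
    intro i j
    have b1 : ∀ i, |(s i : ℤ)| ≤ 2 ^ 78 := fun i => by
      have : (s i : ℤ) < 2 ^ 78 := by exact_mod_cast hs i
      rw [abs_le]
      constructor <;> omega
    have b2 : ∀ i, |(u i : ℤ)| ≤ 2 ^ 78 := fun i => by
      have : (u i : ℤ) < 2 ^ 78 := by exact_mod_cast hu i
      rw [abs_le]
      constructor <;> omega
    have b3 : ∀ i, |(r i : ℤ) - 2 ^ 78| ≤ 2 ^ 78 := fun i => by
      have : (r i : ℤ) < 2 ^ 79 := by exact_mod_cast hr i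
      rw [abs_le]
      constructor <;> omega
    have b4 : ∀ i, |(t i : ℤ) - 2 ^ 78| ≤ 2 ^ 78 := fun i => by
      have : (t i : ℤ) < 2 ^ 79 := by exact_mod_cast ht i
      rw [abs_le]
      constructor <;> omega
    have p1 := mul_bd (b1 i) (b2 j)
    have p2 := mul_bd (b3 i) (b3 j)
    have p3 := mul_bd (b4 i) (b4 j)
    rw [abs_le] at p1 p2 p3 ⊢
    rw [hc]
    constructor <;> linarith [p1.1, p1.2, p2.1, p2.2, p3.1, p3.2]
  have hv := lv2_val (s := s) (u := u) (r := r) (t := t) hJ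
  rw [← hc] at hv
  have e1 : (2 : ℤ) * 2 ^ 160 ≤ (t170 : ℤ) := by
    rw [t170_eq]
    norm_num
  rw [← th_val hb e1] at hv
  have hv2 := sub_val hv
  unfold lv2 at h
  rw [hv2] at h
  have h2 := Nat.eq_of_beq_eq_true h
  rw [cF4_eq, Zn_pow] at h2
  have hlt : ∀ d ∈ th (t170 : ℤ) c, d < 2 ^ 800 := th_lt (m := 2 ^ 160) hb (by
    rw [t170_eq]
    norm_num) (by positivity)
  have t1 : t170 < 2 ^ 800 := by
    rw [t170_eq]
    exact Nat.pow_lt_pow_right (by norm_num) (by norm_num)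
  have h3 : od (2 ^ 800) (th (t170 : ℤ) c) &&& s4 (2 ^ 800) (fun _ => t170) = s4 (2 ^ 800) (fun _ => t170) := h2
  rw [th_land hlt t1] at h3
  have h4 := s4_inj (fun i => Nat.and_le_right.trans_lt t1) (fun _ => t1) h3 i
  have h5 := le_of_land h4
  have h6 : c i i = 4 * ((s i : ℤ) * u i)
        - (((r i : ℤ) - 2 ^ 78) * ((r i : ℤ) - 2 ^ 78) + ((t i : ℤ) - 2 ^ 78) * ((t i : ℤ) - 2 ^ 78)) := by rw [hc]
  have h7 := (abs_le.1 (hb i i)).1
  have h8 : 0 ≤ c i i := by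
    have : ((t170 : ℕ) : ℤ) ≤ (((t170 : ℤ) + c i i).toNat : ℕ) := by exact_mod_cast h5
    rw [Int.toNat_of_nonneg (by linarith [e1])] at this
    linarith
  rw [h6] at h8
  linarith

/-! ### first level -/

/-- five digits -/
def pz (p : Fin 5 → ℤ) : ℤ := p 0 + p 1 * Yn + p 2 * Yn ^ 2 + p 3 * Yn ^ 3 + p 4 * Yn ^ 4

def fv (p : Fin 5 → ℤ) : List ℕ :=
  [(t78 + p 0).toNat, (t78 + p 1).toNat, (t78 + p 2).toNat, (t78 + p 3).toNat, (t78 + p 4).toNat]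

theorem t78_eq : t78 = 2 ^ 78 := rfl

theorem g5_eq : ((g5 : ℕ) : ℤ) = (t78 : ℤ) * (1 + Yn + Yn ^ 2 + Yn ^ 3 + Yn ^ 4) := by
  unfold g5
  generalize Yn = Y
  generalize t78 = t
  simp only [od, Nat.add_eq, Nat.mul_eq]
  push_cast
  ring

theorem fv_val {p : Fin 5 → ℤ} (hp : ∀ k, |p k| ≤ 2 ^ 76) : ((g5 : ℕ) + pz p : ℤ).toNat = od Yn (fv p) := by
  have b : ∀ k, 0 ≤ (t78 : ℤ) + p k := fun k => by
    have := (abs_le.1 (hp k)).1
    rw [t78_eq]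
    push_cast
    omega
  have e : ((g5 : ℕ) : ℤ) + pz p = ((od Yn (fv p) : ℕ) : ℤ) := by
    have e1 : ∀ k, ((((t78 : ℤ) + p k).toNat : ℕ) : ℤ) = t78 + p k := fun k => Int.toNat_of_nonneg (b k)
    rw [g5_eq]
    simp only [fv, od, Nat.add_eq, Nat.mul_eq, Nat.cast_add, Nat.cast_mul, e1, pz]
    push_cast
    ring
  rw [e, Int.toNat_natCast]

theorem fv_lt {p : Fin 5 → ℤ} (hp : ∀ k, |p k| ≤ 2 ^ 76) : ∀ d ∈ fv p, d < 2 ^ 79 := by
  have b : ∀ k, ((t78 : ℤ) + p k).toNat < 2 ^ 79 := fun k => by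
    have := (abs_le.1 (hp k)).2
    rw [t78_eq]
    omega
  intro d hd
  simp only [fv, List.mem_cons, List.not_mem_nil, or_false] at hd
  rcases hd with rfl | rfl | rfl | rfl | rfl <;> exact b _

theorem fv_lt' {p : Fin 5 → ℤ} (hp : ∀ k, |p k| ≤ 2 ^ 76) : ∀ d ∈ fv p, d < 2 ^ 80 := fun d hd =>
  (fv_lt hp d hd).trans (by norm_num)

theorem Yn_pos : (0 : ℤ) < Yn := by
  rw [Yn_pow]
  norm_num

theorem pz_bd {p : Fin 5 → ℤ} (hp : ∀ k, |p k| ≤ 2 ^ 76) : |pz p| ≤ 2 ^ 76 * (1 + Yn + Yn ^ 2 + Yn ^ 3 + Yn ^ 4) := by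
  have hY := Yn_pos
  have b1 := fun k => (abs_le.1 (hp k)).1
  have b2 := fun k => (abs_le.1 (hp k)).2
  unfold pz
  have q1 := mul_le_mul_of_nonneg_right (b1 1) hY.le
  have q2 := mul_le_mul_of_nonneg_right (b1 2) (pow_pos hY 2).le
  have q3 := mul_le_mul_of_nonneg_right (b1 3) (pow_pos hY 3).le
  have q4 := mul_le_mul_of_nonneg_right (b1 4) (pow_pos hY 4).le
  have r1 := mul_le_mul_of_nonneg_right (b2 1) hY.le
  have r2 := mul_le_mul_of_nonneg_right (b2 2) (pow_pos hY 2).le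
  have r3 := mul_le_mul_of_nonneg_right (b2 3) (pow_pos hY 3).le
  have r4 := mul_le_mul_of_nonneg_right (b2 4) (pow_pos hY 4).le
  rw [abs_le]
  constructor
  · linarith [b1 0]
  · linarith [b2 0]

theorem GQ_eq : ((GQ : ℕ) : ℤ) = (g5 : ℤ) * pw13 (Qn : ℤ) := by
  unfold GQ pw13
  generalize Qn = Z
  generalize g5 = t
  simp only [od, Nat.add_eq, Nat.mul_eq]
  push_cast
  ring

theorem g5_lo : 2 * (2 ^ 76 * (1 + Yn + Yn ^ 2 + Yn ^ 3 + Yn ^ 4) : ℤ) ≤ (g5 : ℤ) := by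
  have hY := Yn_pos
  rw [g5_eq, t78_eq]
  have : (0 : ℤ) ≤ 1 + Yn + Yn ^ 2 + Yn ^ 3 + Yn ^ 4 := by positivity
  push_cast
  linarith

theorem g5_hi : (g5 : ℤ) + 2 * (2 ^ 76 * (1 + Yn + Yn ^ 2 + Yn ^ 3 + Yn ^ 4) : ℤ) < (2 ^ 400 : ℕ) := by
  rw [g5_eq, t78_eq, Yn_pow]
  norm_num

section

variable {c : Fin 4 → Fin 4 → Fin 5 → ℤ} (hc : ∀ i j k, |c i j k| ≤ 2 ^ 76)
include hc

theorem pc_lt : ∀ d ∈ th (g5 : ℤ) fun i j => pz (c i j), d < 2 ^ 400 :=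
  th_lt (fun i j => pz_bd (hc i j)) g5_hi (by positivity)

theorem pc_land {t : ℕ} (ht : t < 2 ^ 400) : od (2 ^ 400) (th (g5 : ℤ) fun i j => pz (c i j)) &&& s4 (2 ^ 400) (fun _ => t)
    = s4 (2 ^ 400) fun i => od Yn (fv (c i i)) &&& t := by
  rw [th_land (pc_lt hc) ht]
  exact congrArg (s4 (2 ^ 400)) (funext fun i => by rw [fv_val (hc i i)])

end

theorem od_lt400 {P : List ℕ} (hl : P.length ≤ 5) (h : ∀ d ∈ P, d < 2 ^ 80) : od Yn P < 2 ^ 400 := by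
  have h1 := od_lt (B := Yn) P h
  have h2 : Yn ^ P.length ≤ Qn := by
    rw [Qn_Y]
    exact Nat.pow_le_pow_right (by rw [Yn_pow]; positivity) hl
  exact h1.trans_le h2

theorem pt78 : Nat.pred t78 = 2 ^ 78 - 1 := rfl

theorem dig_lo {z : ℤ} (h0 : 0 ≤ z) (h1 : z ≤ 2 ^ 76) : ((t78 : ℤ) + z).toNat &&& Nat.pred t78 = z.toNat := by
  rw [pt78, Nat.and_two_pow_sub_one_eq_mod, t78_eq]
  obtain ⟨n, rfl⟩ := Int.eq_ofNat_of_zero_le h0
  have e : (((2 ^ 78 : ℕ) : ℤ) + (n : ℤ)).toNat = 2 ^ 78 + n := by omega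
  rw [e, Nat.add_mod_left, Int.toNat_natCast]
  exact Nat.mod_eq_of_lt (by omega)

theorem l78 : (2 : ℕ) ^ 78 < 2 ^ 80 := by norm_num

section

variable {p : Fin 5 → ℤ} (hp : ∀ k, |p k| ≤ 2 ^ 76)
include hp

theorem fl_ok (h : od Yn (fv p) &&& od Yn [t78, 0, t78] = od Yn [t78, 0, t78]) : 0 ≤ p 0 ∧ 0 ≤ p 2 := by
  have ht : ∀ d ∈ [t78, 0, t78], d < 2 ^ 80 := by
    intro d hd
    simp only [List.mem_cons, List.not_mem_nil, or_false] at hd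
    rcases hd with rfl | rfl | rfl
    · exact l78
    · positivity
    · exact l78
  rw [Yn_pow, land_od _ _ (fv_lt' hp) ht] at h
  simp only [fv, List.zipWith, Nat.and_zero] at h
  have e1 := dgs_od (B := 2 ^ 80) [t78, 0, t78] ht
  have e2 := dgs_od (B := 2 ^ 80) [((t78 : ℤ) + p 0).toNat &&& t78, 0, ((t78 : ℤ) + p 2).toNat &&& t78] (by
    intro d hd
    simp only [List.mem_cons, List.not_mem_nil, or_false] at hd
    rcases hd with rfl | rfl | rfl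
    · exact Nat.and_le_right.trans_lt l78
    · positivity
    · exact Nat.and_le_right.trans_lt l78)
  simp only [List.length_cons, List.length_nil] at e1 e2
  rw [h, e1] at e2
  simp only [List.cons.injEq, true_and, and_true] at e2
  have q0 := le_of_land e2.1.symm
  have q2 := le_of_land e2.2.symm
  have b0 := (abs_le.1 (hp 0)).1
  have b2 := (abs_le.1 (hp 2)).1
  rw [t78_eq] at q0 q2
  constructor <;> omega

theorem fv_m0 (h : 0 ≤ p 0) : od Yn (fv p) &&& Nat.pred t78 = (p 0).toNat := by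
  have e : Nat.pred t78 = od Yn [Nat.pred t78] := by simp [od]
  have hl : ∀ d ∈ [Nat.pred t78], d < 2 ^ 80 := by
    intro d hd
    simp only [List.mem_cons, List.not_mem_nil, or_false] at hd
    rw [hd, pt78]
    norm_num
  rw [e, Yn_pow, land_od _ _ (fv_lt' hp) hl]
  simp only [fv, List.zipWith, dig_lo h (abs_le.1 (hp 0)).2, od, Nat.add_eq, Nat.mul_eq]
  ring

theorem fv_m2 (h : 0 ≤ p 2) : od Yn (fv p) &&& od Yn [0, 0, Nat.pred t78] = 2 ^ 160 * (p 2).toNat := by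
  have hl : ∀ d ∈ [0, 0, Nat.pred t78], d < 2 ^ 80 := by
    intro d hd
    simp only [List.mem_cons, List.not_mem_nil, or_false] at hd
    rcases hd with rfl | rfl | rfl
    · positivity
    · positivity
    · rw [pt78]
      norm_num
  rw [Yn_pow, land_od _ _ (fv_lt' hp) hl]
  simp only [fv, List.zipWith, Nat.and_zero, dig_lo h (abs_le.1 (hp 2)).2, od, Nat.add_eq, Nat.mul_eq]
  ring

theorem fv_m1 : od Yn (fv p) &&& od Yn [0, Nat.pred Yn] = 2 ^ 80 * ((t78 : ℤ) + p 1).toNat := by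
  have e : Nat.pred Yn = 2 ^ 80 - 1 := rfl
  have hl : ∀ d ∈ [0, 2 ^ 80 - 1], d < 2 ^ 80 := by
    intro d hd
    simp only [List.mem_cons, List.not_mem_nil, or_false] at hd
    rcases hd with rfl | rfl
    · positivity
    · norm_num
  rw [e, Yn_pow, land_od _ _ (fv_lt' hp) hl]
  have h1 : ((t78 : ℤ) + p 1).toNat < 2 ^ 80 := fv_lt' hp _ (by simp [fv])
  simp only [fv, List.zipWith, Nat.and_zero, Nat.and_two_pow_sub_one_eq_mod, Nat.mod_eq_of_lt h1, od, Nat.add_eq,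
    Nat.mul_eq]
  ring

end

theorem s4_mul (X k : ℕ) (n : Fin 4 → ℕ) : (s4 X fun i => k * n i) = k * s4 X n := by
  unfold s4
  simp only [od, Nat.add_eq, Nat.mul_eq]
  ring

theorem s4_Z (n : Fin 4 → ℕ) : s4 (2 ^ 400) n = l4 Zn n := by
  rw [s4_l4, Zn_pow, ← pow_mul]

theorem ty_lt : (∀ d ∈ [t78, 0, t78], d < 2 ^ 80) ∧ (∀ d ∈ [0, 0, Nat.pred t78], d < 2 ^ 80) ∧
    (∀ d ∈ [0, Nat.pred Yn], d < 2 ^ 80) ∧ Nat.pred t78 < 2 ^ 400 := by
  have w0 : (0 : ℕ) < 2 ^ 80 := by positivity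
  have w1 : Nat.pred t78 < 2 ^ 80 := by
    rw [pt78]
    norm_num
  have w2 : Nat.pred Yn < 2 ^ 80 := by
    have e : Nat.pred Yn = 2 ^ 80 - 1 := rfl
    rw [e]
    norm_num
  refine ⟨?_, ?_, ?_, w1.trans (Nat.pow_lt_pow_right (by norm_num) (by norm_num))⟩ <;>
  · intro d hd
    simp only [List.mem_cons, List.not_mem_nil, or_false] at hd
    rcases hd with rfl | hd
    · first | exact l78 | exact w0
    · first | (rcases hd with rfl | rfl <;> first | exact w0 | exact w1 | exact l78) | (rw [hd]; exact w2)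

theorem sl_eq (x : ℕ) : sl x = s4 Qn fun _ => x := by
  unfold sl s4
  rfl

theorem land_sl (N x : ℕ) : Nat.land N (sl x) = N &&& s4 (2 ^ 400) fun _ => x := by
  rw [sl_eq, Qn_pow]
  rfl

/-- **first level** -/
theorem lv1_ok {N M : ℕ} {c e : Fin 4 → Fin 4 → Fin 5 → ℤ} (hc : ∀ i j k, |c i j k| ≤ 2 ^ 76)
    (he : ∀ i j k, |e i j k| ≤ 2 ^ 76) (hN : N = od (2 ^ 400) (th (g5 : ℤ) fun i j => pz (c i j)))
    (hM : M = od (2 ^ 400) (th (g5 : ℤ) fun i j => pz (e i j)))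
    (hJ : Nat.mul (Nat.pow 2 157) (Nat.mul JZ JZ) ≤ G4) (h : lv1 N M = true) (i : Fin 4) :
    0 ≤ c i i 0 ∧ 0 ≤ c i i 2 ∧ c i i 1 * c i i 1 + e i i 1 * e i i 1 ≤ 4 * (c i i 0 * c i i 2) := by
  obtain ⟨w1, w2, w3, w4⟩ := ty_lt
  unfold lv1 at h
  rw [Bool.and_eq_true] at h
  obtain ⟨h1, h2⟩ := h
  have h3 := Nat.eq_of_beq_eq_true h1
  have k1 : N &&& s4 (2 ^ 400) (fun _ => od Yn [t78, 0, t78]) = s4 (2 ^ 400) (fun _ => od Yn [t78, 0, t78]) := by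
    rw [← land_sl, ← Qn_pow, ← sl_eq]
    exact h3
  have l1 : od Yn [t78, 0, t78] < 2 ^ 400 := od_lt400 (by simp) w1
  rw [hN, pc_land hc l1] at k1
  have k2 := s4_inj (fun i => Nat.and_le_right.trans_lt l1) (fun _ => l1) k1
  have k3 := fun i => fl_ok (hc i i) (k2 i)
  have p1 : Nat.land N cS0 = l4 Zn fun i => (c i i 0).toNat := by
    unfold cS0
    rw [land_sl, hN, pc_land hc w4, s4_Z]
    exact congrArg (l4 Zn) (funext fun i => fv_m0 (hc i i) (k3 i).1)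
  have p2 : Nat.shiftRight (Nat.land N cS2) 160 = l4 Zn fun i => (c i i 2).toNat := by
    unfold cS2
    rw [land_sl, hN, pc_land hc (od_lt400 (by simp) w2)]
    simp only [fv_m2 (hc _ _) (k3 _).2]
    rw [s4_mul, s4_Z]
    exact shr_mul _ _
  have p3 : Nat.shiftRight (Nat.land N cR) 80 = l4 Zn fun i => ((t78 : ℤ) + c i i 1).toNat := by
    unfold cR
    rw [land_sl, hN, pc_land hc (od_lt400 (by simp) w3)]
    simp only [fv_m1 (hc _ _)]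
    rw [s4_mul, s4_Z]
    exact shr_mul _ _
  have p4 : Nat.shiftRight (Nat.land M cR) 80 = l4 Zn fun i => ((t78 : ℤ) + e i i 1).toNat := by
    unfold cR
    rw [land_sl, hM, pc_land he (od_lt400 (by simp) w3)]
    simp only [fv_m1 (he _ _)]
    rw [s4_mul, s4_Z]
    exact shr_mul _ _
  rw [p1, p2, p3, p4] at h2
  have bb : ∀ z : ℤ, |z| ≤ 2 ^ 76 → z.toNat < 2 ^ 78 ∧ ((t78 : ℤ) + z).toNat < 2 ^ 79 ∧
      ((((t78 : ℤ) + z).toNat : ℕ) : ℤ) - 2 ^ 78 = z := by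
    intro z hz
    rw [abs_le] at hz
    rw [t78_eq]
    refine ⟨by omega, by omega, by omega⟩
  have h4 := lv2_ok (fun i => (bb _ (hc i i 0)).1) (fun i => (bb _ (hc i i 2)).1) (fun i => (bb _ (hc i i 1)).2.1)
    (fun i => (bb _ (he i i 1)).2.1) hJ h2 i
  rw [(bb _ (hc i i 1)).2.2, (bb _ (he i i 1)).2.2, Int.toNat_of_nonneg (k3 i).1, Int.toNat_of_nonneg (k3 i).2] at h4
  exact ⟨(k3 i).1, (k3 i).2, h4⟩

/-! ### the products -/

/-- offsets of the lanes -/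
def pf (o : ℕ) : Fin 4 → ℕ := ![o, o, o, of4 o]

theorem om_cast (o : ℕ) : ((om o : ℕ) : ℤ) = z4 Qn fun i => (pf o i : ℤ) := by
  have e : om o = l4 Qn (pf o) := by
    unfold om l4 pf
    rfl
  rw [e, l4_cast]

/-- coefficients, first component -/
def phc (A D F b1 b3 c1 c3 e1 : Fin 4 → ℤ) (i j : Fin 4) : Fin 5 → ℤ :=
  ![A i * D j - b1 i * b1 j - b3 i * b3 j,
    2 * (A i * e1 j) - (b1 i * c1 j + c1 i * b1 j) - (b3 i * c3 j + c3 i * b3 j),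
    A i * F j - c1 i * c1 j - c3 i * c3 j, 0, 0]

/-- coefficients, second component -/
def psc (A b1 b3 c1 c3 e3 : Fin 4 → ℤ) (i j : Fin 4) : Fin 5 → ℤ :=
  ![-(2 * (b1 i * b3 j)), 2 * (A i * e3 j) - 2 * (b1 i * c3 j + c1 i * b3 j) + 4 * (c1 i * b3 j),
    -(2 * (c1 i * c3 j)), 0, 0]

theorem phc_cv (A D F b1 b3 c1 c3 e1 : Fin 4 → ℤ) (X : ℤ) : cvz X (fun i j => pz (phc A D F b1 b3 c1 c3 e1 i j))
    = z4 X A * z4 X D - z4 X b1 * z4 X b1 - z4 X b3 * z4 X b3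
      + Yn * (2 * (z4 X A * z4 X e1) - 2 * (z4 X b1 * z4 X c1) - 2 * (z4 X b3 * z4 X c3))
      + Yn ^ 2 * (z4 X A * z4 X F - z4 X c1 * z4 X c1 - z4 X c3 * z4 X c3) := by
  generalize hY : (Yn : ℤ) = Y
  have e : ∀ i j, pz (phc A D F b1 b3 c1 c3 e1 i j) = (A i * D j - b1 i * b1 j - b3 i * b3 j)
      + (2 * (A i * e1 j) - (b1 i * c1 j + c1 i * b1 j) - (b3 i * c3 j + c3 i * b3 j)) * Y
      + (A i * F j - c1 i * c1 j - c3 i * c3 j) * Y ^ 2 := by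
    intro i j
    rw [← hY]
    simp [pz, phc]
  simp only [e, cvz, z4]
  ring

theorem psc_cv (A b1 b3 c1 c3 e3 : Fin 4 → ℤ) (X : ℤ) : cvz X (fun i j => pz (psc A b1 b3 c1 c3 e3 i j))
    = 2 * Yn * (z4 X A * z4 X e3) - 2 * ((z4 X b1 + Yn * z4 X c1) * (z4 X b3 + Yn * z4 X c3))
      + 4 * Yn * (z4 X c1 * z4 X b3) := by
  generalize hY : (Yn : ℤ) = Y
  have e : ∀ i j, pz (psc A b1 b3 c1 c3 e3 i j) = (-(2 * (b1 i * b3 j)))
      + (2 * (A i * e3 j) - 2 * (b1 i * c3 j + c1 i * b3 j) + 4 * (c1 i * b3 j)) * Y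
      + (-(2 * (c1 i * c3 j))) * Y ^ 2 := by
    intro i j
    rw [← hY]
    simp [pz, psc]
  simp only [e, cvz, z4]
  ring

theorem k1_cast (o : ℕ) : ((k1 o : ℕ) : ℤ) = 2 * (Yn + 1) * om o := by
  change ((2 * (Yn + 1) * om o : ℕ) : ℤ) = _
  simp only [Nat.cast_add, Nat.cast_mul, Nat.cast_ofNat, Nat.cast_one]

theorem k2_cast (o : ℕ) : ((k2 o : ℕ) : ℤ) = 2 * Yn * om o := by
  change ((2 * Yn * om o : ℕ) : ℤ) = _
  simp only [Nat.cast_mul, Nat.cast_ofNat]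

theorem k3_cast (o : ℕ) : ((k3 o : ℕ) : ℤ) = 4 * om o := by
  change ((4 * om o : ℕ) : ℤ) = _
  simp only [Nat.cast_mul, Nat.cast_ofNat]

theorem k4_cast (o : ℕ) : ((k4 o : ℕ) : ℤ) = Yn * om o := by
  change ((Yn * om o : ℕ) : ℤ) = _
  simp only [Nat.cast_mul]

theorem kc_cast (o : ℕ) : ((kc o : ℕ) : ℤ) = 2 * ((Yn + 1) * (Yn + 1)) * (om o * om o) := by
  change ((2 * ((Yn + 1) * (Yn + 1)) * (om o * om o) : ℕ) : ℤ) = _
  simp only [Nat.cast_add, Nat.cast_mul, Nat.cast_ofNat, Nat.cast_one]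

theorem kP_cast {o : ℕ} (ho : kc o ≤ GQ) : ((kP o : ℕ) : ℤ) = g5 * pw13 Qn - 2 * ((Yn + 1) * (Yn + 1)) * (om o * om o) := by
  unfold kP
  change ((GQ - kc o : ℕ) : ℤ) = _
  rw [Nat.cast_sub ho, GQ_eq, kc_cast]

theorem kS_cast {o : ℕ} (ho : kc o ≤ GQ) : ((kS o : ℕ) : ℤ)
    = g5 * pw13 Qn + 4 * Yn * (om o * om o) - 2 * ((Yn + 1) * (Yn + 1)) * (om o * om o) := by
  unfold kS
  change ((GQ + (4 * Yn * (om o * om o)) - kc o : ℕ) : ℤ) = _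
  rw [Nat.cast_sub (ho.trans (Nat.le_add_right _ _)), Nat.cast_add, GQ_eq, kc_cast]
  simp only [Nat.cast_mul, Nat.cast_ofNat]

section

variable {o A U V W E G B X : ℕ} {a D F b1 b3 c1 c3 e1 e3 : Fin 4 → ℤ}

theorem phF_val (ho : kc o ≤ GQ) (hb : ∀ i j k, |phc a D F b1 b3 c1 c3 e1 i j k| ≤ 2 ^ 76)
    (hA : (A : ℤ) = z4 Qn a) (hU : (U : ℤ) = z4 Qn b1 + Yn * z4 Qn c1 + (Yn + 1) * om o)
    (hV : (V : ℤ) = z4 Qn b3 + Yn * z4 Qn c3 + (Yn + 1) * om o)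
    (hW : (W : ℤ) = z4 Qn D + 2 * Yn * (z4 Qn e1 + om o) + Yn ^ 2 * z4 Qn F) (hX : X = Nat.mul (k1 o) (Nat.add U V)) :
    phF o A U V W X = od (2 ^ 400) (th (g5 : ℤ) fun i j => pz (phc a D F b1 b3 c1 c3 e1 i j)) := by
  have h1 := th_val (X := Qn) (fun i j => pz_bd (hb i j)) g5_lo
  rw [phc_cv] at h1
  rw [← Qn_pow]
  unfold phF
  refine sub_val ?_
  rw [h1, hX]
  simp only [Nat.add_eq, Nat.mul_eq, Nat.cast_add, Nat.cast_mul]
  rw [kP_cast ho, k1_cast, k2_cast, hA, hU, hV, hW]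
  generalize (om o : ℤ) = w
  ring

theorem psF_val (ho : kc o ≤ GQ) (hb : ∀ i j k, |psc a b1 b3 c1 c3 e3 i j k| ≤ 2 ^ 76)
    (hA : (A : ℤ) = z4 Qn a) (hU : (U : ℤ) = z4 Qn b1 + Yn * z4 Qn c1 + (Yn + 1) * om o)
    (hV : (V : ℤ) = z4 Qn b3 + Yn * z4 Qn c3 + (Yn + 1) * om o)
    (hE : (E : ℤ) = 2 * Yn * (z4 Qn e3 + om o)) (hG : (G : ℤ) = Yn * (z4 Qn c1 + om o))
    (hB : (B : ℤ) = 4 * (z4 Qn b3 + om o)) (hX : X = Nat.mul (k1 o) (Nat.add U V)) :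
    psF o A U V E G B X = od (2 ^ 400) (th (g5 : ℤ) fun i j => pz (psc a b1 b3 c1 c3 e3 i j)) := by
  have h1 := th_val (X := Qn) (fun i j => pz_bd (hb i j)) g5_lo
  rw [psc_cv] at h1
  rw [← Qn_pow]
  unfold psF
  refine sub_val ?_
  rw [h1, hX]
  simp only [Nat.add_eq, Nat.mul_eq, Nat.cast_add, Nat.cast_mul]
  rw [kS_cast ho, k1_cast, k2_cast, k3_cast, k4_cast, hA, hU, hV, hE, hG, hB]
  generalize (om o : ℤ) = w
  ring

end

theorem phc_bd {a D F b1 b3 c1 c3 e1 : Fin 4 → ℤ} (ha : ∀ i, |a i| ≤ 2 ^ 36) (hD : ∀ i, |D i| ≤ 2 ^ 36)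
    (hF : ∀ i, |F i| ≤ 2 ^ 36) (h1 : ∀ i, |b1 i| ≤ 2 ^ 36) (h3 : ∀ i, |b3 i| ≤ 2 ^ 36) (k1 : ∀ i, |c1 i| ≤ 2 ^ 36)
    (k3 : ∀ i, |c3 i| ≤ 2 ^ 36) (l1 : ∀ i, |e1 i| ≤ 2 ^ 36) : ∀ i j k, |phc a D F b1 b3 c1 c3 e1 i j k| ≤ 2 ^ 76 := by
  intro i j k
  have q1 := abs_le.1 (mul_bd (ha i) (hD j))
  have q2 := abs_le.1 (mul_bd (h1 i) (h1 j))
  have q3 := abs_le.1 (mul_bd (h3 i) (h3 j))
  have q4 := abs_le.1 (mul_bd (ha i) (l1 j))
  have q5 := abs_le.1 (mul_bd (h1 i) (k1 j))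
  have q6 := abs_le.1 (mul_bd (k1 i) (h1 j))
  have q7 := abs_le.1 (mul_bd (h3 i) (k3 j))
  have q8 := abs_le.1 (mul_bd (k3 i) (h3 j))
  have q9 := abs_le.1 (mul_bd (ha i) (hF j))
  have q10 := abs_le.1 (mul_bd (k1 i) (k1 j))
  have q11 := abs_le.1 (mul_bd (k3 i) (k3 j))
  rw [abs_le]
  fin_cases k <;> simp [phc] <;> constructor <;> linarith [q1.1, q1.2, q2.1, q2.2, q3.1, q3.2, q4.1, q4.2, q5.1, q5.2,
    q6.1, q6.2, q7.1, q7.2, q8.1, q8.2, q9.1, q9.2, q10.1, q10.2, q11.1, q11.2]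

theorem psc_bd {a b1 b3 c1 c3 e3 : Fin 4 → ℤ} (ha : ∀ i, |a i| ≤ 2 ^ 36) (h1 : ∀ i, |b1 i| ≤ 2 ^ 36)
    (h3 : ∀ i, |b3 i| ≤ 2 ^ 36) (k1 : ∀ i, |c1 i| ≤ 2 ^ 36)
    (k3 : ∀ i, |c3 i| ≤ 2 ^ 36) (l1 : ∀ i, |e3 i| ≤ 2 ^ 36) : ∀ i j k, |psc a b1 b3 c1 c3 e3 i j k| ≤ 2 ^ 76 := by
  intro i j k
  have q1 := abs_le.1 (mul_bd (h1 i) (h3 j))
  have q2 := abs_le.1 (mul_bd (ha i) (l1 j))
  have q3 := abs_le.1 (mul_bd (h1 i) (k3 j))
  have q4 := abs_le.1 (mul_bd (k1 i) (h3 j))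
  have q5 := abs_le.1 (mul_bd (k1 i) (k3 j))
  rw [abs_le]
  fin_cases k <;> simp [psc] <;> constructor <;> linarith [q1.1, q1.2, q2.1, q2.2, q3.1, q3.2, q4.1, q4.2, q5.1, q5.2]

/-- the inequalities of the test of three components -/
def Q3 (A D F b1 b3 c1 c3 e1 e3 : ℤ) : Prop :=
  b1 * b1 + b3 * b3 ≤ A * D ∧ c1 * c1 + c3 * c3 ≤ A * F ∧
    (A * e1 - (b1 * c1 + b3 * c3)) * (A * e1 - (b1 * c1 + b3 * c3))
      + (A * e3 - (b1 * c3 - b3 * c1)) * (A * e3 - (b1 * c3 - b3 * c1))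
      ≤ (A * D - (b1 * b1 + b3 * b3)) * (A * F - (c1 * c1 + c3 * c3))

theorem lv0_ok {o A U V W E : ℕ} {a D F b1 b3 c1 c3 e1 e3 : Fin 4 → ℤ} (ho : kc o ≤ GQ)
    (hJ : Nat.mul (Nat.pow 2 157) (Nat.mul JZ JZ) ≤ G4)
    (ha : ∀ i, |a i| ≤ 2 ^ 36) (hD : ∀ i, |D i| ≤ 2 ^ 36)
    (hF : ∀ i, |F i| ≤ 2 ^ 36) (h1 : ∀ i, |b1 i| ≤ 2 ^ 36) (h3 : ∀ i, |b3 i| ≤ 2 ^ 36) (k1 : ∀ i, |c1 i| ≤ 2 ^ 36)
    (k3 : ∀ i, |c3 i| ≤ 2 ^ 36) (l1 : ∀ i, |e1 i| ≤ 2 ^ 36) (l3 : ∀ i, |e3 i| ≤ 2 ^ 36)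
    (hA : (A : ℤ) = z4 Qn a) (hU : (U : ℤ) = z4 Qn b1 + Yn * z4 Qn c1 + (Yn + 1) * om o)
    (hV : (V : ℤ) = z4 Qn b3 + Yn * z4 Qn c3 + (Yn + 1) * om o)
    (hW : (W : ℤ) = z4 Qn D + 2 * Yn * (z4 Qn e1 + om o) + Yn ^ 2 * z4 Qn F)
    (hE : (E : ℤ) = 2 * Yn * (z4 Qn e3 + om o)) (hG : ((Nat.land U c2 : ℕ) : ℤ) = Yn * (z4 Qn c1 + om o))
    (hB : ((Nat.mul 4 (Nat.land V c0) : ℕ) : ℤ) = 4 * (z4 Qn b3 + om o))
    (h : lv0 o A U V W E = true) (i : Fin 4) :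
    Q3 (a i) (D i) (F i) (b1 i) (b3 i) (c1 i) (c3 i) (e1 i) (e3 i) := by
  have q1 := phc_bd ha hD hF h1 h3 k1 k3 l1
  have q2 := psc_bd ha h1 h3 k1 k3 l3
  have q3 := phF_val ho q1 hA hU hV hW rfl
  have q4 := psF_val ho q2 hA hU hV hE hG hB rfl
  obtain ⟨r1, r2, r3⟩ := lv1_ok q1 q2 q3 q4 hJ h i
  simp only [phc, psc, Matrix.cons_val] at r1 r2 r3
  refine ⟨by linarith, by linarith, ?_⟩
  have e1' : (2 * (a i * e1 i) - (b1 i * c1 i + c1 i * b1 i) - (b3 i * c3 i + c3 i * b3 i))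
      = 2 * (a i * e1 i - (b1 i * c1 i + b3 i * c3 i)) := by ring
  have e2' : (2 * (a i * e3 i) - 2 * (b1 i * c3 i + c1 i * b3 i) + 4 * (c1 i * b3 i))
      = 2 * (a i * e3 i - (b1 i * c3 i - b3 i * c1 i)) := by ring
  rw [e1', e2'] at r3
  have e3' : (a i * D i - b1 i * b1 i - b3 i * b3 i) * (a i * F i - c1 i * c1 i - c3 i * c3 i)
     = (a i * D i - (b1 i * b1 i + b3 i * b3 i)) * (a i * F i - (c1 i * c1 i + c3 i * c3 i)) := by ring
  rw [e3'] at r3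
  linarith

/-! ### digits of the lanes -/

theorem lo_c2 {a b : ℕ} (ha : a < qn) (hb : b < qn) : (a + Yn * b) &&& od qn [0, 0, fq] = Yn * b := by
  have e : a + Yn * b = od qn [a, 0, b] := by
    rw [Yn_q]
    simp only [od, Nat.add_eq, Nat.mul_eq]
    ring
  have hl : ∀ d ∈ [a, 0, b], d < 2 ^ 40 := by
    intro d hd
    simp only [List.mem_cons, List.not_mem_nil, or_false] at hd
    rcases hd with rfl | rfl | rfl
    · exact ha
    · positivity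
    · exact hb
  rw [e, qn_pow, land_od _ _ hl (mask_ok _ (by simp))]
  simp only [List.zipWith, Nat.and_zero, and_fq hb]
  rw [Yn_q, ← qn_pow]
  simp only [od, Nat.add_eq, Nat.mul_eq]
  ring

theorem lo_c0 {a b : ℕ} (ha : a < qn) (hb : b < qn) : (a + Yn * b) &&& od qn [fq] = a := by
  have e : a + Yn * b = od qn [a, 0, b] := by
    rw [Yn_q]
    simp only [od, Nat.add_eq, Nat.mul_eq]
    ring
  have hl : ∀ d ∈ [a, 0, b], d < 2 ^ 40 := by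
    intro d hd
    simp only [List.mem_cons, List.not_mem_nil, or_false] at hd
    rcases hd with rfl | rfl | rfl
    · exact ha
    · positivity
    · exact hb
  rw [e, qn_pow, land_od _ _ hl (mask_ok _ (by simp))]
  simp only [List.zipWith, and_fq ha]
  simp only [od, Nat.add_eq, Nat.mul_eq]
  ring

theorem lo_lt {a b : ℕ} (ha : a < qn) (hb : b < qn) : a + Yn * b < 2 ^ 400 := by
  have h1 : a + Yn * b < Yn * Yn := by
    have h2 : qn ≤ Yn := by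
      rw [qn_pow, Yn_pow]
      exact Nat.pow_le_pow_right (by norm_num) (by norm_num)
    have h3 : b + 1 ≤ Yn := by omega
    calc a + Yn * b < Yn + Yn * b := by omega
      _ = Yn * (b + 1) := by ring
      _ ≤ Yn * Yn := Nat.mul_le_mul_left _ h3
  have h4 : Yn * Yn ≤ 2 ^ 400 := by
    rw [Yn_pow, ← pow_add]
    exact Nat.pow_le_pow_right (by norm_num) (by norm_num)
  exact h1.trans_le h4

/-- **the assembled test** -/
theorem lvT_ok {o : ℕ} {x : Fin 4 → Fin 9 → ℕ} (hx : ∀ i k, x i k < 2 ^ 35) {e1 e3 : Fin 4 → ℤ}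
    (he1 : ∀ i, (x i 7 : ℤ) = 2 * (e1 i + pf o i)) (he3 : ∀ i, (x i 8 : ℤ) = 2 * (e3 i + pf o i))
    (hp : ∀ i, pf o i ≤ 2 ^ 35) (ho : kc o ≤ GQ) (hJ : Nat.mul (Nat.pow 2 157) (Nat.mul JZ JZ) ≤ G4)
    (h : lvT o (l4 Qn fun i => od qn (d9 (x i))) = true) (i : Fin 4) :
    Q3 (x i 0) (x i 1) (x i 2) (x i 3 - pf o i) (x i 4 - pf o i) (x i 5 - pf o i) (x i 6 - pf o i) (e1 i) (e3 i) := by
  have w : (2 : ℕ) ^ 35 < qn := by
    rw [qn_pow]
    norm_num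
  have w38 : (2 : ℕ) ^ 35 < 2 ^ 38 := by norm_num
  have hq : ∀ i k, x i k < qn := fun i k => (hx i k).trans w
  have h38 : ∀ i k, x i k < 2 ^ 38 := fun i k => (hx i k).trans w38
  unfold lvT at h
  rw [ex0 hq, ex35 hq, ex46 hq, ex127 hq, ex8 hq, exW (fun i => h38 i 1) (fun i => h38 i 2) (fun i => h38 i 7)] at h
  have bd : ∀ i k, |(x i k : ℤ)| ≤ 2 ^ 36 := fun i k => by
    have := hx i k
    rw [abs_le]
    constructor <;> omega
  have bp : ∀ i, (pf o i : ℤ) ≤ 2 ^ 35 := fun i => by exact_mod_cast hp i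
  have bq : ∀ i k, |(x i k : ℤ) - pf o i| ≤ 2 ^ 36 := fun i k => by
    have h1 := hx i k
    have h2 := bp i
    rw [abs_le]
    constructor <;> omega
  have be : ∀ i, |e1 i| ≤ 2 ^ 36 := fun i => by
    have h1 := hx i 7
    have h2 := bp i
    have h3 := he1 i
    rw [abs_le]
    constructor <;> omega
  have bf : ∀ i, |e3 i| ≤ 2 ^ 36 := fun i => by
    have h1 := hx i 8
    have h2 := bp i
    have h3 := he3 i
    rw [abs_le]
    constructor <;> omega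
  refine lv0_ok (a := fun i => (x i 0 : ℤ)) (D := fun i => (x i 1 : ℤ)) (F := fun i => (x i 2 : ℤ))
    (b1 := fun i => (x i 3 : ℤ) - pf o i) (b3 := fun i => (x i 4 : ℤ) - pf o i) (c1 := fun i => (x i 5 : ℤ) - pf o i)
    (c3 := fun i => (x i 6 : ℤ) - pf o i) (e1 := e1) (e3 := e3) ho hJ (fun i => bd i 0) (fun i => bd i 1)
    (fun i => bd i 2) (fun i => bq i 3) (fun i => bq i 4) (fun i => bq i 5) (fun i => bq i 6) be bf
    ?_ ?_ ?_ ?_ ?_ ?_ ?_ h i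
  · exact l4_cast _ _
  · rw [l4_cast, om_cast]
    simp only [z4, Nat.cast_add, Nat.cast_mul]
    ring
  · rw [l4_cast, om_cast]
    simp only [z4, Nat.cast_add, Nat.cast_mul]
    ring
  · rw [l4_cast, om_cast]
    simp only [z4, Nat.cast_add, Nat.cast_mul, Nat.cast_pow, he1]
    ring
  · rw [l4_cast, om_cast]
    simp only [z4, Nat.cast_mul, he3]
    ring
  · have e : Nat.land (l4 Qn fun i => x i 3 + Yn * x i 5) c2 = l4 Qn fun i => Yn * x i 5 := by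
      unfold c2
      rw [l4_land (fun i => lo_lt (hq i 3) (hq i 5)) (mk_lt _ (by simp) (by simp))]
      exact congrArg (l4 Qn) (funext fun i => lo_c2 (hq i 3) (hq i 5))
    rw [e, l4_cast, om_cast]
    simp only [z4, Nat.cast_mul]
    ring
  · have e : Nat.land (l4 Qn fun i => x i 4 + Yn * x i 6) c0 = l4 Qn fun i => x i 4 := by
      unfold c0
      rw [l4_land (fun i => lo_lt (hq i 4) (hq i 6)) (mk_lt _ (by simp) (by simp))]
      exact congrArg (l4 Qn) (funext fun i => lo_c0 (hq i 4) (hq i 6))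
    rw [e]
    change ((4 * l4 Qn fun i => x i 4 : ℕ) : ℤ) = _
    rw [Nat.cast_mul, l4_cast, om_cast]
    simp only [z4]
    push_cast
    ring

theorem l4_add (X : ℕ) (n m : Fin 4 → ℕ) : Nat.add (l4 X n) (l4 X m) = l4 X fun i => n i + m i := by
  unfold l4
  rw [L4_eq, L4_eq, L4_eq]
  simp only [Nat.add_eq]
  ring

/-- the last two digits doubled -/
def dbl (x : Fin 9 → ℕ) : Fin 9 → ℕ := ![x 0, x 1, x 2, x 3, x 4, x 5, x 6, 2 * x 7, 2 * x 8]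

theorem lvD_ok {o : ℕ} {x : Fin 4 → Fin 9 → ℕ} (hx : ∀ i k, x i k < 2 ^ 34)
    (hp : ∀ i, pf o i ≤ 2 ^ 35) (ho : kc o ≤ GQ) (hJ : Nat.mul (Nat.pow 2 157) (Nat.mul JZ JZ) ≤ G4)
    (h : lvD o (l4 Qn fun i => od qn (d9 (x i))) = true) (i : Fin 4) :
    Q3 (x i 0) (x i 1) (x i 2) (x i 3 - pf o i) (x i 4 - pf o i) (x i 5 - pf o i) (x i 6 - pf o i) (x i 7 - pf o i)
      (x i 8 - pf o i) := by
  have w : (2 : ℕ) ^ 34 < qn := by
    rw [qn_pow]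
    norm_num
  have hq : ∀ i k, x i k < qn := fun i k => (hx i k).trans w
  unfold lvD at h
  rw [ex78 hq] at h
  have e : Nat.add (l4 Qn fun i => od qn (d9 (x i))) (l4 Qn fun i => od qn [0, 0, 0, 0, 0, 0, 0, x i 7, x i 8])
      = l4 Qn fun i => od qn (d9 (dbl (x i))) := by
    have k : ∀ i, od qn (d9 (dbl (x i))) = od qn (d9 (x i)) + od qn [0, 0, 0, 0, 0, 0, 0, x i 7, x i 8] := by
      intro i
      unfold d9 dbl
      generalize qn = q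
      simp only [Matrix.cons_val, od, Nat.add_eq, Nat.mul_eq]
      ring
    rw [l4_add]
    exact congrArg (l4 Qn) (funext fun i => (k i).symm)
  rw [e] at h
  have hx' : ∀ i k, dbl (x i) k < 2 ^ 35 := by
    intro i k
    have h7 := hx i 7
    have h8 := hx i 8
    have hk := fun k => (hx i k).trans (show (2 : ℕ) ^ 34 < 2 ^ 35 by norm_num)
    unfold dbl
    fin_cases k <;> simp only [Matrix.cons_val, Fin.mk_one, Fin.zero_eta, Fin.reduceFinMk] <;>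
      first | exact hk _ | omega
  exact lvT_ok (x := fun i => dbl (x i)) hx' (e1 := fun i => (x i 7 : ℤ) - pf o i) (e3 := fun i => (x i 8 : ℤ) - pf o i)
    (fun i => by simp [dbl]) (fun i => by simp [dbl]) hp ho hJ h i

/-! ### the diagonal -/

theorem l4_inj {X : ℕ} {n m : Fin 4 → ℕ} (hn : ∀ i, n i < X) (hm : ∀ i, m i < X) (h : l4 X n = l4 X m) :
    ∀ i, n i = m i := by
  have w0 : 0 < X := (Nat.zero_le _).trans_lt (hn 0)
  have key : ∀ k : Fin 4 → ℕ, (∀ i, k i < X) → dgs X 7 (l4 X k) = [k 0, k 1, 0, 0, k 2, 0, k 3] := by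
    intro k hk
    exact dgs_od [k 0, k 1, 0, 0, k 2, 0, k 3] (by
      intro d hd
      simp only [List.mem_cons, List.not_mem_nil, or_false] at hd
      rcases hd with rfl | rfl | rfl | rfl | rfl | rfl | rfl <;> first | exact hk _ | exact w0)
  have e := key n hn
  rw [h, key m hm] at e
  simp only [List.cons.injEq, true_and, and_true] at e
  intro i
  fin_cases i
  · exact e.1.symm
  · exact e.2.1.symm
  · exact e.2.2.1.symm
  · exact e.2.2.2.symm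

/-- offsets of the diagonal -/
def pd (o : ℕ) : Fin 4 → ℕ := ![o, o, o, Nat.add (of4 o) 5]

theorem cCT_eq (o : ℕ) : cCT o = l4 Qn fun i => cd (pd o i) := by
  unfold cCT l4 pd
  rfl

theorem cOD_eq (o : ℕ) : cOD o = l4 Qn fun i => dd (pd o i) := by
  unfold cOD l4 pd
  rfl

theorem cFL_eq : cFL = l4 Qn fun _ => od qn [t39, t39, t39] := by
  unfold cFL mk4 l4
  rfl

theorem t39_eq : t39 = 2 ^ 39 := rfl
theorem g1_eq : g1 = 2 ^ 31 := rfl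
theorem g0_eq : g0 = 2 ^ 32 := rfl

theorem of4_eq (o : ℕ) : of4 o = o + (2 ^ 32 + 2 ^ 31) := rfl

theorem pd_le {o : ℕ} (h : o ≤ g1) (i : Fin 4) : pd o i ≤ 2 ^ 34 - 1 := by
  rw [g1_eq] at h
  fin_cases i
  · change o ≤ 2 ^ 34 - 1
    omega
  · change o ≤ 2 ^ 34 - 1
    omega
  · change o ≤ 2 ^ 34 - 1
    omega
  · change o + (2 ^ 32 + 2 ^ 31) + 5 ≤ 2 ^ 34 - 1
    omega

theorem pf_le {o : ℕ} (h : o ≤ g1) (i : Fin 4) : pf o i ≤ 2 ^ 35 := by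
  rw [g1_eq] at h
  fin_cases i
  · change o ≤ 2 ^ 35
    omega
  · change o ≤ 2 ^ 35
    omega
  · change o ≤ 2 ^ 35
    omega
  · change o + (2 ^ 32 + 2 ^ 31) ≤ 2 ^ 35
    omega

/-- digits with the flags -/
def ct (y : Fin 9 → ℕ) (p : ℕ) : Fin 9 → ℕ :=
  ![y 0 + (2 ^ 39 - 1 - p), y 1 + (2 ^ 39 - p), y 2 + (2 ^ 39 - p), y 3, y 4, y 5, y 6, y 7, y 8]

/-- digits without the offset of the diagonal -/
def sb (y : Fin 9 → ℕ) (p : ℕ) : Fin 9 → ℕ :=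
  ![y 0 - p, y 1 - p, y 2 - p, y 3, y 4, y 5, y 6, y 7, y 8]

theorem ct_eq (y : Fin 9 → ℕ) (p : ℕ) : od qn (d9 y) + cd p = od qn (d9 (ct y p)) := by
  have e1 : Nat.sub (Nat.pred t39) p = 2 ^ 39 - 1 - p := rfl
  have e2 : Nat.sub t39 p = 2 ^ 39 - p := rfl
  unfold cd d9 ct
  rw [e1, e2]
  generalize qn = q
  generalize 2 ^ 39 - 1 - p = u
  generalize 2 ^ 39 - p = v
  simp only [Matrix.cons_val, od, Nat.add_eq, Nat.mul_eq]
  ring

theorem sb_eq (y : Fin 9 → ℕ) (p : ℕ) (h0 : p ≤ y 0) (h1 : p ≤ y 1) (h2 : p ≤ y 2) :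
    od qn (d9 (sb y p)) + dd p = od qn (d9 y) := by
  obtain ⟨u, hu⟩ := Nat.exists_eq_add_of_le h0
  obtain ⟨v, hv⟩ := Nat.exists_eq_add_of_le h1
  obtain ⟨w, hw⟩ := Nat.exists_eq_add_of_le h2
  unfold dd d9 sb
  generalize qn = q
  simp only [Matrix.cons_val, od, Nat.add_eq, Nat.mul_eq]
  rw [hu, hv, hw, Nat.add_sub_cancel_left, Nat.add_sub_cancel_left, Nat.add_sub_cancel_left]
  ring

theorem fl3 {z : Fin 9 → ℕ} (hz : ∀ k, z k < qn) (h : od qn (d9 z) &&& od qn [t39, t39, t39] = od qn [t39, t39, t39]) :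
    t39 ≤ z 0 ∧ t39 ≤ z 1 ∧ t39 ≤ z 2 := by
  have l39 : t39 < 2 ^ 40 := by
    rw [t39_eq]
    norm_num
  have ht : ∀ d ∈ [t39, t39, t39], d < 2 ^ 40 := by
    intro d hd
    simp only [List.mem_cons, List.not_mem_nil, or_false, or_self] at hd
    rw [hd]
    exact l39
  rw [qn_pow, land_od _ _ (d9_lt hz) ht] at h
  simp only [d9, List.zipWith] at h
  have e1 := dgs_od (B := 2 ^ 40) [t39, t39, t39] ht
  have e2 := dgs_od (B := 2 ^ 40) [z 0 &&& t39, z 1 &&& t39, z 2 &&& t39] (by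
    intro d hd
    simp only [List.mem_cons, List.not_mem_nil, or_false] at hd
    rcases hd with rfl | rfl | rfl <;> exact Nat.and_le_right.trans_lt l39)
  simp only [List.length_cons, List.length_nil] at e1 e2
  rw [h, e1] at e2
  simp only [List.cons.injEq, and_true] at e2
  exact ⟨le_of_land e2.1.symm, le_of_land e2.2.1.symm, le_of_land e2.2.2.symm⟩

/-- **the four matrices** -/
theorem lvA_ok {o T f : ℕ} {y : Fin 4 → Fin 9 → ℕ} (hy : ∀ i k, y i k < 2 ^ 34) (h1 : o ≤ g1) (ho : kc o ≤ GQ)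
    (hJ : Nat.mul (Nat.pow 2 157) (Nat.mul JZ JZ) ≤ G4)
    (hT : Nat.add T (Nat.shiftLeft f 2400) = l4 Qn fun i => od qn (d9 (y i)))
    (h : lvA o T f = true) (i : Fin 4) :
    pd o i < y i 0 ∧ pd o i ≤ y i 1 ∧ pd o i ≤ y i 2 ∧
    Q3 (y i 0 - pd o i) (y i 1 - pd o i) (y i 2 - pd o i) (y i 3 - pf o i) (y i 4 - pf o i) (y i 5 - pf o i)
      (y i 6 - pf o i) (y i 7 - pf o i) (y i 8 - pf o i) := by
  unfold lvA at h
  rw [hT, Bool.and_eq_true] at h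
  obtain ⟨k1, k2⟩ := h
  have hd := pd_le h1
  have k3 := Nat.eq_of_beq_eq_true k1
  rw [cCT_eq, l4_add] at k3
  simp only [ct_eq] at k3
  have hc : ∀ i k, ct (y i) (pd o i) k < qn := by
    intro i k
    have hq : ∀ k, y i k < 2 ^ 40 := fun k => (hy i k).trans (by norm_num)
    rw [qn_pow]
    have a0 := hy i 0
    have a1 := hy i 1
    have a2 := hy i 2
    unfold ct
    fin_cases k <;> simp only [Matrix.cons_val, Fin.mk_one, Fin.zero_eta, Fin.reduceFinMk] <;>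
      first | exact hq _ | omega
  have m3 : od qn [t39, t39, t39] < 2 ^ 400 := by
    have h1 := od_lt (B := qn) [t39, t39, t39] (by
      intro d hd
      simp only [List.mem_cons, List.not_mem_nil, or_false, or_self] at hd
      rw [hd, t39_eq, qn_pow]
      norm_num)
    have h2 : qn ^ 3 ≤ Qn := by
      rw [Qn_q]
      exact Nat.pow_le_pow_right (by rw [qn_pow]; positivity) (by norm_num)
    exact h1.trans_le h2
  have k4 : Nat.land (l4 Qn fun i => od qn (d9 (ct (y i) (pd o i)))) cFL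
      = l4 Qn fun i => od qn (d9 (ct (y i) (pd o i))) &&& od qn [t39, t39, t39] :=
    l4_land (fun i => n9_lt (hc i)) m3
  rw [k4, cFL_eq] at k3
  have k5 := l4_inj (X := Qn) (fun i => Nat.and_le_right.trans_lt m3) (fun _ => m3) k3
  have k6 := fun i => fl3 (hc i) (k5 i)
  have k7 : ∀ i, pd o i < y i 0 ∧ pd o i ≤ y i 1 ∧ pd o i ≤ y i 2 := by
    intro i
    obtain ⟨a, b, c⟩ := k6 i
    have hd' := hd i
    simp only [ct, Matrix.cons_val, t39_eq] at a b c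
    refine ⟨by omega, by omega, by omega⟩
  have e : Nat.sub (l4 Qn fun i => od qn (d9 (y i))) (cOD o) = l4 Qn fun i => od qn (d9 (sb (y i) (pd o i))) := by
    have e1 : Nat.add (l4 Qn fun i => od qn (d9 (sb (y i) (pd o i)))) (cOD o) = l4 Qn fun i => od qn (d9 (y i)) := by
      rw [cOD_eq, l4_add]
      exact congrArg (l4 Qn) (funext fun i => sb_eq _ _ (k7 i).1.le (k7 i).2.1 (k7 i).2.2)
    rw [← e1]
    exact Nat.add_sub_cancel _ _
  rw [e] at k2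
  have hs : ∀ i k, sb (y i) (pd o i) k < 2 ^ 34 := by
    intro i k
    have a0 := hy i 0
    have a1 := hy i 1
    have a2 := hy i 2
    unfold sb
    fin_cases k <;> simp only [Matrix.cons_val, Fin.mk_one, Fin.zero_eta, Fin.reduceFinMk] <;>
      first | exact hy _ _ | omega
  obtain ⟨b0, b1, b2⟩ := k7 i
  refine ⟨b0, b1, b2, ?_⟩
  have k8 := lvD_ok hs (pf_le h1) ho hJ k2 i
  simp only [sb, Matrix.cons_val] at k8
  rw [Nat.cast_sub b0.le, Nat.cast_sub b1, Nat.cast_sub b2] at k8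
  exact k8

/-! ### completeness of the test of three components -/

theorem dst_sqz (a b : ℕ) : ((sqn (dst a b) : ℕ) : ℤ) = ((a : ℤ) - b) * ((a : ℤ) - b) := by
  have h := dst_sq a b
  have e : ((sqn (dst a b) : ℕ) : ℝ) = ((a : ℝ) - b) * ((a : ℝ) - b) := by
    change ((dst a b * dst a b : ℕ) : ℝ) = _
    push_cast
    linarith
  exact_mod_cast e

theorem t3_of {a a' d d' f f' b1 b2 b3 b4 c1 c2 c3 c4 e1 e2 e3 e4 : ℕ} (h1 : a' < a) (h2 : d' ≤ d) (h3 : f' ≤ f)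
    (h : Q3 ((a : ℤ) - a') ((d : ℤ) - d') ((f : ℤ) - f') ((b1 : ℤ) - b2) ((b3 : ℤ) - b4) ((c1 : ℤ) - c2)
      ((c3 : ℤ) - c4) ((e1 : ℤ) - e2) ((e3 : ℤ) - e4)) :
    t3 a a' d d' f f' b1 b2 b3 b4 c1 c2 c3 c4 e1 e2 e3 e4 = true := by
  obtain ⟨q1, q2, q3⟩ := h
  have eA : ((a - a' : ℕ) : ℤ) = (a : ℤ) - a' := Nat.cast_sub h1.le
  have eD : ((d - d' : ℕ) : ℤ) = (d : ℤ) - d' := Nat.cast_sub h2
  have eF : ((f - f' : ℕ) : ℤ) = (f : ℤ) - f' := Nat.cast_sub h3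
  have k4 : (sqn (dst b1 b2) + sqn (dst b3 b4) : ℕ) ≤ ((a - a') * (d - d') : ℕ) := by
    zify
    rw [eA, eD, dst_sqz, dst_sqz]
    exact q1
  have k5 : (sqn (dst c1 c2) + sqn (dst c3 c4) : ℕ) ≤ ((a - a') * (f - f') : ℕ) := by
    zify
    rw [eA, eF, dst_sqz, dst_sqz]
    exact q2
  simp only [t3, Bool.and_eq_true, Nat.ble_eq]
  refine ⟨h1, h2, h3, k4, k5, ?_⟩
  obtain ⟨rp, hrp⟩ : ∃ x, x = (a - a') * e1 + ((b1 * c2 + b2 * c1) + (b3 * c4 + b4 * c3)) := ⟨_, rfl⟩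
  obtain ⟨rn, hrn⟩ : ∃ x, x = (a - a') * e2 + ((b1 * c1 + b2 * c2) + (b3 * c3 + b4 * c4)) := ⟨_, rfl⟩
  obtain ⟨ip', hip⟩ : ∃ x, x = (a - a') * e3 + ((b1 * c4 + b2 * c3) + (b3 * c1 + b4 * c2)) := ⟨_, rfl⟩
  obtain ⟨im', him⟩ : ∃ x, x = (a - a') * e4 + ((b1 * c3 + b2 * c4) + (b3 * c2 + b4 * c1)) := ⟨_, rfl⟩
  have k6 : (sqn (dst rp rn) + sqn (dst ip' im') : ℕ)
      ≤ ((a - a') * (d - d') - (sqn (dst b1 b2) + sqn (dst b3 b4)))
        * ((a - a') * (f - f') - (sqn (dst c1 c2) + sqn (dst c3 c4))) := by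
    zify [k4, k5]
    rw [eA, eD, eF, dst_sqz, dst_sqz, dst_sqz, dst_sqz, dst_sqz, dst_sqz]
    have er : (rp : ℤ) - rn = ((a : ℤ) - a') * ((e1 : ℤ) - e2) - (((b1 : ℤ) - b2) * ((c1 : ℤ) - c2)
        + ((b3 : ℤ) - b4) * ((c3 : ℤ) - c4)) := by
      rw [hrp, hrn]
      push_cast [eA]
      ring
    have ei : (ip' : ℤ) - im' = ((a : ℤ) - a') * ((e3 : ℤ) - e4) - (((b1 : ℤ) - b2) * ((c3 : ℤ) - c4)
        - ((b3 : ℤ) - b4) * ((c1 : ℤ) - c2)) := by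
      rw [hip, him]
      push_cast [eA]
      ring
    rw [er, ei]
    exact q3
  rw [hrp, hrn, hip, him] at k6
  exact k6

/-! ### the fourth corner -/

theorem ex9 : ∀ l : List ℕ, l.length = 9 → ∃ x : Fin 9 → ℕ, l = d9 x := by
  intro l hl
  match l, hl with
  | [a, b, c, d, e, f, g, h, i], _ => exact ⟨![a, b, c, d, e, f, g, h, i], rfl⟩

theorem T3_d9 (x y : Fin 9 → ℕ) : T3 (d9 x) (d9 y)
    = t3 (x 0) (y 0) (x 1) (y 1) (x 2) (y 2) (x 3) (y 3) (x 4) (y 4) (x 5) (y 5) (x 6) (y 6) (x 7) (y 7) (x 8) (y 8) := rfl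

theorem l3_d9 (S : ℕ) (x y z : Fin 9 → ℕ) : l3 S (d9 x) (d9 y) (d9 z) = d9 fun k => (x k + y k) + z k / S := rfl

/-- offsets -/
def of9 (o : ℕ) : Fin 9 → ℕ := ![o + 5, o + 5, o + 5, o, o, o, o, o, o]

theorem ofs_d9 (o : ℕ) : ofs 9 o sv3 = d9 (of9 o) := rfl

theorem rep_d9 (o : ℕ) : List.replicate 9 o = d9 fun _ => o := rfl

/-- floors of the digits -/
theorem floor_ok {β σ : ℕ} (hσ : σ ≤ β) : ∀ n e : ℕ,
    (e / 2 ^ σ) &&& od (2 ^ β) (List.replicate n (2 ^ (β - σ) - 1)) = od (2 ^ β) ((dgs (2 ^ β) n e).map fun x => x / 2 ^ σ)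
  | 0, e => by simp [od, dgs]
  | n + 1, e => by
    have ih := floor_ok hσ n (e / 2 ^ β)
    have hm : 2 ^ (β - σ) - 1 < 2 ^ β := by
      have h1 : 2 ^ (β - σ) ≤ 2 ^ β := Nat.pow_le_pow_right (by norm_num) (Nat.sub_le _ _)
      have h2 : 0 < 2 ^ (β - σ) := by positivity
      omega
    have e1 : e / 2 ^ σ = (e / 2 ^ σ) % 2 ^ β + 2 ^ β * ((e / 2 ^ σ) / 2 ^ β) := (Nat.mod_add_div _ _).symm
    have e2 : (e / 2 ^ σ) / 2 ^ β = (e / 2 ^ β) / 2 ^ σ := by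
      rw [Nat.div_div_eq_div_mul, Nat.div_div_eq_div_mul, mul_comm]
    have e3 : (e / 2 ^ σ) % 2 ^ (β - σ) = (e % 2 ^ β) / 2 ^ σ := by
      rw [← Nat.mod_mul_right_div_self, ← pow_add, Nat.add_sub_cancel' hσ]
    rw [List.replicate_succ]
    simp only [od, dgs, List.map_cons, Nat.add_eq, Nat.mul_eq]
    rw [e1, land_cons (Nat.mod_lt _ (by positivity)) hm, e2, ih, Nat.and_two_pow_sub_one_eq_mod,
      Nat.mod_mod_of_dvd _ (pow_dvd_pow 2 (Nat.sub_le _ _)), e3]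
    rfl

/-- shifts -/
theorem asm_ok (x : Fin 4 → ℕ) : Nat.add (Nat.add (x 0) (Nat.add (Nat.shiftLeft (x 1) 400) (Nat.shiftLeft (x 2) 1600)))
    (Nat.shiftLeft (x 3) 2400) = l4 Qn x := by
  have e1 : Nat.shiftLeft (x 1) 400 = x 1 * Qn := by
    change x 1 <<< 400 = _
    rw [Nat.shiftLeft_eq, Qn_pow]
  have e2 : Nat.shiftLeft (x 2) 1600 = x 2 * Qn ^ 4 := by
    change x 2 <<< 1600 = _
    rw [Nat.shiftLeft_eq, Qn_pow, ← pow_mul]
  have e3 : Nat.shiftLeft (x 3) 2400 = x 3 * Qn ^ 6 := by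
    change x 3 <<< 2400 = _
    rw [Nat.shiftLeft_eq, Qn_pow, ← pow_mul]
  rw [e1, e2, e3]
  unfold l4
  rw [L4_eq]
  generalize Qn = Q
  simp only [Nat.add_eq]
  ring

theorem d9_eq {x y : Fin 9 → ℕ} (h : d9 x = d9 y) : ∀ k, x k = y k := by
  simp only [d9, List.cons.injEq, and_true] at h
  obtain ⟨h0, h1, h2, h3, h4, h5, h6, h7, h8⟩ := h
  intro k
  fin_cases k <;> assumption

theorem od9_add (q : ℕ) (x y : Fin 9 → ℕ) : od q (d9 x) + od q (d9 y) = od q (d9 fun k => x k + y k) := by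
  unfold d9
  simp only [od, Nat.add_eq, Nat.mul_eq]
  ring

theorem od9_inj {q : ℕ} {x y : Fin 9 → ℕ} (hx : ∀ k, x k < q) (hy : ∀ k, y k < q) (h : od q (d9 x) = od q (d9 y)) :
    ∀ k, x k = y k := by
  have e1 := dgs_od (B := q) (d9 x) (d9_lt hx)
  have e2 := dgs_od (B := q) (d9 y) (d9_lt hy)
  rw [h] at e1
  exact d9_eq (e1.symm.trans e2)

/-- **the fourth corner** -/
theorem lvE_ok {β o E : ℕ} {xa xb xd z : Fin 9 → ℕ} (ha : ∀ k, xa k < 2 ^ 31) (hb : ∀ k, xb k < 2 ^ 31)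
    (hd : ∀ k, xd k < 2 ^ 31) (hz : dgs (2 ^ β) 9 E = d9 z) (hβ : 40 ≤ β) (h1 : o ≤ g1) (ho : kc o ≤ GQ)
    (hJ : Nat.mul (Nat.pow 2 157) (Nat.mul JZ JZ) ≤ G4)
    (h : lvE β o (Nat.add (od qn (d9 xa)) (Nat.add (Nat.shiftLeft (od qn (d9 xb)) 400) (Nat.shiftLeft (od qn (d9 xd)) 1600)))
      (od qn (d9 xa)) (od qn (d9 xb)) (od qn (d9 xd)) E = true) :
    (∀ k, z k < 2 ^ 33) ∧ ∀ i : Fin 4, ∃ y : Fin 9 → ℕ, y = (![xa, xb, xd, fun k => xb k + xd k + z k + 2 ^ 31 - xa k] : Fin 4 → Fin 9 → ℕ) i ∧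
    pd o i < y 0 ∧ pd o i ≤ y 1 ∧ pd o i ≤ y 2 ∧
    Q3 (y 0 - pd o i) (y 1 - pd o i) (y 2 - pd o i) (y 3 - pf o i) (y 4 - pf o i) (y 5 - pf o i)
      (y 6 - pf o i) (y 7 - pf o i) (y 8 - pf o i) := by
  unfold lvE at h
  rw [Bool.and_eq_true] at h
  obtain ⟨k1, k2⟩ := h
  have k3 : E &&& msk β 33 9 = 0 := Nat.eq_of_beq_eq_true k1
  have k4 := msk_ok (by omega) 9 9 E (le_refl _) k3
  rw [hz] at k4
  have hz' : ∀ k, z k < 2 ^ 33 := by
    intro k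
    refine k4 _ ?_
    unfold d9
    fin_cases k <;> simp
  refine ⟨hz', fun i => ⟨_, rfl, ?_⟩⟩
  obtain ⟨yf, hyf⟩ : ∃ y : Fin 9 → ℕ, y = fun k => xb k + xd k + z k + 2 ^ 31 - xa k := ⟨_, rfl⟩
  have hf : Nat.sub (Nat.add (Nat.add (od qn (d9 xb)) (od qn (d9 xd))) (Nat.add (sp9 qn (Nat.pow 2 β) E) cCF)) (od qn (d9 xa))
      = od qn (d9 yf) := by
    have e1 : sp9 qn (Nat.pow 2 β) E = od qn (d9 z) := by
      rw [sp9_eq]
      exact congrArg (od qn) hz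
    have e2 : cCF = od qn (d9 fun _ => 2 ^ 31) := rfl
    have e3 : (od qn (d9 xb) + od qn (d9 xd)) + (od qn (d9 z) + od qn (d9 fun _ => 2 ^ 31))
        = od qn (d9 yf) + od qn (d9 xa) := by
      rw [od9_add, od9_add, od9_add, od9_add]
      refine congrArg (fun y => od qn (d9 y)) (funext fun k => ?_)
      have := ha k
      rw [hyf]
      change xb k + xd k + (z k + 2 ^ 31) = xb k + xd k + z k + 2 ^ 31 - xa k + xa k
      omega
    rw [e1, e2]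
    change (od qn (d9 xb) + od qn (d9 xd)) + (od qn (d9 z) + od qn (d9 fun _ => 2 ^ 31)) - od qn (d9 xa) = _
    rw [e3]
    exact Nat.add_sub_cancel _ _
  rw [hf] at k2
  have hy : ∀ (i : Fin 4) (k : Fin 9), (![xa, xb, xd, yf] : Fin 4 → Fin 9 → ℕ) i k < 2 ^ 34 := by
    intro i k
    have a := ha k
    have b := hb k
    have c := hd k
    have d := hz' k
    fin_cases i
    · change xa k < 2 ^ 34
      omega
    · change xb k < 2 ^ 34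
      omega
    · change xd k < 2 ^ 34
      omega
    · change yf k < 2 ^ 34
      rw [hyf]
      change xb k + xd k + z k + 2 ^ 31 - xa k < 2 ^ 34
      omega
  have e := asm_ok fun i => od qn (d9 ((![xa, xb, xd, yf] : Fin 4 → Fin 9 → ℕ) i))
  have key := lvA_ok hy h1 ho hJ e k2 i
  rw [hyf] at key
  exact key

/-! ### the complete test -/

theorem hm_lt : hm < 2 ^ 400 := by
  have e : hm = od (2 ^ 40) (List.replicate 9 (2 ^ 40 - 2 ^ 31)) := rfl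
  rw [e]
  have h1 := od_lt (B := 2 ^ 40) (List.replicate 9 (2 ^ 40 - 2 ^ 31)) (by
    intro d hd
    rw [List.eq_of_mem_replicate hd]
    norm_num)
  rw [List.length_replicate, ← pow_mul] at h1
  exact h1.trans (Nat.pow_lt_pow_right (by norm_num) (by norm_num))

theorem hm_ok {x : Fin 9 → ℕ} (hx : ∀ k, x k < qn) (h : od qn (d9 x) &&& hm = 0) : ∀ k, x k < 2 ^ 31 := by
  have h1 := msk_ok (w := 40) (v := 31) (by norm_num) 9 9 (od qn (d9 x)) (le_refl _) h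
  have h2 : dgs (2 ^ 40) 9 (od qn (d9 x)) = d9 x := by
    rw [← qn_pow]
    exact dgs_od (B := qn) (d9 x) (d9_lt hx)
  rw [h2] at h1
  intro k
  refine h1 _ ?_
  unfold d9
  fin_cases k <;> simp

theorem od_zero_inv {B : ℕ} (hB : 0 < B) : ∀ P : List ℕ, od B P = 0 → ∀ d ∈ P, d = 0
  | [], _ => by simp
  | a :: P, h => by
    simp only [od, Nat.add_eq, Nat.mul_eq] at h
    have h1 : a = 0 := by omega
    have h2 : B * od B P = 0 := by omega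
    have h3 : od B P = 0 := by
      rcases Nat.mul_eq_zero.1 h2 with h | h
      · omega
      · exact h
    intro d hd
    rcases List.mem_cons.1 hd with rfl | hd
    · exact h1
    · exact od_zero_inv hB P h3 d hd

theorem cHM_ok {a b d : ℕ} (ha : a < 2 ^ 400) (hb : b < 2 ^ 400) (hd : d < 2 ^ 400)
    (h : Nat.land (Nat.add a (Nat.add (Nat.shiftLeft b 400) (Nat.shiftLeft d 1600))) cHM = 0) :
    a &&& hm = 0 ∧ b &&& hm = 0 ∧ d &&& hm = 0 := by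
  have e : Nat.add a (Nat.add (Nat.shiftLeft b 400) (Nat.shiftLeft d 1600)) = od (2 ^ 400) [a, b, 0, 0, d] := by
    have e1 : Nat.shiftLeft b 400 = b * Qn := by
      change b <<< 400 = _
      rw [Nat.shiftLeft_eq, Qn_pow]
    have e2 : Nat.shiftLeft d 1600 = d * Qn ^ 4 := by
      change d <<< 1600 = _
      rw [Nat.shiftLeft_eq, Qn_pow, ← pow_mul]
    rw [e1, e2, ← Qn_pow]
    generalize Qn = Q
    simp only [od, Nat.add_eq, Nat.mul_eq]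
    ring
  have w : (0 : ℕ) < 2 ^ 400 := by positivity
  have hm' := hm_lt
  have e2 : Nat.land (Nat.add a (Nat.add (Nat.shiftLeft b 400) (Nat.shiftLeft d 1600))) cHM
      = od (2 ^ 400) [a &&& hm, b &&& hm, 0, 0, d &&& hm] := by
    rw [e]
    have e3 : cHM = od (2 ^ 400) [hm, hm, 0, 0, hm] := by
      unfold cHM
      rw [Qn_pow]
    rw [e3]
    have := land_od (w := 400) [a, b, 0, 0, d] [hm, hm, 0, 0, hm] (by
      intro x hx
      simp only [List.mem_cons, List.not_mem_nil, or_false] at hx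
      rcases hx with rfl | rfl | rfl | rfl | rfl <;> assumption) (by
      intro x hx
      simp only [List.mem_cons, List.not_mem_nil, or_false] at hx
      rcases hx with rfl | rfl | rfl | rfl | rfl <;> assumption)
    simp only [List.zipWith, Nat.and_zero] at this
    exact this
  rw [e2] at h
  have k := od_zero_inv w _ h
  exact ⟨k _ (by simp), k _ (by simp), k _ (by simp)⟩

theorem exv (n : ℕ) : ∃ E, E = n := ⟨n, rfl⟩

theorem md_dgs {q : ℕ} (h : 0 < q) (a : ℕ) : Nat.mod a (Nat.pow q 9) = od q (dgs q 9 a) := by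
  change a % q ^ 9 = _
  rw [← dgs_mod]
  exact (od_dgs 9 _ (Nat.mod_lt _ (by positivity))).symm

/-- **soundness with the digits** -/
theorem lvG_ok {β σ o a b d e e' : ℕ} {xa xb xd xe xe' : Fin 9 → ℕ} (ha : dgs qn 9 a = d9 xa) (hb : dgs qn 9 b = d9 xb)
    (hd : dgs qn 9 d = d9 xd) (he : dgs (2 ^ β) 9 e = d9 xe) (he' : dgs (2 ^ β) 9 e' = d9 xe')
    (hσ1 : 1 ≤ σ) (hβ : 40 ≤ β) (hσ : σ ≤ β) (h1 : o ≤ g1) (ho : kc o ≤ GQ)
    (hJ : Nat.mul (Nat.pow 2 157) (Nat.mul JZ JZ) ≤ G4)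
    (h : lvG β σ o (Nat.mod a (Nat.pow qn 9)) (Nat.mod b (Nat.pow qn 9)) (Nat.mod d (Nat.pow qn 9)) e e' = true) :
    ∃ z : Fin 9 → ℕ, (∀ k, z k + xe' k / 2 ^ σ = xe k / 2 ^ σ + 2 ^ 32) ∧ (∀ k, xa k < 2 ^ 31) ∧
    ∀ i : Fin 4, ∃ y : Fin 9 → ℕ, y = (![xa, xb, xd, fun k => xb k + xd k + z k + 2 ^ 31 - xa k] : Fin 4 → Fin 9 → ℕ) i ∧
    pd o i < y 0 ∧ pd o i ≤ y 1 ∧ pd o i ≤ y 2 ∧
    Q3 (y 0 - pd o i) (y 1 - pd o i) (y 2 - pd o i) (y 3 - pf o i) (y 4 - pf o i) (y 5 - pf o i)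
      (y 6 - pf o i) (y 7 - pf o i) (y 8 - pf o i) := by
  have q0 : 0 < qn := by
    rw [qn_pow]
    positivity
  have dg : ∀ {a : ℕ} {x : Fin 9 → ℕ}, dgs qn 9 a = d9 x →
      Nat.mod a (Nat.pow qn 9) = od qn (d9 x) ∧ ∀ k, x k < qn := by
    intro a x hx
    constructor
    · rw [← hx, md_dgs q0]
    · intro k
      have := dgs_lt q0 9 a
      rw [hx] at this
      refine this _ ?_
      unfold d9
      fin_cases k <;> simp
  obtain ⟨ea, la⟩ := dg ha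
  obtain ⟨eb, lb⟩ := dg hb
  obtain ⟨ed, ld⟩ := dg hd
  rw [ea, eb, ed] at h
  unfold lvG at h
  rw [Bool.and_eq_true] at h
  obtain ⟨k1, k2⟩ := h
  have k3 := Nat.eq_of_beq_eq_true k1
  obtain ⟨m1, m2, m3⟩ := cHM_ok (n9_lt la) (n9_lt lb) (n9_lt ld) k3
  have la' := hm_ok la m1
  have lb' := hm_ok lb m2
  have ld' := hm_ok ld m3
  unfold lvF at k2
  rw [Bool.and_eq_true] at k2
  obtain ⟨k4, k5⟩ := k2
  have B0 : (0 : ℕ) < 2 ^ β := by positivity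
  -- the two floors
  have fl : ∀ (e : ℕ) (x : Fin 9 → ℕ), dgs (2 ^ β) 9 e = d9 x → Nat.land (Nat.shiftRight e σ) (flm β σ)
      = od (2 ^ β) (d9 fun k => x k / 2 ^ σ) := by
    intro e x hx
    have h1 := floor_ok hσ 9 e
    rw [hx] at h1
    have e1 : Nat.land (Nat.shiftRight e σ) (flm β σ)
        = (e / 2 ^ σ) &&& od (2 ^ β) (List.replicate 9 (2 ^ (β - σ) - 1)) := by
      change (e >>> σ) &&& _ = _
      rw [Nat.shiftRight_eq_div_pow]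
      rfl
    rw [e1, h1]
    rfl
  have eg : gof β = od (2 ^ β) (d9 fun _ => 2 ^ 32) := rfl
  rw [fl e xe he, fl e' xe' he', eg] at k4 k5
  have k4' : od (2 ^ β) (d9 fun k => xe' k / 2 ^ σ) ≤ od (2 ^ β) (d9 fun k => xe k / 2 ^ σ) + od (2 ^ β) (d9 fun _ => 2 ^ 32) :=
    Nat.le_of_ble_eq_true k4
  obtain ⟨E, hE⟩ := exv (od (2 ^ β) (d9 fun k => xe k / 2 ^ σ) + od (2 ^ β) (d9 fun _ => 2 ^ 32)
    - od (2 ^ β) (d9 fun k => xe' k / 2 ^ σ))
  have k6 : lvE β o (Nat.add (od qn (d9 xa)) (Nat.add (Nat.shiftLeft (od qn (d9 xb)) 400)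
      (Nat.shiftLeft (od qn (d9 xd)) 1600))) (od qn (d9 xa)) (od qn (d9 xb)) (od qn (d9 xd)) E = true := by
    rw [hE]
    exact k5
  obtain ⟨z, hz⟩ := ex9 (dgs (2 ^ β) 9 E) (dgs_length _ _)
  obtain ⟨z1, z2⟩ := lvE_ok la' lb' ld' hz hβ h1 ho hJ k6
  refine ⟨z, ?_, la', z2⟩
  -- digits of the difference
  have c1 : 2 ^ (β - 1) + 2 ^ (β - 1) = 2 ^ β := by
    rw [← two_mul, ← pow_succ', Nat.sub_add_cancel (by omega)]
  have c2 : 2 ^ 39 ≤ 2 ^ (β - 1) := Nat.pow_le_pow_right (by norm_num) (by omega)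
  have c3 : ∀ x : ℕ, x < 2 ^ β → x / 2 ^ σ < 2 ^ (β - 1) := by
    intro x hx
    rw [Nat.div_lt_iff_lt_mul (by positivity), ← pow_add]
    exact hx.trans_le (Nat.pow_le_pow_right (by norm_num) (by omega))
  have dl : ∀ {e : ℕ} {x : Fin 9 → ℕ}, dgs (2 ^ β) 9 e = d9 x → ∀ k, x k < 2 ^ β := by
    intro e x hx k
    have := dgs_lt B0 9 e
    rw [hx] at this
    refine this _ ?_
    unfold d9
    fin_cases k <;> simp
  have d1 := fun k => c3 _ (dl he k)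
  have d2 := fun k => c3 _ (dl he' k)
  have s1 : od (2 ^ β) (d9 fun k => xe k / 2 ^ σ) + od (2 ^ β) (d9 fun _ => 2 ^ 32)
      = od (2 ^ β) (d9 fun k => xe k / 2 ^ σ + 2 ^ 32) := od9_add _ _ _
  have hlt : E < (2 ^ β) ^ 9 := by
    refine (hE ▸ Nat.sub_le _ _ : E ≤ _).trans_lt ?_
    rw [s1]
    have := od_lt (B := 2 ^ β) (d9 fun k => xe k / 2 ^ σ + 2 ^ 32) (d9_lt fun k => by
      have := d1 k
      omega)
    exact this
  have s2 : E = od (2 ^ β) (d9 z) := by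
    rw [← hz]
    exact (od_dgs 9 E hlt).symm
  have s3 : od (2 ^ β) (d9 fun k => z k + xe' k / 2 ^ σ) = od (2 ^ β) (d9 fun k => xe k / 2 ^ σ + 2 ^ 32) := by
    rw [← od9_add, ← s1, ← s2, hE]
    exact Nat.sub_add_cancel k4'
  exact od9_inj (fun k => by
    have := z1 k
    have := d2 k
    omega) (fun k => by
    have := d1 k
    omega) s3

theorem prm_ok {ws B S o β σ : ℕ} (h : prm ws B S o β σ = true) : ws = 40 ∧ B = 2 ^ β ∧ S = 2 ^ σ ∧ 1 ≤ σ ∧ 40 ≤ β ∧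
    σ ≤ β ∧ o ≤ g1 ∧ kc o ≤ GQ ∧ Nat.mul (Nat.pow 2 157) (Nat.mul JZ JZ) ≤ G4 := by
  unfold prm at h
  simp only [Bool.and_eq_true] at h
  obtain ⟨h1, h2, h3, h4, h5, h6, h7, h8, h9⟩ := h
  exact ⟨Nat.eq_of_beq_eq_true h1, Nat.eq_of_beq_eq_true h2, Nat.eq_of_beq_eq_true h3, Nat.le_of_ble_eq_true h4,
    Nat.le_of_ble_eq_true h5, Nat.le_of_ble_eq_true h6, Nat.le_of_ble_eq_true h7, Nat.le_of_ble_eq_true h8,
    Nat.le_of_ble_eq_true h9⟩

/-- **the fast test implies the test of the pair** -/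
theorem prF_pairL {ws B S o a b d e e' : ℕ} (h : prF ws B S o a b d e e' = true) :
    pairL T3 9 (2 ^ ws) B S o (ofs 9 o sv3) a b d e e' = true := by
  unfold prF at h
  rw [Bool.and_eq_true] at h
  obtain ⟨p1, p2⟩ := h
  obtain ⟨rfl, hB, hS, k1, k2, k3, k4, k5, k6⟩ := prm_ok p1
  generalize Nat.log2 B = β at *
  generalize Nat.log2 S = σ at *
  subst hB hS
  obtain ⟨xa, ha⟩ := ex9 (dgs qn 9 a) (dgs_length _ _)
  obtain ⟨xb, hb⟩ := ex9 (dgs qn 9 b) (dgs_length _ _)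
  obtain ⟨xd, hd⟩ := ex9 (dgs qn 9 d) (dgs_length _ _)
  obtain ⟨xe, he⟩ := ex9 (dgs (2 ^ β) 9 e) (dgs_length _ _)
  obtain ⟨xe', he'⟩ := ex9 (dgs (2 ^ β) 9 e') (dgs_length _ _)
  obtain ⟨z, hz, la, key⟩ := lvG_ok ha hb hd he he' k1 k2 k3 k4 k5 k6 p2
  unfold pairL
  rw [← qn_pow, ha, hb, hd, he, he', rep_d9, ofs_d9, l3_d9, l3_d9, T3_d9, T3_d9, T3_d9, T3_d9]
  simp only [Bool.and_eq_true]
  refine ⟨?_, ?_, ?_, ?_⟩
  · obtain ⟨y, rfl, a1, a2, a3, a4⟩ := key 0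
    exact t3_of a1 a2 a3 a4
  · obtain ⟨y, rfl, a1, a2, a3, a4⟩ := key 1
    exact t3_of a1 a2 a3 a4
  · obtain ⟨y, rfl, a1, a2, a3, a4⟩ := key 2
    exact t3_of a1 a2 a3 a4
  · obtain ⟨y, hy, a1, a2, a3, a4⟩ := key 3
    have ey : ∀ k, y k = xb k + xd k + z k + 2 ^ 31 - xa k := fun k => by rw [hy]; rfl
    have ep : pd o 3 = o + (2 ^ 32 + 2 ^ 31) + 5 := rfl
    have ef : pf o 3 = o + (2 ^ 32 + 2 ^ 31) := rfl
    have f0 : of9 o 0 = o + 5 := rfl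
    have f1 : of9 o 1 = o + 5 := rfl
    have f2 : of9 o 2 = o + 5 := rfl
    have g : ∀ k, ((y k : ℕ) : ℤ) - ((pd o 3 : ℕ) : ℤ)
        = (((xb k + xd k + xe k / 2 ^ σ : ℕ) : ℤ)) - (((xa k + (o + 5) + xe' k / 2 ^ σ : ℕ) : ℤ)) := by
      intro k
      have h1 := hz k
      have h2 := la k
      rw [ey, ep]
      omega
    have g' : ∀ k, ((y k : ℕ) : ℤ) - ((pf o 3 : ℕ) : ℤ)
        = (((xb k + xd k + xe k / 2 ^ σ : ℕ) : ℤ)) - (((xa k + o + xe' k / 2 ^ σ : ℕ) : ℤ)) := by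
      intro k
      have h1 := hz k
      have h2 := la k
      rw [ey, ef]
      omega
    rw [g, g, g, g', g', g', g', g', g'] at a4
    refine t3_of ?_ ?_ ?_ a4
    · have h1 := hz 0
      have h2 := la 0
      rw [ey, ep] at a1
      rw [f0]
      omega
    · have h1 := hz 1
      have h2 := la 1
      rw [ey, ep] at a2
      rw [f1]
      omega
    · have h1 := hz 2
      have h2 := la 2
      rw [ey, ep] at a3
      rw [f2]
      omega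

end Pool.Agent.FPX.PLK.F9
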