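import Pool.Agent.FPX.PLL
/-!
PLG (helper1). Squares with packed rows, three components.
-/
set_option autoImplicit false

noncomputable section

namespace Pool.Agent.FPX.PLK

open List (Forall₂)

/-! ### chunk times row of integers -/

/-- digits of a combination -/
def otL (P N : List ℕ) : List ℕ → List ℕ → List ℕ
  | q :: Q, m :: M => addN (P.map fun x => q * x) (N.map fun x => m * x) ++ otL P N Q M
  | _, _ => []

section ot

variable {B K : ℕ} {w : List ℝ} {P N : List ℕ}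

theorem otL_length (h1 : P.length = K) (h2 : N.length = K) : ∀ (Q M : List ℕ) {k : ℕ}, Q.length = k → M.length = k →
    (otL P N Q M).length = K * k
  | [], [], k, h3, _ => by
    simp at h3
    subst h3
    simp [otL]
  | q :: Q, m :: M, 0, h3, _ => by simp at h3
  | q :: Q, m :: M, k + 1, h3, h4 => by
    rw [otL, List.length_append, otL_length h1 h2 Q M (k := k) (by simpa using h3) (by simpa using h4),
      addN_length (K := K) (by simpa using h1) (by simpa using h2)]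
    ring
  | [], _ :: _, k, h3, h4 => by
    simp at h3
    subst h3
    simp at h4
  | _ :: _, [], k, h3, h4 => by
    simp at h4
    subst h4
    simp at h3

theorem otL_od (h1 : P.length = K) (h2 : N.length = K) : ∀ (Q M : List ℕ), Q.length = M.length →
    od B (otL P N Q M) = od (B ^ K) Q * od B P + od (B ^ K) M * od B N
  | [], [], _ => by simp [otL, od]
  | q :: Q, m :: M, h3 => by
    have hl : (addN (P.map fun x => q * x) (N.map fun x => m * x)).length = K :=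
      addN_length (K := K) (by simpa using h1) (by simpa using h2)
    rw [otL, od_append, otL_od h1 h2 Q M (by simpa using h3), hl, od_addN _ _ _ (by simp [h1, h2]), od_map, od_map]
    simp only [od, Nat.add_eq, Nat.mul_eq]
    ring
  | [], _ :: _, h3 => by simp at h3
  | _ :: _, [], h3 => by simp at h3

theorem otL_le (h1 : P.length = K) (h2 : N.length = K) {b b' : ℕ} (hP : ∀ d ∈ P, d ≤ b) (hN : ∀ d ∈ N, d ≤ b) :
    ∀ (Q M : List ℕ), (∀ d ∈ Q, d ≤ b') → (∀ d ∈ M, d ≤ b') → ∀ d ∈ otL P N Q M, d ≤ 2 * (b * b')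
  | [], _, _, _ => by simp [otL]
  | _ :: _, [], _, _ => by simp [otL]
  | q :: Q, m :: M, hQ, hM => by
    intro d hd
    rw [otL] at hd
    rcases List.mem_append.1 hd with hd | hd
    · have h3 := addN_le (b := b * b') (b' := b * b') (P.map fun x => q * x) (N.map fun x => m * x) (by
        intro e he
        obtain ⟨x, hx, rfl⟩ := List.mem_map.1 he
        rw [mul_comm b b']
        exact Nat.mul_le_mul (hQ q (by simp)) (hP x hx)) (by
        intro e he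
        obtain ⟨x, hx, rfl⟩ := List.mem_map.1 he
        rw [mul_comm b b']
        exact Nat.mul_le_mul (hM m (by simp)) (hN x hx)) d hd
      omega
    · exact otL_le h1 h2 hP hN Q M (fun e he => hQ e (by simp [he])) (fun e he => hM e (by simp [he])) d hd

theorem otL_ip (hw : w.length = K) (h1 : P.length = K) (h2 : N.length = K) : ∀ (Q M : List ℕ) (D : List ℝ),
    Q.length = D.length → M.length = D.length →
    ip (wf w D) (otL P N Q M) = ip D Q * ip w P + ip D M * ip w N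
  | [], [], [], _, _ => by simp [otL, wf]
  | q :: Q, m :: M, d :: D, h3, h4 => by
    have hl : (w.map fun v => d * v).length = (addN (P.map fun x => q * x) (N.map fun x => m * x)).length := by
      rw [addN_length (K := K) (by simpa using h1) (by simpa using h2), List.length_map, hw]
    rw [otL, wf, ip_append _ _ _ _ hl, otL_ip hw h1 h2 Q M D (by simpa using h3) (by simpa using h4), ip_smul,
      ip_addN _ _ _ (by simp [h1, h2]), ip_map, ip_map]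
    simp only [ip]
    ring
  | [], _ :: _, D, h3, h4 => by
    rw [← h3] at h4
    simp at h4
  | _ :: _, [], D, h3, h4 => by
    rw [← h4] at h3
    simp at h3
  | [], [], _ :: _, h3, _ => by simp at h3
  | _ :: _, _ :: _, [], h3, _ => by simp at h3

/-- chunk times row -/
theorem out_RI (hw : w.length = K) {c x : PV} {s t : ℝ} {D : List ℝ} (h1 : RV B K w c s)
    (h2 : RV (B ^ K) D.length D x t) : RR B K w D (PV.out c x) (s * t) := by
  obtain ⟨P, N, a1, a2, a3, a4, a5, a6, a7⟩ := h1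
  obtain ⟨Q, M, b1, b2, b3, b4, b5, b6, b7⟩ := h2
  refine ⟨otL P N Q M, otL P N M Q, otL_length a1 a2 Q M b1 b2, otL_length a1 a2 M Q b2 b1, ?_, ?_,
    otL_le a1 a2 a5 a6 Q M b5 b6, otL_le a1 a2 a5 a6 M Q b6 b5, ?_⟩
  · rw [otL_od a1 a2 Q M (b1.trans b2.symm), a3, a4, b3, b4]
    change _ = c.p * x.p + c.n * x.n
    ring
  · rw [otL_od a1 a2 M Q (b2.trans b1.symm), a3, a4, b3, b4]
    change _ = c.p * x.n + c.n * x.p
    ring
  · rw [otL_ip hw a1 a2 Q M D b1 b2, otL_ip hw a1 a2 M Q D b2 b1, a7, b7]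
    ring

end ot

/-- scaled row -/
theorem RV.sc {B K : ℕ} {w : List ℝ} {u v c : ℕ} {x : PV} {t : ℝ} (h : RV B K w x t) (hc : u + v ≤ c) :
    RV B K w (PV.sc ⟨u, v, c⟩ x) (((u : ℝ) - v) * t) := by
  obtain ⟨P, N, a1, a2, a3, a4, a5, a6, a7⟩ := h
  have key : ∀ (u v : ℕ) (P N : List ℕ), u + v ≤ c → (∀ d ∈ P, d ≤ x.b) → (∀ d ∈ N, d ≤ x.b) →
      ∀ d ∈ addN (P.map fun x => u * x) (N.map fun x => v * x), d ≤ c * x.b := by
    intro u v P N huv hP hN d hd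
    have h3 := addN_le (b := u * x.b) (b' := v * x.b) (P.map fun x => u * x) (N.map fun x => v * x) (by
      intro e he
      obtain ⟨y, hy, rfl⟩ := List.mem_map.1 he
      exact Nat.mul_le_mul_left u (hP y hy)) (by
      intro e he
      obtain ⟨y, hy, rfl⟩ := List.mem_map.1 he
      exact Nat.mul_le_mul_left v (hN y hy)) d hd
    rw [← add_mul] at h3
    exact h3.trans (Nat.mul_le_mul_right _ huv)
  refine ⟨addN (P.map fun x => u * x) (N.map fun x => v * x), addN (N.map fun x => u * x) (P.map fun x => v * x),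
    addN_length (by simpa using a1) (by simpa using a2), addN_length (by simpa using a2) (by simpa using a1), ?_, ?_,
    key u v P N hc a5 a6, key u v N P hc a6 a5, ?_⟩
  · rw [od_addN _ _ _ (by simp [a1, a2]), od_map, od_map, a3, a4]
    rfl
  · rw [od_addN _ _ _ (by simp [a1, a2]), od_map, od_map, a3, a4]
    rfl
  · rw [ip_addN _ _ _ (by simp [a1, a2]), ip_addN _ _ _ (by simp [a1, a2]), ip_map, ip_map, ip_map, ip_map, a7]
    ring

/-! ### squares -/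

/-- every digit at distance `V` -/
def dl (W V : ℕ) : ℕ → ℕ → List ℕ
  | 0, _ => []
  | k + 1, x => Nat.mod x W :: dl W V k (Nat.div x V)

theorem dl_length (W V : ℕ) : ∀ k x : ℕ, (dl W V k x).length = k
  | 0, _ => rfl
  | k + 1, x => by simp [dl, dl_length W V k]

theorem dl_lt {W : ℕ} (V : ℕ) (hW : 0 < W) : ∀ k x : ℕ, ∀ d ∈ dl W V k x, d < W
  | 0, _ => by simp [dl]
  | k + 1, x => by
    intro d hd
    rcases List.mem_cons.1 hd with rfl | hd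
    · exact Nat.mod_lt _ hW
    · exact dl_lt V hW k _ d hd

/-- six rows -/
structure Y6 where
  a : PV
  b : PV
  c : PV
  d : PV
  e : PV
  f : PV

def z9 : List ℕ := [0, 0, 0, 0, 0, 0, 0, 0, 0]

/-- the rows `2 Re (conj e z)` for the basis -/
def mkY (B : ℕ) (p q r s t u Z W : ℕ) : Y6 :=
  let g := fun (l : List ℕ) (x : ℕ) => PV.out (mkV B l z9) ⟨x, Z, W⟩
  let h := fun (l : List ℕ) (x : ℕ) => PV.out (mkV B z9 l) ⟨x, Z, W⟩
  ⟨PV.add (g [2, 0, 0, 0, 0, 0, 0, 0, 0] p) (PV.add (PV.add (g [0, 0, 0, 1, 0, 0, 0, 0, 0] r)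
      (g [0, 0, 0, 0, 1, 0, 0, 0, 0] s)) (PV.add (g [0, 0, 0, 0, 0, 1, 0, 0, 0] t) (g [0, 0, 0, 0, 0, 0, 1, 0, 0] u))),
    PV.add (g [2, 0, 0, 0, 0, 0, 0, 0, 0] q) (PV.add (PV.add (g [0, 0, 0, 1, 0, 0, 0, 0, 0] s)
      (h [0, 0, 0, 0, 1, 0, 0, 0, 0] r)) (PV.add (g [0, 0, 0, 0, 0, 1, 0, 0, 0] u) (h [0, 0, 0, 0, 0, 0, 1, 0, 0] t))),
    PV.add (g [0, 2, 0, 0, 0, 0, 0, 0, 0] r) (PV.add (PV.add (g [0, 0, 0, 1, 0, 0, 0, 0, 0] p)
      (h [0, 0, 0, 0, 1, 0, 0, 0, 0] q)) (PV.add (g [0, 0, 0, 0, 0, 0, 0, 1, 0] t) (g [0, 0, 0, 0, 0, 0, 0, 0, 1] u))),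
    PV.add (g [0, 2, 0, 0, 0, 0, 0, 0, 0] s) (PV.add (PV.add (g [0, 0, 0, 1, 0, 0, 0, 0, 0] q)
      (g [0, 0, 0, 0, 1, 0, 0, 0, 0] p)) (PV.add (g [0, 0, 0, 0, 0, 0, 0, 1, 0] u) (h [0, 0, 0, 0, 0, 0, 0, 0, 1] t))),
    PV.add (g [0, 0, 2, 0, 0, 0, 0, 0, 0] t) (PV.add (PV.add (g [0, 0, 0, 0, 0, 1, 0, 0, 0] p)
      (h [0, 0, 0, 0, 0, 0, 1, 0, 0] q)) (PV.add (g [0, 0, 0, 0, 0, 0, 0, 1, 0] r) (h [0, 0, 0, 0, 0, 0, 0, 0, 1] s))),
    PV.add (g [0, 0, 2, 0, 0, 0, 0, 0, 0] u) (PV.add (PV.add (g [0, 0, 0, 0, 0, 1, 0, 0, 0] q)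
      (g [0, 0, 0, 0, 0, 0, 1, 0, 0] p)) (PV.add (g [0, 0, 0, 0, 0, 0, 0, 1, 0] s) (g [0, 0, 0, 0, 0, 0, 0, 0, 1] r)))⟩

/-- rows of one square -/
def rowG (o W : ℕ) (Y : Y6) : List ℕ → List ℕ → List ℕ → List ℕ → List ℕ → List ℕ → List PV
  | p :: l1, q :: l2, r :: l3, s :: l4, t :: l5, u :: l6 =>
    PV.add (PV.add (PV.sc ⟨p, o, W⟩ Y.a) (PV.add (PV.sc ⟨q, o, W⟩ Y.b) (PV.sc ⟨r, o, W⟩ Y.c)))
      (PV.add (PV.sc ⟨s, o, W⟩ Y.d) (PV.add (PV.sc ⟨t, o, W⟩ Y.e) (PV.sc ⟨u, o, W⟩ Y.f)))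
      :: rowG o W Y l1 l2 l3 l4 l5 l6
  | _, _, _, _, _, _ => []

/-- values of the rows -/
structure V6 where
  a : ℝ
  b : ℝ
  c : ℝ
  d : ℝ
  e : ℝ
  f : ℝ

/-- `x_a = u_a · y` for the rows -/
def FV (B K : ℕ) (w Y : List ℝ) : List PV → List ℝ → ℝ → Prop
  | [], _, t => t = 0
  | x :: xs, y :: ys, t => ∃ r t', RR B K w Y x r ∧ FV B K w Y xs ys t' ∧ t = y * r + t'
  | _ :: _, [], _ => False

section sq

variable {B K : ℕ} {w Y : List ℝ}

theorem FV.add : ∀ {xs ys : List PV} {D : List ℝ} {s t : ℝ}, FV B K w Y xs D s → FV B K w Y ys D t →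
    FV B K w Y (addT xs ys) D (s + t)
  | [], ys, D, s, t, h1, h2 => by
    simp only [FV] at h1
    simpa [addT, h1] using h2
  | x :: xs, [], D, s, t, h1, h2 => by
    simp only [FV] at h2
    simpa [addT, h2] using h1
  | x :: xs, y :: ys, [], s, t, h1, _ => by simp [FV] at h1
  | x :: xs, y :: ys, d :: D, s, t, ⟨r, s', h1, h2, h3⟩, ⟨r', t', h4, h5, h6⟩ => by
    refine ⟨r + r', s' + t', RV.add h1 h4, FV.add h2 h5, ?_⟩
    rw [h3, h6]
    ring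

theorem rowG_ok {o W : ℕ} {Z : Y6} {v : V6} (ha : RR B K w Y Z.a v.a) (hb : RR B K w Y Z.b v.b)
    (hc : RR B K w Y Z.c v.c) (hd : RR B K w Y Z.d v.d) (he : RR B K w Y Z.e v.e) (hf : RR B K w Y Z.f v.f) :
    ∀ (l1 l2 l3 l4 l5 l6 : List ℕ) (D : List ℝ), l1.length = D.length → l2.length = D.length →
    l3.length = D.length → l4.length = D.length → l5.length = D.length → l6.length = D.length →
    (∀ x ∈ l1, x + o ≤ W) → (∀ x ∈ l2, x + o ≤ W) → (∀ x ∈ l3, x + o ≤ W) → (∀ x ∈ l4, x + o ≤ W) →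
    (∀ x ∈ l5, x + o ≤ W) → (∀ x ∈ l6, x + o ≤ W) →
    FV B K w Y (rowG o W Z l1 l2 l3 l4 l5 l6) D ((ip D l1 - o * D.sum) * v.a + (ip D l2 - o * D.sum) * v.b
      + (ip D l3 - o * D.sum) * v.c + (ip D l4 - o * D.sum) * v.d + (ip D l5 - o * D.sum) * v.e
      + (ip D l6 - o * D.sum) * v.f)
  | p :: l1, q :: l2, r :: l3, s :: l4, t :: l5, u :: l6, y :: D, h1, h2, h3, h4, h5, h6, k1, k2, k3, k4, k5, k6 => by
    have ih := rowG_ok ha hb hc hd he hf l1 l2 l3 l4 l5 l6 D (by simpa using h1) (by simpa using h2)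
      (by simpa using h3) (by simpa using h4) (by simpa using h5) (by simpa using h6)
      (fun x hx => k1 x (by simp [hx])) (fun x hx => k2 x (by simp [hx])) (fun x hx => k3 x (by simp [hx]))
      (fun x hx => k4 x (by simp [hx])) (fun x hx => k5 x (by simp [hx])) (fun x hx => k6 x (by simp [hx]))
    refine ⟨_, _, RV.add (RV.add (RV.sc ha (k1 p (by simp))) (RV.add (RV.sc hb (k2 q (by simp)))
      (RV.sc hc (k3 r (by simp))))) (RV.add (RV.sc hd (k4 s (by simp))) (RV.add (RV.sc he (k5 t (by simp)))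
      (RV.sc hf (k6 u (by simp))))), ih, ?_⟩
    simp only [ip, List.sum_cons]
    ring
  | [], [], [], [], [], [], [], _, _, _, _, _, _, _, _, _, _, _, _ => by simp [rowG, FV]
  | [], _, _, _, _, _, _ :: _, h, _, _, _, _, _, _, _, _, _, _, _ => by simp at h
  | _, [], _, _, _, _, _ :: _, _, h, _, _, _, _, _, _, _, _, _, _ => by simp at h
  | _, _, [], _, _, _, _ :: _, _, _, h, _, _, _, _, _, _, _, _, _ => by simp at h
  | _, _, _, [], _, _, _ :: _, _, _, _, h, _, _, _, _, _, _, _, _ => by simp at h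
  | _, _, _, _, [], _, _ :: _, _, _, _, _, h, _, _, _, _, _, _, _ => by simp at h
  | _, _, _, _, _, [], _ :: _, _, _, _, _, _, h, _, _, _, _, _, _ => by simp at h
  | _ :: _, _, _, _, _, _, [], h, _, _, _, _, _, _, _, _, _, _, _ => by simp at h
  | [], _ :: _, _, _, _, _, [], _, h, _, _, _, _, _, _, _, _, _, _ => by simp at h
  | [], [], _ :: _, _, _, _, [], _, _, h, _, _, _, _, _, _, _, _, _ => by simp at h
  | [], [], [], _ :: _, _, _, [], _, _, _, h, _, _, _, _, _, _, _, _ => by simp at h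
  | [], [], [], [], _ :: _, _, [], _, _, _, _, h, _, _, _, _, _, _, _ => by simp at h
  | [], [], [], [], [], _ :: _, [], _, _, _, _, _, h, _, _, _, _, _, _ => by simp at h

/-- rows of a square given by a packed number -/
def sqG (B C W V o m : ℕ) (x : ℕ) : List PV :=
  let x1 := Nat.div x W
  let x2 := Nat.div x1 W
  let x3 := Nat.div x2 W
  let x4 := Nat.div x3 W
  let x5 := Nat.div x4 W
  let l1 := dl W V m x
  let l2 := dl W V m x1
  let l3 := dl W V m x2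
  let l4 := dl W V m x3
  let l5 := dl W V m x4
  let l6 := dl W V m x5
  rowG o (Nat.add W o) (mkY B (od C l1) (od C l2) (od C l3) (od C l4) (od C l5) (od C l6)
    (od C (List.replicate m o)) (Nat.add W o)) l1 l2 l3 l4 l5 l6

theorem ip_rep' (o : ℕ) : ∀ (D : List ℝ), ip D (List.replicate D.length o) = o * D.sum
  | [] => by simp
  | d :: D => by
    simp only [List.length_cons, List.replicate_succ, ip, List.sum_cons, ip_rep' o D]
    ring

theorem mkY_ok {z1 z2 z3 : ℂ} {p q r s t u Z W : ℕ} {s1 s2 s3 s4 s5 s6 : ℝ}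
    (h1 : RV (B ^ 9) Y.length Y ⟨p, Z, W⟩ s1) (h2 : RV (B ^ 9) Y.length Y ⟨q, Z, W⟩ s2)
    (h3 : RV (B ^ 9) Y.length Y ⟨r, Z, W⟩ s3) (h4 : RV (B ^ 9) Y.length Y ⟨s, Z, W⟩ s4)
    (h5 : RV (B ^ 9) Y.length Y ⟨t, Z, W⟩ s5) (h6 : RV (B ^ 9) Y.length Y ⟨u, Z, W⟩ s6) :
    ∃ v : V6, RR B 9 (w3 z1 z2 z3) Y (mkY B p q r s t u Z W).a v.a ∧
      RR B 9 (w3 z1 z2 z3) Y (mkY B p q r s t u Z W).b v.b ∧ RR B 9 (w3 z1 z2 z3) Y (mkY B p q r s t u Z W).c v.c ∧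
      RR B 9 (w3 z1 z2 z3) Y (mkY B p q r s t u Z W).d v.d ∧ RR B 9 (w3 z1 z2 z3) Y (mkY B p q r s t u Z W).e v.e ∧
      RR B 9 (w3 z1 z2 z3) Y (mkY B p q r s t u Z W).f v.f ∧
      s1 * v.a + s2 * v.b + s3 * v.c + s4 * v.d + s5 * v.e + s6 * v.f
        = 2 * Complex.normSq (⟨s1, s2⟩ * z1 + ⟨s3, s4⟩ * z2 + ⟨s5, s6⟩ * z3) := by
  have g : ∀ (l : List ℕ), l.length = 9 → ∀ {x : ℕ} {v : ℝ}, RV (B ^ 9) Y.length Y ⟨x, Z, W⟩ v →
      RR B 9 (w3 z1 z2 z3) Y (PV.out (mkV B l z9) ⟨x, Z, W⟩)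
      ((ip (w3 z1 z2 z3) l - ip (w3 z1 z2 z3) z9) * v) := fun l hl x v h =>
    out_RI (w := w3 z1 z2 z3) (K := 9) rfl (mkV_ok hl rfl) h
  have k : ∀ (l : List ℕ), l.length = 9 → ∀ {x : ℕ} {v : ℝ}, RV (B ^ 9) Y.length Y ⟨x, Z, W⟩ v →
      RR B 9 (w3 z1 z2 z3) Y (PV.out (mkV B z9 l) ⟨x, Z, W⟩)
      ((ip (w3 z1 z2 z3) z9 - ip (w3 z1 z2 z3) l) * v) := fun l hl x v h =>
    out_RI (w := w3 z1 z2 z3) (K := 9) rfl (mkV_ok rfl hl) h
  refine ⟨⟨_, _, _, _, _, _⟩, RV.add (g [2, 0, 0, 0, 0, 0, 0, 0, 0] rfl h1) (RV.add (RV.add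
      (g [0, 0, 0, 1, 0, 0, 0, 0, 0] rfl h3) (g [0, 0, 0, 0, 1, 0, 0, 0, 0] rfl h4)) (RV.add
      (g [0, 0, 0, 0, 0, 1, 0, 0, 0] rfl h5) (g [0, 0, 0, 0, 0, 0, 1, 0, 0] rfl h6))),
    RV.add (g [2, 0, 0, 0, 0, 0, 0, 0, 0] rfl h2) (RV.add (RV.add
      (g [0, 0, 0, 1, 0, 0, 0, 0, 0] rfl h4) (k [0, 0, 0, 0, 1, 0, 0, 0, 0] rfl h3)) (RV.add
      (g [0, 0, 0, 0, 0, 1, 0, 0, 0] rfl h6) (k [0, 0, 0, 0, 0, 0, 1, 0, 0] rfl h5))),
    RV.add (g [0, 2, 0, 0, 0, 0, 0, 0, 0] rfl h3) (RV.add (RV.add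
      (g [0, 0, 0, 1, 0, 0, 0, 0, 0] rfl h1) (k [0, 0, 0, 0, 1, 0, 0, 0, 0] rfl h2)) (RV.add
      (g [0, 0, 0, 0, 0, 0, 0, 1, 0] rfl h5) (g [0, 0, 0, 0, 0, 0, 0, 0, 1] rfl h6))),
    RV.add (g [0, 2, 0, 0, 0, 0, 0, 0, 0] rfl h4) (RV.add (RV.add
      (g [0, 0, 0, 1, 0, 0, 0, 0, 0] rfl h2) (g [0, 0, 0, 0, 1, 0, 0, 0, 0] rfl h1)) (RV.add
      (g [0, 0, 0, 0, 0, 0, 0, 1, 0] rfl h6) (k [0, 0, 0, 0, 0, 0, 0, 0, 1] rfl h5))),
    RV.add (g [0, 0, 2, 0, 0, 0, 0, 0, 0] rfl h5) (RV.add (RV.add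
      (g [0, 0, 0, 0, 0, 1, 0, 0, 0] rfl h1) (k [0, 0, 0, 0, 0, 0, 1, 0, 0] rfl h2)) (RV.add
      (g [0, 0, 0, 0, 0, 0, 0, 1, 0] rfl h3) (k [0, 0, 0, 0, 0, 0, 0, 0, 1] rfl h4))),
    RV.add (g [0, 0, 2, 0, 0, 0, 0, 0, 0] rfl h6) (RV.add (RV.add
      (g [0, 0, 0, 0, 0, 1, 0, 0, 0] rfl h2) (g [0, 0, 0, 0, 0, 0, 1, 0, 0] rfl h1)) (RV.add
      (g [0, 0, 0, 0, 0, 0, 0, 1, 0] rfl h4) (g [0, 0, 0, 0, 0, 0, 0, 0, 1] rfl h3))), ?_⟩
  simp only [w3, ip, z9, Complex.normSq_apply, Complex.add_re, Complex.add_im, Complex.mul_re, Complex.mul_im,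
    Complex.conj_re, Complex.conj_im]
  push_cast
  ring

theorem sqG_ok {z1 z2 z3 : ℂ} {W : ℕ} (hW : 0 < W) (V o x : ℕ) :
    ∃ t, 0 ≤ t ∧ FV B 9 (w3 z1 z2 z3) Y (sqG B (B ^ 9) W V o Y.length x) Y t := by
  have hl : ∀ y, (dl W V Y.length y).length = Y.length := fun y => dl_length _ _ _ _
  have hb : ∀ y, ∀ d ∈ dl W V Y.length y, d + o ≤ Nat.add W o := fun y d hd => by
    have := dl_lt V hW Y.length y d hd
    change d + o ≤ W + o
    omega
  have hX : ∀ y, RV (B ^ 9) Y.length Y ⟨od (B ^ 9) (dl W V Y.length y), od (B ^ 9) (List.replicate Y.length o),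
      Nat.add W o⟩ (ip Y (dl W V Y.length y) - o * Y.sum) := fun y => by
    refine ⟨_, List.replicate Y.length o, hl y, by simp, rfl, rfl, fun d hd => ?_, fun d hd => ?_, ?_⟩
    · have := dl_lt V hW Y.length y d hd
      change d ≤ W + o
      omega
    · rw [List.eq_of_mem_replicate hd]
      exact Nat.le_add_left _ _
    · rw [ip_rep']
  obtain ⟨v, k1, k2, k3, k4, k5, k6, k7⟩ := mkY_ok (z1 := z1) (z2 := z2) (z3 := z3) (hX x) (hX (Nat.div x W))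
    (hX (Nat.div (Nat.div x W) W)) (hX (Nat.div (Nat.div (Nat.div x W) W) W))
    (hX (Nat.div (Nat.div (Nat.div (Nat.div x W) W) W) W))
    (hX (Nat.div (Nat.div (Nat.div (Nat.div (Nat.div x W) W) W) W) W))
  have key := rowG_ok (o := o) (W := Nat.add W o) k1 k2 k3 k4 k5 k6 _ _ _ _ _ _ Y (hl x) (hl (Nat.div x W))
    (hl (Nat.div (Nat.div x W) W)) (hl (Nat.div (Nat.div (Nat.div x W) W) W))
    (hl (Nat.div (Nat.div (Nat.div (Nat.div x W) W) W) W))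
    (hl (Nat.div (Nat.div (Nat.div (Nat.div (Nat.div x W) W) W) W) W)) (hb _) (hb _) (hb _) (hb _) (hb _) (hb _)
  rw [k7] at key
  exact ⟨_, mul_nonneg (by norm_num) (Complex.normSq_nonneg _), key⟩

end sq

end Pool.Agent.FPX.PLK
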