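import Pool.Agent.FPX.PKF
/-!
PLH (helper1). Soundness of the test of four matrices in one number.
-/
set_option autoImplicit false

noncomputable section

namespace Pool.Agent.FPX.PLK

theorem Lok.sound {o a d f b1 b3 c1 c3 e1 e3 : ℕ} (h : Lok o a d f b1 b3 c1 c3 e1 e3) (hb1 : b1 ≤ 2 * o)
    (hb3 : b3 ≤ 2 * o) (hc1 : c1 ≤ 2 * o) (hc3 : c3 ≤ 2 * o) (z1 z2 z3 : ℂ) :
    0 ≤ ip (w3 z1 z2 z3) [a + o, d + o, f + o, b1, b3, c1, c3, e1, e3] - o * ip (w3 z1 z2 z3) (List.replicate 9 1) := by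
  obtain ⟨h1, h2, h3, R, I, h4, h5, h6, h7, h8⟩ := h
  have q1 : (0 : ℝ) < a := by exact_mod_cast h1
  have s1 : ((2 * o - b1 : ℕ) : ℝ) = 2 * o - b1 := by rw [Nat.cast_sub hb1]; push_cast; ring
  have s3 : ((2 * o - b3 : ℕ) : ℝ) = 2 * o - b3 := by rw [Nat.cast_sub hb3]; push_cast; ring
  have r1 : ((2 * o - c1 : ℕ) : ℝ) = 2 * o - c1 := by rw [Nat.cast_sub hc1]; push_cast; ring
  have r3 : ((2 * o - c3 : ℕ) : ℝ) = 2 * o - c3 := by rw [Nat.cast_sub hc3]; push_cast; ring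
  have q2 : ((2 * (o * o) : ℕ) : ℝ) ≤ ((d * a + ((2 * o - b1) * b1 + (2 * o - b3) * b3) : ℕ) : ℝ) := by
    exact_mod_cast h2
  have q3 : ((2 * (o * o) : ℕ) : ℝ) ≤ ((f * a + ((2 * o - c1) * c1 + (2 * o - c3) * c3) : ℕ) : ℝ) := by
    exact_mod_cast h3
  have q8 : ((2 * ((16 * (o * o)) * (16 * (o * o))) : ℕ) : ℝ)
      ≤ (((d * a + ((2 * o - b1) * b1 + (2 * o - b3) * b3) - 2 * (o * o))
      * (f * a + ((2 * o - c1) * c1 + (2 * o - c3) * c3) - 2 * (o * o))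
      + ((32 * (o * o) - R) * R + (32 * (o * o) - I) * I) : ℕ) : ℝ) := by exact_mod_cast h8
  have q4 : ((R + o * (((a + b1) + (b3 + (2 * o - c3))) + (2 * o - c1)) : ℕ) : ℝ)
      = ((e1 * a + ((2 * o - c1) * b1 + (2 * o - c3) * b3) + (16 * (o * o) + 2 * (o * o)) : ℕ) : ℝ) := by rw [h4]
  have q5 : ((I + o * (((a + b1) + (b3 + (2 * o - c3))) + c1) : ℕ) : ℝ)
      = ((e3 * a + ((2 * o - c3) * b1 + c1 * b3) + (16 * (o * o) + 2 * (o * o)) : ℕ) : ℝ) := by rw [h5]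
  rw [Nat.cast_add (_ * _) (_ + _), Nat.cast_mul (_ - _) (_ - _), Nat.cast_sub h2, Nat.cast_sub h3,
    Nat.cast_add (_ * _) (_ * _), Nat.cast_mul (_ - _) R, Nat.cast_mul (_ - _) I, Nat.cast_sub h6, Nat.cast_sub h7] at q8
  push_cast [s1, s3, r1, r3] at q2 q3 q4 q5 q8
  have g1 : (a : ℝ) * d - (((b1 : ℝ) - o) ^ 2 + ((b3 : ℝ) - o) ^ 2)
      = d * a + ((2 * o - b1) * b1 + (2 * o - b3) * b3) - 2 * (o * o) := by ring
  have g2 : (a : ℝ) * f - (((c1 : ℝ) - o) ^ 2 + ((c3 : ℝ) - o) ^ 2)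
      = f * a + ((2 * o - c1) * c1 + (2 * o - c3) * c3) - 2 * (o * o) := by ring
  have k1 : ((b1 : ℝ) - o) ^ 2 + ((b3 : ℝ) - o) ^ 2 ≤ a * d := by
    rw [← sub_nonneg, g1]
    exact sub_nonneg.2 q2
  have k2 : ((c1 : ℝ) - o) ^ 2 + ((c3 : ℝ) - o) ^ 2 ≤ a * f := by
    rw [← sub_nonneg, g2]
    exact sub_nonneg.2 q3
  have e4 : (a : ℝ) * (e1 - o) - (((b1 : ℝ) - o) * (c1 - o) + ((b3 : ℝ) - o) * (c3 - o)) = R - 16 * (o * o) := by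
    linear_combination -q4
  have e5 : (a : ℝ) * (e3 - o) - (((b1 : ℝ) - o) * (c3 - o) - ((b3 : ℝ) - o) * (c1 - o)) = I - 16 * (o * o) := by
    linear_combination -q5
  have k3 : ((a : ℝ) * (e1 - o) - (((b1 : ℝ) - o) * (c1 - o) + ((b3 : ℝ) - o) * (c3 - o))) ^ 2
      + ((a : ℝ) * (e3 - o) - (((b1 : ℝ) - o) * (c3 - o) - ((b3 : ℝ) - o) * (c1 - o))) ^ 2
      ≤ (a * d - (((b1 : ℝ) - o) ^ 2 + ((b3 : ℝ) - o) ^ 2)) * (a * f - (((c1 : ℝ) - o) ^ 2 + ((c3 : ℝ) - o) ^ 2)) := by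
    rw [e4, e5, g1, g2]
    have e6 : ((R : ℝ) - 16 * (o * o)) ^ 2 + ((I : ℝ) - 16 * (o * o)) ^ 2
        = 2 * ((16 * (o * o)) * (16 * (o * o))) - ((32 * (o * o) - R) * R + (32 * (o * o) - I) * I) := by ring
    rw [e6]
    exact sub_le_iff_le_add.2 q8
  have key := quad3 q1 k1 k2 k3 z1 z2 z3
  simp only [w3, ip, List.replicate_succ, List.replicate_zero]
  push_cast
  linarith

/-- digits of a chunk -/
theorem dgs9 (ws x : ℕ) : dgs (2 ^ ws) 9 x = [x % 2 ^ ws, (x >>> ws) % 2 ^ ws, (x >>> (2 * ws)) % 2 ^ ws,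
    (x >>> (3 * ws)) % 2 ^ ws, (x >>> (4 * ws)) % 2 ^ ws, (x >>> (5 * ws)) % 2 ^ ws, (x >>> (6 * ws)) % 2 ^ ws,
    (x >>> (7 * ws)) % 2 ^ ws, (x >>> (8 * ws)) % 2 ^ ws] := by
  have e : ∀ y k : ℕ, Nat.div (y >>> (k * ws)) (2 ^ ws) = y >>> ((k + 1) * ws) := by
    intro y k
    change y >>> (k * ws) / 2 ^ ws = _
    rw [Nat.shiftRight_eq_div_pow, Nat.shiftRight_eq_div_pow, Nat.div_div_eq_div_mul, ← pow_add]
    congr 2
    ring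
  have e0 : Nat.div x (2 ^ ws) = x >>> (1 * ws) := by
    change x / 2 ^ ws = _
    rw [Nat.shiftRight_eq_div_pow, one_mul]
  simp only [dgs, e0, e]
  simp only [one_mul, Nat.reduceAdd]
  rfl

theorem dig_lo {x ws u : ℕ} (hw : u + 1 ≤ ws) (h : x % 2 ^ ws < 2 ^ (u + 1)) : x % 2 ^ (u + 1) = x % 2 ^ ws := by
  obtain ⟨c, hc⟩ : 2 ^ (u + 1) ∣ 2 ^ ws := pow_dvd_pow 2 hw
  rw [← Nat.mod_eq_of_lt h, Nat.mod_mod_of_dvd _ ⟨c, hc⟩]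

theorem dig_hi {x ws u : ℕ} (hw : u + 1 ≤ ws) (h : x % 2 ^ ws < 2 ^ (u + 1)) (h2 : 2 ^ u ≤ x % 2 ^ ws) :
    x % 2 ^ u + 2 ^ u = x % 2 ^ ws := by
  have h3 : x % 2 ^ u = (x % 2 ^ ws) % 2 ^ u := by
    rw [Nat.mod_mod_of_dvd _ (pow_dvd_pow 2 (by omega))]
  rw [pow_succ] at h
  rw [h3, Nat.mod_eq_sub_mod h2, Nat.mod_eq_of_lt (by omega)]
  omega

theorem VC.d_congr {c : VC} {x y z w x' y' z' w' : ℕ} (h : c.d x y z w = true) (hx : x = x') (hy : y = y')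
    (hz : z = z') (hw : w = w') : c.d x' y' z' w' = true := by
  subst hx hy hz hw
  exact h

/-- the lanes -/
theorem VC.lok {c : VC} {ws u : ℕ} (hc : c.Ok ws u) {A D F b1 b3 c1 c3 e1 e3 : ℕ → ℕ}
    (bA : ∀ i < 4, A i < 2 ^ u) (bD : ∀ i < 4, D i < 2 ^ u) (bF : ∀ i < 4, F i < 2 ^ u)
    (bb1 : ∀ i < 4, b1 i ≤ 2 ^ (u + 1)) (bb3 : ∀ i < 4, b3 i ≤ 2 ^ (u + 1)) (bc1 : ∀ i < 4, c1 i ≤ 2 ^ (u + 1))
    (bc3 : ∀ i < 4, c3 i ≤ 2 ^ (u + 1)) (be1 : ∀ i < 4, e1 i ≤ 2 ^ (u + 1)) (be3 : ∀ i < 4, e3 i ≤ 2 ^ (u + 1))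
    (h : c.a (EF (2 ^ (9 * ws)) A) (EF (2 ^ (9 * ws)) D) (EF (2 ^ (9 * ws)) F) (EF (2 ^ (9 * ws)) b1)
      (EF (2 ^ (9 * ws)) b3) (EF (2 ^ (9 * ws)) c1) (EF (2 ^ (9 * ws)) c3) (EF (2 ^ (9 * ws)) e1)
      (EF (2 ^ (9 * ws)) e3) = true) :
    ∀ i < 4, Lok (2 ^ u) (A i) (D i) (F i) (b1 i) (b3 i) (c1 i) (c3 i) (e1 i) (e3 i) := by
  have hu5 := hc.u5
  have huw := hc.uw
  simp only [VC.a, Bool.and_eq_true] at h
  obtain ⟨h3, h4⟩ := h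
  have h3 := Nat.eq_of_beq_eq_true h3
  rw [hc.MA, hc.PO] at h3
  rw [hc.PV] at h4
  have l2 : 2 ^ u < 2 ^ (9 * ws) := Nat.pow_lt_pow_right (by norm_num) (by omega)
  have l3 : 2 ^ (u + 1) < 2 ^ (9 * ws) := Nat.pow_lt_pow_right (by norm_num) (by omega)
  have V1 : 2 ^ (u + 1) = 2 * 2 ^ u := by rw [pow_succ]; ring
  -- the first digits are positive
  have hA1 : ∀ i < 4, 1 ≤ A i := by
    change (EF _ A + EF _ (fun _ => 2 ^ u - 1)) &&& EF _ (fun _ => 2 ^ u) = _ at h3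
    have l1 : ∀ i < 4, A i + (2 ^ u - 1) < 2 ^ (9 * ws) := fun i hi => by
      have := bA i hi
      omega
    rw [EF_add, EF_and l1 (fun _ _ => l2)] at h3
    have h5 := EF_inj (fun i hi => Nat.and_le_right.trans_lt l2) (fun _ _ => l2) h3
    intro i hi
    have h6 := h5 i hi
    have h7 : 2 ^ u ≤ A i + (2 ^ u - 1) := by
      calc 2 ^ u = _ := h6.symm
        _ ≤ _ := Nat.and_le_left
    have := Nat.two_pow_pos u
    omega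
  change c.b _ _ _ _ _ _ _ _ _ (EF _ (fun _ => 2 ^ (u + 1)) - EF _ b1) (EF _ (fun _ => 2 ^ (u + 1)) - EF _ b3)
    (EF _ (fun _ => 2 ^ (u + 1)) - EF _ c1) (EF _ (fun _ => 2 ^ (u + 1)) - EF _ c3) = true at h4
  rw [EF_sub bb1, EF_sub bb3, EF_sub bc1, EF_sub bc3] at h4
  simp only [VC.b, VC.c, Bool.and_eq_true] at h4
  obtain ⟨hX, hY, hd4⟩ := h4
  have hX := Nat.eq_of_beq_eq_true hX
  have hY := Nat.eq_of_beq_eq_true hY
  rw [hc.K1, hc.T1] at hX hY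
  rw [hc.K1, hc.L1, hc.KR, hc.PO] at hd4
  obtain ⟨o, ho⟩ : ∃ o, o = 2 ^ u := ⟨_, rfl⟩
  have ho32 : 32 ≤ o := by
    rw [ho]
    calc 32 = 2 ^ 5 := by norm_num
      _ ≤ 2 ^ u := Nat.pow_le_pow_right (by norm_num) hu5
  have o2 : 32 * (o * o) ≤ o * o * o := by
    rw [mul_comm 32]
    exact Nat.mul_le_mul_left _ ho32
  have e3u : 2 ^ (3 * (u + 1)) = 8 * (o * o * o) := by
    rw [show 3 * (u + 1) = u + u + u + 3 by ring, pow_add, pow_add, pow_add, ho]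
    ring
  have e2u : 2 ^ (2 * u + 4) = 16 * (o * o) := by
    rw [show 2 * u + 4 = u + u + 4 by ring, pow_add, pow_add, ho]
    ring
  have bA' : ∀ i < 4, A i ≤ 2 ^ (u + 1) := fun i hi => by have := bA i hi; omega
  have bD' : ∀ i < 4, D i ≤ 2 ^ (u + 1) := fun i hi => by have := bD i hi; omega
  have bF' : ∀ i < 4, F i ≤ 2 ^ (u + 1) := fun i hi => by have := bF i hi; omega
  have v1 : 6 * (2 ^ (u + 1) * 2 ^ (u + 1)) ≤ 2 ^ (3 * (u + 1)) := by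
    rw [e3u, V1, ← ho]
    have : 6 * (2 * o * (2 * o)) = 24 * (o * o) := by ring
    omega
  have v1' : 6 * (2 ^ (u + 1) * 2 ^ (u + 1)) < 2 ^ (3 * (u + 1)) := by
    rw [e3u, V1, ← ho]
    have : 6 * (2 * o * (2 * o)) = 24 * (o * o) := by ring
    have : 0 < o * o := by positivity
    omega
  have v2 : 2 * (2 ^ u * 2 ^ u) ≤ 2 ^ (3 * (u + 1)) := by
    rw [e3u, ← ho]
    omega
  obtain ⟨mx, ex⟩ := minor (m := 9 * ws) (t := 3 * (u + 1)) (V := 2 ^ (u + 1)) (o := 2 ^ u) (by omega) v1 v2 bA' bD' bb1 bb3 hX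
  obtain ⟨my, ey⟩ := minor (m := 9 * ws) (t := 3 * (u + 1)) (V := 2 ^ (u + 1)) (o := 2 ^ u) (by omega) v1 v2 bA' bF' bc1 bc3 hY
  have sub_le : ∀ f : ℕ → ℕ, ∀ i < 4, (fun i => 2 ^ (u + 1) - f i) i ≤ 2 ^ (u + 1) := fun f i _ => Nat.sub_le _ _
  have pR := prod3 (m := 9 * ws) (t := 3 * (u + 1)) (by omega) v1' be1 bA' (sub_le c1) bb1 (sub_le c3) bb3
  have pI := prod3 (m := 9 * ws) (t := 3 * (u + 1)) (by omega) v1' be3 bA' (sub_le c3) bb1 bc1 bb3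
  have v3 : 2 * (2 ^ u * (5 * 2 ^ (u + 1))) < 2 ^ (3 * (u + 1)) := by
    rw [e3u, V1, ← ho]
    have : 2 * (o * (5 * (2 * o))) = 20 * (o * o) := by ring
    have : 0 < o * o := by positivity
    omega
  have lR := prod1 (m := 9 * ws) (t := 3 * (u + 1)) (o := 2 ^ u) (S := 5 * 2 ^ (u + 1))
    (s := fun i => ((A i + b1 i) + (b3 i + (2 ^ (u + 1) - c3 i))) + (2 ^ (u + 1) - c1 i)) (by omega) v3 (by
      intro i hi
      have := bA' i hi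
      have := bb1 i hi
      have := bb3 i hi
      omega)
  have lI := prod1 (m := 9 * ws) (t := 3 * (u + 1)) (o := 2 ^ u) (S := 5 * 2 ^ (u + 1))
    (s := fun i => ((A i + b1 i) + (b3 i + (2 ^ (u + 1) - c3 i))) + c1 i) (by omega) v3 (by
      intro i hi
      have := bA' i hi
      have := bb1 i hi
      have := bb3 i hi
      have := bc1 i hi
      omega)
  have w1 : ∀ x ≤ 5 * 2 ^ (u + 1), 2 ^ u * x ≤ 16 * (o * o) + 2 * (2 ^ u * 2 ^ u) := by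
    intro x hx
    have := Nat.mul_le_mul_left (2 ^ u) hx
    have h8 : 2 ^ u * (5 * 2 ^ (u + 1)) = 10 * (o * o) := by
      rw [V1, ← ho]
      ring
    rw [← ho] at this h8 ⊢
    omega
  have sR : ((EF (2 ^ (9 * ws)) A + EF (2 ^ (9 * ws)) b1) + (EF (2 ^ (9 * ws)) b3 + EF (2 ^ (9 * ws)) (fun i => 2 ^ (u + 1) - c3 i)))
      + EF (2 ^ (9 * ws)) (fun i => 2 ^ (u + 1) - c1 i)
      = EF (2 ^ (9 * ws)) (fun i => ((A i + b1 i) + (b3 i + (2 ^ (u + 1) - c3 i))) + (2 ^ (u + 1) - c1 i)) := by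
    simp only [EF_add]
  have sI : ((EF (2 ^ (9 * ws)) A + EF (2 ^ (9 * ws)) b1) + (EF (2 ^ (9 * ws)) b3 + EF (2 ^ (9 * ws)) (fun i => 2 ^ (u + 1) - c3 i)))
      + EF (2 ^ (9 * ws)) c1
      = EF (2 ^ (9 * ws)) (fun i => ((A i + b1 i) + (b3 i + (2 ^ (u + 1) - c3 i))) + c1 i) := by
    simp only [EF_add]
  have bsR : ∀ i < 4, 2 ^ u * (((A i + b1 i) + (b3 i + (2 ^ (u + 1) - c3 i))) + (2 ^ (u + 1) - c1 i))
      ≤ e1 i * A i + ((2 ^ (u + 1) - c1 i) * b1 i + (2 ^ (u + 1) - c3 i) * b3 i)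
        + (2 ^ (2 * u + 4) + 2 * (2 ^ u * 2 ^ u)) := by
    intro i hi
    have k1 := bA' i hi
    have k2 := bb1 i hi
    have k3 := bb3 i hi
    have := w1 (((A i + b1 i) + (b3 i + (2 ^ (u + 1) - c3 i))) + (2 ^ (u + 1) - c1 i)) (by omega)
    rw [e2u]
    exact this.trans (Nat.le_add_left _ _)
  have bsI : ∀ i < 4, 2 ^ u * (((A i + b1 i) + (b3 i + (2 ^ (u + 1) - c3 i))) + c1 i)
      ≤ e3 i * A i + ((2 ^ (u + 1) - c3 i) * b1 i + c1 i * b3 i) + (2 ^ (2 * u + 4) + 2 * (2 ^ u * 2 ^ u)) := by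
    intro i hi
    have k1 := bA' i hi
    have k2 := bb1 i hi
    have k3 := bb3 i hi
    have k4 := bc1 i hi
    have := w1 (((A i + b1 i) + (b3 i + (2 ^ (u + 1) - c3 i))) + c1 i) (by omega)
    rw [e2u]
    exact this.trans (Nat.le_add_left _ _)
  have eR : ((EF (2 ^ (9 * ws)) e1 * EF (2 ^ (9 * ws)) A + (EF (2 ^ (9 * ws)) (fun i => 2 ^ (u + 1) - c1 i) * EF (2 ^ (9 * ws)) b1
      + EF (2 ^ (9 * ws)) (fun i => 2 ^ (u + 1) - c3 i) * EF (2 ^ (9 * ws)) b3))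
      &&& EF ((2 ^ (9 * ws)) ^ 2) (fun _ => 2 ^ (3 * (u + 1)) - 1))
      + EF ((2 ^ (9 * ws)) ^ 2) (fun _ => 2 ^ (2 * u + 4) + 2 * (2 ^ u * 2 ^ u))
      - ((EF (2 ^ (9 * ws)) (fun _ => 2 ^ u) * (((EF (2 ^ (9 * ws)) A + EF (2 ^ (9 * ws)) b1) + (EF (2 ^ (9 * ws)) b3
      + EF (2 ^ (9 * ws)) (fun i => 2 ^ (u + 1) - c3 i))) + EF (2 ^ (9 * ws)) (fun i => 2 ^ (u + 1) - c1 i)))
      &&& EF ((2 ^ (9 * ws)) ^ 2) (fun _ => 2 ^ (3 * (u + 1)) - 1))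
      = EF ((2 ^ (9 * ws)) ^ 2) (fun i => (e1 i * A i + ((2 ^ (u + 1) - c1 i) * b1 i + (2 ^ (u + 1) - c3 i) * b3 i)
        + (2 ^ (2 * u + 4) + 2 * (2 ^ u * 2 ^ u)))
        - 2 ^ u * (((A i + b1 i) + (b3 i + (2 ^ (u + 1) - c3 i))) + (2 ^ (u + 1) - c1 i))) := by
    rw [pR, sR, lR, EF_add, EF_sub bsR]
  have eI : ((EF (2 ^ (9 * ws)) e3 * EF (2 ^ (9 * ws)) A + (EF (2 ^ (9 * ws)) (fun i => 2 ^ (u + 1) - c3 i) * EF (2 ^ (9 * ws)) b1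
      + EF (2 ^ (9 * ws)) c1 * EF (2 ^ (9 * ws)) b3))
      &&& EF ((2 ^ (9 * ws)) ^ 2) (fun _ => 2 ^ (3 * (u + 1)) - 1))
      + EF ((2 ^ (9 * ws)) ^ 2) (fun _ => 2 ^ (2 * u + 4) + 2 * (2 ^ u * 2 ^ u))
      - ((EF (2 ^ (9 * ws)) (fun _ => 2 ^ u) * (((EF (2 ^ (9 * ws)) A + EF (2 ^ (9 * ws)) b1) + (EF (2 ^ (9 * ws)) b3
      + EF (2 ^ (9 * ws)) (fun i => 2 ^ (u + 1) - c3 i))) + EF (2 ^ (9 * ws)) c1))
      &&& EF ((2 ^ (9 * ws)) ^ 2) (fun _ => 2 ^ (3 * (u + 1)) - 1))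
      = EF ((2 ^ (9 * ws)) ^ 2) (fun i => (e3 i * A i + ((2 ^ (u + 1) - c3 i) * b1 i + c1 i * b3 i)
        + (2 ^ (2 * u + 4) + 2 * (2 ^ u * 2 ^ u)))
        - 2 ^ u * (((A i + b1 i) + (b3 i + (2 ^ (u + 1) - c3 i))) + c1 i)) := by
    rw [pI, sI, lI, EF_add, EF_sub bsI]
  have hd5 := VC.d_congr hd4 ex ey eR eI
  have hpow : (2 ^ (9 * ws)) ^ 2 = 2 ^ (2 * (9 * ws)) := by rw [← pow_mul, mul_comm]
  have hpow4 : (2 ^ (9 * ws)) ^ 4 = (2 ^ (2 * (9 * ws))) ^ 2 := by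
    rw [← pow_mul, ← pow_mul]
    congr 1
    ring
  rw [hpow] at hd5
  have hW2 := hc.W2
  have hK2 := hc.K2
  have hT2 := hc.T2
  rw [hpow] at hW2
  rw [hpow4] at hK2 hT2
  have e5u : 2 ^ (5 * (u + 1)) = 32 * (o * o * o * o * o) := by
    rw [show 5 * (u + 1) = u + u + u + u + u + 5 by ring, pow_add, pow_add, pow_add, pow_add, pow_add, ho]
    ring
  have b3V : ∀ x y z x' y' z' : ℕ, x ≤ 2 ^ (u + 1) → y ≤ 2 ^ (u + 1) → z ≤ 2 ^ (u + 1) → x' ≤ 2 ^ (u + 1) →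
      y' ≤ 2 ^ (u + 1) → z' ≤ 2 ^ (u + 1) → x * x' + (y * y' + z * z') ≤ 12 * (o * o) := by
    intro x y z x' y' z' h1 h2 h3 h1' h2' h3'
    have k1 := Nat.mul_le_mul h1 h1'
    have k2 := Nat.mul_le_mul h2 h2'
    have k3 := Nat.mul_le_mul h3 h3'
    have : 2 ^ (u + 1) * 2 ^ (u + 1) = 4 * (o * o) := by
      rw [V1, ← ho]
      ring
    omega
  have fin := VC.d_ok (c := c) (n := 2 * (9 * ws)) (t := 5 * (u + 1)) (Om := 2 ^ (2 * u + 4)) (M := 32 * (o * o))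
    (by omega) ?_ ?_ ?_ ?_ ?_ ?_ ?_ hW2 hK2 hT2 hd5
  · intro i hi
    have k0 := fin i hi
    have kR := bsR i hi
    have kI := bsI i hi
    have s1 : 2 ^ (u + 1) - c1 i ≤ 2 ^ (u + 1) := Nat.sub_le _ _
    have s3 : 2 ^ (u + 1) - c3 i ≤ 2 ^ (u + 1) := Nat.sub_le _ _
    have rR := b3V _ _ _ _ _ _ (be1 i hi) s1 s3 (bA' i hi) (bb1 i hi) (bb3 i hi)
    have rI := b3V _ _ _ _ _ _ (be3 i hi) s3 (bc1 i hi) (bA' i hi) (bb1 i hi) (bb3 i hi)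
    have kx := mx i hi
    have ky := my i hi
    rw [e2u] at k0 kR kI
    rw [show 2 * (16 * (o * o)) = 32 * (o * o) by ring] at k0
    rw [V1, ← ho] at k0 kR kI rR rI kx ky
    rw [← ho]
    clear hd5 hd4 hX hY ex ey eR eI pR pI lR lI sR sI fin
    refine ⟨hA1 i hi, kx, ky, _, _, ?_, ?_, ?_, ?_, k0⟩
    · omega
    · omega
    · omega
    · omega
  · rw [e2u, e5u]
    have h1 : 32 * (o * o * o * o) ≤ o * o * o * o * o := by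
      rw [mul_comm 32]
      exact Nat.mul_le_mul_left _ ho32
    have h2 : 2 * (16 * (o * o) * (16 * (o * o))) = 512 * (o * o * o * o) := by ring
    omega
  · have h1 : 6 * (32 * (o * o) * (32 * (o * o))) + 2 ^ (5 * (u + 1)) ≤ 2 ^ (5 * u + 14) := by
      have h1 : 32 * (o * o * o * o) ≤ o * o * o * o * o := by
        rw [mul_comm 32]
        exact Nat.mul_le_mul_left _ ho32
      have h2 : 6 * (32 * (o * o) * (32 * (o * o))) = 6144 * (o * o * o * o) := by ring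
      have h3 : 2 ^ (5 * u + 14) = 16384 * (o * o * o * o * o) := by
        rw [show 5 * u + 14 = u + u + u + u + u + 14 by ring, pow_add, pow_add, pow_add, pow_add, pow_add, ho]
        ring
      rw [e5u, h2, h3]
      omega
    refine h1.trans_lt (Nat.pow_lt_pow_right (by norm_num) (by omega))
  · rw [e2u]
    omega
  · intro i hi
    have s1 : 2 ^ (u + 1) - b1 i ≤ 2 ^ (u + 1) := Nat.sub_le _ _
    have s3 : 2 ^ (u + 1) - b3 i ≤ 2 ^ (u + 1) := Nat.sub_le _ _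
    have := b3V _ _ _ _ _ _ (bD' i hi) s1 s3 (bA' i hi) (bb1 i hi) (bb3 i hi)
    have := Nat.sub_le (D i * A i + ((2 ^ (u + 1) - b1 i) * b1 i + (2 ^ (u + 1) - b3 i) * b3 i)) (2 * (2 ^ u * 2 ^ u))
    omega
  · intro i hi
    have s1 : 2 ^ (u + 1) - c1 i ≤ 2 ^ (u + 1) := Nat.sub_le _ _
    have s3 : 2 ^ (u + 1) - c3 i ≤ 2 ^ (u + 1) := Nat.sub_le _ _
    have := b3V _ _ _ _ _ _ (bF' i hi) s1 s3 (bA' i hi) (bc1 i hi) (bc3 i hi)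
    have := Nat.sub_le (F i * A i + ((2 ^ (u + 1) - c1 i) * c1 i + (2 ^ (u + 1) - c3 i) * c3 i)) (2 * (2 ^ u * 2 ^ u))
    omega
  · intro i hi
    have s1 : 2 ^ (u + 1) - c1 i ≤ 2 ^ (u + 1) := Nat.sub_le _ _
    have s3 : 2 ^ (u + 1) - c3 i ≤ 2 ^ (u + 1) := Nat.sub_le _ _
    have k1 := b3V _ _ _ _ _ _ (be1 i hi) s1 s3 (bA' i hi) (bb1 i hi) (bb3 i hi)
    rw [e2u]
    rw [← ho]
    omega
  · intro i hi
    have s3 : 2 ^ (u + 1) - c3 i ≤ 2 ^ (u + 1) := Nat.sub_le _ _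
    have k1 := b3V _ _ _ _ _ _ (be3 i hi) s3 (bc1 i hi) (bA' i hi) (bb1 i hi) (bb3 i hi)
    rw [e2u]
    rw [← ho]
    omega

theorem VC.z_ok {c : VC} {ws u : ℕ} (hc : c.Ok ws u) {ch : ℕ → ℕ} (hch : ∀ i < 4, ch i < 2 ^ (9 * ws))
    (h : c.z (EF (2 ^ (9 * ws)) ch) = true) : ∀ i < 4, (∀ d ∈ dgs (2 ^ ws) 9 (ch i), d < 2 ^ (u + 1)) ∧
      ∃ a d f b1 b3 c1 c3 e1 e3, dgs (2 ^ ws) 9 (ch i) = [a + 2 ^ u, d + 2 ^ u, f + 2 ^ u, b1, b3, c1, c3, e1, e3] ∧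
        Lok (2 ^ u) a d f b1 b3 c1 c3 e1 e3 := by
  have hu5 := hc.u5
  have huw := hc.uw
  obtain ⟨m, hm⟩ : ∃ m, m = 9 * ws := ⟨_, rfl⟩
  simp only [VC.z, Bool.and_eq_true] at h
  obtain ⟨h0, h1, h2⟩ := h
  have h0 := Nat.eq_of_beq_eq_true h0
  have h1 := Nat.eq_of_beq_eq_true h1
  rw [hc.MU] at h0
  rw [hc.MO] at h1
  rw [hc.MA, hc.MV, hc.w1] at h2
  have hp : 0 < 2 ^ (9 * ws) := by positivity
  have hpw : 0 < 2 ^ ws := by positivity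
  have hpu : 0 < 2 ^ u := by positivity
  have hmsk : msk ws (u + 1) 9 < 2 ^ (9 * ws) := by
    have := od_lt (B := 2 ^ ws) (List.replicate 9 (2 ^ ws - 2 ^ (u + 1))) (by
      intro d hd
      rw [List.eq_of_mem_replicate hd]
      exact Nat.sub_lt hpw (by positivity))
    rw [List.length_replicate, ← pow_mul, mul_comm ws 9] at this
    exact this
  have hooo : od (2 ^ ws) [2 ^ u, 2 ^ u, 2 ^ u] < 2 ^ (9 * ws) := by
    have := od_lt (B := 2 ^ ws) [2 ^ u, 2 ^ u, 2 ^ u] (by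
      have : 2 ^ u < 2 ^ ws := Nat.pow_lt_pow_right (by norm_num) (by omega)
      simp [this])
    refine this.trans_le ?_
    rw [show [2 ^ u, 2 ^ u, 2 ^ u].length = 3 from rfl, ← pow_mul]
    exact Nat.pow_le_pow_right (by norm_num) (by omega)
  -- all digits
  have hd : ∀ i < 4, ∀ d ∈ dgs (2 ^ ws) 9 (ch i), d < 2 ^ (u + 1) := by
    change EF (2 ^ (9 * ws)) ch &&& _ = 0 at h0
    rw [EF_and hch (fun _ _ => hmsk), show (0 : ℕ) = EF (2 ^ (9 * ws)) (fun _ => 0) by simp [EF]] at h0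
    have h3 := EF_inj (fun i hi => Nat.and_le_right.trans_lt hmsk) (fun _ _ => hp) h0
    intro i hi
    exact msk_ok (by omega) 9 9 (ch i) (le_refl _) (h3 i hi)
  have hd' : ∀ i < 4, ch i % 2 ^ ws < 2 ^ (u + 1) ∧ (ch i >>> ws) % 2 ^ ws < 2 ^ (u + 1) ∧
      (ch i >>> (2 * ws)) % 2 ^ ws < 2 ^ (u + 1) ∧ (ch i >>> (3 * ws)) % 2 ^ ws < 2 ^ (u + 1) ∧
      (ch i >>> (4 * ws)) % 2 ^ ws < 2 ^ (u + 1) ∧ (ch i >>> (5 * ws)) % 2 ^ ws < 2 ^ (u + 1) ∧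
      (ch i >>> (6 * ws)) % 2 ^ ws < 2 ^ (u + 1) ∧ (ch i >>> (7 * ws)) % 2 ^ ws < 2 ^ (u + 1) ∧
      (ch i >>> (8 * ws)) % 2 ^ ws < 2 ^ (u + 1) := by
    intro i hi
    have := hd i hi
    rw [dgs9] at this
    simpa using this
  -- the diagonal digits
  have ho : ∀ i < 4, 2 ^ u ≤ ch i % 2 ^ ws ∧ 2 ^ u ≤ (ch i >>> ws) % 2 ^ ws ∧ 2 ^ u ≤ (ch i >>> (2 * ws)) % 2 ^ ws := by
    change EF (2 ^ (9 * ws)) ch &&& _ = _ at h1
    rw [EF_and hch (fun _ _ => hooo)] at h1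
    have h3 := EF_inj (fun i hi => Nat.and_le_right.trans_lt hooo) (fun _ _ => hooo) h1
    intro i hi
    have h4 := h3 i hi
    have h5 : od (2 ^ ws) (dgs (2 ^ ws) 9 (ch i)) = ch i := od_dgs 9 (ch i) (by
      rw [← pow_mul, mul_comm ws 9]
      exact hch i hi)
    have h6 : 2 ^ u < 2 ^ ws := Nat.pow_lt_pow_right (by norm_num) (by omega)
    rw [← h5, od_and _ _ (dgs_lt hpw 9 _) (by simp [h6]), dgs9] at h4
    have h7 := od_inj (by simp) (by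
      intro d hd
      simp only [List.zipWith_cons_cons, List.zipWith_nil_right, List.mem_cons, List.not_mem_nil, or_false] at hd
      have hle : ∀ x, x &&& 2 ^ u < 2 ^ ws := fun x => Nat.and_le_right.trans_lt h6
      rcases hd with rfl | rfl | rfl <;> exact hle _) (by simp [h6]) h4
    simp only [List.zipWith_cons_cons, List.zipWith_nil_right, List.cons.injEq, and_true] at h7
    refine ⟨?_, ?_, ?_⟩
    · rw [← h7.1]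
      exact Nat.and_le_left
    · rw [← h7.2.1]
      exact Nat.and_le_left
    · rw [← h7.2.2]
      exact Nat.and_le_left
  -- the lanes
  have s0 : Nat.land (EF (2 ^ (9 * ws)) ch) (EF (2 ^ (9 * ws)) (fun _ => 2 ^ u - 1))
      = EF (2 ^ (9 * ws)) (fun i => ch i % 2 ^ u) := by
    have := EF_shr (m := 9 * ws) (s := 0) (t := u) (by omega) hch
    simpa using this
  have s1 : ∀ s, s + u ≤ 9 * ws → Nat.land (Nat.shiftRight (EF (2 ^ (9 * ws)) ch) s) (EF (2 ^ (9 * ws)) (fun _ => 2 ^ u - 1))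
      = EF (2 ^ (9 * ws)) (fun i => (ch i >>> s) % 2 ^ u) := fun s hs => EF_shr hs hch
  have s2 : ∀ s, s + (u + 1) ≤ 9 * ws → Nat.land (Nat.shiftRight (EF (2 ^ (9 * ws)) ch) s)
      (EF (2 ^ (9 * ws)) (fun _ => 2 ^ (u + 1) - 1)) = EF (2 ^ (9 * ws)) (fun i => (ch i >>> s) % 2 ^ (u + 1)) :=
    fun s hs => EF_shr hs hch
  change c.a _ (Nat.land (Nat.shiftRight _ ws) _) (Nat.land (Nat.shiftRight _ (2 * ws)) _)
    (Nat.land (Nat.shiftRight _ (3 * ws)) _) (Nat.land (Nat.shiftRight _ (4 * ws)) _)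
    (Nat.land (Nat.shiftRight _ (5 * ws)) _) (Nat.land (Nat.shiftRight _ (6 * ws)) _)
    (Nat.land (Nat.shiftRight _ (7 * ws)) _) (Nat.land (Nat.shiftRight _ (8 * ws)) _) = true at h2
  rw [s0, s1 _ (by omega), s1 _ (by omega), s2 _ (by omega), s2 _ (by omega), s2 _ (by omega), s2 _ (by omega),
    s2 _ (by omega), s2 _ (by omega)] at h2
  have hmod : ∀ x t : ℕ, x % 2 ^ t < 2 ^ t := fun x t => Nat.mod_lt _ (by positivity)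
  -- names of the lanes
  obtain ⟨A, hA⟩ : ∃ f : ℕ → ℕ, f = fun i => ch i % 2 ^ u := ⟨_, rfl⟩
  obtain ⟨D, hD⟩ : ∃ f : ℕ → ℕ, f = fun i => (ch i >>> ws) % 2 ^ u := ⟨_, rfl⟩
  obtain ⟨F, hF⟩ : ∃ f : ℕ → ℕ, f = fun i => (ch i >>> (2 * ws)) % 2 ^ u := ⟨_, rfl⟩
  obtain ⟨b1, hb1⟩ : ∃ f : ℕ → ℕ, f = fun i => (ch i >>> (3 * ws)) % 2 ^ (u + 1) := ⟨_, rfl⟩
  obtain ⟨b3, hb3⟩ : ∃ f : ℕ → ℕ, f = fun i => (ch i >>> (4 * ws)) % 2 ^ (u + 1) := ⟨_, rfl⟩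
  obtain ⟨c1, hc1⟩ : ∃ f : ℕ → ℕ, f = fun i => (ch i >>> (5 * ws)) % 2 ^ (u + 1) := ⟨_, rfl⟩
  obtain ⟨c3, hc3⟩ : ∃ f : ℕ → ℕ, f = fun i => (ch i >>> (6 * ws)) % 2 ^ (u + 1) := ⟨_, rfl⟩
  obtain ⟨e1, he1⟩ : ∃ f : ℕ → ℕ, f = fun i => (ch i >>> (7 * ws)) % 2 ^ (u + 1) := ⟨_, rfl⟩
  obtain ⟨e3, he3⟩ : ∃ f : ℕ → ℕ, f = fun i => (ch i >>> (8 * ws)) % 2 ^ (u + 1) := ⟨_, rfl⟩
  rw [← hA, ← hD, ← hF, ← hb1, ← hb3, ← hc1, ← hc3, ← he1, ← he3] at h2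
  have V1 : 2 ^ (u + 1) = 2 * 2 ^ u := by rw [pow_succ]; ring
  have bA : ∀ i < 4, A i < 2 ^ u := fun i _ => by rw [hA]; exact hmod _ _
  have bD : ∀ i < 4, D i < 2 ^ u := fun i _ => by rw [hD]; exact hmod _ _
  have bF : ∀ i < 4, F i < 2 ^ u := fun i _ => by rw [hF]; exact hmod _ _
  have bb1 : ∀ i < 4, b1 i ≤ 2 ^ (u + 1) := fun i _ => by rw [hb1]; exact (hmod _ _).le
  have bb3 : ∀ i < 4, b3 i ≤ 2 ^ (u + 1) := fun i _ => by rw [hb3]; exact (hmod _ _).le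
  have bc1 : ∀ i < 4, c1 i ≤ 2 ^ (u + 1) := fun i _ => by rw [hc1]; exact (hmod _ _).le
  have bc3 : ∀ i < 4, c3 i ≤ 2 ^ (u + 1) := fun i _ => by rw [hc3]; exact (hmod _ _).le
  have be1 : ∀ i < 4, e1 i ≤ 2 ^ (u + 1) := fun i _ => by rw [he1]; exact (hmod _ _).le
  have be3 : ∀ i < 4, e3 i ≤ 2 ^ (u + 1) := fun i _ => by rw [he3]; exact (hmod _ _).le
  have key := VC.lok hc bA bD bF bb1 bb3 bc1 bc3 be1 be3 h2
  intro i hi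
  refine ⟨hd i hi, A i, D i, F i, b1 i, b3 i, c1 i, c3 i, e1 i, e3 i, ?_, key i hi⟩
  obtain ⟨k1, k2, k3, k4, k5, k6, k7, k8, k9⟩ := hd' i hi
  obtain ⟨o1, o2, o3⟩ := ho i hi
  have hw1 : u + 1 ≤ ws := by omega
  rw [dgs9, hA, hD, hF, hb1, hb3, hc1, hc3, he1, he3]
  simp only
  rw [dig_hi hw1 k1 o1, dig_hi hw1 k2 o2, dig_hi hw1 k3 o3, dig_lo hw1 k4, dig_lo hw1 k5, dig_lo hw1 k6,
    dig_lo hw1 k7, dig_lo hw1 k8, dig_lo hw1 k9]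

end Pool.Agent.FPX.PLK
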