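import Pool.Agent.FPX.PLH
/-!
PLI (helper1). The test of a pair with the rounded coefficient in wide slots; rows of pairs.
-/
set_option autoImplicit false

noncomputable section

namespace Pool.Agent.FPX.PLK

open List (Forall₂)

/-- nine wide digits to narrow slots; here `B5` is the fourth power of the wide base, `W5` of the narrow one -/
def VC.g (c : VC) (e : ℕ) : ℕ :=
  Nat.add (Nat.mod (Nat.mod e c.B5) c.BW) (Nat.mul c.W5
    (Nat.add (Nat.mod (Nat.mod (Nat.div e c.B5) c.B5) c.BW) (Nat.mul c.W5 (Nat.div (Nat.div e c.B5) c.B5))))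

def VC.y (c : VC) (a b d l r : ℕ) : Bool :=
  Nat.ble l r && c.z (Nat.add (Nat.add a (Nat.mul c.Q b)) (Nat.add (Nat.mul c.Q4 d) (Nat.mul c.Q6 (Nat.sub r l))))

/-- the test of a pair -/
def VC.t (c : VC) (a b d e : ℕ) : Bool := c.y a b d (Nat.add a c.C) (Nat.add (Nat.add b d) (c.g e))

/-- all pairs of a row -/
def prs4 (t : ℕ → ℕ → ℕ → ℕ → Bool) (CN CB : ℕ) (k : ℕ) : ℕ → ℕ → ℕ → ℕ → Bool :=
  Nat.rec (motive := fun _ => ℕ → ℕ → ℕ → ℕ → Bool) (fun _ _ _ _ => true)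
    (fun _ ih xa xb xd xe => t (Nat.mod xa CN) (Nat.mod xb CN) (Nat.mod xd CN) (Nat.mod xe CB) &&
      ih (Nat.div xa CN) (Nat.div xb CN) (Nat.div xd CN) (Nat.div xe CB)) k

/-- values of the constants of the fourth corner, wide base `2 ^ q` -/
structure VC.Okg (c : VC) (ws q oe : ℕ) : Prop where
  hq : 4 * ws ≤ q
  w2 : 2 ≤ ws
  hoe : 2 * (oe + 5) ≤ 2 ^ ws
  B5 : c.B5 = (2 ^ q) ^ 4
  BW : c.BW = 2 ^ q - 2 ^ ws
  W5 : c.W5 = (2 ^ ws) ^ 4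
  C : c.C = od (2 ^ ws) (ofs 9 oe sv3)

theorem od_cong (W M : ℕ) : ∀ l : List ℕ, od (W + M) l % M = od W l % M
  | [] => rfl
  | d :: l => by
    have ih := od_cong W M l
    simp only [od, Nat.add_eq, Nat.mul_eq]
    have h1 : (W + M) * od (W + M) l % M = W * od W l % M := by
      rw [Nat.mul_mod, Nat.add_mod_right, ih, ← Nat.mul_mod]
    rw [Nat.add_mod, h1, ← Nat.add_mod]

theorem od4_lt {W X a b c d : ℕ} (hX : 4 * X = W) (hX1 : 1 ≤ X) (ha : a < X) (hb : b < X) (hc : c < X) (hd : d < X) :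
    2 * od W [a, b, c, d] < W ^ 4 := by
  simp only [od, Nat.add_eq, Nat.mul_eq, Nat.mul_zero, Nat.add_zero]
  have h1 : W * d ≤ W * (X - 1) := Nat.mul_le_mul_left _ (by omega)
  have h2 : c + W * d < W * X := by
    obtain ⟨Y, rfl⟩ : ∃ Y, X = Y + 1 := ⟨X - 1, by omega⟩
    simp only [Nat.add_sub_cancel] at h1
    have : W * (Y + 1) = W * Y + W := by ring
    omega
  have h3 : b + W * (c + W * d) < W * (W * X) := by
    have : W * (c + W * d) + W ≤ W * (W * X) := by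
      have := Nat.mul_le_mul_left W (show c + W * d + 1 ≤ W * X from h2)
      linarith
    omega
  have h4 : a + W * (b + W * (c + W * d)) < W * (W * (W * X)) := by
    have : W * (b + W * (c + W * d)) + W ≤ W * (W * (W * X)) := by
      have := Nat.mul_le_mul_left W (show b + W * (c + W * d) + 1 ≤ W * (W * X) from h3)
      linarith
    omega
  have h5 : W ^ 4 = 4 * (W * (W * (W * X))) := by
    rw [← hX]
    ring
  omega

theorem g4_ok {q ws : ℕ} (hq : 4 * ws ≤ q) (hw : 2 ≤ ws) {a b c d : ℕ} (ha : a < 2 ^ (ws - 2)) (hb : b < 2 ^ (ws - 2))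
    (hc : c < 2 ^ (ws - 2)) (hd : d < 2 ^ (ws - 2)) :
    od (2 ^ q) [a, b, c, d] % (2 ^ q - 2 ^ ws) = od (2 ^ ws) [a, b, c, d] := by
  have h1 : 4 * 2 ^ (ws - 2) = 2 ^ ws := by
    rw [show (4 : ℕ) = 2 ^ 2 by norm_num, ← pow_add, Nat.add_sub_cancel' hw]
  have h2 := od4_lt h1 (Nat.one_le_two_pow) ha hb hc hd
  have h3 : (2 ^ ws) ^ 4 ≤ 2 ^ q := by
    rw [← pow_mul, mul_comm ws 4]
    exact Nat.pow_le_pow_right (by norm_num) hq
  have h4 : 2 * 2 ^ ws ≤ (2 ^ ws) ^ 4 := by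
    rw [← pow_mul, ← pow_succ']
    exact Nat.pow_le_pow_right (by norm_num) (by omega)
  obtain ⟨M, hM⟩ := Nat.exists_eq_add_of_le (show 2 ^ ws ≤ 2 ^ q by omega)
  rw [hM, Nat.add_sub_cancel_left, od_cong, Nat.mod_eq_of_lt (by omega)]

theorem VC.g_ok {c : VC} {ws q oe : ℕ} (hc : c.Okg ws q oe) {d0 d1 d2 d3 d4 d5 d6 d7 d8 : ℕ}
    (h : ∀ d ∈ [d0, d1, d2, d3, d4, d5, d6, d7, d8], d < 2 ^ (ws - 2)) :
    c.g (od (2 ^ q) [d0, d1, d2, d3, d4, d5, d6, d7, d8]) = od (2 ^ ws) [d0, d1, d2, d3, d4, d5, d6, d7, d8] := by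
  have hq := hc.hq
  have hw := hc.w2
  simp only [List.mem_cons, List.not_mem_nil, or_false, forall_eq_or_imp, forall_eq] at h
  obtain ⟨h0, h1, h2, h3, h4, h5, h6, h7, h8⟩ := h
  have e1 : od (2 ^ q) [d0, d1, d2, d3, d4, d5, d6, d7, d8]
      = od (2 ^ q) [d0, d1, d2, d3] + (2 ^ q) ^ 4 * (od (2 ^ q) [d4, d5, d6, d7] + (2 ^ q) ^ 4 * d8) := by
    simp only [od, Nat.add_eq, Nat.mul_eq]
    ring
  have e2 : od (2 ^ ws) [d0, d1, d2, d3, d4, d5, d6, d7, d8]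
      = od (2 ^ ws) [d0, d1, d2, d3] + (2 ^ ws) ^ 4 * (od (2 ^ ws) [d4, d5, d6, d7] + (2 ^ ws) ^ 4 * d8) := by
    simp only [od, Nat.add_eq, Nat.mul_eq]
    ring
  have hlt : ∀ x y z w : ℕ, x < 2 ^ (ws - 2) → y < 2 ^ (ws - 2) → z < 2 ^ (ws - 2) → w < 2 ^ (ws - 2) →
      od (2 ^ q) [x, y, z, w] < (2 ^ q) ^ 4 := by
    intro x y z w hx hy hz hw'
    have hb : 2 ^ (ws - 2) ≤ 2 ^ q := Nat.pow_le_pow_right (by norm_num) (by omega)
    have := od_lt (B := 2 ^ q) [x, y, z, w] (by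
      simp only [List.mem_cons, List.not_mem_nil, or_false, forall_eq_or_imp, forall_eq]
      omega)
    exact this
  have hp : 0 < (2 ^ q) ^ 4 := by positivity
  unfold VC.g
  rw [hc.B5, hc.BW, hc.W5]
  change (od (2 ^ q) [d0, d1, d2, d3, d4, d5, d6, d7, d8] % (2 ^ q) ^ 4) % (2 ^ q - 2 ^ ws)
    + (2 ^ ws) ^ 4 * ((od (2 ^ q) [d0, d1, d2, d3, d4, d5, d6, d7, d8] / (2 ^ q) ^ 4 % (2 ^ q) ^ 4) % (2 ^ q - 2 ^ ws)
      + (2 ^ ws) ^ 4 * (od (2 ^ q) [d0, d1, d2, d3, d4, d5, d6, d7, d8] / (2 ^ q) ^ 4 / (2 ^ q) ^ 4)) = _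
  rw [e1, Nat.add_mul_mod_self_left, Nat.mod_eq_of_lt (hlt _ _ _ _ h0 h1 h2 h3), Nat.add_mul_div_left _ _ hp,
    Nat.div_eq_of_lt (hlt _ _ _ _ h0 h1 h2 h3), Nat.zero_add, Nat.add_mul_mod_self_left,
    Nat.mod_eq_of_lt (hlt _ _ _ _ h4 h5 h6 h7), Nat.add_mul_div_left _ _ hp,
    Nat.div_eq_of_lt (hlt _ _ _ _ h4 h5 h6 h7), Nat.zero_add, g4_ok hq hw h0 h1 h2 h3, g4_ok hq hw h4 h5 h6 h7, e2]

theorem len9 {l : List ℕ} (h : l.length = 9) : ∃ d0 d1 d2 d3 d4 d5 d6 d7 d8, l = [d0, d1, d2, d3, d4, d5, d6, d7, d8] := by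
  match l, h with
  | [d0, d1, d2, d3, d4, d5, d6, d7, d8], _ => exact ⟨_, _, _, _, _, _, _, _, _, rfl⟩

theorem VC.g_dgs {c : VC} {ws q oe : ℕ} (hc : c.Okg ws q oe) {e : ℕ} (he : e < (2 ^ q) ^ 9)
    (h : ∀ d ∈ dgs (2 ^ q) 9 e, d < 2 ^ (ws - 2)) : c.g e = od (2 ^ ws) (dgs (2 ^ q) 9 e) := by
  obtain ⟨d0, d1, d2, d3, d4, d5, d6, d7, d8, hl⟩ := len9 (dgs_length (B := 2 ^ q) 9 e)
  rw [hl] at h ⊢
  rw [← VC.g_ok hc h, ← hl, od_dgs 9 e he]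

theorem VC.t_ok {c : VC} {ws u q oe : ℕ} (hc : c.Ok ws u) (hg : c.Okg ws q oe) {a b d e : ℕ}
    (ha : a < (2 ^ ws) ^ 9) (hb : b < (2 ^ ws) ^ 9) (hd : d < (2 ^ ws) ^ 9) (he : e < (2 ^ q) ^ 9)
    (db : ∀ x ∈ dgs (2 ^ ws) 9 b, x < 2 ^ (u + 1)) (dd : ∀ x ∈ dgs (2 ^ ws) 9 d, x < 2 ^ (u + 1))
    (de : ∀ x ∈ dgs (2 ^ q) 9 e, x < 2 ^ (ws - 2)) (h : c.t a b d e = true) (z1 z2 z3 : ℂ) :
    0 ≤ ip (w3 z1 z2 z3) (dgs (2 ^ ws) 9 a) - (2 ^ u : ℕ) * ip (w3 z1 z2 z3) (List.replicate 9 1) ∧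
    0 ≤ ip (w3 z1 z2 z3) (dgs (2 ^ ws) 9 b) - (2 ^ u : ℕ) * ip (w3 z1 z2 z3) (List.replicate 9 1) ∧
    0 ≤ ip (w3 z1 z2 z3) (dgs (2 ^ ws) 9 d) - (2 ^ u : ℕ) * ip (w3 z1 z2 z3) (List.replicate 9 1) ∧
    0 ≤ (ip (w3 z1 z2 z3) (dgs (2 ^ ws) 9 b) + ip (w3 z1 z2 z3) (dgs (2 ^ ws) 9 d) - ip (w3 z1 z2 z3) (dgs (2 ^ ws) 9 a)
        - (2 ^ u : ℕ) * ip (w3 z1 z2 z3) (List.replicate 9 1))
      + (ip (w3 z1 z2 z3) (dgs (2 ^ q) 9 e) - (oe * ip (w3 z1 z2 z3) (List.replicate 9 1) + ip (w3 z1 z2 z3) sv3)) := by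
  have huw := hc.uw
  have hoe := hg.hoe
  have hw2 := hg.w2
  have kit := kit3 z1 z2 z3
  simp only [VC.t, VC.y, Bool.and_eq_true, Nat.ble_eq] at h
  obtain ⟨h1, h2⟩ := h
  rw [VC.g_dgs hg he de] at h1 h2
  rw [hg.C] at h1 h2
  rw [hc.Q, hc.Q4, hc.Q6] at h2
  have hpw : 0 < 2 ^ ws := by positivity
  have p1 : 2 ^ (u + 4) ≤ 2 ^ ws := Nat.pow_le_pow_right (by norm_num) huw
  have p2 : 2 ^ (u + 4) = 8 * 2 ^ (u + 1) := by
    rw [show u + 4 = u + 1 + 3 by ring, pow_add _ (u + 1) 3]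
    ring
  have p3 : 4 * 2 ^ (ws - 2) = 2 ^ ws := by
    rw [show (4 : ℕ) = 2 ^ 2 by norm_num, ← pow_add, Nat.add_sub_cancel' hw2]
  -- the right side as digits
  obtain ⟨E, hE⟩ : ∃ E, E = dgs (2 ^ q) 9 e := ⟨_, rfl⟩
  have lE : E.length = 9 := by rw [hE, dgs_length]
  rw [← hE] at h1 h2 de ⊢
  have lb : (dgs (2 ^ ws) 9 b).length = 9 := dgs_length _ _
  have ld : (dgs (2 ^ ws) 9 d).length = 9 := dgs_length _ _
  have lbd : (addN (dgs (2 ^ ws) 9 b) (dgs (2 ^ ws) 9 d)).length = 9 := addN_length lb ld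
  have lr : (addN (addN (dgs (2 ^ ws) 9 b) (dgs (2 ^ ws) 9 d)) E).length = 9 := addN_length lbd lE
  have er : b + d + od (2 ^ ws) E = od (2 ^ ws) (addN (addN (dgs (2 ^ ws) 9 b) (dgs (2 ^ ws) 9 d)) E) := by
    rw [od_addN _ _ _ (by rw [lbd, lE]), od_addN _ _ _ (by rw [lb, ld]), od_dgs 9 b hb, od_dgs 9 d hd]
  have dr : ∀ x ∈ addN (addN (dgs (2 ^ ws) 9 b) (dgs (2 ^ ws) 9 d)) E, x < 2 ^ ws := by
    intro x hx
    have := addN_le _ _ (addN_le _ _ (fun x hx => (db x hx).le) (fun x hx => (dd x hx).le))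
      (fun x hx => (de x hx).le) x hx
    omega
  have hr : b + d + od (2 ^ ws) E < (2 ^ ws) ^ 9 := by
    rw [er]
    have := od_lt _ dr
    rwa [lr] at this
  have hy : (b + d + od (2 ^ ws) E) - (a + od (2 ^ ws) (ofs 9 oe sv3)) < (2 ^ ws) ^ 9 :=
    (Nat.sub_le _ _).trans_lt hr
  have eP : (2 ^ ws) ^ 9 = 2 ^ (9 * ws) := by rw [← pow_mul, mul_comm]
  obtain ⟨ch, hch⟩ : ∃ ch : ℕ → ℕ, ch = fun i => if i = 0 then a else if i = 1 then b else if i = 2 then d else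
    (b + d + od (2 ^ ws) E) - (a + od (2 ^ ws) (ofs 9 oe sv3)) := ⟨_, rfl⟩
  have c0 : ch 0 = a := by rw [hch]; simp
  have c1 : ch 1 = b := by rw [hch]; simp
  have c2 : ch 2 = d := by rw [hch]; simp
  have c3 : ch 3 = (b + d + od (2 ^ ws) E) - (a + od (2 ^ ws) (ofs 9 oe sv3)) := by rw [hch]; simp
  have hz : c.z (EF (2 ^ (9 * ws)) ch) = true := by
    have e0 : ∀ Q : ℕ, EF Q ch = (a + Q * b) + (Q ^ 4 * d + Q ^ 6 *
        ((b + d + od (2 ^ ws) E) - (a + od (2 ^ ws) (ofs 9 oe sv3)))) := by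
      intro Q
      unfold EF
      rw [c0, c1, c2, c3]
      ring
    rw [e0]
    exact h2
  have key := VC.z_ok hc (ch := ch) (by
    rw [← eP]
    exact lanes (by rw [c0]; exact ha) (by rw [c1]; exact hb) (by rw [c2]; exact hd) (by rw [c3]; exact hy)) hz
  have snd : ∀ i < 4, 0 ≤ ip (w3 z1 z2 z3) (dgs (2 ^ ws) 9 (ch i))
      - (2 ^ u : ℕ) * ip (w3 z1 z2 z3) (List.replicate 9 1) := by
    intro i hi
    obtain ⟨k1, A, D, F, b1, b3, cc1, cc3, e1, e3, k2, k3⟩ := key i hi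
    rw [k2] at k1 ⊢
    simp only [List.mem_cons, List.not_mem_nil, or_false, forall_eq_or_imp, forall_eq] at k1
    obtain ⟨_, _, _, g1, g2, g3, g4, _, _⟩ := k1
    rw [pow_succ] at g1 g2 g3 g4
    exact k3.sound (by omega) (by omega) (by omega) (by omega) z1 z2 z3
  have s0 := snd 0 (by norm_num)
  have s1 := snd 1 (by norm_num)
  have s2 := snd 2 (by norm_num)
  have s3 := snd 3 (by norm_num)
  rw [c0] at s0
  rw [c1] at s1
  rw [c2] at s2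
  refine ⟨s0, s1, s2, ?_⟩
  -- the digits of the fourth corner
  have da := (key 0 (by norm_num)).1
  have dy := (key 3 (by norm_num)).1
  rw [c0] at da
  have hch3 : ch 3 < (2 ^ ws) ^ 9 := by rw [c3]; exact hy
  have la : (dgs (2 ^ ws) 9 a).length = 9 := dgs_length _ _
  have ly : (dgs (2 ^ ws) 9 (ch 3)).length = 9 := dgs_length _ _
  have lc : (ofs 9 oe sv3).length = 9 := ofs_len kit oe
  have lac : (addN (dgs (2 ^ ws) 9 a) (ofs 9 oe sv3)).length = 9 := addN_length la lc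
  have ll : (addN (dgs (2 ^ ws) 9 (ch 3)) (addN (dgs (2 ^ ws) 9 a) (ofs 9 oe sv3))).length = 9 := addN_length ly lac
  have dc : ∀ x ∈ ofs 9 oe sv3, x ≤ oe + 5 := by
    intro x hx
    refine addN_le _ _ (b := oe) (b' := 5) ?_ ?_ x hx
    · intro y hy
      rw [List.eq_of_mem_replicate hy]
    · simp [sv3]
  have dl : ∀ x ∈ addN (dgs (2 ^ ws) 9 (ch 3)) (addN (dgs (2 ^ ws) 9 a) (ofs 9 oe sv3)), x < 2 ^ ws := by
    intro x hx
    have := addN_le _ _ (fun x hx => (dy x hx).le) (addN_le _ _ (fun x hx => (da x hx).le) dc) x hx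
    omega
  have h1' : a + od (2 ^ ws) (ofs 9 oe sv3) ≤ b + d + od (2 ^ ws) E := h1
  have eq : od (2 ^ ws) (addN (dgs (2 ^ ws) 9 (ch 3)) (addN (dgs (2 ^ ws) 9 a) (ofs 9 oe sv3)))
      = od (2 ^ ws) (addN (addN (dgs (2 ^ ws) 9 b) (dgs (2 ^ ws) 9 d)) E) := by
    rw [← er, od_addN _ _ _ (by rw [ly, lac]), od_addN _ _ _ (by rw [la, lc]), od_dgs 9 a ha, od_dgs 9 _ hch3, c3]
    omega
  have e9 := od_inj (by rw [ll, lr]) dl dr eq
  have e10 := congrArg (ip (w3 z1 z2 z3)) e9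
  rw [ip_addN _ _ _ (by rw [ly, lac]), ip_addN _ _ _ (by rw [la, lc]), ip_addN _ _ _ (by rw [lbd, lE]),
    ip_addN _ _ _ (by rw [lb, ld]), ip_ofs kit] at e10
  linarith

end Pool.Agent.FPX.PLK
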