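import Pool.Agent.FPX.PLI
/-!
PLJ (helper1). Rows of pairs with the vectorised test; the test of a table.
-/
set_option autoImplicit false

noncomputable section

namespace Pool.Agent.FPX.PLK

open List (Forall₂)

theorem prs4_ok {c : VC} {ws u q oe : ℕ} (hc : c.Ok ws u) (hg : c.Okg ws q oe) (z1 z2 z3 : ℂ) :
    ∀ (k xa xb xd xe : ℕ), prs4 c.t ((2 ^ ws) ^ 9) ((2 ^ q) ^ 9) k xa xb xd xe = true →
      (∀ x ∈ dgs (2 ^ ws) (9 * k) xb, x < 2 ^ (u + 1)) → (∀ x ∈ dgs (2 ^ ws) (9 * k) xd, x < 2 ^ (u + 1)) →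
      (∀ x ∈ dgs (2 ^ q) (9 * k) xe, x < 2 ^ (ws - 2)) → ∀ (s : ℝ) (D : List ℝ), 0 ≤ s → s ≤ 1 →
      D.length = k → Box D →
      0 ≤ ((rv (w3 z1 z2 z3) (2 ^ ws) 9 (List.replicate k 1) xa
            - k * ((2 ^ u : ℕ) * ip (w3 z1 z2 z3) (List.replicate 9 1)))
          + s * (rv (w3 z1 z2 z3) (2 ^ ws) 9 (List.replicate k 1) xb - rv (w3 z1 z2 z3) (2 ^ ws) 9 (List.replicate k 1) xa)
          + (rv (w3 z1 z2 z3) (2 ^ ws) 9 D xd - rv (w3 z1 z2 z3) (2 ^ ws) 9 D xa))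
        + s * (rv (w3 z1 z2 z3) (2 ^ q) 9 D xe
          - (oe * ip (w3 z1 z2 z3) (List.replicate 9 1) + ip (w3 z1 z2 z3) sv3) * D.sum)
  | 0, xa, xb, xd, xe, _, _, _, _, s, D, _, _, hl, _ => by
    rw [List.length_eq_zero_iff] at hl
    subst hl
    simp [rv, wf]
  | k + 1, xa, xb, xd, xe, h, _, _, _, s, [], _, _, hl, _ => by simp at hl
  | k + 1, xa, xb, xd, xe, h, db, dd, de, s, d :: D, hs, hs', hl, hD => by
    have kit := kit3 z1 z2 z3
    simp only [prs4, Bool.and_eq_true] at h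
    obtain ⟨h1, h2⟩ := h
    obtain ⟨⟨d0, d1⟩, hD'⟩ := hD.cons
    rw [show 9 * (k + 1) = 9 + 9 * k by ring, dgs_add] at db dd de
    have ih := prs4_ok hc hg z1 z2 z3 k _ _ _ _ h2 (fun x hx => db x (List.mem_append_right _ hx))
      (fun x hx => dd x (List.mem_append_right _ hx)) (fun x hx => de x (List.mem_append_right _ hx)) s D hs hs'
      (by simpa using hl) hD'
    have pw : 0 < (2 ^ ws) ^ 9 := by positivity
    have pq : 0 < (2 ^ q) ^ 9 := by positivity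
    obtain ⟨p1, p2, p3, p4⟩ := VC.t_ok hc hg (a := xa % (2 ^ ws) ^ 9) (b := xb % (2 ^ ws) ^ 9) (d := xd % (2 ^ ws) ^ 9)
      (e := xe % (2 ^ q) ^ 9) (Nat.mod_lt _ pw) (Nat.mod_lt _ pw) (Nat.mod_lt _ pw) (Nat.mod_lt _ pq)
      (fun x hx => db x (List.mem_append_left _ (by rwa [dgs_mod] at hx)))
      (fun x hx => dd x (List.mem_append_left _ (by rwa [dgs_mod] at hx)))
      (fun x hx => de x (List.mem_append_left _ (by rwa [dgs_mod] at hx))) h1 z1 z2 z3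
    have q1 := bil p1 p2 p3 p4 hs hs' d0 d1
    rw [List.replicate_succ, rv_cons kit.len, rv_cons kit.len, rv_cons kit.len, rv_cons kit.len, rv_cons kit.len,
      List.sum_cons]
    change 0 ≤ ((rv (w3 z1 z2 z3) (2 ^ ws) 9 (List.replicate k 1) (xa / (2 ^ ws) ^ 9)
            - k * ((2 ^ u : ℕ) * ip (w3 z1 z2 z3) (List.replicate 9 1)))
          + s * (rv (w3 z1 z2 z3) (2 ^ ws) 9 (List.replicate k 1) (xb / (2 ^ ws) ^ 9)
            - rv (w3 z1 z2 z3) (2 ^ ws) 9 (List.replicate k 1) (xa / (2 ^ ws) ^ 9))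
          + (rv (w3 z1 z2 z3) (2 ^ ws) 9 D (xd / (2 ^ ws) ^ 9) - rv (w3 z1 z2 z3) (2 ^ ws) 9 D (xa / (2 ^ ws) ^ 9)))
        + s * (rv (w3 z1 z2 z3) (2 ^ q) 9 D (xe / (2 ^ q) ^ 9)
          - (oe * ip (w3 z1 z2 z3) (List.replicate 9 1) + ip (w3 z1 z2 z3) sv3) * D.sum) at ih
    generalize ip (w3 z1 z2 z3) (dgs (2 ^ ws) 9 (xa % (2 ^ ws) ^ 9)) = va at q1 ⊢
    generalize ip (w3 z1 z2 z3) (dgs (2 ^ ws) 9 (xb % (2 ^ ws) ^ 9)) = vb at q1 ⊢
    generalize ip (w3 z1 z2 z3) (dgs (2 ^ ws) 9 (xd % (2 ^ ws) ^ 9)) = vd at q1 ⊢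
    generalize ip (w3 z1 z2 z3) (dgs (2 ^ q) 9 (xe % (2 ^ q) ^ 9)) = ve at q1 ⊢
    generalize rv (w3 z1 z2 z3) (2 ^ ws) 9 (List.replicate k 1) (xa / (2 ^ ws) ^ 9) = ra at ih ⊢
    generalize rv (w3 z1 z2 z3) (2 ^ ws) 9 (List.replicate k 1) (xb / (2 ^ ws) ^ 9) = rb at ih ⊢
    generalize rv (w3 z1 z2 z3) (2 ^ ws) 9 D (xd / (2 ^ ws) ^ 9) = rd at ih ⊢
    generalize rv (w3 z1 z2 z3) (2 ^ ws) 9 D (xa / (2 ^ ws) ^ 9) = ra' at ih ⊢
    generalize rv (w3 z1 z2 z3) (2 ^ q) 9 D (xe / (2 ^ q) ^ 9) = re at ih ⊢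
    generalize ip (w3 z1 z2 z3) (List.replicate 9 1) = i1 at q1 ih ⊢
    generalize ip (w3 z1 z2 z3) sv3 = i2 at q1 ih ⊢
    push_cast at q1 ih ⊢
    linarith

/-! ### rounding of a row -/

theorem dgs_shr {q s : ℕ} (hs : s ≤ q) : ∀ (n k X : ℕ), k ≤ n →
    dgs (2 ^ q) k ((X >>> s) &&& od (2 ^ q) (List.replicate n (2 ^ (q - s) - 1)))
      = (dgs (2 ^ q) k X).map fun x => x / 2 ^ s
  | _, 0, _, _ => by simp [dgs]
  | 0, _ + 1, _, h => by omega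
  | n + 1, k + 1, X, h => by
    have hp : 0 < 2 ^ q := by positivity
    have ha : X % 2 ^ q < 2 ^ q := Nat.mod_lt _ hp
    have e1 : (X >>> s) &&& od (2 ^ q) (List.replicate (n + 1) (2 ^ (q - s) - 1))
        = (X % 2 ^ q) / 2 ^ s + 2 ^ q * (((X / 2 ^ q) >>> s) &&& od (2 ^ q) (List.replicate n (2 ^ (q - s) - 1))) := by
      have h1 := shr_step (p := q) (s := s) (t := q - s) (by omega) ha (X / 2 ^ q)
        (od (2 ^ q) (List.replicate n (2 ^ (q - s) - 1)))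
      rw [Nat.mod_add_div] at h1
      rw [List.replicate_succ]
      change (X >>> s) &&& ((2 ^ (q - s) - 1) + 2 ^ q * od (2 ^ q) (List.replicate n (2 ^ (q - s) - 1))) = _
      rw [h1, Nat.shiftRight_eq_div_pow, Nat.mod_eq_of_lt]
      refine Nat.div_lt_of_lt_mul ?_
      rwa [← pow_add, Nat.add_sub_cancel' hs]
    have h2 : (X % 2 ^ q) / 2 ^ s < 2 ^ q := (Nat.div_le_self _ _).trans_lt ha
    simp only [dgs, List.map_cons]
    rw [e1]
    have e2 : Nat.mod ((X % 2 ^ q) / 2 ^ s + 2 ^ q * (((X / 2 ^ q) >>> s)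
        &&& od (2 ^ q) (List.replicate n (2 ^ (q - s) - 1)))) (2 ^ q) = (X % 2 ^ q) / 2 ^ s := by
      change ((X % 2 ^ q) / 2 ^ s + 2 ^ q * (((X / 2 ^ q) >>> s)
        &&& od (2 ^ q) (List.replicate n (2 ^ (q - s) - 1)))) % (2 ^ q) = (X % 2 ^ q) / 2 ^ s
      rw [Nat.add_mul_mod_self_left, Nat.mod_eq_of_lt h2]
    have e3 : Nat.div ((X % 2 ^ q) / 2 ^ s + 2 ^ q * (((X / 2 ^ q) >>> s)
        &&& od (2 ^ q) (List.replicate n (2 ^ (q - s) - 1)))) (2 ^ q)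
        = ((X / 2 ^ q) >>> s) &&& od (2 ^ q) (List.replicate n (2 ^ (q - s) - 1)) := by
      change ((X % 2 ^ q) / 2 ^ s + 2 ^ q * (((X / 2 ^ q) >>> s)
        &&& od (2 ^ q) (List.replicate n (2 ^ (q - s) - 1)))) / (2 ^ q) = _
      rw [Nat.add_mul_div_left _ _ hp, Nat.div_eq_of_lt h2, Nat.zero_add]
    rw [e2, e3, dgs_shr hs n k (X / 2 ^ q) (by omega)]
    rfl

theorem dgs_rep {B c : ℕ} (hc : c < B) : ∀ (n k : ℕ), k ≤ n →
    dgs B k (od B (List.replicate n c)) = List.replicate k c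
  | _, 0, _ => by simp [dgs]
  | 0, _ + 1, h => by omega
  | n + 1, k + 1, h => by
    have hB : 0 < B := by omega
    rw [List.replicate_succ, List.replicate_succ]
    simp only [dgs, od, Nat.add_eq, Nat.mul_eq]
    have e1 : Nat.mod (c + B * od B (List.replicate n c)) B = c := by
      change (c + B * od B (List.replicate n c)) % B = c
      rw [Nat.add_mul_mod_self_left, Nat.mod_eq_of_lt hc]
    have e2 : Nat.div (c + B * od B (List.replicate n c)) B = od B (List.replicate n c) := by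
      change (c + B * od B (List.replicate n c)) / B = _
      rw [Nat.add_mul_div_left _ _ hB, Nat.div_eq_of_lt hc, Nat.zero_add]
    rw [e1, e2, dgs_rep hc n k (by omega)]

theorem od_rep_mod {B c : ℕ} (hc : c < B) {n k : ℕ} (h : k ≤ n) :
    od B (List.replicate n c) % B ^ k = od B (List.replicate k c) := by
  have hB : 0 < B ^ k := Nat.pow_pos (by omega)
  rw [← od_dgs k (od B (List.replicate n c) % B ^ k) (Nat.mod_lt _ hB), dgs_mod, dgs_rep hc n k h]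

theorem dgs_addN {B b b' : ℕ} (hb : b + b' ≤ B) : ∀ (m X Y : ℕ), (∀ x ∈ dgs B m X, x < b) → (∀ x ∈ dgs B m Y, x < b') →
    dgs B m (X + Y) = addN (dgs B m X) (dgs B m Y)
  | 0, _, _, _, _ => by simp [dgs, addN]
  | m + 1, X, Y, h1, h2 => by
    simp only [dgs, List.mem_cons, forall_eq_or_imp] at h1 h2
    obtain ⟨a1, a2⟩ := h1
    obtain ⟨b1, b2⟩ := h2
    have a1' : X % B < b := a1
    have b1' : Y % B < b' := b1
    have hB : 0 < B := by omega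
    have ih := dgs_addN hb m (X / B) (Y / B) a2 b2
    have e0 : X + Y = (X % B + Y % B) + B * (X / B + Y / B) := by
      have := Nat.mod_add_div X B
      have := Nat.mod_add_div Y B
      rw [Nat.mul_add]
      omega
    have hlt : X % B + Y % B < B := by omega
    have e1 : Nat.mod (X + Y) B = X % B + Y % B := by
      change (X + Y) % B = _
      rw [e0, Nat.add_mul_mod_self_left, Nat.mod_eq_of_lt hlt]
    have e2 : Nat.div (X + Y) B = X / B + Y / B := by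
      change (X + Y) / B = _
      rw [e0, Nat.add_mul_div_left _ _ hB, Nat.div_eq_of_lt hlt, Nat.zero_add]
    unfold addN at ih ⊢
    simp only [dgs, List.zipWith_cons_cons]
    rw [e1, e2, ih]
    rfl

section kit

variable {K : ℕ} {w : List ℝ} {T : List ℕ → List ℕ → Bool} {sv : List ℕ}

/-- rounding of a row -/
theorem rv_floor (kit : Kit K w T sv) {S : ℕ} (hS : 0 < S) : ∀ (D : List ℝ) (l : List ℕ), Box D →
    l.length = K * D.length →
    S * (ip (wf w D) (l.map fun x => x / S) - ip w sv * D.sum) ≤ ip (wf w D) l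
  | [], l, _, hl => by simp [wf]
  | d :: D, l, hD, hl => by
    obtain ⟨⟨d0, d1⟩, hD'⟩ := hD.cons
    rw [List.length_cons, show K * (D.length + 1) = K + K * D.length by ring] at hl
    have t1 : (l.take K).length = K := by rw [List.length_take, hl]; omega
    have t2 : (l.drop K).length = K * D.length := by rw [List.length_drop, hl]; omega
    have ih := rv_floor kit hS D (l.drop K) hD' t2
    have h1 := kit.floor hS t1
    have e1 : ip (wf w (d :: D)) l = d * ip w (l.take K) + ip (wf w D) (l.drop K) := by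
      conv_lhs => rw [← List.take_append_drop K l]
      simp only [wf]
      rw [ip_append _ _ _ _ (by rw [List.length_map, kit.len, t1]), ip_smul]
    have e2 : ip (wf w (d :: D)) (l.map fun x => x / S)
        = d * ip w ((l.take K).map fun x => x / S) + ip (wf w D) ((l.drop K).map fun x => x / S) := by
      conv_lhs => rw [← List.take_append_drop K l]
      rw [List.map_append]
      simp only [wf]
      rw [ip_append _ _ _ _ (by rw [List.length_map, kit.len, List.length_map, t1]), ip_smul]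
    rw [e1, e2, List.sum_cons]
    have h2 := mul_le_mul_of_nonneg_left h1 d0
    linarith

end kit

/-- a row: `e0` the rounded coefficients with the offset of `cc` -/
def rowW (t : ℕ → ℕ → ℕ → ℕ → Bool) (CN CB MH k xa xb xd cc e0 : ℕ) : Bool :=
  Nat.ble cc e0 && (Nat.beq (Nat.land (Nat.sub e0 cc) MH) 0 && prs4 t CN CB k xa xb xd (Nat.sub e0 cc))

/-- a row: positive part `xe`, negative part `xf` of the coefficients -/
def rowV (t : ℕ → ℕ → ℕ → ℕ → Bool) (CN CB s Hn Cn MR MH k xa xb xd xe xf : ℕ) : Bool :=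
  rowW t CN CB MH k xa xb xd (Nat.mod Cn (Nat.pow CB k))
    (Nat.land (Nat.shiftRight (Nat.sub (Nat.add xe (Nat.mod Hn (Nat.pow CB k))) xf) s) MR)

theorem rowV_ok {c : VC} {ws u q oe s n : ℕ} (hc : c.Ok ws u) (hg : c.Okg ws q oe) (hs : s + 1 ≤ q)
    (hoe : oe ≤ 2 ^ (q - 1 - s)) (z1 z2 z3 : ℂ) {k xa xb xd xe xf eb : ℕ} (hk : k ≤ n)
    (h : rowV c.t ((2 ^ ws) ^ 9) ((2 ^ q) ^ 9) s (od (2 ^ q) (List.replicate (9 * n) (2 ^ (q - 1))))
      (od (2 ^ q) (List.replicate (9 * n) (2 ^ (q - 1 - s) - oe)))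
      (od (2 ^ q) (List.replicate (9 * n) (2 ^ (q - s) - 1))) (msk q (ws - 2) (9 * n)) k xa xb xd xe xf = true)
    (db : ∀ x ∈ dgs (2 ^ ws) (9 * k) xb, x < 2 ^ (u + 1)) (dd : ∀ x ∈ dgs (2 ^ ws) (9 * k) xd, x < 2 ^ (u + 1))
    {D : List ℝ} {r : ℝ} (hl : D.length = k) (hD : Box D) (hr : RR (2 ^ q) 9 (w3 z1 z2 z3) D ⟨xe, xf, eb⟩ r)
    (heb : eb < 2 ^ (q - 1)) {x : ℝ} (hx : 0 ≤ x) (hx' : x ≤ 1) :
      0 ≤ (2 ^ s : ℕ) * ((rv (w3 z1 z2 z3) (2 ^ ws) 9 (List.replicate k 1) xa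
            - k * ((2 ^ u : ℕ) * ip (w3 z1 z2 z3) (List.replicate 9 1)))
          + x * (rv (w3 z1 z2 z3) (2 ^ ws) 9 (List.replicate k 1) xb - rv (w3 z1 z2 z3) (2 ^ ws) 9 (List.replicate k 1) xa)
          + (rv (w3 z1 z2 z3) (2 ^ ws) 9 D xd - rv (w3 z1 z2 z3) (2 ^ ws) 9 D xa)) + x * r := by
  have kit := kit3 z1 z2 z3
  have hq := hg.hq
  have hw2 := hg.w2
  have q1 : 2 ^ q = 2 ^ (q - 1) + 2 ^ (q - 1) := by
    obtain ⟨j, rfl⟩ : ∃ j, q = j + 1 := ⟨q - 1, by omega⟩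
    rw [Nat.add_sub_cancel, pow_succ]
    ring
  have p0 : 0 < 2 ^ (q - 1) := by positivity
  have e9 : ((2 ^ q) ^ 9) ^ k = (2 ^ q) ^ (9 * k) := by rw [← pow_mul]
  have k9 : 9 * k ≤ 9 * n := by omega
  -- the offset
  obtain ⟨H, hH⟩ : ∃ H, H = od (2 ^ q) (List.replicate (9 * n) (2 ^ (q - 1))) % ((2 ^ q) ^ 9) ^ k := ⟨_, rfl⟩
  obtain ⟨cc, hcc⟩ : ∃ cc, cc = od (2 ^ q) (List.replicate (9 * n) (2 ^ (q - 1 - s) - oe)) % ((2 ^ q) ^ 9) ^ k := ⟨_, rfl⟩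
  have hcl : 2 ^ (q - 1 - s) - oe < 2 ^ q :=
    (Nat.sub_le _ _).trans_lt (Nat.pow_lt_pow_right (by norm_num) (by omega))
  have hH' : H = od (2 ^ q) (List.replicate (9 * D.length) (2 ^ (q - 1))) := by
    rw [hH, e9, hl, od_rep_mod (by omega) k9]
  have hcc' : dgs (2 ^ q) (9 * k) cc = List.replicate (9 * k) (2 ^ (q - 1 - s) - oe) := by
    rw [hcc, e9, dgs_mod, dgs_rep hcl _ _ k9]
  have hoff := off_ok kit.len hr (c := 2 ^ (q - 1)) heb.le (show eb + 2 ^ (q - 1) < 2 ^ q by omega) hH'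
  change r = rv (w3 z1 z2 z3) (2 ^ q) 9 D (xe + H - xf) - _ at hoff
  obtain ⟨X, hX⟩ : ∃ X, X = xe + H - xf := ⟨_, rfl⟩
  rw [← hX] at hoff
  -- rounding
  obtain ⟨e0, he0⟩ : ∃ e0, e0 = (X >>> s) &&& od (2 ^ q) (List.replicate (9 * n) (2 ^ (q - s) - 1)) := ⟨_, rfl⟩
  have hsh : dgs (2 ^ q) (9 * k) e0 = (dgs (2 ^ q) (9 * k) X).map fun x => x / 2 ^ s := by
    rw [he0, dgs_shr (by omega) _ _ _ k9]
  have h' : rowW c.t ((2 ^ ws) ^ 9) ((2 ^ q) ^ 9) (msk q (ws - 2) (9 * n)) k xa xb xd cc e0 = true := by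
    rw [he0, hX, hH, hcc]
    exact h
  simp only [rowW, Bool.and_eq_true, Nat.ble_eq] at h'
  obtain ⟨h1, h2, h3⟩ := h'
  have h2 := Nat.eq_of_beq_eq_true h2
  obtain ⟨e2, he2⟩ : ∃ e2, e2 = e0 - cc := ⟨_, rfl⟩
  change Nat.land (e0 - cc) _ = 0 at h2
  change prs4 _ _ _ _ _ _ _ (e0 - cc) = true at h3
  rw [← he2] at h2 h3
  have de2 : ∀ x ∈ dgs (2 ^ q) (9 * k) e2, x < 2 ^ (ws - 2) := msk_ok (by omega) (9 * n) (9 * k) e2 k9 h2
  have hsum : e2 + cc = e0 := by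
    rw [he2]
    omega
  have hdg : dgs (2 ^ q) (9 * k) e0 = addN (dgs (2 ^ q) (9 * k) e2) (dgs (2 ^ q) (9 * k) cc) := by
    rw [← hsum]
    refine dgs_addN (b := 2 ^ (ws - 2)) (b' := 2 ^ (q - 1) + 1) ?_ _ _ _ de2 ?_
    · have : 2 ^ (ws - 2) < 2 ^ (q - 1) := Nat.pow_lt_pow_right (by norm_num) (by omega)
      omega
    · intro x hx
      rw [hcc'] at hx
      rw [List.eq_of_mem_replicate hx]
      have : 2 ^ (q - 1 - s) ≤ 2 ^ (q - 1) := Nat.pow_le_pow_right (by norm_num) (by omega)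
      omega
  have hp := prs4_ok hc hg z1 z2 z3 k xa xb xd e2 h3 db dd de2 x D hx hx' hl hD
  -- values
  have v1 : rv (w3 z1 z2 z3) (2 ^ q) 9 D e0 = rv (w3 z1 z2 z3) (2 ^ q) 9 D e2
      + ((2 ^ (q - 1 - s) - oe : ℕ) : ℝ) * ip (w3 z1 z2 z3) (List.replicate 9 1) * D.sum := by
    unfold rv
    rw [hl, hdg, ip_addN _ _ _ (by rw [dgs_length, dgs_length]), hcc', ← hl, wf_rep kit.len]
  have v2 := rv_floor kit (S := 2 ^ s) (by positivity) D (dgs (2 ^ q) (9 * k) X) hD (by rw [dgs_length, hl])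
  rw [← hsh] at v2
  have v3 : rv (w3 z1 z2 z3) (2 ^ q) 9 D e0 = ip (wf (w3 z1 z2 z3) D) (dgs (2 ^ q) (9 * k) e0) := by
    unfold rv
    rw [hl]
  have v4 : rv (w3 z1 z2 z3) (2 ^ q) 9 D X = ip (wf (w3 z1 z2 z3) D) (dgs (2 ^ q) (9 * k) X) := by
    unfold rv
    rw [hl]
  rw [← v3, ← v4, v1] at v2
  have v5 : ((2 ^ s : ℕ) : ℝ) * ((2 ^ (q - 1 - s) - oe : ℕ) : ℝ) = ((2 ^ (q - 1) : ℕ) : ℝ) - (2 ^ s : ℕ) * oe := by
    rw [Nat.cast_sub hoe, mul_sub, ← Nat.cast_mul, ← pow_add, show s + (q - 1 - s) = q - 1 by omega]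
  have v6 : (2 ^ s : ℕ) * (rv (w3 z1 z2 z3) (2 ^ q) 9 D e2
      - (oe * ip (w3 z1 z2 z3) (List.replicate 9 1) + ip (w3 z1 z2 z3) sv3) * D.sum) ≤ r := by
    rw [hoff]
    generalize rv (w3 z1 z2 z3) (2 ^ q) 9 D e2 = A at v2 ⊢
    generalize rv (w3 z1 z2 z3) (2 ^ q) 9 D X = B at v2 ⊢
    generalize ip (w3 z1 z2 z3) (List.replicate 9 1) = i1 at v2 ⊢
    generalize ip (w3 z1 z2 z3) sv3 = i2 at v2 ⊢
    have e : ((2 ^ s : ℕ) : ℝ) * (A + ((2 ^ (q - 1 - s) - oe : ℕ) : ℝ) * i1 * D.sum - i2 * D.sum)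
        = (2 ^ s : ℕ) * A + (((2 ^ s : ℕ) : ℝ) * ((2 ^ (q - 1 - s) - oe : ℕ) : ℝ)) * i1 * D.sum
          - (2 ^ s : ℕ) * (i2 * D.sum) := by ring
    rw [e, v5] at v2
    linarith
  have v7 := mul_le_mul_of_nonneg_left v6 hx
  have v8 := mul_nonneg (Nat.cast_nonneg (α := ℝ) (2 ^ s)) hp
  generalize rv (w3 z1 z2 z3) (2 ^ q) 9 D e2 = A at v7 v8
  linarith

end Pool.Agent.FPX.PLK
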