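import Mathlib
/-!
PLK (helper1). Nonnegativity of a Hermitian valued quadratic form on a box, certified by a low rank positive part,
multipliers of linear equations and, for every pair of variables, the four corner values of a bilinear form.

`V` is the type of the coefficients (Hermitian matrices with integer entries), `φ : V → ℝ` the evaluation
`X ↦ z* X z`. A quadratic form in `D = (D₀, .., D_N)` is given by the rows of its upper triangle.
-/
set_option autoImplicit false

namespace Pool.Agent.FPX.PLK

/-- operations on the coefficients -/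
structure Op (V : Type) where
  z : V
  add : V → V → V
  sub : V → V → V
  sm : ℤ → V → V
  psd : V → Bool

/-- an evaluation, linear and nonnegative on the tested coefficients -/
structure Ev {V : Type} (O : Op V) (φ : V → ℝ) : Prop where
  z : φ O.z = 0
  add : ∀ a b, φ (O.add a b) = φ a + φ b
  sub : ∀ a b, φ (O.sub a b) = φ a - φ b
  sm : ∀ (c : ℤ) a, φ (O.sm c a) = c * φ a
  psd : ∀ a, O.psd a = true → 0 ≤ φ a

variable {V : Type}

/-! ### the test -/

/-- one row of pairs: `ls` linear coefficients, `es` coefficients of the products, data `V₀₀, V₁₀, V₀₁` -/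
def goRow (O : Op V) : List V → List V → List V → V → V → (V → V → List V → Bool) → Bool
  | [], [], [], c, l, k => k c l []
  | m :: ms, e :: es, a :: b :: d :: ds, c, l, k =>
    O.psd a && (O.psd b && (O.psd d && (O.psd (O.add (O.sub (O.add b d) a) e) &&
      goRow O ms es ds (O.sub c a) (O.sub l (O.sub b a)) fun c' l' ms' => k c' l' (O.sub m (O.sub d a) :: ms'))))
  | _, _, _, _, _, _ => false

/-- all rows -/
def go (O : Op V) : List V → List (List V) → List (List V) → V → Bool
  | [], [], [], c => O.psd c
  | l :: ls, (e :: es) :: rs, (a :: ds) :: dt, c =>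
    goRow O ls es ds c l fun c' l' ls' =>
      O.psd a && (O.psd (O.add (O.add a l') e) && (O.psd (O.add (O.add a a) l') && go O ls' rs dt (O.sub c' a)))
  | _, _, _, _ => false

/-! ### evaluation of forms -/

/-- linear form with coefficients in `V` -/
def lv (φ : V → ℝ) : List V → List ℝ → ℝ
  | v :: l, d :: D => φ v * d + lv φ l D
  | _, _ => 0

/-- linear form with integer coefficients -/
def lz : List ℤ → List ℝ → ℝ
  | v :: l, d :: D => v * d + lz l D
  | _, _ => 0

/-- quadratic form with coefficients in `V`, rows of the upper triangle -/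
def qv (φ : V → ℝ) : List (List V) → List ℝ → ℝ
  | r :: rs, d :: D => d * lv φ r (d :: D) + qv φ rs D
  | _, _ => 0

/-- quadratic form with integer coefficients, rows of the upper triangle -/
def qz : List (List ℤ) → List ℝ → ℝ
  | r :: rs, d :: D => d * lz r (d :: D) + qz rs D
  | _, _ => 0

@[simp] theorem lv_nil (φ : V → ℝ) (D : List ℝ) : lv φ [] D = 0 := by cases D <;> rfl

@[simp] theorem lz_nil (D : List ℝ) : lz [] D = 0 := by cases D <;> rfl

@[simp] theorem qv_nil (φ : V → ℝ) (D : List ℝ) : qv φ [] D = 0 := by cases D <;> rfl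

@[simp] theorem qz_nil (D : List ℝ) : qz [] D = 0 := by cases D <;> rfl

@[simp] theorem lv_nil' (φ : V → ℝ) (l : List V) : lv φ l [] = 0 := by cases l <;> rfl

@[simp] theorem lz_nil' (l : List ℤ) : lz l [] = 0 := by cases l <;> rfl

@[simp] theorem qv_nil' (φ : V → ℝ) (l : List (List V)) : qv φ l [] = 0 := by cases l <;> rfl

@[simp] theorem qz_nil' (l : List (List ℤ)) : qz l [] = 0 := by cases l <;> rfl

@[simp] theorem lv_cons (φ : V → ℝ) (v : V) (l : List V) (d : ℝ) (D : List ℝ) :
    lv φ (v :: l) (d :: D) = φ v * d + lv φ l D := rfl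

@[simp] theorem lz_cons (v : ℤ) (l : List ℤ) (d : ℝ) (D : List ℝ) : lz (v :: l) (d :: D) = v * d + lz l D := rfl

@[simp] theorem qv_cons (φ : V → ℝ) (r : List V) (l : List (List V)) (d : ℝ) (D : List ℝ) :
    qv φ (r :: l) (d :: D) = d * lv φ r (d :: D) + qv φ l D := rfl

@[simp] theorem qz_cons (r : List ℤ) (l : List (List ℤ)) (d : ℝ) (D : List ℝ) :
    qz (r :: l) (d :: D) = d * lz r (d :: D) + qz l D := rfl

/-- the box `[0, 1]` -/
def Box (D : List ℝ) : Prop := ∀ d ∈ D, 0 ≤ d ∧ d ≤ 1

theorem Box.cons {d : ℝ} {D : List ℝ} (h : Box (d :: D)) : (0 ≤ d ∧ d ≤ 1) ∧ Box D :=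
  ⟨h d (by simp), fun x hx => h x (by simp [hx])⟩

/-! ### soundness of the test -/

variable {O : Op V} {φ : V → ℝ}

theorem bil {a b d w s t : ℝ} (ha : 0 ≤ a) (hb : 0 ≤ b) (hd : 0 ≤ d) (hw : 0 ≤ w) (hs : 0 ≤ s) (hs' : s ≤ 1)
    (ht : 0 ≤ t) (ht' : t ≤ 1) : 0 ≤ a * ((1 - s) * (1 - t)) + b * (s * (1 - t)) + d * ((1 - s) * t) + w * (s * t) := by
  have h1 : 0 ≤ 1 - s := by linarith
  have h2 : 0 ≤ 1 - t := by linarith
  positivity

theorem goRow_sound (E : Ev O φ) : ∀ (ls es ds : List V) (c l : V) (k : V → V → List V → Bool),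
    goRow O ls es ds c l k = true → ∃ c' l' ls', k c' l' ls' = true ∧ ls'.length = ls.length ∧ ∀ (s : ℝ) (D : List ℝ), 0 ≤ s → s ≤ 1 → Box D →
      D.length = ls.length → φ c' + φ l' * s + lv φ ls' D ≤ φ c + φ l * s + lv φ ls D + s * lv φ es D
  | [], [], [], c, l, k, h => ⟨c, l, [], h, rfl, fun s D _ _ _ _ => by simp⟩
  | m :: ms, e :: es, a :: b :: d :: ds, c, l, k, h => by
    simp only [goRow, Bool.and_eq_true] at h
    obtain ⟨ha, hb, hd, hw, h⟩ := h
    obtain ⟨c', l', ls', hk, hn, hh⟩ := goRow_sound E ms es ds _ _ _ h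
    refine ⟨c', l', _, hk, by simp [hn], fun s D hs hs' hD hl => ?_⟩
    cases D with
    | nil => simp at hl
    | cons t D =>
      obtain ⟨⟨ht, ht'⟩, hD'⟩ := hD.cons
      have h1 := hh s D hs hs' hD' (by simpa using hl)
      have h2 := bil (E.psd _ ha) (E.psd _ hb) (E.psd _ hd) (E.psd _ hw) hs hs' ht ht'
      simp only [E.add, E.sub] at h1 h2
      simp only [lv_cons, E.sub]
      nlinarith
  | [], [], _ :: _, _, _, _, h => by simp [goRow] at h
  | [], _ :: _, _, _, _, _, h => by simp [goRow] at h
  | _ :: _, [], _, _, _, _, h => by simp [goRow] at h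
  | _ :: _, _ :: _, [], _, _, _, h => by simp [goRow] at h
  | _ :: _, _ :: _, [_], _, _, _, h => by simp [goRow] at h
  | _ :: _, _ :: _, [_, _], _, _, _, h => by simp [goRow] at h

theorem go_sound (E : Ev O φ) : ∀ (rs dt : List (List V)) (ls : List V) (c : V), go O ls rs dt c = true →
    ∀ D : List ℝ, Box D → D.length = ls.length → 0 ≤ φ c + lv φ ls D + qv φ rs D
  | [], [], [], c, h, D, _, hl => by
    have h1 := E.psd _ (by simpa [go] using h)
    simpa using h1
  | (e :: es) :: rs, (a :: ds) :: dt, l :: ls, c, h, D, hD, hl => by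
    simp only [go] at h
    obtain ⟨c', l', ls', hk, hn, hh⟩ := goRow_sound E ls es ds c l _ h
    simp only [Bool.and_eq_true] at hk
    obtain ⟨k1, k2, k3, k4⟩ := hk
    cases D with
    | nil => simp at hl
    | cons s D =>
      obtain ⟨⟨hs, hs'⟩, hD'⟩ := hD.cons
      have hl' : D.length = ls.length := by simpa using hl
      have h1 := hh s D hs hs' hD' hl'
      have h2 := go_sound E rs dt ls' _ k4 D hD' (hl'.trans hn.symm)
      have q1 := E.psd _ k1
      have q2 := E.psd _ k2
      have q3 := E.psd _ k3
      simp only [E.add, E.sub] at q2 q3 h2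
      have h3 : 0 ≤ 1 - s := by linarith
      have h4 : 0 ≤ φ a * ((1 - s) * (1 - s)) + (φ a + φ l' + φ e) * (s * s)
          + (φ a + φ a + φ l') * (s * (1 - s)) := by positivity
      simp only [lv_cons, qv_cons]
      nlinarith
  | [], _ :: _, _, _, h, _, _, _ => by simp [go] at h
  | [], [], _ :: _, _, h, _, _, _ => by simp [go] at h
  | [] :: _, _, _, _, h, _, _, _ => by simp [go] at h
  | _ :: _, [], _, _, h, _, _, _ => by simp [go] at h
  | _ :: _, [] :: _, _, _, h, _, _, _ => by simp [go] at h
  | (_ :: _) :: _, (_ :: _) :: _, [], _, h, _, _, _ => by simp [go] at h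

/-! ### assembly of the form -/

/-- sum of two rows -/
def addL (O : Op V) : List V → List V → List V
  | a :: l, b :: m => O.add a b :: addL O l m
  | [], m => m
  | l, [] => l

/-- sum of two forms -/
def addR (O : Op V) : List (List V) → List (List V) → List (List V)
  | a :: l, b :: m => addL O a b :: addR O l m
  | [], m => m
  | l, [] => l

/-- integer row times a coefficient -/
def smL (O : Op V) (c : V) (l : List ℤ) : List V := l.map fun x => O.sm x c

/-- integer form times a coefficient -/
def smR (O : Op V) (c : V) (l : List (List ℤ)) : List (List V) := l.map (smL O c)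

/-- product of an integer linear form and a linear form with coefficients in `V` -/
def prR (O : Op V) : List ℤ → List V → List (List V)
  | a :: l, v :: m => (O.sm a v :: addL O (m.map (O.sm a)) (smL O v l)) :: prR O l m
  | _, _ => []

/-- linear combination of integer linear forms with coefficients in `V` -/
def cmb (O : Op V) : List V → List (List ℤ) → List V
  | g :: G, l :: L => addL O (smL O g l) (cmb O G L)
  | _, _ => []

/-- substitution of integer linear forms in a form -/
def sbR (O : Op V) : List (List V) → List (List ℤ) → List (List V)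
  | g :: G, l :: L => addR O (prR O l (cmb O g (l :: L))) (sbR O G L)
  | _, _ => []

/-- values of linear forms -/
def vals (L : List (List ℤ)) (D : List ℝ) : List ℝ := L.map fun l => lz l D

theorem lv_addL (E : Ev O φ) : ∀ (l m : List V) (D : List ℝ), lv φ (addL O l m) D = lv φ l D + lv φ m D
  | a :: l, b :: m, d :: D => by
    simp only [addL, lv_cons, E.add, lv_addL E l m D]
    ring
  | _, _, [] => by simp
  | [], m, D => by cases m <;> simp [addL]
  | a :: l, [], D => by simp [addL]

theorem qv_addR (E : Ev O φ) : ∀ (l m : List (List V)) (D : List ℝ), qv φ (addR O l m) D = qv φ l D + qv φ m D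
  | a :: l, b :: m, d :: D => by
    simp only [addR, qv_cons, lv_addL E, qv_addR E l m D]
    ring
  | _, _, [] => by simp
  | [], m, D => by cases m <;> simp [addR]
  | a :: l, [], D => by simp [addR]

theorem lv_smL (E : Ev O φ) (c : V) : ∀ (l : List ℤ) (D : List ℝ), lv φ (smL O c l) D = φ c * lz l D
  | a :: l, d :: D => by
    have := lv_smL E c l D
    unfold smL at this ⊢
    simp only [List.map_cons, lv_cons, lz_cons, E.sm, this]
    ring
  | [], D => by simp [smL]
  | _, [] => by simp

theorem qv_smR (E : Ev O φ) (c : V) : ∀ (l : List (List ℤ)) (D : List ℝ), qv φ (smR O c l) D = φ c * qz l D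
  | a :: l, d :: D => by
    have := qv_smR E c l D
    unfold smR at this ⊢
    simp only [List.map_cons, qv_cons, qz_cons, lv_smL E, this]
    ring
  | [], D => by simp [smR]
  | _, [] => by simp

theorem lv_map (E : Ev O φ) (a : ℤ) : ∀ (m : List V) (D : List ℝ), lv φ (m.map (O.sm a)) D = a * lv φ m D
  | v :: m, d :: D => by
    simp only [List.map_cons, lv_cons, E.sm, lv_map E a m D]
    ring
  | [], D => by simp
  | _, [] => by simp

theorem qv_prR (E : Ev O φ) : ∀ (l : List ℤ) (m : List V) (D : List ℝ), qv φ (prR O l m) D = lz l D * lv φ m D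
  | a :: l, v :: m, d :: D => by
    simp only [prR, qv_cons, lv_cons, lz_cons, lv_addL E, lv_smL E, lv_map E, E.sm, qv_prR E l m D]
    ring
  | [], m, D => by simp [prR]
  | a :: l, [], D => by simp [prR]
  | _, _, [] => by simp

theorem lv_cmb (E : Ev O φ) : ∀ (G : List V) (L : List (List ℤ)) (D : List ℝ),
    lv φ (cmb O G L) D = lv φ G (vals L D)
  | g :: G, l :: L, D => by
    have := lv_cmb E G L D
    unfold vals at this ⊢
    simp only [cmb, lv_addL E, lv_smL E, List.map_cons, lv_cons, this]
  | [], L, D => by simp [cmb]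
  | g :: G, [], D => by simp [cmb, vals]

theorem qv_sbR (E : Ev O φ) : ∀ (G : List (List V)) (L : List (List ℤ)) (D : List ℝ),
    qv φ (sbR O G L) D = qv φ G (vals L D)
  | g :: G, l :: L, D => by
    have := qv_sbR E G L D
    have h2 := lv_cmb E g (l :: L) D
    unfold vals at this h2 ⊢
    simp only [sbR, qv_addR E, qv_prR E, List.map_cons, qv_cons, this] at h2 ⊢
    rw [h2]
  | [], L, D => by simp [sbR]
  | g :: G, [], D => by simp [sbR, vals]

/-- integer multiple of a form with coefficients in `V` -/
def msR (O : Op V) (c : ℤ) (l : List (List V)) : List (List V) := l.map fun r => r.map (O.sm c)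

theorem qv_msR (E : Ev O φ) (c : ℤ) : ∀ (l : List (List V)) (D : List ℝ), qv φ (msR O c l) D = c * qv φ l D
  | a :: l, d :: D => by
    have := qv_msR E c l D
    unfold msR at this ⊢
    simp only [List.map_cons, qv_cons, lv_map E, this]
    ring
  | [], D => by simp [msR]
  | _, [] => by simp

/-! ### squares -/

/-- vectors and their products -/
structure Sq (W V : Type) where
  one : W → V
  two : W → W → V

/-- evaluation of vectors: `φ (one u) = |ψ u|²`, `φ (two u v) = 2 Re (conj (ψ u) ψ v)` -/
structure Es {W V : Type} (S : Sq W V) (φ : V → ℝ) (ψ : W → ℂ) : Prop where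
  one : ∀ u, φ (S.one u) = Complex.normSq (ψ u)
  two : ∀ u v, φ (S.two u v) = 2 * ((starRingEnd ℂ) (ψ u) * ψ v).re

variable {W : Type} {S : Sq W V} {ψ : W → ℂ}

/-- the form `|∑ x_a ψ(u_a)|²` -/
def gram (S : Sq W V) : List W → List (List V)
  | u :: us => (S.one u :: us.map (S.two u)) :: gram S us
  | [] => []

/-- `∑ x_a ψ(u_a)` -/
def lc (ψ : W → ℂ) : List W → List ℝ → ℂ
  | u :: us, x :: X => ψ u * x + lc ψ us X
  | _, _ => 0

theorem lv_two (H : Es S φ ψ) (u : W) : ∀ (us : List W) (X : List ℝ),
    lv φ (us.map (S.two u)) X = 2 * ((starRingEnd ℂ) (ψ u) * lc ψ us X).re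
  | v :: us, x :: X => by
    simp only [List.map_cons, lv_cons, lc, H.two, lv_two H u us X, mul_add, Complex.add_re]
    rw [show (starRingEnd ℂ) (ψ u) * (ψ v * (x : ℂ)) = (starRingEnd ℂ) (ψ u) * ψ v * (x : ℂ) by ring,
      Complex.re_mul_ofReal]
    ring
  | [], X => by simp [lc]
  | _ :: _, [] => by simp [lc]

theorem qv_gram (H : Es S φ ψ) : ∀ (us : List W) (X : List ℝ), qv φ (gram S us) X = Complex.normSq (lc ψ us X)
  | u :: us, x :: X => by
    simp only [gram, qv_cons, lv_cons, H.one, lv_two H, lc, qv_gram H us X, Complex.normSq_add,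
      Complex.normSq_mul, Complex.normSq_ofReal]
    rw [show (ψ u * (x : ℂ) * (starRingEnd ℂ) (lc ψ us X)).re
      = x * ((starRingEnd ℂ) (ψ u) * lc ψ us X).re by
        simp only [Complex.mul_re, Complex.mul_im, Complex.conj_re, Complex.conj_im, Complex.ofReal_re,
          Complex.ofReal_im]
        ring]
    ring
  | [], X => by simp [gram, lc]
  | _ :: _, [] => by simp [lc]

/-- minus a sum of weighted squares -/
def grams (O : Op V) (S : Sq W V) : List (ℕ × List W) → List (List V)
  | p :: l => addR O (msR O (-(p.1 : ℤ)) (gram S p.2)) (grams O S l)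
  | [] => []

theorem grams_nonpos (E : Ev O φ) (H : Es S φ ψ) (X : List ℝ) : ∀ l : List (ℕ × List W),
    qv φ (grams O S l) X ≤ 0
  | p :: l => by
    simp only [grams, qv_addR E, qv_msR E, qv_gram H]
    have h1 := grams_nonpos E H X l
    have h2 := Complex.normSq_nonneg (lc ψ p.2 X)
    have h3 : (0 : ℝ) ≤ (p.1 : ℝ) := Nat.cast_nonneg _
    push_cast
    nlinarith [mul_nonneg h3 h2]
  | [] => by simp [grams]

/-! ### the certificate -/

/-- sum of integer forms with coefficients -/
def fR (O : Op V) : List (V × List (List ℤ)) → List (List V)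
  | p :: l => addR O (smR O p.1 p.2) (fR O l)
  | [] => []

/-- sum of products of linear forms -/
def pR (O : Op V) : List (List ℤ × List V) → List (List V)
  | p :: l => addR O (prR O p.1 p.2) (pR O l)
  | [] => []

/-- value of the form -/
def fS (φ : V → ℝ) (l : List (V × List (List ℤ))) (D : List ℝ) : ℝ := (l.map fun p => φ p.1 * qz p.2 D).sum

/-- value of the products -/
def pS (φ : V → ℝ) (l : List (List ℤ × List V)) (D : List ℝ) : ℝ := (l.map fun p => lz p.1 D * lv φ p.2 D).sum

theorem qv_fR (E : Ev O φ) (D : List ℝ) : ∀ l : List (V × List (List ℤ)), qv φ (fR O l) D = fS φ l D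
  | p :: l => by
    have := qv_fR E D l
    unfold fS at this ⊢
    simp only [fR, qv_addR E, qv_smR E, List.map_cons, List.sum_cons, this]
  | [] => by simp [fR, fS]

theorem qv_pR (E : Ev O φ) (D : List ℝ) : ∀ l : List (List ℤ × List V), qv φ (pR O l) D = pS φ l D
  | p :: l => by
    have := qv_pR E D l
    unfold pS at this ⊢
    simp only [pR, qv_addR E, qv_prR E, List.map_cons, List.sum_cons, this]
  | [] => by simp [pR, pS]

/-- the test of a table of coefficients, `N` variables -/
def fin (O : Op V) (N : ℕ) : List (List V) → List (List V) → Bool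
  | (c :: ls) :: rs, dt => Nat.beq ls.length N && go O ls rs dt c
  | _, _ => false

/-- the complete test: forms `F`, products `P`, squares `G` in the linear forms `L`, data `dt` -/
def chk (O : Op V) (S : Sq W V) (N : ℕ) (F : List (V × List (List ℤ))) (P : List (List ℤ × List V))
    (G : List (ℕ × List W)) (L : List (List ℤ)) (dt : List (List V)) : Bool :=
  fin O N (addR O (fR O F) (addR O (pR O P) (sbR O (grams O S G) L))) dt

theorem fin_sound (E : Ev O φ) {N : ℕ} {R dt : List (List V)} (h : fin O N R dt = true) {D : List ℝ} (hD : Box D)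
    (hl : D.length = N) : 0 ≤ qv φ R (1 :: D) := by
  match R, h with
  | (c :: ls) :: rs, h =>
    simp only [fin, Bool.and_eq_true] at h
    obtain ⟨hn, h⟩ := h
    have hn' := Nat.eq_of_beq_eq_true hn
    have h1 := go_sound E rs dt ls c h D hD (hl.trans hn'.symm)
    simp only [qv_cons, lv_cons, mul_one, one_mul]
    exact h1

/-- **soundness**: on the box `[0, 1]^N` the form plus the products is nonnegative -/
theorem cert (E : Ev O φ) (H : Es S φ ψ) {N : ℕ} {F : List (V × List (List ℤ))} {P : List (List ℤ × List V)}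
    {G : List (ℕ × List W)} {L : List (List ℤ)} {dt : List (List V)} (h : chk O S N F P G L dt = true)
    {D : List ℝ} (hD : Box D) (hl : D.length = N) : 0 ≤ fS φ F (1 :: D) + pS φ P (1 :: D) := by
  have h1 := fin_sound E h hD hl
  rw [qv_addR E, qv_addR E, qv_fR E, qv_pR E, qv_sbR E] at h1
  have h2 := grams_nonpos E H (vals L (1 :: D)) G
  linarith

end Pool.Agent.FPX.PLK
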