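import Pool.Agent.FPX.PLP
/-!
PLL (helper1). Rows of the linear forms with natural numbers.
-/
set_option autoImplicit false

noncomputable section

namespace Pool.Agent.FPX.PLK

open List (Forall₂)

/-- difference of two natural numbers -/
structure PN where
  p : ℕ
  n : ℕ

def PN.z (x : PN) : ℤ := (x.p : ℤ) - x.n

def PN.add : PN → PN → PN
  | ⟨p, n⟩, ⟨p', n'⟩ => ⟨Nat.add p p', Nat.add n n'⟩

def PN.sm : ℤ → PN → PN
  | Int.ofNat a, ⟨p, n⟩ => ⟨Nat.mul a p, Nat.mul a n⟩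
  | Int.negSucc a, ⟨p, n⟩ => ⟨Nat.mul (Nat.succ a) n, Nat.mul (Nat.succ a) p⟩

def PN.ad : ℤ → PN → PN
  | Int.ofNat a, ⟨p, n⟩ => ⟨Nat.add a p, n⟩
  | Int.negSucc a, ⟨p, n⟩ => ⟨p, Nat.add (Nat.succ a) n⟩

/-- smallest representation -/
def PN.nrm : PN → PN
  | ⟨p, n⟩ => ⟨Nat.sub p n, Nat.sub n p⟩

/-- `x - 2 l`, reduced -/
def PN.st (l : ℤ) (x : PN) : PN := PN.nrm (PN.add x (PN.sm l ⟨0, 2⟩))

/-- `h (x - y)` as a packed scalar -/
def PN.en (h : ℕ) : PN → PN → PV
  | ⟨p, n⟩, ⟨p', n'⟩ =>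
    let u := Nat.mul h (Nat.sub (Nat.add p n') (Nat.add n p'))
    let v := Nat.mul h (Nat.sub (Nat.add n p') (Nat.add p n'))
    ⟨u, v, Nat.add u v⟩

/-- as a packed scalar -/
def PN.pv : PN → PV
  | ⟨p, n⟩ => ⟨Nat.sub p n, Nat.sub n p, Nat.add (Nat.sub p n) (Nat.sub n p)⟩

theorem PN.add_z (x y : PN) : (x.add y).z = x.z + y.z := by
  obtain ⟨p, n⟩ := x
  obtain ⟨p', n'⟩ := y
  simp only [PN.add, PN.z, Nat.add_eq]
  push_cast
  ring

theorem PN.sm_z (a : ℤ) (x : PN) : (PN.sm a x).z = a * x.z := by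
  obtain ⟨p, n⟩ := x
  cases a with
  | ofNat a =>
    simp only [PN.sm, PN.z, Nat.mul_eq, Int.ofNat_eq_natCast]
    push_cast
    ring
  | negSucc a =>
    simp only [PN.sm, PN.z, Nat.mul_eq, Int.negSucc_eq]
    push_cast
    ring

theorem PN.ad_z (a : ℤ) (x : PN) : (PN.ad a x).z = a + x.z := by
  obtain ⟨p, n⟩ := x
  cases a with
  | ofNat a =>
    simp only [PN.ad, PN.z, Nat.add_eq, Int.ofNat_eq_natCast]
    push_cast
    ring
  | negSucc a =>
    simp only [PN.ad, PN.z, Nat.add_eq, Int.negSucc_eq]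
    push_cast
    ring

theorem sub_sub_z (p n : ℕ) : ((p - n : ℕ) : ℤ) - ((n - p : ℕ) : ℤ) = (p : ℤ) - n := by omega

theorem PN.nrm_z (x : PN) : x.nrm.z = x.z := by
  obtain ⟨p, n⟩ := x
  exact sub_sub_z p n

theorem PN.st_z (l : ℤ) (x : PN) : (PN.st l x).z = x.z - 2 * l := by
  unfold PN.st
  rw [PN.nrm_z, PN.add_z, PN.sm_z]
  simp only [PN.z]
  push_cast
  ring

theorem pkZ_eq (z : ℤ) (u v : ℕ) (h : (u : ℤ) - v = z) (h0 : u = 0 ∨ v = 0) : (⟨u, v, Nat.add u v⟩ : PV) = pkZ z := by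
  rcases h0 with rfl | rfl
  · cases v with
    | zero =>
      have : z = Int.ofNat 0 := by
        rw [← h]
        rfl
      rw [this]
      rfl
    | succ v =>
      have : z = Int.negSucc v := by
        rw [← h, Int.negSucc_eq]
        push_cast
        ring
      rw [this]
      simp [pkZ]
  · have : z = Int.ofNat u := by
      rw [← h]
      simp
    rw [this]
    simp [pkZ]

theorem PN.pv_eq (x : PN) : x.pv = pkZ x.z := by
  obtain ⟨p, n⟩ := x
  refine pkZ_eq _ _ _ (sub_sub_z p n) ?_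
  change p - n = 0 ∨ n - p = 0
  omega

theorem PN.en_eq (h : ℕ) (x y : PN) : PN.en h x y = pkZ (h * (x.z - y.z)) := by
  obtain ⟨p, n⟩ := x
  obtain ⟨p', n'⟩ := y
  refine pkZ_eq _ _ _ ?_ ?_
  · change ((h * ((p + n') - (n + p')) : ℕ) : ℤ) - ((h * ((n + p') - (p + n')) : ℕ) : ℤ) = _
    rw [Nat.cast_mul, Nat.cast_mul, ← mul_sub, sub_sub_z]
    simp only [PN.z]
    push_cast
    ring
  · change h * ((p + n') - (n + p')) = 0 ∨ h * ((n + p') - (p + n')) = 0
    rcases le_total (p + n') (n + p') with h1 | h1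
    · left
      rw [Nat.sub_eq_zero_of_le h1, mul_zero]
    · right
      rw [Nat.sub_eq_zero_of_le h1, mul_zero]

/-- centers of the node values -/
def rhos : PN → List ℤ → List PN
  | _, [] => []
  | x, l :: ls => PN.st l x :: rhos (PN.st l x) ls

/-- constant, coefficient of the first node value, sums of the following coefficients -/
def runL (κ : ℕ) : PN → List PN → List ℕ → List A3 → PN × PN × List PN
  | x, y :: rs, _ :: hs, p :: ps =>
    match runL κ y rs hs ps with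
    | (c, r, li) => (PN.add (PN.sm p.k ⟨κ, 0⟩) (PN.add (PN.sm p.a x) (PN.add (PN.sm p.b y) c)),
        PN.ad p.a (PN.ad p.b r), PN.ad p.b r :: li)
  | _, _, _, _ => (⟨0, 0⟩, ⟨0, 0⟩, [])

/-- entries of a row -/
def entL (r : PN) : List ℕ → List PN → List PV
  | h :: hs, s :: li => PN.en h (PN.add s s) r :: entL r hs li
  | h :: hs, [] => PN.en h ⟨0, 0⟩ r :: entL r hs []
  | [], _ => []

/-- scaled integer as a packed scalar -/
def smK (κ : ℕ) : ℤ → PV
  | Int.ofNat a => ⟨Nat.mul κ a, 0, Nat.mul κ a⟩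
  | Int.negSucc a => ⟨0, Nat.mul κ (Nat.succ a), Nat.mul κ (Nat.succ a)⟩

theorem smK_eq (κ : ℕ) (a : ℤ) : smK κ a = pkZ (κ * a) := by
  cases a with
  | ofNat a =>
    have h := pkZ_eq ((κ : ℤ) * (Int.ofNat a : ℤ)) (κ * a) 0 (by
      push_cast
      simp) (Or.inr rfl)
    rw [← h]
    simp [smK]
  | negSucc a =>
    have h := pkZ_eq ((κ : ℤ) * (Int.negSucc a : ℤ)) 0 (κ * a.succ) (by
      rw [Int.negSucc_eq]
      push_cast
      ring) (Or.inl rfl)
    rw [← h]
    simp [smK]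

/-- row of a linear form as packed scalars -/
def rowL (κ : ℕ) (x : PN) (rs : List PN) (hs : List ℕ) (q : List A3 × List ℤ) : List PV :=
  match runL κ x rs hs q.1 with
  | (c, r, li) =>
    match q.2 with
    | [] => PN.pv c :: entL r hs li
    | e0 :: e => PN.pv (PN.add c (PN.sm e0 ⟨κ, 0⟩)) :: (entL r hs li ++ e.map (smK κ))

theorem rhos_length : ∀ (x : PN) (ls : List ℤ), (rhos x ls).length = ls.length
  | _, [] => rfl
  | x, l :: ls => by simp [rhos, rhos_length (PN.st l x) ls]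

theorem runL_eq (κ : ℕ) : ∀ (x : PN) (ls : List ℤ) (hs : List ℕ) (ps : List A3), ls.length = hs.length →
    (runL κ x (rhos x ls) hs ps).1.z = (run3 κ x.z ls ((hs.map fun h : ℕ => (h : ℤ)).map fun y => 2 * y) ps).1 ∧
    (runL κ x (rhos x ls) hs ps).2.1.z = (run3 κ x.z ls ((hs.map fun h : ℕ => (h : ℤ)).map fun y => 2 * y) ps).2.1 ∧
    ∀ (r : PN), entL r hs (runL κ x (rhos x ls) hs ps).2.2 =
      (addZ (run3 κ x.z ls ((hs.map fun h : ℕ => (h : ℤ)).map fun y => 2 * y) ps).2.2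
        (((hs.map fun h : ℕ => (h : ℤ)).map fun y => -y).map fun y => r.z * y)).map pkZ
  | x, [], [], ps, _ => by simp [rhos, runL, run3, entL, addZ, PN.z]
  | x, [], _ :: _, _, h => by simp at h
  | x, _ :: _, [], _, h => by simp at h
  | x, l :: ls, h :: hs, [], hl => by
    refine ⟨by simp [rhos, runL, run3, PN.z], by simp [rhos, runL, run3, PN.z], fun r => ?_⟩
    have key : ∀ hs : List ℕ, entL r hs [] =
        (((hs.map fun h : ℕ => (h : ℤ)).map fun y => -y).map fun y => r.z * y).map pkZ := by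
      intro hs
      induction hs with
      | nil => rfl
      | cons h hs ih =>
        simp only [entL, List.map_cons]
        rw [PN.en_eq, ih]
        congr 2
        simp only [PN.z]
        push_cast
        ring
    simp only [rhos, runL, run3]
    rw [key]
    rfl
  | x, l :: ls, h :: hs, p :: ps, hl => by
    obtain ⟨i1, i2, i3⟩ := runL_eq κ (PN.st l x) ls hs ps (by simpa using hl)
    rw [PN.st_z] at i1 i2 i3
    simp only [rhos, runL, run3, List.map_cons]
    generalize runL κ (PN.st l x) (rhos (PN.st l x) ls) hs ps = R at i1 i2 i3 ⊢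
    generalize run3 κ (x.z - 2 * l) ls ((hs.map fun h : ℕ => (h : ℤ)).map fun y => 2 * y) ps = Q at i1 i2 i3 ⊢
    obtain ⟨c, r, li⟩ := R
    obtain ⟨c', r', li'⟩ := Q
    simp only at i1 i2 i3 ⊢
    subst i1 i2
    refine ⟨?_, ?_, fun s => ?_⟩
    · rw [PN.add_z, PN.add_z, PN.add_z, PN.sm_z, PN.sm_z, PN.sm_z, PN.st_z]
      simp only [PN.z]
      push_cast
      ring
    · rw [PN.ad_z, PN.ad_z]
      ring
    · simp only [entL, addZ, List.map_cons]
      rw [PN.en_eq, i3, PN.add_z, PN.ad_z]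
      congr 2
      ring

theorem rowL_eq (κ : ℕ) (x : PN) (ls : List ℤ) (hs : List ℕ) (q : List A3 × List ℤ) (hl : ls.length = hs.length) :
    rowL κ x (rhos x ls) hs q = (rowE κ x.z ls ((hs.map fun h : ℕ => (h : ℤ)).map fun y => 2 * y)
      ((hs.map fun h : ℕ => (h : ℤ)).map fun y => -y) q).map pkZ := by
  obtain ⟨i1, i2, i3⟩ := runL_eq κ x ls hs q.1 hl
  unfold rowL rowE
  generalize runL κ x (rhos x ls) hs q.1 = R at i1 i2 i3 ⊢
  generalize run3 κ x.z ls ((hs.map fun h : ℕ => (h : ℤ)).map fun y => 2 * y) q.1 = Q at i1 i2 i3 ⊢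
  obtain ⟨c, r, li⟩ := R
  obtain ⟨c', r', li'⟩ := Q
  simp only at i1 i2 i3 ⊢
  subst i1 i2
  cases hq : q.2 with
  | nil =>
    simp only [List.map_cons]
    rw [PN.pv_eq, i3]
  | cons e0 e =>
    simp only [List.map_cons, List.map_append]
    rw [PN.pv_eq, i3, PN.add_z, PN.sm_z]
    congr 2
    · simp only [PN.z]
      push_cast
      ring
    · rw [List.map_map]
      exact List.map_congr_left fun a _ => smK_eq κ a

/-! ### packed rows -/

/-- packed row -/
def pkL (C : ℕ) : List PV → PV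
  | [] => ⟨0, 0, 0⟩
  | a :: l => PV.cons C a (pkL C l)

/-- scalar times row -/
def PV.sc : PV → PV → PV
  | ⟨u, v, c⟩, ⟨p, n, b⟩ => ⟨Nat.add (Nat.mul u p) (Nat.mul v n), Nat.add (Nat.mul u n) (Nat.mul v p), Nat.mul c b⟩

/-- product of a linear form and a packed row -/
def prL (C : ℕ) : List PV → PV → List PV
  | [], _ => []
  | a :: l, M => PV.add (PV.sc a M) (PV.sh C (PV.out (PV.hd C M) (pkL C l))) :: prL C l (PV.tl C M)

theorem pkL_eq (C : ℕ) : ∀ l : List ℤ, pkL C (l.map pkZ) = pkI C l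
  | [] => rfl
  | a :: l => by
    simp only [List.map_cons, pkL, pkI, pkL_eq C l]

theorem sc_eq (a : ℤ) (M : PV) : PV.sc (pkZ a) M = PV.sm a M := by
  obtain ⟨p, n, b⟩ := M
  cases a with
  | ofNat a => simp [pkZ, PV.sc, PV.sm]
  | negSucc a => simp [pkZ, PV.sc, PV.sm]

theorem prL_eq (C : ℕ) : ∀ (l : List ℤ) (M : PV), prL C (l.map pkZ) M = prS C l M
  | [], _ => rfl
  | a :: l, M => by
    simp only [List.map_cons, prL, prS, sc_eq, pkL_eq, prL_eq C l]

end Pool.Agent.FPX.PLK
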