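import Pool.Agent.FPX.PLK
/-!
PLM (helper1). The test of PLK executed on another type of coefficients, related to the real numbers by a relation
(packed natural numbers with bounds, say): parametricity of all functions of PLK.
-/
set_option autoImplicit false

noncomputable section

namespace Pool.Agent.FPX.PLK

open scoped Classical in
/-- the real numbers as coefficients -/
def OR : Op ℝ := ⟨0, fun a b => a + b, fun a b => a - b, fun c a => c * a, fun a => decide (0 ≤ a)⟩

theorem evOR : Ev OR id := ⟨rfl, fun _ _ => rfl, fun _ _ => rfl, fun _ _ => rfl, fun a h => by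
  simpa [OR] using h⟩

/-- compatible relation -/
structure Rl {V : Type} (O : Op V) (R : V → ℝ → Prop) : Prop where
  z : R O.z 0
  add : ∀ {a b s t}, R a s → R b t → R (O.add a b) (s + t)
  sub : ∀ {a b s t}, R a s → R b t → R (O.sub a b) (s - t)
  sm : ∀ {a s} (c : ℤ), R a s → R (O.sm c a) (c * s)
  psd : ∀ {a s}, R a s → O.psd a = true → 0 ≤ s

variable {V : Type} {O : Op V} {R : V → ℝ → Prop}

theorem Rl.psdR (H : Rl O R) {a : V} {s : ℝ} (h : R a s) (hp : O.psd a = true) : OR.psd s = true := by
  simpa [OR] using H.psd h hp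

open List (Forall₂)

theorem goRow_par (H : Rl O R) : ∀ {ls es ds : List V} {ls' es' ds' : List ℝ} {c l : V} {c' l' : ℝ}
    {k : V → V → List V → Bool} {k' : ℝ → ℝ → List ℝ → Bool}, Forall₂ R ls ls' → Forall₂ R es es' →
    Forall₂ R ds ds' → R c c' → R l l' →
    (∀ a b m a' b' m', R a a' → R b b' → Forall₂ R m m' → k a b m = true → k' a' b' m' = true) →
    goRow O ls es ds c l k = true → goRow OR ls' es' ds' c' l' k' = true := by
  intro ls es ds ls' es' ds' c l c' l' k k' h1
  induction h1 generalizing es ds es' ds' c l c' l' k k' with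
  | nil =>
    intro h2 h3 hc hl hk h
    cases h2 with
    | nil => cases h3 with
      | nil => exact hk _ _ _ _ _ _ hc hl .nil h
      | cons => simp [goRow] at h
    | cons => cases h3 <;> simp [goRow] at h
  | @cons m m' ms ms' hm hms ih =>
    intro h2 h3 hc hl hk h
    cases h2 with
    | nil => simp [goRow] at h
    | @cons e e' es es' he hes =>
      cases h3 with
      | nil => simp [goRow] at h
      | @cons a a' ds ds' ha h3 =>
        cases h3 with
        | nil => simp [goRow] at h
        | @cons b b' ds ds' hb h3 =>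
          cases h3 with
          | nil => simp [goRow] at h
          | @cons d d' ds ds' hd h3 =>
            simp only [goRow, Bool.and_eq_true] at h ⊢
            obtain ⟨p1, p2, p3, p4, h⟩ := h
            exact ⟨H.psdR ha p1, H.psdR hb p2, H.psdR hd p3,
              H.psdR (H.add (H.sub (H.add hb hd) ha) he) p4,
              ih hes h3 (H.sub hc ha) (H.sub hl (H.sub hb ha)) (fun x y z x' y' z' hx hy hz q =>
                hk _ _ _ _ _ _ hx hy (.cons (H.sub hm (H.sub hd ha)) hz) q) h⟩

theorem go_par (H : Rl O R) : ∀ {rs dt : List (List V)} {rs' dt' : List (List ℝ)} {ls : List V} {ls' : List ℝ}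
    {c : V} {c' : ℝ}, Forall₂ (Forall₂ R) rs rs' → Forall₂ (Forall₂ R) dt dt' → Forall₂ R ls ls' → R c c' →
    go O ls rs dt c = true → go OR ls' rs' dt' c' = true := by
  intro rs dt rs' dt' ls ls' c c' h1
  induction h1 generalizing dt dt' ls ls' c c' with
  | nil =>
    intro h2 h3 hc h
    cases h2 with
    | nil => cases h3 with
      | nil =>
        simp only [go] at h ⊢
        exact H.psdR hc h
      | cons => simp [go] at h
    | cons => cases h3 <;> simp [go] at h
  | @cons r r' rs rs' hr hrs ih =>
    intro h2 h3 hc h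
    cases hr with
    | nil => cases h3 <;> cases h2 <;> simp [go] at h
    | @cons e e' es es' he hes =>
      cases h2 with
      | nil => cases h3 <;> simp [go] at h
      | @cons d d' dt dt' hd hdt =>
        cases hd with
        | nil => cases h3 <;> simp [go] at h
        | @cons a a' ds ds' ha hds =>
          cases h3 with
          | nil => simp [go] at h
          | @cons l l' ls ls' hl hls =>
            simp only [go] at h ⊢
            refine goRow_par H hls hes hds hc hl ?_ h
            intro x y z x' y' z' hx hy hz q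
            simp only [Bool.and_eq_true] at q ⊢
            obtain ⟨q1, q2, q3, q4⟩ := q
            exact ⟨H.psdR ha q1, H.psdR (H.add (H.add ha hy) he) q2, H.psdR (H.add (H.add ha ha) hy) q3,
              ih hdt hz (H.sub hx ha) q4⟩

theorem addL_par (H : Rl O R) {l m : List V} {l' m' : List ℝ} (h1 : Forall₂ R l l') (h2 : Forall₂ R m m') :
    Forall₂ R (addL O l m) (addL OR l' m') := by
  induction h1 generalizing m m' with
  | nil => simpa [addL] using h2
  | cons ha hl ih =>
    cases h2 with
    | nil => simpa [addL] using Forall₂.cons ha hl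
    | cons hb hm => exact .cons (H.add ha hb) (ih hm)

theorem addR_par (H : Rl O R) {l m : List (List V)} {l' m' : List (List ℝ)} (h1 : Forall₂ (Forall₂ R) l l')
    (h2 : Forall₂ (Forall₂ R) m m') : Forall₂ (Forall₂ R) (addR O l m) (addR OR l' m') := by
  induction h1 generalizing m m' with
  | nil => simpa [addR] using h2
  | cons ha hl ih =>
    cases h2 with
    | nil => simpa [addR] using Forall₂.cons ha hl
    | cons hb hm => exact .cons (addL_par H ha hb) (ih hm)

theorem smL_par (H : Rl O R) {c : V} {c' : ℝ} (hc : R c c') : ∀ l : List ℤ,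
    Forall₂ R (smL O c l) (smL OR c' l)
  | [] => .nil
  | a :: l => .cons (H.sm a hc) (smL_par H hc l)

theorem map_par (H : Rl O R) (a : ℤ) {m : List V} {m' : List ℝ} (h : Forall₂ R m m') :
    Forall₂ R (m.map (O.sm a)) (m'.map (OR.sm a)) := by
  induction h with
  | nil => exact .nil
  | cons hx _ ih => exact .cons (H.sm a hx) ih

theorem prR_par (H : Rl O R) : ∀ (l : List ℤ) {m : List V} {m' : List ℝ}, Forall₂ R m m' →
    Forall₂ (Forall₂ R) (prR O l m) (prR OR l m')
  | [], _, _, _ => by simp [prR]
  | a :: l, _, _, .nil => by simp [prR]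
  | a :: l, _, _, .cons hv hm =>
    .cons (.cons (H.sm a hv) (addL_par H (map_par H a hm) (smL_par H hv l))) (prR_par H l hm)

theorem cmb_par (H : Rl O R) : ∀ {G : List V} {G' : List ℝ}, Forall₂ R G G' → ∀ L : List (List ℤ),
    Forall₂ R (cmb O G L) (cmb OR G' L)
  | _, _, .nil, _ => by simp [cmb]
  | _, _, .cons _ _, [] => by simp [cmb]
  | _, _, .cons hg hG, l :: L => addL_par H (smL_par H hg l) (cmb_par H hG L)

theorem sbR_par (H : Rl O R) : ∀ {G : List (List V)} {G' : List (List ℝ)}, Forall₂ (Forall₂ R) G G' →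
    ∀ L : List (List ℤ), Forall₂ (Forall₂ R) (sbR O G L) (sbR OR G' L)
  | _, _, .nil, _ => by simp [sbR]
  | _, _, .cons _ _, [] => by simp [sbR]
  | _, _, .cons hg hG, l :: L => addR_par H (prR_par H l (cmb_par H hg (l :: L))) (sbR_par H hG L)

theorem msR_par (H : Rl O R) (c : ℤ) {l : List (List V)} {l' : List (List ℝ)} (h : Forall₂ (Forall₂ R) l l') :
    Forall₂ (Forall₂ R) (msR O c l) (msR OR c l') := by
  induction h with
  | nil => exact .nil
  | cons hx _ ih => exact .cons (map_par H c hx) ih

/-- real squares -/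
def SR {W : Type} (ψ : W → ℂ) : Sq W ℝ :=
  ⟨fun u => Complex.normSq (ψ u), fun u v => 2 * ((starRingEnd ℂ) (ψ u) * ψ v).re⟩

theorem esSR {W : Type} (ψ : W → ℂ) : Es (SR ψ) id ψ := ⟨fun _ => rfl, fun _ _ => rfl⟩

/-- compatible squares -/
structure Rs {W V : Type} (S : Sq W V) (R : V → ℝ → Prop) (ψ : W → ℂ) : Prop where
  one : ∀ u, R (S.one u) (Complex.normSq (ψ u))
  two : ∀ u v, R (S.two u v) (2 * ((starRingEnd ℂ) (ψ u) * ψ v).re)

variable {W : Type} {S : Sq W V} {ψ : W → ℂ}

theorem two_par (K : Rs S R ψ) (u : W) : ∀ us : List W,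
    Forall₂ R (us.map (S.two u)) (us.map ((SR ψ).two u))
  | [] => .nil
  | v :: us => .cons (K.two u v) (two_par K u us)

theorem gram_par (K : Rs S R ψ) : ∀ us : List W, Forall₂ (Forall₂ R) (gram S us) (gram (SR ψ) us)
  | [] => .nil
  | u :: us => .cons (.cons (K.one u) (two_par K u us)) (gram_par K us)

theorem grams_par (H : Rl O R) (K : Rs S R ψ) : ∀ l : List (ℕ × List W),
    Forall₂ (Forall₂ R) (grams O S l) (grams OR (SR ψ) l)
  | [] => .nil
  | p :: l => addR_par H (msR_par H _ (gram_par K p.2)) (grams_par H K l)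

/-- data always represent something -/
theorem ex_row {ds : List V} (h : ∀ d ∈ ds, ∃ t, R d t) : ∃ ds', Forall₂ R ds ds' := by
  induction ds with
  | nil => exact ⟨[], .nil⟩
  | cons a l ih =>
    obtain ⟨t, ht⟩ := h a (by simp)
    obtain ⟨l', hl⟩ := ih fun d hd => h d (by simp [hd])
    exact ⟨t :: l', .cons ht hl⟩

theorem ex_tab {dt : List (List V)} (h : ∀ ds ∈ dt, ∀ d ∈ ds, ∃ t, R d t) :
    ∃ dt', Forall₂ (Forall₂ R) dt dt' := by
  induction dt with
  | nil => exact ⟨[], .nil⟩
  | cons a l ih =>
    obtain ⟨t, ht⟩ := ex_row (h a (by simp))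
    obtain ⟨l', hl⟩ := ih fun d hd => h d (by simp [hd])
    exact ⟨t :: l', .cons ht hl⟩

/-- soundness of the test for related tables -/
theorem fin_par (H : Rl O R) {N : ℕ} {T dt : List (List V)} {T' : List (List ℝ)}
    (hT : Forall₂ (Forall₂ R) T T') (hd : ∀ ds ∈ dt, ∀ d ∈ ds, ∃ t, R d t) (h : fin O N T dt = true)
    {D : List ℝ} (hD : Box D) (hl : D.length = N) : 0 ≤ qv id T' (1 :: D) := by
  obtain ⟨dt', hdt⟩ := ex_tab hd
  refine fin_sound (O := OR) (dt := dt') evOR ?_ hD hl
  cases hT with
  | nil => simp [fin] at h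
  | cons hr hrs =>
    cases hr with
    | nil => simp [fin] at h
    | cons hc hls =>
      simp only [fin, Bool.and_eq_true] at h ⊢
      exact ⟨by rw [← hls.length_eq]; exact h.1, go_par H hrs hdt hls hc h.2⟩

end Pool.Agent.FPX.PLK
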