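import Pool.Agent.FPX.PLM
/-!
PLN (helper1). Forms in the node values `x₀, .., x_N`, `x_N = -x₀`, of a function with bounded increments: sums of
quadratic polynomials in consecutive node values plus products of linear forms; transformation to the variables
`θ_i ∈ [0, 1]` of PLK.
-/
set_option autoImplicit false

noncomputable section

namespace Pool.Agent.FPX.PLK

open List (Forall₂)

/-- polynomial in two consecutive node values -/
structure P6 (V : Type) where
  k : V
  a : V
  b : V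
  aa : V
  ab : V
  bb : V

/-- linear polynomial in two consecutive node values -/
structure A3 where
  k : ℤ
  a : ℤ
  b : ℤ

variable {V : Type}

def ev6 (p : P6 ℝ) (x y : ℝ) : ℝ := p.k + p.a * x + p.b * y + p.aa * x ^ 2 + p.ab * (x * y) + p.bb * y ^ 2

def ev3 (p : A3) (x y : ℝ) : ℝ := p.k + p.a * x + p.b * y

/-- sum over the cells -/
def sum6 : List (P6 ℝ) → List ℝ → ℝ
  | p :: ps, x :: y :: xs => ev6 p x y + sum6 ps (y :: xs)
  | _, _ => 0

/-- sum over the cells -/
def sum3 : List A3 → List ℝ → ℝ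
  | p :: ps, x :: y :: xs => ev3 p x y + sum3 ps (y :: xs)
  | _, _ => 0

/-- integer polynomial times a coefficient -/
def cc (O : Op V) (c : V) (p : P6 ℤ) : P6 V :=
  ⟨O.sm p.k c, O.sm p.a c, O.sm p.b c, O.sm p.aa c, O.sm p.ab c, O.sm p.bb c⟩

def add6 (O : Op V) (p q : P6 V) : P6 V :=
  ⟨O.add p.k q.k, O.add p.a q.a, O.add p.b q.b, O.add p.aa q.aa, O.add p.ab q.ab, O.add p.bb q.bb⟩

def addF (O : Op V) : List (P6 V) → List (P6 V) → List (P6 V)
  | p :: l, q :: m => add6 O p q :: addF O l m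
  | [], m => m
  | l, [] => l

/-- linear combination of base forms -/
def locP (O : Op V) : List (V × List (P6 ℤ)) → List (P6 V)
  | q :: l => addF O (q.2.map (cc O q.1)) (locP O l)
  | [] => []

/-- base form over the reals -/
def castP (f : List (P6 ℤ)) : List (P6 ℝ) := f.map (cc OR 1)

/-- rescaled and recentered polynomial -/
def sr (O : Op V) (κ ρ ρ' : ℤ) (p : P6 V) : P6 V :=
  ⟨O.add (O.sm (κ * κ) p.k) (O.add (O.add (O.sm (κ * ρ) p.a) (O.sm (κ * ρ') p.b))
      (O.add (O.sm (ρ * ρ) p.aa) (O.add (O.sm (ρ * ρ') p.ab) (O.sm (ρ' * ρ') p.bb)))),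
    O.add (O.sm κ p.a) (O.add (O.sm (2 * ρ) p.aa) (O.sm ρ' p.ab)),
    O.add (O.sm κ p.b) (O.add (O.sm ρ p.ab) (O.sm (2 * ρ') p.bb)), p.aa, p.ab, p.bb⟩

def srs (O : Op V) (κ : ℤ) : ℤ → List ℤ → List (P6 V) → List (P6 V)
  | ρ, l :: ls, p :: ps => sr O κ ρ (ρ - 2 * l) p :: srs O κ (ρ - 2 * l) ls ps
  | _, _, _ => []

/-- quadratic form in the first node value and the following variables -/
structure S6 (V : Type) where
  c : V
  r1 : V
  r2 : V
  lin : List V
  g : List V
  tri : List (List V)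

def step (O : Op V) (η : ℤ) (p : P6 V) (s : S6 V) : S6 V :=
  ⟨O.add p.k s.c, O.add p.a (O.add s.r1 p.b), O.add p.aa (O.add p.ab (O.add s.r2 p.bb)),
    O.sm η (O.add s.r1 p.b) :: s.lin,
    O.sm η (O.add (O.add (O.add s.r2 p.bb) (O.add s.r2 p.bb)) p.ab) :: s.g,
    (O.sm (η * η) (O.add s.r2 p.bb) :: s.g.map (O.sm η)) :: s.tri⟩

def run (O : Op V) : List ℤ → List (P6 V) → S6 V
  | η :: e, p :: ps => step O η p (run O e ps)
  | _, _ => ⟨O.z, O.z, O.z, [], [], []⟩

/-- the table in the variables `(1, θ)`; `hn = -h` -/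
def tab (O : Op V) (hn : List ℤ) (s : S6 V) : List (List V) :=
  addR O ((s.c :: s.lin) :: s.tri) (prR O (0 :: hn) (s.r1 :: addL O s.g (smL O s.r2 hn)))

/-- `(constant, coefficient of the first node value, others)` of a linear form -/
def run3 (κ : ℤ) : ℤ → List ℤ → List ℤ → List A3 → ℤ × ℤ × List ℤ
  | ρ, l :: ls, η :: e, p :: ps =>
    match run3 κ (ρ - 2 * l) ls e ps with
    | (c, r, li) => (κ * p.k + ρ * p.a + (ρ - 2 * l) * p.b + c, p.a + (r + p.b), η * (r + p.b) :: li)
  | _, _, _, _ => (0, 0, [])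

/-- sum of integer rows -/
def addZ : List ℤ → List ℤ → List ℤ
  | a :: l, b :: m => (a + b) :: addZ l m
  | [], m => m
  | l, [] => l

/-- row of a linear form in the variables `(1, θ)` -/
def row3 (κ ρ : ℤ) (Ls es hn : List ℤ) (f : List A3) : List ℤ :=
  match run3 κ ρ Ls es f with
  | (c, r, li) => c :: addZ li (hn.map fun x => r * x)

/-- the complete test. `N` cells, `κ'` scale of the increments, `Ls`, `Hs` bounds of the increments, base forms `F`,
linear forms `L`, products `C`, squares `G`, data `dt` -/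
def chkN {W : Type} (O : Op V) (S : Sq W V) (N : ℕ) (κ' : ℤ) (Ls Hs : List ℤ) (F : List (V × List (P6 ℤ)))
    (L : List (List A3)) (C : List (List V)) (G : List (ℕ × List W)) (dt : List (List V)) : Bool :=
  let h := addZ Ls Hs
  let hn := h.map fun x => -x
  let es := h.map fun x => 2 * x
  let ρ := Ls.sum
  fin O N (addR O (tab O hn (run O es (srs O (2 * κ') ρ Ls (locP O F))))
    (sbR O (addR O C (grams O S G)) (L.map (row3 (2 * κ') ρ Ls es hn)))) dt

/-! ### values -/

/-- the path of shifted node values -/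
def pth : List ℤ → List ℝ → ℝ → List ℝ
  | η :: e, t :: θ, y => y :: pth e θ (y + η * t)
  | _, _, y => [y]

theorem pth_ne (e : List ℤ) (θ : List ℝ) (y : ℝ) : ∃ l, pth e θ y = y :: l := by
  cases e <;> cases θ <;> exact ⟨_, rfl⟩

theorem sum6_addF : ∀ (l m : List (P6 ℝ)) (xs : List ℝ), sum6 (addF OR l m) xs = sum6 l xs + sum6 m xs
  | p :: l, q :: m, x :: y :: xs => by
    simp only [addF, sum6]
    rw [sum6_addF l m (y :: xs)]
    simp only [add6, ev6, OR]
    ring
  | p :: l, q :: m, [] => by simp [addF, sum6]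
  | p :: l, q :: m, [x] => by simp [addF, sum6]
  | [], m, xs => by
    cases m <;> simp [addF, sum6]
  | p :: l, [], xs => by simp [addF, sum6]

theorem sum6_cc (c : ℝ) : ∀ (f : List (P6 ℤ)) (xs : List ℝ),
    sum6 (f.map (cc OR c)) xs = c * sum6 (castP f) xs
  | p :: f, x :: y :: xs => by
    have h := sum6_cc c f (y :: xs)
    unfold castP at h ⊢
    simp only [List.map_cons, sum6]
    rw [h]
    simp only [cc, ev6, OR]
    ring
  | [], xs => by simp [castP, sum6]
  | p :: f, [] => by simp [castP, sum6]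
  | p :: f, [x] => by simp [castP, sum6]

theorem sum6_locP (xs : List ℝ) : ∀ F : List (ℝ × List (P6 ℤ)),
    sum6 (locP OR F) xs = (F.map fun q => q.1 * sum6 (castP q.2) xs).sum
  | [] => by simp [locP, sum6]
  | q :: F => by
    simp only [locP, sum6_addF, sum6_cc, List.map_cons, List.sum_cons, sum6_locP xs F]

theorem ev6_sr {κ ρ ρ' : ℤ} {p : P6 ℝ} {x y X Y : ℝ} (h1 : κ * x = ρ + X) (h2 : κ * y = ρ' + Y) :
    ev6 (sr OR κ ρ ρ' p) X Y = κ ^ 2 * ev6 p x y := by
  have e1 : X = κ * x - ρ := by linarith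
  have e2 : Y = κ * y - ρ' := by linarith
  subst e1 e2
  simp only [sr, ev6, OR]
  push_cast
  ring

/-- increments and variables -/
def Inc (κ' : ℤ) : List ℤ → List ℤ → List ℝ → List ℝ → Prop
  | l :: ls, h :: hs, t :: θ, x :: y :: xs => h * t = l + κ' * (y - x) ∧ Inc κ' ls hs θ (y :: xs)
  | [], [], [], [_] => True
  | _, _, _, _ => False

theorem sum6_srs {κ' : ℤ} : ∀ {Ls h : List ℤ} {θ xs : List ℝ} {ρ : ℤ} {Y : ℝ} {ps : List (P6 ℝ)},
    Inc κ' Ls h θ xs → 2 * κ' * xs.headI = ρ + Y → 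
    sum6 (srs OR (2 * κ') ρ Ls ps) (pth (h.map fun x => 2 * x) θ Y) = (2 * κ' : ℝ) ^ 2 * sum6 ps xs
  | l :: ls, h :: hs, t :: θ, x :: y :: xs, ρ, Y, p :: ps, hI, h0 => by
    obtain ⟨h1, hI'⟩ := hI
    simp only [List.headI_cons] at h0
    have h2 : 2 * κ' * y = ((ρ - 2 * l : ℤ) : ℝ) + (Y + ((2 * h : ℤ) : ℝ) * t) := by
      push_cast
      linear_combination h0 + 2 * h1.symm
    have ih := sum6_srs (ρ := ρ - 2 * l) (Y := Y + ((2 * h : ℤ) : ℝ) * t) (ps := ps) hI' (by simpa using h2)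
    simp only [srs, List.map_cons, pth, sum6]
    obtain ⟨m, hm⟩ := pth_ne (hs.map fun x => 2 * x) θ (Y + ((2 * h : ℤ) : ℝ) * t)
    rw [hm] at ih ⊢
    simp only [sum6]
    rw [ih, ev6_sr (κ := 2 * κ') (x := x) (y := y) (by push_cast; exact h0) (by push_cast at h2 ⊢; exact h2)]
    push_cast
    ring
  | l :: ls, h :: hs, t :: θ, x :: y :: xs, ρ, Y, [], hI, h0 => by simp [srs, sum6]
  | [], [], [], [x], ρ, Y, ps, hI, h0 => by cases ps <;> simp [srs, sum6]

theorem sum3_run {κ' : ℤ} : ∀ {Ls h : List ℤ} {θ xs : List ℝ} {ρ : ℤ} {Y : ℝ} {ps : List A3},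
    Inc κ' Ls h θ xs → 2 * κ' * xs.headI = ρ + Y → 
    ((run3 (2 * κ') ρ Ls (h.map fun x => 2 * x) ps).1 : ℝ) + (run3 (2 * κ') ρ Ls (h.map fun x => 2 * x) ps).2.1 * Y
      + lz (run3 (2 * κ') ρ Ls (h.map fun x => 2 * x) ps).2.2 θ = (2 * κ' : ℝ) * sum3 ps xs
  | l :: ls, h :: hs, t :: θ, x :: y :: xs, ρ, Y, p :: ps, hI, h0 => by
    obtain ⟨h1, hI'⟩ := hI
    simp only [List.headI_cons] at h0
    have h2 : 2 * κ' * y = ((ρ - 2 * l : ℤ) : ℝ) + (Y + ((2 * h : ℤ) : ℝ) * t) := by
      push_cast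
      linear_combination h0 + 2 * h1.symm
    have ih := sum3_run (ρ := ρ - 2 * l) (Y := Y + ((2 * h : ℤ) : ℝ) * t) (ps := ps) hI' (by simpa using h2)
    simp only [List.map_cons, run3, sum3, lz_cons, ev3]
    push_cast at h2 ih ⊢
    linear_combination ih + (p.a : ℝ) * (-h0) + (p.b : ℝ) * (-h2)
  | l :: ls, h :: hs, t :: θ, x :: y :: xs, ρ, Y, [], hI, h0 => by simp [run3, sum3]
  | [], [], [], [x], ρ, Y, ps, hI, h0 => by cases ps <;> simp [run3, sum3]

theorem sum6_run : ∀ (e : List ℤ) (ps : List (P6 ℝ)) (θ : List ℝ) (Y : ℝ), e.length = θ.length →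
    ps.length = θ.length → sum6 ps (pth e θ Y)
      = (run OR e ps).c + (run OR e ps).r1 * Y + (run OR e ps).r2 * Y ^ 2 + lv id (run OR e ps).lin θ
        + Y * lv id (run OR e ps).g θ + qv id (run OR e ps).tri θ
  | η :: e, p :: ps, t :: θ, Y, h1, h2 => by
    have ih := sum6_run e ps θ (Y + η * t) (by simpa using h1) (by simpa using h2)
    obtain ⟨m, hm⟩ := pth_ne e θ (Y + η * t)
    simp only [pth]
    rw [hm] at ih ⊢
    simp only [sum6, run, step, lv_cons, qv_cons, lv_map evOR]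
    rw [ih]
    simp only [OR, ev6, id]
    push_cast
    ring
  | [], [], [], Y, _, _ => by simp [sum6, run, OR]
  | [], _ :: _, [], _, _, h => by simp at h
  | _ :: _, _, [], _, h, _ => by simp at h
  | [], _, _ :: _, _, h, _ => by simp at h
  | _ :: _, [], _ :: _, _, _, h => by simp at h

theorem srs_length (O : Op V) (κ : ℤ) : ∀ (ρ : ℤ) (Ls : List ℤ) (ps : List (P6 V)), ps.length = Ls.length →
    (srs O κ ρ Ls ps).length = Ls.length
  | ρ, l :: ls, p :: ps, h => by
    simp only [srs, List.length_cons]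
    rw [srs_length O κ _ ls ps (by simpa using h)]
  | _, [], _, _ => by simp [srs]
  | _, _ :: _, [], h => by simp at h

theorem lz_addZ : ∀ (l m : List ℤ) (D : List ℝ), lz (addZ l m) D = lz l D + lz m D
  | a :: l, b :: m, d :: D => by
    simp only [addZ, lz_cons, lz_addZ l m D]
    push_cast
    ring
  | _, _, [] => by simp
  | [], m, D => by cases m <;> simp [addZ]
  | a :: l, [], D => by simp [addZ]

theorem lz_map (r : ℤ) : ∀ (l : List ℤ) (D : List ℝ), lz (l.map fun x => r * x) D = r * lz l D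
  | a :: l, d :: D => by
    simp only [List.map_cons, lz_cons, lz_map r l D]
    push_cast
    ring
  | [], D => by simp
  | _ :: _, [] => by simp

theorem lz_neg : ∀ (l : List ℤ) (D : List ℝ), lz (l.map fun x => -x) D = -lz l D
  | a :: l, d :: D => by
    simp only [List.map_cons, lz_cons, lz_neg l D]
    push_cast
    ring
  | [], D => by simp
  | _ :: _, [] => by simp

theorem qv_tab (hn : List ℤ) (s : S6 ℝ) (θ : List ℝ) : qv id (tab OR hn s) (1 :: θ)
    = s.c + s.r1 * lz hn θ + s.r2 * lz hn θ ^ 2 + lv id s.lin θ + lz hn θ * lv id s.g θ + qv id s.tri θ := by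
  unfold tab
  rw [qv_addR evOR, qv_prR evOR]
  simp only [qv_cons, lv_cons, lz_cons, lv_addL evOR, lv_smL evOR, id]
  push_cast
  ring

/-- the node values determine the variables -/
theorem inc_len {κ' : ℤ} : ∀ {Ls h : List ℤ} {θ xs : List ℝ}, Inc κ' Ls h θ xs → h.length = θ.length ∧
    Ls.length = θ.length
  | l :: ls, h :: hs, t :: θ, x :: y :: xs, hI => by
    have := inc_len hI.2
    simp [this.1, this.2]
  | [], [], [], [x], _ => by simp

theorem inc_sum {κ' : ℤ} : ∀ {Ls h : List ℤ} {θ xs : List ℝ} (_ : Inc κ' Ls h θ xs) (d : ℝ),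
    lz h θ = (Ls.sum : ℤ) + κ' * (xs.getLastD d - xs.headI)
  | l :: ls, h :: hs, t :: θ, x :: y :: xs, hI, d => by
    have h1 := inc_sum hI.2 d
    simp only [lz_cons, List.sum_cons, List.headI_cons]
    have e : (x :: y :: xs).getLastD d = (y :: xs).getLastD d := by
      simp
    rw [e, h1, hI.1]
    push_cast
    simp only [List.headI_cons]
    ring
  | [], [], [], [x], _, d => by simp [lz]

/-! ### parametricity -/

variable {O : Op V} {R : V → ℝ → Prop}

/-- related polynomials -/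
structure R6 (R : V → ℝ → Prop) (p : P6 V) (q : P6 ℝ) : Prop where
  k : R p.k q.k
  a : R p.a q.a
  b : R p.b q.b
  aa : R p.aa q.aa
  ab : R p.ab q.ab
  bb : R p.bb q.bb

theorem cc_par (H : Rl O R) {c : V} {c' : ℝ} (hc : R c c') (p : P6 ℤ) : R6 R (cc O c p) (cc OR c' p) :=
  ⟨H.sm _ hc, H.sm _ hc, H.sm _ hc, H.sm _ hc, H.sm _ hc, H.sm _ hc⟩

theorem add6_par (H : Rl O R) {p q : P6 V} {p' q' : P6 ℝ} (h1 : R6 R p p') (h2 : R6 R q q') :
    R6 R (add6 O p q) (add6 OR p' q') :=
  ⟨H.add h1.k h2.k, H.add h1.a h2.a, H.add h1.b h2.b, H.add h1.aa h2.aa, H.add h1.ab h2.ab, H.add h1.bb h2.bb⟩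

theorem addF_par (H : Rl O R) {l m : List (P6 V)} {l' m' : List (P6 ℝ)} (h1 : Forall₂ (R6 R) l l')
    (h2 : Forall₂ (R6 R) m m') : Forall₂ (R6 R) (addF O l m) (addF OR l' m') := by
  induction h1 generalizing m m' with
  | nil => simpa [addF] using h2
  | cons ha hl ih =>
    cases h2 with
    | nil => simpa [addF] using Forall₂.cons ha hl
    | cons hb hm => exact .cons (add6_par H ha hb) (ih hm)

theorem mapcc_par (H : Rl O R) {c : V} {c' : ℝ} (hc : R c c') : ∀ f : List (P6 ℤ),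
    Forall₂ (R6 R) (f.map (cc O c)) (f.map (cc OR c'))
  | [] => .nil
  | p :: f => .cons (cc_par H hc p) (mapcc_par H hc f)

theorem locP_par (H : Rl O R) {F : List (V × List (P6 ℤ))} {F' : List (ℝ × List (P6 ℤ))}
    (h : Forall₂ (fun q q' => R q.1 q'.1 ∧ q.2 = q'.2) F F') : Forall₂ (R6 R) (locP O F) (locP OR F') := by
  induction h with
  | nil => exact .nil
  | @cons q q' F F' hq _ ih =>
    obtain ⟨h1, h2⟩ := hq
    simp only [locP, h2]
    exact addF_par H (mapcc_par H h1 _) ih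

theorem sr_par (H : Rl O R) (κ ρ ρ' : ℤ) {p : P6 V} {p' : P6 ℝ} (h : R6 R p p') :
    R6 R (sr O κ ρ ρ' p) (sr OR κ ρ ρ' p') :=
  ⟨H.add (H.sm _ h.k) (H.add (H.add (H.sm _ h.a) (H.sm _ h.b))
      (H.add (H.sm _ h.aa) (H.add (H.sm _ h.ab) (H.sm _ h.bb)))),
    H.add (H.sm _ h.a) (H.add (H.sm _ h.aa) (H.sm _ h.ab)),
    H.add (H.sm _ h.b) (H.add (H.sm _ h.ab) (H.sm _ h.bb)), h.aa, h.ab, h.bb⟩

theorem srs_par (H : Rl O R) (κ : ℤ) : ∀ (ρ : ℤ) (Ls : List ℤ) {ps : List (P6 V)} {ps' : List (P6 ℝ)},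
    Forall₂ (R6 R) ps ps' → Forall₂ (R6 R) (srs O κ ρ Ls ps) (srs OR κ ρ Ls ps')
  | _, [], _, _, _ => by simp [srs]
  | _, _ :: _, _, _, .nil => by simp [srs]
  | ρ, l :: ls, _, _, .cons h hs => .cons (sr_par H κ ρ (ρ - 2 * l) h) (srs_par H κ (ρ - 2 * l) ls hs)

/-- related states -/
structure RS (R : V → ℝ → Prop) (s : S6 V) (t : S6 ℝ) : Prop where
  c : R s.c t.c
  r1 : R s.r1 t.r1
  r2 : R s.r2 t.r2
  lin : Forall₂ R s.lin t.lin
  g : Forall₂ R s.g t.g
  tri : Forall₂ (Forall₂ R) s.tri t.tri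

theorem run_par (H : Rl O R) : ∀ (e : List ℤ) {ps : List (P6 V)} {ps' : List (P6 ℝ)},
    Forall₂ (R6 R) ps ps' → RS R (run O e ps) (run OR e ps')
  | [], _, _, _ => by
    simp only [run]
    exact ⟨H.z, H.z, H.z, .nil, .nil, .nil⟩
  | _ :: _, _, _, .nil => by
    simp only [run]
    exact ⟨H.z, H.z, H.z, .nil, .nil, .nil⟩
  | η :: e, _, _, .cons h hs => by
    have ih := run_par H e hs
    simp only [run, step]
    exact ⟨H.add h.k ih.c, H.add h.a (H.add ih.r1 h.b), H.add h.aa (H.add h.ab (H.add ih.r2 h.bb)),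
      .cons (H.sm _ (H.add ih.r1 h.b)) ih.lin,
      .cons (H.sm _ (H.add (H.add (H.add ih.r2 h.bb) (H.add ih.r2 h.bb)) h.ab)) ih.g,
      .cons (.cons (H.sm _ (H.add ih.r2 h.bb)) (map_par H η ih.g)) ih.tri⟩

theorem tab_par (H : Rl O R) (hn : List ℤ) {s : S6 V} {t : S6 ℝ} (h : RS R s t) :
    Forall₂ (Forall₂ R) (tab O hn s) (tab OR hn t) :=
  addR_par H (.cons (.cons h.c h.lin) h.tri)
    (prR_par H _ (.cons h.r1 (addL_par H h.g (smL_par H h.r2 hn))))

/-- increments in the box -/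
def Bd (κ' : ℤ) : List ℤ → List ℤ → List ℝ → Prop
  | l :: ls, h :: hs, x :: y :: xs => -(l : ℝ) ≤ κ' * (y - x) ∧ κ' * (y - x) ≤ h ∧ Bd κ' ls hs (y :: xs)
  | [], [], [_] => True
  | _, _, _ => False

theorem ex_inc {κ' : ℤ} : ∀ {Ls Hs : List ℤ} {xs : List ℝ}, Bd κ' Ls Hs xs →
    ∃ θ, Box θ ∧ Inc κ' Ls (addZ Ls Hs) θ xs
  | l :: ls, h :: hs, x :: y :: xs, ⟨h1, h2, h3⟩ => by
    obtain ⟨θ, hb, hI⟩ := ex_inc h3
    refine ⟨(l + κ' * (y - x)) / ((l + h : ℤ) : ℝ) :: θ, ?_, ?_, hI⟩
    · intro d hd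
      rcases List.mem_cons.1 hd with rfl | hd
      · have p0 : (0 : ℝ) ≤ ((l + h : ℤ) : ℝ) := by
          push_cast
          linarith
        refine ⟨div_nonneg (by linarith) p0, div_le_one_of_le₀ ?_ p0⟩
        push_cast
        linarith
      · exact hb d hd
    · rcases eq_or_ne ((l + h : ℤ) : ℝ) 0 with h0 | h0
      · rw [h0]
        push_cast at h0
        linarith
      · rw [mul_div_cancel₀ _ h0]
  | [], [], [x], _ => ⟨[], fun d hd => by simp at hd, trivial⟩

theorem locP_length (O : Op V) (N : ℕ) : ∀ {F : List (V × List (P6 ℤ))}, (∀ q ∈ F, q.2.length = N) → F ≠ [] →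
    (locP O F).length = N := by
  have hadd : ∀ (l m : List (P6 V)), (addF O l m).length = max l.length m.length := by
    intro l
    induction l with
    | nil => intro m; simp [addF]
    | cons a l ih =>
      intro m
      cases m with
      | nil => simp [addF]
      | cons b m => simp [addF, ih]
  intro F
  induction F with
  | nil => intro _ h; exact absurd rfl h
  | cons q F ih =>
    intro h _
    simp only [locP, hadd, List.length_map]
    rw [h q (by simp)]
    rcases eq_or_ne F [] with rfl | hF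
    · simp [locP]
    · rw [ih (fun q hq => h q (by simp [hq])) hF]
      simp

/-- all base forms have `N` cells -/
def lenOk (N : ℕ) (F : List (V × List (P6 ℤ))) : Bool :=
  match F with
  | [] => false
  | _ :: _ => F.all fun q => Nat.beq q.2.length N

/-- **soundness** -/
theorem certN {W : Type} {S : Sq W V} {ψ : W → ℂ} (H : Rl O R) (K : Rs S R ψ) {N : ℕ} {κ' : ℤ} {Ls Hs : List ℤ}
    {F : List (V × List (P6 ℤ))} {F' : List (ℝ × List (P6 ℤ))}
    (hF : Forall₂ (fun q q' => R q.1 q'.1 ∧ q.2 = q'.2) F F') {L : List (List A3)}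
    {C : List (List V)} {C' : List (List ℝ)} (hC : Forall₂ (Forall₂ R) C C') {G : List (ℕ × List W)}
    {dt : List (List V)} (hd : ∀ ds ∈ dt, ∀ d ∈ ds, ∃ t, R d t) (hκ : 0 < κ') (hN : lenOk N F = true)
    (h : chkN O S N κ' Ls Hs F L C G dt = true)
    {xs : List ℝ} (hB : Bd κ' Ls Hs xs) (hx : xs.getLastD 0 = -xs.headI) (hlN : Ls.length = N) :
    0 ≤ (F'.map fun q => q.1 * sum6 (castP q.2) xs).sum + qv id C' (L.map fun f => sum3 f xs) := by
  obtain ⟨θ, hb, hI⟩ := ex_inc hB
  obtain ⟨l1, l2⟩ := inc_len hI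
  set hh := addZ Ls Hs with hhd
  have hs := inc_sum hI 0
  rw [hx] at hs
  have h0 : 2 * (κ' : ℝ) * xs.headI = (Ls.sum : ℤ) + -lz hh θ := by
    rw [hs]
    ring
  have hT := addR_par H (tab_par H (hh.map fun x => -x) (run_par H (hh.map fun x => 2 * x)
      (srs_par H (2 * κ') Ls.sum Ls (locP_par H hF))))
    (sbR_par H (addR_par H hC (grams_par H K G))
      (L.map (row3 (2 * κ') Ls.sum Ls (hh.map fun x => 2 * x) (hh.map fun x => -x))))
  have hc := fin_par H hT hd h hb (by rw [← l2, hlN])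
  have hlF : (locP OR F').length = N := by
    have hne : F ≠ [] := by
      rintro rfl
      simp [lenOk] at hN
    have hall : ∀ q ∈ F, q.2.length = N := by
      intro q hq
      cases F with
      | nil => simp at hq
      | cons a F =>
        simp only [lenOk, List.all_eq_true] at hN
        exact Nat.eq_of_beq_eq_true (hN q hq)
    rw [← locP_length O N hall hne]
    exact (locP_par H hF).length_eq.symm
  rw [qv_addR evOR, qv_tab, qv_sbR evOR, qv_addR evOR] at hc
  have hg := grams_nonpos evOR (esSR ψ) (vals (L.map (row3 (2 * κ') Ls.sum Ls (hh.map fun x => 2 * x)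
    (hh.map fun x => -x))) (1 :: θ)) G
  have e1 := sum6_run (hh.map fun x => 2 * x) (srs OR (2 * κ') Ls.sum Ls (locP OR F')) θ (-lz hh θ)
    (by simpa using l1) (by rw [srs_length _ _ _ _ _ (by rw [hlF, hlN]), l2])
  rw [sum6_srs hI h0, sum6_locP] at e1
  rw [lz_neg, ← e1] at hc
  have e2 : vals (L.map (row3 (2 * κ') Ls.sum Ls (hh.map fun x => 2 * x) (hh.map fun x => -x))) (1 :: θ)
      = L.map fun f => (2 * κ' : ℝ) * sum3 f xs := by
    unfold vals
    rw [List.map_map]
    refine List.map_congr_left fun f _ => ?_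
    have h3 := sum3_run (ps := f) hI h0
    simp only [Function.comp, row3, lz_cons, lz_addZ, lz_map, lz_neg]
    rw [← h3]
    ring
  rw [e2] at hc hg
  have e3 : ∀ (T : List (List ℝ)) (c : ℝ) (X : List ℝ), qv id T (X.map fun x => c * x) = c ^ 2 * qv id T X := by
    have e4 : ∀ (T : List ℝ) (c : ℝ) (X : List ℝ), lv id T (X.map fun x => c * x) = c * lv id T X := by
      intro T c
      induction T with
      | nil => intro X; simp
      | cons a T ih =>
        intro X
        cases X with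
        | nil => simp
        | cons x X =>
          simp only [List.map_cons, lv_cons, ih X]
          ring
    intro T c
    induction T with
    | nil => intro X; simp
    | cons a T ih =>
      intro X
      cases X with
      | nil => simp
      | cons x X =>
        have e5 := e4 a c (x :: X)
        simp only [List.map_cons] at e5
        simp only [List.map_cons, qv_cons, ih X, e5]
        ring
  have e6 : (L.map fun f => (2 * κ' : ℝ) * sum3 f xs) = (L.map fun f => sum3 f xs).map fun x => (2 * κ' : ℝ) * x := by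
    rw [List.map_map]
    rfl
  rw [e6] at hc hg
  rw [e3 C'] at hc
  have hκ' : (0 : ℝ) < (2 * κ' : ℝ) ^ 2 := by
    have : (0 : ℝ) < κ' := by exact_mod_cast hκ
    positivity
  have h5 : 0 ≤ (2 * κ' : ℝ) ^ 2 * ((F'.map fun q => q.1 * sum6 (castP q.2) xs).sum
      + qv id C' (L.map fun f => sum3 f xs)) := by
    linarith
  exact nonneg_of_mul_nonneg_right h5 hκ'

end Pool.Agent.FPX.PLK
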