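import Pool.Agent.FPX.PLQ
/-!
PLR (helper1). The table of a certificate with packed rows: chain part, linear forms with free variables, products.
-/
set_option autoImplicit false

noncomputable section

namespace Pool.Agent.FPX.PLK

open List (Forall₂)

/-! ### chain part -/

/-- form in the first node value and the following variables, packed -/
structure QS where
  c : PV
  r1 : PV
  r2 : PV
  lin : PV
  g : PV
  tri : List PV

def stepS (C : ℕ) (η : ℤ) (p : P6 PV) (s : QS) : QS :=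
  ⟨PV.add p.k s.c, PV.add p.a (PV.add s.r1 p.b), PV.add p.aa (PV.add p.ab (PV.add s.r2 p.bb)),
    PV.cons C (PV.sm η (PV.add s.r1 p.b)) s.lin,
    PV.cons C (PV.sm η (PV.add (PV.add (PV.add s.r2 p.bb) (PV.add s.r2 p.bb)) p.ab)) s.g,
    PV.cons C (PV.sm (η * η) (PV.add s.r2 p.bb)) (PV.sm η s.g) :: s.tri⟩

def runS (C : ℕ) : List ℤ → List (P6 PV) → QS
  | η :: e, p :: ps => stepS C η p (runS C e ps)
  | _, _ => ⟨⟨0, 0, 0⟩, ⟨0, 0, 0⟩, ⟨0, 0, 0⟩, ⟨0, 0, 0⟩, ⟨0, 0, 0⟩, []⟩

section S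

variable {B K : ℕ} {w : List ℝ}

theorem runS_ok (hw : w.length = K) (τ : List ℝ) : ∀ (e : List ℤ) (ps : List (P6 PV)) (ps' : List (P6 ℝ)) (θ : List ℝ),
    Forall₂ (R6 (RV B K w)) ps ps' → e.length = θ.length → ps'.length = θ.length →
    ∃ c r1 r2 lin g tri : ℝ, RV B K w (runS (B ^ K) e ps).c c ∧ RV B K w (runS (B ^ K) e ps).r1 r1 ∧
      RV B K w (runS (B ^ K) e ps).r2 r2 ∧ RR B K w (θ ++ τ) (runS (B ^ K) e ps).lin lin ∧
      RR B K w (θ ++ τ) (runS (B ^ K) e ps).g g ∧ TV B K w (runS (B ^ K) e ps).tri (θ ++ τ) tri ∧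
      ∀ Y : ℝ, sum6 ps' (pth e θ Y) = c + r1 * Y + r2 * Y ^ 2 + lin + Y * g + tri
  | [], [], [], [], _, _, _ => by
    refine ⟨0, 0, 0, 0, 0, 0, RV.zero, RV.zero, RV.zero, RR.zero, RR.zero, by simp [runS, TV], fun Y => by simp [sum6]⟩
  | η :: e, p :: ps, q :: qs, t :: θ, .cons hp hps, h1, h2 => by
    obtain ⟨c, r1, r2, lin, g, tri, k1, k2, k3, k4, k5, k6, k7⟩ := runS_ok hw τ e ps qs θ hps
      (by simpa using h1) (by simpa using h2)
    have u1 := RV.add k2 hp.b
    have u2 := RV.add k3 hp.bb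
    refine ⟨q.k + c, q.a + (r1 + q.b), q.aa + (q.ab + (r2 + q.bb)), t * (η * (r1 + q.b)) + lin,
      t * (η * ((r2 + q.bb) + (r2 + q.bb) + q.ab)) + g,
      t * (t * (((η * η : ℤ) : ℝ) * (r2 + q.bb)) + η * g) + tri, RV.add hp.k k1, RV.add hp.a u1,
      RV.add hp.aa (RV.add hp.ab u2), RR.cons hw (RV.sm u1 η) k4,
      RR.cons hw (RV.sm (RV.add (RV.add u2 u2) hp.ab) η) k5,
      ⟨_, _, RR.cons hw (RV.sm u2 (η * η)) (RV.sm k5 η), k6, rfl⟩, fun Y => ?_⟩
    obtain ⟨m, hm⟩ := pth_ne e θ (Y + η * t)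
    have ih := k7 (Y + η * t)
    simp only [pth]
    rw [hm] at ih ⊢
    simp only [sum6]
    rw [ih]
    simp only [ev6]
    push_cast
    ring
  | [], [], _ :: _, [], h, _, _ => by cases h
  | [], _ :: _, [], [], h, _, _ => by cases h
  | [], _ :: _, _ :: _, [], _, _, h => by simp at h
  | _ :: _, _, _, [], _, h, _ => by simp at h
  | [], _, _, _ :: _, _, h, _ => by simp at h
  | _ :: _, _, [], _ :: _, _, _, h => by simp at h
  | _ :: _, [], _ :: _, _ :: _, h, _, _ => by cases h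

/-- the row multiplied by the first node value -/
def tabM (C : ℕ) (hn : List ℤ) (s : QS) : PV := PV.cons C s.r1 (PV.add s.g (PV.out s.r2 (pkI C hn)))

/-- the table in the variables `(1, θ)`; `hn = -h` -/
def tabS (C : ℕ) (hn : List ℤ) (s : QS) : List PV :=
  addT (PV.cons C s.c s.lin :: s.tri) (prS C (0 :: hn) (tabM C hn s))

theorem lz_append_le : ∀ (l : List ℤ) (D E : List ℝ), l.length ≤ D.length → lz l (D ++ E) = lz l D
  | [], D, E, _ => by simp
  | a :: l, [], E, h => by simp at h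
  | a :: l, d :: D, E, h => by
    rw [List.cons_append, lz_cons, lz_cons, lz_append_le l D E (by simpa using h)]

theorem lz_append_eq : ∀ (l m : List ℤ) (D E : List ℝ), l.length = D.length →
    lz (l ++ m) (D ++ E) = lz l D + lz m E
  | [], m, [], E, _ => by simp
  | a :: l, m, d :: D, E, h => by
    rw [List.cons_append, List.cons_append, lz_cons, lz_cons, lz_append_eq l m D E (by simpa using h)]
    ring
  | [], _, _ :: _, _, h => by simp at h
  | _ :: _, _, [], _, h => by simp at h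

theorem tabS_ok (hw : w.length = K) {τ : List ℝ} {e hn : List ℤ} {ps : List (P6 PV)} {ps' : List (P6 ℝ)}
    {θ : List ℝ} (h : Forall₂ (R6 (RV B K w)) ps ps') (h1 : e.length = θ.length) (h2 : ps'.length = θ.length)
    (h3 : hn.length = θ.length) (hb : (tabM (B ^ K) hn (runS (B ^ K) e ps)).b < B) :
    TV B K w (tabS (B ^ K) hn (runS (B ^ K) e ps)) (1 :: (θ ++ τ)) (sum6 ps' (pth e θ (lz hn θ))) := by
  obtain ⟨c, r1, r2, lin, g, tri, k1, k2, k3, k4, k5, k6, k7⟩ := runS_ok hw τ e ps ps' θ h h1 h2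
  have hl : hn.length ≤ (θ ++ τ).length := by
    rw [List.length_append]
    omega
  have h4 := RR.cons hw (d := 1) k2 (RV.add k5 (out_pkI hw k3 hn (θ ++ τ) hl))
  have h5 := prS_ok hw (0 :: hn) (tabM (B ^ K) hn (runS (B ^ K) e ps)) (1 :: (θ ++ τ)) _
    (by simpa using hl) hb h4
  have h6 : TV B K w (PV.cons (B ^ K) (runS (B ^ K) e ps).c (runS (B ^ K) e ps).lin :: (runS (B ^ K) e ps).tri)
      (1 :: (θ ++ τ)) (1 * (1 * c + lin) + tri) := ⟨_, _, RR.cons hw k1 k4, k6, rfl⟩
  have h7 := TV.add h6 h5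
  have e1 : lz hn (θ ++ τ) = lz hn θ := lz_append_le hn θ τ (by omega)
  have e2 : 1 * (1 * c + lin) + tri + lz (0 :: hn) (1 :: (θ ++ τ)) * (1 * r1 + (g + r2 * lz hn (θ ++ τ)))
      = sum6 ps' (pth e θ (lz hn θ)) := by
    rw [k7 (lz hn θ), lz_cons, e1]
    push_cast
    ring
  rw [← e2]
  exact h7

/-! ### linear forms -/

/-- row of a linear form over `(1, θ, τ)` -/
def rowE (κ ρ : ℤ) (Ls es hn : List ℤ) (q : List A3 × List ℤ) : List ℤ :=
  match run3 κ ρ Ls es q.1 with
  | (c, r, li) =>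
    match q.2 with
    | [] => c :: addZ li (hn.map fun x => r * x)
    | e0 :: e => (c + κ * e0) :: (addZ li (hn.map fun x => r * x) ++ e.map fun x => κ * x)

theorem addZ_length : ∀ l m : List ℤ, (addZ l m).length = max l.length m.length
  | a :: l, b :: m => by simp [addZ, addZ_length l m]
  | [], m => by simp [addZ]
  | a :: l, [] => by simp [addZ]

theorem run3_length (κ : ℤ) : ∀ (ρ : ℤ) (Ls es : List ℤ) (f : List A3), (run3 κ ρ Ls es f).2.2.length ≤ es.length
  | ρ, l :: ls, η :: e, p :: ps => by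
    have ih := run3_length κ (ρ - 2 * l) ls e ps
    simp only [run3, List.length_cons]
    exact Nat.succ_le_succ ih
  | _, [], _, _ => by simp [run3]
  | _, _ :: _, [], _ => by simp [run3]
  | _, _ :: _, _ :: _, [] => by simp [run3]

theorem rowE_ok {κ' : ℤ} {Ls h : List ℤ} {θ τ xs : List ℝ} (hI : Inc κ' Ls h θ xs)
    (h0 : 2 * (κ' : ℝ) * xs.headI = (Ls.sum : ℤ) + -lz h θ) (q : List A3 × List ℤ) :
    lz (rowE (2 * κ') Ls.sum Ls (h.map fun x => 2 * x) (h.map fun x => -x) q) (1 :: (θ ++ τ))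
      = (2 * κ' : ℝ) * (sum3 q.1 xs + lz q.2 (1 :: τ)) := by
  have h3 := lz_nonneg_row hI h0 q.1
  have l1 := (inc_len hI).1
  unfold row3 at h3
  unfold rowE
  have hlen : (addZ (run3 (2 * κ') Ls.sum Ls (h.map fun x => 2 * x) q.1).2.2
      ((h.map fun x => -x).map fun x => (run3 (2 * κ') Ls.sum Ls (h.map fun x => 2 * x) q.1).2.1 * x)).length
      = θ.length := by
    have h5 := run3_length (2 * κ') Ls.sum Ls (h.map fun x => 2 * x) q.1
    rw [addZ_length, List.length_map, List.length_map, l1]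
    rw [List.length_map, l1] at h5
    exact max_eq_right h5
  cases hq : q.2 with
  | nil =>
    simp only [lz_cons, lz_nil] at h3 ⊢
    rw [lz_append_le _ _ _ hlen.le, h3]
    ring
  | cons e0 e =>
    simp only [lz_cons] at h3 ⊢
    rw [lz_append_eq _ _ _ _ hlen, lz_map]
    push_cast
    push_cast at h3
    linear_combination h3

theorem rowE_length {κ' : ℤ} {Ls h : List ℤ} {θ : List ℝ} {xs : List ℝ} (hI : Inc κ' Ls h θ xs) {M : ℕ}
    {q : List A3 × List ℤ} (hq : q.2.length ≤ M + 1) :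
    (rowE (2 * κ') Ls.sum Ls (h.map fun x => 2 * x) (h.map fun x => -x) q).length ≤ θ.length + M + 1 := by
  have l1 := (inc_len hI).1
  have hlen : (addZ (run3 (2 * κ') Ls.sum Ls (h.map fun x => 2 * x) q.1).2.2
      ((h.map fun x => -x).map fun x => (run3 (2 * κ') Ls.sum Ls (h.map fun x => 2 * x) q.1).2.1 * x)).length
      = θ.length := by
    have h5 := run3_length (2 * κ') Ls.sum Ls (h.map fun x => 2 * x) q.1
    rw [addZ_length, List.length_map, List.length_map, l1]
    rw [List.length_map, l1] at h5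
    exact max_eq_right h5
  unfold rowE
  cases hq' : q.2 with
  | nil =>
    simp only [List.length_cons]
    rw [hlen]
    omega
  | cons e0 e =>
    rw [hq'] at hq
    simp only [List.length_cons, List.length_append] at hq ⊢
    rw [hlen, List.length_map]
    omega

/-! ### tables of integers -/

/-- packed row of integer chunks -/
def pkR (B C : ℕ) : List (List ℤ) → PV
  | [] => ⟨0, 0, 0⟩
  | c :: r => PV.cons C (ofZ B c) (pkR B C r)

theorem pkR_ok (hw : w.length = K) : ∀ (r : List (List ℤ)) (D : List ℝ), (∀ c ∈ r, c.length = K) →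
    r.length ≤ D.length → RR B K w D (pkR B (B ^ K) r) (lv id (r.map (iz w)) D)
  | [], D, _, _ => by simpa [pkR] using RR.zero
  | c :: r, [], _, h => by simp at h
  | c :: r, d :: D, hc, h => by
    have ih := pkR_ok hw r D (fun c' h' => hc c' (by simp [h'])) (by simpa using h)
    have h1 := RR.cons hw (d := d) (ofZ_ok (B := B) (w := w) (hc c (by simp))) ih
    simp only [List.map_cons, lv_cons, id]
    rw [mul_comm (iz w c) d]
    exact h1

/-- the rows fit in the upper triangle -/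
def fitT : ℕ → List (List (List ℤ)) → Bool
  | _, [] => true
  | 0, _ :: _ => false
  | n + 1, r :: T => Nat.ble r.length (Nat.succ n) && fitT n T

theorem pkT_ok (hw : w.length = K) : ∀ (T : List (List (List ℤ))) (D : List ℝ),
    (∀ r ∈ T, ∀ c ∈ r, c.length = K) → fitT D.length T = true →
    TV B K w (T.map (pkR B (B ^ K))) D (qv id (T.map fun r => r.map (iz w)) D)
  | [], D, _, _ => by simp [TV]
  | r :: T, [], _, h => by simp [fitT] at h
  | r :: T, d :: D, hc, h => by
    simp only [List.length_cons, fitT, Bool.and_eq_true, Nat.ble_eq] at h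
    have ih := pkT_ok hw T D (fun r' h' => hc r' (by simp [h'])) h.2
    exact ⟨_, _, pkR_ok hw r (d :: D) (hc r (by simp)) (by simpa using h.1), ih, rfl⟩

/-! ### multipliers -/

/-- sum of the chunks -/
def lamC (f : ℕ → PV) (CN : ℕ) : ℕ → ℕ → PV
  | 0, _ => ⟨0, 0, 0⟩
  | k + 1, y => PV.add (f (Nat.mod y CN)) (lamC f CN k (Nat.div y CN))

/-- row of the differences -/
def lamD (f : ℕ → PV) (C CN : ℕ) : ℕ → ℕ → ℕ → PV
  | 0, _, _ => ⟨0, 0, 0⟩
  | k + 1, x, y => PV.cons C (PV.sub (f (Nat.mod x CN)) (f (Nat.mod y CN))) (lamD f C CN k (Nat.div x CN) (Nat.div y CN))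

/-- all chunks pass the test -/
def lamT (t : ℕ → Bool) (CN : ℕ) : ℕ → ℕ → Bool
  | 0, _ => true
  | k + 1, x => t (Nat.mod x CN) && lamT t CN k (Nat.div x CN)

/-- the packed multiplier -/
def lamS (f : ℕ → PV) (C CN k x y : ℕ) : PV := PV.cons C (lamC f CN k y) (lamD f C CN k x y)

theorem lam_ok (hw : w.length = K) {f : ℕ → PV} {g : ℕ → ℝ} (hf : ∀ c, RV B K w (f c) (g c)) {t : ℕ → Bool}
    (ht : ∀ c, t c = true → 0 ≤ g c) (CN : ℕ) : ∀ (k x y : ℕ) (D : List ℝ), D.length = k → Box D →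
    lamT t CN k x = true → lamT t CN k y = true → ∃ s r, RV B K w (lamC f CN k y) s ∧
      RR B K w D (lamD f (B ^ K) CN k x y) r ∧ 0 ≤ s + r
  | 0, x, y, D, _, _, _, _ => ⟨0, 0, RV.zero, RR.zero, by simp⟩
  | k + 1, x, y, [], h, _, _, _ => by simp at h
  | k + 1, x, y, d :: D, hl, hD, hx, hy => by
    simp only [lamT, Bool.and_eq_true] at hx hy
    obtain ⟨⟨d0, d1⟩, hD'⟩ := hD.cons
    obtain ⟨s, r, h1, h2, h3⟩ := lam_ok hw hf ht CN k _ _ D (by simpa using hl) hD' hx.2 hy.2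
    refine ⟨_, _, RV.add (hf _) h1, RR.cons hw (RV.sub (hf _) (hf _)) h2, ?_⟩
    have a1 := ht _ hx.1
    have a2 := ht _ hy.1
    have : 0 ≤ g (Nat.mod x CN) * d + g (Nat.mod y CN) * (1 - d) := by
      have : 0 ≤ 1 - d := by linarith
      positivity
    linarith

end S

end Pool.Agent.FPX.PLK
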