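import Pool.Agent.FPX.PLR
/-!
PLT (helper1). The test of a packed table: rounding to narrow digits, pairs, rows.
-/
set_option autoImplicit false

noncomputable section

namespace Pool.Agent.FPX.PLK

open List (Forall₂)

/-! ### digits -/

theorem dgs_add (W : ℕ) : ∀ a b x : ℕ, dgs W (a + b) x = dgs W a x ++ dgs W b (x / W ^ a)
  | 0, b, x => by simp [dgs]
  | a + 1, b, x => by
    have ih := dgs_add W a b (x / W)
    rw [show a + 1 + b = (a + b) + 1 by ring]
    simp only [dgs, List.cons_append]
    rw [show Nat.div x W = x / W from rfl, ih, Nat.div_div_eq_div_mul, pow_succ, mul_comm W (W ^ a)]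

theorem dgs_mod (W : ℕ) : ∀ a x : ℕ, dgs W a (x % W ^ a) = dgs W a x
  | 0, x => rfl
  | a + 1, x => by
    have ih := dgs_mod W a (x / W)
    simp only [dgs]
    have e1 : Nat.mod (x % W ^ (a + 1)) W = Nat.mod x W := by
      change (x % W ^ (a + 1)) % W = x % W
      exact Nat.mod_mod_of_dvd x (dvd_pow_self W (by omega))
    have e2 : Nat.div (x % W ^ (a + 1)) W = (x / W) % W ^ a := by
      change (x % W ^ (a + 1)) / W = (x / W) % W ^ a
      rw [pow_succ, mul_comm (W ^ a) W, Nat.mod_mul_right_div_self]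
    rw [e1, e2, ih]
    rfl

theorem od_dgs {W : ℕ} : ∀ k x : ℕ, x < W ^ k → od W (dgs W k x) = x
  | 0, x, h => by
    simp only [pow_zero, Nat.lt_one_iff] at h
    simp [dgs, od, h]
  | k + 1, x, h => by
    have h1 : x / W < W ^ k := by
      rcases Nat.eq_zero_or_pos W with rfl | hW
      · simp at h
      · exact Nat.div_lt_of_lt_mul (by rwa [pow_succ, mul_comm] at h)
    have ih := od_dgs k (x / W) h1
    simp only [dgs, od]
    change x % W + W * od W (dgs W k (x / W)) = x
    rw [ih]
    exact Nat.mod_add_div x W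

theorem ip_rep (a : ℕ) : ∀ (w : List ℝ) (k : ℕ), ip w (List.replicate k a) = a * ip w (List.replicate k 1)
  | w, 0 => by simp
  | [], k => by simp
  | v :: w, k + 1 => by
    rw [List.replicate_succ, List.replicate_succ, ip, ip, ip_rep a w k]
    push_cast
    ring

theorem wf_rep {K : ℕ} {w : List ℝ} (hw : w.length = K) (h : ℕ) : ∀ D : List ℝ,
    ip (wf w D) (List.replicate (K * D.length) h) = h * ip w (List.replicate K 1) * D.sum
  | [] => by simp [wf]
  | d :: D => by
    have ih := wf_rep hw h D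
    rw [show K * (d :: D).length = K + K * D.length by rw [List.length_cons]; ring, List.replicate_add]
    simp only [wf]
    rw [ip_append _ _ _ _ (by simp [hw]), ip_smul, ip_rep h w K, ih, List.sum_cons]
    ring

/-- value of a row of digits -/
def rv (w : List ℝ) (W K : ℕ) (D : List ℝ) (x : ℕ) : ℝ := ip (wf w D) (dgs W (K * D.length) x)

theorem rv_cons {w : List ℝ} {W K : ℕ} (hw : w.length = K) (d : ℝ) (D : List ℝ) (x : ℕ) :
    rv w W K (d :: D) x = d * ip w (dgs W K (x % W ^ K)) + rv w W K D (x / W ^ K) := by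
  unfold rv
  rw [show K * (d :: D).length = K + K * D.length by rw [List.length_cons]; ring, dgs_add]
  simp only [wf]
  rw [ip_append _ _ _ _ (by simp [hw, dgs_length]), ip_smul, dgs_mod]

theorem and_mask {w v d : ℕ} (hvw : v ≤ w) (hd : d < 2 ^ w) (h : d &&& (2 ^ w - 2 ^ v) = 0) : d < 2 ^ v := by
  have h1 : (d &&& (2 ^ w - 2 ^ v)) / 2 ^ v = 0 := by rw [h]; simp
  rw [Nat.and_div_two_pow] at h1
  have h2 : (2 ^ w - 2 ^ v) / 2 ^ v = 2 ^ (w - v) - 1 := by
    have e : 2 ^ w - 2 ^ v = 2 ^ v * (2 ^ (w - v) - 1) := by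
      rw [Nat.mul_sub, ← pow_add, Nat.add_sub_cancel' hvw, mul_one]
    rw [e, Nat.mul_div_cancel_left _ (by positivity)]
  rw [h2, Nat.and_two_pow_sub_one_eq_mod] at h1
  have h3 : d / 2 ^ v < 2 ^ (w - v) := by
    rw [Nat.div_lt_iff_lt_mul (by positivity), ← pow_add, Nat.sub_add_cancel hvw]
    exact hd
  rw [Nat.mod_eq_of_lt h3] at h1
  exact Nat.lt_of_div_eq_zero (by positivity) h1

/-- mask -/
def msk (w v n : ℕ) : ℕ := od (2 ^ w) (List.replicate n (2 ^ w - 2 ^ v))

theorem msk_ok {w v : ℕ} (hvw : v ≤ w) : ∀ (n k x : ℕ), k ≤ n → x &&& msk w v n = 0 →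
    ∀ d ∈ dgs (2 ^ w) k x, d < 2 ^ v
  | _, 0, _, _, _ => by simp [dgs]
  | 0, _ + 1, _, h, _ => by omega
  | n + 1, k + 1, x, h, hx => by
    have hm : 2 ^ w - 2 ^ v < 2 ^ w := Nat.sub_lt (by positivity) (by positivity)
    have e : msk w v (n + 1) = (2 ^ w - 2 ^ v) + 2 ^ w * msk w v n := by
      simp [msk, List.replicate_succ, od]
    have e1 : msk w v (n + 1) % 2 ^ w = 2 ^ w - 2 ^ v := by
      rw [e, Nat.add_mul_mod_self_left, Nat.mod_eq_of_lt hm]
    have e2 : msk w v (n + 1) / 2 ^ w = msk w v n := by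
      rw [e, Nat.add_mul_div_left _ _ (by positivity), Nat.div_eq_of_lt hm, Nat.zero_add]
    have h1 : (x % 2 ^ w) &&& (2 ^ w - 2 ^ v) = 0 := by
      rw [← e1, ← Nat.and_mod_two_pow, hx]
      simp
    have h2 : (x / 2 ^ w) &&& msk w v n = 0 := by
      rw [← e2, ← Nat.and_div_two_pow, hx]
      simp
    intro d hd
    simp only [dgs, List.mem_cons] at hd
    rcases hd with rfl | hd
    · exact and_mask hvw (Nat.mod_lt _ (by positivity)) h1
    · exact msk_ok hvw n k (x / 2 ^ w) (by omega) h2 d hd

/-- a row with checked digits -/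
theorem row_ok {W K b : ℕ} {w : List ℝ} {D : List ℝ} {x : ℕ} (hx : x < W ^ (K * D.length))
    (hd : ∀ d ∈ dgs W (K * D.length) x, d ≤ b) : RR W K w D ⟨x, 0, b⟩ (rv w W K D x) := by
  refine ⟨dgs W (K * D.length) x, List.replicate (K * D.length) 0, dgs_length _ _, by simp, od_dgs _ _ hx,
    od_zero _ _, hd, ?_, ?_⟩
  · intro d hd'
    rw [List.eq_of_mem_replicate hd']
    exact Nat.zero_le _
  · rw [ip_zero, sub_zero]
    rfl

theorem chunk_ok {W K b : ℕ} {w : List ℝ} {x : ℕ} (hx : x < W ^ K) (hd : ∀ d ∈ dgs W K x, d ≤ b) :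
    RV W K w ⟨x, 0, b⟩ (ip w (dgs W K x)) := by
  refine ⟨dgs W K x, List.replicate K 0, dgs_length _ _, by simp, od_dgs _ _ hx, od_zero _ _, hd, ?_, ?_⟩
  · intro d hd'
    rw [List.eq_of_mem_replicate hd']
    exact Nat.zero_le _
  · rw [ip_zero, sub_zero]

theorem od_lt2 {W : ℕ} : ∀ P : List ℕ, P ≠ [] → (∀ d ∈ P, d + 2 ≤ W) → od W P + 2 ≤ W ^ P.length
  | [], h, _ => absurd rfl h
  | d :: P, _, h => by
    have h1 := od_lt (B := W) P fun e he => by
      have := h e (by simp [he])
      omega
    have h2 := h d (by simp)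
    simp only [od, Nat.add_eq, Nat.mul_eq, List.length_cons, pow_succ]
    nlinarith

theorem RV.lt2 {W K : ℕ} {w : List ℝ} {p n b : ℕ} {t : ℝ} (h : RV W K w ⟨p, n, b⟩ t) (hK : 0 < K)
    (hb : b + 2 ≤ W) : p + 2 ≤ W ^ K := by
  obtain ⟨P, N, a1, a2, a3, a4, a5, a6, a7⟩ := h
  have := od_lt2 (W := W) P (by rintro rfl; simp at a1; omega) fun d hd => by
    have h5 : d ≤ b := a5 d hd
    omega
  rw [a1, a3] at this
  exact this

theorem lt_pred {a b : ℕ} (h : a + 2 ≤ b) : a < b - 1 := by omega

theorem mod_pred {m : ℕ} (h : 0 < m) : m % (m - 1) = 1 % (m - 1) := by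
  obtain ⟨n, rfl⟩ : ∃ n, m = n + 1 := ⟨m - 1, by omega⟩
  rw [Nat.add_sub_cancel, Nat.add_mod_left]

/-- **sum of the chunks** -/
theorem hsum {W K b : ℕ} {w : List ℝ} (hw : w.length = K) (hK : 0 < K) : ∀ (k x : ℕ), k * b + 2 ≤ W →
    x < W ^ (K * k) → (∀ d ∈ dgs W (K * k) x, d ≤ b) →
    RV W K w ⟨x % (W ^ K - 1), 0, k * b⟩ (rv w W K (List.replicate k 1) x)
  | 0, x, _, hx, _ => by
    simp only [Nat.mul_zero, pow_zero, Nat.lt_one_iff] at hx
    subst hx
    have e : rv w W K (List.replicate 0 1) 0 = 0 := by simp [rv, wf]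
    rw [e, Nat.zero_mod, Nat.zero_mul]
    exact RV.zero
  | k + 1, x, hb, hx, hd => by
    have hW : 0 < W := by omega
    have e1 : K * (k + 1) = K + K * k := by ring
    rw [e1] at hx hd
    rw [dgs_add] at hd
    have hx' : x / W ^ K < W ^ (K * k) := by
      refine Nat.div_lt_of_lt_mul ?_
      rwa [← pow_add]
    have ih := hsum hw hK k (x / W ^ K) (by nlinarith) hx' fun d h => hd d (by simp [h])
    have hc : x % W ^ K < W ^ K := Nat.mod_lt _ (by positivity)
    have h1 : RV W K w ⟨x % W ^ K, 0, b⟩ (ip w (dgs W K (x % W ^ K))) :=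
      chunk_ok hc fun d h => hd d (by rw [dgs_mod] at h; simp [h])
    have h2 := RV.add h1 ih
    have h3 : RV W K w ⟨x % W ^ K + x / W ^ K % (W ^ K - 1), 0, (k + 1) * b⟩
        (ip w (dgs W K (x % W ^ K)) + rv w W K (List.replicate k 1) (x / W ^ K)) :=
      RV.mono h2 (by
        change b + k * b ≤ (k + 1) * b
        ring_nf
        exact le_refl _)
    have h4 := h3.lt2 hK hb
    have e2 : x % (W ^ K - 1) = x % W ^ K + x / W ^ K % (W ^ K - 1) := by
      have h5 : x % W ^ K + x / W ^ K % (W ^ K - 1) < W ^ K - 1 := lt_pred h4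
      have h6 : W ^ K % (W ^ K - 1) = 1 % (W ^ K - 1) := mod_pred (by positivity)
      conv_lhs => rw [← Nat.mod_add_div x (W ^ K)]
      rw [← Nat.mod_eq_of_lt h5]
      rw [Nat.add_mod, Nat.mul_mod, h6, ← Nat.mul_mod, Nat.one_mul, Nat.add_mod (x % W ^ K) (x / W ^ K % (W ^ K - 1)),
        Nat.mod_mod]
    rw [List.replicate_succ, rv_cons hw, one_mul, e2]
    exact h3

/-- a row of differences with an offset -/
theorem off_ok {B K : ℕ} {w D : List ℝ} {x : PV} {r : ℝ} (hw : w.length = K) (h : RR B K w D x r) {c : ℕ}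
    (h1 : x.b ≤ c) (h2 : x.b + c < B) {H : ℕ} (hH : H = od B (List.replicate (K * D.length) c)) :
    r = rv w B K D (x.p + H - x.n) - c * ip w (List.replicate K 1) * D.sum := by
  obtain ⟨P, N, a1, a2, a3, a4, a5, a6, a7⟩ := h
  have key : ∀ (k : ℕ) (u : List ℝ) (P N : List ℕ), P.length = k → N.length = k → (∀ d ∈ P, d ≤ x.b) →
      (∀ d ∈ N, d ≤ x.b) → ∃ X : List ℕ, X.length = k ∧ (∀ d ∈ X, d < B) ∧
        od B X + od B N = od B P + od B (List.replicate k c) ∧
        ip u X = ip u P - ip u N + ip u (List.replicate k c) := by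
    intro k
    induction k with
    | zero =>
      intro u P N hP hN _ _
      rw [List.length_eq_zero_iff] at hP hN
      subst hP hN
      exact ⟨[], rfl, by simp, by simp [od], by simp⟩
    | succ k ih =>
      intro u P N hP hN bP bN
      cases P with
      | nil => simp at hP
      | cons p P =>
        cases N with
        | nil => simp at hN
        | cons n N =>
          have q1 := bP p (by simp)
          have q2 := bN n (by simp)
          cases u with
          | nil =>
            obtain ⟨X, x1, x2, x3, _⟩ := ih [] P N (by simpa using hP) (by simpa using hN)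
              (fun d hd => bP d (by simp [hd])) (fun d hd => bN d (by simp [hd]))
            refine ⟨(p + c - n) :: X, by simp [x1], ?_, ?_, by simp⟩
            · intro d hd
              rcases List.mem_cons.1 hd with rfl | hd
              · omega
              · exact x2 d hd
            · rw [List.replicate_succ]
              simp only [od, Nat.add_eq, Nat.mul_eq]
              have : B * od B X + B * od B N = B * od B P + B * od B (List.replicate k c) := by
                rw [← Nat.mul_add, x3, Nat.mul_add]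
              omega
          | cons v u =>
            obtain ⟨X, x1, x2, x3, x4⟩ := ih u P N (by simpa using hP) (by simpa using hN)
              (fun d hd => bP d (by simp [hd])) (fun d hd => bN d (by simp [hd]))
            refine ⟨(p + c - n) :: X, by simp [x1], ?_, ?_, ?_⟩
            · intro d hd
              rcases List.mem_cons.1 hd with rfl | hd
              · omega
              · exact x2 d hd
            · rw [List.replicate_succ]
              simp only [od, Nat.add_eq, Nat.mul_eq]
              have : B * od B X + B * od B N = B * od B P + B * od B (List.replicate k c) := by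
                rw [← Nat.mul_add, x3, Nat.mul_add]
              omega
            · rw [List.replicate_succ]
              simp only [ip, x4]
              rw [Nat.cast_sub (by omega)]
              push_cast
              ring
  obtain ⟨X, x1, x2, x3, x4⟩ := key _ (wf w D) P N a1 a2 a5 a6
  have e1 : x.p + H - x.n = od B X := by
    rw [hH, ← a3, ← a4, ← x3]
    omega
  have e2 : rv w B K D (x.p + H - x.n) = ip (wf w D) X := by
    unfold rv
    rw [e1, ← x1, dgs_od X x2]
  rw [e2, x4, a7, wf_rep hw]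
  ring

end Pool.Agent.FPX.PLK
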