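import Pool.Agent.FPX.PLT
/-!
PLU (helper1). Soundness of the test of a packed table.
-/
set_option autoImplicit false

noncomputable section

namespace Pool.Agent.FPX.PLK

open List (Forall₂)

/-- a positivity test for lists of digits, the weights of the slack of the rounding -/
structure Kit (K : ℕ) (w : List ℝ) (T : List ℕ → List ℕ → Bool) (sv : List ℕ) : Prop where
  pos : 0 < K
  len : w.length = K
  slen : sv.length = K
  sound : ∀ P N : List ℕ, P.length = K → N.length = K → T P N = true → ip w N ≤ ip w P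
  rem : ∀ (R Q : List ℕ) (S : ℕ), R.length = K → Q.length = K → (∀ r ∈ R, r ≤ S) → (∀ r ∈ Q, r ≤ S) →
    0 ≤ ip w R - ip w Q + S * ip w sv

/-- digits of the fourth corner -/
def l3 (S : ℕ) : List ℕ → List ℕ → List ℕ → List ℕ
  | b :: bs, d :: ds, e :: es => Nat.add (Nat.add b d) (Nat.div e S) :: l3 S bs ds es
  | _, _, _ => []

theorem l3_length (S : ℕ) : ∀ {b d e : List ℕ} {k : ℕ}, b.length = k → d.length = k → e.length = k →
    (l3 S b d e).length = k
  | [], [], [], _, h, _, _ => by simpa [l3] using h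
  | b :: bs, d :: ds, e :: es, 0, h, _, _ => by simp at h
  | b :: bs, d :: ds, e :: es, k + 1, h1, h2, h3 => by
    simp only [l3, List.length_cons]
    rw [l3_length S (k := k) (by simpa using h1) (by simpa using h2) (by simpa using h3)]
  | [], _ :: _, _, k, h, h', _ => by simp at h; subst h; simp at h'
  | _ :: _, [], _, k, h, h', _ => by simp at h'; subst h'; simp at h
  | [], [], _ :: _, k, h, _, h' => by simp at h; subst h; simp at h'
  | _ :: _, _ :: _, [], k, h, _, h' => by simp at h'; subst h'; simp at h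

theorem ip_l3 (S : ℕ) : ∀ (w : List ℝ) {b d e : List ℕ} {k : ℕ}, b.length = k → d.length = k → e.length = k →
    ip w (l3 S b d e) = ip w b + ip w d + ip w (e.map fun x => x / S)
  | w, [], [], [], _, _, _, _ => by simp [l3]
  | [], _, _, _, _, _, _, _ => by simp
  | _ :: _, b :: bs, d :: ds, e :: es, 0, h, _, _ => by simp at h
  | v :: w, b :: bs, d :: ds, e :: es, k + 1, h1, h2, h3 => by
    have ih := ip_l3 S w (k := k) (b := bs) (d := ds) (e := es) (by simpa using h1) (by simpa using h2)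
      (by simpa using h3)
    simp only [l3, List.map_cons, ip, ih]
    rw [show ((Nat.add (Nat.add b d) (Nat.div e S) : ℕ) : ℝ) = (b : ℝ) + d + ((e / S : ℕ) : ℝ) by
      change (((b + d) + e / S : ℕ) : ℝ) = _
      push_cast
      ring]
    ring
  | _ :: _, [], _ :: _, _, k, h, h', _ => by simp at h; subst h; simp at h'
  | _ :: _, _ :: _, [], _, k, h, h', _ => by simp at h'; subst h'; simp at h
  | _ :: _, [], [], _ :: _, k, h, _, h' => by simp at h; subst h; simp at h'
  | _ :: _, _ :: _, _ :: _, [], k, h, _, h' => by simp at h'; subst h'; simp at h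

theorem ip_split (S : ℕ) : ∀ (w : List ℝ) (e : List ℕ),
    ip w e = S * ip w (e.map fun x => x / S) + ip w (e.map fun x => x % S)
  | w, [] => by simp
  | [], _ => by simp
  | v :: w, x :: e => by
    have ih := ip_split S w e
    have h : (x : ℝ) = S * ((x / S : ℕ) : ℝ) + ((x % S : ℕ) : ℝ) := by
      exact_mod_cast (Nat.div_add_mod x S).symm
    simp only [List.map_cons, ip]
    rw [ih]
    linear_combination v * h

section kit

variable {K : ℕ} {w : List ℝ} {T : List ℕ → List ℕ → Bool} {sv : List ℕ}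

theorem Kit.floor2 (kit : Kit K w T sv) {S : ℕ} (hS : 0 < S) {e e' : List ℕ} (he : e.length = K) (he' : e'.length = K) :
    S * (ip w (e.map fun x => x / S) - ip w (e'.map fun x => x / S) - ip w sv) ≤ ip w e - ip w e' := by
  have hm : ∀ e : List ℕ, ∀ r ∈ (e.map fun x => x % S), r ≤ S := by
    intro e r hr
    obtain ⟨x, _, rfl⟩ := List.mem_map.1 hr
    exact (Nat.mod_lt _ hS).le
  have h1 := kit.rem (e.map fun x => x % S) (e'.map fun x => x % S) S (by simpa using he) (by simpa using he') (hm e)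
    (hm e')
  have h2 := ip_split S w e
  have h3 := ip_split S w e'
  linarith

theorem Kit.floor (kit : Kit K w T sv) {S : ℕ} (hS : 0 < S) {e : List ℕ} (he : e.length = K) :
    S * (ip w (e.map fun x => x / S) - ip w sv) ≤ ip w e := by
  have h1 := kit.floor2 hS he (e' := List.replicate K 0) (by simp)
  rw [ip_zero, List.map_replicate, Nat.zero_div, ip_zero] at h1
  linarith

/-- the test of a pair, `f` the offsets of the fourth corner -/
def pairL (T : List ℕ → List ℕ → Bool) (K W B S o : ℕ) (f : List ℕ) (a b d e e' : ℕ) : Bool :=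
  T (dgs W K a) (List.replicate K o) && (T (dgs W K b) (List.replicate K o) && (T (dgs W K d) (List.replicate K o) &&
    T (l3 S (dgs W K b) (dgs W K d) (dgs B K e)) (l3 S (dgs W K a) f (dgs B K e'))))

/-- offsets of the fourth corner -/
def ofs (K c : ℕ) (sv : List ℕ) : List ℕ := addN (List.replicate K c) sv

theorem ofs_len (kit : Kit K w T sv) (c : ℕ) : (ofs K c sv).length = K := addN_length (by simp) kit.slen

theorem ip_ofs (kit : Kit K w T sv) (c : ℕ) :
    ip w (ofs K c sv) = c * ip w (List.replicate K 1) + ip w sv := by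
  unfold ofs
  rw [ip_addN _ _ _ (by simp [kit.slen]), ip_rep]

theorem pairL_ok (kit : Kit K w T sv) {W B S o : ℕ} (hS : 0 < S) {a b d e e' : ℕ}
    (h : pairL T K W B S o (ofs K o sv) a b d e e' = true) :
    0 ≤ ip w (dgs W K a) - o * ip w (List.replicate K 1) ∧ 0 ≤ ip w (dgs W K b) - o * ip w (List.replicate K 1) ∧
    0 ≤ ip w (dgs W K d) - o * ip w (List.replicate K 1) ∧
    0 ≤ S * (ip w (dgs W K b) + ip w (dgs W K d) - ip w (dgs W K a) - o * ip w (List.replicate K 1))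
      + (ip w (dgs B K e) - ip w (dgs B K e')) := by
  simp only [pairL, Bool.and_eq_true] at h
  obtain ⟨h1, h2, h3, h4⟩ := h
  have q1 := kit.sound _ _ (dgs_length _ _) (by simp) h1
  have q2 := kit.sound _ _ (dgs_length _ _) (by simp) h2
  have q3 := kit.sound _ _ (dgs_length _ _) (by simp) h3
  have q4 := kit.sound _ _ (l3_length S (dgs_length _ _) (dgs_length _ _) (dgs_length _ _))
    (l3_length S (dgs_length _ _) (ofs_len kit _) (dgs_length _ _)) h4
  rw [ip_rep] at q1 q2 q3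
  rw [ip_l3 S w (dgs_length _ _) (dgs_length _ _) (dgs_length _ _),
    ip_l3 S w (dgs_length _ _) (ofs_len kit _) (dgs_length _ _), ip_ofs kit] at q4
  have q5 := kit.floor2 hS (dgs_length (B := B) K e) (dgs_length (B := B) K e')
  refine ⟨by linarith, by linarith, by linarith, ?_⟩
  have hS' : (0 : ℝ) ≤ S := Nat.cast_nonneg _
  have q6 := mul_le_mul_of_nonneg_left q4 hS'
  linarith

/-- all pairs of a row -/
def prs (t : ℕ → ℕ → ℕ → ℕ → ℕ → Bool) (CN CB : ℕ) (k : ℕ) : ℕ → ℕ → ℕ → ℕ → ℕ → Bool :=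
  Nat.rec (motive := fun _ => ℕ → ℕ → ℕ → ℕ → ℕ → Bool) (fun _ _ _ _ _ => true)
    (fun _ ih xa xb xd xe xf => t (Nat.mod xa CN) (Nat.mod xb CN) (Nat.mod xd CN) (Nat.mod xe CB) (Nat.mod xf CB) &&
      ih (Nat.div xa CN) (Nat.div xb CN) (Nat.div xd CN) (Nat.div xe CB) (Nat.div xf CB)) k

theorem prs_ok (kit : Kit K w T sv) {W B S o : ℕ} (hS : 0 < S) {t : ℕ → ℕ → ℕ → ℕ → ℕ → Bool}
    (ht : ∀ a b d e e', t a b d e e' = true → pairL T K W B S o (ofs K o sv) a b d e e' = true) :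
    ∀ (k xa xb xd xe xf : ℕ), prs t (W ^ K) (B ^ K) k xa xb xd xe xf = true → ∀ (s : ℝ) (D : List ℝ), 0 ≤ s → s ≤ 1 →
      D.length = k → Box D →
      0 ≤ S * ((rv w W K (List.replicate k 1) xa - k * (o * ip w (List.replicate K 1)))
          + s * (rv w W K (List.replicate k 1) xb - rv w W K (List.replicate k 1) xa)
          + (rv w W K D xd - rv w W K D xa))
        + s * (rv w B K D xe - rv w B K D xf)
  | 0, xa, xb, xd, xe, xf, _, s, D, _, _, hl, _ => by
    rw [List.length_eq_zero_iff] at hl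
    subst hl
    simp [rv, wf]
  | k + 1, xa, xb, xd, xe, xf, h, s, [], _, _, hl, _ => by simp at hl
  | k + 1, xa, xb, xd, xe, xf, h, s, d :: D, hs, hs', hl, hD => by
    simp only [prs, Bool.and_eq_true] at h
    obtain ⟨h1, h2⟩ := h
    obtain ⟨⟨d0, d1⟩, hD'⟩ := hD.cons
    have ih := prs_ok kit hS ht k _ _ _ _ _ h2 s D hs hs' (by simpa using hl) hD'
    obtain ⟨p1, p2, p3, p4⟩ := pairL_ok kit hS (ht _ _ _ _ _ h1)
    have q := bil (mul_nonneg (Nat.cast_nonneg (α := ℝ) S) p1) (mul_nonneg (Nat.cast_nonneg (α := ℝ) S) p2)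
      (mul_nonneg (Nat.cast_nonneg (α := ℝ) S) p3) p4 hs hs' d0 d1
    rw [List.replicate_succ, rv_cons kit.len, rv_cons kit.len, rv_cons kit.len, rv_cons kit.len, rv_cons kit.len,
      rv_cons kit.len]
    change 0 ≤ S * ((rv w W K (List.replicate k 1) (xa / W ^ K) - k * (o * ip w (List.replicate K 1)))
          + s * (rv w W K (List.replicate k 1) (xb / W ^ K) - rv w W K (List.replicate k 1) (xa / W ^ K))
          + (rv w W K D (xd / W ^ K) - rv w W K D (xa / W ^ K)))
        + s * (rv w B K D (xe / B ^ K) - rv w B K D (xf / B ^ K)) at ih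
    change 0 ≤ _ * (ip w (dgs W K (xa % W ^ K)) - _) * _ + _ * (ip w (dgs W K (xb % W ^ K)) - _) * _
      + _ * (ip w (dgs W K (xd % W ^ K)) - _) * _ + (_ * (ip w (dgs W K (xb % W ^ K)) + ip w (dgs W K (xd % W ^ K))
      - ip w (dgs W K (xa % W ^ K)) - _) + (ip w (dgs B K (xe % B ^ K)) - ip w (dgs B K (xf % B ^ K)))) * _ at q
    generalize ip w (dgs W K (xa % W ^ K)) = va at q ⊢
    generalize ip w (dgs W K (xb % W ^ K)) = vb at q ⊢
    generalize ip w (dgs W K (xd % W ^ K)) = vd at q ⊢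
    generalize ip w (dgs B K (xe % B ^ K)) = ve at q ⊢
    generalize ip w (dgs B K (xf % B ^ K)) = vf at q ⊢
    generalize rv w W K (List.replicate k 1) (xa / W ^ K) = ra at ih ⊢
    generalize rv w W K (List.replicate k 1) (xb / W ^ K) = rb at ih ⊢
    generalize rv w W K D (xd / W ^ K) = rd at ih ⊢
    generalize rv w W K D (xa / W ^ K) = ra' at ih ⊢
    generalize rv w B K D (xe / B ^ K) = re at ih ⊢
    generalize rv w B K D (xf / B ^ K) = rf at ih ⊢
    push_cast
    linarith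

/-- check of a row of digits -/
def rowT (mk c x : ℕ) : Bool := Nat.ble (Nat.succ x) c && Nat.beq (Nat.land x mk) 0

theorem rowT_ok {ws v m k : ℕ} (hv : v ≤ ws) (hk : K * k ≤ m) {x : ℕ}
    (h : rowT (msk ws v m) (((2 ^ ws) ^ K) ^ k) x = true) :
    x < (2 ^ ws) ^ (K * k) ∧ ∀ d ∈ dgs (2 ^ ws) (K * k) x, d ≤ 2 ^ v := by
  simp only [rowT, Bool.and_eq_true, Nat.ble_eq] at h
  obtain ⟨h1, h2⟩ := h
  refine ⟨by rw [pow_mul]; exact h1, fun d hd => ?_⟩
  exact (msk_ok hv m (K * k) x hk (Nat.eq_of_beq_eq_true h2) d hd).le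

/-- the tests of the diagonal -/
def tgL (T : List ℕ → List ℕ → Bool) (K W B S o oe : ℕ) (sv : List ℕ) (α lp ln x y : ℕ) : Bool :=
  T (dgs W K α) (List.replicate K o) &&
    (T (addN (dgs W K α) (addN (dgs W K α) (dgs W K lp))) (addN (dgs W K ln) (ofs K (2 * o + oe) sv)) &&
      T (addN ((addN (dgs W K α) (dgs W K lp)).map fun x => S * x) (dgs B K x))
        (addN ((addN (dgs W K ln) (ofs K (o + oe) sv)).map fun x => S * x) (dgs B K y)))

theorem tgL_ok (kit : Kit K w T sv) {W B S o oe α lp ln x y : ℕ} (h : tgL T K W B S o oe sv α lp ln x y = true) :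
    0 ≤ ip w (dgs W K α) - o * ip w (List.replicate K 1) ∧
    0 ≤ 2 * (ip w (dgs W K α) - o * ip w (List.replicate K 1)) + (ip w (dgs W K lp) - ip w (dgs W K ln)
      - (oe * ip w (List.replicate K 1) + ip w sv)) ∧
    0 ≤ S * ((ip w (dgs W K α) - o * ip w (List.replicate K 1)) + (ip w (dgs W K lp) - ip w (dgs W K ln)
      - (oe * ip w (List.replicate K 1) + ip w sv))) + (ip w (dgs B K x) - ip w (dgs B K y)) := by
  simp only [tgL, Bool.and_eq_true] at h
  obtain ⟨h1, h2, h3⟩ := h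
  have q1 := kit.sound _ _ (dgs_length _ _) (by simp) h1
  have la : (addN (dgs W K α) (dgs W K lp)).length = K := addN_length (dgs_length _ _) (dgs_length _ _)
  have lb : ∀ c, (addN (dgs W K ln) (ofs K c sv)).length = K := fun c => addN_length (dgs_length _ _) (ofs_len kit c)
  have q2 := kit.sound _ _ (addN_length (dgs_length _ _) la) (lb _) h2
  have q3 := kit.sound _ _ (addN_length (by simpa using la) (dgs_length _ _))
    (addN_length (by simpa using lb _) (dgs_length _ _)) h3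
  have lc : ∀ c, ip w (addN (dgs W K ln) (ofs K c sv))
      = ip w (dgs W K ln) + (c * ip w (List.replicate K 1) + ip w sv) := fun c => by
    rw [ip_addN _ _ _ (by rw [dgs_length, ofs_len kit]), ip_ofs kit]
  have ld : ip w (addN (dgs W K α) (dgs W K lp)) = ip w (dgs W K α) + ip w (dgs W K lp) :=
    ip_addN _ _ _ (by rw [dgs_length, dgs_length])
  have le : ip w (addN (dgs W K α) (addN (dgs W K α) (dgs W K lp)))
      = ip w (dgs W K α) + (ip w (dgs W K α) + ip w (dgs W K lp)) := by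
    rw [ip_addN _ _ _ (by rw [dgs_length, la]), ld]
  have lg : ip w (addN ((addN (dgs W K α) (dgs W K lp)).map fun x => S * x) (dgs B K x))
      = S * (ip w (dgs W K α) + ip w (dgs W K lp)) + ip w (dgs B K x) := by
    rw [ip_addN _ _ _ (by rw [List.length_map, dgs_length, la]), ip_map, ld]
  have lh : ip w (addN ((addN (dgs W K ln) (ofs K (o + oe) sv)).map fun x => S * x) (dgs B K y))
      = S * (ip w (dgs W K ln) + ((o + oe : ℕ) * ip w (List.replicate K 1) + ip w sv)) + ip w (dgs B K y) := by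
    rw [ip_addN _ _ _ (by rw [List.length_map, dgs_length, lb]), ip_map, lc]
  rw [ip_rep] at q1
  rw [le, lc] at q2
  rw [lg, lh] at q3
  push_cast at q2 q3
  refine ⟨by linarith, by linarith, by linarith⟩

/-- the final test -/
def tfL (T : List ℕ → List ℕ → Bool) (K W S o v : ℕ) (cp cm : List ℕ) (cn oc : ℕ) : Bool :=
  Nat.ble (Nat.succ (Nat.mul oc (Nat.pow 2 v))) W &&
    T (addN cp (List.replicate K (S * (oc * o)))) (addN cm ((dgs W K cn).map fun x => S * x))

theorem dgs_zero (W : ℕ) : ∀ k : ℕ, dgs W k 0 = List.replicate k 0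
  | 0 => rfl
  | k + 1 => by
    simp only [dgs, List.replicate_succ]
    rw [show Nat.div 0 W = 0 from Nat.zero_div W, show Nat.mod 0 W = 0 from Nat.zero_mod W, dgs_zero W k]

theorem RV.dig0 {W : ℕ} {p b : ℕ} {t : ℝ} (h : RV W K w ⟨p, 0, b⟩ t) (hb : b < W) :
    t = ip w (dgs W K p) ∧ ∀ d ∈ dgs W K p, d ≤ b := by
  have h1 := h.digits hb
  simp only [dgs_zero, ip_zero, sub_zero] at h1
  refine ⟨h1, ?_⟩
  obtain ⟨P, N, a1, a2, a3, a4, a5, a6, a7⟩ := h
  have := dgs_od (B := W) P fun d hd => (a5 d hd).trans_lt hb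
  rw [a1, a3] at this
  intro d hd
  rw [this] at hd
  exact a5 d hd

theorem tfL_ok (kit : Kit K w T sv) {W S o v : ℕ} {cp cm : List ℕ} {cn oc : ℕ} (hp : cp.length = K)
    (hm : cm.length = K) (h : tfL T K W S o v cp cm cn oc = true) {γ : ℝ} (hc : RV W K w ⟨cn, 0, oc * 2 ^ v⟩ γ) :
    0 ≤ (ip w cp - ip w cm) + S * (oc * (o * ip w (List.replicate K 1))) - S * γ := by
  simp only [tfL, Bool.and_eq_true, Nat.ble_eq] at h
  obtain ⟨h1, h2⟩ := h
  have q := kit.sound _ _ (addN_length hp (by simp)) (addN_length hm (by simp [dgs_length])) h2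
  have e1 : ip w (addN cp (List.replicate K (S * (oc * o)))) = ip w cp + (S * (oc * o) : ℕ) * ip w (List.replicate K 1) := by
    rw [ip_addN _ _ _ (by simp [hp]), ip_rep]
  have e2 : ip w (addN cm ((dgs W K cn).map fun x => S * x)) = ip w cm + S * ip w (dgs W K cn) := by
    rw [ip_addN _ _ _ (by simp [hm, dgs_length]), ip_map]
  rw [e1, e2] at q
  have q2 := (hc.dig0 h1).1
  rw [q2]
  push_cast at q
  linarith

/-- digits in another base -/
theorem spr {W V p b : ℕ} {t : ℝ} (h : RV W K w ⟨p, 0, b⟩ t) (hb : b < W) :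
    RV V K w ⟨od V (dgs W K p), 0, b⟩ t := by
  obtain ⟨h1, h2⟩ := h.dig0 hb
  refine ⟨dgs W K p, List.replicate K 0, dgs_length _ _, by simp, rfl, od_zero _ _, h2, ?_, ?_⟩
  · intro d hd
    rw [List.eq_of_mem_replicate hd]
    exact Nat.zero_le _
  · rw [ip_zero, sub_zero]
    exact h1

/-- all rows. `t` test of pairs, `tg` diagonal, `tf` final, `sp` change of base -/
def goS (t tg : ℕ → ℕ → ℕ → ℕ → ℕ → Bool) (tf : ℕ → ℕ → Bool) (sp : ℕ → ℕ) (CN CB mk B : ℕ) :
    ℕ → List PV → List (ℕ × ℕ × ℕ) → ℕ → ℕ → ℕ → ℕ → ℕ → Bool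
  | 0, _, _, _, _, _, cn, oc => tf cn oc
  | k + 1, Es, (xa, xb, xd) :: ds, lp, ln, al, cn, oc =>
    rowT mk (Nat.pow CN k) xa && (rowT mk (Nat.pow CN k) xb && (rowT mk (Nat.pow CN k) xd &&
      (Nat.ble (Nat.succ (hdE Es).b) B &&
      (prs t CN CB k xa xb xd (Nat.div (hdE Es).p CB) (Nat.div (hdE Es).n CB) &&
      (tg (Nat.mod al CN) (Nat.add (Nat.mod lp CN) (Nat.mod xa (Nat.pred CN)))
        (Nat.add (Nat.mod ln CN) (Nat.mod xb (Nat.pred CN))) (Nat.mod (hdE Es).p CB) (Nat.mod (hdE Es).n CB) &&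
      goS t tg tf sp CN CB mk B k (tlE Es) ds (Nat.add (Nat.div lp CN) xa) (Nat.add (Nat.div ln CN) xd)
        (Nat.div al CN) (Nat.add cn (sp (Nat.add (Nat.mod xa (Nat.pred CN)) (Nat.mod al CN))))
        (Nat.add oc (Nat.succ k)))))))
  | _ + 1, _, [], _, _, _, _, _ => false

theorem goS_ok (kit : Kit K w T sv) {ws v B S o oe W1 m : ℕ} (hS : 0 < S) (hv : v ≤ ws)
    {t tg : ℕ → ℕ → ℕ → ℕ → ℕ → Bool} {tf : ℕ → ℕ → Bool} {sp : ℕ → ℕ} {cp cm : List ℕ} (hcp : cp.length = K)
    (hcm : cm.length = K)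
    (ht : ∀ a b d e e', t a b d e e' = true → pairL T K (2 ^ ws) B S o (ofs K o sv) a b d e e' = true)
    (htg : ∀ a b d e e', tg a b d e e' = true → tgL T K (2 ^ ws) B S o oe sv a b d e e' = true)
    (htf : ∀ cn oc, tf cn oc = true → tfL T K W1 S o v cp cm cn oc = true)
    (hsp : ∀ x, sp x = od W1 (dgs (2 ^ ws) K x)) :
    ∀ (k : ℕ) (Es : List PV) (ds : List (ℕ × ℕ × ℕ)) (lp ln al cn oc β : ℕ) (D : List ℝ) (l γ z : ℝ),
      goS t tg tf sp ((2 ^ ws) ^ K) (B ^ K) (msk ws v m) B k Es ds lp ln al cn oc = true → K * k ≤ m →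
      D.length = k → Box D → RR (2 ^ ws) K w D ⟨lp, ln, β⟩ l → β + 2 * ((k + 1) * 2 ^ v) + 2 ≤ 2 ^ ws →
      TV B K w Es D z → al < (2 ^ ws) ^ (K * k) →
      (∀ d ∈ dgs (2 ^ ws) (K * k) al, d ≤ 2 ^ v) → RV W1 K w ⟨cn, 0, oc * 2 ^ v⟩ γ →
      0 ≤ (ip w cp - ip w cm) + S * (oc * (o * ip w (List.replicate K 1))) - S * γ
        + S * (l - (oe * ip w (List.replicate K 1) + ip w sv) * D.sum) + z
  | 0, Es, ds, lp, ln, al, cn, oc, β, D, l, γ, z, h, _, hl, _, hlr, _, hE, _, _, hc => by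
    rw [List.length_eq_zero_iff] at hl
    subst hl
    simp only [goS] at h
    have h1 := tfL_ok kit hcp hcm (htf _ _ h) hc
    have h2 : z = 0 := by
      cases Es with
      | nil => simpa [TV] using hE
      | cons x xs => simp [TV] at hE
    have h3 : l = 0 := by
      obtain ⟨P, N, a1, a2, a3, a4, a5, a6, a7⟩ := hlr
      rw [a7]
      simp [wf]
    rw [h2, h3]
    simpa using h1
  | k + 1, Es, [], lp, ln, al, cn, oc, β, D, l, γ, z, h, _, _, _, _, _, _, _, _, _ => by simp [goS] at h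
  | k + 1, Es, (xa, xb, xd) :: ds, lp, ln, al, cn, oc, β, [], l, γ, z, _, _, hl, _, _, _, _, _, _, _ => by
    simp at hl
  | k + 1, Es, (xa, xb, xd) :: ds, lp, ln, al, cn, oc, β, d :: D, l, γ, z, h, hm, hl, hD, hlr, hβ, hE, hal,
      hald, hc => by
    simp only [goS, Bool.and_eq_true] at h
    obtain ⟨g1, g2, g3, g4, g5, g6, g7⟩ := h
    have hl' : D.length = k := by simpa using hl
    obtain ⟨⟨d0, d1⟩, hD'⟩ := hD.cons
    have hkm : K * k ≤ m := by
      have : K * (k + 1) = K * k + K := by ring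
      omega
    obtain ⟨a1, a2⟩ := rowT_ok (K := K) hv hkm (x := xa) g1
    obtain ⟨b1, b2⟩ := rowT_ok (K := K) hv hkm (x := xb) g2
    obtain ⟨c1, c2⟩ := rowT_ok (K := K) hv hkm (x := xd) g3
    obtain ⟨r, z', hr, hz', hzz⟩ := TV.split hE
    generalize hE0 : hdE Es = E at g4 g5 g6 hr
    obtain ⟨ep, en, eb⟩ := E
    simp only [Nat.ble_eq] at g4
    have hoff : r = rv w B K (d :: D) ep - rv w B K (d :: D) en := RV.digits hr g4
    have w2 : 0 < 2 ^ v := by positivity
    have e1 : (k + 1 + 1) * 2 ^ v = k * 2 ^ v + 2 ^ v + 2 ^ v := by ring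
    have e2 : (k + 1) * 2 ^ v = k * 2 ^ v + 2 ^ v := by ring
    rw [e1] at hβ
    have hA := hsum kit.len kit.pos k xa (by omega) a1 a2
    have hB := hsum kit.len kit.pos k xb (by omega) b1 b2
    obtain ⟨l0, l', hl0, hlt, hll⟩ := RR.uncons kit.len hlr (show β < 2 ^ ws by omega)
    have hl0' := RV.sub (RV.add hl0 hA) hB
    have hdig : l0 + rv w (2 ^ ws) K (List.replicate k 1) xa - rv w (2 ^ ws) K (List.replicate k 1) xb
        = ip w (dgs (2 ^ ws) K (Nat.add (Nat.mod lp ((2 ^ ws) ^ K)) (Nat.mod xa (Nat.pred ((2 ^ ws) ^ K)))))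
          - ip w (dgs (2 ^ ws) K (Nat.add (Nat.mod ln ((2 ^ ws) ^ K)) (Nat.mod xb (Nat.pred ((2 ^ ws) ^ K))))) :=
      hl0'.digits (show (β + k * 2 ^ v) + k * 2 ^ v < 2 ^ ws by omega)
    have hpair := prs_ok kit hS ht k xa xb xd (ep / B ^ K) (en / B ^ K) g5 d D d0 d1 hl' hD'
    obtain ⟨t1, t2, t3⟩ := tgL_ok kit (htg _ _ _ _ _ g6)
    have hra : RR (2 ^ ws) K w D ⟨xa, 0, 2 ^ v⟩ (rv w (2 ^ ws) K D xa) := row_ok (by rw [hl']; exact a1) (by rw [hl']; exact a2)
    have hrd : RR (2 ^ ws) K w D ⟨xd, 0, 2 ^ v⟩ (rv w (2 ^ ws) K D xd) := row_ok (by rw [hl']; exact c1) (by rw [hl']; exact c2)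
    have hnew := RV.sub (RV.add hlt hra) hrd
    rw [show K * (k + 1) = K + K * k by ring] at hal hald
    rw [dgs_add] at hald
    have hal1 : al % (2 ^ ws) ^ K < (2 ^ ws) ^ K := Nat.mod_lt _ (by positivity)
    have hal2 : al / (2 ^ ws) ^ K < (2 ^ ws) ^ (K * k) := by
      refine Nat.div_lt_of_lt_mul ?_
      rwa [← pow_add]
    have hα : RV (2 ^ ws) K w ⟨al % (2 ^ ws) ^ K, 0, 2 ^ v⟩ (ip w (dgs (2 ^ ws) K (al % (2 ^ ws) ^ K))) :=
      chunk_ok hal1 fun d h => hald d (by rw [dgs_mod] at h; simp [h])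
    have hAα := RV.add hA hα
    have hspr := spr (V := W1) hAα (show k * 2 ^ v + 2 ^ v < 2 ^ ws by omega)
    have hcn := RV.add hc hspr
    have hcn' : RV W1 K w ⟨Nat.add cn (sp (Nat.add (Nat.mod xa (Nat.pred ((2 ^ ws) ^ K))) (Nat.mod al ((2 ^ ws) ^ K)))), 0,
        (oc + (k + 1)) * 2 ^ v⟩ (γ + (rv w (2 ^ ws) K (List.replicate k 1) xa
          + ip w (dgs (2 ^ ws) K (al % (2 ^ ws) ^ K)))) := by
      rw [hsp]
      refine RV.mono hcn ?_
      change oc * 2 ^ v + (k * 2 ^ v + 2 ^ v) ≤ (oc + (k + 1)) * 2 ^ v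
      ring_nf
      exact le_refl _
    have ih := goS_ok kit hS hv hcp hcm ht htg htf hsp k (tlE Es) ds _ _ _ _ _ (β + 2 ^ v + 2 ^ v) D _ _ z' g7 hkm
      hl' hD' hnew (by omega) hz' hal2 (fun y hy => hald y (List.mem_append_right _ hy)) hcn'
    rw [rv_cons kit.len, rv_cons kit.len] at hoff
    rw [hzz, hll, hoff, List.sum_cons]
    rw [← hdig] at t2 t3
    have hd2 : 0 ≤ 1 - d := by linarith
    have hS' : (0 : ℝ) ≤ S := Nat.cast_nonneg _
    have q1 := mul_nonneg (mul_nonneg hS' t1) (mul_nonneg hd2 hd2)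
    have q2 := mul_nonneg (mul_nonneg hS' t2) (mul_nonneg d0 hd2)
    have q3 := mul_nonneg t3 (mul_nonneg d0 d0)
    change 0 ≤ S * (ip w (dgs (2 ^ ws) K (al % (2 ^ ws) ^ K)) - _) * _ at q1
    change 0 ≤ S * (2 * (ip w (dgs (2 ^ ws) K (al % (2 ^ ws) ^ K)) - _) + _) * _ at q2
    change 0 ≤ (S * ((ip w (dgs (2 ^ ws) K (al % (2 ^ ws) ^ K)) - _) + _)
      + (ip w (dgs B K (ep % B ^ K)) - ip w (dgs B K (en % B ^ K)))) * _ at q3
    generalize ip w (dgs (2 ^ ws) K (al % (2 ^ ws) ^ K)) = va at q1 q2 q3 ih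
    generalize ip w (dgs B K (ep % B ^ K)) = ve at q3 ⊢
    generalize ip w (dgs B K (en % B ^ K)) = vf at q3 ⊢
    generalize rv w (2 ^ ws) K (List.replicate k 1) xa = ra at q1 q2 q3 ih hpair
    generalize rv w (2 ^ ws) K (List.replicate k 1) xb = rb at q1 q2 q3 ih hpair
    generalize rv w (2 ^ ws) K D xa = ra' at ih hpair
    generalize rv w (2 ^ ws) K D xd = rd at ih hpair
    generalize rv w B K D (ep / B ^ K) = re at hpair ⊢
    generalize rv w B K D (en / B ^ K) = rf at hpair ⊢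
    have eo : ((Nat.add oc (Nat.succ k) : ℕ) : ℝ) = oc + k + 1 := by
      change ((oc + (k + 1) : ℕ) : ℝ) = _
      push_cast
      ring
    rw [eo] at ih
    linarith

end kit

end Pool.Agent.FPX.PLK
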