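import Pool.Agent.FPX.PLN
/-!
PLV (helper1). Packed coefficients: a Hermitian matrix with integer entries is the difference of two lists of natural
numbers, each list packed into one natural number in the base `B`, together with a bound of the digits.
-/
set_option autoImplicit false

noncomputable section

namespace Pool.Agent.FPX.PLK

open List (Forall₂)

/-- packed coefficient: positive part, negative part, bound of the digits -/
structure PV where
  p : ℕ
  n : ℕ
  b : ℕ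

/-- packing -/
def od (B : ℕ) : List ℕ → ℕ
  | [] => 0
  | d :: l => Nat.add d (Nat.mul B (od B l))

/-- value of a list of digits -/
def ip : List ℝ → List ℕ → ℝ
  | w :: ws, d :: l => w * d + ip ws l
  | _, _ => 0

/-- value of a list of integers -/
def iz : List ℝ → List ℤ → ℝ
  | w :: ws, d :: l => w * d + iz ws l
  | _, _ => 0

@[simp] theorem ip_nil (w : List ℝ) : ip w [] = 0 := by cases w <;> rfl

@[simp] theorem ip_nil' (l : List ℕ) : ip [] l = 0 := by cases l <;> rfl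

/-- `x` represents `t` with the weights `w` -/
def RV (B K : ℕ) (w : List ℝ) (x : PV) (t : ℝ) : Prop :=
  ∃ P N : List ℕ, P.length = K ∧ N.length = K ∧ od B P = x.p ∧ od B N = x.n ∧
    (∀ d ∈ P, d ≤ x.b) ∧ (∀ d ∈ N, d ≤ x.b) ∧ t = ip w P - ip w N

def PV.add : PV → PV → PV
  | ⟨p, n, b⟩, ⟨p', n', b'⟩ => ⟨Nat.add p p', Nat.add n n', Nat.add b b'⟩

def PV.sub : PV → PV → PV
  | ⟨p, n, b⟩, ⟨p', n', b'⟩ => ⟨Nat.add p n', Nat.add n p', Nat.add b b'⟩

def PV.sm : ℤ → PV → PV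
  | Int.ofNat a, ⟨p, n, b⟩ => ⟨Nat.mul a p, Nat.mul a n, Nat.mul a b⟩
  | Int.negSucc a, ⟨p, n, b⟩ => ⟨Nat.mul (Nat.succ a) n, Nat.mul (Nat.succ a) p, Nat.mul (Nat.succ a) b⟩

/-- sums of digits -/
def addN : List ℕ → List ℕ → List ℕ := List.zipWith (· + ·)

theorem od_addN (B : ℕ) : ∀ P Q : List ℕ, P.length = Q.length → od B (addN P Q) = od B P + od B Q
  | [], [], _ => rfl
  | a :: P, b :: Q, h => by
    have ih := od_addN B P Q (by simpa using h)
    unfold addN at ih ⊢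
    simp only [List.zipWith_cons_cons, od, Nat.add_eq, Nat.mul_eq, ih]
    ring
  | [], _ :: _, h => by simp at h
  | _ :: _, [], h => by simp at h

theorem ip_addN : ∀ (w : List ℝ) (P Q : List ℕ), P.length = Q.length → ip w (addN P Q) = ip w P + ip w Q
  | _, [], [], _ => by simp [addN]
  | [], _, _, _ => by simp
  | v :: w, a :: P, b :: Q, h => by
    have ih := ip_addN w P Q (by simpa using h)
    unfold addN at ih ⊢
    simp only [List.zipWith_cons_cons, ip, ih]
    push_cast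
    ring
  | _ :: _, [], _ :: _, h => by simp at h
  | _ :: _, _ :: _, [], h => by simp at h

theorem addN_le {b b' : ℕ} : ∀ P Q : List ℕ, (∀ d ∈ P, d ≤ b) → (∀ d ∈ Q, d ≤ b') → ∀ d ∈ addN P Q, d ≤ b + b'
  | [], _, _, _ => by simp [addN]
  | _ :: _, [], _, _ => by simp [addN]
  | x :: P, y :: Q, h1, h2 => by
    have ih := addN_le P Q (fun d hd => h1 d (by simp [hd])) (fun d hd => h2 d (by simp [hd]))
    intro d hd
    unfold addN at hd ih
    rw [List.zipWith_cons_cons] at hd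
    rcases List.mem_cons.1 hd with rfl | hd
    · exact Nat.add_le_add (h1 x (by simp)) (h2 y (by simp))
    · exact ih d hd

theorem addN_length {P Q : List ℕ} {K : ℕ} (h1 : P.length = K) (h2 : Q.length = K) : (addN P Q).length = K := by
  simp [addN, h1, h2]

theorem od_map (B a : ℕ) : ∀ P : List ℕ, od B (P.map fun x => a * x) = a * od B P
  | [] => by simp [od]
  | d :: P => by
    have ih := od_map B a P
    simp only [List.map_cons, od, Nat.add_eq, Nat.mul_eq, ih]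
    ring

theorem ip_map (a : ℕ) : ∀ (w : List ℝ) (P : List ℕ), ip w (P.map fun x => a * x) = a * ip w P
  | _, [] => by simp
  | [], _ => by simp
  | v :: w, d :: P => by
    simp only [List.map_cons, ip, ip_map a w P]
    push_cast
    ring

section RV

variable {B K : ℕ} {w : List ℝ}

theorem RV.add {x y : PV} {s t : ℝ} (h1 : RV B K w x s) (h2 : RV B K w y t) : RV B K w (x.add y) (s + t) := by
  obtain ⟨P, N, a1, a2, a3, a4, a5, a6, a7⟩ := h1
  obtain ⟨Q, M, b1, b2, b3, b4, b5, b6, b7⟩ := h2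
  refine ⟨addN P Q, addN N M, addN_length a1 b1, addN_length a2 b2, ?_, ?_, addN_le P Q a5 b5, addN_le N M a6 b6, ?_⟩
  · rw [od_addN B P Q (a1.trans b1.symm), a3, b3]
    rfl
  · rw [od_addN B N M (a2.trans b2.symm), a4, b4]
    rfl
  · rw [ip_addN w P Q (a1.trans b1.symm), ip_addN w N M (a2.trans b2.symm), a7, b7]
    ring

theorem RV.sub {x y : PV} {s t : ℝ} (h1 : RV B K w x s) (h2 : RV B K w y t) : RV B K w (x.sub y) (s - t) := by
  obtain ⟨P, N, a1, a2, a3, a4, a5, a6, a7⟩ := h1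
  obtain ⟨Q, M, b1, b2, b3, b4, b5, b6, b7⟩ := h2
  refine ⟨addN P M, addN N Q, addN_length a1 b2, addN_length a2 b1, ?_, ?_, addN_le P M a5 b6, addN_le N Q a6 b5, ?_⟩
  · rw [od_addN B P M (a1.trans b2.symm), a3, b4]
    rfl
  · rw [od_addN B N Q (a2.trans b1.symm), a4, b3]
    rfl
  · rw [ip_addN w P M (a1.trans b2.symm), ip_addN w N Q (a2.trans b1.symm), a7, b7]
    ring

theorem RV.mulN {x : PV} {s : ℝ} (h : RV B K w x s) (a : ℕ) :
    RV B K w ⟨Nat.mul a x.p, Nat.mul a x.n, Nat.mul a x.b⟩ (a * s) := by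
  obtain ⟨P, N, a1, a2, a3, a4, a5, a6, a7⟩ := h
  refine ⟨P.map fun x => a * x, N.map fun x => a * x, by simp [a1], by simp [a2], ?_, ?_, ?_, ?_, ?_⟩
  · rw [od_map, a3]
    rfl
  · rw [od_map, a4]
    rfl
  · intro d hd
    obtain ⟨e, he, rfl⟩ := List.mem_map.1 hd
    exact Nat.mul_le_mul_left a (a5 e he)
  · intro d hd
    obtain ⟨e, he, rfl⟩ := List.mem_map.1 hd
    exact Nat.mul_le_mul_left a (a6 e he)
  · rw [ip_map, ip_map, a7]
    ring

theorem RV.swap {x : PV} {s : ℝ} (h : RV B K w x s) : RV B K w ⟨x.n, x.p, x.b⟩ (-s) := by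
  obtain ⟨P, N, a1, a2, a3, a4, a5, a6, a7⟩ := h
  exact ⟨N, P, a2, a1, a4, a3, a6, a5, by rw [a7]; ring⟩

theorem RV.sm {x : PV} {s : ℝ} (h : RV B K w x s) (c : ℤ) : RV B K w (x.sm c) (c * s) := by
  cases c with
  | ofNat a =>
    have := h.mulN a
    simpa [PV.sm] using this
  | negSucc a =>
    have := h.swap.mulN (a + 1)
    have e : ((a + 1 : ℕ) : ℝ) * -s = ((Int.negSucc a : ℤ) : ℝ) * s := by
      push_cast [Int.negSucc_eq]
      ring
    rw [e] at this
    exact this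

theorem ip_zero : ∀ (w : List ℝ) (k : ℕ), ip w (List.replicate k 0) = 0
  | _, 0 => by simp
  | [], _ => by simp
  | v :: w, k + 1 => by
    rw [List.replicate_succ, ip, ip_zero w k]
    simp

theorem od_zero (B : ℕ) : ∀ k : ℕ, od B (List.replicate k 0) = 0
  | 0 => rfl
  | k + 1 => by
    rw [List.replicate_succ, od, od_zero B k]
    simp

theorem RV.zero : RV B K w ⟨0, 0, 0⟩ 0 := by
  refine ⟨List.replicate K 0, List.replicate K 0, by simp, by simp, od_zero B K, od_zero B K, ?_, ?_, by simp⟩ <;>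
  · intro d hd
    rw [List.eq_of_mem_replicate hd]

/-- a coefficient from its digits -/
def mkV (B : ℕ) (P N : List ℕ) : PV := ⟨od B P, od B N, Nat.add P.sum N.sum⟩

theorem mkV_ok {P N : List ℕ} (h1 : P.length = K) (h2 : N.length = K) : RV B K w (mkV B P N) (ip w P - ip w N) :=
  ⟨P, N, h1, h2, rfl, rfl, fun _ hd => (List.single_le_sum (by simp) _ hd).trans (Nat.le_add_right _ _),
    fun _ hd => (List.single_le_sum (by simp) _ hd).trans (Nat.le_add_left _ _), rfl⟩

/-- a coefficient from integers -/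
def ofZ (B : ℕ) (l : List ℤ) : PV := mkV B (l.map Int.toNat) (l.map fun x => (-x).toNat)

theorem ip_toNat : ∀ (w : List ℝ) (l : List ℤ), ip w (l.map Int.toNat) - ip w (l.map fun x => (-x).toNat) = iz w l
  | u, [] => by
    cases u <;> simp [iz]
  | [], _ :: _ => by simp [iz]
  | v :: w, x :: l => by
    have ih := ip_toNat w l
    have e : ((x.toNat : ℕ) : ℝ) - (((-x).toNat : ℕ) : ℝ) = x := by
      rcases le_total 0 x with h | h
      · have h1 : (((x.toNat : ℕ) : ℤ) : ℝ) = x := by rw [Int.toNat_of_nonneg h]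
        have h2 : (-x).toNat = 0 := Int.toNat_of_nonpos (by linarith)
        rw [h2]
        push_cast at h1 ⊢
        linarith
      · have h1 : ((((-x).toNat : ℕ) : ℤ) : ℝ) = ((-x : ℤ) : ℝ) := by rw [Int.toNat_of_nonneg (by linarith)]
        have h2 : x.toNat = 0 := Int.toNat_of_nonpos h
        rw [h2]
        push_cast at h1 ⊢
        linarith
    simp only [List.map_cons, ip, iz]
    linear_combination ih + v * e

theorem ofZ_ok {l : List ℤ} (h : l.length = K) : RV B K w (ofZ B l) (iz w l) := by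
  rw [← ip_toNat]
  exact mkV_ok (by simpa using h) (by simpa using h)

/-- digits -/
def dgs (B : ℕ) : ℕ → ℕ → List ℕ
  | 0, _ => []
  | k + 1, p => Nat.mod p B :: dgs B k (Nat.div p B)

theorem dgs_od : ∀ P : List ℕ, (∀ d ∈ P, d < B) → dgs B P.length (od B P) = P
  | [], _ => rfl
  | a :: P, h => by
    have ha : a < B := h a (by simp)
    have hB : 0 < B := by omega
    have ih := dgs_od P fun d hd => h d (by simp [hd])
    have e1 : (a + B * od B P) % B = a := by
      rw [Nat.add_mul_mod_self_left, Nat.mod_eq_of_lt ha]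
    have e2 : (a + B * od B P) / B = od B P := by
      rw [Nat.add_mul_div_left _ _ hB, Nat.div_eq_of_lt ha, Nat.zero_add]
    simp only [List.length_cons, dgs, od]
    change (a + B * od B P) % B :: dgs B P.length ((a + B * od B P) / B) = a :: P
    rw [e1, e2, ih]

theorem dgs_length : ∀ (k p : ℕ), (dgs B k p).length = k
  | 0, _ => rfl
  | k + 1, p => by simp [dgs, dgs_length k]

theorem dgs_lt (hB : 0 < B) : ∀ (k p : ℕ), ∀ d ∈ dgs B k p, d < B
  | 0, _ => by simp [dgs]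
  | k + 1, p => by
    intro d hd
    rcases List.mem_cons.1 hd with rfl | hd
    · exact Nat.mod_lt _ hB
    · exact dgs_lt hB k _ d hd

/-- representation by the digits -/
theorem RV.digits {x : PV} {s : ℝ} (h : RV B K w x s) (hb : x.b < B) :
    s = ip w (dgs B K x.p) - ip w (dgs B K x.n) := by
  obtain ⟨P, N, a1, a2, a3, a4, a5, a6, a7⟩ := h
  have e1 := dgs_od P fun d hd => (a5 d hd).trans_lt hb
  have e2 := dgs_od N fun d hd => (a6 d hd).trans_lt hb
  rw [a1, a3] at e1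
  rw [a2, a4] at e2
  rw [e1, e2, a7]

/-- scaled and shifted digits of a chunk of data -/
theorem dec_ok {W S o : ℕ} (hW : 0 < W) {c p n b : ℕ} (hp : p = S * od B (dgs W K c))
    (hn : n = S * od B (List.replicate K o)) (hb : S * W ≤ b) (ho : o ≤ W) : ∃ t, RV B K w ⟨p, n, b⟩ t := by
  refine ⟨_, (dgs W K c).map fun x => S * x, (List.replicate K o).map fun x => S * x, ?_, ?_, ?_, ?_, ?_, ?_, rfl⟩
  · simp [dgs_length]
  · simp
  · rw [od_map, hp]
  · rw [od_map, hn]
  · intro d hd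
    obtain ⟨e, he, rfl⟩ := List.mem_map.1 hd
    exact (Nat.mul_le_mul_left S (dgs_lt hW K c e he).le).trans hb
  · intro d hd
    obtain ⟨e, he, rfl⟩ := List.mem_map.1 hd
    rw [List.eq_of_mem_replicate he]
    exact (Nat.mul_le_mul_left S ho).trans hb

end RV

/-! ### positivity tests -/

/-- distance of natural numbers -/
def dst (a b : ℕ) : ℕ := Nat.add (Nat.sub a b) (Nat.sub b a)

theorem dst_sq (a b : ℕ) : ((dst a b : ℕ) : ℝ) ^ 2 = ((a : ℝ) - b) ^ 2 := by
  unfold dst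
  rcases le_total a b with h | h
  · have e : Nat.add (Nat.sub a b) (Nat.sub b a) = b - a := by
      change (a - b) + (b - a) = b - a
      omega
    rw [e, Nat.cast_sub h]
    ring
  · have e : Nat.add (Nat.sub a b) (Nat.sub b a) = a - b := by
      change (a - b) + (b - a) = a - b
      omega
    rw [e, Nat.cast_sub h]

/-- square of a natural number -/
def sqn (a : ℕ) : ℕ := Nat.mul a a

/-- the 2 x 2 test -/
def t2 (a a' d d' r r' i i' : ℕ) : Bool :=
  Nat.ble a' a && (Nat.ble d' d &&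
    Nat.ble (Nat.add (sqn (dst r r')) (sqn (dst i i'))) (Nat.mul (Nat.sub a a') (Nat.sub d d')))

theorem quad2 {a d r i u v x y : ℝ} (ha : 0 ≤ a) (hd : 0 ≤ d) (h : r ^ 2 + i ^ 2 ≤ a * d) (hu : 0 ≤ u) (hv : 0 ≤ v)
    (hw : x ^ 2 + y ^ 2 = 4 * (u * v)) : 0 ≤ a * u + d * v + r * x + i * y := by
  have h1 : (r * x + i * y) ^ 2 ≤ (a * u + d * v) ^ 2 := by
    have h2 : (r * x + i * y) ^ 2 ≤ (r ^ 2 + i ^ 2) * (x ^ 2 + y ^ 2) := by nlinarith [sq_nonneg (r * y - i * x)]
    have h3 : (r ^ 2 + i ^ 2) * (x ^ 2 + y ^ 2) ≤ (a * d) * (4 * (u * v)) := by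
      rw [hw]
      exact mul_le_mul_of_nonneg_right h (by positivity)
    nlinarith [sq_nonneg (a * u - d * v)]
  have h4 : 0 ≤ a * u + d * v := by positivity
  have := abs_le_of_sq_le_sq' h1 h4
  linarith [this.1]

theorem t2_sound {a a' d d' r r' i i' : ℕ} (h : t2 a a' d d' r r' i i' = true) :
    0 ≤ (a : ℝ) - a' ∧ 0 ≤ (d : ℝ) - d' ∧ ((r : ℝ) - r') ^ 2 + ((i : ℝ) - i') ^ 2 ≤ ((a : ℝ) - a') * (d - d') := by
  simp only [t2, Bool.and_eq_true, Nat.ble_eq] at h
  obtain ⟨h1, h2, h3⟩ := h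
  refine ⟨by simpa using h1, by simpa using h2, ?_⟩
  have h4 : (sqn (dst r r') + sqn (dst i i') : ℕ) ≤ ((a - a') * (d - d') : ℕ) := h3
  have h5 : ((sqn (dst r r') + sqn (dst i i') : ℕ) : ℝ) ≤ (((a - a') * (d - d') : ℕ) : ℝ) := by exact_mod_cast h4
  unfold sqn at h5
  change (((dst r r') * (dst r r') + (dst i i') * (dst i i') : ℕ) : ℝ) ≤ _ at h5
  push_cast [Nat.cast_sub h1, Nat.cast_sub h2] at h5
  have e1 := dst_sq r r'
  have e2 := dst_sq i i'
  nlinarith

/-- weights of a vector with two components -/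
def w2 (z1 z2 : ℂ) : List ℝ :=
  [Complex.normSq z1, Complex.normSq z2, 2 * ((starRingEnd ℂ) z1 * z2).re, -(2 * ((starRingEnd ℂ) z1 * z2).im)]

/-- digits of a packed number, four of them -/
def dig4 (B : ℕ) (p : ℕ) (k : ℕ → ℕ → ℕ → ℕ → Bool) : Bool :=
  k (Nat.mod p B) (Nat.mod (Nat.div p B) B) (Nat.mod (Nat.div (Nat.div p B) B) B)
    (Nat.mod (Nat.div (Nat.div (Nat.div p B) B) B) B)

def psd2 (B : ℕ) : PV → Bool
  | ⟨p, n, b⟩ => Nat.ble (Nat.succ b) B && dig4 B p fun a d r i => dig4 B n fun a' d' r' i' => t2 a a' d d' r r' i i'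

def O2 (B : ℕ) : Op PV := ⟨⟨0, 0, 0⟩, PV.add, PV.sub, PV.sm, psd2 B⟩

theorem rl2 (B : ℕ) (z1 z2 : ℂ) : Rl (O2 B) (RV B 4 (w2 z1 z2)) where
  z := RV.zero
  add := RV.add
  sub := RV.sub
  sm := fun c h => h.sm c
  psd := by
    rintro ⟨p, n, b⟩ s hR h
    simp only [O2, psd2, dig4, Bool.and_eq_true, Nat.ble_eq] at h
    obtain ⟨h1, h2⟩ := h
    rw [hR.digits (show b < B from h1)]
    obtain ⟨k1, k2, k3⟩ := t2_sound h2
    simp only [dgs, w2, ip]
    have hw : (2 * ((starRingEnd ℂ) z1 * z2).re) ^ 2 + (-(2 * ((starRingEnd ℂ) z1 * z2).im)) ^ 2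
        = 4 * (Complex.normSq z1 * Complex.normSq z2) := by
      rw [Complex.normSq_apply, Complex.normSq_apply]
      simp only [Complex.mul_re, Complex.mul_im, Complex.conj_re, Complex.conj_im]
      ring
    have := quad2 k1 k2 k3 (Complex.normSq_nonneg z1) (Complex.normSq_nonneg z2) hw
    linarith

/-- complex number, difference of natural numbers -/
structure Cx where
  r : ℕ
  s : ℕ
  i : ℕ
  j : ℕ

def Cx.ev (u : Cx) : ℂ := ⟨(u.r : ℝ) - u.s, (u.i : ℝ) - u.j⟩

def Cx.add : Cx → Cx → Cx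
  | ⟨r, s, i, j⟩, ⟨r', s', i', j'⟩ => ⟨Nat.add r r', Nat.add s s', Nat.add i i', Nat.add j j'⟩

theorem Cx.ev_add (u v : Cx) : (u.add v).ev = u.ev + v.ev := by
  unfold Cx.ev
  apply Complex.ext
  · change ((u.r + v.r : ℕ) : ℝ) - ((u.s + v.s : ℕ) : ℝ) = _
    simp only [Complex.add_re]
    push_cast
    ring
  · change ((u.i + v.i : ℕ) : ℝ) - ((u.j + v.j : ℕ) : ℝ) = _
    simp only [Complex.add_im]
    push_cast
    ring

/-- absolute square -/
def Cx.nsq : Cx → ℕ
  | ⟨r, s, i, j⟩ => Nat.add (sqn (dst r s)) (sqn (dst i j))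

theorem Cx.nsq_eq (u : Cx) : ((u.nsq : ℕ) : ℝ) = Complex.normSq u.ev := by
  rw [Complex.normSq_apply]
  change ((dst u.r u.s * dst u.r u.s + dst u.i u.j * dst u.i u.j : ℕ) : ℝ) = _
  have e1 := dst_sq u.r u.s
  have e2 := dst_sq u.i u.j
  unfold Cx.ev
  push_cast
  linarith

/-- positive and negative parts of the real and imaginary part of `conj u v` -/
def cjp : Cx → Cx → ℕ
  | ⟨r, s, i, j⟩, ⟨r', s', i', j'⟩ => Nat.add (Nat.add (Nat.mul r r') (Nat.mul s s')) (Nat.add (Nat.mul i i') (Nat.mul j j'))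

def cjn : Cx → Cx → ℕ
  | ⟨r, s, i, j⟩, ⟨r', s', i', j'⟩ => Nat.add (Nat.add (Nat.mul r s') (Nat.mul s r')) (Nat.add (Nat.mul i j') (Nat.mul j i'))

def cjq : Cx → Cx → ℕ
  | ⟨r, s, i, j⟩, ⟨r', s', i', j'⟩ => Nat.add (Nat.add (Nat.mul r i') (Nat.mul s j')) (Nat.add (Nat.mul i s') (Nat.mul j r'))

def cjm : Cx → Cx → ℕ
  | ⟨r, s, i, j⟩, ⟨r', s', i', j'⟩ => Nat.add (Nat.add (Nat.mul r j') (Nat.mul s i')) (Nat.add (Nat.mul i r') (Nat.mul j s'))

theorem cj_re (u v : Cx) : ((cjp u v : ℕ) : ℝ) - (cjn u v : ℕ) = ((starRingEnd ℂ) u.ev * v.ev).re := by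
  change ((u.r * v.r + u.s * v.s + (u.i * v.i + u.j * v.j) : ℕ) : ℝ)
    - ((u.r * v.s + u.s * v.r + (u.i * v.j + u.j * v.i) : ℕ) : ℝ) = _
  simp only [Cx.ev, Complex.mul_re, Complex.conj_re, Complex.conj_im]
  push_cast
  ring

theorem cj_im (u v : Cx) : ((cjq u v : ℕ) : ℝ) - (cjm u v : ℕ) = ((starRingEnd ℂ) u.ev * v.ev).im := by
  change ((u.r * v.i + u.s * v.j + (u.i * v.s + u.j * v.r) : ℕ) : ℝ)
    - ((u.r * v.j + u.s * v.i + (u.i * v.r + u.j * v.s) : ℕ) : ℝ) = _
  simp only [Cx.ev, Complex.mul_im, Complex.conj_re, Complex.conj_im]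
  push_cast
  ring

/-- `|u z|²` for a row of two -/
def one2 (B : ℕ) : Cx × Cx → PV
  | (u, v) => mkV B [u.nsq, v.nsq, cjp u v, cjq u v] [0, 0, cjn u v, cjm u v]

def psi2 (z1 z2 : ℂ) (u : Cx × Cx) : ℂ := u.1.ev * z1 + u.2.ev * z2

theorem one2_ok (B : ℕ) (z1 z2 : ℂ) (u : Cx × Cx) :
    RV B 4 (w2 z1 z2) (one2 B u) (Complex.normSq (psi2 z1 z2 u)) := by
  have h := mkV_ok (B := B) (w := w2 z1 z2) (K := 4) (P := [u.1.nsq, u.2.nsq, cjp u.1 u.2, cjq u.1 u.2])
    (N := [0, 0, cjn u.1 u.2, cjm u.1 u.2]) rfl rfl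
  have e : ip (w2 z1 z2) [u.1.nsq, u.2.nsq, cjp u.1 u.2, cjq u.1 u.2]
      - ip (w2 z1 z2) [0, 0, cjn u.1 u.2, cjm u.1 u.2] = Complex.normSq (psi2 z1 z2 u) := by
    simp only [w2, ip]
    have h1 := cj_re u.1 u.2
    have h2 := cj_im u.1 u.2
    rw [Cx.nsq_eq, Cx.nsq_eq]
    have h3 : Complex.normSq (psi2 z1 z2 u) = Complex.normSq z1 * Complex.normSq u.1.ev
        + Complex.normSq z2 * Complex.normSq u.2.ev
        + 2 * ((starRingEnd ℂ) z1 * z2).re * ((starRingEnd ℂ) u.1.ev * u.2.ev).re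
        - 2 * ((starRingEnd ℂ) z1 * z2).im * ((starRingEnd ℂ) u.1.ev * u.2.ev).im := by
      unfold psi2
      simp only [Complex.normSq_apply, Complex.add_re, Complex.add_im, Complex.mul_re, Complex.mul_im,
        Complex.conj_re, Complex.conj_im]
      ring
    rw [h3, ← h1, ← h2]
    push_cast
    ring
  rw [e] at h
  exact h

def addW (u v : Cx × Cx) : Cx × Cx := (u.1.add v.1, u.2.add v.2)

def S2 (B : ℕ) : Sq (Cx × Cx) PV :=
  ⟨one2 B, fun u v => PV.sub (PV.sub (one2 B (addW u v)) (one2 B u)) (one2 B v)⟩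

theorem rs2 (B : ℕ) (z1 z2 : ℂ) : Rs (S2 B) (RV B 4 (w2 z1 z2)) (psi2 z1 z2) where
  one := one2_ok B z1 z2
  two := fun u v => by
    have h := ((one2_ok B z1 z2 (addW u v)).sub (one2_ok B z1 z2 u)).sub (one2_ok B z1 z2 v)
    have e : Complex.normSq (psi2 z1 z2 (addW u v)) - Complex.normSq (psi2 z1 z2 u) - Complex.normSq (psi2 z1 z2 v)
        = 2 * ((starRingEnd ℂ) (psi2 z1 z2 u) * psi2 z1 z2 v).re := by
      have h1 : psi2 z1 z2 (addW u v) = psi2 z1 z2 u + psi2 z1 z2 v := by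
        unfold psi2 addW
        simp only [Cx.ev_add]
        ring
      rw [h1, Complex.normSq_add]
      have h2 : (psi2 z1 z2 u * (starRingEnd ℂ) (psi2 z1 z2 v)).re
          = ((starRingEnd ℂ) (psi2 z1 z2 u) * psi2 z1 z2 v).re := by
        simp only [Complex.mul_re, Complex.conj_re, Complex.conj_im]
        ring
      rw [h2]
      ring
    rw [e] at h
    exact h

end Pool.Agent.FPX.PLK
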