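import Pool.Agent.FPX.PLV
/-!
PLW (helper1). Certificates as packed data, statement for node functions `x : ℕ → ℝ`.
-/
set_option autoImplicit false

noncomputable section

namespace Pool.Agent.FPX.PLK

open List (Forall₂)

/-- the nodes as a list -/
def nds : (ℕ → ℝ) → ℕ → List ℝ
  | x, 0 => [x 0]
  | x, n + 1 => x 0 :: nds (fun i => x (i + 1)) n

theorem nds_head (x : ℕ → ℝ) (n : ℕ) : ∃ l, nds x n = x 0 :: l := by
  cases n <;> exact ⟨_, rfl⟩

theorem nds_headI (x : ℕ → ℝ) (n : ℕ) : (nds x n).headI = x 0 := by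
  cases n <;> rfl

theorem nds_last : ∀ (n : ℕ) (x : ℕ → ℝ) (d : ℝ), (nds x n).getLastD d = x n
  | 0, x, d => rfl
  | n + 1, x, d => by
    obtain ⟨l, hl⟩ := nds_head (fun i => x (i + 1)) n
    have ih := nds_last n (fun i => x (i + 1)) d
    simp only [nds]
    rw [hl] at ih ⊢
    rw [← ih]
    simp

/-- zero polynomial -/
def P6.zero : P6 ℤ := ⟨0, 0, 0, 0, 0, 0⟩

/-- value of an integer polynomial -/
def P6.ev (p : P6 ℤ) (x y : ℝ) : ℝ := p.k + p.a * x + p.b * y + p.aa * x ^ 2 + p.ab * (x * y) + p.bb * y ^ 2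

/-- zero polynomial -/
def A3.zero : A3 := ⟨0, 0, 0⟩

theorem ev6_cast (p : P6 ℤ) (x y : ℝ) : ev6 (cc OR 1 p) x y = p.ev x y := by
  simp [ev6, cc, OR, P6.ev]

theorem sum6_nds : ∀ (n : ℕ) (ps : List (P6 ℤ)) (x : ℕ → ℝ),
    sum6 (castP ps) (nds x n) = ∑ i ∈ Finset.range n, (ps.getD i P6.zero).ev (x i) (x (i + 1))
  | 0, ps, x => by
    cases ps <;> simp [castP, nds, sum6]
  | n + 1, [], x => by
    simp [castP, sum6, P6.ev, P6.zero]
  | n + 1, p :: ps, x => by
    obtain ⟨l, hl⟩ := nds_head (fun i => x (i + 1)) n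
    have ih := sum6_nds n ps fun i => x (i + 1)
    unfold castP at ih ⊢
    rw [Finset.sum_range_succ']
    simp only [List.map_cons, nds, List.getD_cons_zero, List.getD_cons_succ]
    rw [hl] at ih ⊢
    simp only [sum6, ev6_cast]
    rw [ih]
    ring

theorem sum3_nds : ∀ (n : ℕ) (ps : List A3) (x : ℕ → ℝ),
    sum3 ps (nds x n) = ∑ i ∈ Finset.range n, ev3 (ps.getD i A3.zero) (x i) (x (i + 1))
  | 0, ps, x => by
    cases ps <;> simp [nds, sum3]
  | n + 1, [], x => by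
    simp [sum3, ev3, A3.zero]
  | n + 1, p :: ps, x => by
    obtain ⟨l, hl⟩ := nds_head (fun i => x (i + 1)) n
    have ih := sum3_nds n ps fun i => x (i + 1)
    rw [Finset.sum_range_succ']
    simp only [nds, List.getD_cons_zero, List.getD_cons_succ]
    rw [hl] at ih ⊢
    simp only [sum3]
    rw [ih]
    ring

theorem bd_nds {κ : ℤ} : ∀ (n : ℕ) (Ls Hs : List ℤ) (x : ℕ → ℝ), Ls.length = n → Hs.length = n →
    (∀ i < n, -((Ls.getD i 0 : ℤ) : ℝ) ≤ κ * (x (i + 1) - x i)) →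
    (∀ i < n, κ * (x (i + 1) - x i) ≤ ((Hs.getD i 0 : ℤ) : ℝ)) → Bd κ Ls Hs (nds x n)
  | 0, Ls, Hs, x, h1, h2, _, _ => by
    rw [List.length_eq_zero_iff] at h1 h2
    subst h1 h2
    simp [nds, Bd]
  | n + 1, Ls, Hs, x, h1, h2, h3, h4 => by
    cases Ls with
    | nil => simp at h1
    | cons l Ls =>
      cases Hs with
      | nil => simp at h2
      | cons h Hs =>
        obtain ⟨m, hm⟩ := nds_head (fun i => x (i + 1)) n
        have ih := bd_nds n Ls Hs (fun i => x (i + 1)) (by simpa using h1) (by simpa using h2)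
          (fun i hi => by simpa using h3 (i + 1) (by omega)) (fun i hi => by simpa using h4 (i + 1) (by omega))
        simp only [nds]
        rw [hm] at ih ⊢
        exact ⟨by simpa using h3 0 (by omega), by simpa using h4 0 (by omega), ih⟩

/-! ### data -/

/-- certificate. `F`, `L`, `C` and the bounds `Ls`, `Hs` (scale `κ`) belong to the statement, the others are data:
`B` base of the packed numbers, `W` base of the digits, `S` unit, `o` offset, `off`, `bb`, `Ch` auxiliary,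
`dt` the corner values, `g` weight of the squares, `W2`, `o2` base and offset of their digits, `gs` the squares -/
structure CD where
  N : ℕ
  κ : ℤ
  Ls : List ℤ
  Hs : List ℤ
  F : List (List ℤ × List (P6 ℤ))
  L : List (List A3)
  C : List (List (List ℤ))
  B : ℕ
  W : ℕ
  S : ℕ
  o : ℕ
  off : ℕ
  bb : ℕ
  Ch : ℕ
  dt : List ℕ
  g : ℕ
  W2 : ℕ
  o2 : ℕ
  gs : List ℕ

/-- the part of the statement -/
structure CD.Box (D : CD) (x : ℕ → ℝ) : Prop where
  anti : x D.N = -x 0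
  lo : ∀ i < D.N, -((D.Ls.getD i 0 : ℤ) : ℝ) ≤ D.κ * (x (i + 1) - x i)
  hi : ∀ i < D.N, D.κ * (x (i + 1) - x i) ≤ ((D.Hs.getD i 0 : ℤ) : ℝ)

/-- value of the form with the weights `w` -/
def CD.val (D : CD) (w : List ℝ) (x : ℕ → ℝ) : ℝ :=
  (D.F.map fun q => iz w q.1 * ∑ i ∈ Finset.range D.N, (q.2.getD i P6.zero).ev (x i) (x (i + 1))).sum
    + qv id (D.C.map fun r => r.map (iz w))
      (D.L.map fun f => ∑ i ∈ Finset.range D.N, ev3 (f.getD i A3.zero) (x i) (x (i + 1)))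

/-- rows of chunks -/
def decR (f : ℕ → PV) (C : ℕ) : ℕ → ℕ → List PV
  | 0, _ => []
  | k + 1, x => f (Nat.mod x C) :: decR f C k (Nat.div x C)

/-- tables of chunks -/
def decT (f : ℕ → PV) (C : ℕ) : ℕ → List ℕ → List (List PV)
  | n + 1, x :: xs => decR f C (Nat.succ (Nat.mul 3 n)) x :: decT f C n xs
  | _, _ => []

theorem mem_decR {f : ℕ → PV} {C : ℕ} : ∀ {k x : ℕ} {d : PV}, d ∈ decR f C k x → ∃ c, d = f c
  | 0, _, _, h => by simp [decR] at h
  | k + 1, x, d, h => by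
    rcases List.mem_cons.1 h with rfl | h
    · exact ⟨_, rfl⟩
    · exact mem_decR h

theorem mem_decT {f : ℕ → PV} {C : ℕ} : ∀ {n : ℕ} {xs : List ℕ} {ds : List PV}, ds ∈ decT f C n xs →
    ∃ k x, ds = decR f C k x
  | 0, _, _, h => by simp [decT] at h
  | _ + 1, [], _, h => by simp [decT] at h
  | n + 1, x :: xs, ds, h => by
    rcases List.mem_cons.1 h with rfl | h
    · exact ⟨_, _, rfl⟩
    · exact mem_decT h

/-- consistency of the data -/
def CD.pre (K : ℕ) (D : CD) : Bool :=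
  Nat.ble 1 D.W && (Nat.beq D.off (Nat.mul D.S (od D.B (List.replicate K D.o))) &&
    (Nat.ble (Nat.mul D.S D.W) D.bb && (Nat.ble D.o D.W && (Nat.beq D.Ls.length D.N && (Nat.beq D.Hs.length D.N &&
      ((D.F.all fun q => Nat.beq q.1.length K) && ((D.C.all fun r => r.all fun c => Nat.beq c.length K) &&
        (lenOk D.N (D.F.map fun q => (ofZ D.B q.1, q.2)) && decide (0 < D.κ)))))))))

theorem certA {W : Type} {K : ℕ} (D : CD) {O : Op PV} {S : Sq W PV} {ψ : W → ℂ} {w : List ℝ}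
    (H : Rl O (RV D.B K w)) (hS : Rs S (RV D.B K w) ψ) (hp : D.pre K = true) {f : ℕ → PV}
    (hf : ∀ c, f c = ⟨Nat.mul D.S (od D.B (dgs D.W K c)), D.off, D.bb⟩) {G : List (ℕ × List W)}
    (h : chkN O S D.N D.κ D.Ls D.Hs (D.F.map fun q => (ofZ D.B q.1, q.2)) D.L (D.C.map fun r => r.map (ofZ D.B)) G
      (decT f D.Ch D.N D.dt) = true) {x : ℕ → ℝ} (hx : D.Box x) : 0 ≤ D.val w x := by
  simp only [CD.pre, Bool.and_eq_true, List.all_eq_true, Nat.ble_eq, decide_eq_true_eq] at hp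
  obtain ⟨p1, p2, p3, p4, p5, p6, p7, p8, p9, p10⟩ := hp
  have q2 := Nat.eq_of_beq_eq_true p2
  have q5 := Nat.eq_of_beq_eq_true p5
  have q6 := Nat.eq_of_beq_eq_true p6
  have hd : ∀ ds ∈ decT f D.Ch D.N D.dt, ∀ d ∈ ds, ∃ t, RV D.B K w d t := by
    intro ds hds d hd
    obtain ⟨k, y, rfl⟩ := mem_decT hds
    obtain ⟨c, rfl⟩ := mem_decR hd
    rw [hf]
    exact dec_ok (W := D.W) (S := D.S) (o := D.o) (c := c) (by omega) rfl q2 p3 p4
  have hF : Forall₂ (fun (q : PV × List (P6 ℤ)) (q' : ℝ × List (P6 ℤ)) => RV D.B K w q.1 q'.1 ∧ q.2 = q'.2)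
      (D.F.map fun q => (ofZ D.B q.1, q.2)) (D.F.map fun q => (iz w q.1, q.2)) := by
    rw [List.forall₂_map_left_iff, List.forall₂_map_right_iff]
    refine List.forall₂_same.2 fun q hq => ⟨ofZ_ok (Nat.eq_of_beq_eq_true (p7 q hq)), rfl⟩
  have hC : Forall₂ (Forall₂ (RV D.B K w)) (D.C.map fun r => r.map (ofZ D.B)) (D.C.map fun r => r.map (iz w)) := by
    rw [List.forall₂_map_left_iff, List.forall₂_map_right_iff]
    refine List.forall₂_same.2 fun r hr => ?_
    rw [List.forall₂_map_left_iff, List.forall₂_map_right_iff]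
    exact List.forall₂_same.2 fun c hc => ofZ_ok (Nat.eq_of_beq_eq_true (p8 r hr c hc))
  have key := certN H hS hF hC hd p10 p9 h (bd_nds D.N D.Ls D.Hs x q5 q6 hx.lo hx.hi)
    (by rw [nds_last, nds_headI, hx.anti]) q5
  unfold CD.val
  simp only [List.map_map, Function.comp_def, sum6_nds, sum3_nds] at key
  exact key

/-! ### two components -/

/-- four digits of `c` in base `W` written in base `B` -/
def sp4 (B W c : ℕ) : ℕ :=
  Nat.add (Nat.mod c W) (Nat.mul B (Nat.add (Nat.mod (Nat.div c W) W)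
    (Nat.mul B (Nat.add (Nat.mod (Nat.div (Nat.div c W) W) W)
      (Nat.mul B (Nat.mod (Nat.div (Nat.div (Nat.div c W) W) W) W))))))

theorem sp4_eq (B W c : ℕ) : sp4 B W c = od B (dgs W 4 c) := by
  simp [sp4, dgs, od]

/-- digits of a complex row -/
def decW2 (W o : ℕ) : ℕ → ℕ → List (Cx × Cx)
  | 0, _ => []
  | k + 1, x =>
    (⟨Nat.mod x W, o, Nat.mod (Nat.div x W) W, o⟩,
      ⟨Nat.mod (Nat.div (Nat.div x W) W) W, o, Nat.mod (Nat.div (Nat.div (Nat.div x W) W) W) W, o⟩)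
      :: decW2 W o k (Nat.div (Nat.div (Nat.div (Nat.div x W) W) W) W)

/-- the complete test, two components -/
def CD.chk2 (D : CD) : Bool :=
  D.pre 4 && chkN (O2 D.B) (S2 D.B) D.N D.κ D.Ls D.Hs (D.F.map fun q => (ofZ D.B q.1, q.2)) D.L
    (D.C.map fun r => r.map (ofZ D.B)) (D.gs.map fun x => (D.g, decW2 D.W2 D.o2 D.L.length x))
    (decT (fun c => ⟨Nat.mul D.S (sp4 D.B D.W c), D.off, D.bb⟩) D.Ch D.N D.dt)

/-- **certificate with two components** -/
theorem cert2 {D : CD} (h : D.chk2 = true) (z1 z2 : ℂ) {x : ℕ → ℝ} (hx : D.Box x) : 0 ≤ D.val (w2 z1 z2) x := by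
  simp only [CD.chk2, Bool.and_eq_true] at h
  exact certA D (rl2 D.B z1 z2) (rs2 D.B z1 z2) h.1 (fun c => by rw [sp4_eq]) h.2 hx

theorem iz_w2 (z1 z2 : ℂ) (a d r i : ℤ) : iz (w2 z1 z2) [a, d, r, i]
    = a * Complex.normSq z1 + d * Complex.normSq z2 + 2 * (((r : ℂ) + i * Complex.I) * ((starRingEnd ℂ) z1 * z2)).re := by
  simp only [w2, iz, Complex.mul_re, Complex.mul_im, Complex.add_re, Complex.add_im, Complex.intCast_re,
    Complex.intCast_im, Complex.I_re, Complex.I_im]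
  ring

end Pool.Agent.FPX.PLK
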