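import Pool.Agent.FPX.PLW
/-!
PLX (helper1). PLN with two additions: a table of coefficients in the variables `(1, θ)`, and products of linear forms
which are nonnegative by hypothesis with multipliers `∑ θ_j P_j + (1 - θ_j) P'_j`, `P_j`, `P'_j` positive.
-/
set_option autoImplicit false

noncomputable section

namespace Pool.Agent.FPX.PLK

open List (Forall₂)

variable {V : Type}

/-- the row of the multiplier -/
def lamR (O : Op V) (l : List (V × V)) : List V :=
  l.foldr (fun p s => O.add p.2 s) O.z :: l.map fun p => O.sub p.1 p.2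

/-- positivity of the coefficients of the multiplier -/
def lamOk (O : Op V) (l : List (V × V)) : Bool := l.all fun p => O.psd p.1 && O.psd p.2

/-- minus the sum of the products -/
def prods (O : Op V) (row : List A3 → List ℤ) : List (List A3 × List (V × V)) → List (List V)
  | q :: l => addR O (prR O ((row q.1).map fun x => -x) (lamR O q.2)) (prods O row l)
  | [] => []

/-- the complete test: as `chkN`, in addition a table `T` and products `P` -/
def chkX {W : Type} (O : Op V) (S : Sq W V) (N : ℕ) (κ' : ℤ) (Ls Hs : List ℤ) (F : List (V × List (P6 ℤ)))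
    (L : List (List A3)) (C : List (List V)) (G : List (ℕ × List W)) (T : List (List V))
    (P : List (List A3 × List (V × V))) (dt : List (List V)) : Bool :=
  let h := addZ Ls Hs
  let hn := h.map fun x => -x
  let es := h.map fun x => 2 * x
  let ρ := Ls.sum
  (P.all fun q => lamOk O q.2) &&
  fin O N (addR O (addR O (tab O hn (run O es (srs O (2 * κ') ρ Ls (locP O F))))
    (sbR O (addR O C (grams O S G)) (L.map (row3 (2 * κ') ρ Ls es hn))))
    (addR O T (prods O (row3 (2 * κ') ρ Ls es hn) P))) dt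

/-! ### values -/

theorem lamR_nonneg : ∀ (l : List (ℝ × ℝ)), (∀ p ∈ l, 0 ≤ p.1 ∧ 0 ≤ p.2) → ∀ θ : List ℝ, Box θ →
    0 ≤ lv id (lamR OR l) (1 :: θ)
  | [], _, θ, _ => by simp [lamR, OR]
  | p :: l, h, [], _ => by
    have ih := lamR_nonneg l (fun q hq => h q (by simp [hq])) [] (fun d hd => by simp at hd)
    have h1 := h p (by simp)
    simp only [lamR, lv_cons, List.foldr, lv_nil', OR, id] at ih ⊢
    linarith
  | p :: l, h, t :: θ, hθ => by
    obtain ⟨⟨t0, t1⟩, hθ'⟩ := hθ.cons
    have ih := lamR_nonneg l (fun q hq => h q (by simp [hq])) θ hθ'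
    obtain ⟨h1, h2⟩ := h p (by simp)
    simp only [lamR, lv_cons, List.foldr, List.map_cons, OR, id] at ih ⊢
    have h3 : 0 ≤ p.1 * t + p.2 * (1 - t) := by
      have : 0 ≤ 1 - t := by linarith
      positivity
    linarith

theorem lz_nonneg_row {κ' : ℤ} {Ls h : List ℤ} {θ xs : List ℝ} (hI : Inc κ' Ls h θ xs)
    (h0 : 2 * (κ' : ℝ) * xs.headI = (Ls.sum : ℤ) + -lz h θ) (f : List A3) :
    lz (row3 (2 * κ') Ls.sum Ls (h.map fun x => 2 * x) (h.map fun x => -x) f) (1 :: θ)
      = (2 * κ' : ℝ) * sum3 f xs := by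
  have h3 := sum3_run (ps := f) hI h0
  simp only [row3, lz_cons, lz_addZ, lz_map, lz_neg]
  rw [← h3]
  ring

theorem prods_nonpos {κ' : ℤ} (hκ : 0 < κ') {row : List A3 → List ℤ} {θ xs : List ℝ}
    (hr : ∀ f, lz (row f) (1 :: θ) = (2 * κ' : ℝ) * sum3 f xs) (hθ : Box θ) :
    ∀ P : List (List A3 × List (ℝ × ℝ)), (∀ q ∈ P, 0 ≤ sum3 q.1 xs) →
      (∀ q ∈ P, ∀ p ∈ q.2, 0 ≤ p.1 ∧ 0 ≤ p.2) → qv id (prods OR row P) (1 :: θ) ≤ 0
  | [], _, _ => by simp [prods]
  | q :: P, h1, h2 => by
    have ih := prods_nonpos hκ hr hθ P (fun q hq => h1 q (by simp [hq])) (fun q hq => h2 q (by simp [hq]))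
    simp only [prods, qv_addR evOR, qv_prR evOR, lz_neg, hr]
    have h3 := h1 q (by simp)
    have h4 := lamR_nonneg q.2 (h2 q (by simp)) θ hθ
    have h5 : (0 : ℝ) < 2 * κ' := by
      have : (0 : ℝ) < κ' := by exact_mod_cast hκ
      positivity
    have h6 : 0 ≤ (2 * (κ' : ℝ) * sum3 q.1 xs) * lv id (lamR OR q.2) (1 :: θ) :=
      mul_nonneg (mul_nonneg h5.le h3) h4
    linarith

/-! ### parametricity -/

variable {O : Op V} {R : V → ℝ → Prop}

/-- related pairs -/
def R2 (R : V → ℝ → Prop) (p : V × V) (q : ℝ × ℝ) : Prop := R p.1 q.1 ∧ R p.2 q.2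

theorem lamR_par (H : Rl O R) {l : List (V × V)} {l' : List (ℝ × ℝ)} (h : Forall₂ (R2 R) l l') :
    Forall₂ R (lamR O l) (lamR OR l') := by
  have h1 : R (l.foldr (fun p s => O.add p.2 s) O.z) (l'.foldr (fun p s => OR.add p.2 s) OR.z) := by
    induction h with
    | nil => exact H.z
    | cons hp _ ih => exact H.add hp.2 ih
  refine .cons h1 ?_
  clear h1
  induction h with
  | nil => exact .nil
  | cons hp _ ih => exact .cons (H.sub hp.1 hp.2) ih

theorem prods_par (H : Rl O R) (row : List A3 → List ℤ) {P : List (List A3 × List (V × V))}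
    {P' : List (List A3 × List (ℝ × ℝ))} (h : Forall₂ (fun q q' => q.1 = q'.1 ∧ Forall₂ (R2 R) q.2 q'.2) P P') :
    Forall₂ (Forall₂ R) (prods O row P) (prods OR row P') := by
  induction h with
  | nil => exact .nil
  | @cons q q' P P' hq _ ih =>
    simp only [prods, hq.1]
    exact addR_par H (prR_par H _ (lamR_par H hq.2)) ih

/-- data of the multipliers represent something nonnegative -/
theorem ex_prod (H : Rl O R) : ∀ {P : List (List A3 × List (V × V))},
    (∀ q ∈ P, ∀ p ∈ q.2, (∃ t, R p.1 t) ∧ ∃ t, R p.2 t) → (P.all fun q => lamOk O q.2) = true →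
    ∃ P' : List (List A3 × List (ℝ × ℝ)), Forall₂ (fun q q' => q.1 = q'.1 ∧ Forall₂ (R2 R) q.2 q'.2) P P' ∧
      ∀ q ∈ P', ∀ p ∈ q.2, 0 ≤ p.1 ∧ 0 ≤ p.2 := by
  have row : ∀ l : List (V × V), (∀ p ∈ l, (∃ t, R p.1 t) ∧ ∃ t, R p.2 t) → lamOk O l = true →
      ∃ l' : List (ℝ × ℝ), Forall₂ (R2 R) l l' ∧ ∀ p ∈ l', 0 ≤ p.1 ∧ 0 ≤ p.2 := by
    intro l
    induction l with
    | nil => intro _ _; exact ⟨[], .nil, by simp⟩
    | cons p l ih =>
      intro h1 h2
      simp only [lamOk, List.all_cons, Bool.and_eq_true] at h2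
      obtain ⟨⟨a1, a2⟩, h3⟩ := h2
      obtain ⟨⟨s, hs⟩, ⟨t, ht⟩⟩ := h1 p (by simp)
      obtain ⟨l', hl, hp⟩ := ih (fun p hp => h1 p (by simp [hp])) h3
      refine ⟨(s, t) :: l', .cons ⟨hs, ht⟩ hl, ?_⟩
      intro q hq
      rcases List.mem_cons.1 hq with rfl | hq
      · exact ⟨H.psd hs a1, H.psd ht a2⟩
      · exact hp q hq
  intro P
  induction P with
  | nil => intro _ _; exact ⟨[], .nil, by simp⟩
  | cons q P ih =>
    intro h1 h2
    simp only [List.all_cons, Bool.and_eq_true] at h2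
    obtain ⟨l', hl, hp⟩ := row q.2 (h1 q (by simp)) h2.1
    obtain ⟨P', hP, hq⟩ := ih (fun q hq => h1 q (by simp [hq])) h2.2
    refine ⟨(q.1, l') :: P', .cons ⟨rfl, hl⟩ hP, ?_⟩
    intro r hr
    rcases List.mem_cons.1 hr with rfl | hr
    · exact hp
    · exact hq r hr

/-- **soundness** -/
theorem certX {W : Type} {S : Sq W V} {ψ : W → ℂ} (H : Rl O R) (K : Rs S R ψ) {N : ℕ} {κ' : ℤ} {Ls Hs : List ℤ}
    {F : List (V × List (P6 ℤ))} {F' : List (ℝ × List (P6 ℤ))}
    (hF : Forall₂ (fun q q' => R q.1 q'.1 ∧ q.2 = q'.2) F F') {L : List (List A3)}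
    {C : List (List V)} {C' : List (List ℝ)} (hC : Forall₂ (Forall₂ R) C C') {G : List (ℕ × List W)}
    {T : List (List V)} {T' : List (List ℝ)} (hT : Forall₂ (Forall₂ R) T T')
    {P : List (List A3 × List (V × V))} (hP : ∀ q ∈ P, ∀ p ∈ q.2, (∃ t, R p.1 t) ∧ ∃ t, R p.2 t)
    {dt : List (List V)} (hd : ∀ ds ∈ dt, ∀ d ∈ ds, ∃ t, R d t) (hκ : 0 < κ') (hN : lenOk N F = true)
    (h : chkX O S N κ' Ls Hs F L C G T P dt = true)
    {xs : List ℝ} (hB : Bd κ' Ls Hs xs) (hx : xs.getLastD 0 = -xs.headI) (hlN : Ls.length = N)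
    (hpos : ∀ q ∈ P, 0 ≤ sum3 q.1 xs) :
    ∃ θ, Box θ ∧ Inc κ' Ls (addZ Ls Hs) θ xs ∧
      0 ≤ (2 * κ' : ℝ) ^ 2 * ((F'.map fun q => q.1 * sum6 (castP q.2) xs).sum
        + qv id C' (L.map fun f => sum3 f xs)) + qv id T' (1 :: θ) := by
  obtain ⟨θ, hb, hI⟩ := ex_inc hB
  refine ⟨θ, hb, hI, ?_⟩
  obtain ⟨l1, l2⟩ := inc_len hI
  set hh := addZ Ls Hs with hhd
  have hs := inc_sum hI 0
  rw [hx] at hs
  have h0 : 2 * (κ' : ℝ) * xs.headI = (Ls.sum : ℤ) + -lz hh θ := by
    rw [hs]
    ring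
  simp only [chkX, Bool.and_eq_true] at h
  obtain ⟨hlam, h⟩ := h
  obtain ⟨P', hPP, hPpos⟩ := ex_prod H hP hlam
  have hTab := addR_par H (addR_par H (tab_par H (hh.map fun x => -x) (run_par H (hh.map fun x => 2 * x)
      (srs_par H (2 * κ') Ls.sum Ls (locP_par H hF))))
    (sbR_par H (addR_par H hC (grams_par H K G))
      (L.map (row3 (2 * κ') Ls.sum Ls (hh.map fun x => 2 * x) (hh.map fun x => -x)))))
    (addR_par H hT (prods_par H (row3 (2 * κ') Ls.sum Ls (hh.map fun x => 2 * x) (hh.map fun x => -x)) hPP))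
  have hc := fin_par H hTab hd h hb (by rw [← l2, hlN])
  have hlF : (locP OR F').length = N := by
    have hne : F ≠ [] := by
      rintro rfl
      simp [lenOk] at hN
    have hall : ∀ q ∈ F, q.2.length = N := by
      intro q hq
      cases F with
      | nil => simp at hq
      | cons a F =>
        simp only [lenOk, List.all_eq_true] at hN
        exact Nat.eq_of_beq_eq_true (hN q hq)
    rw [← locP_length O N hall hne]
    exact (locP_par H hF).length_eq.symm
  rw [qv_addR evOR, qv_addR evOR, qv_addR evOR, qv_tab, qv_sbR evOR, qv_addR evOR] at hc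
  have hg := grams_nonpos evOR (esSR ψ) (vals (L.map (row3 (2 * κ') Ls.sum Ls (hh.map fun x => 2 * x)
    (hh.map fun x => -x))) (1 :: θ)) G
  have e1 := sum6_run (hh.map fun x => 2 * x) (srs OR (2 * κ') Ls.sum Ls (locP OR F')) θ (-lz hh θ)
    (by simpa using l1) (by rw [srs_length _ _ _ _ _ (by rw [hlF, hlN]), l2])
  rw [sum6_srs hI h0, sum6_locP] at e1
  rw [lz_neg, ← e1] at hc
  have hpr := prods_nonpos hκ (row := row3 (2 * κ') Ls.sum Ls (hh.map fun x => 2 * x) (hh.map fun x => -x))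
    (θ := θ) (xs := xs) (lz_nonneg_row hI h0) hb P' (by
      intro q hq
      obtain ⟨p, hp, hpq⟩ : ∃ p ∈ P, p.1 = q.1 := by
        clear hpos hP hlam h hTab hc hPpos
        induction hPP with
        | nil => simp at hq
        | @cons a b A B hab _ ih =>
          rcases List.mem_cons.1 hq with rfl | hq
          · exact ⟨a, by simp, hab.1⟩
          · obtain ⟨p, hp, hpq⟩ := ih hq
            exact ⟨p, by simp [hp], hpq⟩
      rw [← hpq]
      exact hpos p hp) hPpos
  have e2 : vals (L.map (row3 (2 * κ') Ls.sum Ls (hh.map fun x => 2 * x) (hh.map fun x => -x))) (1 :: θ)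
      = L.map fun f => (2 * κ' : ℝ) * sum3 f xs := by
    unfold vals
    rw [List.map_map]
    exact List.map_congr_left fun f _ => lz_nonneg_row hI h0 f
  rw [e2] at hc hg
  have e3 : ∀ (T : List (List ℝ)) (c : ℝ) (X : List ℝ), qv id T (X.map fun x => c * x) = c ^ 2 * qv id T X := by
    have e4 : ∀ (T : List ℝ) (c : ℝ) (X : List ℝ), lv id T (X.map fun x => c * x) = c * lv id T X := by
      intro T c
      induction T with
      | nil => intro X; simp
      | cons a T ih =>
        intro X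
        cases X with
        | nil => simp
        | cons x X =>
          simp only [List.map_cons, lv_cons, ih X]
          ring
    intro T c
    induction T with
    | nil => intro X; simp
    | cons a T ih =>
      intro X
      cases X with
      | nil => simp
      | cons x X =>
        have e5 := e4 a c (x :: X)
        simp only [List.map_cons] at e5
        simp only [List.map_cons, qv_cons, ih X, e5]
        ring
  have e6 : (L.map fun f => (2 * κ' : ℝ) * sum3 f xs) = (L.map fun f => sum3 f xs).map fun x => (2 * κ' : ℝ) * x := by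
    rw [List.map_map]
    rfl
  rw [e6] at hc hg
  rw [e3 C'] at hc
  linarith

end Pool.Agent.FPX.PLK
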