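import Pool.Agent.FPX.PLY
/-!
PLZ (helper1). Decoders of packed integers for the statement part of the certificates.
-/
set_option autoImplicit false

namespace Pool.Agent.FPX.PLK

/-- `d - o` in constructor form -/
def zi (o d : ℕ) : ℤ := bif Nat.ble o d then Int.ofNat (Nat.sub d o) else Int.negSucc (Nat.sub (Nat.sub o d) 1)

/-- `n` integers from the digits of `x` in base `W`, offset `o` -/
def zs (W o : ℕ) : ℕ → ℕ → List ℤ
  | 0, _ => []
  | n + 1, x => zi o (Nat.mod x W) :: zs W o n (Nat.div x W)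

/-- polynomials in two node values, six digits each -/
def p6s (W o : ℕ) : ℕ → ℕ → List (P6 ℤ)
  | 0, _ => []
  | n + 1, x =>
    ⟨zi o (Nat.mod x W), zi o (Nat.mod (Nat.div x W) W), zi o (Nat.mod (Nat.div (Nat.div x W) W) W),
      zi o (Nat.mod (Nat.div (Nat.div (Nat.div x W) W) W) W),
      zi o (Nat.mod (Nat.div (Nat.div (Nat.div (Nat.div x W) W) W) W) W),
      zi o (Nat.mod (Nat.div (Nat.div (Nat.div (Nat.div (Nat.div x W) W) W) W) W) W)⟩
      :: p6s W o n (Nat.div (Nat.div (Nat.div (Nat.div (Nat.div (Nat.div x W) W) W) W) W) W)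

/-- linear polynomials, three digits each -/
def a3s (W o : ℕ) : ℕ → ℕ → List A3
  | 0, _ => []
  | n + 1, x =>
    ⟨zi o (Nat.mod x W), zi o (Nat.mod (Nat.div x W) W), zi o (Nat.mod (Nat.div (Nat.div x W) W) W)⟩
      :: a3s W o n (Nat.div (Nat.div (Nat.div x W) W) W)

end Pool.Agent.FPX.PLK
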