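import Mathlib
import Pool.Agent.FPX.KPW

/-
PWO (helper52): the pointwise inequality of the modulus closing for a constant multiplier `p`, in the
plain form (nothing is absorbed, the cross term stays).
`pwo_ge`: for every real `p`, `D = (A - a, B - b)`, `η = T - v`:
`|D|² + (1 + 2 p <v, η>) ν + 4 (2 - p) <b₋, D₋> + (τ/2) (<v,A>² + <v,B>²) + P(e) ≤ Q - p dν[T]`.
`pwo_lam`: for `0 ≤ p ≤ 2` and every constant `l > 0`:
`(1 - (2 - p)/l) |D|² + (1 - 2 p |η| - (2 - p) l) ν + P(e) ≤ Q - p dν[T]`.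
`pwo_int`: such a family, integrated over a set `S`, with the best `l`: with `E = ∫_S |D|²`,
`x = ∫_S ν`:  `E - 2 (2 - p) √(x E) + (1 - 2 p t) x + ∫_S P ≤ ∫_S F`.
`pwo_scal`: the scalar minimum over `E` and `t`, `t² ≤ R E`.
`pwo_fin`: the final inequality in the charge `Y` and the outer charge `x`.
-/

open MeasureTheory Set Filter Topology
open scoped ENNReal NNReal

noncomputable section

namespace Pool.Agent.FPX

open Pool.Agent.EWD

/-- **the plain form of the pointwise inequality** -/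
theorem pwo_ge (p : ℝ) {v a b A B : E3} (T : E3) (hv : ‖v‖ = 1)
    (ha : inner ℝ v a = (0 : ℝ)) (hb : inner ℝ v b = (0 : ℝ)) (hAB : InW 2 1 A B) :
    ‖A - a‖ ^ 2 + ‖B - b‖ ^ 2 + (1 + 2 * p * inner ℝ v (T - v)) * nuv v a b
        + (2 - p) * (4 * inner ℝ (qm v a b) (qm v (A - a) (B - b)))
        + tauE (enb a b) / 2 * (inner ℝ v A ^ 2 + inner ℝ v B ^ 2) + PE (enb a b) ≤
      QP (fun _ => 1) v a b A B - p * dnu v a b T A B := by
  set β := ‖qm v a b‖ with hβ
  have hβ0 : 0 ≤ β := norm_nonneg _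
  have hν : nuv v a b = 2 * β ^ 2 := rfl
  have hτ : tauP (fun _ => 1) v a b = tauE (enb a b) := by
    unfold tauP
    ring
  have hQ : QP (fun _ => 1) v a b A B = Qtau (tauE (enb a b)) v a b A B := by
    unfold QP
    rw [hτ]
  rw [hQ]
  set e := enb a b with he
  have e0 : 0 ≤ e := enb_nonneg a b
  have j1 := jac_pm hv ha hb
  have j2 := norm_pm hv ha hb
  set P := ‖qp v a b‖ with hP
  have j3 : e = P ^ 2 + β ^ 2 := by
    rw [he]
    unfold enb
    rw [j2]
    ring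
  have j4 : inner ℝ v (crs b a) = e - 2 * β ^ 2 := by
    rw [j1, j3]
    ring
  set S := ‖prj v A‖ ^ 2 + ‖prj v B‖ ^ 2 with hS
  set w := (inner ℝ v A : ℝ) ^ 2 + (inner ℝ v B : ℝ) ^ 2 with hw
  have w0 : 0 ≤ w := by positivity
  have hSw : S + w ≤ 2 := by
    have k := hAB.s
    have k1 := norm_prj_sq hv A
    have k2 := norm_prj_sq hv B
    rw [hS, hw]
    linarith
  have hid := KP_id hv ha hb T A B (tauE e) p
  rw [hid, j4, hν]
  -- the mixed term
  have c1 : qm v (A - a) (B - b) = qm v A B - qm v a b := by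
    unfold qm
    have k1 : prj v (A - a) = prj v A - prj v a := by
      unfold prj
      rw [inner_sub_right, sub_smul]
      abel
    have k2 : crs v (B - b) = crs v B - crs v b := by
      ext i
      fin_cases i <;> simp [crs0, crs1, crs2] <;> ring
    rw [k1, k2, ← smul_sub]
    congr 1
    abel
  have c2 : (inner ℝ (qm v a b) (qm v (A - a) (B - b)) : ℝ) =
      inner ℝ (qm v a b) (qm v A B) - β ^ 2 := by
    rw [c1, inner_sub_right, real_inner_self_eq_norm_sq]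
  rw [c2]
  have c3 : (inner ℝ v (T - v) : ℝ) = inner ℝ v T - 1 := by
    rw [inner_sub_right, real_inner_self_eq_norm_sq, hv]
    norm_num
  rw [c3]
  -- the two cases
  have τ1 : tauE e ≤ 1 := tauE_le e
  have τ2 : 1 / 2 ≤ tauE e := tauE_ge e
  have hPE : PE e = 1 - tauE e + e * (1 - 1 / tauE e) := rfl
  rw [hPE]
  set τ := tauE e with hτdef
  have g2 : (τ - 1) * (2 - w) ≤ (τ - 1) * S := by
    have : S ≤ 2 - w := by linarith
    nlinarith
  have g6 : e * (1 - 1 / τ) = e - e / τ := by ring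
  rw [g6]
  nlinarith

/-- **the absorbed form, with a constant `l`** -/
theorem pwo_lam {p l : ℝ} (hp0 : 0 ≤ p) (hp : p ≤ 2) (hl : 0 < l) {v a b A B : E3} (T : E3)
    (hv : ‖v‖ = 1) (ha : inner ℝ v a = (0 : ℝ)) (hb : inner ℝ v b = (0 : ℝ)) (hAB : InW 2 1 A B) :
    (1 - (2 - p) / l) * (‖A - a‖ ^ 2 + ‖B - b‖ ^ 2)
        + (1 - 2 * p * ‖T - v‖ - (2 - p) * l) * nuv v a b + PE (enb a b) ≤
      QP (fun _ => 1) v a b A B - p * dnu v a b T A B := by
  have h0 := pwo_ge p T hv ha hb hAB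
  set β := ‖qm v a b‖ with hβ
  have hβ0 : 0 ≤ β := norm_nonneg _
  have hν : nuv v a b = 2 * β ^ 2 := rfl
  rw [hν] at h0 ⊢
  set x := ‖qm v (A - a) (B - b)‖ with hx
  have x0 : 0 ≤ x := norm_nonneg _
  have hc : |(inner ℝ (qm v a b) (qm v (A - a) (B - b)) : ℝ)| ≤ β * x := abs_real_inner_le_norm _ _
  have hc' := (abs_le.1 hc).1
  have hd : 2 * x ^ 2 ≤ ‖A - a‖ ^ 2 + ‖B - b‖ ^ 2 := by
    have k := norm_pm (X := prj v (A - a)) (Y := prj v (B - b)) hv (prj_perp hv _) (prj_perp hv _)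
    have k2 : qm v (prj v (A - a)) (prj v (B - b)) = qm v (A - a) (B - b) := by
      unfold qm
      rw [prj_prj hv, crs_prj]
    rw [k2] at k
    have k3 : 0 ≤ ‖qp v (prj v (A - a)) (prj v (B - b))‖ ^ 2 := by positivity
    have k4 := norm_prj_sq hv (A - a)
    have k5 := norm_prj_sq hv (B - b)
    have k6 : 0 ≤ (inner ℝ v (A - a) : ℝ) ^ 2 := by positivity
    have k7 : 0 ≤ (inner ℝ v (B - b) : ℝ) ^ 2 := by positivity
    linarith
  have hη : -‖T - v‖ ≤ (inner ℝ v (T - v) : ℝ) := by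
    have k2 := abs_real_inner_le_norm v (T - v)
    rw [hv, one_mul] at k2
    exact (abs_le.1 k2).1
  have h1 : (1 - 2 * p * ‖T - v‖) * (2 * β ^ 2) ≤ (1 + 2 * p * inner ℝ v (T - v)) * (2 * β ^ 2) := by
    refine mul_le_mul_of_nonneg_right ?_ (by positivity)
    have := mul_le_mul_of_nonneg_left hη (show (0 : ℝ) ≤ 2 * p by linarith)
    linarith
  have h2 : (2 - p) * (4 * (-(β * x))) ≤
      (2 - p) * (4 * inner ℝ (qm v a b) (qm v (A - a) (B - b))) :=
    mul_le_mul_of_nonneg_left (by linarith) (by linarith)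
  have h3 : 0 ≤ tauE (enb a b) / 2 * ((inner ℝ v A : ℝ) ^ 2 + inner ℝ v B ^ 2) := by
    have := tauE_ge (enb a b)
    have : 0 ≤ tauE (enb a b) / 2 := by linarith
    positivity
  have h4 : 4 * (β * x) ≤ l * (2 * β ^ 2) + (2 * x ^ 2) / l := by
    have e1 : l * (2 * β ^ 2) + (2 * x ^ 2) / l - 4 * (β * x) = 2 * (l * β - x) ^ 2 / l := by
      field_simp
      ring
    have e2 : 0 ≤ 2 * (l * β - x) ^ 2 / l := by positivity
    linarith
  have h5 : (2 * x ^ 2) / l ≤ (‖A - a‖ ^ 2 + ‖B - b‖ ^ 2) / l := div_le_div_of_nonneg_right hd hl.le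
  have h6 : (2 - p) * (4 * (β * x)) ≤
      (2 - p) * (l * (2 * β ^ 2) + (‖A - a‖ ^ 2 + ‖B - b‖ ^ 2) / l) :=
    mul_le_mul_of_nonneg_left (by linarith) (by linarith)
  have e3 : (2 - p) / l * (‖A - a‖ ^ 2 + ‖B - b‖ ^ 2) =
      (2 - p) * ((‖A - a‖ ^ 2 + ‖B - b‖ ^ 2) / l) := by ring
  linarith

/-- the best constant `l` -/
theorem pwo_opt {ζ E x K : ℝ} (hE : 0 ≤ E) (hx : 0 ≤ x) (hζ : 0 ≤ ζ)
    (h : ∀ l : ℝ, 0 < l → E - ζ * (E / l) - ζ * (l * x) ≤ K) : E - 2 * ζ * √(x * E) ≤ K := by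
  rcases hE.eq_or_lt with h0 | hE0
  · rw [← h0, mul_zero, Real.sqrt_zero, mul_zero, sub_zero]
    by_contra hK
    push Not at hK
    have h1 := h (-K / (2 * (ζ * x + 1))) (by
      have : 0 < ζ * x + 1 := by positivity
      have : 0 < -K := by linarith
      positivity)
    rw [← h0, zero_div, mul_zero, zero_sub, neg_zero, zero_sub] at h1
    have h2 : 0 < ζ * x + 1 := by positivity
    have h3 : ζ * (-K / (2 * (ζ * x + 1)) * x) = -K / 2 * (ζ * x / (ζ * x + 1)) := by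
      field_simp
    have h4 : ζ * x / (ζ * x + 1) ≤ 1 := by
      rw [div_le_one h2]
      linarith
    have h5 : 0 ≤ ζ * x / (ζ * x + 1) := by positivity
    rw [h3] at h1
    nlinarith
  · rcases hx.eq_or_lt with h0 | hx0
    · rw [← h0, zero_mul, Real.sqrt_zero, mul_zero, sub_zero]
      by_contra hK
      push Not at hK
      have hEK : 0 < E - K := by linarith
      have h1 := h ((ζ * E + 1) / (E - K) + 1) (by positivity)
      rw [← h0, mul_zero, mul_zero, sub_zero] at h1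
      have h3 : E - K ≤ ζ * (E / ((ζ * E + 1) / (E - K) + 1)) := by linarith
      have h4 : ζ * (E / ((ζ * E + 1) / (E - K) + 1)) = ζ * E / ((ζ * E + 1) / (E - K) + 1) := by ring
      rw [h4, le_div_iff₀ (by positivity), mul_add, mul_div_cancel₀ _ hEK.ne'] at h3
      linarith
    · have hs : 0 < √(x * E) := Real.sqrt_pos.2 (by positivity)
      have hs2 : √(x * E) ^ 2 = x * E := Real.sq_sqrt (by positivity)
      have h1 := h (√(x * E) / x) (by positivity)
      have e1 : E / (√(x * E) / x) = √(x * E) := by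
        rw [div_div_eq_mul_div, div_eq_iff hs.ne']
        nlinarith
      have e2 : √(x * E) / x * x = √(x * E) := div_mul_cancel₀ _ hx0.ne'
      rw [e1, e2] at h1
      linarith

/-- **the integrated form** -/
theorem pwo_int {Ω : Type*} [MeasurableSpace Ω] {μ : Measure Ω} {S : Set Ω} {d n P F : Ω → ℝ}
    {ζ c : ℝ} (hζ : 0 ≤ ζ) (id : IntegrableOn d S μ) (in' : IntegrableOn n S μ)
    (iP : IntegrableOn P S μ) (iF : IntegrableOn F S μ) (d0 : ∀ᵐ o ∂(μ.restrict S), 0 ≤ d o)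
    (n0 : ∀ᵐ o ∂(μ.restrict S), 0 ≤ n o)
    (h : ∀ l : ℝ, 0 < l → ∀ᵐ o ∂(μ.restrict S),
      (1 - ζ / l) * d o + (1 - c - ζ * l) * n o + P o ≤ F o) :
    (∫ o in S, d o ∂μ) - 2 * ζ * √((∫ o in S, n o ∂μ) * ∫ o in S, d o ∂μ)
        + (1 - c) * (∫ o in S, n o ∂μ) + (∫ o in S, P o ∂μ) ≤ ∫ o in S, F o ∂μ := by
  have hd : 0 ≤ ∫ o in S, d o ∂μ := integral_nonneg_of_ae d0
  have hn : 0 ≤ ∫ o in S, n o ∂μ := integral_nonneg_of_ae n0
  have key := pwo_opt (ζ := ζ) (E := ∫ o in S, d o ∂μ) (x := ∫ o in S, n o ∂μ)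
    (K := (∫ o in S, F o ∂μ) - (∫ o in S, P o ∂μ) - (1 - c) * (∫ o in S, n o ∂μ)) hd hn hζ
    (fun l hl => by
      have j1 : Integrable (fun o => (1 - ζ / l) * d o) (μ.restrict S) := id.const_mul _
      have j2 : Integrable (fun o => (1 - c - ζ * l) * n o) (μ.restrict S) := in'.const_mul _
      have j3 : Integrable (fun o => (1 - ζ / l) * d o + (1 - c - ζ * l) * n o) (μ.restrict S) :=
        j1.add j2
      have j4 : Integrable (fun o => (1 - ζ / l) * d o + (1 - c - ζ * l) * n o + P o)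
        (μ.restrict S) := j3.add iP
      have h1 : ∫ o in S, ((1 - ζ / l) * d o + (1 - c - ζ * l) * n o + P o) ∂μ ≤ ∫ o in S, F o ∂μ :=
        integral_mono_ae j4 iF (h l hl)
      have e1 : ∫ o in S, ((1 - ζ / l) * d o + (1 - c - ζ * l) * n o + P o) ∂μ =
          (1 - ζ / l) * (∫ o in S, d o ∂μ) + (1 - c - ζ * l) * (∫ o in S, n o ∂μ) +
            ∫ o in S, P o ∂μ := by
        rw [integral_add j3 iP, integral_add j1 j2, integral_const_mul, integral_const_mul]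
      rw [e1] at h1
      have e2 : ζ * ((∫ o in S, d o ∂μ) / l) = ζ / l * ∫ o in S, d o ∂μ := by ring
      rw [e2]
      linarith)
  linarith

/-- **the scalar minimum** over the energy `E` and the level `t`, `t² ≤ R E`: `n` is the charge inside,
`x` the charge outside, `p + ζ = 2` is not needed -/
theorem pwo_scal {p ζ R n x E t : ℝ} (hp : 0 ≤ p) (hn : 0 ≤ n) (hx : 0 ≤ x)
    (hR : 0 ≤ R) (hE : 0 ≤ E) (h : t ^ 2 ≤ R * E) :
    (1 - ζ ^ 2) * x - p ^ 2 * R * (n + x) ^ 2 - 2 * p * ζ * (n + x) * √(R * x) ≤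
      E - 2 * ζ * √(x * E) + (1 - 2 * p * t) * x - 2 * p * t * n := by
  have s1 : √(x * E) = √x * √E := Real.sqrt_mul hx E
  have s2 : √(R * x) = √R * √x := Real.sqrt_mul hR x
  have e1 : √E ^ 2 = E := Real.sq_sqrt hE
  have e2 : √x ^ 2 = x := Real.sq_sqrt hx
  have e3 : √R ^ 2 = R := Real.sq_sqrt hR
  have ht : t ≤ √R * √E := by
    have : t ≤ √(R * E) := Real.le_sqrt_of_sq_le h
    rwa [Real.sqrt_mul hR] at this
  rw [s1, s2]
  have h1 : 2 * p * t * (n + x) ≤ 2 * p * (√R * √E) * (n + x) :=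
    mul_le_mul_of_nonneg_right (mul_le_mul_of_nonneg_left ht (by linarith)) (by linarith)
  have h2 : 0 ≤ (√E - (ζ * √x + p * √R * (n + x))) ^ 2 := sq_nonneg _
  have h3 : (√E - (ζ * √x + p * √R * (n + x))) ^ 2 = √E ^ 2 - 2 * √E * (ζ * √x + p * √R * (n + x)) +
      (ζ ^ 2 * √x ^ 2 + 2 * p * ζ * (n + x) * (√R * √x) + p ^ 2 * √R ^ 2 * (n + x) ^ 2) := by ring
  rw [h3, e1, e2, e3] at h2
  linarith

end Pool.Agent.FPX
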