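import Mathlib
import Pool.Agent.FPX.QST

/-
QSM (helper66): the finite quadratic form `Blk` of QST as a matrix: `8 Blk (e; x) = ∑ ent i j x i x j`, with entries
that are integer combinations of the data `H k l`, `η`, `p m`, `P m`, over any type with an addition, a zero and a
multiplication by integers.
-/

set_option autoImplicit false

open MeasureTheory Set Filter Topology

noncomputable section

namespace Pool.Agent.FPX.QST

/-- the operations -/
structure Ops (R : Type) where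
  z : R
  a : R → R → R
  m : ℤ → R → R

variable {R : Type}

/-- finite sums -/
def sumN (o : Ops R) (f : ℕ → R) : ℕ → R
  | 0 => o.z
  | n + 1 => o.a (sumN o f n) (f n)

/-- the coefficient of the product of the modes `s` and `s'` of the derivative -/
def hN (o : Ops R) (N K : ℕ) (H : ℕ → ℕ → R) (s s' : ℤ) : R :=
  sumN o (fun k => if 0 ≤ (k : ℤ) + s - s' ∧ (k : ℤ) + s - s' ≤ K ∧ (K : ℤ) - N ≤ s + k ∧ s + k < N then
    H k ((k : ℤ) + s - s').toNat else o.z) (K + 1)

/-- the coefficient of the product of the modes `s` and `s'` -/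
def qN (o : Ops R) (N K L : ℕ) (H : ℕ → ℕ → R) (p : ℕ → R) (s s' : ℤ) : R :=
  o.a (o.m (2 * (2 * s + 1) * (2 * s' + 1)) (hN o N K H s s'))
    (if s = s' ∨ (L : ℤ) < (s - s').natAbs then o.z else o.m (-1) (p (s - s').natAbs))

/-- the diagonal part -/
def dN (o : Ops R) (N L : ℕ) (eta : R) (p P : ℕ → R) (i : ℕ) : R :=
  o.a (o.m (4 * (2 * i + 1) ^ 2) eta) (o.a (o.m (-4) (p 0))
    (sumN o (fun m => if N ≤ i + (m + 1) then o.m (-2) (P (m + 1)) else o.z) L))

/-- the entries of the matrix -/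
def ent (o : Ops R) (N K L : ℕ) (H : ℕ → ℕ → R) (eta : R) (p P : ℕ → R) (e : ℤ) (i j : ℕ) : R :=
  o.a (o.a (o.a (qN o N K L H p i j) (o.m e (qN o N K L H p i (-j - 1))))
    (o.a (o.m e (qN o N K L H p (-i - 1) j)) (o.m (e * e) (qN o N K L H p (-i - 1) (-j - 1)))))
    (if i = j then dN o N L eta p P i else o.z)

/-- the operations of the reals -/
def ro : Ops ℝ := ⟨0, fun x y => x + y, fun z x => (z : ℝ) * x⟩

section map

variable {o : Ops R} {φ : R → ℝ} (hz : φ o.z = 0) (ha : ∀ x y, φ (o.a x y) = φ x + φ y)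
  (hm : ∀ z x, φ (o.m z x) = (z : ℝ) * φ x)

include hz ha in
theorem sumN_map (f : ℕ → R) (n : ℕ) : φ (sumN o f n) = sumN ro (fun k => φ (f k)) n := by
  induction n with
  | zero => exact hz
  | succ n ih =>
    simp only [sumN, ha, ih]
    rfl

include hz ha in
theorem hN_map (N K : ℕ) (H : ℕ → ℕ → R) (s s' : ℤ) :
    φ (hN o N K H s s') = hN ro N K (fun k l => φ (H k l)) s s' := by
  unfold hN
  rw [sumN_map hz ha]
  congr 1
  funext k
  split_ifs
  · rfl
  · exact hz

include hz ha hm in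
theorem qN_map (N K L : ℕ) (H : ℕ → ℕ → R) (p : ℕ → R) (s s' : ℤ) :
    φ (qN o N K L H p s s') = qN ro N K L (fun k l => φ (H k l)) (fun m => φ (p m)) s s' := by
  unfold qN
  rw [ha, hm, hN_map hz ha]
  refine congrArg₂ (· + ·) rfl ?_
  split_ifs
  · exact hz
  · exact hm _ _

include hz ha hm in
theorem dN_map (N L : ℕ) (eta : R) (p P : ℕ → R) (i : ℕ) :
    φ (dN o N L eta p P i) = dN ro N L (φ eta) (fun m => φ (p m)) (fun m => φ (P m)) i := by
  unfold dN
  rw [ha, ha, hm, hm, sumN_map hz ha]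
  refine congrArg₂ (· + ·) rfl (congrArg₂ (· + ·) rfl ?_)
  congr 1
  funext m
  split_ifs
  · exact hm _ _
  · exact hz

include hz ha hm in
/-- evaluation of the entries -/
theorem ent_map (N K L : ℕ) (H : ℕ → ℕ → R) (eta : R) (p P : ℕ → R) (e : ℤ) (i j : ℕ) :
    φ (ent o N K L H eta p P e i j)
      = ent ro N K L (fun k l => φ (H k l)) (φ eta) (fun m => φ (p m)) (fun m => φ (P m)) e i j := by
  unfold ent
  rw [ha, ha, ha, ha, hm, hm, hm, qN_map hz ha hm, qN_map hz ha hm, qN_map hz ha hm, qN_map hz ha hm]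
  refine congrArg₂ (· + ·) rfl ?_
  split_ifs
  · exact dN_map hz ha hm _ _ _ _ _ _
  · exact hz

end map

/-! ### the identity over the reals -/

theorem sumN_ro (f : ℕ → ℝ) (n : ℕ) : sumN ro f n = ∑ k ∈ Finset.range n, f k := by
  induction n with
  | zero => rfl
  | succ n ih =>
    rw [Finset.sum_range_succ, ← ih]
    rfl

/-- sums over the window -/
theorem sum_Wn (N : ℕ) (f : ℤ → ℝ) :
    ∑ s ∈ Wn N, f s = ∑ i ∈ Finset.range N, (f i + f (-(i : ℤ) - 1)) := by
  induction N with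
  | zero => simp [Wn]
  | succ N ih =>
    rw [Finset.sum_range_succ, ← ih]
    have e : Wn (N + 1) = insert (N : ℤ) (insert (-(N : ℤ) - 1) (Wn N)) := by
      ext s
      simp only [Finset.mem_insert, mem_Wn]
      push_cast
      omega
    have h1 : (-(N : ℤ) - 1) ∉ Wn N := by
      rw [mem_Wn]
      omega
    have h2 : (N : ℤ) ∉ insert (-(N : ℤ) - 1) (Wn N) := by
      rw [Finset.mem_insert, mem_Wn]
      omega
    rw [e, Finset.sum_insert h2, Finset.sum_insert h1]
    ring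

theorem cf_nat (e : ℝ) (x : ℕ → ℝ) (i : ℕ) : cf e x i = x i := by
  unfold cf ix
  rw [if_pos (Int.natCast_nonneg i), if_pos (Int.natCast_nonneg i), Int.toNat_natCast, one_mul]

theorem cf_neg (e : ℝ) (x : ℕ → ℝ) (i : ℕ) : cf e x (-(i : ℤ) - 1) = e * x i := by
  unfold cf ix
  have h : ¬ (0 ≤ -(i : ℤ) - 1) := by omega
  rw [if_neg h, if_neg h]
  congr 2
  omega

/-- bilinear sums over the window -/
theorem sum_bil (N : ℕ) (e : ℤ) (x : ℕ → ℝ) (A : ℤ → ℤ → ℝ) :
    ∑ s ∈ Wn N, ∑ s' ∈ Wn N, A s s' * (cf e x s * cf e x s')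
      = ∑ i ∈ Finset.range N, ∑ j ∈ Finset.range N,
        ((A i j + e * A i (-j - 1)) + (e * A (-i - 1) j + (e * e : ℤ) * A (-i - 1) (-j - 1))) * x i * x j := by
  rw [sum_Wn]
  refine Finset.sum_congr rfl fun i _ => ?_
  rw [sum_Wn, sum_Wn, ← Finset.sum_add_distrib]
  refine Finset.sum_congr rfl fun j _ => ?_
  rw [cf_nat, cf_nat, cf_neg, cf_neg]
  push_cast
  ring

/-- the form of `h` as a bilinear sum over the window -/
theorem BlkH_bil {N K : ℕ} (H : ℕ → ℕ → ℝ) (e : ℝ) (x : ℕ → ℝ) :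
    4 * BlkH N K H e x = ∑ s ∈ Wn N, ∑ s' ∈ Wn N,
      ((2 * s + 1) * (2 * s' + 1) * hN ro N K H s s') * (cf e x s * cf e x s') := by
  have inner : ∀ (k : ℕ) (r : ℤ), r ∈ Finset.Ico ((K : ℤ) - N) N →
      ∑ l ∈ Finset.range (K + 1), H k l * (wf e x (r - k) * wf e x (r - l))
        = ∑ s' ∈ Wn N, (if 0 ≤ r - s' ∧ r - s' ≤ K then H k (r - s').toNat else 0)
          * (wf e x (r - k) * wf e x s') := by
    intro k r hr
    rw [Finset.mem_Ico] at hr
    have hinj : ∀ a ∈ Finset.range (K + 1), ∀ b ∈ Finset.range (K + 1), r - (a : ℤ) = r - b → a = b := by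
      intro a _ b _ h
      omega
    have h1 : ∑ l ∈ Finset.range (K + 1), H k l * (wf e x (r - k) * wf e x (r - l))
        = ∑ s' ∈ (Finset.range (K + 1)).image (fun l : ℕ => r - (l : ℤ)),
          (if 0 ≤ r - s' ∧ r - s' ≤ K then H k (r - s').toNat else 0) * (wf e x (r - k) * wf e x s') := by
      rw [Finset.sum_image hinj]
      refine Finset.sum_congr rfl fun l hl => ?_
      rw [Finset.mem_range] at hl
      have e1 : r - (r - (l : ℤ)) = l := by ring
      rw [e1, Int.toNat_natCast, if_pos ⟨Int.natCast_nonneg l, by omega⟩]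
    rw [h1]
    refine Finset.sum_subset ?_ ?_
    · intro s' hs'
      rw [Finset.mem_image] at hs'
      obtain ⟨l, hl, rfl⟩ := hs'
      rw [Finset.mem_range] at hl
      rw [mem_Wn]
      omega
    · intro s' _ hs'
      rw [if_neg, zero_mul]
      rintro ⟨h2, h3⟩
      refine hs' (Finset.mem_image.2 ⟨(r - s').toNat, Finset.mem_range.2 (by omega), ?_⟩)
      omega
  have outer : ∀ (k : ℕ), k ∈ Finset.range (K + 1) → ∀ F : ℤ → ℤ → ℝ,
      ∑ r ∈ Finset.Ico ((K : ℤ) - N) N, F r (r - k)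
        = ∑ s ∈ Wn N, if (K : ℤ) - N ≤ s + k ∧ s + k < N then F (s + k) s else 0 := by
    intro k hk F
    rw [Finset.mem_range] at hk
    have hinj : ∀ a ∈ Finset.Ico ((K : ℤ) - N) N, ∀ b ∈ Finset.Ico ((K : ℤ) - N) N, a - (k : ℤ) = b - k → a = b := by
      intro a _ b _ h
      omega
    have h1 : ∑ r ∈ Finset.Ico ((K : ℤ) - N) N, F r (r - k)
        = ∑ s ∈ (Finset.Ico ((K : ℤ) - N) (N : ℤ)).image (fun r => r - (k : ℤ)),
          if (K : ℤ) - N ≤ s + k ∧ s + k < N then F (s + k) s else 0 := by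
      rw [Finset.sum_image hinj]
      refine Finset.sum_congr rfl fun r hr => ?_
      rw [Finset.mem_Ico] at hr
      rw [sub_add_cancel, if_pos hr]
    rw [h1]
    refine Finset.sum_subset ?_ ?_
    · intro s hs
      rw [Finset.mem_image] at hs
      obtain ⟨r, hr, rfl⟩ := hs
      rw [Finset.mem_Ico] at hr
      rw [mem_Wn]
      omega
    · intro s _ hs
      rw [if_neg]
      rintro ⟨h2, h3⟩
      exact hs (Finset.mem_image.2 ⟨s + k, Finset.mem_Ico.2 ⟨h2, h3⟩, by ring⟩)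
  unfold BlkH
  rw [Finset.sum_comm]
  have h1 : ∀ k ∈ Finset.range (K + 1), ∑ r ∈ Finset.Ico ((K : ℤ) - N) N, ∑ l ∈ Finset.range (K + 1),
      H k l * (wf e x (r - k) * wf e x (r - l))
      = ∑ s ∈ Wn N, ∑ s' ∈ Wn N, (if 0 ≤ (k : ℤ) + s - s' ∧ (k : ℤ) + s - s' ≤ K ∧ (K : ℤ) - N ≤ s + k ∧ s + k < N
          then H k ((k : ℤ) + s - s').toNat else 0) * (wf e x s * wf e x s') := by
    intro k hk
    rw [Finset.sum_congr rfl (inner k), outer k hk fun r s => ∑ s' ∈ Wn N,
      (if 0 ≤ r - s' ∧ r - s' ≤ K then H k (r - s').toNat else 0) * (wf e x s * wf e x s')]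
    refine Finset.sum_congr rfl fun s _ => ?_
    by_cases hs : (K : ℤ) - N ≤ s + k ∧ s + k < N
    · rw [if_pos hs]
      refine Finset.sum_congr rfl fun s' _ => ?_
      have e1 : s + (k : ℤ) - s' = (k : ℤ) + s - s' := by ring
      rw [e1]
      by_cases h : 0 ≤ (k : ℤ) + s - s' ∧ (k : ℤ) + s - s' ≤ K
      · rw [if_pos h, if_pos ⟨h.1, h.2, hs.1, hs.2⟩]
      · rw [if_neg h, if_neg fun h' => h ⟨h'.1, h'.2.1⟩]
    · rw [if_neg hs]
      symm
      refine Finset.sum_eq_zero fun s' _ => ?_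
      rw [if_neg fun h' => hs ⟨h'.2.2.1, h'.2.2.2⟩, zero_mul]
  rw [Finset.sum_congr rfl h1, Finset.sum_comm, Finset.mul_sum]
  refine Finset.sum_congr rfl fun s _ => ?_
  rw [Finset.sum_comm, Finset.mul_sum]
  refine Finset.sum_congr rfl fun s' _ => ?_
  unfold hN
  rw [sumN_ro]
  rw [Finset.mul_sum, Finset.mul_sum, Finset.sum_mul]
  refine Finset.sum_congr rfl fun k _ => ?_
  unfold wf
  have : ro.z = (0 : ℝ) := rfl
  rw [this]
  ring

/-- the sum over pairs with a fixed difference -/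
theorem sum_diff (N m : ℕ) (F : ℤ → ℤ → ℝ) :
    ∑ s ∈ Wn N, ∑ s' ∈ Wn N, (if s - s' = (m : ℤ) then F s s' else 0)
      = ∑ s ∈ Wn N, if s - (m : ℤ) ∈ Wn N then F s (s - m) else 0 := by
  refine Finset.sum_congr rfl fun s _ => ?_
  by_cases h : s - (m : ℤ) ∈ Wn N
  · rw [if_pos h, Finset.sum_eq_single (s - (m : ℤ))]
    · rw [if_pos (by ring)]
    · intro s' _ hs'
      exact if_neg fun h' => hs' (by omega)
    · exact fun h' => absurd h h'
  · rw [if_neg h]
    refine Finset.sum_eq_zero fun s' hs' => ?_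
    refine if_neg fun h' => h ?_
    have : s - (m : ℤ) = s' := by omega
    rwa [this]

theorem sum_sel {L : ℕ} (p : ℕ → ℝ) (s s' : ℤ) :
    (if s = s' ∨ (L : ℤ) < (s - s').natAbs then (0 : ℝ) else p (s - s').natAbs)
      = ∑ m ∈ Finset.range L, ((if s - s' = ((m + 1 : ℕ) : ℤ) then p (m + 1) else 0)
        + (if s' - s = ((m + 1 : ℕ) : ℤ) then p (m + 1) else 0)) := by
  by_cases h : s = s' ∨ (L : ℤ) < (s - s').natAbs
  · rw [if_pos h]
    symm
    refine Finset.sum_eq_zero fun m hm => ?_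
    rw [Finset.mem_range] at hm
    rw [if_neg (by omega), if_neg (by omega), add_zero]
  · rw [if_neg h]
    rw [not_or, not_lt] at h
    obtain ⟨h1, h2⟩ := h
    rw [Finset.sum_eq_single ((s - s').natAbs - 1)]
    · have e : (s - s').natAbs - 1 + 1 = (s - s').natAbs := by omega
      rw [e]
      rcases lt_or_gt_of_ne h1 with h3 | h3
      · rw [if_neg (by omega), if_pos (by omega), zero_add]
      · rw [if_pos (by omega), if_neg (by omega), add_zero]
    · intro m _ hm
      rw [if_neg (by omega), if_neg (by omega), add_zero]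
    · intro h3
      exact absurd (Finset.mem_range.2 (by omega)) h3

theorem BlkP_bil {N L : ℕ} (hLN : L ≤ N) (eta : ℝ) (p P : ℕ → ℝ) {e : ℤ} (he : e * e = 1) (x : ℕ → ℝ) :
    8 * BlkP N L eta p P e x = (∑ s ∈ Wn N, ∑ s' ∈ Wn N,
      (-(if s = s' ∨ (L : ℤ) < (s - s').natAbs then (0 : ℝ) else p (s - s').natAbs)) * (cf e x s * cf e x s'))
      + ∑ i ∈ Finset.range N, dN ro N L eta p P i * x i ^ 2 := by
  have he' : (e : ℝ) ^ 2 = 1 := by
    rw [sq]
    exact_mod_cast he
  have h1 : ∑ s ∈ Wn N, ∑ s' ∈ Wn N,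
      (-(if s = s' ∨ (L : ℤ) < (s - s').natAbs then (0 : ℝ) else p (s - s').natAbs)) * (cf e x s * cf e x s')
      = -(2 * ∑ m ∈ Finset.range L, p (m + 1) *
        ∑ s ∈ Wn N, if s - (m + 1 : ℕ) ∈ Wn N then cf e x s * cf e x (s - (m + 1 : ℕ)) else 0) := by
    simp only [sum_sel p]
    have e1 : ∀ s s' : ℤ, -(∑ m ∈ Finset.range L, ((if s - s' = ((m + 1 : ℕ) : ℤ) then p (m + 1) else 0)
        + (if s' - s = ((m + 1 : ℕ) : ℤ) then p (m + 1) else 0))) * (cf e x s * cf e x s')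
        = ∑ m ∈ Finset.range L, -(p (m + 1) * ((if s - s' = ((m + 1 : ℕ) : ℤ) then cf e x s * cf e x s' else 0)
          + (if s' - s = ((m + 1 : ℕ) : ℤ) then cf e x s * cf e x s' else 0))) := by
      intro s s'
      rw [← Finset.sum_neg_distrib, Finset.sum_mul]
      refine Finset.sum_congr rfl fun m _ => ?_
      split_ifs <;> ring
    simp only [e1]
    have e2 : ∀ s : ℤ, ∑ s' ∈ Wn N, ∑ m ∈ Finset.range L, -(p (m + 1)
        * ((if s - s' = ((m + 1 : ℕ) : ℤ) then cf e x s * cf e x s' else 0)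
          + (if s' - s = ((m + 1 : ℕ) : ℤ) then cf e x s * cf e x s' else 0)))
        = ∑ m ∈ Finset.range L, ∑ s' ∈ Wn N, -(p (m + 1)
        * ((if s - s' = ((m + 1 : ℕ) : ℤ) then cf e x s * cf e x s' else 0)
          + (if s' - s = ((m + 1 : ℕ) : ℤ) then cf e x s * cf e x s' else 0))) := fun s => Finset.sum_comm
    simp only [e2]
    rw [Finset.sum_comm, Finset.mul_sum, ← Finset.sum_neg_distrib]
    refine Finset.sum_congr rfl fun m _ => ?_
    have e3 := sum_diff N (m + 1) fun s s' => cf e x s * cf e x s'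
    have e4 : ∑ s ∈ Wn N, ∑ s' ∈ Wn N, (if s' - s = ((m + 1 : ℕ) : ℤ) then cf e x s * cf e x s' else 0)
        = ∑ s ∈ Wn N, if s - ((m + 1 : ℕ) : ℤ) ∈ Wn N then cf e x (s - (m + 1 : ℕ)) * cf e x s else 0 := by
      rw [Finset.sum_comm]
      exact sum_diff N (m + 1) fun s s' => cf e x s' * cf e x s
    simp only [Finset.sum_neg_distrib, ← Finset.mul_sum, Finset.sum_add_distrib]
    rw [e3, e4]
    have e5 : (∑ s ∈ Wn N, if s - ((m + 1 : ℕ) : ℤ) ∈ Wn N then cf e x (s - (m + 1 : ℕ)) * cf e x s else 0)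
        = ∑ s ∈ Wn N, if s - ((m + 1 : ℕ) : ℤ) ∈ Wn N then cf e x s * cf e x (s - (m + 1 : ℕ)) else 0 :=
      Finset.sum_congr rfl fun s _ => by rw [mul_comm]
    rw [e5]
    ring
  rw [h1]
  unfold BlkP
  have h2 : 8 * (1 / 4 * ∑ s ∈ Wn N, (eta * (2 * (s : ℝ) + 1) ^ 2 - p 0 - 1 / 2 * ∑ m ∈ Finset.range L, P (m + 1)
      * ((if s - (m + 1 : ℕ) ∈ Wn N then 0 else 1) + (if s + (m + 1 : ℕ) ∈ Wn N then 0 else 1)))
        * cf e x s ^ 2) = ∑ i ∈ Finset.range N, dN ro N L eta p P i * x i ^ 2 := by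
    rw [sum_Wn, Finset.mul_sum, Finset.mul_sum]
    refine Finset.sum_congr rfl fun i hi => ?_
    rw [Finset.mem_range] at hi
    rw [cf_nat, cf_neg, mul_pow, he', one_mul]
    unfold dN
    rw [sumN_ro]
    have a1 : ∀ m ∈ Finset.range L, P (m + 1) * ((if (i : ℤ) - (m + 1 : ℕ) ∈ Wn N then (0 : ℝ) else 1)
        + (if (i : ℤ) + (m + 1 : ℕ) ∈ Wn N then 0 else 1)) = if N ≤ i + (m + 1) then P (m + 1) else 0 := by
      intro m hm
      rw [Finset.mem_range] at hm
      have b1 : (i : ℤ) - (m + 1 : ℕ) ∈ Wn N := by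
        rw [mem_Wn]
        push_cast
        omega
      rw [if_pos b1, zero_add]
      by_cases h : N ≤ i + (m + 1)
      · have b2 : (i : ℤ) + (m + 1 : ℕ) ∉ Wn N := by
          rw [mem_Wn]
          push_cast
          omega
        rw [if_neg b2, if_pos h, mul_one]
      · have b2 : (i : ℤ) + (m + 1 : ℕ) ∈ Wn N := by
          rw [mem_Wn]
          push_cast
          omega
        rw [if_pos b2, if_neg h, mul_zero]
    have a2 : ∀ m ∈ Finset.range L, P (m + 1) * ((if -(i : ℤ) - 1 - (m + 1 : ℕ) ∈ Wn N then (0 : ℝ) else 1)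
        + (if -(i : ℤ) - 1 + (m + 1 : ℕ) ∈ Wn N then 0 else 1)) = if N ≤ i + (m + 1) then P (m + 1) else 0 := by
      intro m hm
      rw [Finset.mem_range] at hm
      have b1 : -(i : ℤ) - 1 + (m + 1 : ℕ) ∈ Wn N := by
        rw [mem_Wn]
        push_cast
        omega
      rw [if_pos b1, add_zero]
      by_cases h : N ≤ i + (m + 1)
      · have b2 : -(i : ℤ) - 1 - (m + 1 : ℕ) ∉ Wn N := by
          rw [mem_Wn]
          push_cast
          omega
        rw [if_neg b2, if_pos h, mul_one]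
      · have b2 : -(i : ℤ) - 1 - (m + 1 : ℕ) ∈ Wn N := by
          rw [mem_Wn]
          push_cast
          omega
        rw [if_pos b2, if_neg h, mul_zero]
    rw [Finset.sum_congr rfl a1, Finset.sum_congr rfl a2]
    have a3 : ∑ m ∈ Finset.range L, (if N ≤ i + (m + 1) then ro.m (-2) (P (m + 1)) else ro.z)
        = -2 * ∑ m ∈ Finset.range L, if N ≤ i + (m + 1) then P (m + 1) else 0 := by
      rw [Finset.mul_sum]
      refine Finset.sum_congr rfl fun m _ => ?_
      split_ifs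
      · change ((-2 : ℤ) : ℝ) * P (m + 1) = _
        push_cast
        ring
      · change (0 : ℝ) = _
        ring
    rw [a3]
    change _ = (((4 * (2 * (i : ℤ) + 1) ^ 2 : ℤ) : ℝ) * eta + (((-4 : ℤ) : ℝ) * p 0 + _)) * x i ^ 2
    push_cast
    ring
  rw [mul_sub, h2]
  ring

/-- **`Blk` as a matrix** -/
theorem Blk_ent {N K L : ℕ} (hLN : L ≤ N) (H : ℕ → ℕ → ℝ) (eta : ℝ) (p P : ℕ → ℝ) {e : ℤ} (he : e * e = 1)
    (x : ℕ → ℝ) : 8 * Blk N K L H eta p P e x
      = ∑ i ∈ Finset.range N, ∑ j ∈ Finset.range N, ent ro N K L H eta p P e i j * x i * x j := by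
  have h1 := BlkH_bil (N := N) (K := K) H e x
  have h2 := BlkP_bil hLN eta p P he x
  have h3 := sum_bil N e x fun s s' => 2 * ((2 * s + 1) * (2 * s' + 1) * hN ro N K H s s')
    + -(if s = s' ∨ (L : ℤ) < (s - s').natAbs then (0 : ℝ) else p (s - s').natAbs)
  have h4 : ∑ s ∈ Wn N, ∑ s' ∈ Wn N, (2 * ((2 * (s : ℝ) + 1) * (2 * s' + 1) * hN ro N K H s s')
    + -(if s = s' ∨ (L : ℤ) < (s - s').natAbs then (0 : ℝ) else p (s - s').natAbs)) * (cf e x s * cf e x s')
      = 2 * (∑ s ∈ Wn N, ∑ s' ∈ Wn N,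
      ((2 * s + 1) * (2 * s' + 1) * hN ro N K H s s') * (cf e x s * cf e x s'))
      + ∑ s ∈ Wn N, ∑ s' ∈ Wn N,
      (-(if s = s' ∨ (L : ℤ) < (s - s').natAbs then (0 : ℝ) else p (s - s').natAbs)) * (cf e x s * cf e x s') := by
    rw [Finset.mul_sum, ← Finset.sum_add_distrib]
    refine Finset.sum_congr rfl fun s _ => ?_
    rw [Finset.mul_sum, ← Finset.sum_add_distrib]
    exact Finset.sum_congr rfl fun s' _ => by ring
  have h5 : ∑ i ∈ Finset.range N, ∑ j ∈ Finset.range N, ent ro N K L H eta p P e i j * x i * x j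
      = (∑ s ∈ Wn N, ∑ s' ∈ Wn N, (2 * ((2 * (s : ℝ) + 1) * (2 * s' + 1) * hN ro N K H s s')
    + -(if s = s' ∨ (L : ℤ) < (s - s').natAbs then (0 : ℝ) else p (s - s').natAbs)) * (cf e x s * cf e x s'))
      + ∑ i ∈ Finset.range N, dN ro N L eta p P i * x i ^ 2 := by
    rw [h3, ← Finset.sum_add_distrib]
    refine Finset.sum_congr rfl fun i hi => ?_
    have e1 : dN ro N L eta p P i * x i ^ 2
        = ∑ j ∈ Finset.range N, (if i = j then dN ro N L eta p P i else ro.z) * x i * x j := by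
      rw [Finset.sum_eq_single i]
      · rw [if_pos rfl]
        ring
      · intro j _ hj
        rw [if_neg fun h => hj h.symm]
        change (0 : ℝ) * _ * _ = 0
        ring
      · exact fun h => absurd hi h
    rw [e1, ← Finset.sum_add_distrib]
    refine Finset.sum_congr rfl fun j _ => ?_
    rw [← add_mul, ← add_mul]
    refine congrArg₂ (· * ·) (congrArg₂ (· * ·) ?_ rfl) rfl
    unfold ent qN
    have q : ∀ s s' : ℤ, ro.a (ro.m (2 * (2 * s + 1) * (2 * s' + 1)) (hN ro N K H s s'))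
        (if s = s' ∨ (L : ℤ) < (s - s').natAbs then ro.z else ro.m (-1) (p (s - s').natAbs))
        = 2 * ((2 * (s : ℝ) + 1) * (2 * s' + 1) * hN ro N K H s s')
          + -(if s = s' ∨ (L : ℤ) < (s - s').natAbs then (0 : ℝ) else p (s - s').natAbs) := by
      intro s s'
      change ((2 * (2 * s + 1) * (2 * s' + 1) : ℤ) : ℝ) * _ + _ = _
      split_ifs
      · change _ + (0 : ℝ) = _
        push_cast
        ring
      · change _ + ((-1 : ℤ) : ℝ) * _ = _
        push_cast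
        ring
    rw [q, q, q, q]
    rfl
  rw [h5, h4]
  unfold Blk
  linarith

end Pool.Agent.FPX.QST
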