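import Mathlib
import Pool.Agent.FPX.CAX
import Pool.Agent.FPX.XENB

/-
QZA (helper16): the bound `q₀ ≤ Q s²` for all states: mean of the squares and cell averages, scaling of the class,
small `s`.
-/

open MeasureTheory Set Filter Topology
open scoped ComplexConjugate NNReal

noncomputable section

namespace Pool.Agent.FPX.QZ

open Pool.Agent.FPX.CAV Pool.Agent.FPX.NOD Pool.Agent.FPX.SQD
open Pool.Agent.FPX.SQM Pool.Agent.FPX.SQN
open Pool.Agent.FPX.ALX (St D2)
open Pool.Agent.FPX.ALX (Xa)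

/-! ### the mean of the squares and the averages -/

section avg

variable {D : CD} (hD : D.Ok) {X : ℝ → ℝ} (hX : St D.s X) (hb : ∀ a, |X a| ≤ 0.62 * (D.s : ℝ))

include hD hX hb

theorem mS_eq : mS X = (1 / D.N : ℝ) * ∑ i ∈ Finset.range D.N, ∫ v in (0 : ℝ)..1, X (pt (ru D.N) i v) ^ 2 := by
  have k0 := sq_av hX (CD.Ok.cs0 hD).le (CD.Ok.cs1 hD) (CD.Ok.bx hD hb) (m := 0) (by decide) (CD.Ok.N0 hD)
    (r := ru D.N) (fun i => rfl)
  rw [mean_sq hX.cont] at k0
  have p1 : ∀ i, pm 0 (ru D.N) i = 1 := fun i => by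
    unfold pm ph
    simp
  simp only [p1, one_mul, CharP.cast_eq_zero, zero_mul, zero_div] at k0
  have k := norm_le_zero_iff.1 k0
  have k' := congrArg Complex.re (sub_eq_zero.1 k)
  have e : (((1 / D.N : ℝ) : ℂ) * ∑ i ∈ Finset.range D.N, ((∫ v in (0 : ℝ)..1, X (pt (ru D.N) i v) ^ 2 : ℝ) : ℂ)).re
      = (1 / D.N : ℝ) * ∑ i ∈ Finset.range D.N, ∫ v in (0 : ℝ)..1, X (pt (ru D.N) i v) ^ 2 := by
    rw [Complex.re_ofReal_mul, ← Complex.ofReal_sum, Complex.ofReal_re]
  rw [e] at k'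
  rw [← k']
  unfold mS
  simp

theorem mS_le : mS X ≤ (1 / D.N : ℝ) * ∑ i ∈ Finset.range D.N,
    (av X (ru D.N) i ^ 2 + D.VB (av X (ru D.N)) i) := by
  rw [mS_eq hD hX hb]
  refine mul_le_mul_of_nonneg_left (Finset.sum_le_sum fun i hi => ?_) (by positivity)
  have := CD.Ok.var_le hD hX (Finset.mem_range.1 hi)
  linarith

end avg

/-- the finite dimensional statement -/
def Fin' (D : CD) (C : ℝ) : Prop :=
  ∀ z : ℕ → ℝ, D.Adm z → (1 / D.N : ℝ) * ∑ i ∈ Finset.range D.N, (z i ^ 2 + D.VB z i) ≤ C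

theorem mS_of {D : CD} (hD : D.Ok) {C : ℝ} (hF : Fin' D C) {X : ℝ → ℝ} (hX : St D.s X)
    (hb : ∀ a, |X a| ≤ 0.62 * (D.s : ℝ)) : mS X ≤ C :=
  (mS_le hD hX hb).trans (hF _ (CD.Ok.adm hD hX hb))

/-! ### scaling of the class -/

theorem mn_const_mul (c : ℝ) (F : ℝ → ℝ) : (QST.mn fun a => c * F a) = c * QST.mn F := ALX.mn_mul c F

theorem mS_smul (c : ℝ) (X : ℝ → ℝ) : mS (fun a => c * X a) = c ^ 2 * mS X := by
  unfold mS
  rw [← mn_const_mul]
  congr 1
  funext a
  ring

/-- the class of the multiples -/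
theorem st_smul {s s' c : ℝ} {X : ℝ → ℝ} (h : St s X) (hc : 0 ≤ c) (h0 : 0 ≤ s) (h1 : s < 1) (h0' : 0 ≤ s')
    (h1' : s' ≤ 1) (hp : c * s * (1 + s') ≤ s' * (1 + s)) (hm : c * s * (1 - s') ≤ s' * (1 - s)) :
    St s' (fun a => c * X a) := by
  have key : ∀ t : ℝ, -1 ≤ t → t ≤ 1 → c * s * (1 - s' * t) ≤ s' * (1 - s * t) := by
    intro t ht ht'
    nlinarith [mul_nonneg (sub_nonneg.2 hp) (sub_nonneg.2 ht'), mul_nonneg (sub_nonneg.2 hm) (by linarith : 0 ≤ 1 + t)]
  obtain ⟨K, hK⟩ := h.lip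
  have hlip : LipschitzWith (‖c‖₊ * K) fun a => c * X a := by
    refine LipschitzWith.of_dist_le_mul fun x y => ?_
    rw [Real.dist_eq, ← mul_sub, abs_mul]
    have := hK.dist_le_mul x y
    rw [Real.dist_eq] at this
    calc |c| * |X x - X y| ≤ |c| * (K * dist x y) := mul_le_mul_of_nonneg_left this (abs_nonneg _)
      _ = ((‖c‖₊ * K : ℝ≥0) : ℝ) * dist x y := by
        rw [NNReal.coe_mul, coe_nnnorm, Real.norm_eq_abs]
        ring
  refine ⟨⟨_, hlip⟩, fun a => by rw [h.anti]; ring, ?_, ?_, ?_, ?_⟩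
  · filter_upwards [h.up] with a ha
    have hb := abs_le.1 (Real.abs_sin_le_one a)
    have hd : deriv (fun a => c * X a) a = c * deriv X a := by
      rw [deriv_const_mul_field]
    have p : 0 < 1 - s * Real.sin a := by nlinarith
    have p' : 0 ≤ 1 - s' * Real.sin a := by nlinarith
    rw [hd]
    have k := key _ hb.1 hb.2
    have e : (1 - s' * Real.sin a) * (c * deriv X a) * (1 - s * Real.sin a)
        ≤ s' * (1 - s * Real.sin a) := by
      calc (1 - s' * Real.sin a) * (c * deriv X a) * (1 - s * Real.sin a)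
          = (c * (1 - s' * Real.sin a)) * ((1 - s * Real.sin a) * deriv X a) := by ring
        _ ≤ (c * (1 - s' * Real.sin a)) * s := mul_le_mul_of_nonneg_left ha (by positivity)
        _ = c * s * (1 - s' * Real.sin a) := by ring
        _ ≤ _ := k
    exact le_of_mul_le_mul_right e p
  · filter_upwards [h.lo] with a ha
    have hb := abs_le.1 (Real.abs_sin_le_one a)
    have hd : deriv (fun a => c * X a) a = c * deriv X a := by
      rw [deriv_const_mul_field]
    have p : 0 < 1 + s * Real.sin a := by nlinarith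
    have p' : 0 ≤ 1 + s' * Real.sin a := by nlinarith
    rw [hd]
    have k := key (-Real.sin a) (by linarith [hb.2]) (by linarith [hb.1])
    have e : -s' * (1 + s * Real.sin a) ≤ (1 + s' * Real.sin a) * (c * deriv X a) * (1 + s * Real.sin a) := by
      calc -s' * (1 + s * Real.sin a) ≤ -(c * s * (1 + s' * Real.sin a)) := by linarith
        _ = (c * (1 + s' * Real.sin a)) * (-s) := by ring
        _ ≤ (c * (1 + s' * Real.sin a)) * ((1 + s * Real.sin a) * deriv X a) :=
          mul_le_mul_of_nonneg_left ha (by positivity)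
        _ = _ := by ring
    exact le_of_mul_le_mul_right e p
  · have : (∫ a in (0 : ℝ)..(2 * Real.pi), c * X a * Real.cos a) = c * ∫ a in (0 : ℝ)..(2 * Real.pi), X a * Real.cos a := by
      rw [← intervalIntegral.integral_const_mul]
      exact intervalIntegral.integral_congr fun a _ => by ring
    rw [this, h.mc, mul_zero]
  · have : (∫ a in (0 : ℝ)..(2 * Real.pi), c * X a * Real.sin a) = c * ∫ a in (0 : ℝ)..(2 * Real.pi), X a * Real.sin a := by
      rw [← intervalIntegral.integral_const_mul]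
      exact intervalIntegral.integral_congr fun a _ => by ring
    rw [this, h.ms, mul_zero]

/-- **one class for an interval of `s`** -/
theorem mS_range {D : CD} (hD : D.Ok) {C Q σ lo hi s : ℝ} (hF : Fin' D C) (hs0 : 0 < s) (hs1 : s < 1) (hlo : lo ≤ s)
    (hhi : s ≤ hi) (hσ : 0 < σ) (hσs : σ ≤ D.s) (hp : σ * (1 + D.s) ≤ D.s * (1 + lo))
    (hm : σ * (1 - D.s) ≤ D.s * (1 - hi)) (hC : C ≤ Q * σ ^ 2) {X : ℝ → ℝ} (hX : St s X)
    (hb : ∀ a, |X a| ≤ 0.62 * s) : mS X ≤ Q * s ^ 2 := by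
  have hD0 := CD.Ok.cs0 hD
  have hD1 := CD.Ok.cs1 hD
  have hc : σ / s * s = σ := div_mul_cancel₀ _ hs0.ne'
  have h1 : St D.s (fun a => σ / s * X a) := st_smul hX (by positivity) hs0.le hs1 hD0.le hD1
    (by rw [hc]; exact hp.trans (mul_le_mul_of_nonneg_left (by linarith) hD0.le))
    (by rw [hc]; exact hm.trans (mul_le_mul_of_nonneg_left (by linarith) hD0.le))
  have h2 : ∀ a, |σ / s * X a| ≤ 0.62 * (D.s : ℝ) := fun a => by
    rw [abs_mul, abs_of_pos (by positivity)]
    calc σ / s * |X a| ≤ σ / s * (0.62 * s) := mul_le_mul_of_nonneg_left (hb a) (by positivity)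
      _ = 0.62 * σ := by field_simp
      _ ≤ _ := by linarith
  have h3 := mS_of hD hF h1 h2
  rw [mS_smul] at h3
  have h4 : (σ / s) ^ 2 * mS X ≤ (σ / s) ^ 2 * (Q * s ^ 2) := by
    refine (h3.trans hC).trans (le_of_eq ?_)
    field_simp
  exact le_of_mul_le_mul_left h4 (by positivity)

/-! ### small `s` -/

theorem mS_small {s : ℝ} {X : ℝ → ℝ} (h : St s X) : 9 * (1 - s ^ 2) * mS X ≤ s ^ 2 := by
  obtain ⟨K, hK⟩ := h.lip
  -- Wirtinger
  have h1 := QST.main_ac hK h.anti (N := 1) (K := 0) (L := 0) (H := fun _ _ => 0) (by intro v; simp)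
    (eta := 1) zero_le_one (p := fun _ => 9) (P := fun _ => 9) (fun m => by norm_num) (by norm_num)
  have c0 : ∀ e : ℝ, ∀ x : ℕ → ℝ, x 0 = 0 → QST.Blk 1 0 0 (fun _ _ => 0) 1 (fun _ => 9) (fun _ => 9) e x = 0 := by
    intro e x hx
    have hcf : ∀ r ∈ QST.Wn 1, QST.cf e x r = 0 := by
      intro r hr
      have hr' := QST.mem_Wn.1 hr
      have : QST.ix r = 0 := by
        have : r = -1 ∨ r = 0 := by
          have h1 := hr'.1
          have h2 := hr'.2
          push_cast at h1 h2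
          omega
        rcases this with rfl | rfl <;> rfl
      unfold QST.cf
      rw [this, hx, mul_zero]
    unfold QST.Blk QST.BlkH QST.BlkP
    simp only [zero_mul, Finset.sum_const_zero, Finset.range_zero, Finset.sum_empty, mul_zero, sub_zero, zero_add]
    rw [Finset.sum_eq_zero fun r hr => by rw [hcf r hr]; ring, mul_zero]
  rw [c0 1 _ h.ca0, c0 (-1) _ h.sa0] at h1
  have e1 : (QST.mn fun t => X t ^ 2 * QST.pf 0 (fun _ => 9) t) = 9 * mS X := by
    unfold mS
    rw [← mn_const_mul]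
    congr 1
    funext t
    unfold QST.pf
    simp
    ring
  have e2 : (QST.mn fun t => deriv X t ^ 2 * QST.hf 0 (fun _ _ => 0) t) = 0 := by
    unfold QST.hf QST.mn
    simp
  rw [e1, e2] at h1
  -- the slopes
  have h2 := h.shor (w := fun _ => 1) continuous_const fun _ => zero_le_one
  have h3 : (QST.mn fun a => (1 : ℝ) * Real.sin a * deriv X a) = 0 := by
    have := h.ibp (φ := fun a => (1 : ℝ) * Real.sin a) (φ' := fun a => Real.cos a)
      (fun a => by simpa using Real.hasDerivAt_sin a) Real.continuous_cos (by simp)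
    rw [this]
    have h4 := h.mc
    unfold QST.mn
    rw [h4]
    simp
  rw [h3] at h2
  have h5 : (1 - s ^ 2) * (QST.mn fun a => deriv X a ^ 2) ≤ QST.mn fun a => deriv X a ^ 2 * (1 * D2 s a) := by
    rw [← mn_const_mul]
    unfold QST.mn
    have i1 : IntervalIntegrable (fun a => (1 - s ^ 2) * deriv X a ^ 2) volume 0 (2 * Real.pi) := by
      have := h.int2 (φ := fun _ => (1 - s ^ 2)) continuous_const 0 (2 * Real.pi)
      refine this.congr fun a _ => ?_
      ring
    have i2 : IntervalIntegrable (fun a => deriv X a ^ 2 * (1 * D2 s a)) volume 0 (2 * Real.pi) := by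
      have := h.int2 (φ := fun a => 1 * D2 s a) (continuous_const.mul ALX.cont_D2) 0 (2 * Real.pi)
      exact this
    refine mul_le_mul_of_nonneg_left (intervalIntegral.integral_mono_on (by positivity) i1 i2 fun a _ => ?_) (by positivity)
    unfold D2
    have := sq_nonneg (deriv X a)
    have h6 : s ^ 2 * Real.sin a ^ 2 ≤ s ^ 2 := by
      have := Real.sin_sq_le_one a
      nlinarith [sq_nonneg s]
    nlinarith
  have e3 : (QST.mn fun _ : ℝ => (1 : ℝ)) = 1 := by
    unfold QST.mn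
    simp
    field_simp
  rw [e3] at h2
  by_cases hs : 0 ≤ 1 - s ^ 2
  · nlinarith [mul_le_mul_of_nonneg_left h1 hs]
  · have : 0 ≤ mS X := by
      unfold mS QST.mn
      refine mul_nonneg (by positivity) (intervalIntegral.integral_nonneg (by positivity) fun a _ => sq_nonneg _)
    nlinarith [sq_nonneg s]

/-! ### states -/

open Pool.Agent.FPX.OMR (Re q0)
open Pool.Agent.FPX.F54 (X1 X2)

theorem q0_eq {f : ℝ → ℝ} (H : Re f) : q0 f = mS (Xa (X1 f) f) := by
  rw [← MX_eq H.hf H.h0 H.h2]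
  unfold q0 Pool.Agent.FPX.SQA.MX
  have e : OMR.vR f = OMB.vm (X1 f) 0 := rfl
  rw [e]
  congr 1
  funext t
  rw [← BTN.xT_xR H]

end Pool.Agent.FPX.QZ
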