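import Mathlib
import Pool.Agent.FPX.QZA
import Pool.Agent.FPX.CAR
import Pool.Agent.FPX.PLN

/-
QZB (helper16): the Boolean for the mean of the squares of the cell averages: products of the bounds of the increments,
multipliers of the first harmonic, scalar coefficients (engine PLK of helper1).
-/

open MeasureTheory Set Filter Topology

noncomputable section

namespace Pool.Agent.FPX.QZ

open Pool.Agent.FPX.CAV Pool.Agent.FPX.PLK

/-! ### scalar coefficients -/

/-- the operations of the integers -/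
def OZ : PLK.Op ℤ where
  z := 0
  add a b := a + b
  sub a b := a - b
  sm a b := a * b
  psd a := decide (0 ≤ a)

/-- the evaluation -/
def vz (a : ℤ) : ℝ := a

theorem evZ : Ev OZ vz where
  z := by simp [OZ, vz]
  add a b := by simp [OZ, vz]
  sub a b := by simp [OZ, vz]
  sm a b := by simp [OZ, vz]
  psd a h := by
    unfold OZ at h
    simp only [decide_eq_true_eq] at h
    unfold vz
    exact_mod_cast h

theorem lv_vz : ∀ (l : List ℤ) (D : List ℝ), lv vz l D = lz l D
  | a :: l, d :: D => by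
    simp only [lv_cons, lz_cons, lv_vz l D]
    rfl
  | [], D => by simp
  | _, [] => by simp

/-! ### increments -/

/-- signs of the increments in `2 z_k` -/
def sg : ℕ → List ℤ → List ℤ
  | _, [] => []
  | 0, h :: l => -h :: sg 0 l
  | k + 1, h :: l => h :: sg k l

/-- `K (z_{i+1} - z_i) = -l_i + h_i t_i` -/
def IncR (K : ℝ) : List ℤ → List ℤ → List ℝ → (ℕ → ℝ) → Prop
  | [], [], [], _ => True
  | l :: L, h :: H, t :: T, z => K * (z 1 - z 0) = -(l : ℝ) + h * t ∧ IncR K L H T fun n => z (n + 1)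
  | _, _, _, _ => False

theorem sg_val {K : ℝ} : ∀ {L H : List ℤ} {T : List ℝ} {z : ℕ → ℝ}, IncR K L H T z → ∀ k ≤ L.length,
    -(((sg k L).sum : ℤ) : ℝ) + lz (sg k H) T = K * (2 * z k - z 0 - z L.length)
  | [], [], [], z, _, k, hk => by
    have : k = 0 := by simpa using hk
    subst this
    simp only [sg, List.sum_nil, lz_nil, List.length_nil, Int.cast_zero]
    ring
  | l :: L, h :: H, t :: T, z, hi, 0, _ => by
    obtain ⟨h1, h2⟩ := hi
    have ih := sg_val h2 0 (Nat.zero_le _)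
    simp only [sg, List.sum_cons, lz_cons, List.length_cons, zero_add, Int.cast_add, Int.cast_neg] at ih ⊢
    linarith
  | l :: L, h :: H, t :: T, z, hi, k + 1, hk => by
    obtain ⟨h1, h2⟩ := hi
    have ih := sg_val h2 k (by simpa using hk)
    simp only [sg, List.sum_cons, lz_cons, List.length_cons, zero_add, Int.cast_add] at ih ⊢
    linarith
  | [], [], _ :: _, _, hi, _, _ => by simp [IncR] at hi
  | [], _ :: _, _, _, hi, _, _ => by simp [IncR] at hi
  | _ :: _, [], _, _, hi, _, _ => by simp [IncR] at hi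
  | _ :: _, _ :: _, [], _, hi, _, _ => by simp [IncR] at hi

theorem inc_get {K : ℝ} : ∀ {L H : List ℤ} {T : List ℝ} {z : ℕ → ℝ}, IncR K L H T z → ∀ i < L.length,
    ((H.getD i 0 : ℤ) : ℝ) * T.getD i 0 = K * (z (i + 1) - z i) + ((L.getD i 0 : ℤ) : ℝ)
  | [], [], [], z, _, i, hi => by simp at hi
  | l :: L, h :: H, t :: T, z, hI, 0, _ => by
    obtain ⟨h1, _⟩ := hI
    simp only [List.getD_cons_zero, zero_add]
    linarith
  | l :: L, h :: H, t :: T, z, hI, i + 1, hi => by
    obtain ⟨_, h2⟩ := hI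
    have ih := inc_get h2 i (by simpa using hi)
    simpa only [List.getD_cons_succ] using ih
  | [], [], _ :: _, _, hI, _, _ => by simp [IncR] at hI
  | [], _ :: _, _, _, hI, _, _ => by simp [IncR] at hI
  | _ :: _, [], _, _, hI, _, _ => by simp [IncR] at hI
  | _ :: _, _ :: _, [], _, hI, _, _ => by simp [IncR] at hI

/-- sums -/
def adZ : List ℤ → List ℤ → List ℤ
  | a :: l, b :: m => (a + b) :: adZ l m
  | _, _ => []

theorem adZ_getD : ∀ (L U : List ℤ) (i : ℕ), i < L.length → L.length = U.length →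
    (adZ L U).getD i 0 = L.getD i 0 + U.getD i 0
  | [], _, i, h, _ => by simp at h
  | _ :: _, [], _, _, h => by simp at h
  | a :: L, b :: U, 0, _, _ => by simp [adZ]
  | a :: L, b :: U, i + 1, h, h2 => by
    simpa [adZ] using adZ_getD L U i (by simpa using h) (by simpa using h2)

theorem ex_incR {K : ℝ} : ∀ (L U : List ℤ) (z : ℕ → ℝ), L.length = U.length →
    (∀ i < L.length, -((L.getD i 0 : ℤ) : ℝ) ≤ K * (z (i + 1) - z i)) →
    (∀ i < L.length, K * (z (i + 1) - z i) ≤ ((U.getD i 0 : ℤ) : ℝ)) →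
    ∃ T : List ℝ, Box T ∧ T.length = L.length ∧ IncR K L (adZ L U) T z
  | [], [], z, _, _, _ => ⟨[], fun d hd => by simp at hd, rfl, trivial⟩
  | l :: L, u :: U, z, hl, h1, h2 => by
    obtain ⟨T, hT, hlT, hI⟩ := ex_incR L U (fun n => z (n + 1)) (by simpa using hl)
      (fun i hi => by simpa using h1 (i + 1) (by simpa using hi))
      (fun i hi => by simpa using h2 (i + 1) (by simpa using hi))
    have a1 := h1 0 (by simp)
    have a2 := h2 0 (by simp)
    simp only [List.getD_cons_zero, zero_add] at a1 a2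
    set d := K * (z 1 - z 0) with hd
    have hs : (0 : ℝ) ≤ (l : ℝ) + u := by linarith
    rcases eq_or_lt_of_le hs with e | e
    · refine ⟨0 :: T, ?_, by simp [hlT], ?_, hI⟩
      · intro x hx
        rcases List.mem_cons.1 hx with rfl | hx
        · exact ⟨le_rfl, zero_le_one⟩
        · exact hT x hx
      · rw [mul_zero, add_zero, ← hd]
        linarith
    · refine ⟨(d + l) / ((l : ℝ) + u) :: T, ?_, by simp [hlT], ?_, hI⟩
      · intro x hx
        rcases List.mem_cons.1 hx with rfl | hx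
        · constructor
          · exact div_nonneg (by linarith) e.le
          · rw [div_le_one e]
            linarith
        · exact hT x hx
      · rw [← hd]
        push_cast
        field_simp
        ring
  | [], _ :: _, _, h, _, _ => by simp at h
  | _ :: _, [], _, h, _, _ => by simp at h

/-! ### rows -/

/-- `2 K z_k` -/
def rowZ (L H : List ℤ) (k : ℕ) : List ℤ := -(sg k L).sum :: 0 :: 0 :: sg k H

/-- one variable -/
def un : ℕ → ℤ → List ℤ
  | 0, x => [x]
  | k + 1, x => 0 :: un k x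

theorem lz_un : ∀ (k : ℕ) (x : ℤ) (T : List ℝ), lz (un k x) T = x * T.getD k 0
  | 0, x, [] => by simp [un]
  | 0, x, t :: T => by simp [un]
  | k + 1, x, [] => by simp [un]
  | k + 1, x, t :: T => by
    simp only [un, lz_cons, Int.cast_zero, zero_mul, zero_add, List.getD_cons_succ]
    exact lz_un k x T

def slL (H : List ℤ) (k : ℕ) : List ℤ := 0 :: 0 :: 0 :: un k (H.getD k 0)

def slU (H : List ℤ) (k : ℕ) : List ℤ := H.getD k 0 :: 0 :: 0 :: un k (-(H.getD k 0))

/-- the squares -/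
def zs (S : ℤ) (L H : List ℤ) : ℕ → List (List ℤ × List ℤ)
  | 0 => []
  | n + 1 => (rowZ L H n, (rowZ L H n).map fun x => -S * x) :: zs S L H n

/-- the product of a cell -/
def vp (c : ℤ) (H : List ℤ) (N ty k : ℕ) : List (List ℤ × List ℤ) :=
  match ty with
  | 0 => []
  | 1 => [(slL H (k - 1), (slL H k).map fun x => c * x)]
  | 2 => [(slU H (k - 1), (slU H k).map fun x => c * x)]
  | _ => [(slL H (N - 1), (slU H 0).map fun x => c * x)]

/-- the variances -/
def vs (c : ℤ) (H : List ℤ) (N : ℕ) (ty : List ℕ) : ℕ → List (List ℤ × List ℤ)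
  | 0 => []
  | n + 1 => vp c H N (ty.getD n 0) n ++ vs c H N ty n

/-- a moment -/
def hm (L H : List ℤ) : List ℤ → ℕ → List ℤ
  | [], _ => []
  | r :: R, k => addZ ((rowZ L H k).map fun x => r * x) (hm L H R (k + 1))

/-- natural numbers as integers -/
def cst (l : List ℕ) : List ℤ := l.map Int.ofNat

/-- all products -/
def prs (Z : CZ) (S : ℤ) (m1 m2 : List ℤ) : List (List ℤ × List ℤ) :=
  let L := cst Z.lb
  let H := adZ L (cst Z.hb)
  let E : ℤ := 131072 * Z.g1
  (addZ (hm L H Z.r1 0) [E, -2 * E], m1) :: (addZ (hm L H Z.i1 0) [E, 0, -2 * E], m2) ::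
    (zs S L H Z.G.N ++ vs (-4 * S) H Z.G.N Z.ty Z.G.N)

/-- **the Boolean**: the mean of `z² + VB` is at most `q` -/
def chkQ (Z : CZ) (S C : ℤ) (m1 m2 : List ℤ) (dt : List (List ℤ)) (q : ℚ) : Bool :=
  decide (Z.lb.length = Z.G.N) && decide (Z.hb.length = Z.G.N) && decide (Z.r1.length = Z.G.N) &&
  decide (Z.i1.length = Z.G.N) && decide (Z.vc.length = Z.G.N) && decide (0 < S) && decide (0 < Z.g1) &&
  decide ((C : ℚ) / (4 * 1048576 ^ 2 * S) + ((Z.vc.sum : ℕ) : ℚ) / 1048576 ≤ Z.G.N * q) &&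
  fin OZ (Z.G.N + 2) (addR OZ [[C]] (pR OZ (prs Z S m1 m2))) dt

/-! ### values -/

theorem lz_smul (r : ℤ) : ∀ (l : List ℤ) (D : List ℝ), lz (l.map fun x => r * x) D = r * lz l D
  | a :: l, d :: D => by
    simp only [List.map_cons, lz_cons, lz_smul r l D]
    push_cast
    ring
  | [], D => by simp
  | _, [] => by simp

variable {K : ℝ} {L H : List ℤ} {T : List ℝ} {z : ℕ → ℝ} {d1 d2 : ℝ}

theorem rowZ_val (hI : IncR K L H T z) (hz : z L.length = -z 0) {k : ℕ} (hk : k ≤ L.length) :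
    lz (rowZ L H k) (1 :: d1 :: d2 :: T) = 2 * K * z k := by
  have h := sg_val hI k hk
  unfold rowZ
  simp only [lz_cons, Int.cast_neg, Int.cast_zero]
  rw [hz] at h
  linarith

theorem zs_val (hI : IncR K L H T z) (hz : z L.length = -z 0) (S : ℤ) : ∀ n ≤ L.length,
    pS vz (zs S L H n) (1 :: d1 :: d2 :: T) = -S * ∑ k ∈ Finset.range n, (2 * K * z k) ^ 2
  | 0, _ => by simp [zs, pS]
  | n + 1, hn => by
    have ih := zs_val hI hz S n (by omega)
    unfold pS at ih ⊢
    simp only [zs, List.map_cons, List.sum_cons, ih]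
    rw [lv_vz, lz_smul, rowZ_val hI hz (by omega : n ≤ L.length), Finset.sum_range_succ]
    push_cast
    ring

theorem slL_val (hI : IncR K L H T z) {k : ℕ} (hk : k < L.length) :
    lz (slL H k) (1 :: d1 :: d2 :: T) = K * (z (k + 1) - z k) + ((L.getD k 0 : ℤ) : ℝ) := by
  unfold slL
  simp only [lz_cons, lz_un, Int.cast_zero, zero_mul, zero_add]
  exact inc_get hI k hk

theorem slU_val (hI : IncR K L H T z) {k : ℕ} (hk : k < L.length) :
    lz (slU H k) (1 :: d1 :: d2 :: T) = ((H.getD k 0 : ℤ) : ℝ) - (K * (z (k + 1) - z k) + ((L.getD k 0 : ℤ) : ℝ)) := by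
  unfold slU
  simp only [lz_cons, lz_un, Int.cast_zero, zero_mul, zero_add, mul_one]
  rw [← inc_get hI k hk]
  push_cast
  ring

theorem hm_val (hI : IncR K L H T z) (hz : z L.length = -z 0) : ∀ (R : List ℤ) (k : ℕ), k + R.length ≤ L.length →
    lz (hm L H R k) (1 :: d1 :: d2 :: T) = ∑ i ∈ Finset.range R.length, ((R.getD i 0 : ℤ) : ℝ) * (2 * K * z (k + i))
  | [], k, _ => by simp [hm]
  | r :: R, k, hk => by
    simp only [List.length_cons] at hk
    have ih := hm_val hI hz R (k + 1) (by omega)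
    simp only [hm, lz_addZ, lz_smul, rowZ_val hI hz (by omega : k ≤ L.length), List.length_cons]
    rw [Finset.sum_range_succ', ih]
    simp only [List.getD_cons_zero, List.getD_cons_succ, add_zero]
    rw [add_comm]
    congr 1
    refine Finset.sum_congr rfl fun i _ => ?_
    rw [show k + 1 + i = k + (i + 1) by omega]

theorem pS_append (l m : List (List ℤ × List ℤ)) (D : List ℝ) : pS vz (l ++ m) D = pS vz l D + pS vz m D := by
  unfold pS
  rw [List.map_append, List.sum_append]

theorem getD_map_nat : ∀ (l : List ℕ) (i : ℕ), (cst l).getD i 0 = ((l.getD i 0 : ℕ) : ℤ)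
  | [], i => by simp [cst]
  | a :: l, 0 => by simp [cst]
  | a :: l, i + 1 => by
    have := getD_map_nat l i
    unfold cst at this ⊢
    simpa using this

theorem cst_length (l : List ℕ) : (cst l).length = l.length := by
  unfold cst
  rw [List.length_map]

theorem sum_getD (l : List ℕ) : ∀ n, l.length = n → (∑ i ∈ Finset.range n, ((l.getD i 0 : ℕ) : ℝ)) = ((l.sum : ℕ) : ℝ) := by
  induction l with
  | nil =>
    intro n hn
    subst hn
    simp
  | cons a l ih =>
    intro n hn
    subst hn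
    rw [List.length_cons, Finset.sum_range_succ', List.sum_cons]
    simp only [List.getD_cons_zero, List.getD_cons_succ]
    rw [ih l.length rfl]
    push_cast
    ring

/-- **soundness** -/
theorem fin_of {Z : CZ} (hD : Z.cd.Ok) {S C : ℤ} {m1 m2 : List ℤ} {dt : List (List ℤ)} {q : ℚ}
    (h : chkQ Z S C m1 m2 dt q = true) : Fin' Z.cd (q : ℝ) := by
  intro z hz
  simp only [chkQ, Bool.and_eq_true, decide_eq_true_eq] at h
  obtain ⟨⟨⟨⟨⟨⟨⟨⟨l1, l2⟩, l3⟩, l4⟩, l5⟩, hS⟩, hg⟩, hq⟩, hf⟩ := h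
  set N := Z.G.N with hN
  have hNN : Z.cd.N = N := rfl
  have hN0 : 0 < N := CD.Ok.N0 hD
  have hNr : (0 : ℝ) < N := by exact_mod_cast hN0
  set L : List ℤ := cst Z.lb with hL
  set U : List ℤ := cst Z.hb with hU
  set H : List ℤ := adZ L U with hH
  have lL : L.length = N := by rw [hL, cst_length, l1]
  have lU : U.length = N := by rw [hU, cst_length, l2]
  set K : ℝ := 1048576 with hK
  have eL : ∀ i, K * (Z.cd.lb i : ℝ) = ((L.getD i 0 : ℤ) : ℝ) := fun i => by
    have e : Z.cd.lb i = nq Z.lb i := rfl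
    rw [e, hL, getD_map_nat]
    unfold nq
    rw [hK]
    push_cast
    ring
  have eU : ∀ i, K * (Z.cd.hb i : ℝ) = ((U.getD i 0 : ℤ) : ℝ) := fun i => by
    have e : Z.cd.hb i = nq Z.hb i := rfl
    rw [e, hU, getD_map_nat]
    unfold nq
    rw [hK]
    push_cast
    ring
  have hK0 : 0 < K := by rw [hK]; norm_num
  obtain ⟨T, hT, hlT, hI⟩ := ex_incR (K := K) L U z (by rw [lL, lU])
    (fun i hi => by
      have := hz.lo i (by rw [hNN, ← lL]; exact hi)
      rw [← eL i]
      nlinarith)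
    (fun i hi => by
      have := hz.hi i (by rw [hNN, ← lL]; exact hi)
      rw [← eU i]
      exact mul_le_mul_of_nonneg_left this hK0.le)
  have hlast : z L.length = -z 0 := by
    rw [lL]
    exact hz.last
  -- the harmonics
  set E : ℤ := 131072 * Z.g1 with hE
  have hE0 : (0 : ℝ) < E := by
    rw [hE]
    push_cast
    have : (0 : ℝ) < Z.g1 := by exact_mod_cast hg
    positivity
  have bnd : ∀ (R : List ℤ), R.length = N → |Z.cd.lf (zq R) z| ≤ (Z.cd.e1 : ℝ) →
      |∑ i ∈ Finset.range R.length, ((R.getD i 0 : ℤ) : ℝ) * (2 * K * z (0 + i))| ≤ (E : ℝ) := by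
    intro R hR hb
    have e1 : (Z.cd.e1 : ℝ) = (Z.g1 : ℝ) / (N * 16777216) := by
      have e : Z.cd.e1 = (Z.g1 : ℚ) / (Z.G.N * 16777216) := rfl
      rw [e]
      push_cast
      rfl
    have e2 : Z.cd.lf (zq R) z = (1 / N : ℝ) * ∑ i ∈ Finset.range N, (((R.getD i 0 : ℤ) : ℝ) / 1048576) * z i := by
      unfold CD.lf
      rw [hNN]
      congr 1
      refine Finset.sum_congr rfl fun i _ => ?_
      unfold zq
      push_cast
      rfl
    have e3 : ∑ i ∈ Finset.range R.length, ((R.getD i 0 : ℤ) : ℝ) * (2 * K * z (0 + i))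
        = 2 * K ^ 2 * N * Z.cd.lf (zq R) z := by
      rw [e2, hR, Finset.mul_sum, Finset.mul_sum]
      refine Finset.sum_congr rfl fun i _ => ?_
      rw [zero_add, hK]
      field_simp
    rw [e3, abs_mul, abs_of_pos (by positivity)]
    calc 2 * K ^ 2 * N * |Z.cd.lf (zq R) z| ≤ 2 * K ^ 2 * N * ((Z.g1 : ℝ) / (N * 16777216)) := by
          rw [← e1]
          exact mul_le_mul_of_nonneg_left hb (by positivity)
      _ = (E : ℝ) := by
        rw [hE, hK]
        push_cast
        field_simp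
        norm_num
  obtain ⟨A1, hA1⟩ : ∃ A, A = ∑ i ∈ Finset.range Z.r1.length, ((Z.r1.getD i 0 : ℤ) : ℝ) * (2 * K * z (0 + i)) := ⟨_, rfl⟩
  obtain ⟨A2, hA2⟩ : ∃ A, A = ∑ i ∈ Finset.range Z.i1.length, ((Z.i1.getD i 0 : ℤ) : ℝ) * (2 * K * z (0 + i)) := ⟨_, rfl⟩
  have b1 := bnd Z.r1 l3 hz.c1
  have b2 := bnd Z.i1 l4 hz.s1
  rw [← hA1] at b1
  rw [← hA2] at b2
  set d1 : ℝ := (A1 + E) / (2 * E) with hd1
  set d2 : ℝ := (A2 + E) / (2 * E) with hd2
  have bd : ∀ {A : ℝ}, |A| ≤ (E : ℝ) → 0 ≤ (A + E) / (2 * E) ∧ (A + E) / (2 * E) ≤ 1 := fun {A} hA => by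
    obtain ⟨h1, h2⟩ := abs_le.1 hA
    constructor
    · exact div_nonneg (by linarith) (by positivity)
    · rw [div_le_one (by positivity)]
      linarith
  have hBox : Box (d1 :: d2 :: T) := by
    intro x hx
    rcases List.mem_cons.1 hx with rfl | hx
    · exact bd b1
    rcases List.mem_cons.1 hx with rfl | hx
    · exact bd b2
    · exact hT x hx
  have hlD : (d1 :: d2 :: T).length = N + 2 := by
    simp [hlT, lL]
  have key := fin_sound evZ hf hBox hlD
  rw [qv_addR evZ, qv_pR evZ] at key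
  have z1 : lz (addZ (hm L H Z.r1 0) [E, -2 * E]) (1 :: d1 :: d2 :: T) = 0 := by
    rw [lz_addZ, hm_val hI hlast Z.r1 0 (by omega), ← hA1]
    simp only [lz_cons, lz_nil]
    push_cast
    rw [hd1]
    field_simp
    ring
  have z2 : lz (addZ (hm L H Z.i1 0) [E, 0, -2 * E]) (1 :: d1 :: d2 :: T) = 0 := by
    rw [lz_addZ, hm_val hI hlast Z.i1 0 (by omega), ← hA2]
    simp only [lz_cons, lz_nil]
    push_cast
    rw [hd2]
    field_simp
    ring
  have vv : ∀ n ≤ N, pS vz (vs (-4 * S) H N Z.ty n) (1 :: d1 :: d2 :: T)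
      = -4 * S * K ^ 2 * ∑ k ∈ Finset.range n, (Z.cd.VB z k - (Z.cd.vc k : ℝ)) := by
    intro n
    induction n with
    | zero => intro _; simp [vs, pS]
    | succ n ih =>
      intro hn
      have hn' : n < N := by omega
      rw [vs, pS_append, ih (by omega), Finset.sum_range_succ]
      have hv := hD.var n hn'
      have hLg : ∀ k, k < N → lz (slL H k) (1 :: d1 :: d2 :: T) = K * (z (k + 1) - z k + (Z.cd.lb k : ℝ)) := fun k hk => by
        rw [slL_val hI (by omega), ← eL k]
        ring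
      have hUg : ∀ k, k < N → lz (slU H k) (1 :: d1 :: d2 :: T) = K * ((Z.cd.hb k : ℝ) - (z (k + 1) - z k)) := fun k hk => by
        rw [slU_val hI (by omega), adZ_getD L U k (by omega) (by omega)]
        push_cast
        rw [← eL k, ← eU k]
        ring
      obtain ⟨t, ht⟩ : ∃ t, t = Z.ty.getD n 0 := ⟨_, rfl⟩
      have hty : Z.cd.ty n = t := ht.symm
      rw [← ht]
      have goal : pS vz (vp (-4 * S) H N t n) (1 :: d1 :: d2 :: T)
          = -4 * S * K ^ 2 * (Z.cd.VB z n - (Z.cd.vc n : ℝ)) := by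
        unfold CD.VB
        unfold CD.okV at hv
        rw [hty] at hv ⊢
        clear hty ht
        rcases t with _ | _ | _ | t
        · simp [pS, vp]
        · obtain ⟨j, rfl, -⟩ := hv
          simp only [vp, zero_add, pS, List.map_cons, List.map_nil, List.sum_cons, List.sum_nil, lv_vz, lz_smul,
            Nat.add_sub_cancel, hLg j (by omega), hLg (j + 1) hn']
          push_cast
          ring
        · obtain ⟨j, rfl, -⟩ := hv
          simp only [vp, zero_add, Nat.reduceAdd, pS, List.map_cons, List.map_nil, List.sum_cons, List.sum_nil, lv_vz, lz_smul,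
            Nat.add_sub_cancel, hUg j (by omega), hUg (j + 1) hn']
          push_cast
          ring
        · obtain ⟨rfl, -⟩ := hv
          have hLN := hLg (N - 1) (by omega)
          rw [show N - 1 + 1 = N by omega] at hLN
          simp only [vp, pS, List.map_cons, List.map_nil, List.sum_cons, List.sum_nil, lv_vz, lz_smul, hLN, hUg 0 hN0, hNN]
          push_cast
          ring
      rw [goal]
      ring
  have pc : pS vz (prs Z S m1 m2) (1 :: d1 :: d2 :: T)
      = -S * (∑ k ∈ Finset.range N, (2 * K * z k) ^ 2)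
        + -4 * S * K ^ 2 * ∑ k ∈ Finset.range N, (Z.cd.VB z k - (Z.cd.vc k : ℝ)) := by
    have e : prs Z S m1 m2 = (addZ (hm L H Z.r1 0) [E, -2 * E], m1) :: (addZ (hm L H Z.i1 0) [E, 0, -2 * E], m2) ::
      (zs S L H N ++ vs (-4 * S) H N Z.ty N) := rfl
    have e1 : ∀ (p : List ℤ × List ℤ) (l : List (List ℤ × List ℤ)) (D : List ℝ),
        pS vz (p :: l) D = lz p.1 D * lv vz p.2 D + pS vz l D := fun p l D => by
      unfold pS
      rw [List.map_cons, List.sum_cons]
    rw [e, e1, e1, pS_append, zs_val hI hlast S N (by omega), vv N le_rfl]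
    simp only [z1, z2]
    ring
  rw [pc] at key
  have c0 : qv vz [[C]] (1 :: d1 :: d2 :: T) = (C : ℝ) := by
    simp [vz]
  rw [c0] at key
  have hS' : (0 : ℝ) < S := by exact_mod_cast hS
  have hvc : ∑ k ∈ Finset.range N, (Z.cd.vc k : ℝ) = ((Z.vc.sum : ℕ) : ℝ) / 1048576 := by
    rw [← sum_getD Z.vc N l5, Finset.sum_div]
    refine Finset.sum_congr rfl fun k _ => ?_
    have e : Z.cd.vc k = nq Z.vc k := rfl
    rw [e]
    unfold nq
    push_cast
    rfl
  have hsq : ∑ k ∈ Finset.range N, (2 * K * z k) ^ 2 = 4 * K ^ 2 * ∑ k ∈ Finset.range N, z k ^ 2 := by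
    rw [Finset.mul_sum]
    exact Finset.sum_congr rfl fun k _ => by ring
  rw [hsq, Finset.sum_sub_distrib, hvc] at key
  obtain ⟨V, hV⟩ : ∃ V : ℕ, V = Z.vc.sum := ⟨_, rfl⟩
  rw [← hV] at hq key
  have hq' : (C : ℝ) / (4 * 1048576 ^ 2 * S) + (V : ℝ) / 1048576 ≤ N * (q : ℝ) := by
    have := (Rat.cast_le (K := ℝ)).2 hq
    push_cast at this
    exact this
  rw [hNN, Finset.sum_add_distrib]
  obtain ⟨A, hA⟩ : ∃ A, A = ∑ k ∈ Finset.range N, z k ^ 2 := ⟨_, rfl⟩
  obtain ⟨B, hB⟩ : ∃ B, B = ∑ k ∈ Finset.range N, Z.cd.VB z k := ⟨_, rfl⟩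
  rw [← hA, ← hB] at key ⊢
  have k1 : A + B ≤ (C : ℝ) / (4 * 1048576 ^ 2 * S) + (V : ℝ) / 1048576 := by
    rw [← hK]
    have h4 : (0 : ℝ) < 4 * K ^ 2 * S := by positivity
    rw [← sub_le_iff_le_add, le_div_iff₀ h4]
    rw [← hK] at key
    nlinarith
  calc (1 / N : ℝ) * (A + B) ≤ (1 / N : ℝ) * (N * (q : ℝ)) := mul_le_mul_of_nonneg_left (k1.trans hq') (by positivity)
    _ = (q : ℝ) := by field_simp

end Pool.Agent.FPX.QZ
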