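import Mathlib

/-!
S7A. The abstract level set (Riccati) lemma.

`a t` is the measure of `{t ≤ u}`, `F₁ s = ∫_{u<s} G`. If `p (a t)² ≤ c F₁'(t)² q (a t)` for almost
every `t` (isoperimetric inequality), `Q' = q`, then `∫₀ᴮ 2t (p (a t) - Q (a t)) dt ≤ c ∫ G²`.
-/

open MeasureTheory Set Filter Topology

noncomputable section

namespace Pool.Agent.FPX

variable {Ω : Type*} [MeasurableSpace Ω]

/-- the integral over the sublevel set -/
def s7F (μ : Measure Ω) (u f : Ω → ℝ) (s : ℝ) : ℝ := ∫ o in {o | u o < s}, f o ∂μ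

/-- the measure of the superlevel set -/
def s7a (μ : Measure Ω) (u : Ω → ℝ) (t : ℝ) : ℝ := μ.real {o | t ≤ u o}

theorem s7F_sub (μ : Measure Ω) {u f : Ω → ℝ} (hu : Measurable u) (hf : Integrable f μ)
    {s t : ℝ} (h : s ≤ t) : s7F μ u f t - s7F μ u f s = ∫ o in {o | s ≤ u o ∧ u o < t}, f o ∂μ := by
  have hd : Disjoint {o | u o < s} {o | s ≤ u o ∧ u o < t} := by
    rw [Set.disjoint_left]
    intro o h1 h2
    exact absurd h2.1 (not_le.2 h1)
  have hU : {o | u o < t} = {o | u o < s} ∪ {o | s ≤ u o ∧ u o < t} := by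
    ext o
    simp only [mem_ofPred_eq, mem_union]
    constructor
    · intro h1
      rcases lt_or_ge (u o) s with h2 | h2
      · exact Or.inl h2
      · exact Or.inr ⟨h2, h1⟩
    · rintro (h1 | h1)
      · exact lt_of_lt_of_le h1 h
      · exact h1.2
  have hm : MeasurableSet {o | s ≤ u o ∧ u o < t} :=
    (measurableSet_le measurable_const hu).inter (measurableSet_lt hu measurable_const)
  unfold s7F
  rw [hU, setIntegral_union hd hm hf.integrableOn hf.integrableOn]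
  ring

theorem s7F_mono (μ : Measure Ω) {u f : Ω → ℝ} (hu : Measurable u) (hf : Integrable f μ)
    (f0 : ∀ o, 0 ≤ f o) : Monotone (s7F μ u f) := by
  intro s t h
  have h1 := s7F_sub μ hu hf h
  have h2 : 0 ≤ ∫ o in {o | s ≤ u o ∧ u o < t}, f o ∂μ := integral_nonneg fun o => f0 o
  linarith

theorem s7_cs (ν : Measure Ω) [IsFiniteMeasure ν] {G : Ω → ℝ} (hG : Integrable G ν)
    (hG2 : Integrable (fun o => G o ^ 2) ν) :
    (∫ o, G o ∂ν) ^ 2 ≤ (∫ o, G o ^ 2 ∂ν) * (∫ _o, (1 : ℝ) ∂ν) := by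
  set I := ∫ o, G o ∂ν with hI
  set m := ∫ _o, (1 : ℝ) ∂ν with hm
  have hm0 : 0 ≤ m := integral_nonneg fun _ => zero_le_one
  have key : ∀ l : ℝ, 0 ≤ ∫ o, G o ^ 2 ∂ν - 2 * l * I + l ^ 2 * m := by
    intro l
    have h1 : 0 ≤ ∫ o, (G o - l) ^ 2 ∂ν := integral_nonneg fun o => sq_nonneg _
    have h2 : ∫ o, (G o - l) ^ 2 ∂ν = ∫ o, G o ^ 2 ∂ν - 2 * l * I + l ^ 2 * m := by
      have e : ∀ o, (G o - l) ^ 2 = G o ^ 2 - 2 * l * G o + l ^ 2 * 1 := fun o => by ring
      simp_rw [e]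
      have e1 : Integrable (fun o => G o ^ 2 - 2 * l * G o) ν := hG2.sub (hG.const_mul _)
      have e2 : Integrable (fun _ : Ω => l ^ 2 * (1 : ℝ)) ν := (integrable_const _).const_mul _
      rw [integral_add e1 e2, integral_sub hG2 (hG.const_mul _), integral_const_mul,
        integral_const_mul]
    linarith
  rcases hm0.eq_or_lt with h0 | h0
  · have h3 := key ((∫ o, G o ^ 2 ∂ν + 1) * I)
    have h4 : 0 ≤ ∫ o, G o ^ 2 ∂ν := integral_nonneg fun o => sq_nonneg _
    rw [← h0] at h3 ⊢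
    have h5 : I ^ 2 = 0 ∨ 0 < I ^ 2 := by
      rcases (sq_nonneg I).eq_or_lt with h | h
      · exact Or.inl h.symm
      · exact Or.inr h
    rcases h5 with h5 | h5
    · rw [h5]; simp
    · exfalso
      -- use a large multiple of I
      have h6 := key ((∫ o, G o ^ 2 ∂ν + 1) / I)
      have hI0 : I ≠ 0 := by
        rintro h
        rw [h] at h5
        simp at h5
      rw [← h0] at h6
      have h7 : 2 * ((∫ o, G o ^ 2 ∂ν + 1) / I) * I = 2 * (∫ o, G o ^ 2 ∂ν + 1) := by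
        field_simp
      rw [h7] at h6
      linarith
  · have h3 := key (I / m)
    have h4 : 2 * (I / m) * I = 2 * (I ^ 2 / m) := by ring
    have h5 : (I / m) ^ 2 * m = I ^ 2 / m := by
      field_simp
    rw [h4, h5] at h3
    have h6 : I ^ 2 / m ≤ ∫ o, G o ^ 2 ∂ν := by linarith
    rwa [div_le_iff₀ h0] at h6

section main

variable (μ : Measure Ω) [IsFiniteMeasure μ] {u G : Ω → ℝ}

theorem s7F_cs (hu : Measurable u) (hG : Integrable G μ)
    (hG2 : Integrable (fun o => G o ^ 2) μ) {s t : ℝ} (h : s ≤ t) :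
    (s7F μ u G t - s7F μ u G s) ^ 2 ≤
      (s7F μ u (fun o => G o ^ 2) t - s7F μ u (fun o => G o ^ 2) s) *
        (s7F μ u (fun _ => 1) t - s7F μ u (fun _ => 1) s) := by
  rw [s7F_sub μ hu hG h, s7F_sub μ hu hG2 h, s7F_sub μ hu (integrable_const _) h]
  exact s7_cs (μ.restrict _) hG.integrableOn hG2.integrableOn

theorem s7_deriv_cs (hu : Measurable u) (hG : Integrable G μ)
    (hG2 : Integrable (fun o => G o ^ 2) μ) {t : ℝ}
    (h0 : DifferentiableAt ℝ (s7F μ u (fun _ => 1)) t) (h1 : DifferentiableAt ℝ (s7F μ u G) t)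
    (h2 : DifferentiableAt ℝ (s7F μ u (fun o => G o ^ 2)) t) :
    deriv (s7F μ u G) t ^ 2 ≤
      deriv (s7F μ u (fun o => G o ^ 2)) t * deriv (s7F μ u (fun _ => 1)) t := by
  have e0 := hasDerivAt_iff_tendsto_slope.1 h0.hasDerivAt
  have e1 := hasDerivAt_iff_tendsto_slope.1 h1.hasDerivAt
  have e2 := hasDerivAt_iff_tendsto_slope.1 h2.hasDerivAt
  refine le_of_tendsto_of_tendsto (e1.pow 2) (e2.mul e0) ?_
  refine Filter.eventually_of_mem self_mem_nhdsWithin fun s hs => ?_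
  have hst : s - t ≠ 0 := sub_ne_zero.2 hs
  simp only [slope, vsub_eq_sub, smul_eq_mul]
  have h3 : (s7F μ u G s - s7F μ u G t) ^ 2 ≤
      (s7F μ u (fun o => G o ^ 2) s - s7F μ u (fun o => G o ^ 2) t) *
        (s7F μ u (fun _ => 1) s - s7F μ u (fun _ => 1) t) := by
    rcases le_total t s with h | h
    · exact s7F_cs μ hu hG hG2 h
    · have := s7F_cs μ hu hG hG2 h
      nlinarith
  have h4 : 0 < ((s - t)⁻¹) ^ 2 := by positivity
  calc ((s - t)⁻¹ * (s7F μ u G s - s7F μ u G t)) ^ 2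
      = ((s - t)⁻¹) ^ 2 * (s7F μ u G s - s7F μ u G t) ^ 2 := by ring
    _ ≤ ((s - t)⁻¹) ^ 2 * ((s7F μ u (fun o => G o ^ 2) s - s7F μ u (fun o => G o ^ 2) t) *
        (s7F μ u (fun _ => 1) s - s7F μ u (fun _ => 1) t)) :=
        mul_le_mul_of_nonneg_left h3 h4.le
    _ = _ := by ring

theorem s7a_eq (hu : Measurable u) (t : ℝ) :
    s7a μ u t = μ.real univ - s7F μ u (fun _ => 1) t := by
  have hm : MeasurableSet {o | u o < t} := measurableSet_lt hu measurable_const
  have h1 : s7F μ u (fun _ => 1) t = μ.real {o | u o < t} := by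
    unfold s7F
    simp [Measure.real]
  have h2 : {o | t ≤ u o} = {o | u o < t}ᶜ := by
    ext o
    simp
  rw [h1, s7a, h2, measureReal_compl hm]

theorem s7a_anti (hu : Measurable u) : Antitone (s7a μ u) := by
  intro s t h
  rw [s7a_eq μ hu, s7a_eq μ hu]
  have := s7F_mono μ hu (integrable_const (1 : ℝ)) (fun _ => zero_le_one) h
  linarith

omit [IsFiniteMeasure μ] in
theorem s7a_nonneg (t : ℝ) : 0 ≤ s7a μ u t := measureReal_nonneg

theorem s7a_le (t : ℝ) : s7a μ u t ≤ μ.real univ := measureReal_mono (subset_univ _)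

theorem s7_Q (hu : Measurable u) {B : ℝ} (hB : 0 ≤ B) {q Q : ℝ → ℝ}
    (hQ : ∀ a, HasDerivAt Q (q a) a) (q0 : ∀ a, 0 ≤ q a) (Q0 : Q 0 = 0) :
    IntervalIntegrable (fun t => 2 * t * Q (s7a μ u t)) volume 0 B ∧
    IntervalIntegrable (fun t => t ^ 2 * q (s7a μ u t) * deriv (s7F μ u (fun _ => 1)) t)
      volume 0 B ∧
    ∫ t in (0)..B, t ^ 2 * q (s7a μ u t) * deriv (s7F μ u (fun _ => 1)) t ≤
      ∫ t in (0)..B, 2 * t * Q (s7a μ u t) := by
  have Qm : Monotone Q := by
    refine monotone_of_deriv_nonneg (fun a => (hQ a).differentiableAt) fun a => ?_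
    rw [(hQ a).deriv]
    exact q0 a
  have aanti := s7a_anti μ hu (u := u)
  have Qanti : Antitone fun t => Q (s7a μ u t) := fun s t h => Qm (aanti h)
  have i1 : IntervalIntegrable (fun t => 2 * t * Q (s7a μ u t)) volume 0 B :=
    ((Qanti.antitoneOn _).intervalIntegrable).continuousOn_mul (by fun_prop)
  set A := μ.real univ with hA
  set K := 2 * B * Q A with hK
  have QA : ∀ t, Q (s7a μ u t) ≤ Q A := fun t => Qm (s7a_le μ t)
  have Qnn : ∀ t, 0 ≤ Q (s7a μ u t) := fun t => by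
    rw [← Q0]
    exact Qm (s7a_nonneg μ t)
  set f : ℝ → ℝ := fun t => -(t ^ 2) * Q (s7a μ u t) + K * t with hf
  have fmono : MonotoneOn f (uIcc 0 B) := by
    rw [uIcc_of_le hB]
    intro s hs t ht hst
    have h1 : Q (s7a μ u t) ≤ Q (s7a μ u s) := Qanti hst
    have h2 := QA s
    have h3 : t ^ 2 * Q (s7a μ u t) ≤ t ^ 2 * Q (s7a μ u s) :=
      mul_le_mul_of_nonneg_left h1 (sq_nonneg t)
    have h4 : (t + s) * Q (s7a μ u s) ≤ 2 * B * Q A := by
      have h5 : 0 ≤ Q A := (Qnn s).trans h2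
      calc (t + s) * Q (s7a μ u s) ≤ (t + s) * Q A :=
            mul_le_mul_of_nonneg_left h2 (by linarith [hs.1, ht.1])
        _ ≤ 2 * B * Q A := mul_le_mul_of_nonneg_right (by linarith [hs.2, ht.2]) h5
    have h6 : 0 ≤ (t - s) * (2 * B * Q A - (t + s) * Q (s7a μ u s)) :=
      mul_nonneg (sub_nonneg.2 hst) (by linarith)
    simp only [hf, hK]
    nlinarith
  have hint := fmono.intervalIntegrable_deriv
  have hle := fmono.intervalIntegral_deriv_mem_uIcc
  have hderiv : ∀ᵐ t, deriv f t = -(2 * t * Q (s7a μ u t)) +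
      t ^ 2 * q (s7a μ u t) * deriv (s7F μ u (fun _ => 1)) t + K := by
    have h0 := (s7F_mono μ hu (integrable_const (1 : ℝ))
      (fun _ => zero_le_one)).ae_differentiableAt
    filter_upwards [h0] with t ht
    have h1 : HasDerivAt (s7a μ u) (-(deriv (s7F μ u (fun _ => 1)) t)) t := by
      have h2 : s7a μ u = fun t => A - s7F μ u (fun _ => 1) t := by
        funext t
        exact s7a_eq μ hu t
      rw [h2]
      exact ht.hasDerivAt.const_sub A
    have h3 : HasDerivAt (fun t => Q (s7a μ u t))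
        (q (s7a μ u t) * -(deriv (s7F μ u (fun _ => 1)) t)) t := (hQ (s7a μ u t)).comp t h1
    have h4 : HasDerivAt f (-(2 * t) * Q (s7a μ u t) +
        -(t ^ 2) * (q (s7a μ u t) * -(deriv (s7F μ u (fun _ => 1)) t)) + K) t := by
      have h5 : HasDerivAt (fun t : ℝ => -(t ^ 2)) (-(2 * t)) t := by
        have := (hasDerivAt_pow 2 t).fun_neg
        simpa using this
      have h5' : HasDerivAt (fun t : ℝ => K * t) K t := by
        simpa using (hasDerivAt_id t).const_mul K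
      exact (h5.fun_mul h3).fun_add h5'
    rw [h4.deriv]
    ring
  have i2 : IntervalIntegrable (fun t => t ^ 2 * q (s7a μ u t) *
      deriv (s7F μ u (fun _ => 1)) t) volume 0 B := by
    have h1 := (hint.add i1).sub (intervalIntegrable_const (c := K) (μ := volume) (a := 0) (b := B))
    refine h1.congr_ae (ae_restrict_of_ae ?_)
    filter_upwards [hderiv] with t ht
    show deriv f t + 2 * t * Q (s7a μ u t) - K = _
    rw [ht]
    ring
  refine ⟨i1, i2, ?_⟩
  have h7 : ∫ t in (0)..B, deriv f t = -(∫ t in (0)..B, 2 * t * Q (s7a μ u t)) +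
      (∫ t in (0)..B, t ^ 2 * q (s7a μ u t) * deriv (s7F μ u (fun _ => 1)) t) + K * B := by
    have h8 : ∫ t in (0)..B, deriv f t = ∫ t in (0)..B, (-(2 * t * Q (s7a μ u t)) +
        t ^ 2 * q (s7a μ u t) * deriv (s7F μ u (fun _ => 1)) t + K) := by
      refine intervalIntegral.integral_congr_ae ?_
      filter_upwards [hderiv] with t ht _
      exact ht
    have i1n : IntervalIntegrable (fun t => -(2 * t * Q (s7a μ u t))) volume 0 B := i1.neg
    have i12 : IntervalIntegrable (fun t => -(2 * t * Q (s7a μ u t)) +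
      t ^ 2 * q (s7a μ u t) * deriv (s7F μ u (fun _ => 1)) t) volume 0 B := i1n.add i2
    rw [h8, intervalIntegral.integral_add i12 intervalIntegrable_const,
      intervalIntegral.integral_add i1n i2, intervalIntegral.integral_neg,
      intervalIntegral.integral_const]
    simp only [sub_zero, smul_eq_mul]
    ring
  have h9 : f 0 ≤ f B := fmono (by simp [hB]) (by simp [hB]) hB
  rw [uIcc_of_le (sub_nonneg.2 h9)] at hle
  have h10 := hle.2
  have h11 : f B - f 0 ≤ K * B := by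
    simp only [hf]
    have := mul_nonneg (sq_nonneg B) (Qnn B)
    nlinarith
  linarith

theorem s7_level (hu : Measurable u) (hG : Integrable G μ) (G0 : ∀ o, 0 ≤ G o)
    (hG2 : Integrable (fun o => G o ^ 2) μ) {B c : ℝ} (hB : 0 ≤ B) (hc : 0 ≤ c) {p q Q : ℝ → ℝ}
    (hQ : ∀ a, HasDerivAt Q (q a) a) (q0 : ∀ a, 0 ≤ q a) (Q0 : Q 0 = 0)
    (hp : Measurable p) (hpb : ∃ P : ℝ, ∀ a, |p a| ≤ P)
    (iso : ∀ᵐ t : ℝ, 0 < t → t < B →
      p (s7a μ u t) ^ 2 ≤ c * deriv (s7F μ u G) t ^ 2 * q (s7a μ u t)) :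
    IntervalIntegrable (fun t => 2 * t * (p (s7a μ u t) - Q (s7a μ u t))) volume 0 B ∧
    ∫ t in (0)..B, 2 * t * (p (s7a μ u t) - Q (s7a μ u t)) ≤ c * ∫ o, G o ^ 2 ∂μ := by
  obtain ⟨i1, i2, hQle⟩ := s7_Q μ hu hB hQ q0 Q0
  obtain ⟨P, hP⟩ := hpb
  have ameas : Measurable (s7a μ u) := (s7a_anti μ hu).measurable
  have ip0 : IntervalIntegrable (fun t => p (s7a μ u t)) volume 0 B := by
    rw [intervalIntegrable_iff_integrableOn_Ioc_of_le hB]
    refine Integrable.of_bound (hp.comp ameas).aestronglyMeasurable P ?_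
    exact Eventually.of_forall fun t => by simpa using hP (s7a μ u t)
  have ip : IntervalIntegrable (fun t => 2 * t * p (s7a μ u t)) volume 0 B :=
    ip0.continuousOn_mul (by fun_prop)
  have m0 := s7F_mono μ hu (integrable_const (1 : ℝ)) (fun _ => zero_le_one)
  have m1 := s7F_mono μ hu hG G0
  have m2 := s7F_mono μ hu hG2 (fun o => sq_nonneg (G o))
  have d2 : IntervalIntegrable (deriv (s7F μ u fun o => G o ^ 2)) volume 0 B :=
    (m2.monotoneOn _).intervalIntegrable_deriv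
  have key : ∀ᵐ t : ℝ, t ∈ Ioo 0 B → 2 * t * p (s7a μ u t) ≤
      c * deriv (s7F μ u fun o => G o ^ 2) t +
        t ^ 2 * q (s7a μ u t) * deriv (s7F μ u (fun _ => 1)) t := by
    filter_upwards [iso, m0.ae_differentiableAt, m1.ae_differentiableAt,
      m2.ae_differentiableAt] with t hiso h0 h1 h2 ht
    have h3 := hiso ht.1 ht.2
    have h4 := s7_deriv_cs μ hu hG hG2 h0 h1 h2
    have n0 : 0 ≤ deriv (s7F μ u (fun _ => 1)) t := m0.deriv_nonneg
    have n2 : 0 ≤ deriv (s7F μ u fun o => G o ^ 2) t := m2.deriv_nonneg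
    have nq := q0 (s7a μ u t)
    set X := c * deriv (s7F μ u fun o => G o ^ 2) t with hX
    set Y := q (s7a μ u t) * deriv (s7F μ u (fun _ => 1)) t with hY
    have hX0 : 0 ≤ X := mul_nonneg hc n2
    have hY0 : 0 ≤ Y := mul_nonneg nq n0
    have h5 : p (s7a μ u t) ^ 2 ≤ X * Y := by
      calc p (s7a μ u t) ^ 2 ≤ c * deriv (s7F μ u G) t ^ 2 * q (s7a μ u t) := h3
        _ ≤ c * (deriv (s7F μ u (fun o => G o ^ 2)) t * deriv (s7F μ u (fun _ => 1)) t) *
            q (s7a μ u t) :=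
            mul_le_mul_of_nonneg_right (mul_le_mul_of_nonneg_left h4 hc) nq
        _ = X * Y := by rw [hX, hY]; ring
    have h6 : (2 * t * p (s7a μ u t)) ^ 2 ≤ (X + t ^ 2 * Y) ^ 2 := by
      have h7 : t ^ 2 * p (s7a μ u t) ^ 2 ≤ t ^ 2 * (X * Y) :=
        mul_le_mul_of_nonneg_left h5 (sq_nonneg t)
      nlinarith [sq_nonneg (X - t ^ 2 * Y)]
    have h8 : 0 ≤ X + t ^ 2 * Y := by positivity
    have h9 := (le_abs_self _).trans (abs_le_of_sq_le_sq h6 h8)
    calc 2 * t * p (s7a μ u t) ≤ X + t ^ 2 * Y := h9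
      _ = _ := by rw [hY]; ring
  have hle : ∫ t in (0)..B, 2 * t * p (s7a μ u t) ≤
      ∫ t in (0)..B, (c * deriv (s7F μ u fun o => G o ^ 2) t +
        t ^ 2 * q (s7a μ u t) * deriv (s7F μ u (fun _ => 1)) t) := by
    rw [intervalIntegral.integral_of_le hB, intervalIntegral.integral_of_le hB,
      ← integral_Ioc_eq_integral_Ioo.symm, ← integral_Ioc_eq_integral_Ioo.symm]
    refine setIntegral_mono_on_ae ?_ ?_ measurableSet_Ioo ?_
    · exact ((intervalIntegrable_iff_integrableOn_Ioc_of_le hB).1 ip).mono_set Ioo_subset_Ioc_self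
    · exact ((intervalIntegrable_iff_integrableOn_Ioc_of_le hB).1
        ((d2.const_mul c).add i2)).mono_set Ioo_subset_Ioc_self
    · exact key
  rw [intervalIntegral.integral_add (d2.const_mul c) i2,
    intervalIntegral.integral_const_mul] at hle
  have h12 : ∫ t in (0)..B, deriv (s7F μ u fun o => G o ^ 2) t ≤ ∫ o, G o ^ 2 ∂μ := by
    have h13 := ((m2.monotoneOn (uIcc 0 B)).intervalIntegral_deriv_mem_uIcc)
    rw [uIcc_of_le (sub_nonneg.2 (m2 hB))] at h13
    have h14 := h13.2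
    have h15 : s7F μ u (fun o => G o ^ 2) B - s7F μ u (fun o => G o ^ 2) 0 ≤
        ∫ o, G o ^ 2 ∂μ := by
      rw [s7F_sub μ hu hG2 hB]
      exact setIntegral_le_integral hG2 (Eventually.of_forall fun o => sq_nonneg _)
    linarith
  have e : (fun t => 2 * t * (p (s7a μ u t) - Q (s7a μ u t))) =
      fun t => 2 * t * p (s7a μ u t) - 2 * t * Q (s7a μ u t) := by
    funext t
    ring
  rw [e]
  refine ⟨ip.sub i1, ?_⟩
  rw [intervalIntegral.integral_sub ip i1]
  have h16 := mul_le_mul_of_nonneg_left h12 hc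
  linarith

theorem s7_pot (hu : Measurable u) {W : Ω → ℝ} (hW : Integrable W μ) {B : ℝ} (hB : 0 ≤ B)
    (u0 : ∀ o, 0 ≤ u o) (uB : ∀ o, u o ≤ B) :
    IntervalIntegrable (fun t => 2 * t * ∫ o in {o | t ≤ u o}, W o ∂μ) volume 0 B ∧
    ∫ o, W o * u o ^ 2 ∂μ = ∫ t in (0)..B, 2 * t * ∫ o in {o | t ≤ u o}, W o ∂μ := by
  set ν : Measure ℝ := volume.restrict (Ioc 0 B) with hν
  set S : Set (Ω × ℝ) := {z | z.2 ≤ u z.1} with hS
  have hSm : MeasurableSet S := measurableSet_le measurable_snd (hu.comp measurable_fst)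
  set F : Ω × ℝ → ℝ := S.indicator fun z => W z.1 * (2 * z.2) with hF
  have hWi : Integrable (fun z : Ω × ℝ => W z.1) (μ.prod ν) := hW.comp_fst ν
  have hFi : Integrable F (μ.prod ν) := by
    refine Integrable.indicator ?_ hSm
    have h1 : Integrable (fun z : Ω × ℝ => (2 * B) * |W z.1|) (μ.prod ν) := hWi.abs.const_mul _
    refine h1.mono (hWi.aestronglyMeasurable.mul
      (measurable_snd.const_mul 2).aestronglyMeasurable) ?_
    have h2 : ∀ᵐ z ∂(μ.prod ν), z.2 ∈ Ioc (0 : ℝ) B := by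
      have h3 : ∀ᵐ t ∂ν, t ∈ Ioc (0 : ℝ) B := ae_restrict_mem measurableSet_Ioc
      exact Measure.quasiMeasurePreserving_snd.ae h3
    filter_upwards [h2] with z hz
    rw [Real.norm_eq_abs, Real.norm_eq_abs, abs_mul, abs_mul (2 * B), abs_abs,
      abs_of_nonneg (by linarith [hz.1] : (0 : ℝ) ≤ 2 * z.2), abs_of_nonneg (by linarith :
        (0 : ℝ) ≤ 2 * B), mul_comm]
    exact mul_le_mul_of_nonneg_right (by linarith [hz.2]) (abs_nonneg _)
  have h1 : ∀ o, ∫ t, F (o, t) ∂ν = W o * u o ^ 2 := by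
    intro o
    have e1 : ∀ t, F (o, t) = (Iic (u o)).indicator (fun t => W o * (2 * t)) t := by
      intro t
      simp only [hF, hS, indicator, mem_ofPred_eq, mem_Iic]
    simp_rw [e1]
    rw [hν, setIntegral_indicator measurableSet_Iic, Ioc_inter_Iic, min_eq_right (uB o),
      ← intervalIntegral.integral_of_le (u0 o), intervalIntegral.integral_const_mul,
      intervalIntegral.integral_const_mul, integral_id]
    ring
  have h2 : ∀ t, ∫ o, F (o, t) ∂μ = 2 * t * ∫ o in {o | t ≤ u o}, W o ∂μ := by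
    intro t
    have hm : MeasurableSet {o | t ≤ u o} := measurableSet_le measurable_const hu
    have e1 : ∀ o, F (o, t) = {o | t ≤ u o}.indicator (fun o => W o * (2 * t)) o := by
      intro o
      simp only [hF, hS, indicator, mem_ofPred_eq]
    simp_rw [e1]
    rw [integral_indicator hm, integral_mul_const, mul_comm]
  have h3 : ∫ o, ∫ t, F (o, t) ∂ν ∂μ = ∫ t, ∫ o, F (o, t) ∂μ ∂ν :=
    integral_integral_swap (f := fun o t => F (o, t)) hFi
  simp_rw [h1, h2] at h3
  refine ⟨?_, ?_⟩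
  · rw [intervalIntegrable_iff_integrableOn_Ioc_of_le hB]
    have h4 := hFi.integral_prod_right
    simp_rw [h2] at h4
    exact h4
  · rw [h3, intervalIntegral.integral_of_le hB]

/-- The level set lemma: if `∫_{t ≤ u} W + p - Q ≥ -δ` on all levels then
`∫ W u² + c ∫ G² ≥ -δ B²`. -/
theorem s7_main (hu : Measurable u) (hG : Integrable G μ) (G0 : ∀ o, 0 ≤ G o)
    (hG2 : Integrable (fun o => G o ^ 2) μ) {W : Ω → ℝ} (hW : Integrable W μ) {B c δ : ℝ}
    (hB : 0 ≤ B) (hc : 0 ≤ c) (u0 : ∀ o, 0 ≤ u o) (uB : ∀ o, u o ≤ B) {p q Q : ℝ → ℝ}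
    (hQ : ∀ a, HasDerivAt Q (q a) a) (q0 : ∀ a, 0 ≤ q a) (Q0 : Q 0 = 0)
    (hp : Measurable p) (hpb : ∃ P : ℝ, ∀ a, |p a| ≤ P)
    (iso : ∀ᵐ t : ℝ, 0 < t → t < B →
      p (s7a μ u t) ^ 2 ≤ c * deriv (s7F μ u G) t ^ 2 * q (s7a μ u t))
    (lev : ∀ t : ℝ, 0 < t → t < B →
      -δ ≤ ∫ o in {o | t ≤ u o}, W o ∂μ + (p (s7a μ u t) - Q (s7a μ u t))) :
    -δ * B ^ 2 ≤ ∫ o, W o * u o ^ 2 ∂μ + c * ∫ o, G o ^ 2 ∂μ := by
  obtain ⟨i1, h1⟩ := s7_level μ hu hG G0 hG2 hB hc hQ q0 Q0 hp hpb iso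
  obtain ⟨i2, h2⟩ := s7_pot μ hu hW hB u0 uB
  have h3 : ∫ t in (0)..B, (-δ) * (2 * t) ≤
      ∫ t in (0)..B, (2 * t * ∫ o in {o | t ≤ u o}, W o ∂μ +
        2 * t * (p (s7a μ u t) - Q (s7a μ u t))) := by
    rw [intervalIntegral.integral_of_le hB, intervalIntegral.integral_of_le hB,
      ← integral_Ioc_eq_integral_Ioo.symm, ← integral_Ioc_eq_integral_Ioo.symm]
    refine setIntegral_mono_on ?_ ?_ measurableSet_Ioo ?_
    · have : IntervalIntegrable (fun t : ℝ => (-δ) * (2 * t)) volume 0 B :=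
        Continuous.intervalIntegrable (by fun_prop) _ _
      exact ((intervalIntegrable_iff_integrableOn_Ioc_of_le hB).1 this).mono_set
        Ioo_subset_Ioc_self
    · exact ((intervalIntegrable_iff_integrableOn_Ioc_of_le hB).1
        (i2.add i1)).mono_set Ioo_subset_Ioc_self
    · intro t ht
      have h4 := lev t ht.1 ht.2
      have h5 : 0 ≤ 2 * t := by linarith [ht.1]
      have h6 := mul_le_mul_of_nonneg_left h4 h5
      linarith
  rw [intervalIntegral.integral_add i2 i1, intervalIntegral.integral_const_mul,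
    intervalIntegral.integral_const_mul, integral_id, ← h2] at h3
  have h7 : -δ * (2 * ((B ^ 2 - 0 ^ 2) / 2)) = -δ * B ^ 2 := by ring
  rw [h7] at h3
  linarith

end main

end Pool.Agent.FPX
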