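import Mathlib
import Pool.Agent.FPX.S7A

/-!
S7V (helper93). The nonlinear level set lemma with a vector of resources.

`x t = ∫_{g < t} w` is the state at the level `t`, with `w : Ω → E` bounded. If `S : E × ℝ → ℝ` satisfies
`S_x(z, s) w(o) ≤ W(o) + L (g(o) - s)` for all `z` in the segments `[x s, x t]` and at almost every level
`S_t ≤ 0`, or `k σ(o)² ≤ W(o) + L (g(o) - t) - S_x(x t, t) w(o)` and
`S_t ≤ 2 √(k c) d/dt ∫_{g<t} σ G`, for one of countably many weights `σ`, then
`∫_{r0 ≤ g < r1} (W + c G²) ≥ S(x r1, r1) - S(x r0, r0)`.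
-/

open MeasureTheory Set Filter Topology

noncomputable section

namespace Pool.Agent.FPX

variable {Ω : Type*} [MeasurableSpace Ω] {E : Type*} [NormedAddCommGroup E] [NormedSpace ℝ E]

/-- the state at the level `t` -/
def s7x (μ : Measure Ω) (g : Ω → ℝ) (w : Ω → E) (t : ℝ) : E := ∫ o in {o | g o < t}, w o ∂μ

section basic

variable (μ : Measure Ω) {g : Ω → ℝ}

theorem s7v_null (hg : AEMeasurable g μ) (t : ℝ) : NullMeasurableSet {o | g o < t} μ :=
  nullMeasurableSet_lt hg aemeasurable_const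

theorem s7v_null2 (hg : AEMeasurable g μ) (s t : ℝ) :
    NullMeasurableSet {o | s ≤ g o ∧ g o < t} μ :=
  (nullMeasurableSet_le aemeasurable_const hg).inter (nullMeasurableSet_lt hg aemeasurable_const)

/-- increments of the state -/
theorem s7x_sub (hg : AEMeasurable g μ) {w : Ω → E} (hw : Integrable w μ) {s t : ℝ} (h : s ≤ t) :
    s7x μ g w t - s7x μ g w s = ∫ o in {o | s ≤ g o ∧ g o < t}, w o ∂μ := by
  have e : {o | g o < t} = {o | g o < s} ∪ {o | s ≤ g o ∧ g o < t} := by
    ext o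
    simp only [mem_union, Set.mem_ofPred_eq]
    constructor
    · intro h1
      rcases lt_or_ge (g o) s with h2 | h2
      · exact Or.inl h2
      · exact Or.inr ⟨h2, h1⟩
    · rintro (h1 | h1)
      · exact lt_of_lt_of_le h1 h
      · exact h1.2
  have hd : Disjoint {o | g o < s} {o | s ≤ g o ∧ g o < t} := by
    rw [Set.disjoint_left]
    intro o h1 h2
    exact absurd h2.1 (not_le.2 h1)
  unfold s7x
  rw [e, setIntegral_union₀ hd.aedisjoint (s7v_null2 μ hg s t) hw.integrableOn hw.integrableOn]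
  abel

/-- monotonicity for nonnegative functions -/
theorem s7v_mono {f : Ω → ℝ} (hf : Integrable f μ) (f0 : ∀ᵐ o ∂μ, 0 ≤ f o) :
    Monotone (s7F μ g f) := by
  intro s t h
  unfold s7F
  refine setIntegral_mono_set hf.integrableOn (ae_restrict_of_ae f0) ?_
  exact Eventually.of_forall fun o ho => lt_of_lt_of_le (show g o < s from ho) h

theorem s7F_eq_x (f : Ω → ℝ) (t : ℝ) : s7F μ g f t = s7x μ g f t := rfl

end basic

/-- growth along a path, from superdifferentials -/
theorem s7v_path {F : Type*} [NormedAddCommGroup F] [NormedSpace ℝ F] {S : F → ℝ}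
    {S' : F → (F →L[ℝ] ℝ)} {f : ℝ → F} {f' : ℝ → F} {a b C : ℝ} (hab : a ≤ b)
    (hf : ∀ θ ∈ Icc a b, HasDerivAt f (f' θ) θ) (hc : ∀ θ ∈ Icc a b, ContinuousAt S (f θ))
    (hS : ∀ θ ∈ Icc a b, ∃ T : F → ℝ, HasFDerivAt T (S' (f θ)) (f θ) ∧ T (f θ) = S (f θ) ∧
      ∀ᶠ q in 𝓝 (f θ), S q ≤ T q)
    (hb : ∀ θ ∈ Icc a b, S' (f θ) (f' θ) ≤ C) : S (f b) - S (f a) ≤ C * (b - a) := by
  have h := image_le_of_liminf_slope_right_le_deriv_boundary (f := fun θ => S (f θ)) (a := a) (b := b)
    (fun θ hθ => ((hc θ hθ).comp (hf θ hθ).continuousAt).continuousWithinAt)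
    (B := fun θ => S (f a) + C * (θ - a)) (B' := fun _ => C) (by simp)
    (by fun_prop)
    (fun θ _ => by
      have h1 : HasDerivAt (fun θ => S (f a) + C * (θ - a)) C θ := by
        have h2 := (((hasDerivAt_id θ).sub_const a).const_mul C).const_add (S (f a))
        rwa [mul_one] at h2
      exact h1.hasDerivWithinAt)
    (fun θ hθ r hr => by
      have hθ' : θ ∈ Icc a b := ⟨hθ.1, hθ.2.le⟩
      obtain ⟨T, hT, hT0, hT1⟩ := hS θ hθ'
      have h1 : HasDerivAt (fun θ => T (f θ)) (S' (f θ) (f' θ)) θ := hT.comp_hasDerivAt θ (hf θ hθ')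
      have h2 := (hasDerivAt_iff_tendsto_slope.1 h1).mono_left
        (nhdsWithin_mono θ (fun y (hy : y ∈ Ioi θ) => (ne_of_gt hy : y ≠ θ)))
      have h3 : ∀ᶠ y in 𝓝[>] θ, slope (fun θ => T (f θ)) θ y < r :=
        h2.eventually (Iio_mem_nhds (lt_of_le_of_lt (hb θ hθ') hr))
      have h4 : ∀ᶠ y in 𝓝[>] θ, S (f y) ≤ T (f y) :=
        ((hf θ hθ').continuousAt.tendsto.mono_left nhdsWithin_le_nhds).eventually hT1
      refine (h3.and (h4.and self_mem_nhdsWithin)).frequently.mono fun y hy => ?_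
      obtain ⟨h5, h6, h7⟩ := hy
      have h8 : 0 < y - θ := sub_pos.2 h7
      refine lt_of_le_of_lt ?_ h5
      rw [slope_def_field, slope_def_field]
      exact div_le_div_of_nonneg_right (by linarith) h8.le) (right_mem_Icc.2 hab)
  have h' : S (f b) ≤ S (f a) + C * (b - a) := h
  linarith

variable (μ : Measure Ω) [IsFiniteMeasure μ] {g G W : Ω → ℝ}

/-- `A` is a superdifferential of `S` at `p`: a differentiable function touches `S` from above -/
def SupD (S : E × ℝ → ℝ) (A : E × ℝ →L[ℝ] ℝ) (p : E × ℝ) : Prop :=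
  ∃ T : E × ℝ → ℝ, HasFDerivAt T A p ∧ T p = S p ∧ ∀ᶠ q in 𝓝 p, S q ≤ T q

/-- **Nonlinear level set lemma with a vector of resources**, for functions with superdifferentials
(minima of differentiable functions). -/
theorem s7_vecs [CompleteSpace E] (hg : AEMeasurable g μ) (G0 : ∀ᵐ o ∂μ, 0 ≤ G o) (hG2 : Integrable (fun o => G o ^ 2) μ) (hW : Integrable W μ)
    {w : Ω → E} (hw : AEStronglyMeasurable w μ) {B : ℝ} (hB : 0 ≤ B) (hwB : ∀ᵐ o ∂μ, ‖w o‖ ≤ B)
    {ι : Type} [Countable ι] {σ : ι → Ω → ℝ} (hσ : ∀ i, Integrable (fun o => σ i o * G o) μ)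
    (σ0 : ∀ i, ∀ᵐ o ∂μ, 0 ≤ σ i o)
    {r0 r1 c L : ℝ} (hr : r0 ≤ r1) (hc : 0 ≤ c) (hL : 0 ≤ L)
    {Ξ : ℝ → Set E}
    (hseg : ∀ s t, r0 ≤ s → s ≤ t → t ≤ r1 → segment ℝ (s7x μ g w s) (s7x μ g w t) ⊆ Ξ s)
    {S : E × ℝ → ℝ} {S' : E × ℝ → (E × ℝ →L[ℝ] ℝ)}
    (hSc : ∀ s z, r0 ≤ s → s ≤ r1 → z ∈ Ξ s → ContinuousAt S (z, s))
    (hS : ∀ s z, r0 ≤ s → s ≤ r1 → z ∈ Ξ s → SupD S (S' (z, s)) (z, s))
    (hSt : ∀ s z, r0 ≤ s → s ≤ r1 → z ∈ Ξ s → S' (z, s) (0, 1) ≤ L)
    (hSx : ∀ s z, r0 ≤ s → s ≤ r1 → z ∈ Ξ s → ∀ᵐ o ∂μ, s ≤ g o → g o < r1 →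
      S' (z, s) (w o, 0) ≤ W o + L * (g o - s))
    (hj : ∀ᵐ t : ℝ, r0 < t → t < r1 → S' (s7x μ g w t, t) (0, 1) ≤ 0 ∨
      ∃ (i : ι) (k : ℝ), 0 ≤ k ∧
        (∀ᵐ o ∂μ, t ≤ g o → g o < r1 →
          k * σ i o ^ 2 ≤ W o + L * (g o - t) - S' (s7x μ g w t, t) (w o, 0)) ∧
        S' (s7x μ g w t, t) (0, 1) ≤
          2 * √(k * c) * deriv (s7F μ g fun o => σ i o * G o) t) :
    S (s7x μ g w r1, r1) - S (s7x μ g w r0, r0) ≤
      ∫ o in {o | r0 ≤ g o ∧ g o < r1}, (W o + c * G o ^ 2) ∂μ := by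
  have hwi : Integrable w μ := by
    refine (integrable_const B).mono' hw ?_
    filter_upwards [hwB] with o ho
    exact ho
  set x := s7x μ g w with hx
  set b := s7F μ g (fun _ => 1) with hb
  set V := μ.real univ with hV
  have V0 : 0 ≤ V := measureReal_nonneg
  set F2 := s7F μ g fun o => G o ^ 2 with hF2
  set FW := s7F μ g W with hFW
  have bmono : Monotone b := s7v_mono μ (integrable_const (1 : ℝ)) (Eventually.of_forall fun _ => zero_le_one)
  have m2 : Monotone F2 := s7v_mono μ hG2 (Eventually.of_forall fun o => sq_nonneg _)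
  have subF : ∀ {f : Ω → ℝ}, Integrable f μ → ∀ {s t : ℝ}, s ≤ t → s7F μ g f t - s7F μ g f s =
      ∫ o in {o | s ≤ g o ∧ g o < t}, f o ∂μ := fun {f} hf {s t} h => s7x_sub μ hg hf h
  have bsub : ∀ {s t : ℝ}, s ≤ t → b t - b s = μ.real {o | s ≤ g o ∧ g o < t} := fun {s t} h => by
    rw [hb, subF (integrable_const _) h]
    simp
  have bV : ∀ {s t : ℝ}, s ≤ t → b t - b s ≤ V := fun {s t} h => by
    rw [bsub h]
    exact measureReal_mono (subset_univ _)
  -- the linear functional of an increment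
  have lin : ∀ (A : E × ℝ →L[ℝ] ℝ) {s t : ℝ}, s ≤ t →
      A (x t - x s, 0) = ∫ o in {o | s ≤ g o ∧ g o < t}, A (w o, 0) ∂μ := by
    intro A s t h
    have h1 : ∀ v : E, A (v, 0) = (A.comp (ContinuousLinearMap.inl ℝ E ℝ)) v := fun v => rfl
    rw [hx, s7x_sub μ hg hwi h]
    simp only [h1]
    exact ((A.comp (ContinuousLinearMap.inl ℝ E ℝ)).integral_comp_comm hwi.integrableOn).symm
  have linI : ∀ (A : E × ℝ →L[ℝ] ℝ), Integrable (fun o => A (w o, 0)) μ := fun A =>
    (A.comp (ContinuousLinearMap.inl ℝ E ℝ)).integrable_comp hwi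
  -- norms of increments
  have xsub : ∀ {s t : ℝ}, s ≤ t → ‖x t - x s‖ ≤ B * (b t - b s) := by
    intro s t h
    rw [hx, s7x_sub μ hg hwi h, bsub h]
    refine norm_setIntegral_le_of_norm_le_const_ae (measure_lt_top _ _) (ae_restrict_of_ae ?_)
    filter_upwards [hwB] with o ho
    exact ho
  -- increments of S
  have incA : ∀ s t, r0 ≤ s → s ≤ t → t ≤ r1 →
      S (x t, s) - S (x s, s) ≤ FW t - FW s + L * (t - s) * (b t - b s) := by
    intro s t h0 hst h1
    set z : ℝ → E := fun θ => x s + θ • (x t - x s) with hz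
    have zmem : ∀ θ ∈ Icc (0 : ℝ) 1, z θ ∈ Ξ s := by
      intro θ hθ
      refine hseg s t h0 hst h1 ?_
      rw [segment_eq_image']
      exact ⟨θ, hθ, rfl⟩
    have hz2 : ∀ θ, HasDerivAt z (x t - x s) θ := by
      intro θ
      have h3 := ((hasDerivAt_id θ).smul_const (x t - x s)).const_add (x s)
      rw [one_smul] at h3
      exact h3
    have hb1 : ∀ θ ∈ Icc (0 : ℝ) 1, S' (z θ, s) (x t - x s, 0) ≤
        FW t - FW s + L * (t - s) * (b t - b s) := by
      intro θ hθ
      have e1 : ∫ o in {o | s ≤ g o ∧ g o < t}, (W o + L * (t - s)) ∂μ =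
          FW t - FW s + L * (t - s) * (b t - b s) := by
        rw [integral_add hW.integrableOn (integrable_const _).integrableOn, hFW, subF hW hst, bsub hst]
        simp [mul_comm]
      rw [lin _ hst, ← e1]
      refine setIntegral_mono_ae_restrict (linI _).integrableOn
        (hW.add (integrable_const _)).integrableOn ?_
      have h3 : ∀ᵐ o ∂μ, o ∈ {o | s ≤ g o ∧ g o < t} → S' (z θ, s) (w o, 0) ≤ W o + L * (t - s) := by
        filter_upwards [hSx s (z θ) h0 (hst.trans h1) (zmem θ hθ)] with o ho hm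
        have h4 := ho hm.1 (lt_of_lt_of_le hm.2 h1)
        have h5 : L * (g o - s) ≤ L * (t - s) := mul_le_mul_of_nonneg_left (by linarith [hm.2]) hL
        linarith
      exact (ae_restrict_iff'₀ (s7v_null2 μ hg s t)).2 h3
    have h2 := s7v_path (f := fun θ => (z θ, s)) (f' := fun _ => (x t - x s, 0)) (S := S)
      (S' := S') (C := FW t - FW s + L * (t - s) * (b t - b s)) (zero_le_one (α := ℝ))
      (fun θ _ => (hz2 θ).prodMk (hasDerivAt_const θ s))
      (fun θ hθ => hSc s _ h0 (hst.trans h1) (zmem θ hθ))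
      (fun θ hθ => hS s _ h0 (hst.trans h1) (zmem θ hθ)) hb1
    rw [sub_zero, mul_one] at h2
    have e0 : z 0 = x s := by simp [hz]
    have e1 : z 1 = x t := by simp [hz]
    rw [e0, e1] at h2
    exact h2
  have incT : ∀ s t, r0 ≤ s → s ≤ t → t ≤ r1 → S (x t, t) - S (x t, s) ≤ L * (t - s) := by
    intro s t h0 hst h1
    have hmem : ∀ a ∈ Icc s t, x t ∈ Ξ a := fun a ha =>
      hseg a t (h0.trans ha.1) ha.2 h1 (right_mem_segment _ _ _)
    exact s7v_path (f := fun a => (x t, a)) (f' := fun _ => (0, 1)) (S := S) (S' := S') hst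
      (fun a _ => (hasDerivAt_const a (x t)).prodMk (hasDerivAt_id a))
      (fun a ha => hSc a _ (h0.trans ha.1) (ha.2.trans h1) (hmem a ha))
      (fun a ha => hS a _ (h0.trans ha.1) (ha.2.trans h1) (hmem a ha))
      (fun a ha => hSt a _ (h0.trans ha.1) (ha.2.trans h1) (hmem a ha))
  -- the function H
  set H : ℝ → ℝ := fun t => FW t + c * F2 t - S (x t, t) with hH
  set K : ℝ := L * (1 + V) with hK
  have K0 : 0 ≤ K := mul_nonneg hL (by linarith)
  have Hinc : ∀ s t, r0 ≤ s → s ≤ t → t ≤ r1 → -(K * (t - s)) ≤ H t - H s := by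
    intro s t h0 hst h1
    have e2 := incA s t h0 hst h1
    have e3 := incT s t h0 hst h1
    have e4 : F2 s ≤ F2 t := m2 hst
    have e5 : 0 ≤ c * (F2 t - F2 s) := mul_nonneg hc (by linarith)
    have e6 : L * (t - s) * (b t - b s) ≤ L * (t - s) * V :=
      mul_le_mul_of_nonneg_left (bV hst) (mul_nonneg hL (by linarith))
    have e7 : H t - H s = (FW t - FW s) + c * (F2 t - F2 s) - (S (x t, t) - S (x t, s)) -
        (S (x t, s) - S (x s, s)) := by
      rw [hH]
      ring
    rw [e7, hK]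
    nlinarith
  set Φ : ℝ → ℝ := fun t => H t + K * t with hΦ
  have Φmono : MonotoneOn Φ (Icc r0 r1) := by
    intro s hs t ht hst
    have := Hinc s t hs.1 hst ht.2
    simp only [hΦ]
    linarith
  have Φmono' : MonotoneOn Φ (uIcc r0 r1) := by rwa [uIcc_of_le hr]
  have hint := Φmono'.intervalIntegral_deriv_mem_uIcc
  have hΦle : Φ r0 ≤ Φ r1 := Φmono (left_mem_Icc.2 hr) (right_mem_Icc.2 hr) hr
  rw [uIcc_of_le (sub_nonneg.2 hΦle)] at hint
  have hdint : IntervalIntegrable (deriv Φ) volume r0 r1 := Φmono'.intervalIntegrable_deriv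
  have hdiff : ∀ᵐ t : ℝ, t ∈ Ioo r0 r1 → DifferentiableAt ℝ Φ t := by
    have h1 := (Φmono.mono Ioo_subset_Icc_self).ae_differentiableWithinAt_of_mem
    filter_upwards [h1] with t ht hm
    exact (ht hm).differentiableAt (isOpen_Ioo.mem_nhds hm)
  have hVd : ∀ᵐ t : ℝ, ∀ i, DifferentiableAt ℝ (s7F μ g fun o => σ i o * G o) t := by
    rw [ae_all_iff]
    intro i
    refine (s7v_mono μ (hσ i) ?_).ae_differentiableAt
    filter_upwards [G0, σ0 i] with o h1 h2
    exact mul_nonneg h2 h1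
  -- a.e. lower bound of the derivative
  have key : ∀ᵐ t : ℝ, t ∈ Ioo r0 r1 → K ≤ deriv Φ t := by
    filter_upwards [hj, hdiff, bmono.ae_differentiableAt, hVd] with t hjt hdt hbt hvt ht
    have hmem : x t ∈ Ξ t := hseg t t ht.1.le le_rfl ht.2.le (left_mem_segment _ _ _)
    set A := S' (x t, t) with hA
    obtain ⟨T, hfd, hT0, hT1⟩ := hS t (x t) ht.1.le ht.2.le hmem
    rw [← hA] at hfd
    have hΦd := (hdt ht).hasDerivAt
    -- the quotients
    have q0 := (hasDerivAt_iff_tendsto_slope.1 hΦd).mono_left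
      (nhdsWithin_mono t (fun y (hy : y ∈ Ioi t) => (ne_of_gt hy : y ≠ t)))
    have q1 := (hasDerivAt_iff_tendsto_slope.1 hbt.hasDerivAt).mono_left
      (nhdsWithin_mono t (fun y (hy : y ∈ Ioi t) => (ne_of_gt hy : y ≠ t)))
    -- the remainder of S
    set R : ℝ → ℝ := fun y => T (x y, y) - T (x t, t) - A (x y - x t, y - t) with hR
    have h1 : Tendsto (fun y => (x y, y)) (𝓝[>] t) (𝓝 (x t, t)) := by
      refine Tendsto.prodMk_nhds ?_ (tendsto_id.mono_left nhdsWithin_le_nhds)
      rw [tendsto_iff_norm_sub_tendsto_zero]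
      have h2 : Tendsto (fun y => B * (b y - b t)) (𝓝[>] t) (𝓝 0) := by
        have h3 : Tendsto b (𝓝[>] t) (𝓝 (b t)) := hbt.continuousAt.tendsto.mono_left nhdsWithin_le_nhds
        have h4 := (h3.sub_const (b t)).const_mul B
        rwa [sub_self, mul_zero] at h4
      refine squeeze_zero' (Eventually.of_forall fun y => norm_nonneg _) ?_ h2
      filter_upwards [self_mem_nhdsWithin] with y hy
      exact xsub (le_of_lt hy)
    have hTle : ∀ᶠ y in 𝓝[>] t, S (x y, y) ≤ T (x y, y) := h1.eventually hT1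
    have hRlim : Tendsto (fun y => R y / (y - t)) (𝓝[>] t) (𝓝 0) := by
      have h2 := hfd.isLittleO.comp_tendsto h1
      have h3 : (fun y : ℝ => ((x y, y) : E × ℝ) - (x t, t)) =O[𝓝[>] t] fun y => y - t := by
        have hq : ∀ᶠ y in 𝓝[>] t, |slope b t y| ≤ |deriv b t| + 1 := by
          have h4 := q1.abs
          exact h4.eventually (Iic_mem_nhds (by linarith))
        refine Asymptotics.IsBigO.of_bound (B * (|deriv b t| + 1) + 1) ?_
        filter_upwards [hq, self_mem_nhdsWithin] with y hy hyt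
        have hyt' : 0 < y - t := sub_pos.2 hyt
        have h5 : b y - b t = slope b t y * (y - t) := by
          rw [slope_def_field]
          field_simp
        have h6 : ‖x y - x t‖ ≤ B * (|deriv b t| + 1) * (y - t) := by
          refine (xsub (le_of_lt hyt)).trans ?_
          rw [h5, mul_assoc]
          refine mul_le_mul_of_nonneg_left ?_ hB
          exact mul_le_mul_of_nonneg_right ((le_abs_self _).trans hy) hyt'.le
        rw [Prod.mk_sub_mk, Prod.norm_mk, Real.norm_eq_abs, abs_of_pos hyt']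
        refine max_le ?_ ?_
        · have : 0 ≤ y - t := hyt'.le
          nlinarith
        · have h7 : 0 ≤ B * (|deriv b t| + 1) * (y - t) := (norm_nonneg _).trans h6
          linarith
      have h4 := h2.trans_isBigO h3
      have h5 : (fun y => R y) =o[𝓝[>] t] fun y => y - t := by
        refine h4.congr_left fun y => ?_
        simp only [hR, Function.comp_apply, Prod.mk_sub_mk]
      exact h5.tendsto_div_nhds_zero
    -- comparison
    have main : ∀ (Lw : ℝ), (∀ᶠ y in 𝓝[>] t, Lw * (y - t) - L * (y - t) * (b y - b t) ≤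
          (FW y - FW t) + c * (F2 y - F2 t) - A (x y - x t, 0)) →
        Lw - A (0, 1) + K ≤ deriv Φ t := by
      intro Lw hLw
      have h1 : Tendsto (fun y => Lw - L * (b y - b t) - A (0, 1) - R y / (y - t) + K) (𝓝[>] t)
          (𝓝 (Lw - L * (b t - b t) - A (0, 1) - 0 + K)) := by
        have h3 : Tendsto b (𝓝[>] t) (𝓝 (b t)) := hbt.continuousAt.tendsto.mono_left nhdsWithin_le_nhds
        exact (((((h3.sub_const (b t)).const_mul L).const_sub Lw).sub_const (A (0, 1))).sub
          hRlim).add_const K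
      have h2 : Lw - L * (b t - b t) - A (0, 1) - 0 + K = Lw - A (0, 1) + K := by ring
      rw [h2] at h1
      refine le_of_tendsto_of_tendsto h1 q0 ?_
      filter_upwards [Ioo_mem_nhdsGT ht.2, hLw, hTle] with y hy h3 hTy
      have hyt : 0 < y - t := sub_pos.2 hy.1
      have h4 : A (x y - x t, y - t) = A (x y - x t, 0) + (y - t) * A (0, 1) := by
        have : ((x y - x t, y - t) : E × ℝ) = (x y - x t, 0) + (y - t) • (0, 1) := by simp
        rw [this, map_add, map_smul, smul_eq_mul]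
      have h5 : Φ y - Φ t = (FW y - FW t) + c * (F2 y - F2 t) - (S (x y, y) - S (x t, t)) +
          K * (y - t) := by
        simp only [hΦ, hH]
        ring
      rw [slope_def_field, le_div_iff₀ hyt, h5]
      have h6 : (Lw - L * (b y - b t) - A (0, 1) - R y / (y - t) + K) * (y - t) =
          Lw * (y - t) - L * (y - t) * (b y - b t) - (y - t) * A (0, 1) - R y + K * (y - t) := by
        field_simp
      rw [h6]
      have h7 : R y = T (x y, y) - S (x t, t) - A (x y - x t, 0) - (y - t) * A (0, 1) := by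
        simp only [hR]
        rw [h4, hT0]
        ring
      rw [h7]
      linarith
    rcases hjt ht.1 ht.2 with h0 | ⟨i, k, hk, hpt, hV⟩
    · have h1 := main 0 (by
        filter_upwards [Ioo_mem_nhdsGT ht.2] with y hyy
        have hy := hyy.1
        have hy1 := hyy.2
        rw [zero_mul, zero_sub]
        have e1 := subF hW hy.le
        have e2 := lin A hy.le
        have e3 : 0 ≤ c * (F2 y - F2 t) := mul_nonneg hc (sub_nonneg.2 (m2 hy.le))
        have e4 : ∫ o in {o | t ≤ g o ∧ g o < y}, A (w o, 0) ∂μ ≤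
            ∫ o in {o | t ≤ g o ∧ g o < y}, (W o + L * (y - t)) ∂μ := by
          refine setIntegral_mono_ae_restrict (linI _).integrableOn
            (hW.add (integrable_const _)).integrableOn ?_
          have h3 : ∀ᵐ o ∂μ, o ∈ {o | t ≤ g o ∧ g o < y} → A (w o, 0) ≤ W o + L * (y - t) := by
            filter_upwards [hSx t (x t) ht.1.le ht.2.le hmem] with o ho hm
            have h4 := ho hm.1 (hm.2.trans hy1)
            have h5 : L * (g o - t) ≤ L * (y - t) := mul_le_mul_of_nonneg_left (by linarith [hm.2]) hL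
            linarith
          exact (ae_restrict_iff'₀ (s7v_null2 μ hg t y)).2 h3
        have e5 : ∫ o in {o | t ≤ g o ∧ g o < y}, (W o + L * (y - t)) ∂μ =
            FW y - FW t + L * (y - t) * (b y - b t) := by
          rw [integral_add hW.integrableOn (integrable_const _).integrableOn, hFW, subF hW hy.le,
            bsub hy.le]
          simp [mul_comm]
        linarith)
      linarith
    · set Vi := s7F μ g fun o => σ i o * G o with hVi
      have hVi' : Tendsto (slope Vi t) (𝓝[>] t) (𝓝 (deriv Vi t)) :=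
        (hasDerivAt_iff_tendsto_slope.1 (hvt i).hasDerivAt).mono_left
          (nhdsWithin_mono t (fun y (hy : y ∈ Ioi t) => (ne_of_gt hy : y ≠ t)))
      -- lower bound by every smaller constant
      have hlow : ∀ Lw, Lw < 2 * √(k * c) * deriv Vi t → Lw - A (0, 1) + K ≤ deriv Φ t := by
        intro Lw hLw
        refine main Lw ?_
        have h1 : ∀ᶠ y in 𝓝[>] t, Lw < 2 * √(k * c) * slope Vi t y :=
          (hVi'.const_mul (2 * √(k * c))).eventually (Ioi_mem_nhds hLw)
        filter_upwards [Ioo_mem_nhdsGT ht.2, h1] with y hyy hy2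
        have hy := hyy.1
        have hy1 := hyy.2
        have hyt : 0 < y - t := sub_pos.2 hy
        have e2 := lin A hy.le
        have e3 : 2 * √(k * c) * (Vi y - Vi t) ≤
            (FW y - FW t + L * (y - t) * (b y - b t)) - A (x y - x t, 0) + c * (F2 y - F2 t) := by
          have e5 : ∫ o in {o | t ≤ g o ∧ g o < y}, (W o + L * (y - t)) ∂μ =
              FW y - FW t + L * (y - t) * (b y - b t) := by
            rw [integral_add hW.integrableOn (integrable_const _).integrableOn, hFW, subF hW hy.le,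
              bsub hy.le]
            simp [mul_comm]
          have i1 : Integrable (fun o => W o + L * (y - t)) μ := hW.add (integrable_const _)
          have e6 : ∫ o in {o | t ≤ g o ∧ g o < y}, (W o + L * (y - t) - A (w o, 0) + c * G o ^ 2) ∂μ =
              (FW y - FW t + L * (y - t) * (b y - b t)) - A (x y - x t, 0) + c * (F2 y - F2 t) := by
            have j1 := integral_add ((i1.sub (linI A)).integrableOn (s := {o | t ≤ g o ∧ g o < y}))
              ((hG2.const_mul c).integrableOn (s := {o | t ≤ g o ∧ g o < y}))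
            have j2 := integral_sub (i1.integrableOn (s := {o | t ≤ g o ∧ g o < y}))
              ((linI A).integrableOn (s := {o | t ≤ g o ∧ g o < y}))
            have j3 := subF hG2 hy.le
            simp only [Pi.sub_apply] at j1
            rw [j1, j2, e5, e2, hF2, j3, integral_const_mul]
          have e7 : ∫ o in {o | t ≤ g o ∧ g o < y}, 2 * √(k * c) * (σ i o * G o) ∂μ =
              2 * √(k * c) * (Vi y - Vi t) := by
            rw [integral_const_mul, hVi, subF (hσ i) hy.le]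
          rw [← e6, ← e7]
          refine setIntegral_mono_ae_restrict ((hσ i).const_mul _).integrableOn
            ((i1.sub (linI A)).add (hG2.const_mul c)).integrableOn ?_
          have h3 : ∀ᵐ o ∂μ, o ∈ {o | t ≤ g o ∧ g o < y} → 2 * √(k * c) * (σ i o * G o) ≤
              W o + L * (y - t) - A (w o, 0) + c * G o ^ 2 := by
            filter_upwards [hpt] with o ho hm
            have h4 := ho hm.1 (hm.2.trans hy1)
            have h5 : L * (g o - t) ≤ L * (y - t) := mul_le_mul_of_nonneg_left (by linarith [hm.2]) hL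
            have h6 : 2 * √(k * c) * (σ i o * G o) ≤ k * σ i o ^ 2 + c * G o ^ 2 := by
              have e8 : √(k * c) = √k * √c := Real.sqrt_mul hk c
              have e9 := Real.sq_sqrt hk
              have e10 := Real.sq_sqrt hc
              rw [e8]
              nlinarith [sq_nonneg (√k * σ i o - √c * G o)]
            linarith
          exact (ae_restrict_iff'₀ (s7v_null2 μ hg t y)).2 h3
        have h4 : Vi y - Vi t = slope Vi t y * (y - t) := by
          rw [slope_def_field]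
          field_simp
        have h5 : Lw * (y - t) ≤ 2 * √(k * c) * (Vi y - Vi t) := by
          rw [h4, ← mul_assoc]
          exact mul_le_mul_of_nonneg_right hy2.le hyt.le
        linarith
      have h2 : 2 * √(k * c) * deriv Vi t - A (0, 1) + K ≤ deriv Φ t := by
        refine le_of_forall_lt fun y hy => ?_
        have h3 := hlow ((y + A (0, 1) - K + 2 * √(k * c) * deriv Vi t) / 2) (by linarith)
        linarith
      linarith
  have hlow : K * (r1 - r0) ≤ ∫ t in r0..r1, deriv Φ t := by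
    have h1 : ∫ _t in r0..r1, K = K * (r1 - r0) := by
      rw [intervalIntegral.integral_const, smul_eq_mul, mul_comm]
    rw [← h1, intervalIntegral.integral_of_le hr, intervalIntegral.integral_of_le hr,
      ← integral_Ioc_eq_integral_Ioo.symm, ← integral_Ioc_eq_integral_Ioo.symm]
    refine setIntegral_mono_on_ae (by simp) ?_ measurableSet_Ioo key
    exact ((intervalIntegrable_iff_integrableOn_Ioc_of_le hr).1 hdint).mono_set
      Ioo_subset_Ioc_self
  have hfin : H r0 ≤ H r1 := by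
    have := hint.2
    simp only [hΦ] at this
    linarith
  have hsplit : (∫ o in {o | r0 ≤ g o ∧ g o < r1}, (W o + c * G o ^ 2) ∂μ) =
      (FW r1 - FW r0) + c * (F2 r1 - F2 r0) := by
    rw [hFW, hF2, subF hW hr, subF hG2 hr, ← integral_const_mul,
      ← integral_add hW.integrableOn (hG2.const_mul c).integrableOn]
  rw [hsplit]
  simp only [hH] at hfin
  linarith


/-- **Nonlinear level set lemma with a vector of resources.** -/
theorem s7_vec [CompleteSpace E] (hg : AEMeasurable g μ) (G0 : ∀ᵐ o ∂μ, 0 ≤ G o) (hG2 : Integrable (fun o => G o ^ 2) μ) (hW : Integrable W μ)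
    {w : Ω → E} (hw : AEStronglyMeasurable w μ) {B : ℝ} (hB : 0 ≤ B) (hwB : ∀ᵐ o ∂μ, ‖w o‖ ≤ B)
    {ι : Type} [Countable ι] {σ : ι → Ω → ℝ} (hσ : ∀ i, Integrable (fun o => σ i o * G o) μ)
    (σ0 : ∀ i, ∀ᵐ o ∂μ, 0 ≤ σ i o)
    {r0 r1 c L : ℝ} (hr : r0 ≤ r1) (hc : 0 ≤ c) (hL : 0 ≤ L)
    {Ξ : ℝ → Set E}
    (hseg : ∀ s t, r0 ≤ s → s ≤ t → t ≤ r1 → segment ℝ (s7x μ g w s) (s7x μ g w t) ⊆ Ξ s)
    {S : E × ℝ → ℝ} {S' : E × ℝ → (E × ℝ →L[ℝ] ℝ)}
    (hS : ∀ s z, r0 ≤ s → s ≤ r1 → z ∈ Ξ s → HasFDerivAt S (S' (z, s)) (z, s))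
    (hSt : ∀ s z, r0 ≤ s → s ≤ r1 → z ∈ Ξ s → S' (z, s) (0, 1) ≤ L)
    (hSx : ∀ s z, r0 ≤ s → s ≤ r1 → z ∈ Ξ s → ∀ᵐ o ∂μ, s ≤ g o → g o < r1 →
      S' (z, s) (w o, 0) ≤ W o + L * (g o - s))
    (hj : ∀ᵐ t : ℝ, r0 < t → t < r1 → S' (s7x μ g w t, t) (0, 1) ≤ 0 ∨
      ∃ (i : ι) (k : ℝ), 0 ≤ k ∧
        (∀ᵐ o ∂μ, t ≤ g o → g o < r1 →
          k * σ i o ^ 2 ≤ W o + L * (g o - t) - S' (s7x μ g w t, t) (w o, 0)) ∧
        S' (s7x μ g w t, t) (0, 1) ≤
          2 * √(k * c) * deriv (s7F μ g fun o => σ i o * G o) t) :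
    S (s7x μ g w r1, r1) - S (s7x μ g w r0, r0) ≤
      ∫ o in {o | r0 ≤ g o ∧ g o < r1}, (W o + c * G o ^ 2) ∂μ :=
  s7_vecs μ hg G0 hG2 hW hw hB hwB hσ σ0 hr hc hL hseg
    (fun s z h0 h1 hz => (hS s z h0 h1 hz).continuousAt)
    (fun s z h0 h1 hz => ⟨S, hS s z h0 h1 hz, rfl, Eventually.of_forall fun _ => le_rfl⟩) hSt hSx hj

end Pool.Agent.FPX
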