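import Mathlib
import Pool.Agent.FPX.SEL
import Pool.Agent.FPX.DEG

/-
SELE (helper11): finitely many admissible potentials are enough for all odd Lipschitz maps into the
sphere of bounded energy (no bound of the Lipschitz constant).
-/

open MeasureTheory Set Filter Topology
open scoped ENNReal NNReal

noncomputable section

namespace Pool.Agent.FPX

open Pool.Agent.EWD

variable {M : Type} [MetricSpace M] {γ : ℝ → M}

/-- the density of the approximate number of points over `± p` -/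
private def cn (C : Calc M γ) (v : Fin 3 → M → ℝ) (k : ℕ) (q : Om × E3) : ℝ :=
  (2 * (1 / (k + 1) : ℝ) ^ 2 / (sq2 (at' C v q.1) q.2 + (1 / (k + 1) : ℝ) ^ 2) ^ 2) *
    |inner ℝ q.2 (crs (dx C v q.1) (dy C v q.1))|

private theorem cn_meas (C : Calc M γ) {v : Fin 3 → M → ℝ} (hv : ∀ k, Lip (v k)) (k : ℕ) :
    AEMeasurable (cn C v k) (C.μ.prod PP) := by
  have := C.fin
  obtain ⟨m1, m2, m0⟩ := meas_dx C hv
  have hc : AEMeasurable (fun o => crs (dx C v o) (dy C v o)) C.μ :=
    crs_cont.measurable.comp_aemeasurable (m1.prodMk m2)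
  have h3 : Measurable fun t : ℝ => 2 * (1 / (k + 1) : ℝ) ^ 2 / (t + (1 / (k + 1) : ℝ) ^ 2) ^ 2 := by
    fun_prop
  have h1 : AEMeasurable (fun q : Om × E3 => sq2 (at' C v q.1) q.2) (C.μ.prod PP) := by
    unfold sq2
    exact aemeasurable_const.sub (((m0.comp_fst).inner measurable_snd.aemeasurable).pow_const 2)
  exact (h3.comp_aemeasurable h1).mul (measurable_snd.aemeasurable.inner hc.comp_fst).abs

/-- the energy density is integrable -/
theorem int_en (C : Calc M γ) {v : Fin 3 → M → ℝ} (hv : ∀ k, Lip (v k)) :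
    Integrable (fun o => ‖dx C v o‖ ^ 2 + ‖dy C v o‖ ^ 2) C.μ := by
  have := C.fin
  obtain ⟨m1, m2, -⟩ := meas_dx C hv
  obtain ⟨⟨B1, b1⟩, ⟨B2, b2⟩⟩ := bdd_dx C hv
  refine Integrable.of_bound ((m1.norm.pow_const 2).add (m2.norm.pow_const 2)).aestronglyMeasurable
    (B1 ^ 2 + B2 ^ 2) ?_
  filter_upwards [b1, b2] with o h1 h2
  rw [Real.norm_eq_abs, abs_of_nonneg (by positivity)]
  exact add_le_add (pow_le_pow_left₀ (norm_nonneg _) h1 2) (pow_le_pow_left₀ (norm_nonneg _) h2 2)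

private theorem cn_le (C : Calc M γ) {v : Fin 3 → M → ℝ} (hv : Sph γ v) {E : ℝ}
    (hE : ∫ o, (‖dx C v o‖ ^ 2 + ‖dy C v o‖ ^ 2) ∂C.μ ≤ E) (k : ℕ) :
    ∫⁻ p, ∫⁻ o, ENNReal.ofReal (cn C v k (o, p)) ∂C.μ ∂PP ≤ ENNReal.ofReal (3 * E) := by
  have := C.fin
  rw [← lintegral_lintegral_swap (f := fun o p => ENNReal.ofReal (cn C v k (o, p)))
    (cn_meas C hv.lip k).ennreal_ofReal]
  have hd : (0 : ℝ) < 1 / (k + 1) := by positivity
  have h1 : ∀ o, ∫⁻ p, ENNReal.ofReal (cn C v k (o, p)) ∂PP ≤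
      ENNReal.ofReal (3 * (‖dx C v o‖ ^ 2 + ‖dy C v o‖ ^ 2)) := by
    intro o
    have hn := norm_at (C := C) hv o
    have h2 : ‖crs (dx C v o) (dy C v o)‖ ≤ ‖dx C v o‖ ^ 2 + ‖dy C v o‖ ^ 2 := by
      refine (abs_le_of_sq_le_sq' ?_ (by positivity)).2
      rw [norm_crs_sq]
      nlinarith [sq_nonneg (inner ℝ (dx C v o) (dy C v o) : ℝ), sq_nonneg (‖dx C v o‖ ^ 2),
        sq_nonneg (‖dy C v o‖ ^ 2), mul_nonneg (sq_nonneg ‖dx C v o‖) (sq_nonneg ‖dy C v o‖)]
    have h4 : ∀ᵐ p ∂PP, ENNReal.ofReal (cn C v k (o, p)) ≤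
        ENNReal.ofReal (‖dx C v o‖ ^ 2 + ‖dy C v o‖ ^ 2) *
        ENNReal.ofReal (2 * (1 / (k + 1) : ℝ) ^ 2 / (sq2 (at' C v o) p + (1 / (k + 1) : ℝ) ^ 2) ^ 2) := by
      filter_upwards [ae_norm] with p hp
      rw [← ENNReal.ofReal_mul (by positivity)]
      refine ENNReal.ofReal_le_ofReal ?_
      unfold cn
      rw [mul_comm]
      refine mul_le_mul_of_nonneg_right ?_ (by positivity)
      refine (abs_real_inner_le_norm _ _).trans ?_
      change ‖p‖ * _ ≤ _
      rw [hp, one_mul]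
      exact h2
    refine (lintegral_mono_ae h4).trans ?_
    rw [lintegral_const_mul' _ _ ENNReal.ofReal_ne_top]
    refine (mul_le_mul' le_rfl (lint_count hn hd)).trans_eq ?_
    rw [← ENNReal.ofReal_mul (by positivity)]
    congr 1
    ring
  refine (lintegral_mono h1).trans ?_
  rw [← ofReal_integral_eq_lintegral_ofReal ((int_en C hv.lip).const_mul 3)
    (Eventually.of_forall fun o => by positivity), integral_const_mul]
  exact ENNReal.ofReal_le_ofReal (by linarith)

private theorem SELE_pos {f : E3 → ℝ} (hf : Integrable f PP) {c : ℝ} (hc : 0 ≤ c)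
    (h : ∫⁻ p, ENNReal.ofReal (f p) ∂PP ≤ ENNReal.ofReal c) : ∫ p, f p ∂PP ≤ c := by
  rw [integral_eq_lintegral_pos_part_sub_lintegral_neg_part hf]
  have h1 := ENNReal.toReal_mono ENNReal.ofReal_ne_top h
  rw [ENNReal.toReal_ofReal hc] at h1
  have h2 : 0 ≤ (∫⁻ a, ENNReal.ofReal (-f a) ∂PP).toReal := ENNReal.toReal_nonneg
  linarith

private theorem adm_zero : Adm γ (fun _ => (0 : ℝ)) where
  lip := LipschitzWith.const' 0
  odd := fun t => by simp
  bd := fun x => by
    rw [abs_zero]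
    positivity

/-- **Selection of finitely many potentials, for maps of bounded energy.** -/
theorem select_e [CompactSpace M] (C : Calc M γ) (hγ : Bd γ) (hR : RegAE C) {E : ℝ} (hE0 : 0 ≤ E)
    {ε : ℝ} (hε : 0 < ε) : ∃ (n : ℕ) (th : Fin (n + 1) → M → ℝ), (∀ i, Adm γ (th i)) ∧
      ∀ v : Fin 3 → M → ℝ, Sph γ v → ∫ o, (‖dx C v o‖ ^ 2 + ‖dy C v o‖ ^ 2) ∂C.μ ≤ E →
        Real.pi ^ 2 - ε ≤ ∫ p, Finset.univ.sup' Finset.univ_nonempty
          (fun i : Fin (n + 1) => Flux C (th i) v p) ∂PP := by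
  have := C.fin
  set c : ℝ := 3 * E with hc
  have hc0 : 0 ≤ c := by positivity
  set η : ℝ := ε / (c + 1) with hη
  have hη0 : 0 < η := by positivity
  obtain ⟨n, th, hth, hnet⟩ := net hγ hη0
  set th' : Fin (n + 1) → M → ℝ := Fin.cons (fun _ => (0 : ℝ)) th with hth'
  have hadm : ∀ i, Adm γ (th' i) := by
    intro i
    refine Fin.cases ?_ (fun j => ?_) i
    · exact adm_zero
    · exact hth j
  refine ⟨n, th', hadm, fun v hv hEv => ?_⟩
  have hint : ∀ i, Integrable (fun p => Flux C (th' i) v p) PP := fun i =>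
    (flux_meas C hv ⟨1, (hadm i).lip⟩).2.2
  have hsup : Integrable (fun p => Finset.univ.sup' Finset.univ_nonempty
      (fun i : Fin (n + 1) => Flux C (th' i) v p)) PP := by
    have h1 := Finset.sup'_induction (s := (Finset.univ : Finset (Fin (n + 1))))
      Finset.univ_nonempty (fun i p => Flux C (th' i) v p) (p := fun f : E3 → ℝ => Integrable f PP)
      (fun f hf g hg => hf.sup hg) (fun i _ => hint i)
    refine h1.congr (Eventually.of_forall fun p => ?_)
    simp only [Finset.sup'_apply]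
  -- the inequality for almost every `p`
  have hae : ∀ᵐ p ∂PP, ENNReal.ofReal (Real.pi ^ 2 - Finset.univ.sup' Finset.univ_nonempty
      (fun i : Fin (n + 1) => Flux C (th' i) v p)) ≤ ENNReal.ofReal η *
      liminf (fun k : ℕ => ∫⁻ o, ENNReal.ofReal (cn C v k (o, p)) ∂C.μ) atTop := by
    filter_upwards [ae_norm, ae_int_rot C hv, hR v hv] with p hp hi hr
    obtain ⟨Z, s, -, h2, h3, h4⟩ := flux_eq C hγ hv hp hi hr
    obtain ⟨θ, h5, h6⟩ := flux_ge C hγ hv hp hi hr
    obtain ⟨i, hi⟩ := hnet θ h5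
    have h7 : Flux C θ v p - Flux C (th i) v p ≤ η * (2 * Real.pi * Z.card) := by
      rw [h3 θ ⟨1, h5.lip⟩ h5.odd, h3 (th i) ⟨1, (hth i).lip⟩ (hth i).odd]
      have h8 : ∑ z ∈ Z, s z * th i z - ∑ z ∈ Z, s z * θ z ≤ Z.card * η := by
        rw [← Finset.sum_sub_distrib]
        refine (Finset.sum_le_card_nsmul Z _ η fun z hz => ?_).trans_eq (by rw [nsmul_eq_mul])
        have h9 := hi z
        rw [abs_le] at h9
        rcases h2 z hz with h | h <;> rw [h] <;> linarith [h9.1, h9.2]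
      have hpi := Real.pi_pos
      nlinarith
    have h10 : Flux C (th i) v p ≤ Finset.univ.sup' Finset.univ_nonempty
        (fun i : Fin (n + 1) => Flux C (th' i) v p) :=
      Finset.le_sup' (f := fun i : Fin (n + 1) => Flux C (th' i) v p) (Finset.mem_univ i.succ)
    refine (ENNReal.ofReal_le_ofReal (q := η * (2 * Real.pi * Z.card)) (by linarith)).trans ?_
    rw [ENNReal.ofReal_mul hη0.le]
    exact mul_le_mul' le_rfl h4
  have hfat : ∫⁻ p, liminf (fun k : ℕ => ∫⁻ o, ENNReal.ofReal (cn C v k (o, p)) ∂C.μ) atTop ∂PP ≤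
      ENNReal.ofReal c := by
    refine (lintegral_liminf_le' fun k => ?_).trans ?_
    · exact (cn_meas C hv.lip k).ennreal_ofReal.lintegral_prod_left'
    · refine (liminf_le_liminf (v := fun _ => ENNReal.ofReal c)
        (Eventually.of_forall fun k => cn_le C hv hEv k)).trans_eq ?_
      exact liminf_const _
  have h1 : ∫⁻ p, ENNReal.ofReal (Real.pi ^ 2 - Finset.univ.sup' Finset.univ_nonempty
      (fun i : Fin (n + 1) => Flux C (th' i) v p)) ∂PP ≤ ENNReal.ofReal (η * c) := by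
    refine (lintegral_mono_ae hae).trans ?_
    rw [lintegral_const_mul' _ _ ENNReal.ofReal_ne_top, ENNReal.ofReal_mul hη0.le]
    exact mul_le_mul' le_rfl hfat
  have h2 := SELE_pos ((integrable_const (Real.pi ^ 2)).sub hsup) (c := η * c) (by positivity) h1
  simp only [Pi.sub_apply] at h2
  rw [integral_sub (integrable_const _) hsup, integral_const, probReal_univ, one_smul] at h2
  have h3 : η * c ≤ ε := by
    rw [hη, div_mul_eq_mul_div, div_le_iff₀ (by positivity)]
    nlinarith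
  linarith

end Pool.Agent.FPX
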