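import Mathlib
import Pool.Agent.FPX.OMS

/-
SIGA (helper8): the energy `|A|² + |B|²` of the start map F54 in terms of `|σ|`: if `|σ| ≤ τ`, `1/5 ≤ τ < 1`, then
`|A|² + |B|² ≤ 7 / (8 (1 - τ)²)`.
-/

open MeasureTheory Set Filter Topology Complex
open scoped ComplexConjugate

noncomputable section

namespace Pool.Agent.FPX.SIG

open Pool.Agent.FPX Pool.Agent.FPX.UXA
open Pool.Agent.FPX.UMP (Ef)
open Pool.Agent.FPX.F54 (X1 X2 X_lt sF)
open Pool.Agent.FPX.CRD (Bm)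
open Pool.Agent.FPX.OMB (vm vm_int vm_prob bm_ep bm_real)
open Pool.Agent.FPX.OMS (Aa Ba Kc Kc_meas Kc_le AB_eq)

/-! ### the pointwise inequality -/

theorem quad {n r v k : ℝ} (hn : 0 < n) (hnr : 1 ≤ n * r) : 2 * v * k ≤ n * v ^ 2 + r * k ^ 2 := by
  have h : 0 ≤ n * (n * v ^ 2 + r * k ^ 2 - 2 * v * k) := by
    have e : n * (n * v ^ 2 + r * k ^ 2 - 2 * v * k) = (n * v - k) ^ 2 + (n * r - 1) * k ^ 2 := by ring
    rw [e]
    have := mul_nonneg (sub_nonneg.2 hnr) (sq_nonneg k)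
    positivity
  have := nonneg_of_mul_nonneg_right h hn
  linarith

theorem nr {x : ℝ} (h1 : -1 ≤ x) (h2 : x ≤ 1) :
    1 ≤ (9 / 10 - x / 2 + x ^ 2 / 5) * (7 / 6 + 27 / 50 * x) := by
  nlinarith [mul_nonneg (by linarith : (0 : ℝ) ≤ x + 1) (sq_nonneg (x - 67 / 100))]

theorem n_pos (x : ℝ) : 0 < 9 / 10 - x / 2 + x ^ 2 / 5 := by
  nlinarith [sq_nonneg (x - 5 / 4)]

theorem pt {C S a b X Y : ℝ} (h : C ^ 2 + S ^ 2 = 1) (hk : a ^ 2 + b ^ 2 ≤ 1) :
    2 * (X * C * a + Y * S * b) ≤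
      4 / 3 * (9 / 10 - (C ^ 2 - S ^ 2) / 2 + (C ^ 2 - S ^ 2) ^ 2 / 5) * (X ^ 2 * C ^ 2 + Y ^ 2 * S ^ 2)
        + 3 / 4 * (7 / 6 + 27 / 50 * (C ^ 2 - S ^ 2)) := by
  have hx1 : -1 ≤ C ^ 2 - S ^ 2 := by nlinarith [sq_nonneg C]
  have hx2 : C ^ 2 - S ^ 2 ≤ 1 := by nlinarith [sq_nonneg S]
  set n := 9 / 10 - (C ^ 2 - S ^ 2) / 2 + (C ^ 2 - S ^ 2) ^ 2 / 5 with hn
  set r := 7 / 6 + 27 / 50 * (C ^ 2 - S ^ 2) with hr
  have h0 : 0 < n := n_pos _
  have h1 : 1 ≤ n * r := nr hx1 hx2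
  have h2 : 0 < r := by
    rw [hr]
    linarith
  have q1 := quad (n := 4 / 3 * n) (r := 3 / 4 * r) (v := X * C) (k := a) (by positivity) (by nlinarith)
  have q2 := quad (n := 4 / 3 * n) (r := 3 / 4 * r) (v := Y * S) (k := b) (by positivity) (by nlinarith)
  have q3 : 3 / 4 * r * (a ^ 2 + b ^ 2) ≤ 3 / 4 * r * 1 := mul_le_mul_of_nonneg_left hk (by positivity)
  nlinarith

/-- the same with powers of `z` -/
theorem pz {z k : ℂ} (h : z.re ^ 2 + z.im ^ 2 = 1) (hk : ‖k‖ ≤ 1) (X Y : ℝ) :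
    2 * (X * z.re * k.re + Y * z.im * k.im) ≤
      (X ^ 2 / 2 + 5 / 6 * Y ^ 2 + 7 / 8)
      + (4 / 3 * ((X ^ 2 - Y ^ 2) / 2 * (9 / 10) - (X ^ 2 + Y ^ 2) / 4 + (X ^ 2 - Y ^ 2) * (3 / 40)) + 81 / 200)
          * (z ^ 2).re
      + (4 / 3 * ((X ^ 2 + Y ^ 2) / 20 - (X ^ 2 - Y ^ 2) / 8)) * (z ^ 4).re
      + (4 / 3 * (X ^ 2 - Y ^ 2) / 40) * (z ^ 6).re := by
  have hk2 : k.re ^ 2 + k.im ^ 2 ≤ 1 := by
    have h1 : ‖k‖ ^ 2 = k.re ^ 2 + k.im ^ 2 := by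
      rw [← Complex.normSq_eq_norm_sq, Complex.normSq_apply]
      ring
    rw [← h1]
    exact pow_le_one₀ (norm_nonneg _) hk
  refine (pt (X := X) (Y := Y) h hk2).trans (le_of_eq ?_)
  have e2 : (z ^ 2).re = z.re ^ 2 - z.im ^ 2 := by
    rw [pow_two, Complex.mul_re]
    ring
  have e2i : (z ^ 2).im = 2 * z.re * z.im := by
    rw [pow_two, Complex.mul_im]
    ring
  have e4 : (z ^ 4).re = (z ^ 2).re ^ 2 - (z ^ 2).im ^ 2 := by
    rw [show z ^ 4 = z ^ 2 * z ^ 2 by ring, Complex.mul_re]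
    ring
  have e4i : (z ^ 4).im = 2 * (z ^ 2).re * (z ^ 2).im := by
    rw [show z ^ 4 = z ^ 2 * z ^ 2 by ring, Complex.mul_im]
    ring
  have e6 : (z ^ 6).re = (z ^ 4).re * (z ^ 2).re - (z ^ 4).im * (z ^ 2).im := by
    rw [show z ^ 6 = z ^ 4 * z ^ 2 by ring, Complex.mul_re]
  have hC : z.re ^ 2 = (1 + (z ^ 2).re) / 2 := by
    rw [e2]
    linarith
  have hS : z.im ^ 2 = (1 - (z ^ 2).re) / 2 := by
    rw [e2]
    linarith
  have hi : (z ^ 2).im ^ 2 = 1 - (z ^ 2).re ^ 2 := by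
    rw [e2i, mul_pow, mul_pow, hC, hS]
    ring
  have e4' : (z ^ 4).re = 2 * (z ^ 2).re ^ 2 - 1 := by
    rw [e4, hi]
    ring
  have e6' : (z ^ 6).re = 4 * (z ^ 2).re ^ 3 - 3 * (z ^ 2).re := by
    rw [e6, e4', e4i]
    linear_combination (-2 * (z ^ 2).re) * hi
  rw [e6', e4', hC, hS]
  ring

/-! ### the two moments -/

section mom

variable {Ω : Type*} [MeasurableSpace Ω] {μ : Measure Ω} [IsProbabilityMeasure μ]

private theorem bre {g : Ω → ℂ} (h : Bm g) : Integrable (fun x => (g x).re) μ := h.int.re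

private theorem ire {g : Ω → ℂ} (h : Bm g) : ∫ x, (g x).re ∂μ = (∫ x, g x ∂μ).re := integral_re h.int

theorem Bm.pow' {g : Ω → ℂ} (h : Bm g) (n : ℕ) : Bm fun x => g x ^ n := by
  induction n with
  | zero => simpa using Bm.const (1 : ℂ)
  | succ n ih => simpa only [pow_succ] using ih.mul h

/-- the normalised form -/
theorem uw_aux {E K : Ω → ℂ} (hE : Bm E) (hE1 : ∀ x, (E x).re ^ 2 + (E x).im ^ 2 = 1) (hK : Bm K)
    (hK1 : ∀ x, ‖K x‖ ≤ 1) (m2 : ∫ x, E x ^ 2 ∂μ = 0) (m4 : ∫ x, E x ^ 4 ∂μ = 0) (m6 : ∫ x, E x ^ 6 ∂μ = 0)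
    {P S : ℝ} (hP : ∫ x, E x * conj (K x) ∂μ = P) (hS : ∫ x, E x * K x ∂μ = S) {κ : ℝ} (h0 : 0 ≤ κ)
    (h1 : κ ≤ 3 / 5) : (P + S) ^ 2 + κ * (P - S) ^ 2 ≤ 7 / 4 := by
  have eP : P = ∫ x, (E x * conj (K x)).re ∂μ := by rw [ire (hE.mul hK.conj), hP, Complex.ofReal_re]
  have eS : S = ∫ x, (E x * K x).re ∂μ := by rw [ire (hE.mul hK), hS, Complex.ofReal_re]
  set X := P + S with hX
  set Y := κ * (P - S) with hY
  have i1 := bre (μ := μ) (hE.mul hK.conj)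
  have i2 := bre (μ := μ) (hE.mul hK)
  have j2 := bre (μ := μ) (Bm.pow' hE 2)
  have j4 := bre (μ := μ) (Bm.pow' hE 4)
  have j6 := bre (μ := μ) (Bm.pow' hE 6)
  have l : X ^ 2 + κ * (P - S) ^ 2 = ∫ x, 2 * (X * (E x).re * (K x).re + Y * (E x).im * (K x).im) ∂μ := by
    have e : ∀ x, 2 * (X * (E x).re * (K x).re + Y * (E x).im * (K x).im) =
        (X + Y) * (E x * conj (K x)).re + (X - Y) * (E x * K x).re := fun x => by
      simp only [Complex.mul_re, Complex.conj_re, Complex.conj_im]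
      ring
    simp only [e]
    rw [integral_add (i1.const_mul _) (i2.const_mul _), integral_const_mul, integral_const_mul, ← eP, ← eS,
      hY, hX]
    ring
  set a2 := 4 / 3 * ((X ^ 2 - Y ^ 2) / 2 * (9 / 10) - (X ^ 2 + Y ^ 2) / 4 + (X ^ 2 - Y ^ 2) * (3 / 40)) + 81 / 200
    with ha2
  set a4 := 4 / 3 * ((X ^ 2 + Y ^ 2) / 20 - (X ^ 2 - Y ^ 2) / 8) with ha4
  set a6 := 4 / 3 * (X ^ 2 - Y ^ 2) / 40 with ha6
  have u : ∫ x, 2 * (X * (E x).re * (K x).re + Y * (E x).im * (K x).im) ∂μ ≤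
      X ^ 2 / 2 + 5 / 6 * Y ^ 2 + 7 / 8 := by
    have e : ∫ x, ((X ^ 2 / 2 + 5 / 6 * Y ^ 2 + 7 / 8) + a2 * (E x ^ 2).re + a4 * (E x ^ 4).re
        + a6 * (E x ^ 6).re) ∂μ = X ^ 2 / 2 + 5 / 6 * Y ^ 2 + 7 / 8 := by
      have l1 : Integrable (fun _ : Ω => X ^ 2 / 2 + 5 / 6 * Y ^ 2 + 7 / 8) μ := integrable_const _
      have l2 : Integrable (fun x => a2 * (E x ^ 2).re) μ := j2.const_mul a2
      have l4 : Integrable (fun x => a4 * (E x ^ 4).re) μ := j4.const_mul a4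
      have l6 : Integrable (fun x => a6 * (E x ^ 6).re) μ := j6.const_mul a6
      have l12 : Integrable (fun x => X ^ 2 / 2 + 5 / 6 * Y ^ 2 + 7 / 8 + a2 * (E x ^ 2).re) μ := l1.add l2
      have l14 : Integrable (fun x => X ^ 2 / 2 + 5 / 6 * Y ^ 2 + 7 / 8 + a2 * (E x ^ 2).re
        + a4 * (E x ^ 4).re) μ := l12.add l4
      rw [integral_add l14 l6, integral_add l12 l4, integral_add l1 l2, integral_const_mul, integral_const_mul,
        integral_const_mul, ire (Bm.pow' hE 2), ire (Bm.pow' hE 4), ire (Bm.pow' hE 6), m2, m4, m6,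
        integral_const]
      simp
    rw [← e]
    refine integral_mono_ae ?_ ?_ (Eventually.of_forall fun x => ?_)
    · have e : (fun x => 2 * (X * (E x).re * (K x).re + Y * (E x).im * (K x).im)) =
          fun x => (X + Y) * (E x * conj (K x)).re + (X - Y) * (E x * K x).re := by
        funext x
        simp only [Complex.mul_re, Complex.conj_re, Complex.conj_im]
        ring
      rw [e]
      exact (i1.const_mul _).add (i2.const_mul _)
    · exact ((((integrable_const _).add (j2.const_mul a2)).add (j4.const_mul a4)).add (j6.const_mul a6))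
    · exact pz (hE1 x) (hK1 x) X Y
  have hk : 5 / 6 * Y ^ 2 ≤ κ * (P - S) ^ 2 / 2 := by
    have e : 5 / 6 * Y ^ 2 = (5 / 6 * κ) * (κ * (P - S) ^ 2) := by
      rw [hY]
      ring
    rw [e]
    have h2 : 0 ≤ κ * (P - S) ^ 2 := mul_nonneg h0 (sq_nonneg _)
    nlinarith
  linarith

/-- a unit multiple of a complex number that is its norm -/
theorem ex_unit (z : ℂ) : ∃ w : ℂ, ‖w‖ = 1 ∧ w * z = ‖z‖ := by
  by_cases hz : z = 0
  · exact ⟨1, by simp, by simp [hz]⟩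
  · refine ⟨conj z / ‖z‖, ?_, ?_⟩
    · rw [norm_div, RCLike.norm_conj, Complex.norm_real, norm_norm, div_self (norm_ne_zero_iff.2 hz)]
    · have hn : ((‖z‖ : ℝ) : ℂ) ≠ 0 := Complex.ofReal_ne_zero.2 (norm_ne_zero_iff.2 hz)
      rw [div_mul_eq_mul_div, div_eq_iff hn, mul_comm (conj z), Complex.mul_conj, Complex.normSq_eq_norm_sq]
      push_cast
      ring

theorem ex_sqrt (w : ℂ) (h : ‖w‖ = 1) : ∃ g : ℂ, ‖g‖ = 1 ∧ g ^ 2 = w := by
  obtain ⟨g, hg⟩ := IsAlgClosed.exists_pow_nat_eq w (n := 2) (by norm_num)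
  refine ⟨g, ?_, hg⟩
  have : ‖g‖ ^ 2 = 1 := by rw [← norm_pow, hg, h]
  exact (pow_eq_one_iff_of_nonneg (norm_nonneg g) (by norm_num)).1 this

/-- **the bound of the two moments** -/
theorem uw_le {E K : Ω → ℂ} (hE : Bm E) (hE1 : ∀ x, ‖E x‖ = 1) (hK : Bm K)
    (hK1 : ∀ x, ‖K x‖ ≤ 1) (m2 : ∫ x, E x ^ 2 ∂μ = 0) (m4 : ∫ x, E x ^ 4 ∂μ = 0) (m6 : ∫ x, E x ^ 6 ∂μ = 0)
    {κ : ℝ} (h0 : 0 ≤ κ) (h1 : κ ≤ 3 / 5) :
    (‖∫ x, E x * conj (K x) ∂μ‖ + ‖∫ x, E x * K x ∂μ‖) ^ 2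
      + κ * (‖∫ x, E x * conj (K x) ∂μ‖ - ‖∫ x, E x * K x ∂μ‖) ^ 2 ≤ 7 / 4 := by
  obtain ⟨w1, n1, e1⟩ := ex_unit (∫ x, E x * conj (K x) ∂μ)
  obtain ⟨w2, n2, e2⟩ := ex_unit (∫ x, E x * K x ∂μ)
  have c1 : w1 * conj w1 = 1 := by rw [Complex.mul_conj, Complex.normSq_eq_norm_sq, n1]; simp
  obtain ⟨g, ng, eg⟩ := ex_sqrt (w2 * conj w1) (by rw [norm_mul, RCLike.norm_conj, n1, n2, one_mul])
  have cg : g * conj g = 1 := by rw [Complex.mul_conj, Complex.normSq_eq_norm_sq, ng]; simp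
  set η := w1 * g with hη
  have nη : ‖η‖ = 1 := by rw [hη, norm_mul, n1, ng, one_mul]
  have a1 : η * conj g = w1 := by
    rw [hη, mul_assoc, cg, mul_one]
  have a2 : η * g = w2 := by
    have : η * g = w1 * g ^ 2 := by rw [hη]; ring
    rw [this, eg]
    linear_combination w2 * c1
  have mk : ∀ n : ℕ, ∫ x, E x ^ n ∂μ = 0 → ∫ x, (η * E x) ^ n ∂μ = 0 := fun n hn => by
    simp only [mul_pow]
    rw [integral_const_mul, hn, mul_zero]
  refine uw_aux (μ := μ) (E := fun x => η * E x) (K := fun x => g * K x) ((Bm.const η).mul hE) (fun x => ?_)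
    ((Bm.const g).mul hK) (fun x => ?_) (mk 2 m2) (mk 4 m4) (mk 6 m6) ?_ ?_ h0 h1
  · have h : ‖η * E x‖ = 1 := by rw [norm_mul, nη, hE1, one_mul]
    have h2 : ‖η * E x‖ ^ 2 = (η * E x).re ^ 2 + (η * E x).im ^ 2 := by
      rw [← Complex.normSq_eq_norm_sq, Complex.normSq_apply]
      ring
    rw [← h2, h, one_pow]
  · rw [norm_mul, ng, one_mul]
    exact hK1 x
  · have : ∀ x, η * E x * conj (g * K x) = w1 * (E x * conj (K x)) := fun x => by
      rw [map_mul, ← a1]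
      ring
    simp only [this]
    rw [integral_const_mul, e1]
  · have : ∀ x, η * E x * (g * K x) = w2 * (E x * K x) := fun x => by
      rw [← a2]
      ring
    simp only [this]
    rw [integral_const_mul, e2]

/-- the quadratic bound without the sharp constant -/
theorem ps_le {E K : Ω → ℂ} (hE : Bm E) (hE1 : ∀ x, ‖E x‖ = 1) (hK : Bm K)
    (hK1 : ∀ x, ‖K x‖ ≤ 1) (m2 : ∫ x, E x ^ 2 ∂μ = 0) :
    ‖∫ x, E x * conj (K x) ∂μ‖ ^ 2 + ‖∫ x, E x * K x ∂μ‖ ^ 2 ≤ 1 := by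
  set p := ∫ x, E x * conj (K x) ∂μ with hp
  set r := ∫ x, E x * K x ∂μ with hr
  -- `0 ≤ ∫ |K - (conj p) E - r conj E|²`, written out
  have b : ∀ x, 0 ≤ normSq (K x - (conj p * E x + r * conj (E x))) := fun x => normSq_nonneg _
  have e : ∀ x, normSq (K x - (conj p * E x + r * conj (E x))) =
      normSq (K x) + (normSq p + normSq r) + 2 * (conj p * conj r * E x ^ 2).re
        - 2 * (p * (K x * conj (E x))).re - 2 * (conj r * (E x * K x)).re := fun x => by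
    have h2 : (E x).re ^ 2 + (E x).im ^ 2 = 1 := by
      have : ‖E x‖ ^ 2 = (E x).re ^ 2 + (E x).im ^ 2 := by
        rw [← Complex.normSq_eq_norm_sq, Complex.normSq_apply]
        ring
      rw [← this, hE1, one_pow]
    simp only [normSq_apply, Complex.sub_re, Complex.sub_im, Complex.add_re, Complex.add_im, Complex.mul_re,
      Complex.mul_im, Complex.conj_re, Complex.conj_im, pow_two]
    linear_combination (p.re ^ 2 + p.im ^ 2 + r.re ^ 2 + r.im ^ 2) * h2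
  have n1 : ∀ x, normSq (K x) ≤ 1 := fun x => by
    rw [Complex.normSq_eq_norm_sq]
    exact pow_le_one₀ (norm_nonneg _) (hK1 x)
  have bK : Bm fun x => K x * conj (E x) := hK.mul hE.conj
  have i1 : Integrable (fun x => (conj p * conj r * E x ^ 2).re) μ :=
    bre ((Bm.const (conj p * conj r)).mul (Bm.pow' hE 2))
  have i2 : Integrable (fun x => (p * (K x * conj (E x))).re) μ := bre ((Bm.const p).mul bK)
  have i3 : Integrable (fun x => (conj r * (E x * K x)).re) μ := bre ((Bm.const (conj r)).mul (hE.mul hK))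
  have v1 : ∫ x, (conj p * conj r * E x ^ 2).re ∂μ = 0 := by
    rw [ire ((Bm.const (conj p * conj r)).mul (Bm.pow' hE 2)), integral_const_mul, m2, mul_zero]
    rfl
  have v2 : ∫ x, (p * (K x * conj (E x))).re ∂μ = ‖p‖ ^ 2 := by
    have h : ∫ x, K x * conj (E x) ∂μ = conj p := by
      rw [hp, ← integral_conj]
      congr 1
      funext x
      rw [map_mul, Complex.conj_conj, mul_comm]
    rw [ire ((Bm.const p).mul bK), integral_const_mul, h, Complex.mul_conj, Complex.normSq_eq_norm_sq,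
      Complex.ofReal_re]
  have v3 : ∫ x, (conj r * (E x * K x)).re ∂μ = ‖r‖ ^ 2 := by
    rw [ire ((Bm.const (conj r)).mul (hE.mul hK)), integral_const_mul, ← hr, mul_comm, Complex.mul_conj,
      Complex.normSq_eq_norm_sq, Complex.ofReal_re]
  have key : 0 ≤ ∫ x, (1 + (normSq p + normSq r) + 2 * (conj p * conj r * E x ^ 2).re
        - 2 * (p * (K x * conj (E x))).re - 2 * (conj r * (E x * K x)).re) ∂μ := by
    refine integral_nonneg fun x => ?_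
    have := b x
    rw [e x] at this
    have := n1 x
    simp only [Pi.zero_apply]
    linarith
  have l0 : Integrable (fun _ : Ω => 1 + (normSq p + normSq r)) μ := integrable_const _
  have l1 : Integrable (fun x => 2 * (conj p * conj r * E x ^ 2).re) μ := i1.const_mul 2
  have l2 : Integrable (fun x => 2 * (p * (K x * conj (E x))).re) μ := i2.const_mul 2
  have l3 : Integrable (fun x => 2 * (conj r * (E x * K x)).re) μ := i3.const_mul 2
  have l01 : Integrable (fun x => 1 + (normSq p + normSq r) + 2 * (conj p * conj r * E x ^ 2).re) μ := l0.add l1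
  have l02 : Integrable (fun x => 1 + (normSq p + normSq r) + 2 * (conj p * conj r * E x ^ 2).re
    - 2 * (p * (K x * conj (E x))).re) μ := l01.sub l2
  rw [integral_sub l02 l3, integral_sub l01 l2, integral_add l0 l1, integral_const_mul, integral_const_mul,
    integral_const_mul, v1, v2, v3, integral_const, Complex.normSq_eq_norm_sq, Complex.normSq_eq_norm_sq] at key
  simp only [probReal_univ, smul_eq_mul, one_mul] at key
  linarith

end mom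

/-! ### the energy -/

/-- from the moments to the two parts -/
theorem AB_le {A B σ p r : ℂ} {t : ℝ} (h1 : A - σ * conj B = p) (h2 : B - σ * conj A = r) (hs : ‖σ‖ = t)
    (ht : t < 1) : ‖A‖ ^ 2 + ‖B‖ ^ 2 ≤
      ((‖p‖ + ‖r‖) ^ 2 / (1 - t) ^ 2 + (‖p‖ - ‖r‖) ^ 2 / (1 + t) ^ 2) / 2 := by
  have ht0 : 0 ≤ t := hs ▸ norm_nonneg σ
  have hcc : σ * conj σ = ((t ^ 2 : ℝ) : ℂ) := by
    rw [Complex.mul_conj, Complex.normSq_eq_norm_sq, hs]
  have d0 : 0 < 1 - t ^ 2 := by nlinarith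
  have a1 : ((1 - t ^ 2 : ℝ) : ℂ) * A = p + σ * conj r := by
    rw [← h1, ← h2, map_sub, map_mul, Complex.conj_conj]
    push_cast at hcc ⊢
    linear_combination A * hcc
  have a2 : ((1 - t ^ 2 : ℝ) : ℂ) * B = r + σ * conj p := by
    rw [← h1, ← h2, map_sub, map_mul, Complex.conj_conj]
    push_cast at hcc ⊢
    linear_combination B * hcc
  have b1 : (1 - t ^ 2) * ‖A‖ ≤ ‖p‖ + t * ‖r‖ := by
    have := congrArg norm a1
    rw [norm_mul, Complex.norm_real, Real.norm_eq_abs, abs_of_pos d0] at this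
    rw [this]
    refine (norm_add_le _ _).trans ?_
    rw [norm_mul, RCLike.norm_conj, hs]
  have b2 : (1 - t ^ 2) * ‖B‖ ≤ ‖r‖ + t * ‖p‖ := by
    have := congrArg norm a2
    rw [norm_mul, Complex.norm_real, Real.norm_eq_abs, abs_of_pos d0] at this
    rw [this]
    refine (norm_add_le _ _).trans ?_
    rw [norm_mul, RCLike.norm_conj, hs]
  have c1 := pow_le_pow_left₀ (by positivity) b1 2
  have c2 := pow_le_pow_left₀ (by positivity) b2 2
  have u1 : 0 < 1 - t := by linarith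
  have u2 : 0 < 1 + t := by linarith
  have e : ((‖p‖ + ‖r‖) ^ 2 / (1 - t) ^ 2 + (‖p‖ - ‖r‖) ^ 2 / (1 + t) ^ 2) / 2 =
      ((‖p‖ + t * ‖r‖) ^ 2 + (‖r‖ + t * ‖p‖) ^ 2) / (1 - t ^ 2) ^ 2 := by
    have e2 : (1 - t ^ 2) = (1 - t) * (1 + t) := by ring
    rw [e2]
    field_simp
    ring
  rw [e, le_div_iff₀ (by positivity)]
  nlinarith

/-- **the energy of F54** -/
theorem e_le_of {f h k : ℝ → ℝ} (hf : Ef f) (V : Var h k) {τ : ℝ} (hσ : ‖sF f‖ ≤ τ) (h1 : 1 / 5 ≤ τ)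
    (h2 : τ < 1) : ‖Aa f h k‖ ^ 2 + ‖Ba f h k‖ ^ 2 ≤ 7 / (8 * (1 - τ) ^ 2) := by
  have hX := X_lt hf
  have := vm_prob hX
  obtain ⟨e1, e2⟩ := AB_eq hf V
  have bE := bm_ep hX
  have bK : Bm (Kc h k) := ⟨Kc_meas V, 1, fun t => Kc_le V t⟩
  have mk : ∀ n : ℕ, n ≠ 0 → ∫ t, C54.ep (X1 f) (X2 f) t ^ n ∂(vm (X1 f) (X2 f)) = 0 := fun n hn => by
    rw [vm_int hX]
    have e : (fun t => C54.ep (X1 f) (X2 f) t ^ n * (C54.al (X1 f) (X2 f) t : ℂ)) =
        fun t => C54.kz n (X1 f) (X2 f) t := by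
      funext t
      rw [C54.kz, zpow_natCast]
      ring
    rw [e, C54.int_kz hX (by exact_mod_cast hn), mul_zero]
  set p := ∫ t, C54.ep (X1 f) (X2 f) t * conj (Kc h k t) ∂(vm (X1 f) (X2 f)) with hp
  set r := ∫ t, C54.ep (X1 f) (X2 f) t * Kc h k t ∂(vm (X1 f) (X2 f)) with hr
  set t := ‖sF f‖ with ht
  have ht0 : 0 ≤ t := norm_nonneg _
  have h3 := AB_le e1 e2 ht.symm (hσ.trans_lt h2)
  refine h3.trans ?_
  have u1 : 0 < 1 - τ := by linarith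
  have u2 : 0 < 1 - t := by linarith
  have u3 : 0 < 1 + t := by linarith
  by_cases h7 : 1 / 7 ≤ t
  · set κ := ((1 - t) / (1 + t)) ^ 2 with hκ
    have k1 : κ ≤ 3 / 5 := by
      have : (1 - t) / (1 + t) ≤ 3 / 4 := by
        rw [div_le_iff₀ u3]
        linarith
      have := pow_le_pow_left₀ (by positivity) this 2
      rw [hκ]
      linarith
    have h4 := uw_le bE (C54.norm_ep hX) bK (fun t => Kc_le V t) (mk 2 (by norm_num)) (mk 4 (by norm_num))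
      (mk 6 (by norm_num)) (κ := κ) (by positivity) k1
    rw [← hp, ← hr] at h4
    have e : ((‖p‖ + ‖r‖) ^ 2 / (1 - t) ^ 2 + (‖p‖ - ‖r‖) ^ 2 / (1 + t) ^ 2) / 2 =
        ((‖p‖ + ‖r‖) ^ 2 + κ * (‖p‖ - ‖r‖) ^ 2) / (2 * (1 - t) ^ 2) := by
      rw [hκ]
      field_simp
    rw [e]
    calc ((‖p‖ + ‖r‖) ^ 2 + κ * (‖p‖ - ‖r‖) ^ 2) / (2 * (1 - t) ^ 2) ≤ (7 / 4) / (2 * (1 - t) ^ 2) := by
          gcongr
      _ = 7 / (8 * (1 - t) ^ 2) := by
          field_simp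
          ring
      _ ≤ 7 / (8 * (1 - τ) ^ 2) := by
          gcongr
  · push Not at h7
    have h4 := ps_le bE (C54.norm_ep hX) bK (fun t => Kc_le V t) (mk 2 (by norm_num))
    rw [← hp, ← hr] at h4
    have g1 : (‖p‖ + ‖r‖) ^ 2 / (1 - t) ^ 2 ≤ (‖p‖ + ‖r‖) ^ 2 / (1 - 1 / 7) ^ 2 := by
      gcongr
    have g2 : (‖p‖ - ‖r‖) ^ 2 / (1 + t) ^ 2 ≤ (‖p‖ - ‖r‖) ^ 2 / (1 - 1 / 7) ^ 2 := by
      gcongr
      linarith
    have g3 : 7 / (8 * (1 - 1 / 5) ^ 2) ≤ 7 / (8 * (1 - τ) ^ 2) := by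
      gcongr
    have g4 : (‖p‖ + ‖r‖) ^ 2 / (1 - 1 / 7) ^ 2 + (‖p‖ - ‖r‖) ^ 2 / (1 - 1 / 7) ^ 2 =
        2 * (‖p‖ ^ 2 + ‖r‖ ^ 2) * (49 / 36) := by
      ring
    have g5 : (7 : ℝ) / (8 * (1 - 1 / 5) ^ 2) = 175 / 128 := by norm_num
    rw [g5] at g3
    linarith

end Pool.Agent.FPX.SIG
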