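import Mathlib
import Pool.Agent.FPX.SIG
import Pool.Agent.FPX.SIGA
import Pool.Agent.FPX.XCP

/-
SIGE (helper8): the energy of the start map F54: `|A|² + |B|² ≤ 4375/2048` (`= 2.136..`) for all pairs of variations.
-/

open MeasureTheory Set Filter Topology Complex
open scoped ComplexConjugate

noncomputable section

namespace Pool.Agent.FPX.SIG

open Pool.Agent.FPX Pool.Agent.FPX.UXA
open Pool.Agent.FPX.UMP (Ef)
open Pool.Agent.FPX.F54 (X1 X2 dX1 dX2 X_lt sF vF)
open Pool.Agent.FPX.OMS (Aa Ba)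

/-- **the energy of F54** -/
theorem e_le {f h k : ℝ → ℝ} (hf : Ef f) (V : Var h k) : ‖Aa f h k‖ ^ 2 + ‖Ba f h k‖ ^ 2 ≤ 4375 / 2048 := by
  have := e_le_of hf V (sF_le hf) (by norm_num) (by norm_num)
  refine this.trans (le_of_eq ?_)
  norm_num

theorem vF_le {f h k : ℝ → ℝ} (hf : Ef f) (V : Var h k) :
    normSq (vF f h) + normSq (vF f k) ≤ 4375 / 1024 := by
  have h1 := e_le hf V
  have e : normSq (vF f h) + normSq (vF f k) = 2 * (‖Aa f h k‖ ^ 2 + ‖Ba f h k‖ ^ 2) := by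
    unfold Aa Ba
    rw [← Complex.normSq_eq_norm_sq, ← Complex.normSq_eq_norm_sq]
    generalize vF f h = a
    generalize vF f k = b
    simp only [Complex.normSq_apply, Complex.mul_im, Complex.mul_re,
      Complex.div_ofNat_re, Complex.div_ofNat_im, Complex.add_re, Complex.add_im, Complex.sub_re,
      Complex.sub_im, Complex.I_re, Complex.I_im]
    ring
  rw [e]
  linarith

/-- the bound of the energy in the coordinates -/
theorem en : XCO.En X1 X2 dX1 dX2 (4375 / 1024) := by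
  intro f h k hf V
  have h0 := vF_le hf V
  have e : ∀ g : ℝ → ℝ, normSq (vF f g) = dX1 f g ^ 2 + dX2 f g ^ 2
      + ((X1 f * dX1 f g + X2 f * dX2 f g) / C54.ce (X1 f) (X2 f)) ^ 2 := fun g => by
    have : vF f g = C54.vv (X1 f) (X2 f) (dX1 f g) (dX2 f g) := rfl
    rw [this, F54.vv_sq (X_lt hf)]
  have ed : ∀ g : ℝ → ℝ, XCO.dC X1 X2 dX1 dX2 f g ^ 2 =
      ((X1 f * dX1 f g + X2 f * dX2 f g) / C54.ce (X1 f) (X2 f)) ^ 2 := fun g => by
    unfold XCO.dC XCO.Cf C54.ce
    ring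
  rw [e, e] at h0
  rw [ed, ed]
  exact h0

end Pool.Agent.FPX.SIG
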