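import Mathlib
import Pool.Agent.FPX.SQA

/-
SQB (helper39): the elimination of `k` in the quick certificate (`q = 3/4`) with explicit multipliers: a
2x2 Hermitian form in `(u, v) = (conj A, B)` which is affine in the moments of `x`, `x²`.
-/

open MeasureTheory Set Filter Topology Complex
open scoped ENNReal NNReal ContDiff ComplexConjugate

noncomputable section

namespace Pool.Agent.FPX.SQB

open Pool.Agent.FPX Pool.Agent.FPX.UMP Pool.Agent.FPX.UMQ Pool.Agent.FPX.UXA Pool.Agent.EWD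
open Pool.Agent.FPX.F54 (X1 X2 X_lt)
open Pool.Agent.FPX.OMB (vm vm_prob)
open Pool.Agent.FPX.CQA (pht)
open Pool.Agent.FPX.CERQ (xT Er sr cont_xT cont_pht int_of_cont)
open Pool.Agent.FPX.SQA

/-- the entries of the form -/
def H11 (T : ℝ) (b2 s : ℂ) (M : ℝ) : ℝ :=
  T - 1 + 2 * (b2 * s).re + ((b2 * s).re - ‖b2‖ ^ 2 - 9 / 16 * M) / T

def H22 (T b1 M : ℝ) : ℝ := 1 + 2 * b1 - b1 ^ 2 / T - 9 / 16 * M / T

def H12 (T b1 : ℝ) (b2 s Y : ℂ) : ℂ :=
  conj b2 * (1 - b1 / T) + (T + b1) * s - ((T - b1) * s / 2 - 9 / 16 * Y) / T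

section state

variable {f : ℝ → ℝ} (hf : Ef f) (h2 : X2 f = 0)

include hf h2

/-- the mean of `|α E + β conj E + γ x E² + δ x conj E²|²` -/
theorem msq (α β γ δ : ℂ) :
    ∫ t, ‖α * Er f t + β * conj (Er f t) + γ * (xT f t * Er f t ^ 2) + δ * (xT f t * conj (Er f t) ^ 2)‖ ^ 2
      ∂(vm (X1 f) 0) = ‖α‖ ^ 2 + ‖β‖ ^ 2 + (‖γ‖ ^ 2 + ‖δ‖ ^ 2) * MX f
        + 2 * (α * conj δ * (-(2 / 3) * sr f)).re + 2 * (conj β * γ * (-(2 / 3) * sr f)).re
        + 2 * (γ * conj δ * YX f).re := by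
  have hns : ∀ z : ℂ, ((‖z‖ ^ 2 : ℝ) : ℂ) = z * conj z := fun z => by
    rw [Complex.mul_conj, Complex.normSq_eq_norm_sq]
  have hre : ∀ z : ℂ, ((2 * z.re : ℝ) : ℂ) = z + conj z := fun z => by
    rw [Complex.add_conj]
  obtain ⟨a, ha⟩ : ∃ a : Fin 10 → ℂ, a = ![α * conj α + β * conj β, β * conj δ + conj α * γ,
    conj β * δ + α * conj γ, γ * conj γ + δ * conj δ, α * conj β, α * conj δ + conj β * γ, γ * conj δ,
    conj α * β, conj α * δ + β * conj γ, conj γ * δ] := ⟨_, rfl⟩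
  have e := lin hf h2 a
  have key : ((∫ t, ‖α * Er f t + β * conj (Er f t) + γ * (xT f t * Er f t ^ 2)
      + δ * (xT f t * conj (Er f t) ^ 2)‖ ^ 2 ∂(vm (X1 f) 0) : ℝ) : ℂ) = ∑ i, a i * mm f i := by
    rw [← e, ← integral_complex_ofReal]
    congr 1
    funext t
    have h := Er_conj hf h2 t
    rw [hns, ha]
    simp only [Fin.sum_univ_succ, bs, Matrix.cons_val_zero, Matrix.cons_val_succ,
      Finset.univ_unique, Fin.default_eq_zero, Finset.sum_singleton, map_add, map_mul, map_pow,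
      Complex.conj_conj, Complex.conj_ofReal]
    generalize conj α = α'
    generalize conj β = β'
    generalize conj γ = γ'
    generalize conj δ = δ'
    generalize (starRingEnd ℂ) (Er f t) = e' at *
    generalize Er f t = e at *
    generalize (xT f t : ℂ) = x
    linear_combination (α * α' + β * β' + (γ * γ' + δ * δ') * x ^ 2 * (1 + e * e')
      + (α' * γ + β * δ') * x * e + (α * γ' + β' * δ) * x * e') * h
  have h3 : (((‖α‖ ^ 2 + ‖β‖ ^ 2 + (‖γ‖ ^ 2 + ‖δ‖ ^ 2) * MX f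
        + 2 * (α * conj δ * (-(2 / 3) * sr f)).re + 2 * (conj β * γ * (-(2 / 3) * sr f)).re
        + 2 * (γ * conj δ * YX f).re : ℝ)) : ℂ) = ∑ i, a i * mm f i := by
    rw [Complex.ofReal_add, Complex.ofReal_add, Complex.ofReal_add, Complex.ofReal_add, Complex.ofReal_add,
      Complex.ofReal_mul, Complex.ofReal_add, hns, hns, hns, hns, hre, hre, hre, ha]
    have e23 : conj (-(2 / 3) : ℂ) = -(2 / 3) := by
      have : (-(2 / 3) : ℂ) = ((-(2 / 3) : ℝ) : ℂ) := by push_cast; ring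
      rw [this, Complex.conj_ofReal]
    simp only [Fin.sum_univ_succ, mm, Matrix.cons_val_zero, Matrix.cons_val_succ,
      Finset.univ_unique, Fin.default_eq_zero, Finset.sum_singleton, map_mul, Complex.conj_conj, e23]
    ring
  rw [← h3] at key
  exact_mod_cast key

/-- **the form** -/
theorem stateK_H {T b1 : ℝ} {b2 : ℂ} (hT : 0 < T)
    (H : ∀ u v : ℂ, 0 ≤ H11 T b2 (sr f) (MX f) * ‖u‖ ^ 2 + H22 T b1 (MX f) * ‖v‖ ^ 2
      + 2 * (H12 T b1 b2 (sr f) (YX f) * u * conj v).re) : StateK (3 / 4) T f := by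
  intro k mk hk
  have hX := X1_lt hf h2
  have hp := vm_prob hX
  have hs : ‖sr f‖ < 1 := (sr_lt hf h2).trans_lt (by norm_num)
  have cE := cont_Er hf h2
  have cX : Continuous fun t => (xT f t : ℂ) := Complex.continuous_ofReal.comp (cont_xT hf)
  have cEc : Continuous fun t => (starRingEnd ℂ) (Er f t) := Complex.continuous_conj.comp cE
  set s := sr f with hsd
  obtain ⟨a, ha⟩ : ∃ a : ℂ, a = ∫ t, Er f t * conj (k t) ∂(vm (X1 f) 0) := ⟨_, rfl⟩
  obtain ⟨b, hb⟩ : ∃ b : ℂ, b = ∫ t, Er f t * k t ∂(vm (X1 f) 0) := ⟨_, rfl⟩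
  obtain ⟨D, hD⟩ : ∃ D : ℂ, D = ((1 - ‖s‖ ^ 2 : ℝ) : ℂ) := ⟨_, rfl⟩
  have hD0 : D ≠ 0 := by
    rw [hD]
    refine Complex.ofReal_ne_zero.2 ?_
    have := norm_nonneg s
    nlinarith
  have hDs : D = 1 - s * conj s := by
    rw [hD, Complex.mul_conj, Complex.normSq_eq_norm_sq]
    push_cast
    rfl
  obtain ⟨A, hA⟩ : ∃ A : ℂ, A = (a - s * conj b) / D := ⟨_, rfl⟩
  obtain ⟨B, hB⟩ : ∃ B : ℂ, B = (b - s * conj a) / D := ⟨_, rfl⟩
  have hDc : conj D = D := by
    rw [hD]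
    exact Complex.conj_ofReal _
  have ea : a = A + s * conj B := by
    rw [hA, hB, map_div₀, map_sub, map_mul, Complex.conj_conj, hDc]
    field_simp
    rw [hDs]
    ring
  have eb : b = B + s * conj A := by
    rw [hA, hB, map_div₀, map_sub, map_mul, Complex.conj_conj, hDc]
    field_simp
    rw [hDs]
    ring
  have key := omega_eq (μ := vm (X1 f) 0) (E := Er f) (k := k) (X := xT f) (q := 3 / 4) (s := s) hs
    (Eventually.of_forall hk) mk.aestronglyMeasurable (int_of_cont hX cE)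
    (int_of_cont hX (cX.mul (cE.pow 2))) (A := A) (B := B) (by rw [← ha, ← hb, hA, hD])
    (by rw [← ha, ← hb, hB, hD])
  rw [← key]
  obtain ⟨U, hU⟩ : ∃ U : ℂ, U = ∫ t, (xT f t : ℂ) * Er f t ^ 2 * conj (k t) ∂(vm (X1 f) 0) := ⟨_, rfl⟩
  obtain ⟨W, hW⟩ : ∃ W : ℂ, W = ∫ t, (xT f t : ℂ) * Er f t ^ 2 * k t ∂(vm (X1 f) 0) := ⟨_, rfl⟩
  rw [← hU, ← hW]
  have hk' : ∀ᵐ t ∂(vm (X1 f) 0), ‖k t‖ ≤ 1 := Eventually.of_forall hk
  have kc : AEStronglyMeasurable (fun t => conj (k t)) (vm (X1 f) 0) :=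
    Complex.continuous_conj.comp_aestronglyMeasurable mk.aestronglyMeasurable
  have bc : ∀ᵐ t ∂(vm (X1 f) 0), ‖(starRingEnd ℂ) (k t)‖ ≤ 1 := Eventually.of_forall fun t => by
    rw [RCLike.norm_conj]
    exact hk t
  have imc : ∀ {g : ℝ → ℂ}, Continuous g → Integrable (fun t => g t * conj (k t)) (vm (X1 f) 0) := by
    intro g hg
    refine ((int_of_cont hX hg).bdd_mul (c := 1) kc bc).congr (Eventually.of_forall fun x => ?_)
    exact mul_comm _ _
  -- the conjugate moments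
  have c1 : ∫ t, conj (Er f t) * conj (k t) ∂(vm (X1 f) 0) = conj b := by
    rw [hb, ← integral_conj]
    congr 1
    funext t
    rw [map_mul]
  have c2 : ∫ t, (xT f t : ℂ) * conj (Er f t) ^ 2 * conj (k t) ∂(vm (X1 f) 0) = conj W := by
    rw [hW, ← integral_conj]
    congr 1
    funext t
    rw [map_mul, map_mul, map_pow, Complex.conj_ofReal]
  -- the field
  obtain ⟨α, hα⟩ : ∃ α : ℂ, α = -2 * T * conj A := ⟨_, rfl⟩
  obtain ⟨β, hβ⟩ : ∃ β : ℂ, β = -2 * conj b2 * conj A - 2 * b1 * B := ⟨_, rfl⟩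
  obtain ⟨γ, hγ⟩ : ∃ γ : ℂ, γ = -(3 / 2) * conj A := ⟨_, rfl⟩
  obtain ⟨δ, hδ⟩ : ∃ δ : ℂ, δ = 3 / 2 * B := ⟨_, rfl⟩
  set V : ℝ → ℂ := fun t => α * Er f t + β * conj (Er f t) + γ * (xT f t * Er f t ^ 2)
    + δ * (xT f t * conj (Er f t) ^ 2) with hV
  have cV : Continuous V := (((continuous_const.mul cE).add (continuous_const.mul cEc)).add
    (continuous_const.mul (cX.mul (cE.pow 2)))).add (continuous_const.mul (cX.mul (cEc.pow 2)))
  have p1 : ∫ t, V t * conj (k t) ∂(vm (X1 f) 0) = α * a + β * conj b + γ * U + δ * conj W := by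
    have e : ∀ t, V t * conj (k t) = (α * (Er f t * conj (k t)) + β * (conj (Er f t) * conj (k t)))
        + (γ * ((xT f t : ℂ) * Er f t ^ 2 * conj (k t)) + δ * ((xT f t : ℂ) * conj (Er f t) ^ 2 * conj (k t))) := by
      intro t
      simp only [hV]
      ring
    have j1 : Integrable (fun t => α * (Er f t * conj (k t))) (vm (X1 f) 0) := (imc cE).const_mul α
    have j2 : Integrable (fun t => β * (conj (Er f t) * conj (k t))) (vm (X1 f) 0) := (imc cEc).const_mul β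
    have j3 : Integrable (fun t => γ * ((xT f t : ℂ) * Er f t ^ 2 * conj (k t))) (vm (X1 f) 0) :=
      (imc (cX.mul (cE.pow 2))).const_mul γ
    have j4 : Integrable (fun t => δ * ((xT f t : ℂ) * conj (Er f t) ^ 2 * conj (k t))) (vm (X1 f) 0) :=
      (imc (cX.mul (cEc.pow 2))).const_mul δ
    have j12 : Integrable (fun t => α * (Er f t * conj (k t)) + β * (conj (Er f t) * conj (k t)))
      (vm (X1 f) 0) := j1.add j2
    have j34 : Integrable (fun t => γ * ((xT f t : ℂ) * Er f t ^ 2 * conj (k t))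
      + δ * ((xT f t : ℂ) * conj (Er f t) ^ 2 * conj (k t))) (vm (X1 f) 0) := j3.add j4
    simp only [e]
    rw [integral_add j12 j34, integral_add j1 j2, integral_add j3 j4,
      integral_const_mul, integral_const_mul, integral_const_mul, integral_const_mul, c1, c2, ← ha, ← hU]
    ring
  have p2 : 0 ≤ T + (∫ t, V t * conj (k t) ∂(vm (X1 f) 0)).re
      + (∫ t, ‖V t‖ ^ 2 ∂(vm (X1 f) 0)) / (4 * T) := by
    have e1 : (∫ t, V t * conj (k t) ∂(vm (X1 f) 0)).re = ∫ t, (V t * conj (k t)).re ∂(vm (X1 f) 0) :=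
      (integral_re (imc cV)).symm
    have i1 : Integrable (fun t => (V t * conj (k t)).re) (vm (X1 f) 0) := (imc cV).re
    have i2 : Integrable (fun t => ‖V t‖ ^ 2) (vm (X1 f) 0) := int_of_cont hX (cV.norm.pow 2)
    have e2 : 0 ≤ ∫ t, (T + (V t * conj (k t)).re + ‖V t‖ ^ 2 / (4 * T)) ∂(vm (X1 f) 0) := by
      refine integral_nonneg fun t => ?_
      have h1 : ‖k t‖ ^ 2 ≤ 1 := by
        have := hk t
        have := norm_nonneg (k t)
        nlinarith
      have h3 : -(‖V t‖ * ‖k t‖) ≤ (V t * conj (k t)).re := by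
        have := (abs_le.1 (Complex.abs_re_le_norm (V t * conj (k t)))).1
        rwa [norm_mul, RCLike.norm_conj] at this
      have h4 : T * ‖k t‖ ^ 2 - ‖V t‖ * ‖k t‖ + ‖V t‖ ^ 2 / (4 * T)
          = (2 * T * ‖k t‖ - ‖V t‖) ^ 2 / (4 * T) := by
        field_simp
        ring
      have h5 : 0 ≤ (2 * T * ‖k t‖ - ‖V t‖) ^ 2 / (4 * T) := by positivity
      show 0 ≤ T + (V t * conj (k t)).re + ‖V t‖ ^ 2 / (4 * T)
      have h6 : T * ‖k t‖ ^ 2 ≤ T := by nlinarith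
      linarith
    have i3 : Integrable (fun t => T + (V t * conj (k t)).re) (vm (X1 f) 0) := (integrable_const T).add i1
    rw [integral_add i3 (i2.div_const _), integral_add (integrable_const T) i1, integral_div, ← e1] at e2
    simpa using e2
  have p3 := msq hf h2 α β γ δ
  rw [p1] at p2
  have p4 := H (conj A) B
  unfold H11 H22 H12 at p4
  have e5 : ∀ z : ℂ, ‖z‖ ^ 2 = z.re ^ 2 + z.im ^ 2 := fun z => by
    rw [← Complex.normSq_eq_norm_sq, Complex.normSq_apply]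
    ring
  simp only [hV] at p2
  rw [p3] at p2
  have hTn : T ≠ 0 := hT.ne'
  have e6 : T - (‖A‖ ^ 2 - ‖B‖ ^ 2 + 2 * (3 / 4) * (conj A * U - conj B * W).re) =
      (T + (α * a + β * conj b + γ * U + δ * conj W).re
        + (‖α‖ ^ 2 + ‖β‖ ^ 2 + (‖γ‖ ^ 2 + ‖δ‖ ^ 2) * MX f + 2 * (α * conj δ * (-(2 / 3) * s)).re
          + 2 * (conj β * γ * (-(2 / 3) * s)).re + 2 * (γ * conj δ * YX f).re) / (4 * T))
      + ((T - 1 + 2 * (b2 * s).re + ((b2 * s).re - ‖b2‖ ^ 2 - 9 / 16 * MX f) / T) * ‖conj A‖ ^ 2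
        + (1 + 2 * b1 - b1 ^ 2 / T - 9 / 16 * MX f / T) * ‖B‖ ^ 2
        + 2 * ((conj b2 * (1 - b1 / T) + (T + b1) * s - ((T - b1) * s / 2 - 9 / 16 * YX f) / T) * conj A
          * conj B).re) := by
    rw [ea, eb, hα, hβ, hγ, hδ]
    clear_value s
    generalize YX f = Y
    generalize MX f = M
    simp only [e5]
    obtain ⟨A1, A2⟩ := A
    obtain ⟨B1, B2⟩ := B
    obtain ⟨U1, U2⟩ := U
    obtain ⟨W1, W2⟩ := W
    obtain ⟨Y1, Y2⟩ := Y
    obtain ⟨s1, s2⟩ := s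
    obtain ⟨c1, c2⟩ := b2
    simp only [Complex.add_re, Complex.add_im, Complex.mul_re, Complex.mul_im, Complex.sub_re, Complex.sub_im,
      Complex.conj_re, Complex.conj_im, Complex.ofReal_re, Complex.ofReal_im, Complex.neg_re, Complex.neg_im,
      Complex.re_ofNat, Complex.im_ofNat, Complex.one_re, Complex.one_im, Complex.div_ofReal_re,
      Complex.div_ofReal_im, Complex.div_ofNat_re, Complex.div_ofNat_im, map_add, map_mul, map_sub, map_neg]
    field_simp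
    ring
  linarith

end state

/-- **the area bound from the 2x2 form** -/
theorem area_H {T : ℝ} (hT : 0 < T) (H : ∀ f, Ef f → 0 ≤ X1 f → X2 f = 0 → ∃ (b1 : ℝ) (b2 : ℂ),
      ∀ u v : ℂ, 0 ≤ H11 T b2 (sr f) (MX f) * ‖u‖ ^ 2 + H22 T b1 (MX f) * ‖v‖ ^ 2
        + 2 * (H12 T b1 b2 (sr f) (YX f) * u * conj v).re)
    (M : Type) [MetricSpace M] [CompactSpace M] (γ : ℝ → M) (C : Calc M γ) (hγ : Bd γ) :
    2 * Real.pi ≤ T * C.vol :=
  area_K (q := 3 / 4) (fun f hf h1 h2 => by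
    obtain ⟨b1, b2, h⟩ := H f hf h1 h2
    exact stateK_H hf h2 hT h) M γ C hγ

end Pool.Agent.FPX.SQB
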