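import Mathlib
import Pool.Agent.FPX.SQX

/-
SQZ (helper88): finitely many class certificates `CertW (s j) (om j) oz`, `s 0 = 1 > s 1 > ..`, give an area
bound: weight with ramps of width `δ` at `kp j ≥ √(1 - (s (j+1))²)`.
-/

open MeasureTheory Set Filter Measure Topology Manifold
open scoped ENNReal NNReal ContDiff

noncomputable section

namespace Pool.Agent.FPX.SQZ

open Pool.Agent.FPX.SQX

/-- a ramp: `1` for `c ≤ kp`, `0` for `c ≥ kp + δ` -/
def ramp (δ kp c : ℝ) : ℝ := (max 0 (kp + δ - c) - max 0 (kp - c)) / δ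

theorem cont_ramp (δ kp : ℝ) : Continuous (ramp δ kp) := by
  unfold ramp
  exact ((continuous_const.max (continuous_const.sub continuous_id)).sub
    (continuous_const.max (continuous_const.sub continuous_id))).div_const _

theorem ramp_one {δ kp c : ℝ} (hδ : 0 < δ) (h : c ≤ kp) : ramp δ kp c = 1 := by
  unfold ramp
  rw [max_eq_right (by linarith), max_eq_right (by linarith)]
  field_simp
  ring

theorem ramp_zero {δ kp c : ℝ} (hδ : 0 < δ) (h : kp + δ ≤ c) : ramp δ kp c = 0 := by
  unfold ramp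
  rw [max_eq_left (by linarith), max_eq_left (by linarith)]
  simp

theorem ramp_nonneg {δ kp : ℝ} (hδ : 0 < δ) (c : ℝ) : 0 ≤ ramp δ kp c := by
  unfold ramp
  refine div_nonneg (sub_nonneg.2 ?_) hδ.le
  exact max_le_max le_rfl (by linarith)

theorem ramp_le {δ kp : ℝ} (hδ : 0 < δ) (c : ℝ) : ramp δ kp c ≤ 1 := by
  unfold ramp
  rw [div_le_one hδ]
  rcases le_total c kp with h | h
  · rw [max_eq_right (by linarith), max_eq_right (by linarith)]
    linarith
  · rw [max_eq_left (a := (0 : ℝ)) (b := kp - c) (by linarith), sub_zero]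
    exact max_le hδ.le (by linarith)

theorem int_ramp {δ kp : ℝ} (hδ : 0 < δ) (h0 : 0 ≤ kp) (h1 : kp + δ ≤ 1) :
    ∫ c in (0 : ℝ)..1, ramp δ kp c = kp + δ / 2 := by
  unfold ramp
  have c1 : Continuous fun c : ℝ => max 0 (kp + δ - c) := continuous_const.max (continuous_const.sub continuous_id)
  have c2 : Continuous fun c : ℝ => max 0 (kp - c) := continuous_const.max (continuous_const.sub continuous_id)
  rw [intervalIntegral.integral_div, intervalIntegral.integral_sub (c1.intervalIntegrable _ _)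
    (c2.intervalIntegrable _ _), WPR.int_ramp (by linarith) h1, WPR.int_ramp h0 (by linarith)]
  field_simp
  ring

/-- the weight -/
def wt (n : ℕ) (om kp : ℕ → ℝ) (δ c : ℝ) : ℝ :=
  1 - om n - ∑ j ∈ Finset.range n, (om j - om (j + 1)) * ramp δ (kp j) c

variable {n : ℕ} {s om kp : ℕ → ℝ} {δ oz c₁ : ℝ}

theorem cont_wt : Continuous (wt n om kp δ) := by
  unfold wt
  exact continuous_const.sub (continuous_finsetSum _ fun j _ => continuous_const.mul (cont_ramp _ _))

/-- the area constant -/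
def val (n : ℕ) (om kp : ℕ → ℝ) (δ : ℝ) : ℝ :=
  1 - om n - ∑ j ∈ Finset.range n, (om j - om (j + 1)) * (kp j + δ / 2)

theorem int_wt (hδ : 0 < δ) (h0 : ∀ j < n, 0 ≤ kp j) (h1 : ∀ j < n, kp j + δ ≤ 1) :
    ∫ c in (0 : ℝ)..1, wt n om kp δ c = val n om kp δ := by
  unfold wt val
  have cs : ∀ j, Continuous fun c => (om j - om (j + 1)) * ramp δ (kp j) c := fun j =>
    continuous_const.mul (cont_ramp _ _)
  rw [intervalIntegral.integral_sub (continuous_const.intervalIntegrable _ _)
    ((continuous_finsetSum _ fun j _ => cs j).intervalIntegrable _ _), intervalIntegral.integral_const,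
    intervalIntegral.integral_finsetSum fun j _ => (cs j).intervalIntegrable _ _]
  simp only [sub_zero, one_smul, intervalIntegral.integral_const_mul]
  congr 1
  refine Finset.sum_congr rfl fun j hj => ?_
  have := Finset.mem_range.1 hj
  rw [int_ramp hδ (h0 j this) (h1 j this)]

theorem tel (om : ℕ → ℝ) (n : ℕ) : ∑ j ∈ Finset.range n, (om j - om (j + 1)) = om 0 - om n := by
  rw [Finset.sum_range_sub']

/-- the hypotheses on the numbers -/
structure Num (n : ℕ) (s om kp : ℕ → ℝ) (δ oz c₁ : ℝ) : Prop where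
  δ0 : 0 < δ
  s0 : s 0 = 1
  spos : 0 ≤ s n
  santi : ∀ j < n, s (j + 1) ≤ s j
  omanti : ∀ j < n, om (j + 1) ≤ om j
  om0 : om 0 ≤ oz
  kp0 : ∀ j < n, 0 ≤ kp j
  kp1 : ∀ j < n, kp j + δ ≤ c₁
  kps : ∀ j < n, 1 - s (j + 1) ^ 2 ≤ kp j ^ 2
  c1 : c₁ < 1

theorem Num.sle (h : Num n s om kp δ oz c₁) {i j : ℕ} (hij : i ≤ j) (hj : j ≤ n) : s j ≤ s i := by
  induction j, hij using Nat.le_induction with
  | base => exact le_rfl
  | succ k hk ih => exact (h.santi k (by omega)).trans (ih (by omega))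

theorem Num.wt (h : Num n s om kp δ oz c₁) : WPR.Wt (wt n om kp δ) (1 - om n) c₁ where
  cont := cont_wt
  lt := h.c1
  eq := fun c hc => by
    unfold SQZ.wt
    rw [Finset.sum_eq_zero fun j hj => ?_, sub_zero]
    have hj' := Finset.mem_range.1 hj
    rw [ramp_zero h.δ0 ((h.kp1 j hj').trans hc), mul_zero]

theorem Num.upper (h : Num n s om kp δ oz c₁) (c : ℝ) : 1 - SQZ.wt n om kp δ c ≤ oz := by
  unfold SQZ.wt
  have : ∑ j ∈ Finset.range n, (om j - om (j + 1)) * ramp δ (kp j) c ≤ ∑ j ∈ Finset.range n, (om j - om (j + 1)) := by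
    refine Finset.sum_le_sum fun j hj => ?_
    have h1 := h.omanti j (Finset.mem_range.1 hj)
    have h2 := ramp_le (kp := kp j) h.δ0 c
    nlinarith
  rw [tel] at this
  have := h.om0
  linarith

theorem Num.lower (h : Num n s om kp δ oz c₁) {j : ℕ} (hj : j ≤ n) {t : ℝ} (ht0 : 0 ≤ t)
    (ht : j < n → s (j + 1) < t) : om j ≤ 1 - SQZ.wt n om kp δ (√(1 - t ^ 2)) := by
  unfold SQZ.wt
  have h1 : ∑ i ∈ Finset.range n, (if j ≤ i then (om i - om (i + 1)) else 0)
      ≤ ∑ i ∈ Finset.range n, (om i - om (i + 1)) * ramp δ (kp i) (√(1 - t ^ 2)) := by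
    refine Finset.sum_le_sum fun i hi => ?_
    have hin := Finset.mem_range.1 hi
    have h2 := h.omanti i hin
    split_ifs with hji
    · have h3 : s (i + 1) ≤ s (j + 1) := h.sle (by omega) (by omega)
      have h4 := ht (by omega)
      have h5 : 0 ≤ s (i + 1) := h.spos.trans (h.sle (by omega) le_rfl)
      have h6 : √(1 - t ^ 2) ≤ kp i := by
        rw [Real.sqrt_le_iff]
        refine ⟨h.kp0 i hin, le_trans ?_ (h.kps i hin)⟩
        nlinarith
      rw [ramp_one h.δ0 h6, mul_one]
    · exact mul_nonneg (by linarith) (ramp_nonneg h.δ0 _)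
  have h2 : ∑ i ∈ Finset.range n, (if j ≤ i then (om i - om (i + 1)) else 0) = om j - om n := by
    have h3 : Finset.range n = Finset.range j ∪ Finset.Ico j n := by
      rw [Finset.range_eq_Ico, Finset.range_eq_Ico, Finset.Ico_union_Ico_eq_Ico (Nat.zero_le _) hj]
    rw [← Finset.sum_filter]
    have h4 : (Finset.range n).filter (fun i => j ≤ i) = Finset.Ico j n := by
      ext i
      simp only [Finset.mem_filter, Finset.mem_range, Finset.mem_Ico]
      omega
    rw [h4, Finset.sum_Ico_eq_sub _ hj, tel, tel]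
    ring
  linarith

/-- **the classes cover all latitudes** -/
theorem Num.classW (h : Num n s om kp δ oz c₁) (hc : ∀ j ≤ n, CertW (s j) (om j) oz) (t : ℝ) (ht0 : 0 ≤ t)
    (ht1 : t < 1) : ClassW (SQZ.wt n om kp δ) t := by
  have hex : ∃ j, j ≤ n ∧ t ≤ s j ∧ (j < n → s (j + 1) < t) := by
    by_contra hcon
    push Not at hcon
    have hall : ∀ j ≤ n, t ≤ s j := by
      intro j
      induction j with
      | zero =>
        intro _
        rw [h.s0]
        exact ht1.le
      | succ k ih =>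
        intro hk
        have h1 := ih (by omega)
        exact (hcon k (by omega) h1).2
    have h1 := hcon n le_rfl (hall n le_rfl)
    exact absurd h1.1 (lt_irrefl n)
  obtain ⟨j, hj, htj, hlt⟩ := hex
  have hsj : s j ≤ 1 := by
    have := h.sle (Nat.zero_le j) hj
    rwa [h.s0] at this
  exact classW_of (hc j hj) ht0 htj hsj (h.lower hj ht0 hlt) (h.upper _)

open Pool.Agent.H74.Surf in
/-- **surfaces** -/
theorem Num.surf (h : Num n s om kp δ oz c₁) (hc : ∀ j ≤ n, CertW (s j) (om j) oz)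
    (M : Type) [MetricSpace M] [CompactSpace M] [ChartedSpace (EuclideanHalfSpace 2) M]
    [RiemannianSpace (𝓡∂ 2) M] (horient : H74.Surf.Orientable (𝓡∂ 2) M)
    (φ : H74.Surf.S1 → M) (hφ : H74.Surf.IsometricFilling (𝓡∂ 2) φ) :
    ENNReal.ofReal (2 * Real.pi * val n om kp δ) ≤ H74.Surf.area M := by
  have := surf_Sw h.wt (h.classW hc) M horient φ hφ
  rwa [int_wt h.δ0 h.kp0 fun j hj => (h.kp1 j hj).trans h.c1.le] at this

end Pool.Agent.FPX.SQZ
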