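import Mathlib

/-!
# Stokes for graphs over the circle, and the state integral formula
-/

open MeasureTheory intervalIntegral Set Filter Topology
open scoped NNReal

namespace Pool.Agent.FPX.STI

/-- clamp to `[-m, m]` -/
noncomputable def cl (m u : ℝ) : ℝ := max (-m) (min m u)

theorem cl_cont (m : ℝ) : Continuous (cl m) := by
  unfold cl; fun_prop

theorem cl_abs {m : ℝ} (hm : 0 ≤ m) (u : ℝ) : |cl m u| ≤ m := by
  unfold cl
  rw [abs_le]
  refine ⟨le_max_left _ _, ?_⟩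
  rw [max_le_iff]
  exact ⟨by linarith, min_le_left _ _⟩

theorem cl_eq {m u : ℝ} (hu : |u| ≤ m) : cl m u = u := by
  rw [abs_le] at hu
  unfold cl
  rw [min_eq_right hu.2, max_eq_right hu.1]

theorem abs_le_of_uIcc {m r u : ℝ} (hr : |r| ≤ m) (hu : u ∈ uIcc 0 r) : |u| ≤ m := by
  refine le_trans ?_ hr
  rcases le_total 0 r with h | h
  · rw [uIcc_of_le h] at hu
    rw [abs_of_nonneg hu.1, abs_of_nonneg h]; exact hu.2
  · rw [uIcc_of_ge h] at hu
    rw [abs_of_nonpos hu.2, abs_of_nonpos h]; linarith [hu.1]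

theorem abs_le_of_uIcc' {m r r' u : ℝ} (hr : |r| ≤ m) (hr' : |r'| ≤ m) (hu : u ∈ uIcc r r') :
    |u| ≤ m := by
  rw [abs_le] at *
  rw [mem_uIcc] at hu
  rcases hu with h | h
  · exact ⟨by linarith [h.1], by linarith [h.2]⟩
  · exact ⟨by linarith [h.1], by linarith [h.2]⟩

theorem cont_cl {b m : ℝ} (hm : 0 ≤ m) (hmb : m < b) {Q : ℝ → ℝ → ℝ}
    (hQc : ContinuousOn (fun p : ℝ × ℝ => Q p.1 p.2) {p | |p.2| < b}) :
    Continuous (fun p : ℝ × ℝ => Q p.1 (cl m p.2)) := by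
  have h1 : Continuous (fun p : ℝ × ℝ => ((p.1, cl m p.2) : ℝ × ℝ)) :=
    continuous_fst.prodMk ((cl_cont m).comp continuous_snd)
  exact hQc.comp_continuous h1 (fun p => lt_of_le_of_lt (cl_abs hm _) hmb)

theorem cont_slice {b : ℝ} {Q : ℝ → ℝ → ℝ}
    (hQc : ContinuousOn (fun p : ℝ × ℝ => Q p.1 p.2) {p | |p.2| < b}) (θ : ℝ) :
    ContinuousOn (fun u => Q θ u) {u | |u| < b} := by
  have h1 : Continuous (fun u : ℝ => ((θ, u) : ℝ × ℝ)) := by fun_prop
  exact hQc.comp h1.continuousOn (fun u hu => hu)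

theorem int_slice {b m : ℝ} (hmb : m < b) {Q : ℝ → ℝ → ℝ}
    (hQc : ContinuousOn (fun p : ℝ × ℝ => Q p.1 p.2) {p | |p.2| < b}) (θ : ℝ)
    {r r' : ℝ} (hr : |r| ≤ m) (hr' : |r'| ≤ m) :
    IntervalIntegrable (fun u => Q θ u) volume r r' := by
  apply ContinuousOn.intervalIntegrable
  exact (cont_slice hQc θ).mono (fun u hu => lt_of_le_of_lt (abs_le_of_uIcc' hr hr' hu) hmb)

/-- continuity of the parametric primitive -/
theorem int_cont {b m : ℝ} (hm : 0 ≤ m) (hmb : m < b) {Q : ℝ → ℝ → ℝ}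
    (hQc : ContinuousOn (fun p : ℝ × ℝ => Q p.1 p.2) {p | |p.2| < b})
    {g : ℝ → ℝ} (hg : ∀ θ, |g θ| ≤ m) (hgc : Continuous g) :
    Continuous (fun θ => ∫ u in (0:ℝ)..(g θ), Q θ u) := by
  have h1 : (fun θ => ∫ u in (0:ℝ)..(g θ), Q θ u) =
      fun θ => ∫ u in (0:ℝ)..(g θ), Q θ (cl m u) := by
    funext θ
    apply intervalIntegral.integral_congr
    intro u hu
    show Q θ u = Q θ (cl m u)
    rw [cl_eq (abs_le_of_uIcc (hg θ) hu)]
  rw [h1]
  have h2 : Continuous (Function.uncurry (fun θ u : ℝ => Q θ (cl m u))) := cont_cl hm hmb hQc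
  exact intervalIntegral.continuous_parametric_intervalIntegral_of_continuous h2 hgc

theorem deriv_A {b m : ℝ} (hm : 0 ≤ m) (hmb : m < b) {Q Qt : ℝ → ℝ → ℝ}
    (hQt : ∀ θ r, |r| < b → HasDerivAt (fun θ => Q θ r) (Qt θ r) θ)
    (hQc : ContinuousOn (fun p : ℝ × ℝ => Q p.1 p.2) {p | |p.2| < b})
    (hQtc : ContinuousOn (fun p : ℝ × ℝ => Qt p.1 p.2) {p | |p.2| < b})
    {r : ℝ} (hr : |r| ≤ m) (θ0 : ℝ) :
    HasDerivAt (fun θ => ∫ u in (0:ℝ)..r, Q θ u) (∫ u in (0:ℝ)..r, Qt θ0 u) θ0 := by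
  have h0 : |(0:ℝ)| ≤ m := by simpa using hm
  obtain ⟨L, hL⟩ := (isCompact_Icc.prod isCompact_Icc).exists_bound_of_continuousOn
    (s := (Icc (θ0 - 1) (θ0 + 1)) ×ˢ (Icc (-m) m)) (f := fun p : ℝ × ℝ => Qt p.1 p.2)
    (hQtc.mono (by
      rintro ⟨x, y⟩ ⟨_, hy⟩
      exact lt_of_le_of_lt (abs_le.2 ⟨hy.1, hy.2⟩) hmb))
  refine (intervalIntegral.hasDerivAt_integral_of_dominated_loc_of_deriv_le
    (F := fun θ u => Q θ u) (F' := fun θ u => Qt θ u) (bound := fun _ => L)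
    (s := Ioo (θ0 - 1) (θ0 + 1)) (Ioo_mem_nhds (by linarith) (by linarith)) ?_ ?_ ?_ ?_ ?_ ?_).2
  · refine Filter.Eventually.of_forall (fun θ => ?_)
    exact (int_slice hmb hQc θ h0 hr).def'.aestronglyMeasurable
  · exact int_slice hmb hQc θ0 h0 hr
  · exact (int_slice hmb hQtc θ0 h0 hr).def'.aestronglyMeasurable
  · refine Filter.Eventually.of_forall (fun u hu θ hθ => ?_)
    have hu' : |u| ≤ m := abs_le_of_uIcc hr (uIoc_subset_uIcc hu)
    exact hL (θ, u) ⟨⟨hθ.1.le, hθ.2.le⟩, abs_le.1 hu'⟩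
  · exact intervalIntegrable_const
  · refine Filter.Eventually.of_forall (fun u hu θ hθ => ?_)
    have hu' : |u| ≤ m := abs_le_of_uIcc hr (uIoc_subset_uIcc hu)
    exact hQt θ u (lt_of_le_of_lt hu' hmb)


theorem hasDerivAt_F {b m : ℝ} (hm : 0 ≤ m) (hmb : m < b) {Q Qt : ℝ → ℝ → ℝ}
    (hQt : ∀ θ r, |r| < b → HasDerivAt (fun θ => Q θ r) (Qt θ r) θ)
    (hQc : ContinuousOn (fun p : ℝ × ℝ => Q p.1 p.2) {p | |p.2| < b})
    (hQtc : ContinuousOn (fun p : ℝ × ℝ => Qt p.1 p.2) {p | |p.2| < b})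
    {g : ℝ → ℝ} (hg : ∀ θ, |g θ| ≤ m) {K : ℝ≥0} (hgl : LipschitzWith K g)
    {θ0 g' : ℝ} (hd : HasDerivAt g g' θ0) :
    HasDerivAt (fun θ => ∫ u in (0:ℝ)..(g θ), Q θ u)
      (g' * Q θ0 (g θ0) + ∫ u in (0:ℝ)..(g θ0), Qt θ0 u) θ0 := by
  have h0 : |(0:ℝ)| ≤ m := by simpa using hm
  have hA := deriv_A hm hmb hQt hQc hQtc (hg θ0) θ0
  -- the remainder
  have hB : HasDerivAt (fun θ => (∫ u in (g θ0)..(g θ), (Q θ u - Q θ0 (g θ0)))) 0 θ0 := by
    rw [hasDerivAt_iff_isLittleO, Asymptotics.isLittleO_iff]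
    intro ε hε
    have hKp : (0:ℝ) < K + 1 := by positivity
    have hcont : ContinuousAt (fun p : ℝ × ℝ => Q p.1 (cl m p.2)) (θ0, g θ0) :=
      (cont_cl hm hmb hQc).continuousAt
    obtain ⟨δ, hδ, hδ'⟩ := Metric.continuousAt_iff.1 hcont (ε / (K + 1)) (by positivity)
    have hev : ∀ᶠ θ in 𝓝 θ0, |θ - θ0| < δ / (K + 1) := by
      have := Metric.ball_mem_nhds θ0 (show 0 < δ / (K + 1) by positivity)
      filter_upwards [this] with θ hθ
      simpa [Real.dist_eq] using hθ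
    filter_upwards [hev] with θ hθ
    have hlip : |g θ - g θ0| ≤ K * |θ - θ0| := by
      have := hgl.dist_le_mul θ θ0
      simpa [Real.dist_eq] using this
    have hb1 : ∀ u ∈ uIoc (g θ0) (g θ), ‖Q θ u - Q θ0 (g θ0)‖ ≤ ε / (K + 1) := by
      intro u hu
      have hu' := uIoc_subset_uIcc hu
      have hum : |u| ≤ m := abs_le_of_uIcc' (hg θ0) (hg θ) hu'
      have hd1 : |u - g θ0| ≤ |g θ - g θ0| := by
        have := abs_sub_left_of_mem_uIcc hu'
        simpa [abs_sub_comm] using this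
      have hlt : dist ((θ, u) : ℝ × ℝ) (θ0, g θ0) < δ := by
        rw [Prod.dist_eq, max_lt_iff]
        have h3 : (K : ℝ) * |θ - θ0| ≤ K * (δ / (K + 1)) := by
          gcongr
        have h4 : (K : ℝ) * (δ / (K + 1)) < δ := by
          rw [mul_div_assoc', div_lt_iff₀ hKp]; nlinarith [K.coe_nonneg]
        have h5 : δ / ((K:ℝ) + 1) ≤ δ := div_le_self hδ.le (by linarith [K.coe_nonneg])
        constructor
        · rw [Real.dist_eq]; exact lt_of_lt_of_le hθ h5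
        · rw [Real.dist_eq]; linarith
      have := hδ' hlt
      simp only [cl_eq hum, cl_eq (hg θ0)] at this
      rw [Real.dist_eq] at this
      exact this.le
    have h6 := intervalIntegral.norm_integral_le_of_norm_le_const hb1
    simp only [intervalIntegral.integral_same, smul_zero, sub_zero]
    refine h6.trans ?_
    have h7 : ε / ((K:ℝ) + 1) * |g θ - g θ0| ≤ ε / ((K:ℝ) + 1) * (K * |θ - θ0|) := by
      gcongr
    refine h7.trans ?_
    rw [Real.norm_eq_abs]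
    have h8 : ε / ((K:ℝ) + 1) * (K * |θ - θ0|) = ε * |θ - θ0| * (K / (K + 1)) := by ring
    rw [h8]
    have h9 : (K:ℝ) / (K + 1) ≤ 1 := (div_le_one hKp).2 (by linarith)
    have h10 : 0 ≤ ε * |θ - θ0| := by positivity
    nlinarith
  have hC : HasDerivAt (fun θ => (g θ - g θ0) * Q θ0 (g θ0)) (g' * Q θ0 (g θ0)) θ0 :=
    (hd.sub_const _).mul_const _
  have hsum := (hA.add hB).add hC
  have hfun : (fun θ => ∫ u in (0:ℝ)..(g θ), Q θ u) =
      (((fun θ => ∫ u in (0:ℝ)..(g θ0), Q θ u) +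
        (fun θ => (∫ u in (g θ0)..(g θ), (Q θ u - Q θ0 (g θ0))))) +
        (fun θ => (g θ - g θ0) * Q θ0 (g θ0))) := by
    funext θ
    simp only [Pi.add_apply]
    rw [intervalIntegral.integral_sub (int_slice hmb hQc θ (hg θ0) (hg θ))
      intervalIntegrable_const]
    rw [← intervalIntegral.integral_add_adjacent_intervals
      (int_slice hmb hQc θ h0 (hg θ0)) (int_slice hmb hQc θ (hg θ0) (hg θ))]
    simp only [intervalIntegral.integral_const, smul_eq_mul]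
    ring
  rw [hfun]
  refine hsum.congr_deriv ?_
  ring

theorem lip_F {b m : ℝ} (hm : 0 ≤ m) (hmb : m < b) {Q Qt : ℝ → ℝ → ℝ}
    (hQt : ∀ θ r, |r| < b → HasDerivAt (fun θ => Q θ r) (Qt θ r) θ)
    (hQc : ContinuousOn (fun p : ℝ × ℝ => Q p.1 p.2) {p | |p.2| < b})
    (hQtc : ContinuousOn (fun p : ℝ × ℝ => Qt p.1 p.2) {p | |p.2| < b})
    {g : ℝ → ℝ} (hg : ∀ θ, |g θ| ≤ m) {K : ℝ≥0} (hgl : LipschitzWith K g) (a c : ℝ) :
    ∃ C : ℝ≥0, LipschitzOnWith C (fun θ => ∫ u in (0:ℝ)..(g θ), Q θ u) (uIcc a c) := by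
  have h0 : |(0:ℝ)| ≤ m := by simpa using hm
  have hsub : (uIcc a c) ×ˢ (Icc (-m) m) ⊆ {p : ℝ × ℝ | |p.2| < b} := by
    rintro ⟨x, y⟩ ⟨_, hy⟩
    exact lt_of_le_of_lt (abs_le.2 ⟨hy.1, hy.2⟩) hmb
  obtain ⟨L, hL⟩ := (isCompact_uIcc.prod isCompact_Icc).exists_bound_of_continuousOn
    (s := (uIcc a c) ×ˢ (Icc (-m) m)) (f := fun p : ℝ × ℝ => Qt p.1 p.2) (hQtc.mono hsub)
  obtain ⟨M, hM⟩ := (isCompact_uIcc.prod isCompact_Icc).exists_bound_of_continuousOn
    (s := (uIcc a c) ×ˢ (Icc (-m) m)) (f := fun p : ℝ × ℝ => Q p.1 p.2) (hQc.mono hsub)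
  have hML : 0 ≤ M := le_trans (norm_nonneg _) (hM (a, 0) ⟨left_mem_uIcc, abs_le.1 h0⟩)
  have hLL : 0 ≤ L := le_trans (norm_nonneg _) (hL (a, 0) ⟨left_mem_uIcc, abs_le.1 h0⟩)
  refine ⟨Real.toNNReal (M * K + L * m), ?_⟩
  apply LipschitzOnWith.of_dist_le_mul
  intro x hx y hy
  rw [Real.coe_toNNReal _ (by positivity), Real.dist_eq, Real.dist_eq]
  have hlip : |g x - g y| ≤ K * |x - y| := by
    have := hgl.dist_le_mul x y
    simpa [Real.dist_eq] using this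
  have hsplit : (∫ u in (0:ℝ)..(g x), Q x u) - (∫ u in (0:ℝ)..(g y), Q y u) =
      (∫ u in (g y)..(g x), Q x u) + ∫ u in (0:ℝ)..(g y), (Q x u - Q y u) := by
    rw [intervalIntegral.integral_sub (int_slice hmb hQc x h0 (hg y))
      (int_slice hmb hQc y h0 (hg y)),
      ← intervalIntegral.integral_add_adjacent_intervals
      (int_slice hmb hQc x h0 (hg y)) (int_slice hmb hQc x (hg y) (hg x))]
    ring
  rw [hsplit]
  have h1 : ‖∫ u in (g y)..(g x), Q x u‖ ≤ M * |g x - g y| := by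
    apply intervalIntegral.norm_integral_le_of_norm_le_const
    intro u hu
    have hum : |u| ≤ m := abs_le_of_uIcc' (hg y) (hg x) (uIoc_subset_uIcc hu)
    exact hM (x, u) ⟨hx, abs_le.1 hum⟩
  have h2 : ‖∫ u in (0:ℝ)..(g y), (Q x u - Q y u)‖ ≤ (L * |x - y|) * |g y - 0| := by
    apply intervalIntegral.norm_integral_le_of_norm_le_const
    intro u hu
    have hum : |u| ≤ m := abs_le_of_uIcc (hg y) (uIoc_subset_uIcc hu)
    have h3 := Convex.norm_image_sub_le_of_norm_hasDerivWithin_le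
      (f := fun θ => Q θ u) (f' := fun θ => Qt θ u) (s := uIcc a c) (C := L)
      (fun z _ => (hQt z u (lt_of_le_of_lt hum hmb)).hasDerivWithinAt)
      (fun z hz => hL (z, u) ⟨hz, abs_le.1 hum⟩) (convex_uIcc a c) hy hx
    rw [Real.norm_eq_abs (x - y)] at h3
    exact h3
  rw [Real.norm_eq_abs] at h1 h2
  calc |(∫ u in (g y)..(g x), Q x u) + ∫ u in (0:ℝ)..(g y), (Q x u - Q y u)|
      ≤ |∫ u in (g y)..(g x), Q x u| + |∫ u in (0:ℝ)..(g y), (Q x u - Q y u)| := abs_add_le _ _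
    _ ≤ M * (K * |x - y|) + (L * |x - y|) * m := by
        refine add_le_add (h1.trans ?_) (h2.trans ?_)
        · gcongr
        · rw [sub_zero]; gcongr; exact hg y
    _ = (M * K + L * m) * |x - y| := by ring

/-- **Stokes for a Lipschitz graph over an interval** -/
theorem stokes {b m : ℝ} (hm : 0 ≤ m) (hmb : m < b) {P Pr Q Qt : ℝ → ℝ → ℝ}
    (hPr : ∀ θ r, |r| < b → HasDerivAt (fun r => P θ r) (Pr θ r) r)
    (hPrc : ContinuousOn (fun p : ℝ × ℝ => Pr p.1 p.2) {p | |p.2| < b})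
    (hPc : ContinuousOn (fun p : ℝ × ℝ => P p.1 p.2) {p | |p.2| < b})
    (hQt : ∀ θ r, |r| < b → HasDerivAt (fun θ => Q θ r) (Qt θ r) θ)
    (hQc : ContinuousOn (fun p : ℝ × ℝ => Q p.1 p.2) {p | |p.2| < b})
    (hQtc : ContinuousOn (fun p : ℝ × ℝ => Qt p.1 p.2) {p | |p.2| < b})
    {g : ℝ → ℝ} (hg : ∀ θ, |g θ| ≤ m) {K : ℝ≥0} (hgl : LipschitzWith K g)
    {a c : ℝ} (hgp : g c = g a) (hQp : ∀ r, |r| ≤ m → Q c r = Q a r) :
    ∫ θ in a..c, (P θ (g θ) + Q θ (g θ) * deriv g θ) =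
      ∫ θ in a..c, (P θ 0 + ∫ u in (0:ℝ)..(g θ), (Pr θ u - Qt θ u)) := by
  have h0 : |(0:ℝ)| ≤ m := by simpa using hm
  obtain ⟨C, hC⟩ := lip_F hm hmb hQt hQc hQtc hg hgl a c
  have hAC := hC.absolutelyContinuousOnInterval
  have hFTC := hAC.integral_deriv_eq_sub
  have hper : (∫ u in (0:ℝ)..(g c), Q c u) = ∫ u in (0:ℝ)..(g a), Q a u := by
    rw [hgp]
    apply intervalIntegral.integral_congr
    intro u hu
    exact hQp u (abs_le_of_uIcc (hg a) hu)
  rw [hper, sub_self] at hFTC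
  have hgAC : AbsolutelyContinuousOnInterval g a c :=
    (hgl.lipschitzOnWith (s := uIcc a c)).absolutelyContinuousOnInterval
  have hgc : Continuous g := hgl.continuous
  -- a.e. value of the derivative
  have hae : ∀ᵐ θ ∂volume, θ ∈ uIoc a c →
      deriv (fun θ => ∫ u in (0:ℝ)..(g θ), Q θ u) θ =
        Q θ (g θ) * deriv g θ + ∫ u in (0:ℝ)..(g θ), Qt θ u := by
    filter_upwards [hgAC.ae_differentiableAt] with θ hθ hθ'
    have hd := (hθ (uIoc_subset_uIcc hθ')).hasDerivAt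
    rw [(hasDerivAt_F hm hmb hQt hQc hQtc hg hgl hd).deriv]
    ring
  rw [intervalIntegral.integral_congr_ae hae] at hFTC
  -- integrability
  have hcomp : ∀ {R : ℝ → ℝ → ℝ}, ContinuousOn (fun p : ℝ × ℝ => R p.1 p.2) {p | |p.2| < b} →
      Continuous (fun θ => R θ (g θ)) := by
    intro R hR
    have h1 : Continuous (fun θ : ℝ => ((θ, g θ) : ℝ × ℝ)) := by fun_prop
    exact hR.comp_continuous h1 (fun θ => lt_of_le_of_lt (hg θ) hmb)
  have hI1 : IntervalIntegrable (fun θ => Q θ (g θ) * deriv g θ) volume a c :=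
    hgAC.intervalIntegrable_deriv.continuousOn_mul (hcomp hQc).continuousOn
  have hI2 : IntervalIntegrable (fun θ => ∫ u in (0:ℝ)..(g θ), Qt θ u) volume a c :=
    (int_cont hm hmb hQtc hg hgc).intervalIntegrable _ _
  have hI3 : IntervalIntegrable (fun θ => P θ (g θ)) volume a c :=
    (hcomp hPc).intervalIntegrable _ _
  have hI4 : IntervalIntegrable (fun θ => ∫ u in (0:ℝ)..(g θ), Pr θ u) volume a c :=
    (int_cont hm hmb hPrc hg hgc).intervalIntegrable _ _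
  have hP0 : Continuous (fun θ => P θ 0) := by
    have h1 : Continuous (fun θ : ℝ => ((θ, 0) : ℝ × ℝ)) := by fun_prop
    exact hPc.comp_continuous h1 (fun θ => lt_of_le_of_lt h0 hmb)
  rw [intervalIntegral.integral_add hI1 hI2] at hFTC
  rw [intervalIntegral.integral_add hI3 hI1]
  have hPP : ∀ θ, P θ (g θ) = P θ 0 + ∫ u in (0:ℝ)..(g θ), Pr θ u := by
    intro θ
    rw [intervalIntegral.integral_eq_sub_of_hasDerivAt
      (f := fun r => P θ r) (f' := fun r => Pr θ r)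
      (fun u hu => hPr θ u (lt_of_le_of_lt (abs_le_of_uIcc (hg θ) hu) hmb))
      (int_slice hmb hPrc θ h0 (hg θ))]
    ring
  have e1 : ∫ θ in a..c, P θ (g θ) = (∫ θ in a..c, P θ 0) +
      ∫ θ in a..c, ∫ u in (0:ℝ)..(g θ), Pr θ u := by
    rw [← intervalIntegral.integral_add (hP0.intervalIntegrable _ _) hI4]
    apply intervalIntegral.integral_congr
    intro θ _
    exact hPP θ
  have e2 : ∫ θ in a..c, (P θ 0 + ∫ u in (0:ℝ)..(g θ), (Pr θ u - Qt θ u)) =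
      (∫ θ in a..c, P θ 0) + ((∫ θ in a..c, ∫ u in (0:ℝ)..(g θ), Pr θ u) -
        ∫ θ in a..c, ∫ u in (0:ℝ)..(g θ), Qt θ u) := by
    rw [← intervalIntegral.integral_sub hI4 hI2, ← intervalIntegral.integral_add
      (hP0.intervalIntegrable _ _) (hI4.sub hI2)]
    apply intervalIntegral.integral_congr
    intro θ _
    show P θ 0 + (∫ u in (0:ℝ)..(g θ), (Pr θ u - Qt θ u)) = _
    rw [intervalIntegral.integral_sub (int_slice hmb hPrc θ h0 (hg θ))
      (int_slice hmb hQtc θ h0 (hg θ))]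
  rw [e1, e2]
  linarith

end Pool.Agent.FPX.STI
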