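import Pool.Agent.FPX.STI

/-!
# The state integral formula in the frame of the state (helper88)

`Y = (s, 0)`, `c = √(1 - s²)`, `T = s / c`.  A state is described by a function `g` of the angle `θ`.
`Al s θ r` is the angle `α`, `De s θ r` is `δ = f - f^Y`, `RR s θ r = Δ = 1 + 2 s cos θ sin r + s² sin² r`.
-/

open MeasureTheory intervalIntegral Set Filter Topology Real
open scoped NNReal

namespace Pool.Agent.FPX.STI

noncomputable section

/-- `Δ` -/
def RR (s θ r : ℝ) : ℝ := 1 + 2 * s * cos θ * sin r + s ^ 2 * sin r ^ 2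

/-- `N²` -/
def DD (s θ r : ℝ) : ℝ := (sin r + s * cos θ) ^ 2 + (1 - s ^ 2) * cos r ^ 2

/-- `c` -/
def cc (s : ℝ) : ℝ := √(1 - s ^ 2)

/-- the angle `α` as a function of `(θ, r)` -/
def Al (s θ r : ℝ) : ℝ := θ - arctan (s * sin r * sin θ / (1 + s * sin r * cos θ))

/-- `∂α/∂θ` -/
def At (s θ r : ℝ) : ℝ := (1 + s * sin r * cos θ) / RR s θ r

/-- `∂α/∂r` -/
def Ar (s θ r : ℝ) : ℝ := -(s * sin θ * cos r) / RR s θ r

/-- `∂²α/∂θ∂r` -/
def Ab (s θ r : ℝ) : ℝ :=
  -(s * cos r * (cos θ * RR s θ r + 2 * s * sin r * sin θ ^ 2)) / RR s θ r ^ 2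

/-- the value `f` as a function of `(θ, r)` -/
def ff (s θ r : ℝ) : ℝ := arctan ((sin r + s * cos θ) / (cc s * cos r))

/-- `∂f/∂r` -/
def fr (s θ r : ℝ) : ℝ := cc s * (1 + s * sin r * cos θ) / DD s θ r

/-- `∂f/∂θ` -/
def ft (s θ r : ℝ) : ℝ := -(cc s * (s * sin θ * cos r)) / DD s θ r

/-- `δ = f - f^Y` as a function of `(θ, r)` -/
def De (s θ r : ℝ) : ℝ := ff s θ r - arctan (s / cc s * cos (Al s θ r))

variable {s : ℝ}

theorem abs_lt_hM (hs : |s| < 1) (θ r : ℝ) : |s * sin r * cos θ| < 1 := by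
  rw [abs_mul, abs_mul]
  have h1 := abs_sin_le_one r
  have h2 := abs_cos_le_one θ
  have h3 := abs_nonneg (sin r)
  have h4 := abs_nonneg (cos θ)
  have h5 := abs_nonneg s
  have h6 : |s| * |sin r| ≤ |s| * 1 := by gcongr
  have h7 : |s| * |sin r| * |cos θ| ≤ |s| * |sin r| * 1 := by gcongr
  linarith

theorem hM (hs : |s| < 1) (θ r : ℝ) : 0 < 1 + s * sin r * cos θ := by
  have := (abs_lt.1 (abs_lt_hM hs θ r)).1
  linarith

theorem RR_eq (s θ r : ℝ) : RR s θ r = (1 + s * sin r * cos θ) ^ 2 + (s * sin r * sin θ) ^ 2 := by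
  unfold RR
  linear_combination (s ^ 2 * sin r ^ 2) * (-(sin_sq_add_cos_sq θ))

theorem RR_pos (hs : |s| < 1) (θ r : ℝ) : 0 < RR s θ r := by
  rw [RR_eq]
  have := hM hs θ r
  positivity

theorem sq_lt (hs : |s| < 1) : 0 < 1 - s ^ 2 := by
  have := (sq_lt_one_iff_abs_lt_one s).2 hs
  linarith

theorem cc_pos (hs : |s| < 1) : 0 < cc s := sqrt_pos.2 (sq_lt hs)

theorem cc_sq (hs : |s| < 1) : cc s ^ 2 = 1 - s ^ 2 := sq_sqrt (sq_lt hs).le

theorem DD_eq1 (s θ r : ℝ) : DD s θ r = (cos θ + s * sin r) ^ 2 + (1 - s ^ 2) * sin θ ^ 2 := by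
  unfold DD
  linear_combination (1 - s ^ 2) * (sin_sq_add_cos_sq r) - (1 - s ^ 2) * (sin_sq_add_cos_sq θ)

theorem DD_eq2 (s θ r : ℝ) :
    DD s θ r = (1 + s * sin r * cos θ) ^ 2 - s ^ 2 * sin θ ^ 2 * cos r ^ 2 := by
  have h1 := cos_sq_add_sin_sq r
  have h2 := sin_sq_add_cos_sq θ
  unfold DD
  have h3 : cos r ^ 2 = 1 - sin r ^ 2 := by linarith
  have h4 : sin θ ^ 2 = 1 - cos θ ^ 2 := by linarith
  rw [h3, h4]; ring

theorem DD_pos (hs : |s| < 1) {θ r : ℝ} (hr : |r| < π / 2) : 0 < DD s θ r := by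
  have h1 : 0 < cos r := cos_pos_of_mem_Ioo (abs_lt.1 hr)
  have := sq_lt hs
  unfold DD
  positivity

theorem atan_div {N M : ℝ → ℝ} {N' M' x : ℝ} (hN : HasDerivAt N N' x) (hM : HasDerivAt M M' x)
    (h0 : M x ≠ 0) :
    HasDerivAt (fun x => arctan (N x / M x)) ((N' * M x - N x * M') / (M x ^ 2 + N x ^ 2)) x := by
  have h3 := (hN.fun_div hM h0).arctan
  refine h3.congr_deriv ?_
  have h4 : 0 < M x ^ 2 + N x ^ 2 := by positivity
  have h5 : 0 < M x ^ 2 := by positivity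
  have h6 : 1 + (N x / M x) ^ 2 = (M x ^ 2 + N x ^ 2) / M x ^ 2 := by
    field_simp
  rw [h6]
  field_simp

theorem Al_t (hs : |s| < 1) (θ r : ℝ) : HasDerivAt (fun θ => Al s θ r) (At s θ r) θ := by
  have hm := hM hs θ r
  have hR := RR_pos hs θ r
  have h1 : HasDerivAt (fun θ => s * sin r * sin θ) (s * sin r * cos θ) θ :=
    (hasDerivAt_sin θ).const_mul _
  have h2 : HasDerivAt (fun θ => 1 + s * sin r * cos θ) (s * sin r * -sin θ) θ :=
    ((hasDerivAt_cos θ).const_mul _).const_add _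
  have h4 := (hasDerivAt_id θ).fun_sub (atan_div h1 h2 hm.ne')
  refine (h4.congr_deriv ?_)
  unfold At
  rw [← RR_eq, eq_div_iff hR.ne', sub_mul, div_mul_cancel₀ _ hR.ne']
  unfold RR
  linear_combination -(s ^ 2 * sin r ^ 2) * (sin_sq_add_cos_sq θ)

theorem Al_r (hs : |s| < 1) (θ r : ℝ) : HasDerivAt (fun r => Al s θ r) (Ar s θ r) r := by
  have hm := hM hs θ r
  have hR := RR_pos hs θ r
  have h1 : HasDerivAt (fun r => s * sin r * sin θ) (s * cos r * sin θ) r :=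
    ((hasDerivAt_sin r).const_mul _).mul_const _
  have h2 : HasDerivAt (fun r => 1 + s * sin r * cos θ) (s * cos r * cos θ) r :=
    (((hasDerivAt_sin r).const_mul _).mul_const _).const_add _
  have h4 := (atan_div h1 h2 hm.ne').const_sub θ
  refine (h4.congr_deriv ?_)
  unfold Ar
  rw [← RR_eq, ← neg_div]
  congr 1
  ring

theorem cos_Al (hs : |s| < 1) (θ r : ℝ) : cos (Al s θ r) = (cos θ + s * sin r) / √(RR s θ r) := by
  have hm := hM hs θ r
  have hR := RR_pos hs θ r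
  unfold Al
  rw [cos_sub, cos_arctan, sin_arctan]
  have h6 : 1 + (s * sin r * sin θ / (1 + s * sin r * cos θ)) ^ 2 =
      RR s θ r / (1 + s * sin r * cos θ) ^ 2 := by
    rw [RR_eq]; field_simp
  rw [h6, sqrt_div' _ (by positivity), sqrt_sq hm.le, one_div_div, div_div_div_cancel_right₀ hm.ne',
    mul_div_assoc', mul_div_assoc', ← add_div]
  congr 1
  linear_combination (s * sin r) * (sin_sq_add_cos_sq θ)

theorem sin_Al (hs : |s| < 1) (θ r : ℝ) : sin (Al s θ r) = sin θ / √(RR s θ r) := by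
  have hm := hM hs θ r
  have hR := RR_pos hs θ r
  unfold Al
  rw [sin_sub, cos_arctan, sin_arctan]
  have h6 : 1 + (s * sin r * sin θ / (1 + s * sin r * cos θ)) ^ 2 =
      RR s θ r / (1 + s * sin r * cos θ) ^ 2 := by
    rw [RR_eq]; field_simp
  rw [h6, sqrt_div' _ (by positivity), sqrt_sq hm.le]
  have h7 : 0 < √(RR s θ r) := sqrt_pos.2 hR
  field_simp
  ring

theorem RR_t (s θ r : ℝ) : HasDerivAt (fun θ => RR s θ r) (-(2 * s * sin θ * sin r)) θ := by
  have h := ((((hasDerivAt_cos θ).const_mul (2 * s)).mul_const (sin r)).const_add 1).add_const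
    (s ^ 2 * sin r ^ 2)
  refine h.congr_deriv ?_
  ring

theorem RR_r (s θ r : ℝ) :
    HasDerivAt (fun r => RR s θ r) (2 * s * cos θ * cos r + 2 * s ^ 2 * sin r * cos r) r := by
  have h := (((hasDerivAt_sin r).const_mul (2 * s * cos θ)).const_add 1).add
    (((hasDerivAt_sin r).pow 2).const_mul (s ^ 2))
  refine h.congr_deriv ?_
  push_cast
  ring

theorem At_r (hs : |s| < 1) (θ r : ℝ) : HasDerivAt (fun r => At s θ r) (Ab s θ r) r := by
  have hR := RR_pos hs θ r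
  have h2 : HasDerivAt (fun r => 1 + s * sin r * cos θ) (s * cos r * cos θ) r :=
    (((hasDerivAt_sin r).const_mul _).mul_const _).const_add _
  refine (h2.fun_div (RR_r s θ r) hR.ne').congr_deriv ?_
  unfold Ab
  congr 1
  unfold RR
  have e1 : sin θ ^ 2 = 1 - cos θ ^ 2 := by linarith [sin_sq_add_cos_sq θ]
  rw [e1]
  ring

theorem Ar_t (hs : |s| < 1) (θ r : ℝ) : HasDerivAt (fun θ => Ar s θ r) (Ab s θ r) θ := by
  have hR := RR_pos hs θ r
  have h2 : HasDerivAt (fun θ => -(s * sin θ * cos r)) (-(s * cos θ * cos r)) θ :=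
    (((hasDerivAt_sin θ).const_mul _).mul_const _).neg
  refine (h2.fun_div (RR_t s θ r) hR.ne').congr_deriv ?_
  unfold Ab
  congr 1
  ring

theorem ff_r (hs : |s| < 1) (θ : ℝ) {r : ℝ} (hr : |r| < π / 2) :
    HasDerivAt (fun r => ff s θ r) (fr s θ r) r := by
  have hc : 0 < cos r := cos_pos_of_mem_Ioo (abs_lt.1 hr)
  have hcc := cc_pos hs
  have h1 : HasDerivAt (fun r => sin r + s * cos θ) (cos r) r := (hasDerivAt_sin r).add_const _
  have h2 : HasDerivAt (fun r => cc s * cos r) (cc s * -sin r) r := (hasDerivAt_cos r).const_mul _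
  refine (atan_div h1 h2 (by positivity)).congr_deriv ?_
  unfold fr DD
  rw [mul_pow, cc_sq hs, add_comm ((1 - s ^ 2) * cos r ^ 2)]
  congr 1
  linear_combination (cc s) * (sin_sq_add_cos_sq r)

theorem ff_t (hs : |s| < 1) (θ : ℝ) {r : ℝ} (hr : |r| < π / 2) :
    HasDerivAt (fun θ => ff s θ r) (ft s θ r) θ := by
  have hc : 0 < cos r := cos_pos_of_mem_Ioo (abs_lt.1 hr)
  have hcc := cc_pos hs
  have h1 : HasDerivAt (fun θ => sin r + s * cos θ) (s * -sin θ) θ :=
    ((hasDerivAt_cos θ).const_mul _).const_add _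
  have h2 : HasDerivAt (fun _ : ℝ => cc s * cos r) 0 θ := hasDerivAt_const _ _
  refine (atan_div h1 h2 (by positivity)).congr_deriv ?_
  unfold ft DD
  rw [mul_pow, cc_sq hs, add_comm ((1 - s ^ 2) * cos r ^ 2)]
  congr 1
  ring

/-- derivative of `arctan (T cos a)` -/
def fy' (s a : ℝ) : ℝ := -(s / cc s * sin a) / (1 + (s / cc s * cos a) ^ 2)

theorem hasDerivAt_fy (s a : ℝ) :
    HasDerivAt (fun a => arctan (s / cc s * cos a)) (fy' s a) a := by
  have h := ((hasDerivAt_cos a).const_mul (s / cc s)).arctan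
  refine h.congr_deriv ?_
  unfold fy'
  ring

/-- `∂δ/∂r` -/
def Dr (s θ r : ℝ) : ℝ := fr s θ r - fy' s (Al s θ r) * Ar s θ r

/-- `∂δ/∂θ` -/
def Dt (s θ r : ℝ) : ℝ := ft s θ r - fy' s (Al s θ r) * At s θ r

theorem De_r (hs : |s| < 1) (θ : ℝ) {r : ℝ} (hr : |r| < π / 2) :
    HasDerivAt (fun r => De s θ r) (Dr s θ r) r := by
  have h := (hasDerivAt_fy s (Al s θ r)).comp r (Al_r hs θ r)
  exact (ff_r hs θ hr).fun_sub h

theorem De_t (hs : |s| < 1) (θ : ℝ) {r : ℝ} (hr : |r| < π / 2) :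
    HasDerivAt (fun θ => De s θ r) (Dt s θ r) θ := by
  have h := (hasDerivAt_fy s (Al s θ r)).comp θ (Al_t hs θ r)
  exact (ff_t hs θ hr).fun_sub h

/-- **the Jacobian**: `dδ ∧ dα = (c / Δ) dr ∧ dθ` -/
theorem jac (hs : |s| < 1) (θ : ℝ) {r : ℝ} (hr : |r| < π / 2) :
    Dr s θ r * At s θ r - Dt s θ r * Ar s θ r = cc s / RR s θ r := by
  have hR := RR_pos hs θ r
  have hD := DD_pos hs (θ := θ) hr
  have hcc := cc_pos hs
  have h1 : Dr s θ r * At s θ r - Dt s θ r * Ar s θ r =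
      fr s θ r * At s θ r - ft s θ r * Ar s θ r := by
    unfold Dr Dt; ring
  rw [h1]
  unfold fr ft At Ar
  have h2 : cc s * (1 + s * sin r * cos θ) / DD s θ r * ((1 + s * sin r * cos θ) / RR s θ r) -
      -(cc s * (s * sin θ * cos r)) / DD s θ r * (-(s * sin θ * cos r) / RR s θ r) =
      cc s * DD s θ r / (DD s θ r * RR s θ r) := by
    rw [div_mul_div_comm, div_mul_div_comm, ← sub_div]
    congr 1
    rw [DD_eq2]; ring
  rw [h2]
  field_simp

/-! ### continuity -/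

theorem cont_RR (s : ℝ) : Continuous (fun p : ℝ × ℝ => RR s p.1 p.2) := by
  unfold RR; fun_prop

theorem cont_Al (hs : |s| < 1) : Continuous (fun p : ℝ × ℝ => Al s p.1 p.2) := by
  unfold Al
  refine continuous_fst.sub (continuous_arctan.comp ?_)
  exact Continuous.div (by fun_prop) (by fun_prop) (fun p => (hM hs p.1 p.2).ne')

theorem cont_At (hs : |s| < 1) : Continuous (fun p : ℝ × ℝ => At s p.1 p.2) := by
  unfold At
  exact Continuous.div (by fun_prop) (cont_RR s) (fun p => (RR_pos hs p.1 p.2).ne')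

theorem cont_Ar (hs : |s| < 1) : Continuous (fun p : ℝ × ℝ => Ar s p.1 p.2) := by
  unfold Ar
  exact Continuous.div (by fun_prop) (cont_RR s) (fun p => (RR_pos hs p.1 p.2).ne')

theorem cont_Ab (hs : |s| < 1) : Continuous (fun p : ℝ × ℝ => Ab s p.1 p.2) := by
  have h := cont_RR s
  unfold Ab
  exact Continuous.div (by fun_prop) (h.pow 2) (fun p => (pow_pos (RR_pos hs p.1 p.2) 2).ne')

theorem cos_pos_strip {p : ℝ × ℝ} (hp : p ∈ {p : ℝ × ℝ | |p.2| < π / 2}) : 0 < cos p.2 :=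
  cos_pos_of_mem_Ioo (abs_lt.1 hp)

theorem cont_ff (hs : |s| < 1) :
    ContinuousOn (fun p : ℝ × ℝ => ff s p.1 p.2) {p | |p.2| < π / 2} := by
  have hcc := cc_pos hs
  unfold ff
  refine continuous_arctan.comp_continuousOn ?_
  exact ContinuousOn.div (by fun_prop) (by fun_prop)
    (fun p hp => (mul_pos hcc (cos_pos_strip hp)).ne')

theorem cont_fr (hs : |s| < 1) :
    ContinuousOn (fun p : ℝ × ℝ => fr s p.1 p.2) {p | |p.2| < π / 2} := by
  unfold fr
  refine ContinuousOn.div (by fun_prop) ?_ (fun p hp => (DD_pos hs hp).ne')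
  unfold DD; fun_prop

theorem cont_ft (hs : |s| < 1) :
    ContinuousOn (fun p : ℝ × ℝ => ft s p.1 p.2) {p | |p.2| < π / 2} := by
  unfold ft
  refine ContinuousOn.div (by fun_prop) ?_ (fun p hp => (DD_pos hs hp).ne')
  unfold DD; fun_prop

theorem cont_fy' (s : ℝ) : Continuous (fy' s) := by
  unfold fy'
  exact Continuous.div (by fun_prop) (by fun_prop) (fun p => by positivity)

theorem cont_De (hs : |s| < 1) :
    ContinuousOn (fun p : ℝ × ℝ => De s p.1 p.2) {p | |p.2| < π / 2} := by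
  unfold De
  refine (cont_ff hs).sub ?_
  exact (continuous_arctan.comp (continuous_const.mul
    (continuous_cos.comp (cont_Al hs)))).continuousOn

theorem cont_Dr (hs : |s| < 1) :
    ContinuousOn (fun p : ℝ × ℝ => Dr s p.1 p.2) {p | |p.2| < π / 2} := by
  unfold Dr
  refine (cont_fr hs).sub ?_
  exact (((cont_fy' s).comp (cont_Al hs)).mul (cont_Ar hs)).continuousOn

theorem cont_Dt (hs : |s| < 1) :
    ContinuousOn (fun p : ℝ × ℝ => Dt s p.1 p.2) {p | |p.2| < π / 2} := by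
  unfold Dt
  refine (cont_ft hs).sub ?_
  exact (((cont_fy' s).comp (cont_Al hs)).mul (cont_At hs)).continuousOn

/-! ### the chain rule for a test function `K (δ, α)` -/

theorem chain {K : ℝ × ℝ → ℝ} (hK : ContDiff ℝ 1 K) {x a : ℝ → ℝ} {x' a' t : ℝ}
    (hx : HasDerivAt x x' t) (ha : HasDerivAt a a' t) :
    HasDerivAt (fun t => K (x t, a t))
      (fderiv ℝ K (x t, a t) (1, 0) * x' + fderiv ℝ K (x t, a t) (0, 1) * a') t := by
  have h1 : HasFDerivAt K (fderiv ℝ K (x t, a t)) (x t, a t) :=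
    ((hK.differentiable one_ne_zero) _).hasFDerivAt
  have h2 := h1.comp_hasDerivAt t (hx.prodMk ha)
  refine h2.congr_deriv ?_
  have h3 : ((x', a') : ℝ × ℝ) = x' • ((1, 0) : ℝ × ℝ) + a' • ((0, 1) : ℝ × ℝ) := by
    ext <;> simp
  rw [h3, map_add, map_smul, map_smul, smul_eq_mul, smul_eq_mul]
  ring

theorem RR_zero (s θ : ℝ) : RR s θ 0 = 1 := by unfold RR; simp

theorem Al_zero (s θ : ℝ) : Al s θ 0 = θ := by unfold Al; simp

theorem At_zero (s θ : ℝ) : At s θ 0 = 1 := by unfold At; rw [RR_zero]; simp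

theorem De_zero (s θ : ℝ) : De s θ 0 = 0 := by
  unfold De ff
  rw [Al_zero]
  simp only [sin_zero, cos_zero, zero_add, mul_one]
  have h : s * cos θ / cc s = s / cc s * cos θ := by ring
  rw [h, sub_self]

theorem Al_period (s θ r : ℝ) : Al s (θ + 2 * π) r = Al s θ r + 2 * π := by
  unfold Al
  rw [sin_add_two_pi, cos_add_two_pi]; ring

theorem At_period (s θ r : ℝ) : At s (θ + 2 * π) r = At s θ r := by
  unfold At RR
  rw [cos_add_two_pi]

theorem Ar_period (s θ r : ℝ) : Ar s (θ + 2 * π) r = Ar s θ r := by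
  unfold Ar RR
  rw [cos_add_two_pi, sin_add_two_pi]

theorem De_period (s θ r : ℝ) : De s (θ + 2 * π) r = De s θ r := by
  unfold De ff
  rw [Al_period, cos_add_two_pi, cos_add_two_pi]

/-- **The state integral formula in the frame `(θ, g)`**: for every `C¹` function `K (δ, α)`,
`2π`-periodic in `α`, `∮ K dα = ∮ (K (0, θ) + ∫₀^g K_δ (δ, α) (c / Δ) dr) dθ` along the graph of `g`. -/
theorem frame_stokes (hs : |s| < 1) {K : ℝ × ℝ → ℝ} (hK : ContDiff ℝ 1 K)
    (hKp : ∀ x a, K (x, a + 2 * π) = K (x, a))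
    {m : ℝ} (hm : 0 ≤ m) (hmb : m < π / 2) {g : ℝ → ℝ} (hg : ∀ θ, |g θ| ≤ m) {L : ℝ≥0}
    (hgl : LipschitzWith L g) (hgp : ∀ θ, g (θ + 2 * π) = g θ) (a : ℝ) :
    ∫ θ in a..(a + 2 * π), K (De s θ (g θ), Al s θ (g θ)) *
        (At s θ (g θ) + Ar s θ (g θ) * deriv g θ) =
      ∫ θ in a..(a + 2 * π), (K (0, θ) +
        ∫ r in (0:ℝ)..(g θ), fderiv ℝ K (De s θ r, Al s θ r) (1, 0) * (cc s / RR s θ r)) := by
  have hKc := hK.continuous
  have hKd : Continuous (fderiv ℝ K) := hK.continuous_fderiv one_ne_zero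
  have hxa : ContinuousOn (fun p : ℝ × ℝ => ((De s p.1 p.2, Al s p.1 p.2) : ℝ × ℝ))
      {p | |p.2| < π / 2} := (cont_De hs).prodMk (cont_Al hs).continuousOn
  have hcK : ContinuousOn (fun p : ℝ × ℝ => K (De s p.1 p.2, Al s p.1 p.2)) {p | |p.2| < π / 2} :=
    hKc.comp_continuousOn hxa
  have hcx : ContinuousOn (fun p : ℝ × ℝ => fderiv ℝ K (De s p.1 p.2, Al s p.1 p.2) (1, 0))
      {p | |p.2| < π / 2} :=
    (hKd.clm_apply continuous_const).comp_continuousOn hxa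
  have hca : ContinuousOn (fun p : ℝ × ℝ => fderiv ℝ K (De s p.1 p.2, Al s p.1 p.2) (0, 1))
      {p | |p.2| < π / 2} :=
    (hKd.clm_apply continuous_const).comp_continuousOn hxa
  have hAt := (cont_At hs).continuousOn (s := {p : ℝ × ℝ | |p.2| < π / 2})
  have hAr := (cont_Ar hs).continuousOn (s := {p : ℝ × ℝ | |p.2| < π / 2})
  have hAb := (cont_Ab hs).continuousOn (s := {p : ℝ × ℝ | |p.2| < π / 2})
  have hDr := cont_Dr hs
  have hDt := cont_Dt hs
  have key := stokes (b := π / 2) hm hmb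
    (P := fun θ r => K (De s θ r, Al s θ r) * At s θ r)
    (Pr := fun θ r => (fderiv ℝ K (De s θ r, Al s θ r) (1, 0) * Dr s θ r +
      fderiv ℝ K (De s θ r, Al s θ r) (0, 1) * Ar s θ r) * At s θ r +
      K (De s θ r, Al s θ r) * Ab s θ r)
    (Q := fun θ r => K (De s θ r, Al s θ r) * Ar s θ r)
    (Qt := fun θ r => (fderiv ℝ K (De s θ r, Al s θ r) (1, 0) * Dt s θ r +
      fderiv ℝ K (De s θ r, Al s θ r) (0, 1) * At s θ r) * Ar s θ r +
      K (De s θ r, Al s θ r) * Ab s θ r)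
    (fun θ r hr => (chain hK (De_r hs θ hr) (Al_r hs θ r)).mul (At_r hs θ r))
    (((hcx.mul hDr).add (hca.mul hAr)).mul hAt |>.add (hcK.mul hAb))
    (hcK.mul hAt)
    (fun θ r hr => (chain hK (De_t hs θ hr) (Al_t hs θ r)).mul (Ar_t hs θ r))
    (hcK.mul hAr)
    (((hcx.mul hDt).add (hca.mul hAt)).mul hAr |>.add (hcK.mul hAb))
    hg hgl (a := a) (c := a + 2 * π) (hgp a)
    (fun r _ => by
      show K (De s (a + 2 * π) r, Al s (a + 2 * π) r) * Ar s (a + 2 * π) r = _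
      rw [De_period, Al_period, Ar_period, hKp])
  have e1 : ∫ θ in a..(a + 2 * π), K (De s θ (g θ), Al s θ (g θ)) *
        (At s θ (g θ) + Ar s θ (g θ) * deriv g θ) =
      ∫ θ in a..(a + 2 * π), (K (De s θ (g θ), Al s θ (g θ)) * At s θ (g θ) +
        K (De s θ (g θ), Al s θ (g θ)) * Ar s θ (g θ) * deriv g θ) := by
    apply intervalIntegral.integral_congr
    intro θ _
    show K _ * (At s θ (g θ) + Ar s θ (g θ) * deriv g θ) = _
    ring
  rw [e1, key]
  apply intervalIntegral.integral_congr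
  intro θ _
  show K (De s θ 0, Al s θ 0) * At s θ 0 + _ = _
  rw [De_zero, Al_zero, At_zero, mul_one]
  congr 1
  apply intervalIntegral.integral_congr
  intro r hr
  have hrm : |r| < π / 2 := lt_of_le_of_lt (abs_le_of_uIcc (hg θ) hr) hmb
  show _ = fderiv ℝ K (De s θ r, Al s θ r) (1, 0) * (cc s / RR s θ r)
  rw [← jac hs θ hrm]
  ring

end

end Pool.Agent.FPX.STI
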