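import Pool.Agent.FPX.UMP1
import Pool.Agent.FPX.STA
import Pool.Agent.FPX.STJ

/-!
# The state integral formula (helper88, part 2 of helper50's STA)

`∫ K (δ, α) dα = ∫ (K (0, θ) + ∫₀^g K_δ (δ, α) (c / Δ) dr) dθ` for the boosted state `g` of `f`.
-/

open MeasureTheory intervalIntegral Set Filter Topology Real
open scoped NNReal
open Pool.Agent.FPX.UMP (Ef)
open Pool.Agent.FPX.F54 (CA SA AP W)
open Pool.Agent.FPX.STA (th gt ti gg R2)

namespace Pool.Agent.FPX.STK

noncomputable section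

section

variable {s : ℝ} (h0 : 0 ≤ s) (h1 : s < 1) {f : ℝ → ℝ}

theorem cc_eq (s : ℝ) : STI.cc s = F54.cc s := rfl

theorem RR_eq (s θ r : ℝ) : STI.RR s θ r = R2 s θ r := rfl

theorem Al_comp {s : ℝ} (hs : |s| < 1) {g : ℝ → ℝ} {g' θ : ℝ} (hg : HasDerivAt g g' θ) :
    HasDerivAt (fun θ => STI.Al s θ (g θ)) (STI.At s θ (g θ) + STI.Ar s θ (g θ) * g') θ := by
  have hm := STI.hM hs θ (g θ)
  have hR := STI.RR_pos hs θ (g θ)
  have h1 : HasDerivAt (fun θ => s * sin (g θ) * sin θ)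
      (s * (cos (g θ) * g') * sin θ + s * sin (g θ) * cos θ) θ :=
    (hg.sin.const_mul s).fun_mul (hasDerivAt_sin θ)
  have h2 : HasDerivAt (fun θ => 1 + s * sin (g θ) * cos θ)
      (s * (cos (g θ) * g') * cos θ + s * sin (g θ) * -sin θ) θ :=
    ((hg.sin.const_mul s).fun_mul (hasDerivAt_cos θ)).const_add _
  have h4 := (hasDerivAt_id θ).fun_sub (STI.atan_div h1 h2 hm.ne')
  refine (h4.congr_deriv ?_)
  unfold STI.At STI.Ar
  rw [← STI.RR_eq, div_mul_eq_mul_div, ← add_div, eq_div_iff hR.ne', sub_mul,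
    div_mul_cancel₀ _ hR.ne']
  unfold STI.RR
  linear_combination -(s ^ 2 * sin (g θ) ^ 2) * (sin_sq_add_cos_sq θ)

theorem fderiv_per {K : ℝ × ℝ → ℝ} (hKp : ∀ x a, K (x, a + 2 * π) = K (x, a)) (x a : ℝ) :
    fderiv ℝ K (x, a + 2 * π) = fderiv ℝ K (x, a) := by
  have h1 : (fun p : ℝ × ℝ => K (p + (0, 2 * π))) = K := by
    funext p
    have := hKp p.1 p.2
    simpa [Prod.add_def] using this
  have h2 := fderiv_comp_add_right (𝕜 := ℝ) (f := K) (x := (x, a)) (0, 2 * π)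
  rw [h1] at h2
  rw [h2]
  congr 1
  simp

include h0 h1

theorem abs_lt1 : |s| < 1 := by rw [abs_of_nonneg h0]; exact h1

theorem Ca_eq (θ r : ℝ) : STA.Ca s θ r = cos (STI.Al s θ r) := by
  rw [STI.cos_Al (abs_lt1 h0 h1)]; rfl

theorem Sa_eq (θ r : ℝ) : STA.Sa s θ r = sin (STI.Al s θ r) := by
  rw [STI.sin_Al (abs_lt1 h0 h1)]; rfl

theorem De_eq (θ r : ℝ) : STA.De s θ r = STI.De s θ r := by
  unfold STA.De STI.De STI.ff
  rw [Ca_eq h0 h1]
  rfl

theorem ti_lip (hf : Ef f) : LipschitzWith (Real.toNNReal ((1 + s) / F54.cc s)) (ti s f) := by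
  have hc := F54.cc_pos h0 h1
  refine LipschitzWith.of_dist_le_mul fun a b => ?_
  rw [Real.coe_toNNReal _ (by positivity)]
  have key : ∀ a b : ℝ, a ≤ b → |ti s f b - ti s f a| ≤ (1 + s) / F54.cc s * (b - a) := by
    intro a b hab
    have h2 : ti s f a ≤ ti s f b := by
      by_contra hcon
      push Not at hcon
      have := STA.th_strict h0 h1 hf hcon
      rw [STA.th_ti h0 h1 hf, STA.th_ti h0 h1 hf] at this
      linarith
    have h3 := STA.th_lower h0 h1 hf h2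
    rw [STA.th_ti h0 h1 hf, STA.th_ti h0 h1 hf] at h3
    rw [abs_of_nonneg (by linarith)]
    rw [div_mul_eq_mul_div, div_le_iff₀ (by linarith)] at h3
    rw [div_mul_eq_mul_div, le_div_iff₀ hc]
    linarith
  rcases le_total a b with hab | hab
  · rw [dist_comm (ti s f a), Real.dist_eq, dist_comm a, Real.dist_eq,
      abs_of_nonneg (by linarith : (0 : ℝ) ≤ b - a)]
    exact key a b hab
  · rw [Real.dist_eq, Real.dist_eq, abs_of_nonneg (by linarith : (0 : ℝ) ≤ a - b)]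
    exact key b a hab

/-- the value of the state in the two coordinates -/
theorem De_gg (hf : Ef f) (θ : ℝ) :
    f (ti s f θ) - arcsin (s * cos (ti s f θ)) = STI.De s θ (gg s f θ) := by
  rw [STA.De_eq h0 h1 hf, De_eq h0 h1, STA.th_ti h0 h1 hf]
  rfl

theorem cos_gg (hf : Ef f) (θ : ℝ) : CA s (ti s f θ) = cos (STI.Al s θ (gg s f θ)) := by
  rw [STA.CA_eq h0 h1 hf, Ca_eq h0 h1, STA.th_ti h0 h1 hf]
  rfl

theorem sin_gg (hf : Ef f) (θ : ℝ) : SA s (ti s f θ) = sin (STI.Al s θ (gg s f θ)) := by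
  rw [STA.SA_eq h0 h1 hf, Sa_eq h0 h1, STA.th_ti h0 h1 hf]
  rfl

/-- the density `dα`, in the two coordinates -/
theorem dens (hf : Ef f) {θ g' t' : ℝ} (hg : HasDerivAt (gg s f) g' θ)
    (ht : HasDerivAt (ti s f) t' θ) :
    AP s (ti s f θ) * t' =
      STI.At s θ (gg s f θ) + STI.Ar s θ (gg s f θ) * g' := by
  have hs := abs_lt1 h0 h1
  have hA := Al_comp hs hg
  have e1 : (fun θ => sin (STI.Al s θ (gg s f θ))) = fun θ => SA s (ti s f θ) := by
    funext θ; rw [sin_gg h0 h1 hf]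
  have e2 : (fun θ => cos (STI.Al s θ (gg s f θ))) = fun θ => CA s (ti s f θ) := by
    funext θ; rw [cos_gg h0 h1 hf]
  have d1 := hA.sin
  have d2 := hA.cos
  rw [e1] at d1
  rw [e2] at d2
  have d3 := (F54.dSA h0 h1 (ti s f θ)).comp θ ht
  have d4 := (F54.dCA h0 h1 (ti s f θ)).comp θ ht
  have u1 := d1.unique d3
  have u2 := d2.unique d4
  rw [cos_gg h0 h1 hf] at u1
  rw [sin_gg h0 h1 hf] at u2
  have h5 := sin_sq_add_cos_sq (STI.Al s θ (gg s f θ))
  linear_combination -(cos (STI.Al s θ (gg s f θ))) * u1 + (sin (STI.Al s θ (gg s f θ))) * u2 -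
    (AP s (ti s f θ) * t' - (STI.At s θ (gg s f θ) + STI.Ar s θ (gg s f θ) * g')) * h5

/-- **The state integral formula**, with a test function `K (δ, α)` -/
theorem int_lift (hf : Ef f) {K : ℝ × ℝ → ℝ} (hK : ContDiff ℝ 1 K)
    (hKp : ∀ x a, K (x, a + 2 * π) = K (x, a)) {k : ℝ → ℝ} (hk : Continuous k)
    (hkK : ∀ θ, k (ti s f θ) = K (STI.De s θ (gg s f θ), STI.Al s θ (gg s f θ))) :
    ∫ t in (0:ℝ)..(2 * π), k t * AP s t =
      ∫ θ in (0:ℝ)..(2 * π), (K (0, θ) + ∫ r in (0:ℝ)..(gg s f θ),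
        fderiv ℝ K (STI.De s θ r, STI.Al s θ r) (1, 0) * (F54.cc s / R2 s θ r)) := by
  have hs := abs_lt1 h0 h1
  have hg := STA.gg_Ef h0 h1 hf
  obtain ⟨m, hm, hmb, hgm⟩ := hg.exists_bd
  have hπ := pi_pos
  have hcont : Continuous (fun t => k t * AP s t) := hk.mul (F54.contAP h0 h1)
  set Φ : ℝ → ℝ := fun t => ∫ u in (0:ℝ)..t, k u * AP s u with hΦ
  have hΦd : ∀ t, HasDerivAt Φ (k t * AP s t) t := fun t =>
    intervalIntegral.integral_hasDerivAt_right (hcont.intervalIntegrable _ _)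
      (hcont.stronglyMeasurableAtFilter _ _) hcont.continuousAt
  set a := th s f 0 with ha
  have hth2 : th s f (2 * π) = a + 2 * π := by
    have e1 := STA.th_pi (s := s) hf 0
    have e2 := STA.th_pi (s := s) hf π
    rw [zero_add] at e1
    rw [show (2:ℝ) * π = π + π by ring, e2, e1]; ring
  have hta : ti s f a = 0 := STA.ti_th h0 h1 hf 0
  have htb : ti s f (a + 2 * π) = 2 * π := by rw [← hth2]; exact STA.ti_th h0 h1 hf _
  have htm : StrictMono (ti s f) := by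
    intro x y hxy
    by_contra hcon
    push Not at hcon
    have := (STA.th_strict h0 h1 hf).monotone hcon
    rw [STA.th_ti h0 h1 hf, STA.th_ti h0 h1 hf] at this
    linarith
  have hmaps : MapsTo (ti s f) (uIcc a (a + 2 * π)) (Icc 0 (2 * π)) := by
    intro θ hθ
    rw [uIcc_of_le (by linarith)] at hθ
    refine ⟨?_, ?_⟩
    · rw [← hta]; exact htm.monotone hθ.1
    · rw [← htb]; exact htm.monotone hθ.2
  obtain ⟨C, hC⟩ := (isCompact_Icc (a := (0:ℝ)) (b := 2 * π)).exists_bound_of_continuousOn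
    hcont.continuousOn
  have hC0 : 0 ≤ C := le_trans (norm_nonneg _) (hC 0 ⟨le_refl _, by positivity⟩)
  have hΦl : LipschitzOnWith C.toNNReal Φ (Icc 0 (2 * π)) := by
    apply Convex.lipschitzOnWith_of_nnnorm_hasDerivWithin_le (convex_Icc _ _)
      (fun t _ => (hΦd t).hasDerivWithinAt)
    intro t ht
    rw [← NNReal.coe_le_coe, coe_nnnorm, Real.coe_toNNReal _ hC0]
    exact hC t ht
  have htl := ti_lip h0 h1 hf
  have hΨl := hΦl.comp (htl.lipschitzOnWith (s := uIcc a (a + 2 * π))) hmaps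
  have hFTC := hΨl.absolutelyContinuousOnInterval.integral_deriv_eq_sub
  have hΨv : (Φ ∘ ti s f) (a + 2 * π) - (Φ ∘ ti s f) a = ∫ t in (0:ℝ)..(2 * π), k t * AP s t := by
    simp only [Function.comp, hta, htb, hΦ, intervalIntegral.integral_same, sub_zero]
  rw [hΨv] at hFTC
  have hae : ∀ᵐ θ ∂volume, θ ∈ uIoc a (a + 2 * π) → deriv (Φ ∘ ti s f) θ =
      K (STI.De s θ (gg s f θ), STI.Al s θ (gg s f θ)) *
        (STI.At s θ (gg s f θ) + STI.Ar s θ (gg s f θ) * deriv (gg s f) θ) := by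
    have hA1 := (htl.lipschitzOnWith (s := uIcc a (a + 2 * π))).absolutelyContinuousOnInterval
    have hA2 := (hg.lip.lipschitzOnWith (s := uIcc a (a + 2 * π))).absolutelyContinuousOnInterval
    filter_upwards [hA1.ae_differentiableAt, hA2.ae_differentiableAt] with θ hθ1 hθ2 hθ
    have hd1 := (hθ1 (uIoc_subset_uIcc hθ)).hasDerivAt
    have hd2 := (hθ2 (uIoc_subset_uIcc hθ)).hasDerivAt
    rw [((hΦd (ti s f θ)).comp θ hd1).deriv, ← dens h0 h1 hf hd2 hd1, hkK]
    ring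
  rw [← hFTC, intervalIntegral.integral_congr_ae hae,
    STI.frame_stokes hs hK hKp hm hmb hgm hg.lip (fun θ => hg.per θ) a]
  have hper : Function.Periodic (fun θ => K (0, θ) + ∫ r in (0:ℝ)..(gg s f θ),
        fderiv ℝ K (STI.De s θ r, STI.Al s θ r) (1, 0) * (F54.cc s / R2 s θ r)) (2 * π) := by
    intro θ
    have e0 : K (0, θ + 2 * π) = K (0, θ) := hKp 0 θ
    show K (0, θ + 2 * π) + _ = K (0, θ) + _
    rw [e0, hg.per]
    congr 1
    apply intervalIntegral.integral_congr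
    intro r _
    show fderiv ℝ K (STI.De s (θ + 2 * π) r, STI.Al s (θ + 2 * π) r) (1, 0) *
      (F54.cc s / R2 s (θ + 2 * π) r) = _
    rw [STI.De_period, STI.Al_period, fderiv_per hKp]
    unfold R2
    rw [cos_add_two_pi]
  have hfin := hper.intervalIntegral_add_eq a 0
  rw [zero_add] at hfin
  rw [← hfin]
  rfl

/-- **The state integral formula**, with a test function `h (cos α, sin α, δ)` of class `C¹` -/
theorem int_formula (hf : Ef f) {h hd : ℝ → ℝ → ℝ → ℝ}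
    (hh : ContDiff ℝ 1 (fun p : ℝ × ℝ × ℝ => h p.1 p.2.1 p.2.2))
    (hhd : ∀ a b x, HasDerivAt (fun x => h a b x) (hd a b x) x) :
    ∫ t in (0:ℝ)..(2 * π), h (CA s t) (SA s t) (f t - arcsin (s * cos t)) * AP s t =
      ∫ θ in (0:ℝ)..(2 * π), (h (cos θ) (sin θ) 0 + ∫ r in (0:ℝ)..(gg s f θ),
        hd (STA.Ca s θ r) (STA.Sa s θ r) (STA.De s θ r) * (F54.cc s / R2 s θ r)) := by
  have hK : ContDiff ℝ 1 (fun p : ℝ × ℝ => h (cos p.2) (sin p.2) p.1) := by
    have h1 : ContDiff ℝ 1 (fun p : ℝ × ℝ => ((cos p.2, sin p.2, p.1) : ℝ × ℝ × ℝ)) := by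
      fun_prop
    exact hh.comp h1
  have hk : Continuous (fun t => h (CA s t) (SA s t) (f t - arcsin (s * cos t))) := by
    have h1 : Continuous (fun t => ((CA s t, SA s t, f t - arcsin (s * cos t)) : ℝ × ℝ × ℝ)) := by
      have h2 := F54.contCA h0 h1
      have h3 := F54.contSA h0 h1
      have h4 := hf.lip.continuous
      fun_prop
    exact hh.continuous.comp h1
  have key := int_lift h0 h1 hf hK (fun x a => by simp only [cos_add_two_pi, sin_add_two_pi])
    hk (fun θ => by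
      simp only [cos_gg h0 h1 hf, sin_gg h0 h1 hf, De_gg h0 h1 hf])
  rw [key]
  apply intervalIntegral.integral_congr
  intro θ _
  show h (cos θ) (sin θ) 0 + _ = h (cos θ) (sin θ) 0 + _
  congr 1
  apply intervalIntegral.integral_congr
  intro r _
  show fderiv ℝ (fun p : ℝ × ℝ => h (cos p.2) (sin p.2) p.1) (STI.De s θ r, STI.Al s θ r) (1, 0) *
    _ = hd (STA.Ca s θ r) (STA.Sa s θ r) (STA.De s θ r) * _
  congr 1
  rw [Ca_eq h0 h1, Sa_eq h0 h1, De_eq h0 h1]
  have h2 := STI.chain hK (x := fun x => x) (a := fun _ => STI.Al s θ r)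
    (hasDerivAt_id' (STI.De s θ r)) (hasDerivAt_const _ _)
  have h3 := hhd (cos (STI.Al s θ r)) (sin (STI.Al s θ r)) (STI.De s θ r)
  have h4 := h2.unique h3
  simpa using h4

end

end

end Pool.Agent.FPX.STK
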