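import Pool.Agent.FPX.UMP1
import Pool.Agent.FPX.STI
import Pool.Agent.FPX.STK

/-!
# The frame `s = 1` for states of every latitude (helper88), part A: the frame

`rho θ r = |e^{iθ} + sin r|`, `X θ r = 2 sin r / (rho + cos r)`, `Al θ r` the angle of `e^{iθ} + sin r`.
-/

open MeasureTheory intervalIntegral Set Filter Topology Real
open scoped NNReal
open Pool.Agent.FPX.UMP (Ef)
open Pool.Agent.FPX.F54 (CA SA AP W)

namespace Pool.Agent.FPX.ST1

noncomputable section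

/-- `Δ` -/
def R2 (θ r : ℝ) : ℝ := 1 + 2 * cos θ * sin r + sin r ^ 2

/-- `√Δ` -/
def rho (θ r : ℝ) : ℝ := √(R2 θ r)

/-- real lift of the visual angle -/
def Al (θ r : ℝ) : ℝ := θ - arctan (sin r * sin θ / (1 + sin r * cos θ))

/-- `∂α/∂θ` -/
def At (θ r : ℝ) : ℝ := (1 + sin r * cos θ) / R2 θ r

/-- `∂α/∂r` -/
def Ar (θ r : ℝ) : ℝ := -(sin θ * cos r) / R2 θ r

/-- mixed derivative -/
def Ab (θ r : ℝ) : ℝ := -(cos r * (cos θ * R2 θ r + 2 * sin r * sin θ ^ 2)) / R2 θ r ^ 2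

/-- `x` -/
def X (θ r : ℝ) : ℝ := 2 * sin r / (rho θ r + cos r)

/-- cosine of the visual angle -/
def Ca (θ r : ℝ) : ℝ := (cos θ + sin r) / rho θ r

/-- sine of the visual angle -/
def Sa (θ r : ℝ) : ℝ := sin θ / rho θ r

/-- `∂ρ/∂r` -/
def rr (θ r : ℝ) : ℝ := (cos θ * cos r + sin r * cos r) / rho θ r

/-- `∂ρ/∂θ` -/
def rt (θ r : ℝ) : ℝ := -(sin θ * sin r) / rho θ r

/-- `∂x/∂r` -/
def Xr (θ r : ℝ) : ℝ :=
  (2 * cos r * (rho θ r + cos r) - 2 * sin r * (rr θ r - sin r)) / (rho θ r + cos r) ^ 2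

/-- `∂x/∂θ` -/
def Xt (θ r : ℝ) : ℝ := -(2 * sin r * rt θ r) / (rho θ r + cos r) ^ 2

theorem abs_sin_lt {r : ℝ} (hr : |r| < π / 2) : |sin r| < 1 := by
  have hc : 0 < cos r := cos_pos_of_mem_Ioo (abs_lt.1 hr)
  rw [← sq_lt_one_iff_abs_lt_one]
  nlinarith [sin_sq_add_cos_sq r]

theorem hM (θ : ℝ) {r : ℝ} (hr : |r| < π / 2) : 0 < 1 + sin r * cos θ := by
  have h1 := abs_sin_lt hr
  have h2 := abs_cos_le_one θ
  have h3 : |sin r * cos θ| < 1 := by
    rw [abs_mul]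
    calc |sin r| * |cos θ| ≤ |sin r| * 1 := by gcongr
      _ < 1 := by linarith
  linarith [(abs_lt.1 h3).1]

theorem R2_eq (θ r : ℝ) : R2 θ r = (1 + sin r * cos θ) ^ 2 + (sin r * sin θ) ^ 2 := by
  unfold R2
  linear_combination (sin r ^ 2) * (-(sin_sq_add_cos_sq θ))

theorem R2_eq' (θ r : ℝ) : R2 θ r = (cos θ + sin r) ^ 2 + sin θ ^ 2 := by
  unfold R2
  linear_combination (-(sin_sq_add_cos_sq θ))

theorem R2_pos (θ : ℝ) {r : ℝ} (hr : |r| < π / 2) : 0 < R2 θ r := by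
  rw [R2_eq]
  have := hM θ hr
  positivity

theorem rho_pos (θ : ℝ) {r : ℝ} (hr : |r| < π / 2) : 0 < rho θ r := sqrt_pos.2 (R2_pos θ hr)

theorem rho_sq (θ : ℝ) {r : ℝ} (hr : |r| < π / 2) : rho θ r ^ 2 = R2 θ r := sq_sqrt (R2_pos θ hr).le

theorem cos_pos' {r : ℝ} (hr : |r| < π / 2) : 0 < cos r := cos_pos_of_mem_Ioo (abs_lt.1 hr)

theorem den_pos (θ : ℝ) {r : ℝ} (hr : |r| < π / 2) : 0 < rho θ r + cos r := by
  have := rho_pos θ hr
  have := cos_pos' hr
  linarith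

theorem Al_t (θ : ℝ) {r : ℝ} (hr : |r| < π / 2) : HasDerivAt (fun θ => Al θ r) (At θ r) θ := by
  have hm := hM θ hr
  have hR := R2_pos θ hr
  have h1 : HasDerivAt (fun θ => sin r * sin θ) (sin r * cos θ) θ := (hasDerivAt_sin θ).const_mul _
  have h2 : HasDerivAt (fun θ => 1 + sin r * cos θ) (sin r * -sin θ) θ :=
    ((hasDerivAt_cos θ).const_mul _).const_add _
  have h4 := (hasDerivAt_id θ).fun_sub (STI.atan_div h1 h2 hm.ne')
  refine (h4.congr_deriv ?_)
  unfold At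
  rw [← R2_eq, eq_div_iff hR.ne', sub_mul, div_mul_cancel₀ _ hR.ne']
  unfold R2
  linear_combination -(sin r ^ 2) * (sin_sq_add_cos_sq θ)

theorem Al_r (θ : ℝ) {r : ℝ} (hr : |r| < π / 2) : HasDerivAt (fun r => Al θ r) (Ar θ r) r := by
  have hm := hM θ hr
  have hR := R2_pos θ hr
  have h1 : HasDerivAt (fun r => sin r * sin θ) (cos r * sin θ) r :=
    (hasDerivAt_sin r).mul_const _
  have h2 : HasDerivAt (fun r => 1 + sin r * cos θ) (cos r * cos θ) r :=
    ((hasDerivAt_sin r).mul_const _).const_add _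
  have h4 := (STI.atan_div h1 h2 hm.ne').const_sub θ
  refine (h4.congr_deriv ?_)
  unfold Ar
  rw [← R2_eq, ← neg_div]
  congr 1
  ring

theorem Al_comp {g : ℝ → ℝ} {g' θ : ℝ} (hr : |g θ| < π / 2) (hg : HasDerivAt g g' θ) :
    HasDerivAt (fun θ => Al θ (g θ)) (At θ (g θ) + Ar θ (g θ) * g') θ := by
  have hm := hM θ hr
  have hR := R2_pos θ hr
  have h1 : HasDerivAt (fun θ => sin (g θ) * sin θ)
      (cos (g θ) * g' * sin θ + sin (g θ) * cos θ) θ := hg.sin.fun_mul (hasDerivAt_sin θ)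
  have h2 : HasDerivAt (fun θ => 1 + sin (g θ) * cos θ)
      (cos (g θ) * g' * cos θ + sin (g θ) * -sin θ) θ :=
    (hg.sin.fun_mul (hasDerivAt_cos θ)).const_add _
  have h4 := (hasDerivAt_id θ).fun_sub (STI.atan_div h1 h2 hm.ne')
  refine (h4.congr_deriv ?_)
  unfold At Ar
  rw [← R2_eq, div_mul_eq_mul_div, ← add_div, eq_div_iff hR.ne', sub_mul,
    div_mul_cancel₀ _ hR.ne']
  unfold R2
  linear_combination -(sin (g θ) ^ 2) * (sin_sq_add_cos_sq θ)

theorem cos_Al (θ : ℝ) {r : ℝ} (hr : |r| < π / 2) : cos (Al θ r) = Ca θ r := by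
  have hm := hM θ hr
  have hR := R2_pos θ hr
  unfold Al Ca rho
  rw [cos_sub, cos_arctan, sin_arctan]
  have h6 : 1 + (sin r * sin θ / (1 + sin r * cos θ)) ^ 2 =
      R2 θ r / (1 + sin r * cos θ) ^ 2 := by
    rw [R2_eq]; field_simp
  rw [h6, sqrt_div' _ (by positivity), sqrt_sq hm.le, one_div_div, div_div_div_cancel_right₀ hm.ne',
    mul_div_assoc', mul_div_assoc', ← add_div]
  congr 1
  linear_combination (sin r) * (sin_sq_add_cos_sq θ)

theorem sin_Al (θ : ℝ) {r : ℝ} (hr : |r| < π / 2) : sin (Al θ r) = Sa θ r := by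
  have hm := hM θ hr
  have hR := R2_pos θ hr
  unfold Al Sa rho
  rw [sin_sub, cos_arctan, sin_arctan]
  have h6 : 1 + (sin r * sin θ / (1 + sin r * cos θ)) ^ 2 =
      R2 θ r / (1 + sin r * cos θ) ^ 2 := by
    rw [R2_eq]; field_simp
  rw [h6, sqrt_div' _ (by positivity), sqrt_sq hm.le, one_div_div, div_div_div_cancel_right₀ hm.ne',
    mul_div_assoc', mul_div_assoc', ← sub_div]
  congr 1
  ring

theorem R2_t (θ r : ℝ) : HasDerivAt (fun θ => R2 θ r) (-(2 * sin θ * sin r)) θ := by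
  have h := ((((hasDerivAt_cos θ).const_mul 2).mul_const (sin r)).const_add 1).add_const
    (sin r ^ 2)
  refine h.congr_deriv ?_
  ring

theorem R2_r (θ r : ℝ) :
    HasDerivAt (fun r => R2 θ r) (2 * cos θ * cos r + 2 * sin r * cos r) r := by
  have h := (((hasDerivAt_sin r).const_mul (2 * cos θ)).const_add 1).add
    ((hasDerivAt_sin r).pow 2)
  refine h.congr_deriv ?_
  push_cast
  ring

theorem rho_t (θ : ℝ) {r : ℝ} (hr : |r| < π / 2) : HasDerivAt (fun θ => rho θ r) (rt θ r) θ := by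
  have h := (R2_t θ r).sqrt (R2_pos θ hr).ne'
  refine h.congr_deriv ?_
  have := rho_pos θ hr
  unfold rt
  show -(2 * sin θ * sin r) / (2 * rho θ r) = _
  field_simp

theorem rho_r (θ : ℝ) {r : ℝ} (hr : |r| < π / 2) : HasDerivAt (fun r => rho θ r) (rr θ r) r := by
  have h := (R2_r θ r).sqrt (R2_pos θ hr).ne'
  refine h.congr_deriv ?_
  have := rho_pos θ hr
  unfold rr
  show (2 * cos θ * cos r + 2 * sin r * cos r) / (2 * rho θ r) = _
  field_simp

theorem At_r (θ : ℝ) {r : ℝ} (hr : |r| < π / 2) : HasDerivAt (fun r => At θ r) (Ab θ r) r := by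
  have hR := R2_pos θ hr
  have h2 : HasDerivAt (fun r => 1 + sin r * cos θ) (cos r * cos θ) r :=
    ((hasDerivAt_sin r).mul_const _).const_add _
  refine (h2.fun_div (R2_r θ r) hR.ne').congr_deriv ?_
  unfold Ab
  congr 1
  unfold R2
  have e1 : sin θ ^ 2 = 1 - cos θ ^ 2 := by linarith [sin_sq_add_cos_sq θ]
  rw [e1]
  ring

theorem Ar_t (θ : ℝ) {r : ℝ} (hr : |r| < π / 2) : HasDerivAt (fun θ => Ar θ r) (Ab θ r) θ := by
  have hR := R2_pos θ hr
  have h2 : HasDerivAt (fun θ => -(sin θ * cos r)) (-(cos θ * cos r)) θ :=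
    ((hasDerivAt_sin θ).mul_const _).neg
  refine (h2.fun_div (R2_t θ r) hR.ne').congr_deriv ?_
  unfold Ab
  congr 1
  ring

theorem X_r (θ : ℝ) {r : ℝ} (hr : |r| < π / 2) : HasDerivAt (fun r => X θ r) (Xr θ r) r := by
  have hd := den_pos θ hr
  have h1 : HasDerivAt (fun r => 2 * sin r) (2 * cos r) r := (hasDerivAt_sin r).const_mul _
  have h2 : HasDerivAt (fun r => rho θ r + cos r) (rr θ r + -sin r) r :=
    (rho_r θ hr).fun_add (hasDerivAt_cos r)
  exact (h1.fun_div h2 hd.ne').congr_deriv (by unfold Xr; ring)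

theorem X_t (θ : ℝ) {r : ℝ} (hr : |r| < π / 2) : HasDerivAt (fun θ => X θ r) (Xt θ r) θ := by
  have hd := den_pos θ hr
  have h1 : HasDerivAt (fun _ : ℝ => 2 * sin r) 0 θ := hasDerivAt_const _ _
  have h2 : HasDerivAt (fun θ => rho θ r + cos r) (rt θ r) θ := (rho_t θ hr).add_const _
  exact (h1.fun_div h2 hd.ne').congr_deriv (by unfold Xt; ring)

/-- **the Jacobian**: `dx ∧ dα = (1 / Δ) dr ∧ dθ` -/
theorem jac (θ : ℝ) {r : ℝ} (hr : |r| < π / 2) :
    Xr θ r * At θ r - Xt θ r * Ar θ r = 1 / R2 θ r := by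
  have hρ := rho_pos θ hr
  have hd := den_pos θ hr
  have hR := R2_pos θ hr
  have h2 := rho_sq θ hr
  unfold Xr Xt At Ar rr rt
  rw [← h2]
  have e1 : sin θ ^ 2 = 1 - cos θ ^ 2 := by linarith [sin_sq_add_cos_sq θ]
  have e2 : cos r ^ 2 = 1 - sin r ^ 2 := by linarith [sin_sq_add_cos_sq r]
  have e3 : rho θ r ^ 2 = 1 + 2 * cos θ * sin r + sin r ^ 2 := h2
  have e4 : (2 * cos r * (rho θ r + cos r) - 2 * sin r * ((cos θ * cos r + sin r * cos r) / rho θ r -
      sin r)) / (rho θ r + cos r) ^ 2 * ((1 + sin r * cos θ) / rho θ r ^ 2) -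
      -(2 * sin r * (-(sin θ * sin r) / rho θ r)) / (rho θ r + cos r) ^ 2 *
      (-(sin θ * cos r) / rho θ r ^ 2) =
      ((1 + sin r * cos θ) * (2 * rho θ r * cos r * (rho θ r + cos r) -
        2 * sin r * (cos θ * cos r + sin r * cos r - sin r * rho θ r)) +
        2 * sin r ^ 2 * sin θ ^ 2 * cos r) / (rho θ r ^ 3 * (rho θ r + cos r) ^ 2) := by
    field_simp
    ring
  rw [e4, div_eq_div_iff (by positivity) (by positivity)]
  linear_combination (rho θ r ^ 2) * ((2 * sin r ^ 2 * cos r) * e1 +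
    (2 * rho θ r * (1 + sin r * cos θ) - rho θ r) * e2 +
    (2 * cos r * sin r * cos θ - rho θ r) * e3)

/-! ### continuity -/

theorem cont_R2 : Continuous (fun p : ℝ × ℝ => R2 p.1 p.2) := by
  unfold R2; fun_prop

theorem cont_rho : Continuous (fun p : ℝ × ℝ => rho p.1 p.2) := by
  unfold rho; exact cont_R2.sqrt

theorem cont_Al : ContinuousOn (fun p : ℝ × ℝ => Al p.1 p.2) {p | |p.2| < π / 2} := by
  unfold Al
  refine continuousOn_fst.sub (continuous_arctan.comp_continuousOn ?_)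
  exact ContinuousOn.div (by fun_prop) (by fun_prop) (fun p hp => (hM p.1 hp).ne')

theorem cont_At : ContinuousOn (fun p : ℝ × ℝ => At p.1 p.2) {p | |p.2| < π / 2} := by
  unfold At
  exact ContinuousOn.div (by fun_prop) cont_R2.continuousOn (fun p hp => (R2_pos p.1 hp).ne')

theorem cont_Ar : ContinuousOn (fun p : ℝ × ℝ => Ar p.1 p.2) {p | |p.2| < π / 2} := by
  unfold Ar
  exact ContinuousOn.div (by fun_prop) cont_R2.continuousOn (fun p hp => (R2_pos p.1 hp).ne')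

theorem cont_Ab : ContinuousOn (fun p : ℝ × ℝ => Ab p.1 p.2) {p | |p.2| < π / 2} := by
  have h := cont_R2
  unfold Ab
  exact ContinuousOn.div (by fun_prop) (h.pow 2).continuousOn
    (fun p hp => (pow_pos (R2_pos p.1 hp) 2).ne')

theorem cont_rr : ContinuousOn (fun p : ℝ × ℝ => rr p.1 p.2) {p | |p.2| < π / 2} := by
  unfold rr
  exact ContinuousOn.div (by fun_prop) cont_rho.continuousOn (fun p hp => (rho_pos p.1 hp).ne')

theorem cont_rt : ContinuousOn (fun p : ℝ × ℝ => rt p.1 p.2) {p | |p.2| < π / 2} := by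
  unfold rt
  exact ContinuousOn.div (by fun_prop) cont_rho.continuousOn (fun p hp => (rho_pos p.1 hp).ne')

theorem cont_X : ContinuousOn (fun p : ℝ × ℝ => X p.1 p.2) {p | |p.2| < π / 2} := by
  have h := cont_rho
  unfold X
  exact ContinuousOn.div (by fun_prop) (by fun_prop) (fun p hp => (den_pos p.1 hp).ne')

theorem cont_Xr : ContinuousOn (fun p : ℝ × ℝ => Xr p.1 p.2) {p | |p.2| < π / 2} := by
  have h := cont_rho.continuousOn (s := {p : ℝ × ℝ | |p.2| < π / 2})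
  have h' := cont_rr
  unfold Xr
  exact ContinuousOn.div (by fun_prop) (by fun_prop) (fun p hp => (pow_pos (den_pos p.1 hp) 2).ne')

theorem cont_Xt : ContinuousOn (fun p : ℝ × ℝ => Xt p.1 p.2) {p | |p.2| < π / 2} := by
  have h := cont_rho.continuousOn (s := {p : ℝ × ℝ | |p.2| < π / 2})
  have h' := cont_rt
  unfold Xt
  exact ContinuousOn.div (by fun_prop) (by fun_prop) (fun p hp => (pow_pos (den_pos p.1 hp) 2).ne')

theorem R2_zero (θ : ℝ) : R2 θ 0 = 1 := by unfold R2; simp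

theorem Al_zero (θ : ℝ) : Al θ 0 = θ := by unfold Al; simp

theorem At_zero (θ : ℝ) : At θ 0 = 1 := by unfold At; rw [R2_zero]; simp

theorem X_zero (θ : ℝ) : X θ 0 = 0 := by unfold X; simp

theorem Al_period (θ r : ℝ) : Al (θ + 2 * π) r = Al θ r + 2 * π := by
  unfold Al
  rw [sin_add_two_pi, cos_add_two_pi]; ring

theorem R2_period (θ r : ℝ) : R2 (θ + 2 * π) r = R2 θ r := by
  unfold R2; rw [cos_add_two_pi]

theorem Ar_period (θ r : ℝ) : Ar (θ + 2 * π) r = Ar θ r := by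
  unfold Ar
  rw [R2_period, sin_add_two_pi]

theorem X_period (θ r : ℝ) : X (θ + 2 * π) r = X θ r := by
  unfold X rho
  rw [R2_period]

/-- **The state integral formula in the frame `(θ, g)` at `s = 1`** -/
theorem frame_stokes {K : ℝ × ℝ → ℝ} (hK : ContDiff ℝ 1 K)
    (hKp : ∀ x a, K (x, a + 2 * π) = K (x, a))
    {m : ℝ} (hm : 0 ≤ m) (hmb : m < π / 2) {g : ℝ → ℝ} (hg : ∀ θ, |g θ| ≤ m) {L : ℝ≥0}
    (hgl : LipschitzWith L g) (hgp : ∀ θ, g (θ + 2 * π) = g θ) (a : ℝ) :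
    ∫ θ in a..(a + 2 * π), K (X θ (g θ), Al θ (g θ)) *
        (At θ (g θ) + Ar θ (g θ) * deriv g θ) =
      ∫ θ in a..(a + 2 * π), (K (0, θ) +
        ∫ r in (0:ℝ)..(g θ), fderiv ℝ K (X θ r, Al θ r) (1, 0) * (1 / R2 θ r)) := by
  have hKc := hK.continuous
  have hKd : Continuous (fderiv ℝ K) := hK.continuous_fderiv one_ne_zero
  have hxa : ContinuousOn (fun p : ℝ × ℝ => ((X p.1 p.2, Al p.1 p.2) : ℝ × ℝ))
      {p | |p.2| < π / 2} := cont_X.prodMk cont_Al
  have hcK : ContinuousOn (fun p : ℝ × ℝ => K (X p.1 p.2, Al p.1 p.2)) {p | |p.2| < π / 2} :=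
    hKc.comp_continuousOn hxa
  have hcx : ContinuousOn (fun p : ℝ × ℝ => fderiv ℝ K (X p.1 p.2, Al p.1 p.2) (1, 0))
      {p | |p.2| < π / 2} :=
    (hKd.clm_apply continuous_const).comp_continuousOn hxa
  have hca : ContinuousOn (fun p : ℝ × ℝ => fderiv ℝ K (X p.1 p.2, Al p.1 p.2) (0, 1))
      {p | |p.2| < π / 2} :=
    (hKd.clm_apply continuous_const).comp_continuousOn hxa
  have hAt := cont_At
  have hAr := cont_Ar
  have hAb := cont_Ab
  have hXr := cont_Xr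
  have hXt := cont_Xt
  have key := STI.stokes (b := π / 2) hm hmb
    (P := fun θ r => K (X θ r, Al θ r) * At θ r)
    (Pr := fun θ r => (fderiv ℝ K (X θ r, Al θ r) (1, 0) * Xr θ r +
      fderiv ℝ K (X θ r, Al θ r) (0, 1) * Ar θ r) * At θ r +
      K (X θ r, Al θ r) * Ab θ r)
    (Q := fun θ r => K (X θ r, Al θ r) * Ar θ r)
    (Qt := fun θ r => (fderiv ℝ K (X θ r, Al θ r) (1, 0) * Xt θ r +
      fderiv ℝ K (X θ r, Al θ r) (0, 1) * At θ r) * Ar θ r +
      K (X θ r, Al θ r) * Ab θ r)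
    (fun θ r hr => (STI.chain hK (X_r θ hr) (Al_r θ hr)).mul (At_r θ hr))
    (((hcx.mul hXr).add (hca.mul hAr)).mul hAt |>.add (hcK.mul hAb))
    (hcK.mul hAt)
    (fun θ r hr => (STI.chain hK (X_t θ hr) (Al_t θ hr)).mul (Ar_t θ hr))
    (hcK.mul hAr)
    (((hcx.mul hXt).add (hca.mul hAt)).mul hAr |>.add (hcK.mul hAb))
    hg hgl (a := a) (c := a + 2 * π) (hgp a)
    (fun r _ => by
      show K (X (a + 2 * π) r, Al (a + 2 * π) r) * Ar (a + 2 * π) r = _
      rw [X_period, Al_period, Ar_period, hKp])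
  have e1 : ∫ θ in a..(a + 2 * π), K (X θ (g θ), Al θ (g θ)) *
        (At θ (g θ) + Ar θ (g θ) * deriv g θ) =
      ∫ θ in a..(a + 2 * π), (K (X θ (g θ), Al θ (g θ)) * At θ (g θ) +
        K (X θ (g θ), Al θ (g θ)) * Ar θ (g θ) * deriv g θ) := by
    apply intervalIntegral.integral_congr
    intro θ _
    show K _ * (At θ (g θ) + Ar θ (g θ) * deriv g θ) = _
    ring
  rw [e1, key]
  apply intervalIntegral.integral_congr
  intro θ _
  show K (X θ 0, Al θ 0) * At θ 0 + _ = _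
  rw [X_zero, Al_zero, At_zero, mul_one]
  congr 1
  apply intervalIntegral.integral_congr
  intro r hr
  have hrm : |r| < π / 2 := lt_of_le_of_lt (STI.abs_le_of_uIcc (hg θ) hr) hmb
  show _ = fderiv ℝ K (X θ r, Al θ r) (1, 0) * (1 / R2 θ r)
  rw [← jac θ hrm]
  ring

end

end Pool.Agent.FPX.ST1
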