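import Pool.Agent.FPX.ST1

/-!
# The frame `s = 1` for states of every latitude (helper88), part B: the map `(x, α) ↦ (θ, g)`
-/

open MeasureTheory intervalIntegral Set Filter Topology Real
open scoped NNReal
open Pool.Agent.FPX.UMP (Ef)
open Pool.Agent.FPX.F54 (CA SA AP W)

namespace Pool.Agent.FPX.ST1

noncomputable section

/-- half of `p - α` -/
def u1 (x a : ℝ) : ℝ := arctan (x * (1 + sin a) / (2 - x * cos a))

/-- half of `α - n` -/
def u2 (x a : ℝ) : ℝ := arctan (x * (1 - sin a) / (2 - x * cos a))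

/-- the angle `θ` -/
def thx (x a : ℝ) : ℝ := a + u1 x a - u2 x a

/-- the value `g` -/
def gx (x a : ℝ) : ℝ := u1 x a + u2 x a

/-- `ρ⁻²` -/
def kk (x a : ℝ) : ℝ := (1 - x * cos a) ^ 2 + x ^ 2 * (1 - x * cos a / 2) ^ 2

theorem xcos {x : ℝ} (hx : |x| < 1) (a : ℝ) : |x * cos a| < 1 := by
  rw [abs_mul]
  calc |x| * |cos a| ≤ |x| * 1 := by gcongr; exact abs_cos_le_one a
    _ < 1 := by linarith

theorem D1_pos {x : ℝ} (hx : |x| < 1) (a : ℝ) : 0 < 1 - x * cos a := by
  linarith [(abs_lt.1 (xcos hx a)).2]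

theorem D2_pos {x : ℝ} (hx : |x| < 1) (a : ℝ) : 0 < 2 - x * cos a := by
  linarith [D1_pos hx a]

theorem kk_pos {x : ℝ} (hx : |x| < 1) (a : ℝ) : 0 < kk x a := by
  unfold kk
  have := D1_pos hx a
  positivity

theorem cs_arctan {m D : ℝ} (hD : 0 < D) :
    cos (arctan (m / D)) = D / √(D ^ 2 + m ^ 2) ∧ sin (arctan (m / D)) = m / √(D ^ 2 + m ^ 2) := by
  have h6 : 1 + (m / D) ^ 2 = (D ^ 2 + m ^ 2) / D ^ 2 := by field_simp
  rw [cos_arctan, sin_arctan, h6, sqrt_div' _ (by positivity), sqrt_sq hD.le, one_div_div,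
    div_div_div_cancel_right₀ hD.ne']
  exact ⟨rfl, rfl⟩

theorem R12 (x a : ℝ) :
    √((2 - x * cos a) ^ 2 + (x * (1 + sin a)) ^ 2) * √((2 - x * cos a) ^ 2 + (x * (1 - sin a)) ^ 2) =
      4 * √(kk x a) := by
  rw [← sqrt_mul (by positivity)]
  have h1 : ((2 - x * cos a) ^ 2 + (x * (1 + sin a)) ^ 2) *
      ((2 - x * cos a) ^ 2 + (x * (1 - sin a)) ^ 2) = 4 ^ 2 * kk x a := by
    unfold kk
    have h2 : sin a ^ 2 = 1 - cos a ^ 2 := by linarith [sin_sq_add_cos_sq a]
    have h3 : sin a ^ 4 = (1 - cos a ^ 2) ^ 2 := by rw [← h2]; ring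
    ring_nf
    rw [h3, h2]
    ring
  rw [h1, sqrt_mul (by positivity), sqrt_sq (by norm_num)]

theorem frame {x : ℝ} (hx : |x| < 1) (a : ℝ) :
    sin (gx x a) = x * (1 - x * cos a / 2) / √(kk x a) ∧
    cos (gx x a) = (1 - x * cos a) / √(kk x a) ∧
    sin (thx x a) = sin a / √(kk x a) ∧
    cos (thx x a) = (cos a - x + x ^ 2 * cos a / 2) / √(kk x a) := by
  have hD := D2_pos hx a
  obtain ⟨c1, s1⟩ := cs_arctan (m := x * (1 + sin a)) hD
  obtain ⟨c2, s2⟩ := cs_arctan (m := x * (1 - sin a)) hD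
  have hR := R12 x a
  have hk := sqrt_pos.2 (kk_pos hx a)
  have hS : sin a ^ 2 = 1 - cos a ^ 2 := by linarith [sin_sq_add_cos_sq a]
  set R1 := √((2 - x * cos a) ^ 2 + (x * (1 + sin a)) ^ 2) with hR1
  set R2 := √((2 - x * cos a) ^ 2 + (x * (1 - sin a)) ^ 2) with hR2
  have hR1p : 0 < R1 := sqrt_pos.2 (by positivity)
  have hR2p : 0 < R2 := sqrt_pos.2 (by positivity)
  have e1 : sin (u1 x a + u2 x a) = x * (1 - x * cos a / 2) / √(kk x a) := by
    rw [sin_add]; unfold u1 u2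
    rw [c1, s1, c2, s2, div_mul_div_comm, div_mul_div_comm, hR, ← add_div,
      div_eq_div_iff (by positivity) (by positivity)]
    ring
  have e2 : cos (u1 x a + u2 x a) = (1 - x * cos a) / √(kk x a) := by
    rw [cos_add]; unfold u1 u2
    rw [c1, s1, c2, s2, div_mul_div_comm, div_mul_div_comm, hR, ← sub_div,
      div_eq_div_iff (by positivity) (by positivity)]
    linear_combination (√(kk x a) * x ^ 2) * hS
  have e3 : sin (u1 x a - u2 x a) = (2 * x * sin a * (2 - x * cos a)) / (4 * √(kk x a)) := by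
    rw [sin_sub]; unfold u1 u2
    rw [c1, s1, c2, s2, div_mul_div_comm, div_mul_div_comm, hR, ← sub_div]
    congr 1
    ring
  have e4 : cos (u1 x a - u2 x a) = (4 - 4 * x * cos a + 2 * x ^ 2 * cos a ^ 2) /
      (4 * √(kk x a)) := by
    rw [cos_sub]; unfold u1 u2
    rw [c1, s1, c2, s2, div_mul_div_comm, div_mul_div_comm, hR, ← add_div]
    congr 1
    linear_combination (-(x ^ 2)) * hS
  refine ⟨e1, e2, ?_, ?_⟩
  · unfold thx
    rw [add_sub_assoc, sin_add, e3, e4, mul_div_assoc', mul_div_assoc', ← add_div,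
      div_eq_div_iff (by positivity) (by positivity)]
    ring
  · unfold thx
    rw [add_sub_assoc, cos_add, e3, e4, mul_div_assoc', mul_div_assoc', ← sub_div,
      div_eq_div_iff (by positivity) (by positivity)]
    linear_combination (-(√(kk x a) * 2 * x * (2 - x * cos a))) * hS

theorem gx_lt {x : ℝ} (hx : |x| < 1) (a : ℝ) : |gx x a| < π / 2 := by
  have h1 := (frame hx a).2.1
  have hc : 0 < cos (gx x a) := by
    rw [h1]
    exact div_pos (D1_pos hx a) (sqrt_pos.2 (kk_pos hx a))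
  have hu1 : |u1 x a| < π / 2 := abs_lt.2 ⟨neg_pi_div_two_lt_arctan _, arctan_lt_pi_div_two _⟩
  have hu2 : |u2 x a| < π / 2 := abs_lt.2 ⟨neg_pi_div_two_lt_arctan _, arctan_lt_pi_div_two _⟩
  have hl : |gx x a| < π := by
    unfold gx
    calc |u1 x a + u2 x a| ≤ |u1 x a| + |u2 x a| := abs_add_le _ _
      _ < π := by linarith
  by_contra hcon
  push Not at hcon
  have h2 : cos |gx x a| ≤ 0 := cos_nonpos_of_pi_div_two_le_of_le hcon (by linarith [pi_pos])
  rw [cos_abs] at h2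
  linarith

theorem R2_frame {x : ℝ} (hx : |x| < 1) (a : ℝ) : R2 (thx x a) (gx x a) = 1 / kk x a := by
  obtain ⟨e1, -, e3, e4⟩ := frame hx a
  have hk := kk_pos hx a
  have hk2 := sqrt_pos.2 hk
  have h2 : √(kk x a) ^ 2 = kk x a := sq_sqrt hk.le
  have h3 := sin_sq_add_cos_sq a
  rw [R2_eq', e1, e3, e4, ← add_div, div_pow, div_pow, h2, ← add_div]
  congr 1
  linear_combination h3

theorem rho_frame {x : ℝ} (hx : |x| < 1) (a : ℝ) : rho (thx x a) (gx x a) = 1 / √(kk x a) := by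
  unfold rho
  rw [R2_frame hx a, sqrt_div' _ (kk_pos hx a).le, sqrt_one]

theorem X_frame {x : ℝ} (hx : |x| < 1) (a : ℝ) : X (thx x a) (gx x a) = x := by
  obtain ⟨e1, e2, -, -⟩ := frame hx a
  have hk2 := sqrt_pos.2 (kk_pos hx a)
  have hD := D2_pos hx a
  unfold X
  rw [rho_frame hx a, e1, e2, ← add_div, mul_div_assoc', div_div_div_cancel_right₀ hk2.ne',
    div_eq_iff (by linarith)]
  ring

theorem Ca_frame {x : ℝ} (hx : |x| < 1) (a : ℝ) : Ca (thx x a) (gx x a) = cos a := by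
  obtain ⟨e1, -, -, e4⟩ := frame hx a
  have hk2 := sqrt_pos.2 (kk_pos hx a)
  unfold Ca
  rw [rho_frame hx a, e1, e4, ← add_div, div_div_div_cancel_right₀ hk2.ne', div_one]
  ring

theorem Sa_frame {x : ℝ} (hx : |x| < 1) (a : ℝ) : Sa (thx x a) (gx x a) = sin a := by
  obtain ⟨-, -, e3, -⟩ := frame hx a
  have hk2 := sqrt_pos.2 (kk_pos hx a)
  unfold Sa
  rw [rho_frame hx a, e3, div_div_div_cancel_right₀ hk2.ne', div_one]

/-! ### derivatives along a curve -/

/-- `p = θ + g` -/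
def px (x a : ℝ) : ℝ := a + 2 * u1 x a

/-- `n = θ - g` -/
def nx (x a : ℝ) : ℝ := a - 2 * u2 x a

theorem thx_eq (x a : ℝ) : thx x a = (px x a + nx x a) / 2 := by unfold thx px nx; ring

theorem gx_eq (x a : ℝ) : gx x a = (px x a - nx x a) / 2 := by unfold gx px nx; ring

theorem dpx {x a : ℝ → ℝ} {x' a' t : ℝ} (hx : HasDerivAt x x' t) (ha : HasDerivAt a a' t)
    (h1 : |x t| < 1) :
    HasDerivAt (fun t => px (x t) (a t))
      (2 / (2 - 2 * x t * cos (a t) + x t ^ 2 * (1 + sin (a t))) *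
        (a' + (1 + sin (a t)) * x')) t := by
  have hD := D2_pos h1 (a t)
  have hD1 := D1_pos h1 (a t)
  have hS : 0 ≤ 1 + sin (a t) := by linarith [neg_one_le_sin (a t)]
  have hN : HasDerivAt (fun t => x t * (1 + sin (a t)))
      (x' * (1 + sin (a t)) + x t * (cos (a t) * a')) t := hx.fun_mul (ha.sin.const_add 1)
  have hM : HasDerivAt (fun t => 2 - x t * cos (a t))
      (-(x' * cos (a t) + x t * (-sin (a t) * a'))) t := (hx.fun_mul ha.cos).const_sub 2
  have h3 := ha.fun_add ((STI.atan_div hN hM hD.ne').const_mul 2)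
  refine h3.congr_deriv ?_
  have h4 : (2 - x t * cos (a t)) ^ 2 + (x t * (1 + sin (a t))) ^ 2 =
      2 * (2 - 2 * x t * cos (a t) + x t ^ 2 * (1 + sin (a t))) := by
    linear_combination (x t ^ 2) * (sin_sq_add_cos_sq (a t))
  have hpos : 0 < 2 - 2 * x t * cos (a t) + x t ^ 2 * (1 + sin (a t)) := by nlinarith [sq_nonneg (x t)]
  rw [h4]
  field_simp
  linear_combination (-(x t ^ 2 * a')) * (sin_sq_add_cos_sq (a t))

theorem dnx {x a : ℝ → ℝ} {x' a' t : ℝ} (hx : HasDerivAt x x' t) (ha : HasDerivAt a a' t)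
    (h1 : |x t| < 1) :
    HasDerivAt (fun t => nx (x t) (a t))
      (2 / (2 - 2 * x t * cos (a t) + x t ^ 2 * (1 - sin (a t))) *
        (a' - (1 - sin (a t)) * x')) t := by
  have hD := D2_pos h1 (a t)
  have hD1 := D1_pos h1 (a t)
  have hS : 0 ≤ 1 - sin (a t) := by linarith [sin_le_one (a t)]
  have hN : HasDerivAt (fun t => x t * (1 - sin (a t)))
      (x' * (1 - sin (a t)) + x t * -(cos (a t) * a')) t := hx.fun_mul (ha.sin.const_sub 1)
  have hM : HasDerivAt (fun t => 2 - x t * cos (a t))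
      (-(x' * cos (a t) + x t * (-sin (a t) * a'))) t := (hx.fun_mul ha.cos).const_sub 2
  have h3 := ha.fun_sub ((STI.atan_div hN hM hD.ne').const_mul 2)
  refine h3.congr_deriv ?_
  have h4 : (2 - x t * cos (a t)) ^ 2 + (x t * (1 - sin (a t))) ^ 2 =
      2 * (2 - 2 * x t * cos (a t) + x t ^ 2 * (1 - sin (a t))) := by
    linear_combination (x t ^ 2) * (sin_sq_add_cos_sq (a t))
  have hpos : 0 < 2 - 2 * x t * cos (a t) + x t ^ 2 * (1 - sin (a t)) := by nlinarith [sq_nonneg (x t)]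
  rw [h4]
  field_simp
  linear_combination (-(x t ^ 2 * a')) * (sin_sq_add_cos_sq (a t))

end

end Pool.Agent.FPX.ST1
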