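import Pool.Agent.FPX.ST2

/-!
# The frame `s = 1` for states of every latitude (helper88), part C: the curve of a state
-/

open MeasureTheory intervalIntegral Set Filter Topology Real
open scoped NNReal
open Pool.Agent.FPX.UMP (Ef)
open Pool.Agent.FPX.F54 (CA SA AP W cc)

namespace Pool.Agent.FPX.ST1

noncomputable section

/-- `x = T δ` along the state -/
def xs (s : ℝ) (f : ℝ → ℝ) (t : ℝ) : ℝ := s / cc s * (f t - arcsin (s * cos t))

/-- the visual angle along the circle -/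
def aa (s t : ℝ) : ℝ := ∫ u in (0 : ℝ)..t, AP s u

/-- `p = θ + g` -/
def pp (s : ℝ) (f : ℝ → ℝ) (t : ℝ) : ℝ := px (xs s f t) (aa s t)

/-- `n = θ - g` -/
def nn (s : ℝ) (f : ℝ → ℝ) (t : ℝ) : ℝ := nx (xs s f t) (aa s t)

/-- the new angle -/
def th (s : ℝ) (f : ℝ → ℝ) (t : ℝ) : ℝ := thx (xs s f t) (aa s t)

/-- the new value -/
def gt (s : ℝ) (f : ℝ → ℝ) (t : ℝ) : ℝ := gx (xs s f t) (aa s t)

/-- inverse of the new angle -/
def ti (s : ℝ) (f : ℝ → ℝ) : ℝ → ℝ := Function.invFun (th s f)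

/-- the state in the frame `s = 1` -/
def gg (s : ℝ) (f : ℝ → ℝ) (θ : ℝ) : ℝ := gt s f (ti s f θ)

section a

variable {s : ℝ} (h0 : 0 ≤ s) (h1 : s < 1)

include h0 h1

theorem aa_der (t : ℝ) : HasDerivAt (aa s) (AP s t) t :=
  intervalIntegral.integral_hasDerivAt_right ((F54.contAP h0 h1).intervalIntegrable _ _)
    ((F54.contAP h0 h1).stronglyMeasurableAtFilter _ _) (F54.contAP h0 h1).continuousAt

theorem cs_aa (t : ℝ) : cos (aa s t) = CA s t ∧ sin (aa s t) = SA s t := by
  have hF : ∀ t, HasDerivAt (fun t => CA s t * cos (aa s t) + SA s t * sin (aa s t)) 0 t := by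
    intro t
    have h := ((F54.dCA h0 h1 t).fun_mul (aa_der h0 h1 t).cos).fun_add
      ((F54.dSA h0 h1 t).fun_mul (aa_der h0 h1 t).sin)
    exact h.congr_deriv (by ring)
  have hG : ∀ t, HasDerivAt (fun t => SA s t * cos (aa s t) - CA s t * sin (aa s t)) 0 t := by
    intro t
    have h := ((F54.dSA h0 h1 t).fun_mul (aa_der h0 h1 t).cos).fun_sub
      ((F54.dCA h0 h1 t).fun_mul (aa_der h0 h1 t).sin)
    exact h.congr_deriv (by ring)
  have cF := is_const_of_deriv_eq_zero (fun t => (hF t).differentiableAt)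
    (fun t => (hF t).deriv) t 0
  have cG := is_const_of_deriv_eq_zero (fun t => (hG t).differentiableAt)
    (fun t => (hG t).deriv) t 0
  have hc := F54.cc_pos h0 h1
  have a0 : aa s 0 = 0 := by unfold aa; simp
  have hCA0 : CA s 0 = 1 := by
    unfold F54.CA F54.W
    rw [cos_zero, mul_one, mul_one]
    exact div_self hc.ne'
  have hSA0 : SA s 0 = 0 := by unfold F54.SA; simp
  simp only [a0, cos_zero, sin_zero, hCA0, hSA0] at cF cG
  have hCS := F54.CS h0 h1 t
  constructor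
  · linear_combination (CA s t) * cF + (SA s t) * cG - (cos (aa s t)) * hCS
  · linear_combination (SA s t) * cF - (CA s t) * cG - (sin (aa s t)) * hCS

theorem AP_pi (t : ℝ) : AP s (t + π) = AP s t := by
  unfold F54.AP F54.W
  rw [cos_add_pi, mul_neg, neg_sq]

theorem aa_pi (t : ℝ) : aa s (t + π) = aa s t + π := by
  have hG : ∀ t, HasDerivAt (fun t => aa s (t + π) - aa s t) 0 t := by
    intro t
    have h := ((aa_der h0 h1 (t + π)).comp_add_const t π).fun_sub (aa_der h0 h1 t)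
    exact h.congr_deriv (by rw [AP_pi h0 h1, sub_self])
  have c1 := is_const_of_deriv_eq_zero (fun t => (hG t).differentiableAt)
    (fun t => (hG t).deriv)
  have a0 : aa s 0 = 0 := by unfold aa; simp
  have e1 := c1 t 0
  have e2 := c1 π 0
  have e3 : aa s (2 * π) = 2 * π := F54.int_AP h0 h1
  simp only [zero_add, a0, sub_zero] at e1 e2
  rw [← two_mul, e3] at e2
  linarith

theorem AP_eq (t : ℝ) : AP s t * cc s = 1 - s ^ 2 * SA s t ^ 2 := by
  have hW := F54.W_pos h0 h1 t
  have h2 := F54.W_sq h0 h1 t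
  have h3 := F54.cc_sq h0 h1
  have h4 := sin_sq_add_cos_sq t
  unfold F54.AP F54.SA
  rw [div_mul_eq_mul_div, ← sq, div_eq_iff (by positivity), sub_mul, div_pow]
  rw [mul_assoc, div_mul_cancel₀ _ (by positivity)]
  linear_combination h3 - h2 + s ^ 2 * h4

theorem AP_nonneg (t : ℝ) : 0 ≤ AP s t := by
  unfold F54.AP
  have := F54.cc_pos h0 h1
  positivity

theorem AP_le (t : ℝ) : AP s t ≤ 1 / cc s := by
  rw [le_div_iff₀ (F54.cc_pos h0 h1), AP_eq h0 h1]
  nlinarith [sq_nonneg (s * SA s t)]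

theorem aa_lip : LipschitzWith (Real.toNNReal (1 / cc s)) (aa s) := by
  have hc := F54.cc_pos h0 h1
  apply lipschitzWith_of_nnnorm_deriv_le (fun t => (aa_der h0 h1 t).differentiableAt)
  intro t
  rw [(aa_der h0 h1 t).deriv, ← NNReal.coe_le_coe, coe_nnnorm, Real.coe_toNNReal _ (by positivity),
    Real.norm_eq_abs, abs_of_nonneg (AP_nonneg h0 h1 t)]
  exact AP_le h0 h1 t

theorem abs_SA (t : ℝ) : |SA s t| ≤ 1 := by
  have := F54.CS h0 h1 t
  rw [← sq_le_one_iff_abs_le_one]
  nlinarith [sq_nonneg (CA s t)]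

theorem arc_lip : LipschitzWith 1 (fun t => arcsin (s * cos t)) := by
  apply lipschitzWith_of_nnnorm_deriv_le (fun t => (F54.dg h0 h1 t).differentiableAt)
  intro t
  rw [(F54.dg h0 h1 t).deriv, ← NNReal.coe_le_coe, coe_nnnorm, Real.norm_eq_abs, NNReal.coe_one,
    abs_neg, abs_mul, abs_of_nonneg h0]
  have := abs_SA h0 h1 t
  nlinarith [abs_nonneg (SA s t)]

end a

section c

variable {s : ℝ} (h0 : 0 ≤ s) (h1 : s < 1) {f : ℝ → ℝ}

include h0 h1

theorem xs_lip (hf : Ef f) : LipschitzWith (Real.toNNReal (s / cc s) * 2) (xs s f) := by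
  have hc := F54.cc_pos h0 h1
  have h := (hf.lip.sub (arc_lip h0 h1))
  refine LipschitzWith.of_dist_le_mul fun a b => ?_
  have h2 := h.dist_le_mul a b
  rw [NNReal.coe_mul, Real.coe_toNNReal _ (by positivity)]
  unfold xs
  rw [Real.dist_eq] at h2 ⊢
  rw [← mul_sub, abs_mul, abs_of_nonneg (by positivity)]
  simp only [Pi.sub_apply, NNReal.coe_add, NNReal.coe_one, NNReal.coe_ofNat] at h2 ⊢
  have h3 : (0:ℝ) ≤ s / cc s := by positivity
  calc s / cc s * |f a - arcsin (s * cos a) - (f b - arcsin (s * cos b))|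
      ≤ s / cc s * ((1 + 1) * dist a b) := by gcongr
    _ = s / cc s * 2 * dist a b := by ring

theorem xs_pi (hf : Ef f) (t : ℝ) : xs s f (t + π) = -xs s f t := by
  unfold xs
  rw [hf.odd, cos_add_pi, mul_neg, arcsin_neg]
  ring

theorem xs_der {f' t : ℝ} (hd : HasDerivAt f f' t) :
    HasDerivAt (xs s f) (s / cc s * (f' + s * SA s t)) t := by
  have h := (hd.fun_sub (F54.dg h0 h1 t)).const_mul (s / cc s)
  exact h.congr_deriv (by ring)

end c

/-! ### Lipschitz bounds -/

theorem arctan_lip (a b : ℝ) : |arctan a - arctan b| ≤ |a - b| := by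
  have h : LipschitzWith 1 arctan := by
    apply lipschitzWith_of_nnnorm_deriv_le differentiable_arctan
    intro t
    rw [Real.deriv_arctan, ← NNReal.coe_le_coe, coe_nnnorm, Real.norm_eq_abs, NNReal.coe_one,
      abs_of_nonneg (by positivity), div_le_one (by positivity)]
    nlinarith [sq_nonneg t]
  have := h.dist_le_mul a b
  simpa [Real.dist_eq] using this

theorem lip_u {x y a b S S' : ℝ} (hx : |x| < 1) (hy : |y| < 1) (hS : |S| ≤ 2) (hS' : |S'| ≤ 2)
    (hSS : |S - S'| ≤ |a - b|) :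
    |arctan (x * S / (2 - x * cos a)) - arctan (y * S' / (2 - y * cos b))| ≤
      8 * |x - y| + 5 * |a - b| := by
  refine (arctan_lip _ _).trans ?_
  have hD := D1_pos hx a
  have hE := D1_pos hy b
  have hxc := abs_lt.1 (xcos hx a)
  have hyc := abs_lt.1 (xcos hy b)
  set M := 2 - x * cos a with hM
  set M' := 2 - y * cos b with hM'
  have hM1 : 1 ≤ M := by linarith
  have hM2 : M ≤ 3 := by linarith [hxc.1]
  have hM1' : 1 ≤ M' := by linarith
  have hM2' : M' ≤ 3 := by linarith [hyc.1]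
  have hcos : |cos a - cos b| ≤ |a - b| := by
    have := lipschitzWith_cos.dist_le_mul a b
    simpa [Real.dist_eq] using this
  have hN : |x * S - y * S'| ≤ 2 * |x - y| + |a - b| := by
    have e : x * S - y * S' = (x - y) * S + y * (S - S') := by ring
    rw [e]
    calc |(x - y) * S + y * (S - S')| ≤ |(x - y) * S| + |y * (S - S')| := abs_add_le _ _
      _ = |x - y| * |S| + |y| * |S - S'| := by rw [abs_mul, abs_mul]
      _ ≤ |x - y| * 2 + 1 * |a - b| := by gcongr
      _ = _ := by ring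
  have hMM : |M - M'| ≤ |x - y| + |a - b| := by
    have e : M - M' = -((x - y) * cos a + y * (cos a - cos b)) := by rw [hM, hM']; ring
    rw [e, abs_neg]
    calc |(x - y) * cos a + y * (cos a - cos b)| ≤ |(x - y) * cos a| + |y * (cos a - cos b)| :=
          abs_add_le _ _
      _ = |x - y| * |cos a| + |y| * |cos a - cos b| := by rw [abs_mul, abs_mul]
      _ ≤ |x - y| * 1 + 1 * |a - b| := by
          gcongr
          exact abs_cos_le_one a
      _ = _ := by ring
  have hyS : |y * S'| ≤ 2 := by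
    rw [abs_mul]
    calc |y| * |S'| ≤ 1 * 2 := by gcongr
      _ = 2 := by norm_num
  have e2 : x * S / M - y * S' / M' = ((x * S - y * S') * M' - (y * S') * (M - M')) / (M * M') := by
    field_simp
    ring
  rw [e2, abs_div, abs_of_pos (show 0 < M * M' by positivity), div_le_iff₀ (by positivity)]
  have h3 : |(x * S - y * S') * M' - y * S' * (M - M')| ≤ |x * S - y * S'| * 3 + 2 * |M - M'| := by
    calc |(x * S - y * S') * M' - y * S' * (M - M')|
        ≤ |(x * S - y * S') * M'| + |y * S' * (M - M')| := abs_sub _ _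
      _ = |x * S - y * S'| * |M'| + |y * S'| * |M - M'| := by rw [abs_mul, abs_mul]
      _ ≤ _ := by
          rw [abs_of_pos (show 0 < M' by linarith)]
          gcongr
  have h4 : |x * S - y * S'| * 3 + 2 * |M - M'| ≤ 8 * |x - y| + 5 * |a - b| := by linarith
  have h5 : 0 ≤ 8 * |x - y| + 5 * |a - b| := by positivity
  have h6 : 1 ≤ M * M' := by nlinarith
  calc _ ≤ 8 * |x - y| + 5 * |a - b| := h3.trans h4
    _ ≤ _ := by nlinarith

section d

variable {s : ℝ} (h0 : 0 ≤ s) (h1 : s < 1) {f : ℝ → ℝ}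

include h0 h1

theorem pp_lip (hf : Ef f) (hx : ∀ t, |xs s f t| < 1) : ∃ C : ℝ≥0, LipschitzWith C (pp s f) := by
  have hc := F54.cc_pos h0 h1
  have l1 := xs_lip h0 h1 hf
  have l2 := aa_lip h0 h1
  refine ⟨Real.toNNReal (16 * ((s / cc s) * 2) + 11 * (1 / cc s)), ?_⟩
  refine LipschitzWith.of_dist_le_mul fun t u => ?_
  rw [Real.coe_toNNReal _ (by positivity)]
  have d1 := l1.dist_le_mul t u
  have d2 := l2.dist_le_mul t u
  rw [NNReal.coe_mul, Real.coe_toNNReal _ (by positivity), NNReal.coe_ofNat] at d1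
  rw [Real.coe_toNNReal _ (by positivity)] at d2
  have hS : ∀ a : ℝ, |1 + sin a| ≤ 2 := fun a => by
    rw [abs_le]; constructor <;> linarith [neg_one_le_sin a, sin_le_one a]
  have hSS : |(1 + sin (aa s t)) - (1 + sin (aa s u))| ≤ |aa s t - aa s u| := by
    have := lipschitzWith_sin.dist_le_mul (aa s t) (aa s u)
    simpa [Real.dist_eq] using this
  have h3 := lip_u (hx t) (hx u) (hS _) (hS _) hSS
  rw [Real.dist_eq] at d1 d2 ⊢
  unfold pp px u1
  have e : aa s t + 2 * arctan (xs s f t * (1 + sin (aa s t)) / (2 - xs s f t * cos (aa s t))) -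
      (aa s u + 2 * arctan (xs s f u * (1 + sin (aa s u)) / (2 - xs s f u * cos (aa s u)))) =
      (aa s t - aa s u) + 2 * (arctan (xs s f t * (1 + sin (aa s t)) / (2 - xs s f t * cos (aa s t))) -
        arctan (xs s f u * (1 + sin (aa s u)) / (2 - xs s f u * cos (aa s u)))) := by ring
  rw [e]
  refine (abs_add_le _ _).trans ?_
  rw [abs_mul, abs_two]
  nlinarith

theorem nn_lip (hf : Ef f) (hx : ∀ t, |xs s f t| < 1) : ∃ C : ℝ≥0, LipschitzWith C (nn s f) := by
  have hc := F54.cc_pos h0 h1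
  have l1 := xs_lip h0 h1 hf
  have l2 := aa_lip h0 h1
  refine ⟨Real.toNNReal (16 * ((s / cc s) * 2) + 11 * (1 / cc s)), ?_⟩
  refine LipschitzWith.of_dist_le_mul fun t u => ?_
  rw [Real.coe_toNNReal _ (by positivity)]
  have d1 := l1.dist_le_mul t u
  have d2 := l2.dist_le_mul t u
  rw [NNReal.coe_mul, Real.coe_toNNReal _ (by positivity), NNReal.coe_ofNat] at d1
  rw [Real.coe_toNNReal _ (by positivity)] at d2
  have hS : ∀ a : ℝ, |1 - sin a| ≤ 2 := fun a => by
    rw [abs_le]; constructor <;> linarith [neg_one_le_sin a, sin_le_one a]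
  have hSS : |(1 - sin (aa s t)) - (1 - sin (aa s u))| ≤ |aa s t - aa s u| := by
    have := lipschitzWith_sin.dist_le_mul (aa s u) (aa s t)
    rw [abs_sub_comm (aa s t)]
    simpa [Real.dist_eq] using this
  have h3 := lip_u (hx t) (hx u) (hS _) (hS _) hSS
  rw [Real.dist_eq] at d1 d2 ⊢
  unfold nn nx u2
  have e : aa s t - 2 * arctan (xs s f t * (1 - sin (aa s t)) / (2 - xs s f t * cos (aa s t))) -
      (aa s u - 2 * arctan (xs s f u * (1 - sin (aa s u)) / (2 - xs s f u * cos (aa s u)))) =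
      (aa s t - aa s u) - 2 * (arctan (xs s f t * (1 - sin (aa s t)) / (2 - xs s f t * cos (aa s t))) -
        arctan (xs s f u * (1 - sin (aa s u)) / (2 - xs s f u * cos (aa s u)))) := by ring
  rw [e]
  refine (abs_sub _ _).trans ?_
  rw [abs_mul, abs_two]
  nlinarith

/-- lower bound of the derivative of `p` -/
theorem dpp_ge {f' t : ℝ} (hx : |xs s f t| < 1) (hd : HasDerivAt f f' t) (hf' : |f'| ≤ 1) :
    ∃ p', HasDerivAt (pp s f) p' t ∧ (1 - s) ^ 2 / (3 * cc s) ≤ p' := by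
  have hc := F54.cc_pos h0 h1
  have h := dpx (xs_der h0 h1 hd) (aa_der h0 h1 t) hx
  refine ⟨_, h, ?_⟩
  have hSA := (cs_aa h0 h1 t).2
  rw [hSA]
  have hA := AP_eq h0 h1 t
  have hS := abs_le.1 (abs_SA h0 h1 t)
  have hf2 := abs_le.1 hf'
  have hx2 := abs_lt.1 hx
  have hxc := abs_lt.1 (xcos hx (aa s t))
  set S := SA s t with hSdef
  set x := xs s f t with hxdef
  set D := 2 - 2 * x * cos (aa s t) + x ^ 2 * (1 + S) with hD
  have hx3 : x ^ 2 < 1 := (sq_lt_one_iff_abs_lt_one x).2 hx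
  have hDpos : 0 < D := by nlinarith [mul_nonneg (sq_nonneg x) (show 0 ≤ 1 + S by linarith)]
  have hD6 : D ≤ 6 := by nlinarith [mul_le_mul hx3.le (show 1 + S ≤ 2 by linarith) (by linarith) zero_le_one]
  have key : (1 - s) ^ 2 / cc s ≤ AP s t + (1 + S) * (s / cc s * (f' + s * S)) := by
    rw [div_le_iff₀ hc]
    have e : (AP s t + (1 + S) * (s / cc s * (f' + s * S))) * cc s =
        (1 - s ^ 2 * S ^ 2) + (1 + S) * (s * (f' + s * S)) := by
      rw [← hA]; field_simp
    rw [e]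
    have h5 : (1 + S) * (s * (-1 + s * S)) ≤ (1 + S) * (s * (f' + s * S)) := by
      apply mul_le_mul_of_nonneg_left _ (by linarith)
      apply mul_le_mul_of_nonneg_left _ h0
      linarith
    have h6 : 1 - s ≤ 1 - s * S := by nlinarith
    have h7 : (1 - s) ^ 2 ≤ (1 - s * S) * (1 - s) := by
      rw [sq]; apply mul_le_mul_of_nonneg_right h6; linarith
    nlinarith
  have h8 : 0 ≤ (1 - s) ^ 2 / cc s := by positivity
  calc (1 - s) ^ 2 / (3 * cc s) = 2 / 6 * ((1 - s) ^ 2 / cc s) := by field_simp; ring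
    _ ≤ 2 / D * (AP s t + (1 + S) * (s / cc s * (f' + s * S))) := by
        apply mul_le_mul _ key h8 (by positivity)
        gcongr

/-- lower bound of the derivative of `n` -/
theorem dnn_ge {f' t : ℝ} (hx : |xs s f t| < 1) (hd : HasDerivAt f f' t) (hf' : |f'| ≤ 1) :
    ∃ n', HasDerivAt (nn s f) n' t ∧ (1 - s) ^ 2 / (3 * cc s) ≤ n' := by
  have hc := F54.cc_pos h0 h1
  have h := dnx (xs_der h0 h1 hd) (aa_der h0 h1 t) hx
  refine ⟨_, h, ?_⟩
  have hSA := (cs_aa h0 h1 t).2
  rw [hSA]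
  have hA := AP_eq h0 h1 t
  have hS := abs_le.1 (abs_SA h0 h1 t)
  have hf2 := abs_le.1 hf'
  have hx2 := abs_lt.1 hx
  have hxc := abs_lt.1 (xcos hx (aa s t))
  set S := SA s t with hSdef
  set x := xs s f t with hxdef
  set D := 2 - 2 * x * cos (aa s t) + x ^ 2 * (1 - S) with hD
  have hx3 : x ^ 2 < 1 := (sq_lt_one_iff_abs_lt_one x).2 hx
  have hDpos : 0 < D := by nlinarith [mul_nonneg (sq_nonneg x) (show 0 ≤ 1 - S by linarith)]
  have hD6 : D ≤ 6 := by nlinarith [mul_le_mul hx3.le (show 1 - S ≤ 2 by linarith) (by linarith) zero_le_one]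
  have key : (1 - s) ^ 2 / cc s ≤ AP s t - (1 - S) * (s / cc s * (f' + s * S)) := by
    rw [div_le_iff₀ hc]
    have e : (AP s t - (1 - S) * (s / cc s * (f' + s * S))) * cc s =
        (1 - s ^ 2 * S ^ 2) - (1 - S) * (s * (f' + s * S)) := by
      rw [← hA]; field_simp
    rw [e]
    have h5 : (1 - S) * (s * (f' + s * S)) ≤ (1 - S) * (s * (1 + s * S)) := by
      apply mul_le_mul_of_nonneg_left _ (by linarith)
      apply mul_le_mul_of_nonneg_left _ h0
      linarith
    have h6 : 1 - s ≤ 1 + s * S := by nlinarith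
    have h7 : (1 - s) ^ 2 ≤ (1 + s * S) * (1 - s) := by
      rw [sq]; apply mul_le_mul_of_nonneg_right h6; linarith
    nlinarith
  have h8 : 0 ≤ (1 - s) ^ 2 / cc s := by positivity
  calc (1 - s) ^ 2 / (3 * cc s) = 2 / 6 * ((1 - s) ^ 2 / cc s) := by field_simp; ring
    _ ≤ 2 / D * (AP s t - (1 - S) * (s / cc s * (f' + s * S))) := by
        apply mul_le_mul _ key h8 (by positivity)
        gcongr

omit h0 h1 in
/-- a Lipschitz function with derivative `≥ κ` almost everywhere -/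
theorem mono_of_ae {P : ℝ → ℝ} {C : ℝ≥0} (hP : LipschitzWith C P) (hf : LipschitzWith 1 f) {κ : ℝ}
    (h : ∀ t f', HasDerivAt f f' t → |f'| ≤ 1 → ∃ p', HasDerivAt P p' t ∧ κ ≤ p') {a b : ℝ}
    (hab : a ≤ b) : κ * (b - a) ≤ P b - P a := by
  have hAC := (hP.lipschitzOnWith (s := uIcc a b)).absolutelyContinuousOnInterval
  rw [← hAC.integral_deriv_eq_sub]
  have e : κ * (b - a) = ∫ _ in a..b, κ := by
    rw [intervalIntegral.integral_const, smul_eq_mul]; ring
  rw [e]
  apply intervalIntegral.integral_mono_ae hab intervalIntegrable_const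
    hAC.intervalIntegrable_deriv
  filter_upwards [hf.ae_differentiableAt] with t ht
  obtain ⟨p', hp, hk⟩ := h t _ ht.hasDerivAt (F54.abs_deriv hf t)
  rw [hp.deriv]
  exact hk

theorem pp_low (hf : Ef f) (hx : ∀ t, |xs s f t| < 1) {a b : ℝ} (hab : a ≤ b) :
    (1 - s) ^ 2 / (3 * cc s) * (b - a) ≤ pp s f b - pp s f a := by
  obtain ⟨C, hC⟩ := pp_lip h0 h1 hf hx
  exact mono_of_ae hC hf.lip (fun t f' hd hf' => dpp_ge h0 h1 (hx t) hd hf') hab

theorem nn_low (hf : Ef f) (hx : ∀ t, |xs s f t| < 1) {a b : ℝ} (hab : a ≤ b) :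
    (1 - s) ^ 2 / (3 * cc s) * (b - a) ≤ nn s f b - nn s f a := by
  obtain ⟨C, hC⟩ := nn_lip h0 h1 hf hx
  exact mono_of_ae hC hf.lip (fun t f' hd hf' => dnn_ge h0 h1 (hx t) hd hf') hab

end d

end

end Pool.Agent.FPX.ST1
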