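import Mathlib
import Pool.Agent.FPX.CERQ
import Pool.Agent.FPX.XCP
import Pool.Agent.FPX.FAC0

/-
STR (helper18): from the inequality for the raw map (`raw_le`, `raw_gen`, `raw5`) and the start map
(`XCO.start`) to the interfaces `Start` and `Close` of FAC0.
-/

open MeasureTheory Set Filter Topology
open scoped ENNReal NNReal

noncomputable section

namespace Pool.Agent.FPX.STR

open Pool.Agent.FPX Pool.Agent.FPX.UMP Pool.Agent.FPX.UMQ Pool.Agent.FPX.UXA Pool.Agent.EWD Pool.Agent.FPM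
open Pool.Agent.FPX.XCO (dg raw)

variable {n : ℕ} {Φ : Fin (n + 2) → (ℝ → ℝ) → ℝ} {dΦ : Fin (n + 2) → (ℝ → ℝ) → (ℝ → ℝ) → ℝ} {K L : ℝ}

/-- the inequality for the raw map, on all surfaces -/
def RawB (Φ : Fin (n + 2) → (ℝ → ℝ) → ℝ) (B μ T : ℝ) : Prop := ∀ e : ℝ, 0 < e →
  ∃ d : ℝ, 0 < d ∧ ∀ (M : Type) [MetricSpace M] [CompactSpace M] (γ : ℝ → M) (C : Calc M γ), Bd γ →
    ∀ (ρ : ℝ) (m : ℕ), 0 ≤ ρ → ρ < 1 → 2 ≤ m → (1 - ρ) * (Real.pi / 2) + 2 * (Real.pi / m) ≤ d →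
      Integrable (CST.nur C fun i => pull γ ρ m (Φ i)) C.μ ∧
      B - e + μ * ∫ o, CST.nur C (fun i => pull γ ρ m (Φ i)) o ∂C.μ ≤ T * C.vol

/-- parameters below a threshold -/
theorem exists_par {d : ℝ} (hd : 0 < d) : ∃ (ρ : ℝ) (m : ℕ), 0 ≤ ρ ∧ ρ < 1 ∧ 2 ≤ m ∧
    (1 - ρ) * (Real.pi / 2) + 2 * (Real.pi / m) ≤ d := by
  obtain ⟨m, hm, hm2⟩ : ∃ m : ℕ, 2 ≤ m ∧ 4 * Real.pi / d ≤ m := by
    obtain ⟨m, hm⟩ := exists_nat_ge (4 * Real.pi / d)
    exact ⟨max m 2, le_max_right _ _, hm.trans (by exact_mod_cast le_max_left _ _)⟩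
  have hm0 : (0 : ℝ) < m := by
    have : 0 < m := by omega
    exact_mod_cast this
  have hpi := Real.pi_pos
  set ρ : ℝ := max 0 (1 - d / Real.pi) with hρ
  have hρ1 : ρ < 1 := by
    rw [hρ]
    refine max_lt one_pos ?_
    have : 0 < d / Real.pi := by positivity
    linarith
  have h1 : (1 - ρ) * (Real.pi / 2) ≤ d / 2 := by
    have h2 : 1 - d / Real.pi ≤ ρ := le_max_right _ _
    have h3 : (1 - ρ) * (Real.pi / 2) ≤ d / Real.pi * (Real.pi / 2) :=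
      mul_le_mul_of_nonneg_right (by linarith) (by positivity)
    have h4 : d / Real.pi * (Real.pi / 2) = d / 2 := by
      field_simp
    linarith
  have h2 : 2 * (Real.pi / m) ≤ d / 2 := by
    rw [div_le_iff₀ hd] at hm2
    rw [mul_div_assoc', div_le_iff₀ hm0]
    linarith
  exact ⟨ρ, m, le_max_left _ _, hρ1, hm, by linarith⟩

theorem vel_vv (u p : Fin (n + 2) → ℝ) : CNU.vel (CST.cc u) (CST.zt u) (CST.zt p) = CST.vv u p := by
  unfold CNU.vel CST.vv CST.ss CST.hh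
  have e : (starRingEnd ℂ (CST.zt u) * CST.zt p).re = u 0 * p 0 + u 1 * p 1 := by
    simp [CST.zt, Complex.mul_re]
  rw [e]
  push_cast
  ring

section Surface

variable {M : Type} [MetricSpace M] {γ : ℝ → M}

/-- `ν` of the map and of the raw map -/
theorem nuC_eq_nur {F : Fin 3 → M → ℝ} (C : Calc M γ) (hF : Sph γ F) {ρ : ℝ} {m : ℕ} :
    ∀ᵐ o ∂C.μ, (∀ i, F i (C.pt o) = raw γ (-C.sg) ρ m (Φ 0) (Φ 1) i (C.pt o)) →
      (∀ i, C.gx (F i) o = C.gx (raw γ (-C.sg) ρ m (Φ 0) (Φ 1) i) o ∧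
        C.gy (F i) o = C.gy (raw γ (-C.sg) ρ m (Φ 0) (Φ 1) i) o) →
      0 < pull γ ρ m (XCO.Cf (Φ 0) (Φ 1)) (C.pt o) →
      nuC C F o = CST.nur C (fun i => pull γ ρ m (Φ i)) o := by
  have hτ : (-C.sg) ^ 2 = 1 := by
    rcases C.pm with h | h <;> rw [h] <;> norm_num
  filter_upwards [CNU.ae_vel C hF hτ] with o ho h1 h2 h3
  have e2 : -C.sg * F 2 (C.pt o) = pull γ ρ m (XCO.Cf (Φ 0) (Φ 1)) (C.pt o) := by
    rw [h1 2]
    change -C.sg * (-C.sg * pull γ ρ m (XCO.Cf (Φ 0) (Φ 1)) (C.pt o)) = _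
    rw [← mul_assoc, ← sq, hτ, one_mul]
  obtain ⟨-, -, -, -, h4, -⟩ := ho (by rw [e2]; exact h3)
  set U : Fin (n + 2) → M → ℝ := fun i => pull γ ρ m (Φ i) with hU
  have ec : -C.sg * F 2 (C.pt o) = CST.cc (CST.vc U (C.pt o)) := by
    rw [e2]
    change √(1 - pull γ ρ m (Φ 0) (C.pt o) ^ 2 - pull γ ρ m (Φ 1) (C.pt o) ^ 2) =
      √(1 - (pull γ ρ m (Φ 0) (C.pt o) ^ 2 + pull γ ρ m (Φ 1) (C.pt o) ^ 2))
    congr 1
    ring
  have ez : (⟨F 0 (C.pt o), F 1 (C.pt o)⟩ : ℂ) = CST.zt (CST.vc U (C.pt o)) := by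
    rw [h1 0, h1 1]
    rfl
  have ex : (⟨C.gx (F 0) o, C.gx (F 1) o⟩ : ℂ) = CST.zt (CST.vx C U o) := by
    rw [(h2 0).1, (h2 1).1]
    rfl
  have ey : (⟨C.gy (F 0) o, C.gy (F 1) o⟩ : ℂ) = CST.zt (CST.vy C U o) := by
    rw [(h2 0).2, (h2 1).2]
    rfl
  have hx : CNU.vlx C (-C.sg) F o = CST.vv (CST.vc U (C.pt o)) (CST.vx C U o) := by
    unfold CNU.vlx
    rw [ec, ez, ex, vel_vv]
  have hy : CNU.vly C (-C.sg) F o = CST.vv (CST.vc U (C.pt o)) (CST.vy C U o) := by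
    unfold CNU.vly
    rw [ec, ez, ey, vel_vv]
  rw [h4, hx, hy, CNU.fB_sq, hτ]
  unfold CST.nur CST.ja
  ring

/-- the start map, with `ν` compared to `ν` of the raw map -/
theorem start_nu [CompactSpace M] (S : CST.Sys Φ dΦ K L) (C : Calc M γ) (hγ : Bd γ)
    (hC : ∀ᵐ o ∂C.μ, C.pt o ∉ range γ) {e : ℝ} (he : 0 < e) :
    ∃ δ : ℝ, 0 < δ ∧ ∀ (ρ : ℝ) (m : ℕ), 0 ≤ ρ → ρ < 1 → 2 ≤ m →
      (1 - ρ) * (Real.pi / 2) + 2 * (Real.pi / m) ≤ δ →
      Integrable (CST.nur C fun i => pull γ ρ m (Φ i)) C.μ →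
        ∃ F : Fin 3 → M → ℝ, Sph γ F ∧ (∫ o, jac C F o ∂C.μ) = 2 * Real.pi ∧
          (∀ᵐ o ∂C.μ, ‖dx C F o‖ ≤ L + e ∧ ‖dy C F o‖ ≤ L + e) ∧
          ∫ o, nuC C F o ∂C.μ ≤ ∫ o, CST.nur C (fun i => pull γ ρ m (Φ i)) o ∂C.μ + 2 * (L + e) ^ 2 * e := by
  have := C.fin
  have hL := S.map.L0
  obtain ⟨d, hd, hS, δ, hδ, H⟩ := XCO.start C hγ hC S.map he
  refine ⟨δ, hδ, fun ρ m hρ hρ1 hm hρm hint => ?_⟩
  have hm0 : m ≠ 0 := by omega
  obtain ⟨F, hF, hlip, -, -, -, hJ, hdb, hfar, hgr⟩ := H ρ m hρ hρ1 hm hρm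
  refine ⟨F, hF, hJ, hdb, ?_⟩
  set N : Om → ℝ := CST.nur C (fun i => pull γ ρ m (Φ i)) with hN
  have hN0 : ∀ o, 0 ≤ N o := by
    intro o
    rw [hN]
    unfold CST.nur CST.ja
    set a := CST.vv (CST.vc (fun i => pull γ ρ m (Φ i)) (C.pt o)) (CST.vx C (fun i => pull γ ρ m (Φ i)) o)
    set b := CST.vv (CST.vc (fun i => pull γ ρ m (Φ i)) (C.pt o)) (CST.vy C (fun i => pull γ ρ m (Φ i)) o)
    have h1 : (Complex.normSq a + Complex.normSq b) / 2 - C.sg * (starRingEnd ℂ a * b).im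
        = 2 * Complex.normSq (CNU.fB (-C.sg) a b) := by
      have hτ : (-C.sg) ^ 2 = 1 := by
        rcases C.pm with h | h <;> rw [h] <;> norm_num
      rw [CNU.fB_sq, hτ]
      ring
    rw [h1]
    have := Complex.normSq_nonneg (CNU.fB (-C.sg) a b)
    linarith
  set A : Set Om := {o | dg γ (C.pt o) < 2 * d} with hA
  have hmA : NullMeasurableSet A C.μ := by
    have hm : AEMeasurable (fun o => dg γ (C.pt o)) C.μ := C.meas_pt ⟨1, XCO.dg_lip γ⟩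
    exact nullMeasurableSet_lt hm aemeasurable_const
  have hle : ∀ᵐ o ∂C.μ, nuC C F o ≤ N o + A.indicator (fun _ => 2 * (L + e) ^ 2) o := by
    filter_upwards [nuC_eq_nur (Φ := Φ) C hF (ρ := ρ) (m := m), hgr, ae_perp C hF, hdb] with o h1 h2 h3 h4
    by_cases hdo : d < dg γ (C.pt o)
    · have h5 : nuC C F o = N o := h1 (fun i => hfar i _ hdo.le) (h2 hdo)
        (XCO.c_pos S.map (pf_ef hγ hρ hρ1 hm0 _))
      rw [h5]
      have : 0 ≤ A.indicator (fun _ => 2 * (L + e) ^ 2) o := indicator_nonneg (fun _ _ => by positivity) _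
      linarith
    · have hoA : o ∈ A := by
        change dg γ (C.pt o) < 2 * d
        linarith [not_lt.1 hdo]
      rw [indicator_of_mem hoA]
      have h6 := hN0 o
      have h7 : ‖dx C F o‖ ^ 2 ≤ (L + e) ^ 2 := pow_le_pow_left₀ (norm_nonneg _) h4.1 2
      have h8 : ‖dy C F o‖ ^ 2 ≤ (L + e) ^ 2 := pow_le_pow_left₀ (norm_nonneg _) h4.2 2
      have h9 : nuC C F o ≤ S2 C F o := by
        have g1 : nuC C F o = 2 * ‖qm (at' C F o) (dx C F o) (dy C F o)‖ ^ 2 := rfl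
        have g2 := norm_pm (norm_at (C := C) hF o) h3.1 h3.2
        have g3 : 0 ≤ 2 * ‖qp (at' C F o) (dx C F o) (dy C F o)‖ ^ 2 := by positivity
        unfold S2
        rw [g1]
        linarith
      unfold S2 at h9
      linarith
  have hi : Integrable (A.indicator fun _ : Om => 2 * (L + e) ^ 2) C.μ :=
    (integrable_const _).indicator₀ hmA
  have hint' : Integrable (fun o => N o + A.indicator (fun _ => 2 * (L + e) ^ 2) o) C.μ := hint.add hi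
  have h5 := integral_mono_ae (nuC_cint C hF.lip (φ := fun x => x) continuous_id) hint' hle
  have h6 : ∫ o, (N o + A.indicator (fun _ => 2 * (L + e) ^ 2) o) ∂C.μ =
      ∫ o, N o ∂C.μ + ∫ o, A.indicator (fun _ => 2 * (L + e) ^ 2) o ∂C.μ := integral_add hint hi
  have h7 : ∫ o, A.indicator (fun _ => 2 * (L + e) ^ 2) o ∂C.μ = (C.μ A).toReal * (2 * (L + e) ^ 2) := by
    rw [integral_indicator₀ hmA, setIntegral_const, smul_eq_mul]
    rfl
  have h8 : (C.μ A).toReal ≤ e := ENNReal.toReal_le_of_le_ofReal he.le hS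
  have h9 : (C.μ A).toReal * (2 * (L + e) ^ 2) ≤ e * (2 * (L + e) ^ 2) :=
    mul_le_mul_of_nonneg_right h8 (by positivity)
  calc ∫ o, nuC C F o ∂C.μ ≤ _ := h5
    _ = ∫ o, N o ∂C.μ + (C.μ A).toReal * (2 * (L + e) ^ 2) := by rw [h6, h7]
    _ ≤ ∫ o, N o ∂C.μ + 2 * (L + e) ^ 2 * e := by linarith

/-- **`Start` from the inequality for the raw map** -/
theorem start_of_raw (S : CST.Sys Φ dΦ K L) {B μ T : ℝ} (hμ : 0 < μ) (hT : 0 ≤ T) (H : RawB Φ B μ T)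
    {c₀ : ℝ} (hc0 : 0 ≤ c₀) (hc : L < Real.exp c₀) : Start ((2 * Real.pi * T - B) / μ) c₀ := by
  intro e he
  refine ⟨1, one_pos, fun M _ _ _ γ C hC hv => ?_⟩
  have hL := S.map.L0
  obtain ⟨d₁, hd₁, h1⟩ := H (μ * e / 4) (by positivity)
  -- the size of the collar
  set e' : ℝ := min (min 1 (Real.exp c₀ - L)) (e / (8 * (L + 1) ^ 2)) with he'
  have he0 : 0 < e' := lt_min (lt_min one_pos (by linarith)) (by positivity)
  have he1 : e' ≤ 1 := (min_le_left _ _).trans (min_le_left _ _)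
  have he2 : L + e' ≤ Real.exp c₀ := by
    have : e' ≤ Real.exp c₀ - L := (min_le_left _ _).trans (min_le_right _ _)
    linarith
  have he3 : 2 * (L + e') ^ 2 * e' ≤ e / 4 := by
    have g1 : e' ≤ e / (8 * (L + 1) ^ 2) := min_le_right _ _
    have g2 : (L + e') ^ 2 ≤ (L + 1) ^ 2 := pow_le_pow_left₀ (by positivity) (by linarith) 2
    calc 2 * (L + e') ^ 2 * e' ≤ 2 * (L + 1) ^ 2 * (e / (8 * (L + 1) ^ 2)) := by gcongr
      _ = e / 4 := by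
        field_simp
        norm_num
  obtain ⟨δ, hδ, h2⟩ := start_nu S C hC.bd hC.colb.1 he0
  obtain ⟨ρ, m, hρ, hρ1, hm, hρm⟩ := exists_par (lt_min hd₁ hδ)
  obtain ⟨hint, hraw⟩ := h1 M γ C hC.bd ρ m hρ hρ1 hm (hρm.trans (min_le_left _ _))
  obtain ⟨F, hF, hJ, hdb, hnu⟩ := h2 ρ m hρ hρ1 hm (hρm.trans (min_le_right _ _)) hint
  refine ⟨F, KY_start C hF hc0 ?_, hJ, ?_⟩
  · filter_upwards [hdb] with o ho
    have g1 : ‖dx C F o‖ ^ 2 ≤ Real.exp c₀ ^ 2 := pow_le_pow_left₀ (norm_nonneg _) (ho.1.trans he2) 2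
    have g2 : ‖dy C F o‖ ^ 2 ≤ Real.exp c₀ ^ 2 := pow_le_pow_left₀ (norm_nonneg _) (ho.2.trans he2) 2
    linarith
  · have g1 : T * C.vol ≤ T * (2 * Real.pi) := mul_le_mul_of_nonneg_left hv.le hT
    set I := ∫ o, CST.nur C (fun i => pull γ ρ m (Φ i)) o ∂C.μ with hI
    have g2 : I ≤ (2 * Real.pi * T - B) / μ + e / 4 := by
      have g3 : μ * I ≤ 2 * Real.pi * T - B + μ * e / 4 := by linarith
      have g4 : (2 * Real.pi * T - B) / μ + e / 4 = (2 * Real.pi * T - B + μ * e / 4) / μ := by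
        field_simp
      rw [g4, le_div_iff₀ hμ]
      linarith
    linarith

end Surface

/-- **`Close` from an area inequality** -/
theorem close_of_area {B T : ℝ} (hT : 0 < T) (H : ∀ (M : Type) [MetricSpace M] [CompactSpace M]
    (γ : ℝ → M) (C : Calc M γ), Bd γ → B ≤ T * C.vol) : Close (B / T) := by
  refine ⟨1, one_pos, fun M _ _ _ γ C hC => ?_⟩
  have h := H M γ C hC.bd
  rw [div_le_iff₀ hT]
  linarith

/-- the area inequality from the inequality for the raw map -/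
theorem close_of_raw {B μ T : ℝ} (hμ : 0 ≤ μ) (hT : 0 < T) (H : RawB Φ B μ T) : Close (B / T) := by
  refine close_of_area hT fun M _ _ γ C hγ => ?_
  refine le_of_forall_pos_sub_le fun e he => ?_
  obtain ⟨d, hd, h⟩ := H e he
  obtain ⟨ρ, m, hρ, hρ1, hm, hρm⟩ := exists_par hd
  obtain ⟨-, h1⟩ := h M γ C hγ ρ m hρ hρ1 hm hρm
  have h2 : 0 ≤ ∫ o, CST.nur C (fun i => pull γ ρ m (Φ i)) o ∂C.μ := by
    refine integral_nonneg fun o => ?_
    change 0 ≤ CST.nur C (fun i => pull γ ρ m (Φ i)) o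
    unfold CST.nur CST.ja
    set a := CST.vv (CST.vc (fun i => pull γ ρ m (Φ i)) (C.pt o)) (CST.vx C (fun i => pull γ ρ m (Φ i)) o)
    set b := CST.vv (CST.vc (fun i => pull γ ρ m (Φ i)) (C.pt o)) (CST.vy C (fun i => pull γ ρ m (Φ i)) o)
    have h1 : (Complex.normSq a + Complex.normSq b) / 2 - C.sg * (starRingEnd ℂ a * b).im
        = 2 * Complex.normSq (CNU.fB (-C.sg) a b) := by
      have hτ : (-C.sg) ^ 2 = 1 := by
        rcases C.pm with h | h <;> rw [h] <;> norm_num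
      rw [CNU.fB_sq, hτ]
      ring
    rw [h1]
    have := Complex.normSq_nonneg (CNU.fB (-C.sg) a b)
    linarith
  have h3 := mul_nonneg hμ h2
  linarith

/-! ### the local forms -/

theorem rawB5 {W Q Z : ℝ → ℝ} (hW : ContDiffOn ℝ 1 W (Ioi 0)) (hW0 : ContinuousOn W (Ici 0))
    (hQ : ContDiffOn ℝ 1 Q (Iio 1)) (hZ : ContDiffOn ℝ 1 Z (Iio 1))
    (hQ0 : Tendsto (fun c => Q (1 - c ^ 2) * c ^ 2) (𝓝[>] 0) (𝓝 0))
    (hZ0 : Tendsto (fun c => Z (1 - c ^ 2) * c ^ 2) (𝓝[>] 0) (𝓝 0)) {μ T : ℝ}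
    (H : OMS.Cert W Q Z μ T) : RawB OMS.Φ5 (2 * Real.pi * W 0) μ T :=
  fun _ he => OMS.raw5 hW hW0 hQ hZ hQ0 hZ0 H he

/-- `Start` from the certificate of the local forms -/
theorem start5 {W Q Z : ℝ → ℝ} (hW : ContDiffOn ℝ 1 W (Ioi 0)) (hW0 : ContinuousOn W (Ici 0))
    (hQ : ContDiffOn ℝ 1 Q (Iio 1)) (hZ : ContDiffOn ℝ 1 Z (Iio 1))
    (hQ0 : Tendsto (fun c => Q (1 - c ^ 2) * c ^ 2) (𝓝[>] 0) (𝓝 0))
    (hZ0 : Tendsto (fun c => Z (1 - c ^ 2) * c ^ 2) (𝓝[>] 0) (𝓝 0)) {μ : ℝ} (hμ : 0 < μ)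
    (H : OMS.Cert W Q Z μ 1) {c₀ : ℝ} (hc : 7 < Real.exp c₀) :
    Start (2 * Real.pi * (1 - W 0) / μ) c₀ := by
  have hc0 : 0 ≤ c₀ := by
    by_contra hcon
    have := Real.exp_le_exp.2 (not_le.1 hcon).le
    rw [Real.exp_zero] at this
    linarith
  have h := start_of_raw OMS.sys5 hμ zero_le_one (rawB5 hW hW0 hQ hZ hQ0 hZ0 H) hc0 hc
  have e : 2 * Real.pi * (1 - W 0) / μ = (2 * Real.pi * 1 - 2 * Real.pi * W 0) / μ := by ring
  rw [e]
  exact h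

/-- **`Close` from the inequality for the states**, the quick certificate -/
theorem close_q {q T : ℝ} (hT : 0 < T)
    (H : ∀ f, Ef f → 0 ≤ F54.X1 f → F54.X2 f = 0 → CERQ.StateQ q T f) : Close (2 * Real.pi / T) :=
  close_of_area hT fun M _ _ γ C hγ => CERQ.area_q H M γ C hγ

end Pool.Agent.FPX.STR
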