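import Mathlib
import Pool.Agent.FPX.STI

/-
STV (helper50): the nonlinear field of helper88. For an odd `1`-Lipschitz function `g`, a function
`v (θ, r)` and a weight `h ≥ 0`, the function `V (θ) = v (θ, g (θ))` satisfies
`∫ h V'² ≤ ∫ (h v_r² (θ, g) - ∫_0^g 2 (h' v_t + h v_tt) v_r dr) dθ`.
-/

open MeasureTheory intervalIntegral Set Filter Topology
open scoped NNReal

noncomputable section

namespace Pool.Agent.FPX.STV

/-- a field `v` on the strip `|r| < b`, of class `C²`, with `v (θ, 0) = 0`, equivariant under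
`(θ, r) ↦ (θ + π, -r)` -/
structure Fld (b : ℝ) (v vt vr vtt vtr : ℝ → ℝ → ℝ) : Prop where
  pos : 0 < b
  dt : ∀ θ r, |r| < b → HasDerivAt (fun θ => v θ r) (vt θ r) θ
  dr : ∀ θ r, |r| < b → HasDerivAt (fun r => v θ r) (vr θ r) r
  dtt : ∀ θ r, |r| < b → HasDerivAt (fun θ => vt θ r) (vtt θ r) θ
  drt : ∀ θ r, |r| < b → HasDerivAt (fun θ => vr θ r) (vtr θ r) θ
  dtr : ∀ θ r, |r| < b → HasDerivAt (fun r => vt θ r) (vtr θ r) r
  ct : ContinuousOn (fun p : ℝ × ℝ => vt p.1 p.2) {p | |p.2| < b}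
  cr : ContinuousOn (fun p : ℝ × ℝ => vr p.1 p.2) {p | |p.2| < b}
  ctt : ContinuousOn (fun p : ℝ × ℝ => vtt p.1 p.2) {p | |p.2| < b}
  ctr : ContinuousOn (fun p : ℝ × ℝ => vtr p.1 p.2) {p | |p.2| < b}
  z : ∀ θ, v θ 0 = 0
  od : ∀ θ r, v (θ + Real.pi) (-r) = -v θ r

namespace Fld

variable {b : ℝ} {v vt vr vtt vtr : ℝ → ℝ → ℝ} (F : Fld b v vt vr vtt vtr)
include F

theorem zt (θ : ℝ) : vt θ 0 = 0 := by
  have h := F.dt θ 0 (by simpa using F.pos)
  have h2 : HasDerivAt (fun θ => v θ 0) 0 θ := by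
    have e : (fun θ => v θ 0) = fun _ => (0 : ℝ) := funext F.z
    rw [e]
    exact hasDerivAt_const _ _
  exact h.unique h2

theorem odt (θ r : ℝ) (hr : |r| < b) : vt (θ + Real.pi) (-r) = -vt θ r := by
  have h1 := F.dt (θ + Real.pi) (-r) (by rwa [abs_neg])
  have h2 : HasDerivAt (fun θ => v (θ + Real.pi) (-r)) (vt (θ + Real.pi) (-r)) θ :=
    h1.comp_add_const θ Real.pi
  have e : (fun θ => v (θ + Real.pi) (-r)) = fun θ => -v θ r := funext fun θ => F.od θ r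
  rw [e] at h2
  exact h2.unique (F.dt θ r hr).neg

theorem odr (θ r : ℝ) (hr : |r| < b) : vr (θ + Real.pi) (-r) = vr θ r := by
  have h1 := F.dr (θ + Real.pi) (-r) (by rwa [abs_neg])
  have h2 : HasDerivAt (fun r => v (θ + Real.pi) (-r)) (vr (θ + Real.pi) (-r) * -1) r :=
    h1.comp r (hasDerivAt_neg r)
  have e : (fun r => v (θ + Real.pi) (-r)) = fun r => -v θ r := funext fun r => F.od θ r
  rw [e] at h2
  have h3 := h2.unique (F.dr θ r hr).neg
  linarith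

theorem pert (θ r : ℝ) (hr : |r| < b) : vt (θ + 2 * Real.pi) r = vt θ r := by
  have h1 := F.odt (θ + Real.pi) (-r) (by rwa [abs_neg])
  have h2 := F.odt θ r hr
  rw [neg_neg, h2, neg_neg] at h1
  rw [← h1]
  congr 1
  ring

theorem perr (θ r : ℝ) (hr : |r| < b) : vr (θ + 2 * Real.pi) r = vr θ r := by
  have h1 := F.odr (θ + Real.pi) (-r) (by rwa [abs_neg])
  have h2 := F.odr θ r hr
  rw [neg_neg, h2] at h1
  rw [← h1]
  congr 1
  ring

variable {m : ℝ} (hm : 0 ≤ m) (hmb : m < b) {g : ℝ → ℝ} (hg : ∀ θ, |g θ| ≤ m)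
include hm hmb hg

theorem eq_int (θ : ℝ) : v θ (g θ) = ∫ u in (0 : ℝ)..(g θ), vr θ u := by
  have h0 : |(0 : ℝ)| ≤ m := by simpa using hm
  rw [intervalIntegral.integral_eq_sub_of_hasDerivAt (f := fun r => v θ r) (f' := fun r => vr θ r)
    (fun u hu => F.dr θ u (lt_of_le_of_lt (STI.abs_le_of_uIcc (hg θ) hu) hmb))
    (STI.int_slice hmb F.cr θ h0 (hg θ)), F.z, sub_zero]

theorem chain {K : ℝ≥0} (hgl : LipschitzWith K g) {θ g' : ℝ} (hd : HasDerivAt g g' θ) :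
    HasDerivAt (fun θ => v θ (g θ)) (vt θ (g θ) + vr θ (g θ) * g') θ := by
  have h0 : |(0 : ℝ)| ≤ m := by simpa using hm
  have h1 := STI.hasDerivAt_F hm hmb F.drt F.cr F.ctr hg hgl hd
  have e : (fun θ => v θ (g θ)) = fun θ => ∫ u in (0 : ℝ)..(g θ), vr θ u :=
    funext fun θ => F.eq_int hm hmb hg θ
  rw [e]
  refine h1.congr_deriv ?_
  rw [intervalIntegral.integral_eq_sub_of_hasDerivAt (f := fun r => vt θ r) (f' := fun r => vtr θ r)
    (fun u hu => F.dtr θ u (lt_of_le_of_lt (STI.abs_le_of_uIcc (hg θ) hu) hmb))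
    (STI.int_slice hmb F.ctr θ h0 (hg θ)), F.zt]
  ring

omit hm hmb hg in
theorem odV (ho : ∀ θ, g (θ + Real.pi) = -g θ) (θ : ℝ) :
    v (θ + Real.pi) (g (θ + Real.pi)) = -v θ (g θ) := by
  rw [ho, F.od]

omit hm hg in
/-- bounds of the partial derivatives -/
theorem bd : ∃ L : ℝ, 0 ≤ L ∧ ∀ θ r, |r| ≤ m → |vt θ r| ≤ L ∧ |vr θ r| ≤ L := by
  have hsub : (Icc (0 : ℝ) (2 * Real.pi)) ×ˢ (Icc (-m) m) ⊆ {p : ℝ × ℝ | |p.2| < b} := by
    rintro ⟨x, y⟩ ⟨_, hy⟩
    exact lt_of_le_of_lt (abs_le.2 ⟨hy.1, hy.2⟩) hmb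
  obtain ⟨L1, hL1⟩ := (isCompact_Icc.prod isCompact_Icc).exists_bound_of_continuousOn
    (s := (Icc (0 : ℝ) (2 * Real.pi)) ×ˢ (Icc (-m) m)) (f := fun p : ℝ × ℝ => vt p.1 p.2)
    (F.ct.mono hsub)
  obtain ⟨L2, hL2⟩ := (isCompact_Icc.prod isCompact_Icc).exists_bound_of_continuousOn
    (s := (Icc (0 : ℝ) (2 * Real.pi)) ×ˢ (Icc (-m) m)) (f := fun p : ℝ × ℝ => vr p.1 p.2)
    (F.cr.mono hsub)
  refine ⟨max 0 (max L1 L2), le_max_left _ _, fun θ r hr => ?_⟩
  have hrb : |r| < b := lt_of_le_of_lt hr hmb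
  obtain ⟨y, hy, hy2⟩ : ∃ y ∈ Ico (0 : ℝ) (0 + 2 * Real.pi), (vt y r, vr y r) = (vt θ r, vr θ r) := by
    have hper : Function.Periodic (fun θ => (vt θ r, vr θ r)) (2 * Real.pi) := fun θ => by
      show (vt (θ + 2 * Real.pi) r, vr (θ + 2 * Real.pi) r) = (vt θ r, vr θ r)
      rw [F.pert θ r hrb, F.perr θ r hrb]
    obtain ⟨y, hy, hy2⟩ := hper.exists_mem_Ico Real.two_pi_pos θ 0
    exact ⟨y, hy, hy2.symm⟩
  have hmem : (y, r) ∈ (Icc (0 : ℝ) (2 * Real.pi)) ×ˢ (Icc (-m) m) :=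
    ⟨⟨hy.1, by linarith [hy.2]⟩, abs_le.1 hr⟩
  have k1 := hL1 (y, r) hmem
  have k2 := hL2 (y, r) hmem
  have e1 : vt y r = vt θ r := congrArg Prod.fst hy2
  have e2 : vr y r = vr θ r := congrArg Prod.snd hy2
  simp only [Real.norm_eq_abs] at k1 k2
  rw [e1] at k1
  rw [e2] at k2
  exact ⟨k1.trans (le_max_of_le_right (le_max_left _ _)), k2.trans (le_max_of_le_right (le_max_right _ _))⟩

omit hm in
theorem lipV {K : ℝ≥0} (hgl : LipschitzWith K g) : ∃ C : ℝ≥0, LipschitzWith C fun θ => v θ (g θ) := by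
  obtain ⟨L, hL, hb⟩ := F.bd hmb
  refine ⟨Real.toNNReal (L * K + L), LipschitzWith.of_dist_le_mul fun x y => ?_⟩
  rw [Real.coe_toNNReal _ (by positivity), Real.dist_eq, Real.dist_eq]
  have hlip : |g x - g y| ≤ K * |x - y| := by
    have := hgl.dist_le_mul x y
    simpa [Real.dist_eq] using this
  have h1 : |v x (g x) - v x (g y)| ≤ L * |g x - g y| := by
    have h3 := Convex.norm_image_sub_le_of_norm_hasDerivWithin_le
      (f := fun r => v x r) (f' := fun r => vr x r) (s := Icc (-m) m) (C := L)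
      (fun z hz => (F.dr x z (lt_of_le_of_lt (abs_le.2 hz) hmb)).hasDerivWithinAt)
      (fun z hz => (hb x z (abs_le.2 hz)).2) (convex_Icc _ _) (abs_le.1 (hg y)) (abs_le.1 (hg x))
    simpa [Real.norm_eq_abs] using h3
  have h2 : |v x (g y) - v y (g y)| ≤ L * |x - y| := by
    have h3 := Convex.norm_image_sub_le_of_norm_hasDerivWithin_le
      (f := fun t => v t (g y)) (f' := fun t => vt t (g y)) (s := univ) (C := L)
      (fun z _ => (F.dt z (g y) (lt_of_le_of_lt (hg y) hmb)).hasDerivWithinAt)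
      (fun z _ => (hb z (g y) (hg y)).1) convex_univ (mem_univ y) (mem_univ x)
    simpa [Real.norm_eq_abs] using h3
  have h4 : v x (g x) - v y (g y) = (v x (g x) - v x (g y)) + (v x (g y) - v y (g y)) := by ring
  have h5 := abs_add_le (v x (g x) - v x (g y)) (v x (g y) - v y (g y))
  rw [h4]
  have h6 : L * |g x - g y| ≤ L * (K * |x - y|) := mul_le_mul_of_nonneg_left hlip hL
  nlinarith

end Fld

theorem abs_deriv_le {K : ℝ≥0} {g : ℝ → ℝ} (hgl : LipschitzWith K g) (θ : ℝ) : |deriv g θ| ≤ K := by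
  have h := norm_deriv_le_of_lipschitz hgl (x₀ := θ)
  rwa [Real.norm_eq_abs] at h

/-- bounded measurable functions are integrable over an interval -/
theorem ii_of_bdd {f : ℝ → ℝ} (hf : Measurable f) {C : ℝ} (h : ∀ t, |f t| ≤ C) (a c : ℝ) :
    IntervalIntegrable f volume a c := by
  rw [intervalIntegrable_iff]
  refine Measure.integrableOn_of_bounded (M := C) ?_ hf.aestronglyMeasurable
    (Filter.Eventually.of_forall fun t => by rw [Real.norm_eq_abs]; exact h t)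
  simp

namespace Fld

variable {b : ℝ} {v vt vr vtt vtr : ℝ → ℝ → ℝ} (F : Fld b v vt vr vtt vtr)
include F

variable {m : ℝ} (hm : 0 ≤ m) (hmb : m < b) {g : ℝ → ℝ} (hg : ∀ θ, |g θ| ≤ m)
include hm hmb hg

/-- **the field inequality** -/
theorem ineq (hgl : LipschitzWith 1 g) (ho : ∀ θ, g (θ + Real.pi) = -g θ) {h h' : ℝ → ℝ}
    (hd : ∀ θ, HasDerivAt h (h' θ) θ) (hc : Continuous h') (h0 : ∀ θ, 0 ≤ h θ)
    (hp : ∀ θ, h (θ + Real.pi) = h θ) :
    ∫ θ in (0 : ℝ)..(2 * Real.pi), h θ * deriv (fun θ => v θ (g θ)) θ ^ 2 ≤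
      ∫ θ in (0 : ℝ)..(2 * Real.pi), (h θ * vr θ (g θ) ^ 2
        - ∫ u in (0 : ℝ)..(g θ), 2 * ((h' θ * vt θ u + h θ * vtt θ u) * vr θ u)) := by
  have hhc : Continuous h := continuous_iff_continuousAt.2 fun θ => (hd θ).continuousAt
  have ch : ContinuousOn (fun p : ℝ × ℝ => h p.1) {p | |p.2| < b} := (hhc.comp continuous_fst).continuousOn
  have ch' : ContinuousOn (fun p : ℝ × ℝ => h' p.1) {p | |p.2| < b} := (hc.comp continuous_fst).continuousOn
  have g2 : g (2 * Real.pi) = g 0 := by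
    rw [show 2 * Real.pi = 0 + Real.pi + Real.pi by ring, ho, ho, neg_neg]
  have h2 : h (2 * Real.pi) = h 0 := by
    rw [show 2 * Real.pi = 0 + Real.pi + Real.pi by ring, hp, hp]
  have st := STI.stokes hm hmb (P := fun θ r => h θ * vt θ r ^ 2) (Pr := fun θ r => h θ * (2 * vt θ r * vtr θ r))
    (Q := fun θ r => 2 * h θ * vt θ r * vr θ r)
    (Qt := fun θ r => 2 * ((h' θ * vt θ r + h θ * vtt θ r) * vr θ r) + 2 * (h θ * vt θ r * vtr θ r))
    (fun θ r hr => by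
      have k := ((F.dtr θ r hr).pow 2).const_mul (h θ)
      refine k.congr_deriv ?_
      push_cast
      ring)
    (ch.mul ((continuousOn_const.mul F.ct).mul F.ctr)) (ch.mul (F.ct.pow 2))
    (fun θ r hr => by
      have k := ((((hd θ).const_mul 2).mul (F.dtt θ r hr)).mul (F.drt θ r hr))
      refine k.congr_deriv ?_
      simp only [Pi.mul_apply]
      ring)
    (((continuousOn_const.mul ch).mul F.ct).mul F.cr)
    ((continuousOn_const.mul (((ch'.mul F.ct).add (ch.mul F.ctt)).mul F.cr)).add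
      (continuousOn_const.mul ((ch.mul F.ct).mul F.ctr)))
    hg hgl (a := 0) (c := 2 * Real.pi) g2
    (fun r hr => by
      have hrb := lt_of_le_of_lt hr hmb
      have e1 := F.pert 0 r hrb
      have e2 := F.perr 0 r hrb
      rw [zero_add] at e1 e2
      show 2 * h (2 * Real.pi) * vt (2 * Real.pi) r * vr (2 * Real.pi) r = 2 * h 0 * vt 0 r * vr 0 r
      rw [h2, e1, e2])
  obtain ⟨L, hL, hb⟩ := F.bd hmb
  have hgc := hgl.continuous
  have hcomp : ∀ {R : ℝ → ℝ → ℝ}, ContinuousOn (fun p : ℝ × ℝ => R p.1 p.2) {p | |p.2| < b} →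
      Continuous (fun θ => R θ (g θ)) := by
    intro R hR
    have h1 : Continuous (fun θ : ℝ => ((θ, g θ) : ℝ × ℝ)) := by fun_prop
    exact hR.comp_continuous h1 (fun θ => lt_of_le_of_lt (hg θ) hmb)
  have cvt := hcomp F.ct
  have cvr := hcomp F.cr
  obtain ⟨C, hC⟩ := F.lipV hmb hg hgl
  have hI1 : IntervalIntegrable (fun θ => h θ * deriv (fun θ => v θ (g θ)) θ ^ 2) volume 0 (2 * Real.pi) := by
    have k : IntervalIntegrable (fun θ => deriv (fun θ => v θ (g θ)) θ ^ 2) volume 0 (2 * Real.pi) :=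
      ii_of_bdd ((measurable_deriv _).pow_const 2) (C := (C : ℝ) ^ 2)
        (fun t => by
          rw [abs_pow]
          exact pow_le_pow_left₀ (abs_nonneg _) (abs_deriv_le hC t) 2) _ _
    exact k.continuousOn_mul hhc.continuousOn
  have hI2 : IntervalIntegrable (fun θ => h θ * vt θ (g θ) ^ 2 + 2 * h θ * vt θ (g θ) * vr θ (g θ) * deriv g θ)
      volume 0 (2 * Real.pi) := by
    have k : IntervalIntegrable (fun θ => deriv g θ) volume 0 (2 * Real.pi) :=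
      ii_of_bdd (measurable_deriv _) (abs_deriv_le hgl) _ _
    exact ((hhc.mul (cvt.pow 2)).intervalIntegrable _ _).add
      (k.continuousOn_mul (((continuous_const.mul hhc).mul cvt).mul cvr).continuousOn)
  have hI3 : IntervalIntegrable (fun θ => h θ * vr θ (g θ) ^ 2) volume 0 (2 * Real.pi) :=
    (hhc.mul (cvr.pow 2)).intervalIntegrable _ _
  have cQ : ContinuousOn (fun p : ℝ × ℝ => 2 * ((h' p.1 * vt p.1 p.2 + h p.1 * vtt p.1 p.2) * vr p.1 p.2))
      {p | |p.2| < b} := continuousOn_const.mul (((ch'.mul F.ct).add (ch.mul F.ctt)).mul F.cr)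
  have hI4 : IntervalIntegrable (fun θ => ∫ u in (0 : ℝ)..(g θ), 2 * ((h' θ * vt θ u + h θ * vtt θ u) * vr θ u))
      volume 0 (2 * Real.pi) :=
    (STI.int_cont hm hmb cQ hg hgc).intervalIntegrable _ _
  -- the pointwise inequality
  have hae : ∀ᵐ θ ∂volume, θ ∈ Icc (0 : ℝ) (2 * Real.pi) → h θ * deriv (fun θ => v θ (g θ)) θ ^ 2 ≤
      (h θ * vt θ (g θ) ^ 2 + 2 * h θ * vt θ (g θ) * vr θ (g θ) * deriv g θ) + h θ * vr θ (g θ) ^ 2 := by
    filter_upwards [hgl.ae_differentiableAt] with θ hθ _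
    have k := (F.chain hm hmb hg hgl hθ.hasDerivAt).deriv
    rw [k]
    have k2 := abs_deriv_le hgl θ
    rw [NNReal.coe_one] at k2
    have k3 : deriv g θ ^ 2 ≤ 1 := by
      rw [← sq_abs]
      exact pow_le_one₀ (abs_nonneg _) k2
    have k4 := mul_nonneg (h0 θ) (mul_nonneg (sq_nonneg (vr θ (g θ))) (sub_nonneg.2 k3))
    nlinarith
  have h2pi : (0 : ℝ) ≤ 2 * Real.pi := by positivity
  have main := intervalIntegral.integral_mono_ae_restrict h2pi hI1 (hI2.add hI3)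
    ((ae_restrict_iff' measurableSet_Icc).2 hae)
  refine main.trans (le_of_eq ?_)
  rw [intervalIntegral.integral_add hI2 hI3, intervalIntegral.integral_sub hI3 hI4]
  have e : ∫ θ in (0 : ℝ)..(2 * Real.pi), (h θ * vt θ (g θ) ^ 2 +
      2 * h θ * vt θ (g θ) * vr θ (g θ) * deriv g θ) =
      -∫ θ in (0 : ℝ)..(2 * Real.pi), ∫ u in (0 : ℝ)..(g θ), 2 * ((h' θ * vt θ u + h θ * vtt θ u) * vr θ u) := by
    refine st.trans ?_
    rw [← intervalIntegral.integral_neg]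
    refine intervalIntegral.integral_congr fun θ _ => ?_
    show h θ * vt θ 0 ^ 2 + (∫ u in (0 : ℝ)..(g θ), (h θ * (2 * vt θ u * vtr θ u)
      - (2 * ((h' θ * vt θ u + h θ * vtt θ u) * vr θ u) + 2 * (h θ * vt θ u * vtr θ u)))) = _
    rw [F.zt, ← intervalIntegral.integral_neg]
    have e2 : (fun u => h θ * (2 * vt θ u * vtr θ u)
      - (2 * ((h' θ * vt θ u + h θ * vtt θ u) * vr θ u) + 2 * (h θ * vt θ u * vtr θ u))) =
      fun u => -(2 * ((h' θ * vt θ u + h θ * vtt θ u) * vr θ u)) := by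
      funext u
      ring
    rw [e2]
    ring
  rw [e]
  ring

/-- **majorants**: a pointwise inequality in `(θ, r)` gives an inequality with `V` -/
theorem major (hgl : LipschitzWith 1 g) (ho : ∀ θ, g (θ + Real.pi) = -g θ) {h h' : ℝ → ℝ}
    (hd : ∀ θ, HasDerivAt h (h' θ) θ) (hc : Continuous h') (h0 : ∀ θ, 0 ≤ h θ)
    (hp : ∀ θ, h (θ + Real.pi) = h θ) {G : ℝ → ℝ → ℝ} {e0 e1 e2 : ℝ → ℝ}
    (hG : ContinuousOn (fun p : ℝ × ℝ => G p.1 p.2) {p | |p.2| < b})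
    (c0 : Continuous e0) (c1 : Continuous e1) (c2 : Continuous e2)
    (hpt : ∀ θ ∈ Icc (0 : ℝ) (2 * Real.pi), ∀ r, |r| ≤ m → G θ r + h θ * vr θ r ^ 2
        - ∫ u in (0 : ℝ)..r, 2 * ((h' θ * vt θ u + h θ * vtt θ u) * vr θ u)
        ≤ e0 θ + e1 θ * v θ r + e2 θ * v θ r ^ 2) :
    (∫ θ in (0 : ℝ)..(2 * Real.pi), G θ (g θ)) + ∫ θ in (0 : ℝ)..(2 * Real.pi),
        h θ * deriv (fun θ => v θ (g θ)) θ ^ 2 ≤
      ∫ θ in (0 : ℝ)..(2 * Real.pi), (e0 θ + e1 θ * v θ (g θ) + e2 θ * v θ (g θ) ^ 2) := by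
  have k := F.ineq hm hmb hg hgl ho hd hc h0 hp
  have hhc : Continuous h := continuous_iff_continuousAt.2 fun θ => (hd θ).continuousAt
  have hgc := hgl.continuous
  obtain ⟨C, hC⟩ := F.lipV hmb hg hgl
  have hcomp : ∀ {R : ℝ → ℝ → ℝ}, ContinuousOn (fun p : ℝ × ℝ => R p.1 p.2) {p | |p.2| < b} →
      Continuous (fun θ => R θ (g θ)) := by
    intro R hR
    have h1 : Continuous (fun θ : ℝ => ((θ, g θ) : ℝ × ℝ)) := by fun_prop
    exact hR.comp_continuous h1 (fun θ => lt_of_le_of_lt (hg θ) hmb)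
  have ch : ContinuousOn (fun p : ℝ × ℝ => h p.1) {p | |p.2| < b} := (hhc.comp continuous_fst).continuousOn
  have ch' : ContinuousOn (fun p : ℝ × ℝ => h' p.1) {p | |p.2| < b} := (hc.comp continuous_fst).continuousOn
  have cQ : ContinuousOn (fun p : ℝ × ℝ => 2 * ((h' p.1 * vt p.1 p.2 + h p.1 * vtt p.1 p.2) * vr p.1 p.2))
      {p | |p.2| < b} := continuousOn_const.mul (((ch'.mul F.ct).add (ch.mul F.ctt)).mul F.cr)
  have cvr := hcomp F.cr
  have hI1 : IntervalIntegrable (fun θ => G θ (g θ)) volume 0 (2 * Real.pi) :=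
    (hcomp hG).intervalIntegrable _ _
  have hI2 : IntervalIntegrable (fun θ => h θ * vr θ (g θ) ^ 2
        - ∫ u in (0 : ℝ)..(g θ), 2 * ((h' θ * vt θ u + h θ * vtt θ u) * vr θ u)) volume 0 (2 * Real.pi) :=
    ((hhc.mul (cvr.pow 2)).intervalIntegrable _ _).sub
      ((STI.int_cont hm hmb cQ hg hgc).intervalIntegrable _ _)
  have cV := hC.continuous
  have hI3 : IntervalIntegrable (fun θ => e0 θ + e1 θ * v θ (g θ) + e2 θ * v θ (g θ) ^ 2)
      volume 0 (2 * Real.pi) :=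
    ((c0.add (c1.mul cV)).add (c2.mul (cV.pow 2))).intervalIntegrable _ _
  have k2 := intervalIntegral.integral_mono_on (by positivity) (hI1.add hI2) hI3 (fun θ hθ => by
    have := hpt θ hθ (g θ) (hg θ)
    linarith)
  rw [intervalIntegral.integral_add hI1 hI2] at k2
  linarith

end Fld

end Pool.Agent.FPX.STV
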