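import Mathlib
import Pool.Agent.FPX.QST

/-
STW (helper50): the quadratic inequality of `QST` for arbitrary Lipschitz functions `V` with
`V (t + π) = -V t`, with the weight `h` of the derivative kept on the right hand side.
-/

set_option autoImplicit false

open MeasureTheory Set Filter Topology
open scoped NNReal

noncomputable section

namespace Pool.Agent.FPX.QST

section

variable {g : ℝ → ℝ} {C : ℝ≥0} (hL : LipschitzWith C g)
include hL

theorem lip_absC (a b : ℝ) : |g a - g b| ≤ C * |a - b| := by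
  have := hL.dist_le_mul a b
  rwa [Real.dist_eq, Real.dist_eq] at this

theorem gs_derivC (d t : ℝ) : HasDerivAt (gs g d) (gs' g d t) t := by
  have hc := hL.continuous
  have hG : ∀ s, HasDerivAt (fun s => ∫ u in (0 : ℝ)..s, g u) (g s) s := fun s =>
    intervalIntegral.integral_hasDerivAt_right (hc.intervalIntegrable _ _)
      (hc.stronglyMeasurableAtFilter _ _) hc.continuousAt
  have h1 : HasDerivAt (fun t => ∫ u in (0 : ℝ)..(t + d), g u) (g (t + d)) t := (hG (t + d)).comp_add_const t d
  have h2 : HasDerivAt (fun t => ∫ u in (0 : ℝ)..(t - d), g u) (g (t - d)) t := (hG (t - d)).comp_sub_const t d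
  exact (h1.sub h2).const_mul _

theorem gs'_contC (d : ℝ) : Continuous (gs' g d) := by
  have hc := hL.continuous
  unfold gs'
  fun_prop

theorem gs'_absC {d : ℝ} (hd : 0 < d) (t : ℝ) : |gs' g d t| ≤ C := by
  unfold gs'
  rw [abs_mul, abs_of_pos (by positivity : 0 < (2 * d)⁻¹)]
  have h := lip_absC hL (t + d) (t - d)
  have e : |t + d - (t - d)| = 2 * d := by
    rw [show t + d - (t - d) = 2 * d by ring, abs_of_pos (by positivity)]
  rw [e] at h
  calc (2 * d)⁻¹ * |g (t + d) - g (t - d)| ≤ (2 * d)⁻¹ * (C * (2 * d)) := mul_le_mul_of_nonneg_left h (by positivity)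
    _ = C := by field_simp

theorem gs_eqC (d t : ℝ) : gs g d t = (2 * d)⁻¹ * ∫ u in (t - d)..(t + d), g u := by
  have hc := hL.continuous
  unfold gs
  rw [intervalIntegral.integral_interval_sub_left (hc.intervalIntegrable _ _) (hc.intervalIntegrable _ _)]

theorem gs_nearC {d : ℝ} (hd : 0 < d) (t : ℝ) : |gs g d t - g t| ≤ C * d := by
  have hc := hL.continuous
  have e : gs g d t - g t = (2 * d)⁻¹ * ∫ u in (t - d)..(t + d), (g u - g t) := by
    rw [gs_eqC hL, intervalIntegral.integral_sub (hc.intervalIntegrable _ _) intervalIntegrable_const,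
      intervalIntegral.integral_const, smul_eq_mul]
    field_simp
    ring
  rw [e, abs_mul, abs_of_pos (by positivity : 0 < (2 * d)⁻¹)]
  have h := intervalIntegral.norm_integral_le_of_norm_le_const (a := t - d) (b := t + d) (C := C * d)
    (f := fun u => g u - g t) fun u hu => by
      rw [Real.norm_eq_abs]
      refine (lip_absC hL u t).trans ?_
      rw [Set.uIoc_of_le (by linarith)] at hu
      refine mul_le_mul_of_nonneg_left ?_ C.coe_nonneg
      rw [abs_le]
      constructor <;> linarith [hu.1, hu.2]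
  rw [Real.norm_eq_abs, show t + d - (t - d) = 2 * d by ring, abs_of_pos (by positivity : 0 < 2 * d)] at h
  calc (2 * d)⁻¹ * |∫ u in (t - d)..(t + d), (g u - g t)| ≤ (2 * d)⁻¹ * (C * d * (2 * d)) :=
      mul_le_mul_of_nonneg_left h (by positivity)
    _ = C * d := by field_simp

theorem gs_oddC (ho : ∀ t, g (t + Real.pi) = -g t) (d t : ℝ) : gs g d (t + Real.pi) = -gs g d t := by
  rw [gs_eqC hL, gs_eqC hL]
  have h := intervalIntegral.integral_comp_add_right (a := t - d) (b := t + d) g Real.pi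
  rw [show t - d + Real.pi = t + Real.pi - d by ring, show t + d + Real.pi = t + Real.pi + d by ring] at h
  rw [← h]
  simp only [ho]
  rw [intervalIntegral.integral_neg]
  ring

omit hL in
/-- the difference quotients converge to the derivative -/
theorem gs'_lim {t g' : ℝ} (hd : HasDerivAt g g' t) : Tendsto (fun d => gs' g d t) (𝓝[>] 0) (𝓝 g') := by
  have h1 : HasDerivAt (fun d : ℝ => g (t + d)) g' 0 := by
    have := HasDerivAt.comp_const_add (f := g) (f' := g') t 0 (by rwa [add_zero])
    exact this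
  have h2 : HasDerivAt (fun d : ℝ => g (t - d)) (-g') 0 := by
    have := HasDerivAt.comp_const_sub (f := g) (f' := g') t 0 (by rwa [sub_zero])
    exact this
  have h3 := h1.sub h2
  have h4 := hasDerivAt_iff_tendsto_slope.1 h3
  have h5 : Tendsto (fun d : ℝ => (2 : ℝ)⁻¹ * slope ((fun d : ℝ => g (t + d)) - fun d : ℝ => g (t - d)) 0 d)
      (𝓝[>] 0) (𝓝 ((2 : ℝ)⁻¹ * (g' - -g'))) :=
    (h4.mono_left (nhdsWithin_mono _ fun x hx => ne_of_gt hx)).const_mul _
  have e : (2 : ℝ)⁻¹ * (g' - -g') = g' := by ring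
  rw [e] at h5
  refine h5.congr fun d => ?_
  unfold gs'
  rw [slope_def_field]
  simp only [Pi.sub_apply, add_zero, sub_zero, sub_self]
  rw [mul_inv]
  field_simp

end

/-- **the inequality for odd Lipschitz functions**, with the weights of the derivative on the right -/
theorem main_lipC {g : ℝ → ℝ} {C : ℝ≥0} (hL : LipschitzWith C g) (ho : ∀ t, g (t + Real.pi) = -g t) {N K L : ℕ}
    {H : ℕ → ℕ → ℝ}
    (hH : ∀ v : ℕ → ℝ, 0 ≤ ∑ k ∈ Finset.range (K + 1), ∑ l ∈ Finset.range (K + 1), H k l * (v k * v l))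
    {eta : ℝ} (he : 0 ≤ eta) {p P : ℕ → ℝ} (hp : ∀ m, |p (m + 1)| ≤ P (m + 1))
    (hT : p 0 + ∑ m ∈ Finset.range L, P (m + 1) ≤ eta * (2 * N + 1) ^ 2) :
    Blk N K L H eta p P 1 (ca g) + Blk N K L H eta p P (-1) (sa g) + (mn fun t => g t ^ 2 * pf L p t)
      ≤ mn fun t => (hf K H t + eta) * deriv g t ^ 2 := by
  have hg := hL.continuous
  have hgs : ∀ d, Continuous (gs g d) := fun d =>
    continuous_iff_continuousAt.2 fun t => (gs_derivC hL d t).continuousAt
  have hlim : ∀ t, Tendsto (fun d => gs g d t) (𝓝[>] 0) (𝓝 (g t)) := by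
    intro t
    rw [tendsto_iff_norm_sub_tendsto_zero]
    have h1 : Tendsto (fun d : ℝ => (C : ℝ) * d) (𝓝[>] 0) (𝓝 0) := by
      have : Tendsto (fun d : ℝ => (C : ℝ) * d) (𝓝 0) (𝓝 ((C : ℝ) * 0)) := tendsto_id.const_mul _
      rw [mul_zero] at this
      exact this.mono_left nhdsWithin_le_nhds
    refine squeeze_zero' (Eventually.of_forall fun d => norm_nonneg _) ?_ h1
    filter_upwards [self_mem_nhdsWithin] with d hd
    rw [Real.norm_eq_abs]
    exact gs_nearC hL hd t
  obtain ⟨C0, hC0⟩ := isCompact_Icc.exists_bound_of_continuousOn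
    (s := Icc (0 : ℝ) (2 * Real.pi)) (f := g) hg.continuousOn
  have hbd : ∀ᶠ d in 𝓝[>] (0 : ℝ), ∀ t ∈ Set.uIoc (0 : ℝ) (2 * Real.pi), |gs g d t| ≤ C0 + C := by
    have h1 : ∀ᶠ d in 𝓝[>] (0 : ℝ), d < 1 :=
      (tendsto_id.mono_left nhdsWithin_le_nhds).eventually (gt_mem_nhds one_pos)
    filter_upwards [self_mem_nhdsWithin, h1] with d hd hd1 t ht
    have h2 := gs_nearC hL (show 0 < d from hd) t
    rw [Set.uIoc_of_le (by positivity)] at ht
    have h3 := hC0 t ⟨ht.1.le, ht.2⟩
    rw [Real.norm_eq_abs] at h3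
    have h4 : |gs g d t| ≤ |gs g d t - g t| + |g t| := by
      have := abs_add_le (gs g d t - g t) (g t)
      rwa [sub_add_cancel] at this
    have h5 : (C : ℝ) * d ≤ C := by
      nlinarith [C.coe_nonneg]
    linarith
  have hC00 : 0 ≤ C0 := (norm_nonneg _).trans (hC0 0 ⟨le_rfl, by positivity⟩)
  have hC1' : (0 : ℝ) ≤ C := C.coe_nonneg
  have lca : ∀ i, Tendsto (fun d => ca (gs g d) i) (𝓝[>] 0) (𝓝 (ca g i)) := by
    intro i
    unfold ca
    refine (int_lim (F := fun d t => gs g d t * Real.cos ((2 * i + 1) * t)) (C := C0 + C)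
      (fun d => (hgs d).mul (by fun_prop)) ?_ fun t => (hlim t).mul_const _).const_mul _
    filter_upwards [hbd] with d hd t ht
    rw [abs_mul]
    calc |gs g d t| * |Real.cos ((2 * i + 1) * t)| ≤ (C0 + C) * 1 :=
        mul_le_mul (hd t ht) (Real.abs_cos_le_one _) (abs_nonneg _) (by positivity)
      _ = C0 + C := mul_one _
  have lsa : ∀ i, Tendsto (fun d => sa (gs g d) i) (𝓝[>] 0) (𝓝 (sa g i)) := by
    intro i
    unfold sa
    refine (int_lim (F := fun d t => gs g d t * Real.sin ((2 * i + 1) * t)) (C := C0 + C)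
      (fun d => (hgs d).mul (by fun_prop)) ?_ fun t => (hlim t).mul_const _).const_mul _
    filter_upwards [hbd] with d hd t ht
    rw [abs_mul]
    calc |gs g d t| * |Real.sin ((2 * i + 1) * t)| ≤ (C0 + C) * 1 :=
        mul_le_mul (hd t ht) (Real.abs_sin_le_one _) (abs_nonneg _) (by positivity)
      _ = C0 + C := mul_one _
  obtain ⟨C1, hC1⟩ := isCompact_Icc.exists_bound_of_continuousOn
    (s := Icc (0 : ℝ) (2 * Real.pi)) (f := pf L p) (pf_cont L p).continuousOn
  have lp : Tendsto (fun d => mn fun t => gs g d t ^ 2 * pf L p t) (𝓝[>] 0) (𝓝 (mn fun t => g t ^ 2 * pf L p t)) := by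
    unfold mn
    refine (int_lim (F := fun d t => gs g d t ^ 2 * pf L p t) (C := (C0 + C) ^ 2 * C1)
      (fun d => ((hgs d).pow 2).mul (pf_cont L p)) ?_ fun t => ((hlim t).pow 2).mul_const _).const_mul _
    filter_upwards [hbd] with d hd t ht
    rw [abs_mul, abs_pow]
    have ht' := ht
    rw [Set.uIoc_of_le (by positivity)] at ht'
    have h3 := hC1 t ⟨ht'.1.le, ht'.2⟩
    rw [Real.norm_eq_abs] at h3
    exact mul_le_mul (pow_le_pow_left₀ (abs_nonneg _) (hd t ht) 2) h3 (abs_nonneg _) (by positivity)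
  have lB1 : Tendsto (fun d => Blk N K L H eta p P 1 (ca (gs g d))) (𝓝[>] 0) (𝓝 (Blk N K L H eta p P 1 (ca g))) :=
    ((Blk_cont N K L H eta p P 1).tendsto _).comp (tendsto_pi_nhds.2 lca)
  have lB2 : Tendsto (fun d => Blk N K L H eta p P (-1) (sa (gs g d))) (𝓝[>] 0)
      (𝓝 (Blk N K L H eta p P (-1) (sa g))) :=
    ((Blk_cont N K L H eta p P (-1)).tendsto _).comp (tendsto_pi_nhds.2 lsa)
  obtain ⟨C2, hC2⟩ := isCompact_Icc.exists_bound_of_continuousOn
    (s := Icc (0 : ℝ) (2 * Real.pi)) (f := fun t => hf K H t + eta)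
    ((hf_cont K H).add continuous_const).continuousOn
  have cH : Continuous fun t => hf K H t + eta := (hf_cont K H).add continuous_const
  have lR : Tendsto (fun d => mn fun t => (hf K H t + eta) * gs' g d t ^ 2) (𝓝[>] 0)
      (𝓝 (mn fun t => (hf K H t + eta) * deriv g t ^ 2)) := by
    unfold mn
    refine Tendsto.const_mul _ ?_
    refine intervalIntegral.tendsto_integral_filter_of_dominated_convergence
      (fun _ => C2 * (C : ℝ) ^ 2) ?_ ?_ intervalIntegrable_const ?_
    · exact Eventually.of_forall fun d =>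
        (cH.mul ((gs'_contC hL d).pow 2)).aestronglyMeasurable
    · filter_upwards [self_mem_nhdsWithin] with d hd
      refine Eventually.of_forall fun t ht => ?_
      rw [Set.uIoc_of_le (by positivity)] at ht
      have h3 := hC2 t ⟨ht.1.le, ht.2⟩
      rw [norm_mul, norm_pow]
      refine mul_le_mul h3 (pow_le_pow_left₀ (norm_nonneg _) ?_ 2) (by positivity) ((norm_nonneg _).trans h3)
      rw [Real.norm_eq_abs]
      exact gs'_absC hL hd t
    · filter_upwards [hL.ae_differentiableAt] with t ht _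
      exact ((gs'_lim ht.hasDerivAt).pow 2).const_mul _
  refine le_of_tendsto_of_tendsto ((lB1.add lB2).add lp) lR ?_
  filter_upwards [self_mem_nhdsWithin] with d hd
  have h1 := main_C1 (gs_derivC hL d) (gs'_contC hL d) (gs_oddC hL ho d) (N := N) hH he hp hT
  refine h1.trans (le_of_eq ?_)
  have c1 := gs'_contC hL d
  unfold mn
  have i1 : IntervalIntegrable (fun t => gs' g d t ^ 2 * hf K H t) volume 0 (2 * Real.pi) :=
    ((c1.pow 2).mul (hf_cont K H)).intervalIntegrable _ _
  have i2 : IntervalIntegrable (fun t => eta * gs' g d t ^ 2) volume 0 (2 * Real.pi) :=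
    (continuous_const.mul (c1.pow 2)).intervalIntegrable _ _
  have e : (fun t => (hf K H t + eta) * gs' g d t ^ 2) =
      fun t => gs' g d t ^ 2 * hf K H t + eta * gs' g d t ^ 2 := by
    funext t
    ring
  rw [e, intervalIntegral.integral_add i1 i2, intervalIntegral.integral_const_mul]
  ring

end Pool.Agent.FPX.QST
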