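import Mathlib
import Pool.Agent.FPX.STV
import Pool.Agent.FPX.STW

/-
STX (helper50): `STV` and `QST` together. A pointwise majorant of `G (θ, r) + field term` by
`e0 + e1 v + p v²` bounds `mean G (θ, g θ)` by a finite quadratic form in the Fourier coefficients of
`V = v (θ, g θ)`. The polynomial field `v = r + β (θ) r² + γ (θ) r³` in closed form.
-/

open MeasureTheory intervalIntegral Set Filter Topology
open scoped NNReal

noncomputable section

namespace Pool.Agent.FPX.STV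

open Pool.Agent.FPX.QST

/-! ### the weight -/

/-- the derivative of the weight `hf` -/
def hf' (K : ℕ) (H : ℕ → ℕ → ℝ) (t : ℝ) : ℝ :=
  ∑ k ∈ Finset.range (K + 1), ∑ l ∈ Finset.range (K + 1),
    H k l * (-(2 * (((k : ℤ) - l : ℤ) : ℝ)) * Real.sin (2 * ((k : ℤ) - l : ℤ) * t))

theorem hf_deriv (K : ℕ) (H : ℕ → ℕ → ℝ) (t : ℝ) : HasDerivAt (hf K H) (hf' K H t) t := by
  unfold hf hf'
  refine HasDerivAt.fun_sum fun k _ => HasDerivAt.fun_sum fun l _ => HasDerivAt.const_mul _ ?_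
  have h1 : HasDerivAt (fun t : ℝ => 2 * (((k : ℤ) - l : ℤ) : ℝ) * t) (2 * (((k : ℤ) - l : ℤ) : ℝ)) t := by
    have := (hasDerivAt_id t).const_mul (2 * (((k : ℤ) - l : ℤ) : ℝ))
    simpa using this
  refine (h1.cos).congr_deriv ?_
  ring

theorem hf'_cont (K : ℕ) (H : ℕ → ℕ → ℝ) : Continuous (hf' K H) := by
  unfold hf'
  fun_prop

theorem hf_per (K : ℕ) (H : ℕ → ℕ → ℝ) (t : ℝ) : hf K H (t + Real.pi) = hf K H t := by
  unfold hf
  refine Finset.sum_congr rfl fun k _ => Finset.sum_congr rfl fun l _ => ?_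
  congr 1
  have e : 2 * (((k : ℤ) - l : ℤ) : ℝ) * (t + Real.pi) = 2 * (((k : ℤ) - l : ℤ) : ℝ) * t
      + (((k : ℤ) - l : ℤ) : ℝ) * (2 * Real.pi) := by ring
  rw [e, Real.cos_add_int_mul_two_pi]

/-! ### pointwise inequalities from derivatives in `r` -/

/-- a function with `Φ 0 ≥ 0` and `r Φ' (r) ≥ 0` is nonnegative -/
theorem nonneg_of_deriv {m : ℝ} {Φ Φ' : ℝ → ℝ} (hd : ∀ r, |r| ≤ m → HasDerivAt Φ (Φ' r) r)
    (h0 : 0 ≤ Φ 0) (hs : ∀ r, |r| ≤ m → 0 ≤ r * Φ' r) {r : ℝ} (hr : |r| ≤ m) : 0 ≤ Φ r := by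
  rcases lt_trichotomy r 0 with h | h | h
  · have ha : |r| = -r := abs_of_neg h
    rw [ha] at hr
    have hin : ∀ x ∈ Icc r 0, |x| ≤ m := fun x hx => by
      rw [abs_of_nonpos hx.2]
      linarith [hx.1]
    have k : AntitoneOn Φ (Icc r 0) := by
      refine antitoneOn_of_deriv_nonpos (convex_Icc _ _)
        (fun x hx => (hd x (hin x hx)).continuousAt.continuousWithinAt)
        (fun x hx => ((hd x (hin x (interior_subset hx))).differentiableAt).differentiableWithinAt)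
        fun x hx => ?_
      rw [interior_Icc] at hx
      have hx' := hin x (Ioo_subset_Icc_self hx)
      rw [(hd x hx').deriv]
      have := hs x hx'
      nlinarith [hx.2]
    have := k (left_mem_Icc.2 h.le) (right_mem_Icc.2 h.le) h.le
    linarith
  · rw [h]
    exact h0
  · have ha : |r| = r := abs_of_pos h
    rw [ha] at hr
    have hin : ∀ x ∈ Icc 0 r, |x| ≤ m := fun x hx => by
      rw [abs_of_nonneg hx.1]
      linarith [hx.2]
    have k : MonotoneOn Φ (Icc 0 r) := by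
      refine monotoneOn_of_deriv_nonneg (convex_Icc _ _)
        (fun x hx => (hd x (hin x hx)).continuousAt.continuousWithinAt)
        (fun x hx => ((hd x (hin x (interior_subset hx))).differentiableAt).differentiableWithinAt)
        fun x hx => ?_
      rw [interior_Icc] at hx
      have hx' := hin x (Ioo_subset_Icc_self hx)
      rw [(hd x hx').deriv]
      have := hs x hx'
      nlinarith [hx.1]
    have := k (left_mem_Icc.2 h.le) (right_mem_Icc.2 h.le) h.le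
    linarith

/-! ### the field inequality with the finite quadratic form -/

/-- **majorant and quadratic form** -/
theorem Fld.blk {b : ℝ} {v vt vr vtt vtr : ℝ → ℝ → ℝ} (F : Fld b v vt vr vtt vtr) {m : ℝ} (hm : 0 ≤ m)
    (hmb : m < b) {g : ℝ → ℝ} (hg : ∀ θ, |g θ| ≤ m) (hgl : LipschitzWith 1 g)
    (ho : ∀ θ, g (θ + Real.pi) = -g θ) {N K L : ℕ} {H : ℕ → ℕ → ℝ}
    (hH : ∀ v : ℕ → ℝ, 0 ≤ ∑ k ∈ Finset.range (K + 1), ∑ l ∈ Finset.range (K + 1), H k l * (v k * v l))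
    {eta : ℝ} (he : 0 ≤ eta) {p P : ℕ → ℝ} (hp : ∀ m, |p (m + 1)| ≤ P (m + 1))
    (hT : p 0 + ∑ m ∈ Finset.range L, P (m + 1) ≤ eta * (2 * N + 1) ^ 2)
    {G : ℝ → ℝ → ℝ} {e0 e1 : ℝ → ℝ}
    (hG : ContinuousOn (fun p : ℝ × ℝ => G p.1 p.2) {p | |p.2| < b})
    (c0 : Continuous e0) (c1 : Continuous e1)
    (hpt : ∀ θ ∈ Icc (0 : ℝ) (2 * Real.pi), ∀ r, |r| ≤ m → G θ r + (hf K H θ + eta) * vr θ r ^ 2
        - ∫ u in (0 : ℝ)..r, 2 * ((hf' K H θ * vt θ u + (hf K H θ + eta) * vtt θ u) * vr θ u)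
        ≤ e0 θ + e1 θ * v θ r + pf L p θ * v θ r ^ 2) :
    (mn fun θ => G θ (g θ)) + (Blk N K L H eta p P 1 (ca fun θ => v θ (g θ))
        + Blk N K L H eta p P (-1) (sa fun θ => v θ (g θ)))
      ≤ (mn e0) + mn fun θ => e1 θ * v θ (g θ) := by
  obtain ⟨C, hC⟩ := F.lipV hmb hg hgl
  have k1 := F.major hm hmb hg hgl ho (h := fun θ => hf K H θ + eta) (h' := hf' K H)
    (fun θ => (hf_deriv K H θ).add_const eta) (hf'_cont K H)
    (fun θ => add_nonneg (hf_nonneg hH θ) he) (fun θ => by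
      show hf K H (θ + Real.pi) + eta = hf K H θ + eta
      rw [hf_per]) hG c0 c1 (pf_cont L p) hpt
  have k2 := main_lipC hC (F.odV ho) (N := N) hH he hp hT
  have cV := hC.continuous
  have i0 : IntervalIntegrable e0 volume 0 (2 * Real.pi) := c0.intervalIntegrable _ _
  have i1 : IntervalIntegrable (fun θ => e1 θ * v θ (g θ)) volume 0 (2 * Real.pi) :=
    (c1.mul cV).intervalIntegrable _ _
  have i2 : IntervalIntegrable (fun θ => pf L p θ * v θ (g θ) ^ 2) volume 0 (2 * Real.pi) :=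
    ((pf_cont L p).mul (cV.pow 2)).intervalIntegrable _ _
  rw [intervalIntegral.integral_add (i0.add i1) i2, intervalIntegral.integral_add i0 i1] at k1
  have e2 : (mn fun t => v t (g t) ^ 2 * pf L p t) = (2 * Real.pi)⁻¹ *
      ∫ t in (0 : ℝ)..(2 * Real.pi), pf L p t * v t (g t) ^ 2 := by
    unfold mn
    congr 1
    refine intervalIntegral.integral_congr fun t _ => ?_
    ring
  have hp2 : (0 : ℝ) < (2 * Real.pi)⁻¹ := by positivity
  have k3 := mul_le_mul_of_nonneg_left k1 hp2.le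
  rw [e2] at k2
  unfold mn at k2 ⊢
  simp only [mul_add] at k3
  linarith

/-- the linear term in terms of the coefficients -/
theorem mn_lin {V : ℝ → ℝ} (hV : Continuous V) (n : ℕ) (α β : ℕ → ℝ) :
    (mn fun t => (∑ i ∈ Finset.range n, (α i * Real.cos ((2 * i + 1) * t)
      + β i * Real.sin ((2 * i + 1) * t))) * V t) =
    1 / 2 * ∑ i ∈ Finset.range n, (α i * ca V i + β i * sa V i) := by
  unfold mn ca sa
  have e : (fun t => (∑ i ∈ Finset.range n, (α i * Real.cos ((2 * i + 1) * t)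
      + β i * Real.sin ((2 * i + 1) * t))) * V t) = fun t => ∑ i ∈ Finset.range n,
      (α i * (V t * Real.cos ((2 * i + 1) * t)) + β i * (V t * Real.sin ((2 * i + 1) * t))) := by
    funext t
    rw [Finset.sum_mul]
    refine Finset.sum_congr rfl fun i _ => ?_
    ring
  have ic : ∀ i : ℕ, IntervalIntegrable (fun t => α i * (V t * Real.cos ((2 * i + 1) * t))) volume 0 (2 * Real.pi) :=
    fun i => Continuous.intervalIntegrable (by fun_prop) _ _
  have is : ∀ i : ℕ, IntervalIntegrable (fun t => β i * (V t * Real.sin ((2 * i + 1) * t))) volume 0 (2 * Real.pi) :=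
    fun i => Continuous.intervalIntegrable (by fun_prop) _ _
  rw [e, intervalIntegral.integral_finsetSum fun i _ => (ic i).add (is i), Finset.mul_sum, Finset.mul_sum]
  refine Finset.sum_congr rfl fun i _ => ?_
  rw [intervalIntegral.integral_add (ic i) (is i), intervalIntegral.integral_const_mul,
    intervalIntegral.integral_const_mul]
  have := Real.pi_pos
  field_simp

/-! ### the polynomial field -/

/-- `v = r + β r² + γ r³` -/
theorem fld_poly {b : ℝ} (hb : 0 < b) {β β' β'' γ γ' γ'' : ℝ → ℝ}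
    (hβ : ∀ θ, HasDerivAt β (β' θ) θ) (hβ' : ∀ θ, HasDerivAt β' (β'' θ) θ) (cβ : Continuous β'')
    (hγ : ∀ θ, HasDerivAt γ (γ' θ) θ) (hγ' : ∀ θ, HasDerivAt γ' (γ'' θ) θ) (cγ : Continuous γ'')
    (oβ : ∀ θ, β (θ + Real.pi) = -β θ) (oγ : ∀ θ, γ (θ + Real.pi) = γ θ) :
    Fld b (fun θ r => r + β θ * r ^ 2 + γ θ * r ^ 3) (fun θ r => β' θ * r ^ 2 + γ' θ * r ^ 3)
      (fun θ r => 1 + 2 * β θ * r + 3 * γ θ * r ^ 2) (fun θ r => β'' θ * r ^ 2 + γ'' θ * r ^ 3)
      (fun θ r => 2 * β' θ * r + 3 * γ' θ * r ^ 2) := by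
  have c0 : Continuous β := continuous_iff_continuousAt.2 fun θ => (hβ θ).continuousAt
  have c1 : Continuous β' := continuous_iff_continuousAt.2 fun θ => (hβ' θ).continuousAt
  have d0 : Continuous γ := continuous_iff_continuousAt.2 fun θ => (hγ θ).continuousAt
  have d1 : Continuous γ' := continuous_iff_continuousAt.2 fun θ => (hγ' θ).continuousAt
  refine ⟨hb, fun θ r _ => ?_, fun θ r _ => ?_, fun θ r _ => ?_, fun θ r _ => ?_, fun θ r _ => ?_,
    ?_, ?_, ?_, ?_, fun θ => ?_, fun θ r => ?_⟩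
  · have := ((hasDerivAt_const θ r).add ((hβ θ).mul_const (r ^ 2))).add ((hγ θ).mul_const (r ^ 3))
    refine this.congr_deriv ?_
    ring
  · have := ((hasDerivAt_id r).add (((hasDerivAt_id r).pow 2).const_mul (β θ))).add
      (((hasDerivAt_id r).pow 3).const_mul (γ θ))
    refine this.congr_deriv ?_
    simp only [id, Nat.cast_ofNat]
    ring
  · have := ((hβ' θ).mul_const (r ^ 2)).add ((hγ' θ).mul_const (r ^ 3))
    exact this
  · have := ((hasDerivAt_const θ (1 : ℝ)).add (((hβ θ).const_mul 2).mul_const r)).add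
      (((hγ θ).const_mul 3).mul_const (r ^ 2))
    refine this.congr_deriv ?_
    ring
  · have := (((hasDerivAt_id r).pow 2).const_mul (β' θ)).add
      (((hasDerivAt_id r).pow 3).const_mul (γ' θ))
    refine this.congr_deriv ?_
    simp only [id, Nat.cast_ofNat]
    ring
  · exact Continuous.continuousOn (by fun_prop)
  · exact Continuous.continuousOn (by fun_prop)
  · exact Continuous.continuousOn (by fun_prop)
  · exact Continuous.continuousOn (by fun_prop)
  · show (0 : ℝ) + β θ * 0 ^ 2 + γ θ * 0 ^ 3 = 0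
    ring
  · show -r + β (θ + Real.pi) * (-r) ^ 2 + γ (θ + Real.pi) * (-r) ^ 3 = -(r + β θ * r ^ 2 + γ θ * r ^ 3)
    rw [oβ, oγ]
    ring

/-- the field term of the polynomial field -/
theorem term_poly (h0 h1 β0 β1 β2 γ0 γ1 γ2 r : ℝ) :
    ∫ u in (0 : ℝ)..r, 2 * ((h1 * (β1 * u ^ 2 + γ1 * u ^ 3) + h0 * (β2 * u ^ 2 + γ2 * u ^ 3))
      * (1 + 2 * β0 * u + 3 * γ0 * u ^ 2)) =
    2 / 3 * (h1 * β1 + h0 * β2) * r ^ 3
      + 1 / 2 * ((h1 * γ1 + h0 * γ2) + 2 * β0 * (h1 * β1 + h0 * β2)) * r ^ 4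
      + 2 / 5 * (3 * γ0 * (h1 * β1 + h0 * β2) + 2 * β0 * (h1 * γ1 + h0 * γ2)) * r ^ 5
      + γ0 * (h1 * γ1 + h0 * γ2) * r ^ 6 := by
  have key : ∀ u ∈ uIcc (0 : ℝ) r, HasDerivAt (fun r : ℝ => 2 / 3 * (h1 * β1 + h0 * β2) * r ^ 3
      + 1 / 2 * ((h1 * γ1 + h0 * γ2) + 2 * β0 * (h1 * β1 + h0 * β2)) * r ^ 4
      + 2 / 5 * (3 * γ0 * (h1 * β1 + h0 * β2) + 2 * β0 * (h1 * γ1 + h0 * γ2)) * r ^ 5
      + γ0 * (h1 * γ1 + h0 * γ2) * r ^ 6)
      (2 * ((h1 * (β1 * u ^ 2 + γ1 * u ^ 3) + h0 * (β2 * u ^ 2 + γ2 * u ^ 3))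
      * (1 + 2 * β0 * u + 3 * γ0 * u ^ 2))) u := by
    intro u _
    have := (((((hasDerivAt_id u).pow 3).const_mul (2 / 3 * (h1 * β1 + h0 * β2))).add
      (((hasDerivAt_id u).pow 4).const_mul (1 / 2 * ((h1 * γ1 + h0 * γ2) + 2 * β0 * (h1 * β1 + h0 * β2))))).add
      (((hasDerivAt_id u).pow 5).const_mul
        (2 / 5 * (3 * γ0 * (h1 * β1 + h0 * β2) + 2 * β0 * (h1 * γ1 + h0 * γ2))))).add
      (((hasDerivAt_id u).pow 6).const_mul (γ0 * (h1 * γ1 + h0 * γ2)))
    refine this.congr_deriv ?_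
    simp only [id, Nat.cast_ofNat]
    ring
  rw [intervalIntegral.integral_eq_sub_of_hasDerivAt key (Continuous.intervalIntegrable (by fun_prop) _ _)]
  ring

end Pool.Agent.FPX.STV
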