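import Mathlib
import Pool.Agent.FPX.STX
import Pool.Agent.FPX.ST4

/-
STY (helper50): from the measure `dα` of a state to the finite quadratic form. For a test function
`h (cos α, sin α, x)` a pointwise inequality in the two variables `(θ, r)` (derivative in `r`) bounds
the integral over the state by the quadratic form of `QST` in the coefficients of
`V = v (θ, g θ)`, `v = r + β r² + γ r³`.
-/

open MeasureTheory intervalIntegral Set Filter Topology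
open scoped NNReal
open Pool.Agent.FPX.UMP (Ef)
open Pool.Agent.FPX.F54 (CA SA AP W cc)

noncomputable section

namespace Pool.Agent.FPX.STV

open Pool.Agent.FPX.QST
open Pool.Agent.FPX.ST1 (xs gg X Ca Sa R2)

/-- continuity of the primitive in both variables -/
theorem int_contOn {b : ℝ} {Q : ℝ → ℝ → ℝ}
    (hQc : ContinuousOn (fun p : ℝ × ℝ => Q p.1 p.2) {p | |p.2| < b}) :
    ContinuousOn (fun p : ℝ × ℝ => ∫ u in (0 : ℝ)..p.2, Q p.1 u) {p | |p.2| < b} := by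
  intro p0 hp0
  obtain ⟨m, hm1, hm2⟩ := exists_between (show |p0.2| < b from hp0)
  have hm : 0 ≤ m := (abs_nonneg _).trans hm1.le
  have h2 : Continuous (Function.uncurry (fun (p : ℝ × ℝ) (u : ℝ) => Q p.1 (STI.cl m u))) := by
    have k := STI.cont_cl hm hm2 hQc
    have k2 : Continuous (fun p : (ℝ × ℝ) × ℝ => ((p.1.1, p.2) : ℝ × ℝ)) := by fun_prop
    exact k.comp k2
  have h3 : Continuous (fun p : ℝ × ℝ => ∫ u in (0 : ℝ)..p.2, Q p.1 (STI.cl m u)) :=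
    intervalIntegral.continuous_parametric_intervalIntegral_of_continuous h2 continuous_snd
  refine ContinuousAt.continuousWithinAt ?_
  refine h3.continuousAt.congr ?_
  have hev : ∀ᶠ p : ℝ × ℝ in 𝓝 p0, |p.2| < m :=
    (continuous_snd.abs.continuousAt (x := p0)).eventually (gt_mem_nhds hm1)
  filter_upwards [hev] with p hp
  refine intervalIntegral.integral_congr fun u hu => ?_
  show Q p.1 (STI.cl m u) = Q p.1 u
  rw [STI.cl_eq (STI.abs_le_of_uIcc hp.le hu)]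

/-- the density in the coordinates `(θ, r)` -/
def Gd (h hd : ℝ → ℝ → ℝ → ℝ) (θ r : ℝ) : ℝ :=
  h (Real.cos θ) (Real.sin θ) 0 + ∫ u in (0 : ℝ)..r, hd (Ca θ u) (Sa θ u) (X θ u) * (1 / R2 θ u)

theorem hd_cont {h hd : ℝ → ℝ → ℝ → ℝ} (hh : ContDiff ℝ 1 (fun p : ℝ × ℝ × ℝ => h p.1 p.2.1 p.2.2))
    (hhd : ∀ a b x, HasDerivAt (fun x => h a b x) (hd a b x) x) :
    Continuous (fun p : ℝ × ℝ × ℝ => hd p.1 p.2.1 p.2.2) := by
  have h1 : Continuous (fun p : ℝ × ℝ × ℝ =>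
      fderiv ℝ (fun p : ℝ × ℝ × ℝ => h p.1 p.2.1 p.2.2) p ((0 : ℝ), (0 : ℝ), (1 : ℝ))) :=
    (hh.continuous_fderiv one_ne_zero).clm_apply continuous_const
  refine h1.congr fun p => ?_
  have h2 := (hh.differentiable one_ne_zero p).hasFDerivAt
  have h3 : HasDerivAt (fun x : ℝ => ((p.1, p.2.1, x) : ℝ × ℝ × ℝ)) ((0 : ℝ), (0 : ℝ), (1 : ℝ)) p.2.2 :=
    (hasDerivAt_const _ _).prodMk ((hasDerivAt_const _ _).prodMk (hasDerivAt_id _))
  have h4 := HasFDerivAt.comp_hasDerivAt (x := p.2.2) (f := fun x : ℝ => ((p.1, p.2.1, x) : ℝ × ℝ × ℝ)) h2 h3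
  exact h4.unique (hhd _ _ _)

theorem cont_dens {h hd : ℝ → ℝ → ℝ → ℝ} (hh : ContDiff ℝ 1 (fun p : ℝ × ℝ × ℝ => h p.1 p.2.1 p.2.2))
    (hhd : ∀ a b x, HasDerivAt (fun x => h a b x) (hd a b x) x) :
    ContinuousOn (fun p : ℝ × ℝ => hd (Ca p.1 p.2) (Sa p.1 p.2) (X p.1 p.2) * (1 / R2 p.1 p.2))
      {p | |p.2| < Real.pi / 2} := by
  have c1 := hd_cont hh hhd
  have hrho : ∀ p ∈ {p : ℝ × ℝ | |p.2| < Real.pi / 2}, ST1.rho p.1 p.2 ≠ 0 := fun p hp =>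
    (ST1.rho_pos p.1 hp).ne'
  have c2 : ContinuousOn (fun p : ℝ × ℝ => Ca p.1 p.2) {p | |p.2| < Real.pi / 2} := by
    unfold ST1.Ca
    exact (Continuous.continuousOn (by fun_prop)).div ST1.cont_rho.continuousOn hrho
  have c3 : ContinuousOn (fun p : ℝ × ℝ => Sa p.1 p.2) {p | |p.2| < Real.pi / 2} := by
    unfold ST1.Sa
    exact (Continuous.continuousOn (by fun_prop)).div ST1.cont_rho.continuousOn hrho
  have c4 : ContinuousOn (fun p : ℝ × ℝ => ((Ca p.1 p.2, Sa p.1 p.2, X p.1 p.2) : ℝ × ℝ × ℝ))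
      {p | |p.2| < Real.pi / 2} := c2.prodMk (c3.prodMk ST1.cont_X)
  have c5 : ContinuousOn (fun p : ℝ × ℝ => hd (Ca p.1 p.2) (Sa p.1 p.2) (X p.1 p.2)) {p | |p.2| < Real.pi / 2} :=
    c1.comp_continuousOn c4
  exact c5.mul (continuousOn_const.div ST1.cont_R2.continuousOn fun p hp => (ST1.R2_pos p.1 hp).ne')

theorem cont_Gd {h hd : ℝ → ℝ → ℝ → ℝ} (hh : ContDiff ℝ 1 (fun p : ℝ × ℝ × ℝ => h p.1 p.2.1 p.2.2))
    (hhd : ∀ a b x, HasDerivAt (fun x => h a b x) (hd a b x) x) :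
    ContinuousOn (fun p : ℝ × ℝ => Gd h hd p.1 p.2) {p | |p.2| < Real.pi / 2} := by
  unfold Gd
  have c0 : Continuous (fun p : ℝ × ℝ => h (Real.cos p.1) (Real.sin p.1) 0) := by
    have k : Continuous (fun p : ℝ × ℝ => ((Real.cos p.1, Real.sin p.1, (0 : ℝ)) : ℝ × ℝ × ℝ)) := by fun_prop
    exact hh.continuous.comp k
  exact c0.continuousOn.add (int_contOn
    (Q := fun θ u => hd (Ca θ u) (Sa θ u) (X θ u) * (1 / R2 θ u)) (cont_dens hh hhd))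

theorem Gd_r {h hd : ℝ → ℝ → ℝ → ℝ} (hh : ContDiff ℝ 1 (fun p : ℝ × ℝ × ℝ => h p.1 p.2.1 p.2.2))
    (hhd : ∀ a b x, HasDerivAt (fun x => h a b x) (hd a b x) x) (θ : ℝ) {r : ℝ} (hr : |r| < Real.pi / 2) :
    HasDerivAt (fun r => Gd h hd θ r) (hd (Ca θ r) (Sa θ r) (X θ r) * (1 / R2 θ r)) r := by
  unfold Gd
  have c := cont_dens hh hhd
  have cs := STI.cont_slice (Q := fun θ u => hd (Ca θ u) (Sa θ u) (X θ u) * (1 / R2 θ u)) c θ
  have hopen : IsOpen {u : ℝ | |u| < Real.pi / 2} := isOpen_lt continuous_abs continuous_const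
  have hi : IntervalIntegrable (fun u => hd (Ca θ u) (Sa θ u) (X θ u) * (1 / R2 θ u)) volume 0 r :=
    STI.int_slice (Q := fun θ u => hd (Ca θ u) (Sa θ u) (X θ u) * (1 / R2 θ u)) hr c θ (by simp) le_rfl
  have k := intervalIntegral.integral_hasDerivAt_right hi
    (cs.stronglyMeasurableAtFilter hopen r hr) (cs.continuousAt (hopen.mem_nhds hr))
  exact (hasDerivAt_const r _).add k |>.congr_deriv (by ring)

section

variable {s : ℝ} (h0 : 0 ≤ s) (h1 : s < 1) {f : ℝ → ℝ} (hE : Ef f) (hx : ∀ t, |xs s f t| < 1)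
include h0 h1 hE hx

/-- **the integral over a state**, general field -/
theorem state_blk {v vt vr vtt vtr : ℝ → ℝ → ℝ} (F : Fld (Real.pi / 2) v vt vr vtt vtr) {m : ℝ} (hm : 0 ≤ m)
    (hmb : m < Real.pi / 2) (hg : ∀ θ, |gg s f θ| ≤ m) {N K L : ℕ} {H : ℕ → ℕ → ℝ}
    (hH : ∀ v : ℕ → ℝ, 0 ≤ ∑ k ∈ Finset.range (K + 1), ∑ l ∈ Finset.range (K + 1), H k l * (v k * v l))
    {eta : ℝ} (he : 0 ≤ eta) {p P : ℕ → ℝ} (hp : ∀ m, |p (m + 1)| ≤ P (m + 1))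
    (hT : p 0 + ∑ m ∈ Finset.range L, P (m + 1) ≤ eta * (2 * N + 1) ^ 2)
    {h hd : ℝ → ℝ → ℝ → ℝ} (hh : ContDiff ℝ 1 (fun p : ℝ × ℝ × ℝ => h p.1 p.2.1 p.2.2))
    (hhd : ∀ a b x, HasDerivAt (fun x => h a b x) (hd a b x) x)
    {e0 e1 : ℝ → ℝ} (c0 : Continuous e0) (c1 : Continuous e1)
    (hpt : ∀ θ ∈ Icc (0 : ℝ) (2 * Real.pi), ∀ r, |r| ≤ m → Gd h hd θ r + (hf K H θ + eta) * vr θ r ^ 2
        - ∫ u in (0 : ℝ)..r, 2 * ((hf' K H θ * vt θ u + (hf K H θ + eta) * vtt θ u) * vr θ u)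
        ≤ e0 θ + e1 θ * v θ r + pf L p θ * v θ r ^ 2) :
    (2 * Real.pi)⁻¹ * (∫ t in (0:ℝ)..(2 * Real.pi), h (CA s t) (SA s t) (xs s f t) * AP s t)
        + (Blk N K L H eta p P 1 (ca fun θ => v θ (gg s f θ))
        + Blk N K L H eta p P (-1) (sa fun θ => v θ (gg s f θ)))
      ≤ (mn e0) + mn fun θ => e1 θ * v θ (gg s f θ) := by
  have hgE := ST1.gg_Ef h0 h1 hx hE
  have k1 := F.blk hm hmb hg hgE.lip hgE.odd hH he hp hT (cont_Gd hh hhd) c0 c1 hpt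
  have k2 := ST1.int_formula h0 h1 hx hE hh hhd
  have e : (2 * Real.pi)⁻¹ * (∫ t in (0:ℝ)..(2 * Real.pi), h (CA s t) (SA s t) (xs s f t) * AP s t) =
      mn fun θ => Gd h hd θ (gg s f θ) := by
    rw [k2]
    rfl
  rw [e]
  exact k1

/-- **the integral over a state**, polynomial field, derivative criterion -/
theorem state_poly {β β' β'' γ γ' γ'' : ℝ → ℝ}
    (hβ : ∀ θ, HasDerivAt β (β' θ) θ) (hβ' : ∀ θ, HasDerivAt β' (β'' θ) θ) (cβ : Continuous β'')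
    (hγ : ∀ θ, HasDerivAt γ (γ' θ) θ) (hγ' : ∀ θ, HasDerivAt γ' (γ'' θ) θ) (cγ : Continuous γ'')
    (oβ : ∀ θ, β (θ + Real.pi) = -β θ) (oγ : ∀ θ, γ (θ + Real.pi) = γ θ) {m : ℝ} (hm : 0 ≤ m)
    (hmb : m < Real.pi / 2) (hg : ∀ θ, |gg s f θ| ≤ m) {N K L : ℕ} {H : ℕ → ℕ → ℝ}
    (hH : ∀ v : ℕ → ℝ, 0 ≤ ∑ k ∈ Finset.range (K + 1), ∑ l ∈ Finset.range (K + 1), H k l * (v k * v l))
    {eta : ℝ} (he : 0 ≤ eta) {p P : ℕ → ℝ} (hp : ∀ m, |p (m + 1)| ≤ P (m + 1))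
    (hT : p 0 + ∑ m ∈ Finset.range L, P (m + 1) ≤ eta * (2 * N + 1) ^ 2)
    {h hd : ℝ → ℝ → ℝ → ℝ} (hh : ContDiff ℝ 1 (fun p : ℝ × ℝ × ℝ => h p.1 p.2.1 p.2.2))
    (hhd : ∀ a b x, HasDerivAt (fun x => h a b x) (hd a b x) x)
    {e0 e1 : ℝ → ℝ} (c0 : Continuous e0) (c1 : Continuous e1)
    (h00 : ∀ θ ∈ Icc (0 : ℝ) (2 * Real.pi),
      h (Real.cos θ) (Real.sin θ) 0 + (hf K H θ + eta) ≤ e0 θ)
    (hpt : ∀ θ ∈ Icc (0 : ℝ) (2 * Real.pi), ∀ r, |r| ≤ m → 0 ≤ r * (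
        (e1 θ + 2 * pf L p θ * (r + β θ * r ^ 2 + γ θ * r ^ 3)) * (1 + 2 * β θ * r + 3 * γ θ * r ^ 2)
        - hd (Ca θ r) (Sa θ r) (X θ r) * (1 / R2 θ r)
        - 2 * (hf K H θ + eta) * (1 + 2 * β θ * r + 3 * γ θ * r ^ 2) * (2 * β θ + 6 * γ θ * r)
        + 2 * ((hf' K H θ * (β' θ * r ^ 2 + γ' θ * r ^ 3) + (hf K H θ + eta) * (β'' θ * r ^ 2 + γ'' θ * r ^ 3))
          * (1 + 2 * β θ * r + 3 * γ θ * r ^ 2)))) :
    (2 * Real.pi)⁻¹ * (∫ t in (0:ℝ)..(2 * Real.pi), h (CA s t) (SA s t) (xs s f t) * AP s t)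
        + (Blk N K L H eta p P 1 (ca fun θ => gg s f θ + β θ * gg s f θ ^ 2 + γ θ * gg s f θ ^ 3)
        + Blk N K L H eta p P (-1) (sa fun θ => gg s f θ + β θ * gg s f θ ^ 2 + γ θ * gg s f θ ^ 3))
      ≤ (mn e0) + mn fun θ => e1 θ * (gg s f θ + β θ * gg s f θ ^ 2 + γ θ * gg s f θ ^ 3) := by
  have F := fld_poly (b := Real.pi / 2) (by positivity) hβ hβ' cβ hγ hγ' cγ oβ oγ
  refine state_blk h0 h1 hE hx F hm hmb hg hH he hp hT hh hhd c0 c1 fun θ hθ r hr => ?_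
  set w := hf K H θ + eta with hw
  set w' := hf' K H θ with hw'
  have hb : ∀ r, |r| ≤ m → |r| < Real.pi / 2 := fun r hr => lt_of_le_of_lt hr hmb
  have cT : Continuous fun u => 2 * ((w' * (β' θ * u ^ 2 + γ' θ * u ^ 3) + w * (β'' θ * u ^ 2 + γ'' θ * u ^ 3))
      * (1 + 2 * β θ * u + 3 * γ θ * u ^ 2)) := by fun_prop
  have key := nonneg_of_deriv (m := m)
    (Φ := fun r => (e0 θ + e1 θ * (r + β θ * r ^ 2 + γ θ * r ^ 3)
      + pf L p θ * (r + β θ * r ^ 2 + γ θ * r ^ 3) ^ 2)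
      - (Gd h hd θ r + w * (1 + 2 * β θ * r + 3 * γ θ * r ^ 2) ^ 2
      - ∫ u in (0 : ℝ)..r, 2 * ((w' * (β' θ * u ^ 2 + γ' θ * u ^ 3) + w * (β'' θ * u ^ 2 + γ'' θ * u ^ 3))
      * (1 + 2 * β θ * u + 3 * γ θ * u ^ 2))))
    (Φ' := fun r => (e1 θ + 2 * pf L p θ * (r + β θ * r ^ 2 + γ θ * r ^ 3)) * (1 + 2 * β θ * r + 3 * γ θ * r ^ 2)
        - hd (Ca θ r) (Sa θ r) (X θ r) * (1 / R2 θ r)
        - 2 * w * (1 + 2 * β θ * r + 3 * γ θ * r ^ 2) * (2 * β θ + 6 * γ θ * r)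
        + 2 * ((w' * (β' θ * r ^ 2 + γ' θ * r ^ 3) + w * (β'' θ * r ^ 2 + γ'' θ * r ^ 3))
          * (1 + 2 * β θ * r + 3 * γ θ * r ^ 2)))
    (fun r hr => by
      have d1 : HasDerivAt (fun r : ℝ => r + β θ * r ^ 2 + γ θ * r ^ 3) (1 + 2 * β θ * r + 3 * γ θ * r ^ 2) r :=
        F.dr θ r (hb r hr)
      have d2 := (d1.const_mul (e1 θ)).const_add (e0 θ)
      have d3 := d2.add ((d1.pow 2).const_mul (pf L p θ))
      have d4 := Gd_r hh hhd θ (hb r hr)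
      have d5 : HasDerivAt (fun r : ℝ => 1 + 2 * β θ * r + 3 * γ θ * r ^ 2) (2 * β θ + 6 * γ θ * r) r := by
        have := (((hasDerivAt_id r).const_mul (2 * β θ)).const_add 1).add
          (((hasDerivAt_id r).pow 2).const_mul (3 * γ θ))
        refine this.congr_deriv ?_
        simp only [id, Nat.cast_ofNat]
        ring
      have d6 : HasDerivAt (fun r : ℝ => ∫ u in (0 : ℝ)..r, 2 * ((w' * (β' θ * u ^ 2 + γ' θ * u ^ 3)
          + w * (β'' θ * u ^ 2 + γ'' θ * u ^ 3)) * (1 + 2 * β θ * u + 3 * γ θ * u ^ 2)))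
          (2 * ((w' * (β' θ * r ^ 2 + γ' θ * r ^ 3) + w * (β'' θ * r ^ 2 + γ'' θ * r ^ 3))
          * (1 + 2 * β θ * r + 3 * γ θ * r ^ 2))) r :=
        intervalIntegral.integral_hasDerivAt_right (cT.intervalIntegrable _ _)
          (cT.stronglyMeasurableAtFilter _ _) cT.continuousAt
      have d7 := d3.sub ((d4.add ((d5.pow 2).const_mul w)).sub d6)
      refine d7.congr_deriv ?_
      push_cast
      ring)
    (by
      have k := h00 θ hθ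
      show 0 ≤ (e0 θ + e1 θ * (0 + β θ * 0 ^ 2 + γ θ * 0 ^ 3)
        + pf L p θ * (0 + β θ * 0 ^ 2 + γ θ * 0 ^ 3) ^ 2)
        - (Gd h hd θ 0 + w * (1 + 2 * β θ * 0 + 3 * γ θ * 0 ^ 2) ^ 2
        - ∫ u in (0 : ℝ)..0, 2 * ((w' * (β' θ * u ^ 2 + γ' θ * u ^ 3) + w * (β'' θ * u ^ 2 + γ'' θ * u ^ 3))
        * (1 + 2 * β θ * u + 3 * γ θ * u ^ 2)))
      have e : Gd h hd θ 0 = h (Real.cos θ) (Real.sin θ) 0 := by
        unfold Gd
        rw [intervalIntegral.integral_same, add_zero]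
      rw [e, intervalIntegral.integral_same]
      nlinarith)
    (fun r hr => hpt θ hθ r hr) hr
  linarith

end

end Pool.Agent.FPX.STV
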