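import Mathlib
import Pool.Agent.FPX.SWXF

/-
FPX, SWIr33_1_1 (helper89, members of helper29): member list of the modulus closing for the levels `≥ 1/3`
and the share `1`.
-/

namespace Pool.Agent.FPX.SWIr33_1_1

open Pool.Agent.FPX

def L : List MQ :=
  [⟨327, -21/6250, 2001/2000, 9933/10000, 0, 1, 52139/1000000, 23/100000, 1/200⟩,
   ⟨298, -51/5000, 20009/20000, 98697/100000, 0, 1, 105419/1000000, 343/500000, 101/10000⟩,
   ⟨235, -1101/100000, 20009/20000, 98641/100000, 0, 1, 13727/125000, 633/1000000, 103/10000⟩,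
   ⟨179, -449/25000, 2001/2000, 12281/12500, 0, 1, 142011/1000000, 271/625000, 693/50000⟩,
   ⟨180, -3313/100000, 10029/10000, 1221/1250, 0, 1, 9007/50000, 32/15625, 17/1000⟩,
   ⟨178, -34/3125, 100051/100000, 98653/100000, 0, 1, 54019/500000, 201/500000, 53/5000⟩,
   ⟨181, -1841/25000, 253/250, 96649/100000, 0, 1, 230177/1000000, 5961/1000000, 13/625⟩,
   ⟨182, -11267/100000, 102301/100000, 96003/100000, 0, 1, 244379/1000000, 1663/200000, 11/500⟩,
   ⟨204, -469/25000, 20181/20000, 1, 0, 1, 31/1000000, 1/1000000, 1⟩,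
   ⟨205, -3767/25000, 26519/25000, 1, 0, 1, 3/625000, 1/10000000, 1⟩,
   ⟨183, -18413/50000, 107617/100000, 1157/1250, 0, 1, 177649/500000, 24207/1000000, 167/5000⟩,
   ⟨195, -13763/50000, 109549/100000, 1, 0, 1, 11/1000000, 1/1000000, 1⟩,
   ⟨196, -1499/3125, 14107/12500, 48131/50000, 0, 1, 1181741/10000000, 41403/10000000, 281/25000⟩,
   ⟨184, -34847/50000, 5663/5000, 44889/50000, 0, 1, 208011/500000, 20381/500000, 203/5000⟩,
   ⟨329, -43159/100000, 56567/50000, 1, 0, 1, 1/10000000, 1/10000000, 1⟩,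
   ⟨185, -20183/20000, 11727/10000, 5477/6250, 0, 1, 93913/200000, 57597/1000000, 233/5000⟩,
   ⟨197, -82713/100000, 58469/50000, 9171/10000, 0, 1, 2664651/10000000, 13663/625000, 1297/50000⟩,
   ⟨206, -13441/20000, 14641/12500, 1, 0, 1, 9/1000000, 1/1000000, 1⟩,
   ⟨198, -52157/50000, 23917/20000, 90883/100000, 0, 1, 137761/500000, 6403/250000, 27/1000⟩,
   ⟨186, -26671/20000, 4831/4000, 5379/6250, 0, 1, 249093/500000, 70841/1000000, 499/10000⟩,
   ⟨207, -123581/100000, 123201/100000, 12493/12500, 0, 1, 1051/1000000, 1/1000000, 4/625⟩,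
   ⟨199, -78847/50000, 123759/100000, 17373/20000, 0, 1, 205239/500000, 2807/50000, 41/1000⟩,
   ⟨187, -11059/6250, 124369/100000, 2633/3125, 0, 1, 5394293/10000000, 223523/2500000, 1359/25000⟩,
   ⟨200, -53943/25000, 127573/100000, 85059/100000, 0, 1, 449049/1000000, 4483/62500, 113/2500⟩,
   ⟨330, -6187/4000, 125499/100000, 1, 0, 1, 11/1000000, 1/1000000, 1⟩,
   ⟨188, -229719/100000, 127571/100000, 82277/100000, 0, 1, 298981/500000, 14407/125000, 121/2000⟩,
   ⟨189, -281351/100000, 130107/100000, 20259/25000, 0, 1, 312887/500000, 8257/62500, 317/5000⟩,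
   ⟨331, -127829/50000, 130467/100000, 47747/50000, 0, 1, 8730231/100000000, 107909/25000000, 8553/1000000⟩,
   ⟨201, -12537/4000, 131819/100000, 82471/100000, 0, 1, 5220667/10000000, 1004969/10000000, 2651/50000⟩,
   ⟨190, -370649/100000, 133279/100000, 79209/100000, 0, 1, 6778997/10000000, 811191/5000000, 1377/20000⟩,
   ⟨332, -456999/100000, 135891/100000, 86589/100000, 0, 1, 1614949/5000000, 219921/5000000, 3363/100000⟩,
   ⟨202, -62113/12500, 27287/20000, 7869/10000, 0, 1, 6582201/10000000, 1613223/10000000, 6759/100000⟩,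
   ⟨191, -51723/10000, 68327/50000, 38393/50000, 0, 1, 153021/200000, 107341/500000, 39/500⟩,
   ⟨192, -686053/100000, 139151/100000, 9391/12500, 0, 1, 206227/250000, 128339/500000, 423/5000⟩,
   ⟨333, -750803/100000, 139907/100000, 78501/100000, 0, 1, 157651/250000, 74557/500000, 669/10000⟩,
   ⟨203, -385857/50000, 140099/100000, 18847/25000, 0, 1, 794801/1000000, 238869/1000000, 33/400⟩,
   ⟨193, -54649/6250, 70487/50000, 73531/100000, 0, 1, 139967/156250, 1547253/5000000, 1847/20000⟩,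
   ⟨194, -1192193/100000, 142929/100000, 35357/50000, 0, 1, 1052377/1000000, 454579/1000000, 1079/10000⟩]

theorem ok : mlOk (1/3) (1) SWX.av L = true := by decide +kernel

end Pool.Agent.FPX.SWIr33_1_1
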