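import Mathlib
import Pool.Agent.FPX.SWS
import Pool.Agent.FPX.MCX
import Pool.Agent.FPX.FIND
import Pool.Agent.FPX.FRZ

/-
SWK (helper89): the core of the modulus closing with the price `w` of the account
`accE p q = max (1 - p² - q²) (2 p q)` (deficit of energy and `|dv|² - J - ν` together).
`LineOk Ψ w α A B b`: the line `A + B ν - b y²` and the price are below the credit `Ψ + α`.
`tlOk`: the members of a table (MCW) are lines for a list of members (SWP).
`coreT`: the integrand of the core; `core_tab`: the core inequality of a checked table;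
`core_tabk`: the same with a constant charge `k` below a level.
-/

open MeasureTheory Set Filter Topology
open scoped ENNReal NNReal

noncomputable section

namespace Pool.Agent.FPX

open Pool.Agent.EWD Pool.Agent.FPM

/-! ### the account of the core -/

/-- the account of the core -/
def accE (p q : ℝ) : ℝ := max (1 - p ^ 2 - q ^ 2) (2 * p * q)

theorem accE_nonneg {p q : ℝ} (hp : 0 ≤ p) (hq : 0 ≤ q) : 0 ≤ accE p q :=
  (show 0 ≤ 2 * p * q by positivity).trans (le_max_right _ _)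

/-- the deficit of `opn²` and `2 p q` -/
theorem accE_opn (p q : ℝ) : max (1 - (p + q) ^ 2) 0 + 2 * p * q ≤ accE p q := by
  unfold accE
  rcases max_cases (1 - (p + q) ^ 2) 0 with ⟨h, -⟩ | ⟨h, -⟩
  · rw [h]
    refine le_trans (le_of_eq ?_) (le_max_left _ _)
    ring
  · rw [h, zero_add]
    exact le_max_right _ _

/-- the line `A + B ν - b y²` with the price `w` is below the credit `Ψ + α` -/
def LineOk (Ψ : ℝ → ℝ → ℝ → ℝ) (w α A B b : ℝ) : Prop :=
  ∀ y p q : ℝ, 0 ≤ p → 0 ≤ q →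
    A + B * (2 * q ^ 2) + w * accE p q - b * y ^ 2 ≤ Ψ y p q + α

/-- the line of a member -/
theorem line_mem {Ψ : ℝ → ℝ → ℝ → ℝ} {w α A B b : ℝ} {t : MT} (hw : 0 ≤ w) (hc : 0 < t.c)
    (hΨ : ∀ y p q, 0 ≤ p → 0 ≤ q → t.P y p q ≤ Ψ y p q) (hA : A ≤ t.A - w + α)
    (hB : B ≤ t.B - w ^ 2 / (2 * t.c)) (hb : t.b ≤ b) : LineOk Ψ w α A B b := by
  intro y p q hp hq
  have h1 := hΨ y p q hp hq
  have h2 := MT.w_le (w := w) hc y p q
  have h3 := mul_le_mul_of_nonneg_right hB (show 0 ≤ 2 * q ^ 2 by positivity)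
  have h4 := mul_le_mul_of_nonneg_right hb (sq_nonneg y)
  rcases max_cases (1 - p ^ 2 - q ^ 2) (2 * p * q) with ⟨h, -⟩ | ⟨h, -⟩
  · have h5 : accE p q ≤ 1 := by
      unfold accE
      rw [h]
      nlinarith [sq_nonneg p, sq_nonneg q]
    have h6 := mul_le_mul_of_nonneg_left h5 hw
    have h7 : 0 ≤ w * (2 * p * q) := by positivity
    linarith
  · have h5 : accE p q = 2 * p * q := h
    rw [h5]
    linarith

/-- the line of the base member, with the help of a member `t` close to `1` -/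
theorem line_base {Ψ : ℝ → ℝ → ℝ → ℝ} {w α A ℓ b : ℝ} {t : MT} (hw : 0 ≤ w) (hc : 0 < t.c)
    (hΨ : ∀ y p q, 0 ≤ p → 0 ≤ q → t.P y p q ≤ Ψ y p q)
    (hΨ' : ∀ y p q, 0 ≤ p → 0 ≤ q → 2 * q ^ 2 + PE (p ^ 2 + q ^ 2) - y ^ 2 ≤ Ψ y p q)
    (hA : A - α ≤ t.A) (hB : 1 - ℓ ≤ t.B - w ^ 2 / (2 * t.c)) (htb : t.b ≤ b) (hb : 1 ≤ b)
    (h0 : 0 ≤ α - A) (h1 : w ^ 2 ≤ α - A) (h2 : w ^ 2 ≤ 2 * (α - A) * ℓ) (hℓ : 0 ≤ ℓ) :
    LineOk Ψ w α A (1 - ℓ) b := by
  intro y p q hp hq
  have b1 := mul_le_mul_of_nonneg_right hb (sq_nonneg y)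
  have q2 : 0 ≤ ℓ * (2 * q ^ 2) := by positivity
  rcases le_or_gt 1 (p ^ 2 + q ^ 2) with he | he
  · have k1 := hΨ y p q hp hq
    have k2 := MT.w_le (w := w) hc y p q
    have k3 := mul_le_mul_of_nonneg_right hB (show 0 ≤ 2 * q ^ 2 by positivity)
    have k4 := mul_le_mul_of_nonneg_right htb (sq_nonneg y)
    have k5 : accE p q = 2 * p * q := by
      unfold accE
      rw [max_eq_right]
      have : 0 ≤ 2 * p * q := by positivity
      linarith
    rw [k5]
    linarith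
  · have k1 := hΨ' y p q hp hq
    have e0 : 0 ≤ p ^ 2 + q ^ 2 := by positivity
    have k2 := PE_ge e0
    rw [max_eq_left (by linarith)] at k2
    rcases max_cases (1 - p ^ 2 - q ^ 2) (2 * p * q) with ⟨h, -⟩ | ⟨h, -⟩
    · have k5 : accE p q = 1 - p ^ 2 - q ^ 2 := h
      rw [k5]
      have k6 := sq_nonneg (1 - (p ^ 2 + q ^ 2) - 2 * w)
      have k7 : w * (1 - p ^ 2 - q ^ 2) ≤ PE (p ^ 2 + q ^ 2) + w ^ 2 := by nlinarith
      linarith
    · have k5 : accE p q = 2 * p * q := h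
      rw [k5]
      have p1 : p ≤ 1 := by nlinarith [sq_nonneg q]
      have k6 : w * (2 * p * q) ≤ (α - A) + ℓ * (2 * q ^ 2) := by
        have k7 : w * (2 * p * q) ≤ 2 * w * q := by
          have : p * (w * q) ≤ 1 * (w * q) := mul_le_mul_of_nonneg_right p1 (by positivity)
          linarith
        rcases hℓ.eq_or_lt with hl | hl
        · have : w ^ 2 ≤ 0 := by
            rw [← hl] at h2
            linarith
          have hw0 : w = 0 := by
            have := le_antisymm this (sq_nonneg w)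
            exact pow_eq_zero_iff (two_ne_zero) |>.1 this
          rw [hw0]
          linarith
        · have k8 : 0 ≤ 2 * ℓ * ((α - A) + ℓ * (2 * q ^ 2) - 2 * w * q) := by
            have := sq_nonneg (2 * ℓ * q - w)
            nlinarith
          have k9 := (mul_nonneg_iff_of_pos_left (show 0 < 2 * ℓ by positivity)).1 k8
          linarith
      have k7 := PE_nonneg e0
      linarith

theorem LineOk.mono {Ψ : ℝ → ℝ → ℝ → ℝ} {w α A B b A' B' b' : ℝ} (h : LineOk Ψ w α A B b) (hA : A' ≤ A)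
    (hB : B' ≤ B) (hb : b ≤ b') : LineOk Ψ w α A' B' b' := by
  intro y p q hp hq
  have h1 := h y p q hp hq
  have h2 := mul_le_mul_of_nonneg_right hB (show 0 ≤ 2 * q ^ 2 by positivity)
  have h3 := mul_le_mul_of_nonneg_right hb (sq_nonneg y)
  linarith

/-- the credit: base member with `P(e)` and a list -/
def PSQ (Λ : List MT) (y p q : ℝ) : ℝ := max (2 * q ^ 2 + PE (p ^ 2 + q ^ 2) - y ^ 2) (PST Λ y p q)

/-- **one certificate for all reserves and all levels, with the base member** -/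
theorem mcr_qb {av : List WA} (hS : ∀ a ∈ av, a.mw.Sw) {ρ θ : ℚ} {Λ : List MQ}
    (h : mlOk ρ θ av Λ = true) : MCR (QW (av.map WA.mw)) ρ θ (PSQ (Λ.map (MQ.mt av))) := by
  have h1 := mcr_q hS h
  unfold mlOk at h
  rw [Bool.and_eq_true, Bool.and_eq_true, decide_eq_true_eq, decide_eq_true_eq] at h
  have hS' : ∀ m ∈ av.map WA.mw, m.Sw := fun m hm => by
    obtain ⟨a, ha, e⟩ := List.mem_map.1 hm
    rw [← e]
    exact hS a ha
  exact ((mcq_w' hS').base (ρ₀ := (ρ : ℝ)) (θ := (θ : ℝ)) (by exact_mod_cast h.1)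
    (by exact_mod_cast h.2.1)).max h1

/-! ### the members of a table as lines -/

/-- a line `(A, B, b)` from a list of members -/
def lnOk (w α A B b : ℚ) (Λ : List MQ) : Bool :=
  Λ.any (fun t => decide (0 < t.c) && (decide (t.b ≤ b) && (decide (A ≤ t.A - w + α) &&
    decide (B ≤ t.B - w ^ 2 / (2 * t.c))))) ||
  (decide (1 ≤ b) && (decide (B ≤ 1) && (decide (w ^ 2 ≤ α - A) && (decide (w ^ 2 ≤ 2 * (α - A) * (1 - B)) &&
    Λ.any (fun t => decide (0 < t.c) && (decide (t.b ≤ b) && (decide (A - α ≤ t.A) &&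
      decide (B ≤ t.B - w ^ 2 / (2 * t.c)))))))))

theorem lnOk_sound {w α A B b : ℚ} (hw : 0 ≤ w) {Λ : List MQ} (h : lnOk w α A B b Λ = true) (av : List WA) :
    LineOk (PSQ (Λ.map (MQ.mt av))) w α A B b := by
  have hmem : ∀ t ∈ Λ, ∀ y p q, 0 ≤ p → 0 ≤ q → (MQ.mt av t).P y p q ≤ PSQ (Λ.map (MQ.mt av)) y p q :=
    fun t ht y p q _ _ => (PST_mem (List.mem_map_of_mem ht) y p q).trans (le_max_right _ _)
  have hw' : (0 : ℝ) ≤ w := by exact_mod_cast hw
  unfold lnOk at h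
  rw [Bool.or_eq_true] at h
  rcases h with h | h
  · rw [List.any_eq_true] at h
    obtain ⟨t, ht, h⟩ := h
    simp only [Bool.and_eq_true, decide_eq_true_eq] at h
    obtain ⟨h1, h2, h3, h4⟩ := h
    refine line_mem (t := MQ.mt av t) hw' ?_ (hmem t ht) ?_ ?_ ?_
    · change (0 : ℝ) < t.c
      exact_mod_cast h1
    · change (A : ℝ) ≤ t.A - w + α
      exact_mod_cast h3
    · change (B : ℝ) ≤ t.B - w ^ 2 / (2 * t.c)
      exact_mod_cast h4
    · change (t.b : ℝ) ≤ b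
      exact_mod_cast h2
  · simp only [Bool.and_eq_true, decide_eq_true_eq, List.any_eq_true] at h
    obtain ⟨g1, g2, g3, g4, t, ht, h1, h2, h3, h4⟩ := h
    have e : (B : ℝ) = 1 - (1 - B) := by ring
    rw [e]
    refine line_base (t := MQ.mt av t) hw' ?_ (hmem t ht) (fun y p q _ _ => le_max_left _ _) ?_ ?_ ?_ ?_
      ?_ ?_ ?_ ?_
    · change (0 : ℝ) < t.c
      exact_mod_cast h1
    · change (A : ℝ) - α ≤ t.A
      exact_mod_cast h3
    · change 1 - (1 - (B : ℝ)) ≤ t.B - w ^ 2 / (2 * t.c)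
      rw [← e]
      exact_mod_cast h4
    · change (t.b : ℝ) ≤ b
      exact_mod_cast h2
    · exact_mod_cast g1
    · have g3' : (w : ℝ) ^ 2 ≤ α - A := by exact_mod_cast g3
      linarith [sq_nonneg (w : ℝ)]
    · exact_mod_cast g3
    · exact_mod_cast g4
    · have g2' : (B : ℝ) ≤ 1 := by exact_mod_cast g2
      linarith

/-- the members of a table are lines; `b ≤ 1`, `0 ≤ B` -/
def tlOk (w α : ℚ) (T : MCW.Tab) (Λ : List MQ) : Bool :=
  decide (0 ≤ w) && T.L.all fun e => decide (0 ≤ e.2.1) && (decide (e.2.2 ≤ T.S) &&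
    lnOk w α (-(e.1 / T.S)) (e.2.1 / T.S) (e.2.2 / T.S) Λ)

/-- the lines of a table for a credit -/
structure TabL (T : MCW.Tab) (Ψ : ℝ → ℝ → ℝ → ℝ) (w α : ℝ) : Prop where
  w0 : 0 ≤ w
  B0 : ∀ e ∈ T.L, 0 ≤ e.2.1
  b1 : ∀ e ∈ T.L, e.2.2 ≤ T.S
  ln : ∀ e ∈ T.L, LineOk Ψ w α (-((e.1 : ℝ) / T.S)) ((e.2.1 : ℝ) / T.S) ((e.2.2 : ℝ) / T.S)

theorem tlOk_sound {w α : ℚ} {T : MCW.Tab} {Λ : List MQ} (h : tlOk w α T Λ = true) (av : List WA) :
    TabL T (PSQ (Λ.map (MQ.mt av))) w α := by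
  unfold tlOk at h
  rw [Bool.and_eq_true, decide_eq_true_eq, List.all_eq_true] at h
  obtain ⟨hw, h⟩ := h
  have h' : ∀ e ∈ T.L, 0 ≤ e.2.1 ∧ e.2.2 ≤ T.S ∧
      lnOk w α (-(e.1 / T.S)) (e.2.1 / T.S) (e.2.2 / T.S) Λ = true := fun e he => by
    have := h e he
    rw [Bool.and_eq_true, Bool.and_eq_true, decide_eq_true_eq, decide_eq_true_eq] at this
    exact this
  refine ⟨by exact_mod_cast hw, fun e he => (h' e he).1, fun e he => (h' e he).2.1, fun e he => ?_⟩
  have := lnOk_sound hw (h' e he).2.2 av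
  push_cast at this
  exact this

end Pool.Agent.FPX
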