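import Mathlib
import Pool.Agent.FPX.SWB
import Pool.Agent.FPX.SXBH

/-
FPX, SXBT4 (helper29): data of the pointwise side of the closing: the cells.
-/

namespace Pool.Agent.FPX.SWL

theorem SXB_t8 : plOk (0, 0) (Pi' SXB_P 8).1 (Pi' SXB_P 8).2 = true ∧
    loL SXB_l (Pi' SXB_P 8).1 (Pi' SXB_P 8).2 (SXB_z.getD 8 0) (1) = true ∧
    tbL SXB_l (Pi' SXB_P 8).1 (Pi' SXB_P 8).2 (SXB_z.getD 8 0) (SXB_zw.map (wq 100000))
      (SXB_zu.map (wq 100000)) 38 SXB_c (1) (7071/10000) SXB_L = true :=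
  ⟨by decide +kernel, by decide +kernel, by decide +kernel⟩

theorem SXB_t9 : plOk (0, 0) (Pi' SXB_P 9).1 (Pi' SXB_P 9).2 = true ∧
    loL SXB_l (Pi' SXB_P 9).1 (Pi' SXB_P 9).2 (SXB_z.getD 9 0) (1) = true ∧
    tbL SXB_l (Pi' SXB_P 9).1 (Pi' SXB_P 9).2 (SXB_z.getD 9 0) (SXB_zw.map (wq 100000))
      (SXB_zu.map (wq 100000)) 38 SXB_c (1) (7071/10000) SXB_L = true :=
  ⟨by decide +kernel, by decide +kernel, by decide +kernel⟩

end Pool.Agent.FPX.SWL
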