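import Mathlib
import Pool.Agent.FPX.SWB
import Pool.Agent.FPX.SXBH

/-
FPX, SXBW (helper29): data of the pointwise side of the closing: the weights are admissible.
-/

namespace Pool.Agent.FPX.SWL

theorem SXB_w_ok : SXB_zw.all (wtZ 100000) = true := by decide +kernel

theorem SXB_u_ok : SXB_zu.all (wtY 100000) = true := by decide +kernel

theorem SXB_ix : ixC SXB_zw.length 38 SXB_c = true := by decide +kernel

theorem SXB_iL : ixL SXB_zw.length SXB_zu.length SXB_L = true := by decide +kernel

theorem SXB_lo : qOk 1 SXB_l = true := by decide +kernel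

end Pool.Agent.FPX.SWL
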