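import Mathlib
import Pool.Agent.FPX.SWH
import Pool.Agent.FPX.SXBW
import Pool.Agent.FPX.SXBT0
import Pool.Agent.FPX.SXBT1
import Pool.Agent.FPX.SXBT2
import Pool.Agent.FPX.SXBT3
import Pool.Agent.FPX.SXBT4

/-
FPX, SXBF (helper29): the pointwise side of the closing for the data of SXBH.
-/

namespace Pool.Agent.FPX.SWL

open Pool.Agent.EWD Pool.Agent.FPX

theorem SXB_P_length : SXB_P.length = 10 := rfl

/-- **the pointwise inequalities of the closing** -/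
theorem SXB_hQ : ∀ i, i < SXB_P.length → ∃ Q, PWE (pkD 0 1 (clQ SXB_l))
    (fun x => plc (0, 0) (Pi' SXB_P i).1 (Pi' SXB_P i).2 (pkG 0 1 (clQ SXB_l) x) / 4) 1
    (fun v a b => PE (enb a b) - (SXB_z.getD i 0 : ℚ) * pkG 0 1 (clQ SXB_l) (nuv v a b)) Q := by
  refine hQ_of SXB_w_ok SXB_u_ok SXB_lo SXB_ix SXB_iL (ν₀ := 1) (r0 := 7071/10000) fun i hi => ?_
  rw [SXB_P_length] at hi
  interval_cases i
  · exact SXB_t0
  · exact SXB_t1
  · exact SXB_t2
  · exact SXB_t3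
  · exact SXB_t4
  · exact SXB_t5
  · exact SXB_t6
  · exact SXB_t7
  · exact SXB_t8
  · exact SXB_t9

end Pool.Agent.FPX.SWL
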