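import Pool.Agent.FPX.TGA
import Pool.Agent.FPX.HAT

/-
TGH (helper39): trigonometric data of the hat averages on the uniform grid with `N` cells, harmonics 1 .. R: one
Boolean per harmonic checks that `a i` is close to `tan y / (y N) * exp (i n π r_i)`, `y = n π / (2 N)`.
-/

set_option autoImplicit false

open Set Filter Topology Complex
open Pool.Agent.FPX.SQD (ph)
open Pool.Agent.FPX.CAV
open Pool.Agent.FPX.NOT
open Pool.Agent.FPX.NCE (pi2 pi2_err Yq ex ex_err sinc_err)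
open Pool.Agent.FPX.HAT (lh TrgH)

noncomputable section

namespace Pool.Agent.FPX.TGH

/-- the cosine -/
theorem cos_err' {y : ℝ} (h0 : 0 < y) (h1 : y ≤ 1) :
    |Real.cos y - (1 - y ^ 2 / 2 + y ^ 4 / 24 - y ^ 6 / 720 + y ^ 8 / 40320 - y ^ 10 / 3628800)|
      ≤ 2 * y ^ 10 / 39916800 := by
  have nx : ‖((y : ℂ) * I)‖ = y := by
    rw [norm_mul, Complex.norm_I, mul_one, Complex.norm_real, Real.norm_eq_abs, abs_of_pos h0]
  have h := Complex.exp_bound' (x := (y : ℂ) * I) (n := 11) (by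
    rw [nx, div_le_iff₀ (by positivity)]
    push_cast
    linarith)
  rw [nx] at h
  have h2 := (Complex.abs_re_le_norm _).trans h
  have e : (exp ((y : ℂ) * I) - ∑ j ∈ Finset.range 11, ((y : ℂ) * I) ^ j / (j.factorial : ℂ)).re
      = Real.cos y - (1 - y ^ 2 / 2 + y ^ 4 / 24 - y ^ 6 / 720 + y ^ 8 / 40320 - y ^ 10 / 3628800) := by
    have i2 : I ^ 2 = -1 := I_sq
    have i3 : I ^ 3 = -I := by rw [pow_succ, i2]; ring
    have i4 : I ^ 4 = 1 := by rw [show (4 : ℕ) = 2 + 2 from rfl, pow_add, i2]; ring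
    have i5 : I ^ 5 = I := by rw [show (5 : ℕ) = 4 + 1 from rfl, pow_add, i4]; ring
    have i6 : I ^ 6 = -1 := by rw [show (6 : ℕ) = 4 + 2 from rfl, pow_add, i4, i2]; ring
    have i7 : I ^ 7 = -I := by rw [show (7 : ℕ) = 4 + 3 from rfl, pow_add, i4, i3]; ring
    have i8 : I ^ 8 = 1 := by rw [show (8 : ℕ) = 4 + 4 from rfl, pow_add, i4]; ring
    have i9 : I ^ 9 = I := by rw [show (9 : ℕ) = 8 + 1 from rfl, pow_add, i8]; ring
    have i10 : I ^ 10 = -1 := by rw [show (10 : ℕ) = 8 + 2 from rfl, pow_add, i8, i2]; ring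
    have s : ∑ j ∈ Finset.range 11, ((y : ℂ) * I) ^ j / (j.factorial : ℂ)
        = ((1 - y ^ 2 / 2 + y ^ 4 / 24 - y ^ 6 / 720 + y ^ 8 / 40320 - y ^ 10 / 3628800 : ℝ) : ℂ)
          + ((y - y ^ 3 / 6 + y ^ 5 / 120 - y ^ 7 / 5040 + y ^ 9 / 362880 : ℝ) : ℂ) * I := by
      simp only [Finset.sum_range_succ, Finset.range_zero, Finset.sum_empty, Nat.factorial, mul_pow, i2, i3, i4,
        i5, i6, i7, i8, i9, i10]
      push_cast
      ring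
    rw [s, Complex.exp_mul_I, ← Complex.ofReal_cos, ← Complex.ofReal_sin]
    simp only [Complex.sub_re, Complex.add_re, Complex.mul_re, Complex.ofReal_re, Complex.ofReal_im, Complex.I_re,
      Complex.I_im]
    ring
  rw [e] at h2
  refine h2.trans ?_
  have e3 : (Nat.factorial 11 : ℝ) = 39916800 := by norm_num [Nat.factorial]
  rw [e3]
  have h5 : y ^ 11 ≤ y ^ 10 := pow_le_pow_of_le_one h0.le h1 (by norm_num)
  linarith

/-- the polynomials -/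
def sP (Y : ℚ) : ℚ := 1 - Y / 6 + Y ^ 2 / 120 - Y ^ 3 / 5040 + Y ^ 4 / 362880

def cP (Y : ℚ) : ℚ := 1 - Y / 2 + Y ^ 2 / 24 - Y ^ 3 / 720 + Y ^ 4 / 40320 - Y ^ 5 / 3628800

/-- the rational factor -/
def gH (Y : ℚ) : ℚ := sP Y / cP Y

/-- the error of the polynomials -/
def eP (Y : ℚ) : ℚ := (Y + 1 / 10 ^ 15) ^ 5 / 19958400 + 1 / 10 ^ 15

/-- the error of the factor -/
def dH (Y : ℚ) : ℚ := 2 * ((1 + |gH Y|) * eP Y)

theorem mons {Z Y : ℝ} (hZ0 : 0 ≤ Z) (hY0 : 0 ≤ Y) (z1 : Z ≤ 1) (y1 : Y ≤ 1) (a b : ℕ) :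
    0 ≤ Z ^ a * Y ^ b ∧ Z ^ a * Y ^ b ≤ 1 :=
  ⟨by positivity, mul_le_one₀ (pow_le_one₀ hZ0 z1) (by positivity) (pow_le_one₀ hY0 y1)⟩

theorem lipS {Z Y : ℝ} (hZ0 : 0 ≤ Z) (hY0 : 0 ≤ Y) (z1 : Z ≤ 1) (y1 : Y ≤ 1) :
    |(1 - Z / 6 + Z ^ 2 / 120 - Z ^ 3 / 5040 + Z ^ 4 / 362880)
      - (1 - Y / 6 + Y ^ 2 / 120 - Y ^ 3 / 5040 + Y ^ 4 / 362880)| ≤ |Z - Y| := by
  have p := mons hZ0 hY0 z1 y1
  have a1 := p 1 0
  have a2 := p 0 1
  have b1 := p 2 0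
  have b2 := p 1 1
  have b3 := p 0 2
  have c1 := p 3 0
  have c2 := p 2 1
  have c3 := p 1 2
  have c4 := p 0 3
  clear p
  simp only [pow_one, pow_zero, mul_one, one_mul] at a1 a2 b1 b2 b3 c1 c2 c3 c4
  have e : (1 - Z / 6 + Z ^ 2 / 120 - Z ^ 3 / 5040 + Z ^ 4 / 362880)
      - (1 - Y / 6 + Y ^ 2 / 120 - Y ^ 3 / 5040 + Y ^ 4 / 362880) = (Z - Y) * (-(1 / 6) + 1 / 120 * (Z + Y)
      - 1 / 5040 * (Z ^ 2 + Z * Y + Y ^ 2) + 1 / 362880 * (Z ^ 3 + Z ^ 2 * Y + Z * Y ^ 2 + Y ^ 3)) := by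
    ring
  rw [e, abs_mul]
  refine mul_le_of_le_one_right (abs_nonneg _) ?_
  rw [abs_le]
  constructor
  · linarith only [a1.1, a2.1, b1.2, b2.2, b3.2, c1.1, c2.1, c3.1, c4.1]
  · linarith only [a1.2, a2.2, b1.1, b2.1, b3.1, c1.2, c2.2, c3.2, c4.2]

theorem lipC {Z Y : ℝ} (hZ0 : 0 ≤ Z) (hY0 : 0 ≤ Y) (z1 : Z ≤ 1) (y1 : Y ≤ 1) :
    |(1 - Z / 2 + Z ^ 2 / 24 - Z ^ 3 / 720 + Z ^ 4 / 40320 - Z ^ 5 / 3628800)
      - (1 - Y / 2 + Y ^ 2 / 24 - Y ^ 3 / 720 + Y ^ 4 / 40320 - Y ^ 5 / 3628800)| ≤ |Z - Y| := by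
  have p := mons hZ0 hY0 z1 y1
  have a1 := p 1 0
  have a2 := p 0 1
  have b1 := p 2 0
  have b2 := p 1 1
  have b3 := p 0 2
  have c1 := p 3 0
  have c2 := p 2 1
  have c3 := p 1 2
  have c4 := p 0 3
  have d1 := p 4 0
  have d2 := p 3 1
  have d3 := p 2 2
  have d4 := p 1 3
  have d5 := p 0 4
  clear p
  simp only [pow_one, pow_zero, mul_one, one_mul] at a1 a2 b1 b2 b3 c1 c2 c3 c4 d1 d2 d3 d4 d5
  have e : (1 - Z / 2 + Z ^ 2 / 24 - Z ^ 3 / 720 + Z ^ 4 / 40320 - Z ^ 5 / 3628800)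
      - (1 - Y / 2 + Y ^ 2 / 24 - Y ^ 3 / 720 + Y ^ 4 / 40320 - Y ^ 5 / 3628800) = (Z - Y) * (-(1 / 2)
      + 1 / 24 * (Z + Y) - 1 / 720 * (Z ^ 2 + Z * Y + Y ^ 2) + 1 / 40320 * (Z ^ 3 + Z ^ 2 * Y + Z * Y ^ 2 + Y ^ 3)
      - 1 / 3628800 * (Z ^ 4 + Z ^ 3 * Y + Z ^ 2 * Y ^ 2 + Z * Y ^ 3 + Y ^ 4)) := by
    ring
  rw [e, abs_mul]
  refine mul_le_of_le_one_right (abs_nonneg _) ?_
  rw [abs_le]
  constructor
  · linarith only [a1.1, a2.1, b1.2, b2.2, b3.2, c1.1, c2.1, c3.1, c4.1, d1.2, d2.2, d3.2, d4.2, d5.2]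
  · linarith only [a1.2, a2.2, b1.1, b2.1, b3.1, c1.2, c2.2, c3.2, c4.2, d1.1, d2.1, d3.1, d4.1, d5.1]

theorem G_errH {N n : ℕ} (hN : 0 < N) (hn : 0 < n) {y : ℝ} (hy : y = n * Real.pi / (2 * N)) (hy2 : y ≤ 4 / 5)
    (hc : 0 < cP (Yq N n)) : |lh y - ((gH (Yq N n) : ℚ) : ℝ)| ≤ ((dH (Yq N n) : ℚ) : ℝ) := by
  have hN' : (0 : ℝ) < N := by exact_mod_cast hN
  have hn' : (0 : ℝ) < n := by exact_mod_cast hn
  have hp := Real.pi_pos
  have hy0 : 0 < y := by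
    rw [hy]
    positivity
  have hs := sinc_err hy0 (by linarith)
  have hcs := cos_err' hy0 (by linarith)
  obtain ⟨Z, hZ⟩ : ∃ Z : ℝ, Z = y ^ 2 := ⟨_, rfl⟩
  obtain ⟨Y, hY⟩ : ∃ Y : ℝ, Y = ((Yq N n : ℚ) : ℝ) := ⟨_, rfl⟩
  have hZ0 : 0 ≤ Z := by
    rw [hZ]
    positivity
  have hZ1 : Z ≤ 16 / 25 := by
    rw [hZ]
    nlinarith
  have h3 := Real.pi_gt_three
  obtain ⟨t, ht⟩ : ∃ t : ℝ, t = (n : ℝ) ^ 2 / (4 * (N : ℝ) ^ 2) := ⟨_, rfl⟩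
  have hZt : Z = t * Real.pi ^ 2 := by
    rw [hZ, hy, ht]
    field_simp
    ring
  have hYt : Y = t * ((pi2 : ℚ) : ℝ) := by
    rw [hY, ht]
    unfold Yq
    push_cast
    ring
  have ht0 : 0 ≤ t := by
    rw [ht]
    positivity
  have ht1 : t ≤ 1 := by
    have : t * 9 ≤ Z := by
      rw [hZt]
      exact mul_le_mul_of_nonneg_left (by nlinarith) ht0
    linarith
  have hZY : |Z - Y| ≤ 1 / 10 ^ 15 := by
    rw [hZt, hYt, ← mul_sub, abs_mul, abs_of_nonneg ht0]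
    have := pi2_err
    calc t * |Real.pi ^ 2 - ((pi2 : ℚ) : ℝ)| ≤ 1 * (1 / 10 ^ 15) := mul_le_mul ht1 this (abs_nonneg _) zero_le_one
      _ = 1 / 10 ^ 15 := one_mul _
  have hY0 : 0 ≤ Y := by
    rw [hYt]
    have : (0 : ℝ) ≤ ((pi2 : ℚ) : ℝ) := by
      unfold pi2
      positivity
    positivity
  obtain ⟨hYa, hYb⟩ := abs_le.1 hZY
  have hY1 : Y ≤ 65 / 100 := by
    have : (1 : ℝ) / 10 ^ 15 ≤ 1 / 100 := by norm_num
    linarith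
  have z1 : Z ≤ 1 := by linarith
  have y1 : Y ≤ 1 := by linarith
  have qs : ((sP (Yq N n) : ℚ) : ℝ) = 1 - Y / 6 + Y ^ 2 / 120 - Y ^ 3 / 5040 + Y ^ 4 / 362880 := by
    rw [hY]
    unfold sP
    push_cast
    ring
  have qc : ((cP (Yq N n) : ℚ) : ℝ) = 1 - Y / 2 + Y ^ 2 / 24 - Y ^ 3 / 720 + Y ^ 4 / 40320 - Y ^ 5 / 3628800 := by
    rw [hY]
    unfold cP
    push_cast
    ring
  have ls := lipS hZ0 hY0 z1 y1
  have lc := lipC hZ0 hY0 z1 y1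
  have h5 : y ^ 10 ≤ (Y + 1 / 10 ^ 15) ^ 5 := by
    have : y ^ 10 = Z ^ 5 := by
      rw [hZ]
      ring
    rw [this]
    exact pow_le_pow_left₀ hZ0 (by linarith) 5
  have hE : ((eP (Yq N n) : ℚ) : ℝ) = (Y + 1 / 10 ^ 15) ^ 5 / 19958400 + 1 / 10 ^ 15 := by
    rw [hY]
    unfold eP
    push_cast
    ring
  have hE0 : 0 ≤ ((eP (Yq N n) : ℚ) : ℝ) := by
    rw [hE]
    positivity
  -- the two errors
  have k1 : |Real.sin y / y - ((sP (Yq N n) : ℚ) : ℝ)| ≤ ((eP (Yq N n) : ℚ) : ℝ) := by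
    have e : Real.sin y / y - ((sP (Yq N n) : ℚ) : ℝ)
        = (Real.sin y / y - (1 - y ^ 2 / 6 + y ^ 4 / 120 - y ^ 6 / 5040 + y ^ 8 / 362880))
          + ((1 - Z / 6 + Z ^ 2 / 120 - Z ^ 3 / 5040 + Z ^ 4 / 362880)
            - (1 - Y / 6 + Y ^ 2 / 120 - Y ^ 3 / 5040 + Y ^ 4 / 362880)) := by
      rw [qs, hZ]
      ring
    rw [e, hE]
    refine (abs_add_le _ _).trans ?_
    linarith only [hs, ls, hZY, h5]
  have k2 : |Real.cos y - ((cP (Yq N n) : ℚ) : ℝ)| ≤ ((eP (Yq N n) : ℚ) : ℝ) := by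
    have e : Real.cos y - ((cP (Yq N n) : ℚ) : ℝ)
        = (Real.cos y - (1 - y ^ 2 / 2 + y ^ 4 / 24 - y ^ 6 / 720 + y ^ 8 / 40320 - y ^ 10 / 3628800))
          + ((1 - Z / 2 + Z ^ 2 / 24 - Z ^ 3 / 720 + Z ^ 4 / 40320 - Z ^ 5 / 3628800)
            - (1 - Y / 2 + Y ^ 2 / 24 - Y ^ 3 / 720 + Y ^ 4 / 40320 - Y ^ 5 / 3628800)) := by
      rw [qc, hZ]
      ring
    rw [e, hE]
    refine (abs_add_le _ _).trans ?_
    linarith only [hcs, lc, hZY, h5]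
  have hc2 : 1 / 2 ≤ Real.cos y := by
    have := Real.one_sub_sq_div_two_le_cos (x := y)
    rw [← hZ] at this
    linarith
  have hc' : (0 : ℝ) < ((cP (Yq N n) : ℚ) : ℝ) := by exact_mod_cast hc
  obtain ⟨s, hsd⟩ : ∃ s : ℝ, s = Real.sin y / y := ⟨_, rfl⟩
  obtain ⟨c, hcd⟩ : ∃ c : ℝ, c = Real.cos y := ⟨_, rfl⟩
  have hl : lh y = s / c := by
    unfold lh
    rw [Real.tan_eq_sin_div_cos, hsd, hcd]
    field_simp
  rw [← hsd] at k1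
  rw [← hcd] at k2 hc2
  have hc0 : 0 < c := by linarith
  obtain ⟨g, hgd⟩ : ∃ g : ℝ, g = ((gH (Yq N n) : ℚ) : ℝ) := ⟨_, rfl⟩
  have hg : ((sP (Yq N n) : ℚ) : ℝ) = g * ((cP (Yq N n) : ℚ) : ℝ) := by
    rw [hgd]
    unfold gH
    push_cast
    field_simp
  have hD : ((dH (Yq N n) : ℚ) : ℝ) = 2 * ((1 + |g|) * ((eP (Yq N n) : ℚ) : ℝ)) := by
    rw [hgd]
    unfold dH
    push_cast
    ring
  rw [hl, ← hgd, hD]
  have e : s / c - g = ((s - ((sP (Yq N n) : ℚ) : ℝ)) - g * (c - ((cP (Yq N n) : ℚ) : ℝ))) / c := by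
    rw [hg]
    field_simp
    ring
  rw [e, abs_div, abs_of_pos hc0, div_le_iff₀ hc0]
  have k3 : |(s - ((sP (Yq N n) : ℚ) : ℝ)) - g * (c - ((cP (Yq N n) : ℚ) : ℝ))|
      ≤ (1 + |g|) * ((eP (Yq N n) : ℚ) : ℝ) := by
    refine (abs_sub _ _).trans ?_
    rw [abs_mul]
    have := mul_le_mul_of_nonneg_left k2 (abs_nonneg g)
    linarith
  have k4 : 0 ≤ (1 + |g|) * ((eP (Yq N n) : ℚ) : ℝ) := mul_nonneg (by positivity) hE0
  have k5 := mul_le_mul_of_nonneg_left hc2 k4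
  linarith only [k3, k4, k5]

/-- the check of the cell `i` -/
def chk1 (N n : ℕ) (g δ eta : ℚ) (i : ℕ) (a : Gq) : Bool :=
  let E := ex (n * (2 * (i : ℚ) - N) / (2 * N))
  decide ((δ + |g| * E.2) / N + Gq.nu (Gq.sub (Gq.sm (g / N) E.1) a) ≤ eta)

/-- **the check of a harmonic** -/
def chkA (N n : ℕ) (a : ℕ → Gq) (eta : ℚ) : Bool :=
  decide (0 < N) && decide (0 < n) && decide (5 * 3927 * n ≤ 8 * 1250 * N) && decide (0 < cP (Yq N n)) &&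
    (List.range N).all fun i => chk1 N n (gH (Yq N n)) (dH (Yq N n)) eta i (a i)

/-- the condition `y ≤ 4/5` -/
theorem y_le {N n : ℕ} (hN : 0 < N) (h : 5 * 3927 * n ≤ 8 * 1250 * N) {y : ℝ} (hy : y = n * Real.pi / (2 * N)) :
    y ≤ 4 / 5 := by
  have hN' : (0 : ℝ) < N := by exact_mod_cast hN
  have h' : (5 * 3927 * n : ℝ) ≤ 8 * 1250 * N := by exact_mod_cast h
  have hp := Real.pi_lt_d4
  have hp0 := Real.pi_pos
  have hn0 : (0 : ℝ) ≤ n := Nat.cast_nonneg n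
  rw [hy, div_le_iff₀ (by positivity)]
  nlinarith

/-- **soundness** -/
theorem a_ok {N n : ℕ} {a : ℕ → Gq} {eta : ℚ} (h : chkA N n a eta = true) {i : ℕ} (hi : i < N) {y : ℝ}
    (hy : y = n * Real.pi / (2 * N)) :
    ‖((lh y * (1 / N) : ℝ) : ℂ) * ph n (Real.pi * ru N i) - (a i).toC‖ ≤ (eta : ℝ) := by
  simp only [chkA, Bool.and_eq_true, decide_eq_true_eq, List.all_eq_true, List.mem_range] at h
  obtain ⟨⟨⟨⟨hN, hn⟩, hc⟩, hcp⟩, hall⟩ := h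
  have hy2 := y_le hN hc hy
  have h1 := hall i hi
  simp only [chk1, decide_eq_true_eq] at h1
  set g : ℚ := gH (Yq N n) with hg
  set δ : ℚ := dH (Yq N n) with hδ
  set q : ℚ := n * (2 * (i : ℚ) - N) / (2 * N) with hq
  have hN' : (0 : ℝ) < N := by exact_mod_cast hN
  have k1 := G_errH hN hn hy hy2 hcp
  rw [← hg, ← hδ] at k1
  have k2 := ex_err q
  have k3 := Gq.norm_le_nu (Gq.sub (Gq.sm (g / N) (ex q).1) (a i))
  rw [Gq.toC_sub, Gq.toC_sm] at k3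
  have h2 : ((((δ + |g| * (ex q).2) / N + Gq.nu (Gq.sub (Gq.sm (g / N) (ex q).1) (a i))) : ℚ) : ℝ) ≤ (eta : ℝ) := by
    exact_mod_cast h1
  push_cast at h2
  refine le_trans ?_ h2
  have eq1 : ph n (Real.pi * ru N i) = exp (((Real.pi * ((q : ℚ) : ℝ) : ℝ) : ℂ) * I) := by
    unfold SQD.ph
    congr 1
    have : (N : ℂ) ≠ 0 := by exact_mod_cast hN'.ne'
    rw [hq]
    unfold ru
    push_cast
    field_simp
    ring
  rw [eq1]
  set Ex : ℂ := exp (((Real.pi * ((q : ℚ) : ℝ) : ℝ) : ℂ) * I) with hEx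
  have nEx : ‖Ex‖ = 1 := by rw [hEx, Complex.norm_exp_ofReal_mul_I]
  have hNc : (N : ℂ) ≠ 0 := by exact_mod_cast hN'.ne'
  have e : ((lh y * (1 / N) : ℝ) : ℂ) * Ex - (a i).toC
      = ((1 / N : ℝ) : ℂ) * (((lh y - (g : ℝ) : ℝ) : ℂ) * Ex + ((g : ℝ) : ℂ) * (Ex - (ex q).1.toC))
        + (((g / N : ℚ) : ℂ) * (ex q).1.toC - (a i).toC) := by
    push_cast
    ring
  rw [e]
  refine (norm_add_le _ _).trans (add_le_add ?_ k3)
  rw [norm_mul, Complex.norm_real, Real.norm_eq_abs, abs_of_pos (by positivity), one_div, inv_mul_eq_div]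
  rw [div_le_div_iff_of_pos_right hN']
  refine (norm_add_le _ _).trans (add_le_add ?_ ?_)
  · rw [norm_mul, nEx, mul_one, Complex.norm_real, Real.norm_eq_abs]
    exact k1
  · rw [norm_mul, Complex.norm_real, Real.norm_eq_abs]
    exact mul_le_mul_of_nonneg_left k2 (abs_nonneg _)

/-- the check of the harmonics `1 .. R` -/
def chkH (G : NCD.TG) (R : ℕ) (η : ℚ) : Bool := (List.range R).all fun k => chkA G.N (k + 1) (G.a (k + 1)) η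

theorem trgH {G : NCD.TG} {R : ℕ} {η : ℚ} (h : chkH G R η = true) : TrgH R G.N G.a fun _ => η where
  zero := fun i _ => by simp [NCD.TG.a]
  pos := fun n h1 h9 i hi => by
    unfold chkH at h
    rw [List.all_eq_true] at h
    have hn := h (n - 1) (List.mem_range.2 (by omega))
    rw [Nat.sub_add_cancel h1] at hn
    exact a_ok hn hi rfl

end Pool.Agent.FPX.TGH
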