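import Mathlib
import Pool.Agent.FPX.UMP1

/-
UMPC (helper8): derivative of the universal map along curves of functions.
-/

open MeasureTheory Set Filter Topology
open scoped ENNReal NNReal

noncomputable section

namespace Pool.Agent.FPX.UMP

open Real

/-- a curve of functions through `φ s₀`, with derivative functional `L` at `s₀` -/
structure Crv (φ : ℝ → ℝ → ℝ) (s₀ : ℝ) (L : (ℝ → ℝ) → ℝ) : Prop where
  ef : Ef (φ s₀)
  cont : ∀ s, Continuous (φ s)
  lip : ∃ K : ℝ, ∀ᶠ s in 𝓝 s₀, ∀ t, |φ s t - φ s₀ t| ≤ K * |s - s₀|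
  der : ∀ w : ℝ → ℝ, Continuous w →
    HasDerivAt (fun s => ∫ t in (0 : ℝ)..(2 * π), w t * φ s t) (L w) s₀

theorem quad {G G' G'' : ℝ → ℝ} {m C : ℝ} (h1 : ∀ x, |x| ≤ m → HasDerivAt G (G' x) x)
    (h2 : ∀ x, |x| ≤ m → HasDerivAt G' (G'' x) x) (hC : ∀ x, |x| ≤ m → |G'' x| ≤ C)
    {x y : ℝ} (hx : |x| ≤ m) (hy : |y| ≤ m) :
    |G y - G x - G' x * (y - x)| ≤ C * (y - x) ^ 2 := by
  have hC0 : 0 ≤ C := (abs_nonneg _).trans (hC x hx)
  have hcv : Convex ℝ (Icc (-m) m) := convex_Icc _ _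
  have hL : ∀ z, |z| ≤ m → |G' z - G' x| ≤ C * |z - x| := by
    intro z hz
    have := hcv.norm_image_sub_le_of_norm_hasDerivWithin_le (f := G') (f' := G'') (C := C)
      (fun x hx => (h2 x (abs_le.2 hx)).hasDerivWithinAt) (fun x hx => hC x (abs_le.2 hx))
      (abs_le.1 hx) (abs_le.1 hz)
    simpa using this
  have hseg : ∀ z ∈ uIcc x y, |z| ≤ m ∧ |z - x| ≤ |y - x| := by
    intro z hz
    constructor
    · exact abs_le.2 ((ordConnected_Icc (a := -m) (b := m)).uIcc_subset (abs_le.1 hx) (abs_le.1 hy) hz)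
    · exact abs_sub_left_of_mem_uIcc hz
  have := (convex_uIcc x y).norm_image_sub_le_of_norm_hasDerivWithin_le
    (f := fun z => G z - G' x * z) (f' := fun z => G' z - G' x) (C := C * |y - x|)
    (fun z hz => by
      refine (((h1 z (hseg z hz).1).sub ((hasDerivAt_id z).const_mul (G' x))).congr_deriv ?_).hasDerivWithinAt
      ring) (fun z hz => by
      rw [Real.norm_eq_abs]
      exact (hL z (hseg z hz).1).trans (mul_le_mul_of_nonneg_left (hseg z hz).2 hC0))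
    left_mem_uIcc right_mem_uIcc
  rw [Real.norm_eq_abs, Real.norm_eq_abs] at this
  have e : G y - G' x * y - (G x - G' x * x) = G y - G x - G' x * (y - x) := by ring
  rw [e] at this
  refine this.trans (le_of_eq ?_)
  rw [mul_assoc, ← sq, sq_abs]

namespace Crv

variable {φ : ℝ → ℝ → ℝ} {s₀ : ℝ} {L : (ℝ → ℝ) → ℝ}

theorem lin (h : Crv φ s₀ L) {w₁ w₂ : ℝ → ℝ} (h1 : Continuous w₁) (h2 : Continuous w₂) (a b : ℝ) :
    L (fun t => a * w₁ t + b * w₂ t) = a * L w₁ + b * L w₂ := by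
  have hc : Continuous fun t => a * w₁ t + b * w₂ t := by fun_prop
  have e1 := h.der _ hc
  have e2 := ((h.der _ h1).const_mul a).add ((h.der _ h2).const_mul b)
  refine e1.unique (e2.congr_of_eventuallyEq ?_)
  refine Eventually.of_forall fun s => ?_
  simp only [Pi.add_apply]
  rw [← intervalIntegral.integral_const_mul, ← intervalIntegral.integral_const_mul,
    ← intervalIntegral.integral_add]
  · refine intervalIntegral.integral_congr fun t _ => ?_
    ring
  · exact (continuous_const.mul (h1.mul (h.cont s))).intervalIntegrable _ _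
  · exact (continuous_const.mul (h2.mul (h.cont s))).intervalIntegrable _ _

/-- chain rule -/
theorem comp (h : Crv φ s₀ L) {G G' G'' : ℝ → ℝ}
    (h1 : ∀ x, |x| < π / 2 → HasDerivAt G (G' x) x)
    (h2 : ∀ x, |x| < π / 2 → HasDerivAt G' (G'' x) x)
    (h3 : ∀ m, m < π / 2 → ∃ C, ∀ x, |x| ≤ m → |G'' x| ≤ C)
    {w : ℝ → ℝ} (hw : Continuous w) :
    HasDerivAt (fun s => ∫ t in (0 : ℝ)..(2 * π), w t * G (φ s t))
      (L fun t => w t * G' (φ s₀ t)) s₀ := by
  obtain ⟨m₀, hm0, hm1, hm⟩ := h.ef.exists_bd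
  set m := (m₀ + π / 2) / 2 with hmdef
  have hmm : m₀ < m := by rw [hmdef]; linarith
  have hmp : m < π / 2 := by rw [hmdef]; linarith
  obtain ⟨C, hC⟩ := h3 m hmp
  obtain ⟨K, hK⟩ := h.lip
  obtain ⟨B, hB⟩ := (isCompact_Icc (a := (0 : ℝ)) (b := 2 * π)).exists_bound_of_continuousOn
    hw.continuousOn
  have hGc : ContinuousOn G {x | |x| ≤ m} :=
    fun x hx => (h1 x (lt_of_le_of_lt hx hmp)).continuousAt.continuousWithinAt
  have hG'c : ContinuousOn G' {x | |x| ≤ m} :=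
    fun x hx => (h2 x (lt_of_le_of_lt hx hmp)).continuousAt.continuousWithinAt
  have hf0 : ∀ t, φ s₀ t ∈ {x | |x| ≤ m} := fun t => (hm t).trans hmm.le
  have cG' : Continuous fun t => w t * G' (φ s₀ t) :=
    hw.mul (hG'c.comp_continuous (h.cont s₀) hf0)
  have hJ := h.der _ cG'
  have hsmall : ∀ᶠ s in 𝓝 s₀, K * |s - s₀| < m - m₀ := by
    have hc : Continuous fun s : ℝ => K * |s - s₀| := by fun_prop
    have := hc.tendsto s₀
    simp only [sub_self, abs_zero, mul_zero] at this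
    exact this.eventually (gt_mem_nhds (by linarith))
  have hbd : ∀ᶠ s in 𝓝 s₀, ∀ t, |φ s t| ≤ m := by
    filter_upwards [hK, hsmall] with s h4 h5 t
    have h6 := h4 t
    have h7 := hm t
    have h8 : |φ s t| ≤ |φ s t - φ s₀ t| + |φ s₀ t| := by
      have := abs_add_le (φ s t - φ s₀ t) (φ s₀ t)
      rwa [sub_add_cancel] at this
    linarith
  have hQ : ∀ᶠ s in 𝓝 s₀, ‖(∫ t in (0 : ℝ)..(2 * π), w t * G (φ s t))
      - (∫ t in (0 : ℝ)..(2 * π), w t * G (φ s₀ t))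
      - ((∫ t in (0 : ℝ)..(2 * π), w t * G' (φ s₀ t) * φ s t)
        - ∫ t in (0 : ℝ)..(2 * π), w t * G' (φ s₀ t) * φ s₀ t)‖ ≤ (B * (C * K ^ 2) * (2 * π)) * ‖(s - s₀) ^ 2‖ := by
    filter_upwards [hbd, hK] with s h4 h5
    have i1 : IntervalIntegrable (fun t => w t * G (φ s t)) volume 0 (2 * π) :=
      (hw.mul (hGc.comp_continuous (h.cont s) h4)).intervalIntegrable _ _
    have i2 : IntervalIntegrable (fun t => w t * G (φ s₀ t)) volume 0 (2 * π) :=
      (hw.mul (hGc.comp_continuous (h.cont s₀) hf0)).intervalIntegrable _ _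
    have i3 : IntervalIntegrable (fun t => w t * G' (φ s₀ t) * φ s t) volume 0 (2 * π) :=
      (cG'.mul (h.cont s)).intervalIntegrable _ _
    have i4 : IntervalIntegrable (fun t => w t * G' (φ s₀ t) * φ s₀ t) volume 0 (2 * π) :=
      (cG'.mul (h.cont s₀)).intervalIntegrable _ _
    rw [← intervalIntegral.integral_sub i1 i2, ← intervalIntegral.integral_sub i3 i4,
      ← intervalIntegral.integral_sub (i1.sub i2) (i3.sub i4)]
    refine (intervalIntegral.norm_integral_le_of_norm_le_const (C := B * (C * K ^ 2 * (s - s₀) ^ 2))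
      fun t ht => ?_).trans (le_of_eq ?_)
    · have e : w t * G (φ s t) - w t * G (φ s₀ t) - (w t * G' (φ s₀ t) * φ s t - w t * G' (φ s₀ t) * φ s₀ t)
          = w t * (G (φ s t) - G (φ s₀ t) - G' (φ s₀ t) * (φ s t - φ s₀ t)) := by ring
      rw [e, norm_mul]
      have h6 := quad (G := G) (G' := G') (G'' := G'') (m := m) (C := C)
        (fun x hx => h1 x (lt_of_le_of_lt hx hmp)) (fun x hx => h2 x (lt_of_le_of_lt hx hmp)) hC
        (hf0 t) (h4 t)
      have h7 : (φ s t - φ s₀ t) ^ 2 ≤ K ^ 2 * (s - s₀) ^ 2 := by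
        rw [← sq_abs (φ s t - φ s₀ t), ← mul_pow, ← sq_abs (K * (s - s₀)), abs_mul]
        refine pow_le_pow_left₀ (abs_nonneg _) ((h5 t).trans ?_) 2
        exact mul_le_mul_of_nonneg_right (le_abs_self K) (abs_nonneg _)
      have hC0 : 0 ≤ C := (abs_nonneg _).trans (hC _ (hf0 t))
      have ht' : t ∈ Icc 0 (2 * π) := by
        rw [uIoc_of_le (by positivity)] at ht
        exact ⟨ht.1.le, ht.2⟩
      have hB' := hB t ht'
      refine mul_le_mul hB' (h6.trans ?_) (norm_nonneg _) ((norm_nonneg _).trans hB')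
      calc C * (φ s t - φ s₀ t) ^ 2 ≤ C * (K ^ 2 * (s - s₀) ^ 2) := mul_le_mul_of_nonneg_left h7 hC0
        _ = C * K ^ 2 * (s - s₀) ^ 2 := by ring
    · rw [norm_pow, Real.norm_eq_abs, sq_abs, sub_zero, abs_of_pos (by positivity : 0 < 2 * π)]
      ring
  rw [hasDerivAt_iff_isLittleO] at hJ ⊢
  have hO : (fun s => (∫ t in (0 : ℝ)..(2 * π), w t * G (φ s t))
      - (∫ t in (0 : ℝ)..(2 * π), w t * G (φ s₀ t))
      - ((∫ t in (0 : ℝ)..(2 * π), w t * G' (φ s₀ t) * φ s t)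
        - ∫ t in (0 : ℝ)..(2 * π), w t * G' (φ s₀ t) * φ s₀ t)) =O[𝓝 s₀] fun s => (s - s₀) ^ 2 :=
    Asymptotics.IsBigO.of_bound _ hQ
  have ho : (fun s => (s - s₀) ^ 2) =o[𝓝 s₀] fun s => s - s₀ := by
    have := (Asymptotics.isLittleO_pow_sub_sub s₀ (m := 2) (by norm_num))
    simpa using this
  have := (hO.trans_isLittleO ho).add hJ
  refine this.congr_left fun s => ?_
  ring

end Crv

/-! ### the weights -/

/-- the weight of `dF₁` -/
def W1 (f : ℝ → ℝ) (t : ℝ) : ℝ := (cos t - F1 f * sin (f t)) / cos (f t) ^ 3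

/-- the weight of `dF₂` -/
def W2 (f : ℝ → ℝ) (t : ℝ) : ℝ := (sin t - F2 f * sin (f t)) / cos (f t) ^ 3

/-- the weight of `dF₃` -/
def W3 (f : ℝ → ℝ) (t : ℝ) : ℝ := -(F1 f * W1 f t + F2 f * W2 f t) / √(zz f)

/-- the square of the norm of the weight -/
def WQ (f : ℝ → ℝ) (t : ℝ) : ℝ := W1 f t ^ 2 + W2 f t ^ 2 + W3 f t ^ 2

namespace Ef

variable {f : ℝ → ℝ}

theorem cont_W1 (h : Ef f) : Continuous (W1 f) :=
  (continuous_cos.sub (continuous_const.mul (continuous_sin.comp h.cont))).div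
    ((continuous_cos.comp h.cont).pow 3) fun t => pow_ne_zero 3 (h.cos_pos t).ne'

theorem cont_W2 (h : Ef f) : Continuous (W2 f) :=
  (continuous_sin.sub (continuous_const.mul (continuous_sin.comp h.cont))).div
    ((continuous_cos.comp h.cont).pow 3) fun t => pow_ne_zero 3 (h.cos_pos t).ne'

theorem cont_W3 (h : Ef f) : Continuous (W3 f) :=
  ((continuous_const.mul h.cont_W1).add (continuous_const.mul h.cont_W2)).neg.div_const _

theorem cont_WQ (h : Ef f) : Continuous (WQ f) :=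
  ((h.cont_W1.pow 2).add (h.cont_W2.pow 2)).add (h.cont_W3.pow 2)

theorem WQ_nonneg (t : ℝ) : 0 ≤ WQ f t := by
  unfold WQ
  positivity

theorem WQ_eq (h : Ef f) (t : ℝ) : WQ f t = (cos (f t) ^ 2
    + (sin (f t) - F1 f * cos t - F2 f * sin t) ^ 2 / zz f) / cos (f t) ^ 6 := by
  have hz := h.zz_pos
  have hc := h.cos_pos t
  have e3 : W3 f t ^ 2 = (F1 f * W1 f t + F2 f * W2 f t) ^ 2 / zz f := by
    unfold W3
    rw [div_pow, sq_sqrt hz.le]
    ring
  unfold WQ
  rw [e3]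
  unfold W1 W2
  have hs := sin_sq_add_cos_sq (f t)
  have ht := sin_sq_add_cos_sq t
  have hzz : zz f = 1 - F1 f ^ 2 - F2 f ^ 2 := rfl
  have key : zz f * ((cos t - F1 f * sin (f t)) ^ 2 + (sin t - F2 f * sin (f t)) ^ 2)
      + (F1 f * (cos t - F1 f * sin (f t)) + F2 f * (sin t - F2 f * sin (f t))) ^ 2
      = zz f * cos (f t) ^ 2 + (sin (f t) - F1 f * cos t - F2 f * sin t) ^ 2 := by
    linear_combination zz f * ht - zz f * hs + sin (f t) * ((1 + F1 f ^ 2 + F2 f ^ 2) * sin (f t)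
      - 2 * (F1 f * cos t + F2 f * sin t)) * hzz
  have e4 : ((cos t - F1 f * sin (f t)) / cos (f t) ^ 3) ^ 2 + ((sin t - F2 f * sin (f t)) / cos (f t) ^ 3) ^ 2
      + (F1 f * ((cos t - F1 f * sin (f t)) / cos (f t) ^ 3)
        + F2 f * ((sin t - F2 f * sin (f t)) / cos (f t) ^ 3)) ^ 2 / zz f
      = (zz f * ((cos t - F1 f * sin (f t)) ^ 2 + (sin t - F2 f * sin (f t)) ^ 2)
      + (F1 f * (cos t - F1 f * sin (f t)) + F2 f * (sin t - F2 f * sin (f t))) ^ 2)
        / (zz f * cos (f t) ^ 6) := by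
    field_simp
  rw [e4, key]
  field_simp

/-- the weight of the third coordinate is tangential -/
theorem W_tan (h : Ef f) (t : ℝ) : F1 f * W1 f t + F2 f * W2 f t + √(zz f) * W3 f t = 0 := by
  have hz := sqrt_pos.2 h.zz_pos
  unfold W3
  field_simp
  ring

/-- the total weight -/
theorem int_W (h : Ef f) {c : ℝ} (hc : 0 ≤ c) (hU : UStar c) :
    ∫ t in (0 : ℝ)..(2 * π), √(WQ f t) ≤ 2 * √(1 + c) * V0 f := by
  have hz := h.zz_pos
  set l := √(1 + c) with hl
  have hl0 : 0 < l := sqrt_pos.2 (by linarith)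
  have hl2 : l ^ 2 = 1 + c := sq_sqrt (by linarith)
  have hu := hU f h
  have cA : Continuous fun t => (sin (f t) - F1 f * cos t - F2 f * sin t) ^ 2 / cos (f t) ^ 4 :=
    ((((continuous_sin.comp h.cont).sub (continuous_const.mul continuous_cos)).sub
      (continuous_const.mul continuous_sin)).pow 2).div
      ((continuous_cos.comp h.cont).pow 4) fun t => pow_ne_zero 4 (h.cos_pos t).ne'
  have i1 : IntervalIntegrable (fun t => (1 / (2 * l) + l / 2) * (1 / cos (f t) ^ 2)) volume 0 (2 * π) :=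
    (h.cont_sec2.intervalIntegrable _ _).const_mul _
  have i2 : IntervalIntegrable (fun t => 1 / (2 * l * zz f) *
      ((sin (f t) - F1 f * cos t - F2 f * sin t) ^ 2 / cos (f t) ^ 4)) volume 0 (2 * π) :=
    (cA.intervalIntegrable _ _).const_mul _
  have h1 : ∫ t in (0 : ℝ)..(2 * π), √(WQ f t) ≤ ∫ t in (0 : ℝ)..(2 * π),
      ((1 / (2 * l) + l / 2) * (1 / cos (f t) ^ 2)
        + 1 / (2 * l * zz f) * ((sin (f t) - F1 f * cos t - F2 f * sin t) ^ 2 / cos (f t) ^ 4)) := by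
    refine intervalIntegral.integral_mono (by positivity)
      ((continuous_sqrt.comp h.cont_WQ).intervalIntegrable _ _)
      ((i1.add i2)) fun t => ?_
    have hp := h.cos_pos t
    have e1 := h.WQ_eq t
    have h2 : √(WQ f t) ≤ (WQ f t * cos (f t) ^ 2 / l + l / cos (f t) ^ 2) / 2 := by
      have h3 : √(WQ f t) ^ 2 = WQ f t := sq_sqrt (WQ_nonneg t)
      have h4 : 0 ≤ (√(WQ f t) * cos (f t) / √l - √l / cos (f t)) ^ 2 := sq_nonneg _
      have hsl := sqrt_pos.2 hl0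
      have e2 : (√(WQ f t) * cos (f t) / √l - √l / cos (f t)) ^ 2
          = √(WQ f t) ^ 2 * cos (f t) ^ 2 / √l ^ 2 + √l ^ 2 / cos (f t) ^ 2 - 2 * √(WQ f t) := by
        field_simp
        ring
      rw [e2, h3, sq_sqrt hl0.le] at h4
      linarith
    refine h2.trans (le_of_eq ?_)
    rw [e1]
    field_simp
    ring
  refine h1.trans ?_
  rw [intervalIntegral.integral_add i1 i2, intervalIntegral.integral_const_mul,
    intervalIntegral.integral_const_mul]
  have hI : ∫ t in (0 : ℝ)..(2 * π), 1 / cos (f t) ^ 2 = 2 * V0 f := by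
    unfold V0
    ring
  rw [hI] at hu ⊢
  have hk : 1 / (2 * l * zz f) * (∫ t in (0 : ℝ)..(2 * π),
      (sin (f t) - F1 f * cos t - F2 f * sin t) ^ 2 / cos (f t) ^ 4)
      ≤ 1 / (2 * l * zz f) * (c * zz f * (2 * V0 f)) :=
    mul_le_mul_of_nonneg_left hu (by positivity)
  have e3 : 1 / (2 * l * zz f) * (c * zz f * (2 * V0 f)) = c / l * V0 f := by
    field_simp
  rw [e3] at hk
  have e4 : (1 / (2 * l) + l / 2) * (2 * V0 f) + c / l * V0 f = 2 * l * V0 f := by
    field_simp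
    linear_combination (-V0 f) * hl2
  linarith

end Ef

namespace Crv

variable {φ : ℝ → ℝ → ℝ} {s₀ : ℝ} {L : (ℝ → ℝ) → ℝ}

theorem dV0 (h : Crv φ s₀ L) :
    HasDerivAt (fun s => V0 (φ s)) (L fun t => sin (φ s₀ t) / cos (φ s₀ t) ^ 3) s₀ := by
  have h1 := h.comp (G := fun s => 1 / cos s ^ 2) (G' := fun s => 2 * sin s / cos s ^ 3)
    (G'' := fun s => 2 / cos s ^ 2 + 6 * sin s ^ 2 / cos s ^ 4) ?_ ?_ ?_ (w := fun _ => 1 / 2)
    continuous_const
  · have e : (fun s => V0 (φ s)) = fun s => ∫ t in (0 : ℝ)..(2 * π), 1 / 2 * (1 / cos (φ s t) ^ 2) := by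
      ext s
      unfold V0
      rw [intervalIntegral.integral_const_mul]
    rw [e]
    refine h1.congr_deriv ?_
    congr 1
    ext t
    ring
  · intro x hx
    exact hasDerivAt_sec2 (cos_pos_of_mem_Ioo (abs_lt.1 hx))
  · intro x hx
    have hc : 0 < cos x := cos_pos_of_mem_Ioo (abs_lt.1 hx)
    have h2 := ((hasDerivAt_sin x).const_mul 2).div ((hasDerivAt_cos x).pow 3) (pow_ne_zero 3 hc.ne')
    refine h2.congr_deriv ?_
    simp only [Pi.pow_apply]
    field_simp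
    ring
  · intro m hm
    rcases lt_or_ge m 0 with h0 | h0
    · exact ⟨0, fun x hx => absurd (abs_nonneg x) (by linarith)⟩
    have hcm : 0 < cos m := cos_pos_of_mem_Ioo ⟨by linarith, hm⟩
    refine ⟨2 / cos m ^ 2 + 6 / cos m ^ 4, fun x hx => ?_⟩
    have hc := Ef.cosm h0 hm hx
    have hcx : 0 < cos x := lt_of_lt_of_le hcm hc
    rw [abs_of_nonneg (by positivity)]
    gcongr
    nlinarith [sin_sq_add_cos_sq x, sq_nonneg (cos x)]

theorem dVw (h : Crv φ s₀ L) {w : ℝ → ℝ} (hw : Continuous w) :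
    HasDerivAt (fun s => ∫ t in (0 : ℝ)..(2 * π), w t * RR (φ s t))
      (L fun t => w t / cos (φ s₀ t) ^ 3) s₀ := by
  have h1 := h.comp (G := RR) (G' := fun s => 1 / cos s ^ 3)
    (G'' := fun s => 3 * sin s / cos s ^ 4) ?_ ?_ ?_ hw
  · refine h1.congr_deriv ?_
    congr 1
    ext t
    ring
  · intro x hx
    exact hasDerivAt_RR (cos_pos_of_mem_Ioo (abs_lt.1 hx))
  · intro x hx
    have hc : 0 < cos x := cos_pos_of_mem_Ioo (abs_lt.1 hx)
    have h2 := (hasDerivAt_const x (1 : ℝ)).div ((hasDerivAt_cos x).pow 3) (pow_ne_zero 3 hc.ne')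
    refine h2.congr_deriv ?_
    simp only [Pi.pow_apply]
    field_simp
    ring
  · intro m hm
    rcases lt_or_ge m 0 with h0 | h0
    · exact ⟨0, fun x hx => absurd (abs_nonneg x) (by linarith)⟩
    have hcm : 0 < cos m := cos_pos_of_mem_Ioo ⟨by linarith, hm⟩
    refine ⟨3 / cos m ^ 4, fun x hx => ?_⟩
    have hc := Ef.cosm h0 hm hx
    have hcx : 0 < cos x := lt_of_lt_of_le hcm hc
    rw [abs_div, abs_of_pos (by positivity : 0 < cos x ^ 4)]
    gcongr
    rw [abs_mul, abs_of_pos (by norm_num : (0 : ℝ) < 3)]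
    linarith [abs_sin_le_one x]

theorem dF1 (h : Crv φ s₀ L) : HasDerivAt (fun s => F1 (φ s)) (L (W1 (φ s₀)) / V0 (φ s₀)) s₀ := by
  have hV := h.ef.V0_pos
  have h1 := (h.dVw continuous_cos).div h.dV0 hV.ne'
  refine h1.congr_deriv ?_
  have hp := h.ef.cos_pos
  have c1 : Continuous fun t => cos t / cos (φ s₀ t) ^ 3 :=
    continuous_cos.div ((continuous_cos.comp h.ef.cont).pow 3) fun t => pow_ne_zero 3 (hp t).ne'
  have c2 : Continuous fun t => sin (φ s₀ t) / cos (φ s₀ t) ^ 3 :=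
    (continuous_sin.comp h.ef.cont).div ((continuous_cos.comp h.ef.cont).pow 3)
      fun t => pow_ne_zero 3 (hp t).ne'
  have e1 : W1 (φ s₀) = fun t => 1 * (cos t / cos (φ s₀ t) ^ 3)
      + (-F1 (φ s₀)) * (sin (φ s₀ t) / cos (φ s₀ t) ^ 3) := by
    ext t
    unfold W1
    ring
  rw [e1, h.lin c1 c2]
  have e2 : (∫ t in (0 : ℝ)..(2 * π), cos t * RR (φ s₀ t)) = F1 (φ s₀) * V0 (φ s₀) := by
    unfold F1 V1
    field_simp
  rw [e2]
  field_simp
  ring

theorem dF2 (h : Crv φ s₀ L) : HasDerivAt (fun s => F2 (φ s)) (L (W2 (φ s₀)) / V0 (φ s₀)) s₀ := by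
  have hV := h.ef.V0_pos
  have h1 := (h.dVw continuous_sin).div h.dV0 hV.ne'
  refine h1.congr_deriv ?_
  have hp := h.ef.cos_pos
  have c1 : Continuous fun t => sin t / cos (φ s₀ t) ^ 3 :=
    continuous_sin.div ((continuous_cos.comp h.ef.cont).pow 3) fun t => pow_ne_zero 3 (hp t).ne'
  have c2 : Continuous fun t => sin (φ s₀ t) / cos (φ s₀ t) ^ 3 :=
    (continuous_sin.comp h.ef.cont).div ((continuous_cos.comp h.ef.cont).pow 3)
      fun t => pow_ne_zero 3 (hp t).ne'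
  have e1 : W2 (φ s₀) = fun t => 1 * (sin t / cos (φ s₀ t) ^ 3)
      + (-F2 (φ s₀)) * (sin (φ s₀ t) / cos (φ s₀ t) ^ 3) := by
    ext t
    unfold W2
    ring
  rw [e1, h.lin c1 c2]
  have e2 : (∫ t in (0 : ℝ)..(2 * π), sin t * RR (φ s₀ t)) = F2 (φ s₀) * V0 (φ s₀) := by
    unfold F2 V2
    field_simp
  rw [e2]
  field_simp
  ring

theorem dF3 (h : Crv φ s₀ L) :
    HasDerivAt (fun s => √(zz (φ s))) (L (W3 (φ s₀)) / V0 (φ s₀)) s₀ := by
  have hV := h.ef.V0_pos
  have hz := h.ef.zz_pos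
  have hsz := sqrt_pos.2 hz
  have h1 : HasDerivAt (fun s => zz (φ s)) (-(2 * F1 (φ s₀) * (L (W1 (φ s₀)) / V0 (φ s₀)))
      - 2 * F2 (φ s₀) * (L (W2 (φ s₀)) / V0 (φ s₀))) s₀ := by
    have := ((hasDerivAt_const s₀ (1 : ℝ)).sub (h.dF1.pow 2)).sub (h.dF2.pow 2)
    refine this.congr_deriv ?_
    norm_num
  have h2 := h1.sqrt hz.ne'
  refine h2.congr_deriv ?_
  have e1 : W3 (φ s₀) = fun t => (-F1 (φ s₀) / √(zz (φ s₀))) * W1 (φ s₀) t
      + (-F2 (φ s₀) / √(zz (φ s₀))) * W2 (φ s₀) t := by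
    ext t
    unfold W3
    field_simp
    ring
  rw [e1, h.lin h.ef.cont_W1 h.ef.cont_W2]
  field_simp
  ring

end Crv

end Pool.Agent.FPX.UMP
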