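import Mathlib
import Pool.Agent.FPX.VSA

/-
VSK (helper30): the family `κ(n) = B + s w + A / (U + w²)`, `w = √(p² + n)`, of admissible functions of the V stage.
-/

noncomputable section

namespace Pool.Agent.FPX.VST

open Pool.Agent.EWD Pool.Agent.FPX

/-- the function -/
def kF (B s p A U n : ℝ) : ℝ := B + s * √(p ^ 2 + n) + A / (U + (p ^ 2 + n))

/-- the condition on the coefficients: `c = κ - w`, `s' = dκ/dw` -/
structure KFok (B s p A U : ℝ) : Prop where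
  p0 : 0 < p
  U0 : 0 < U
  c0 : ∀ w, p ≤ w → 0 < B + (s - 1) * w + A / (U + w ^ 2)
  s0 : ∀ w, p ≤ w → 0 ≤ s - 2 * A * w / (U + w ^ 2) ^ 2
  key : ∀ w, p ≤ w → 1 < 4 * (s - 2 * A * w / (U + w ^ 2) ^ 2) *
    (B + (s - 1) * w + A / (U + w ^ 2) + 1 - (s - 2 * A * w / (U + w ^ 2) ^ 2))

variable {B s p A U : ℝ}

theorem kF_w {n : ℝ} (hn : 0 ≤ n) (hp : 0 < p) : 0 < √(p ^ 2 + n) ∧ √(p ^ 2 + n) ^ 2 = p ^ 2 + n ∧
    p ≤ √(p ^ 2 + n) := by
  have h1 : 0 < p ^ 2 + n := by positivity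
  exact ⟨Real.sqrt_pos.2 h1, Real.sq_sqrt h1.le, Real.le_sqrt_of_sq_le (by linarith)⟩

theorem kF_deriv (hp : 0 < p) (hU : 0 < U) {n : ℝ} (hn : 0 ≤ n) :
    HasDerivAt (kF B s p A U)
      ((s - 2 * A * √(p ^ 2 + n) / (U + √(p ^ 2 + n) ^ 2) ^ 2) / (2 * √(p ^ 2 + n))) n := by
  obtain ⟨w1, w2, -⟩ := kF_w hn hp
  have h1 : HasDerivAt (fun n : ℝ => p ^ 2 + n) 1 n := (hasDerivAt_id n).const_add _
  have h2 : p ^ 2 + n ≠ 0 := by positivity
  have h3 : U + (p ^ 2 + n) ≠ 0 := by positivity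
  have h4 := ((h1.sqrt h2).const_mul s).const_add B
  have h5 := (hasDerivAt_const n A).div (h1.const_add U) h3
  refine (h4.add h5).congr_deriv ?_
  rw [w2]
  have h6 : √(p ^ 2 + n) ≠ 0 := w1.ne'
  field_simp
  ring

theorem kF_cd (hp : 0 < p) (hU : 0 < U) {n : ℝ} (hn : 0 ≤ n) : ContDiffAt ℝ 1 (kF B s p A U) n := by
  have h2 : p ^ 2 + n ≠ 0 := by positivity
  have h3 : U + (p ^ 2 + n) ≠ 0 := by positivity
  have h4 : ContDiffAt ℝ 1 (fun n : ℝ => p ^ 2 + n) n := by fun_prop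
  have h5 : ContDiffAt ℝ 1 (fun n : ℝ => U + (p ^ 2 + n)) n := by fun_prop
  exact (contDiffAt_const.add (contDiffAt_const.mul (h4.sqrt h2))).add (contDiffAt_const.div h5 h3)

theorem KFok.kap (h : KFok B s p A U) : Kap (kF B s p A U) where
  cd := fun n hn => kF_cd h.p0 h.U0 hn
  gt := by
    intro x hx
    obtain ⟨w1, w2, w3⟩ := kF_w (n := x ^ 2) (by positivity) h.p0
    have h1 := h.c0 _ w3
    have h2 : x ≤ √(p ^ 2 + x ^ 2) := Real.le_sqrt_of_sq_le (by nlinarith [sq_nonneg p])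
    unfold kF
    rw [w2] at h1
    linarith
  mono := by
    intro n hn
    rw [(kF_deriv h.p0 h.U0 hn).deriv]
    obtain ⟨w1, w2, w3⟩ := kF_w hn h.p0
    exact div_nonneg (h.s0 _ w3) (by positivity)
  key := by
    intro n x hn hx
    rw [(kF_deriv h.p0 h.U0 hn).deriv]
    obtain ⟨w1, w2, w3⟩ := kF_w hn h.p0
    have h1 := h.c0 _ w3
    have h2 := h.s0 _ w3
    have h3 := h.key _ w3
    have hk : kF B s p A U n = B + s * √(p ^ 2 + n) + A / (U + √(p ^ 2 + n) ^ 2) := by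
      rw [w2]
      rfl
    rw [hk]
    set w := √(p ^ 2 + n)
    set t := s - 2 * A * w / (U + w ^ 2) ^ 2
    set a := A / (U + w ^ 2)
    have hp := h.p0
    have hx2 : x ^ 2 < w ^ 2 := by nlinarith [sq_pos_of_pos hp]
    have hxw := abs_lt_of_sq_lt_sq hx2 w1.le
    rw [abs_lt] at hxw
    rw [div_mul_eq_mul_div, div_lt_iff₀ (by positivity)]
    -- `y = w - x`
    have e1 : 0 < (w - x + (B + (s - 1) * w + a) + 1 - 2 * t) ^ 2 +
        (4 * t * (B + (s - 1) * w + a + 1 - t) - 1) := by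
      have := sq_nonneg (w - x + (B + (s - 1) * w + a) + 1 - 2 * t)
      linarith
    have e2 := mul_pos w1 e1
    have e3 : 0 ≤ t * p ^ 2 := by positivity
    have e4 : 0 ≤ t * (w - x) ^ 2 := by positivity
    have e5 : n = w ^ 2 - p ^ 2 := by linarith
    rw [e5]
    nlinarith

end Pool.Agent.FPX.VST
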