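import Mathlib
import Pool.Agent.FPX.VSK
import Pool.Agent.FPX.BXV

/-
VSX (helper30): the state inequality `VOk` for the family `kF` from the box test of BXE.
-/

noncomputable section

namespace Pool.Agent.FPX.VST

open Pool.Agent.EWD Pool.Agent.FPX Pool.Agent.FPX.BXE

/-- on admissible states `h ≤ 3` -/
theorem VSt.h3 {κ : ℝ → ℝ} {h d : ℝ} (hs : VSt κ h d) (hκ : h < κ (h ^ 2)) : h ≤ 3 := by
  have h1 := hs.th
  have h0 := hs.h0
  have hd := hs.hd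
  have hda : -h ≤ d := by
    have := abs_le_of_sq_le_sq hd h0
    rw [abs_le] at this
    exact this.1
  set K := κ (h ^ 2)
  by_contra hc
  have hc' : 3 < h := not_le.1 hc
  -- `(3 - h²) s - 2 K s + 2 (K² - h²) ≥ 0`, `s = K + d ≥ K - h`
  have e1 : 0 ≤ (h + d) * (h ^ 2 - 3 + 2 * K) := mul_nonneg (by linarith) (by nlinarith)
  have e2 : (K - h) * (h ^ 2 - 2 * h - 3) ≤ 0 := by nlinarith
  have e3 : 0 < (K - h) * (h ^ 2 - 2 * h - 3) := mul_pos (by linarith) (by nlinarith)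
  linarith

/-- the state polynomial without denominators -/
theorem vG_clear {al kap E w Q KQ MQ h d : ℝ} (hw : w ≠ 0) (hQ : Q ≠ 0) (h1 : 1 - al ≠ 0)
    (h3 : 3 - 2 * al ≠ 0) :
    vG al kap E (KQ / Q) (MQ / (w * Q ^ 2)) h d * (w ^ 2 * Q ^ 6) =
      (KQ ^ 2 - h ^ 2 * Q ^ 2) * E * ((1 - al) * (KQ + d * Q) ^ 4 * w ^ 2
        + 4 * (KQ + d * Q) ^ 2 * (2 * (KQ + d * Q) * (w * Q) - MQ * (h ^ 2 - d ^ 2)) * w
        - (kap - 1) * (2 * (KQ + d * Q) * (w * Q) - MQ * (h ^ 2 - d ^ 2)) ^ 2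
        - (4 + (1 - al) * (kap - 1)) / (1 - al) * MQ ^ 2 * (h ^ 2 - d ^ 2) ^ 2)
      - (4 + (1 - al) * (kap - 1)) * 4 / (3 - 2 * al) * (h ^ 2 - d ^ 2) * E
        * ((KQ + d * Q) * w * Q ^ 2 - MQ * (KQ * d + h ^ 2 * Q)) ^ 2
      - (4 + (1 - al) * (kap - 1)) * (KQ ^ 2 - h ^ 2 * Q ^ 2) * (KQ - d * Q) ^ 2 * (KQ + d * Q) ^ 2
        * w ^ 2 := by
  have e1 : (KQ / Q) ^ 2 - h ^ 2 = (KQ ^ 2 - h ^ 2 * Q ^ 2) / Q ^ 2 := by
    field_simp
  have e2 : KQ / Q + d = (KQ + d * Q) / Q := by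
    field_simp
  have e3 : KQ / Q - d = (KQ - d * Q) / Q := by
    field_simp
  have e4 : 2 * (KQ / Q + d) - MQ / (w * Q ^ 2) * (h ^ 2 - d ^ 2) =
      (2 * (KQ + d * Q) * (w * Q) - MQ * (h ^ 2 - d ^ 2)) / (w * Q ^ 2) := by
    rw [e2]
    field_simp
  have e5 : (KQ / Q + d) - MQ / (w * Q ^ 2) * (KQ / Q * d + h ^ 2) =
      ((KQ + d * Q) * w * Q ^ 2 - MQ * (KQ * d + h ^ 2 * Q)) / (w * Q ^ 3) := by
    rw [e2]
    field_simp
  unfold vG
  rw [e4, e5, e1, e2, e3]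
  generalize KQ ^ 2 - h ^ 2 * Q ^ 2 = D'
  generalize 2 * (KQ + d * Q) * (w * Q) - MQ * (h ^ 2 - d ^ 2) = B'
  generalize (KQ + d * Q) * w * Q ^ 2 - MQ * (KQ * d + h ^ 2 * Q) = X'
  generalize KQ + d * Q = S'
  generalize KQ - d * Q = T'
  generalize h ^ 2 - d ^ 2 = N
  generalize 4 + (1 - al) * (kap - 1) = den'
  generalize 1 - al = a1 at h1 ⊢
  generalize 3 - 2 * al = a3 at h3 ⊢
  field_simp
  ring

/-! ### the integer program -/

/-- registers: 2 `100 Q`, 3 `10⁵ K Q`, 4 `10⁵ d Q`, 5 `10⁵ (K+d) Q`, 6 `10⁵ (K-d) Q`, 7 `100 h²`, 8 `10¹⁰ D Q²`,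
9 `100 N`, 10 `10⁶ m w Q²`, 11, 12, 13 `100 me E`; `w = x / 10`, `d = y / 10`, `p = 1/10` -/
def prF (b1 s1 u1 a1 e0 e1 : ℤ) : List Ex :=
  [.add (.c u1) (.pow (.v 0) 2),
   .add (.mul (.add (.c b1) (.mul (.c s1) (.v 0))) (.v 2)) (.c (100000 * a1)),
   .mul (.mul (.c 100) (.v 1)) (.v 2),
   .add (.v 3) (.v 4),
   .sub (.v 3) (.v 4),
   .sub (.pow (.v 0) 2) (.c 1),
   .sub (.pow (.v 3) 2) (.mul (.mul (.c 10000) (.v 7)) (.pow (.v 2) 2)),
   .sub (.v 7) (.pow (.v 1) 2),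
   .sub (.mul (.c s1) (.pow (.v 2) 2)) (.mul (.c (200000 * a1)) (.v 0)),
   .sub (.mul (.mul (.mul (.c 2) (.v 5)) (.v 0)) (.v 2)) (.mul (.v 10) (.v 9)),
   .sub (.mul (.mul (.mul (.c 100) (.v 5)) (.v 0)) (.pow (.v 2) 2))
     (.mul (.v 10) (.add (.mul (.v 3) (.v 1)) (.mul (.mul (.c 100) (.v 7)) (.v 2)))),
   .add (.c e0) (.mul (.c e1) (.v 7))]

def goF (c1 c2 c3 c4 c5 c6 : ℤ) : Ex :=
  .sub (.sub (.mul (.mul (.v 8) (.v 13)) (.sub (.sub (.add
      (.mul (.mul (.c c1) (.pow (.v 5) 4)) (.pow (.v 0) 2))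
      (.mul (.mul (.mul (.c c2) (.pow (.v 5) 2)) (.v 11)) (.v 0)))
      (.mul (.c c3) (.pow (.v 11) 2))) (.mul (.mul (.c c4) (.pow (.v 10) 2)) (.pow (.v 9) 2))))
    (.mul (.mul (.mul (.c c5) (.v 9)) (.v 13)) (.pow (.v 12) 2)))
    (.mul (.mul (.mul (.mul (.c c6) (.v 8)) (.pow (.v 6) 2)) (.pow (.v 5) 2)) (.pow (.v 0) 2))

def thF : Ex :=
  .sub (.mul (.sub (.c 300) (.v 7)) (.v 5))
    (.mul (.c 2) (.add (.mul (.mul (.c 10) (.v 3)) (.v 1)) (.mul (.mul (.c 1000) (.v 7)) (.v 2))))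

theorem VOk_of_box {B s A U al kap lam q L me : ℝ} {b1 s1 u1 a1 e0 e1 c1 c2 c3 c4 c5 c6 : ℤ} {t : Tr}
    (hk : KFok B s (1 / 10) A U) (al0 : 0 < al) (al1 : al < 1) (kap0 : 0 < kap) (lam0 : 0 ≤ lam)
    (q0 : 0 < q) (hL : 0 < L) (hme : 0 < me)
    (hb : (b1 : ℝ) = 1000 * B) (hs : (s1 : ℝ) = 100 * s) (hu : (u1 : ℝ) = 100 * U) (ha : (a1 : ℝ) = A)
    (he0 : (e0 : ℝ) = 100 * me * (kap * q)) (he1 : (e1 : ℝ) = me * (al * lam))
    (h1 : (c1 : ℝ) = L * (1 - al)) (h2 : (c2 : ℝ) = 4000 * L) (h3 : (c3 : ℝ) = L * (kap - 1) * 10 ^ 6)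
    (h4 : (c4 : ℝ) = L * ((4 + (1 - al) * (kap - 1)) / (1 - al)) * 10 ^ 6)
    (h5 : (c5 : ℝ) = L * ((4 + (1 - al) * (kap - 1)) * 4 / (3 - 2 * al)) * 10 ^ 6)
    (h6 : (c6 : ℝ) = L * (4 + (1 - al) * (kap - 1)) * 100 * me)
    (hchk : chk (prF b1 s1 u1 a1 e0 e1) (goF c1 c2 c3 c4 c5 c6) [.v 9, thF] t
      [⟨1, 31, 1⟩, ⟨-30, 30, 1⟩] = true) :
    VOk (kF B s (1 / 10) A U) al kap lam q where
  al0 := al0
  al1 := al1
  kap0 := kap0
  lam0 := lam0
  q0 := q0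
  ok := by
    intro h d hst
    have hkap := hk.kap
    have hU := hk.U0
    obtain ⟨w1, w2, w3⟩ := kF_w (p := (1 / 10 : ℝ)) (n := h ^ 2) (by positivity) (by norm_num)
    have hh3 := hst.h3 (hkap.gt h hst.h0)
    have hh0 := hst.h0
    have hd2 := hst.hd
    have hth := hst.th
    rw [(kF_deriv (B := B) (s := s) (A := A) (by norm_num : (0 : ℝ) < 1 / 10) hU (by positivity :
      (0 : ℝ) ≤ h ^ 2)).deriv]
    have hkF : kF B s (1 / 10) A U (h ^ 2) = B + s * √((1 / 10) ^ 2 + h ^ 2)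
        + A / (U + √((1 / 10) ^ 2 + h ^ 2) ^ 2) := by
      rw [w2]
      rfl
    rw [hkF] at hth ⊢
    set w := √((1 / 10) ^ 2 + h ^ 2) with hwd
    have hh2 : h ^ 2 = w ^ 2 - (1 / 10) ^ 2 := by linarith
    have hQ : 0 < U + w ^ 2 := by positivity
    have eK : B + s * w + A / (U + w ^ 2) = ((B + s * w) * (U + w ^ 2) + A) / (U + w ^ 2) := by
      field_simp
    have eM : 2 * ((s - 2 * A * w / (U + w ^ 2) ^ 2) / (2 * w)) =
        (s * (U + w ^ 2) ^ 2 - 2 * A * w) / (w * (U + w ^ 2) ^ 2) := by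
      field_simp
    rw [eM]
    rw [eK] at hth ⊢
    have hda := abs_le_of_sq_le_sq hd2 hh0
    rw [abs_le] at hda
    have hw31 : w ≤ 31 / 10 := by
      nlinarith
    -- the point in the box
    have hbox : InB [⟨1, 31, 1⟩, ⟨-30, 30, 1⟩] [10 * w, 10 * d] := by
      refine ⟨⟨?_, ?_⟩, ⟨?_, ?_⟩, trivial⟩ <;> push_cast <;> linarith
    set Q := U + w ^ 2 with hQd
    set KQ := (B + s * w) * Q + A with hKQ
    set MQ := s * Q ^ 2 - 2 * A * w with hMQ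
    have hrun : run [10 * w, 10 * d] (prF b1 s1 u1 a1 e0 e1) = [10 * w, 10 * d, 100 * Q, 10 ^ 5 * KQ,
        10 ^ 5 * (d * Q), 10 ^ 5 * (KQ + d * Q), 10 ^ 5 * (KQ - d * Q), 100 * h ^ 2,
        10 ^ 10 * (KQ ^ 2 - h ^ 2 * Q ^ 2), 100 * (h ^ 2 - d ^ 2), 10 ^ 6 * MQ,
        10 ^ 8 * (2 * (KQ + d * Q) * (w * Q) - MQ * (h ^ 2 - d ^ 2)),
        10 ^ 12 * ((KQ + d * Q) * w * Q ^ 2 - MQ * (KQ * d + h ^ 2 * Q)),
        100 * me * (kap * q + al * lam * h ^ 2)] := by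
      unfold prF
      have E2 : den ([10 * w, 10 * d] : List ℝ) (.add (.c u1) (.pow (.v 0) 2)) = 100 * Q := by
        simp only [den, List.getD_cons_zero, List.getD_cons_succ]
        push_cast
        rw [hu, hQd]
        ring
      have E3 : den ([10 * w, 10 * d, 100 * Q] : List ℝ) (.add (.mul (.add (.c b1) (.mul (.c s1) (.v 0))) (.v 2)) (.c (100000 * a1))) = 10 ^ 5 * KQ := by
        simp only [den, List.getD_cons_zero, List.getD_cons_succ]
        push_cast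
        rw [hb, hs, ha, hKQ]
        ring
      have E4 : den ([10 * w, 10 * d, 100 * Q, 10 ^ 5 * KQ] : List ℝ) (.mul (.mul (.c 100) (.v 1)) (.v 2)) = 10 ^ 5 * (d * Q) := by
        simp only [den, List.getD_cons_zero, List.getD_cons_succ]
        push_cast
        ring
      have E5 : den ([10 * w, 10 * d, 100 * Q, 10 ^ 5 * KQ, 10 ^ 5 * (d * Q)] : List ℝ) (.add (.v 3) (.v 4)) = 10 ^ 5 * (KQ + d * Q) := by
        simp only [den, List.getD_cons_zero, List.getD_cons_succ]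
        push_cast
        ring
      have E6 : den ([10 * w, 10 * d, 100 * Q, 10 ^ 5 * KQ, 10 ^ 5 * (d * Q), 10 ^ 5 * (KQ + d * Q)] : List ℝ) (.sub (.v 3) (.v 4)) = 10 ^ 5 * (KQ - d * Q) := by
        simp only [den, List.getD_cons_zero, List.getD_cons_succ]
        push_cast
        ring
      have E7 : den ([10 * w, 10 * d, 100 * Q, 10 ^ 5 * KQ, 10 ^ 5 * (d * Q), 10 ^ 5 * (KQ + d * Q), 10 ^ 5 * (KQ - d * Q)] : List ℝ) (.sub (.pow (.v 0) 2) (.c 1)) = 100 * h ^ 2 := by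
        simp only [den, List.getD_cons_zero, List.getD_cons_succ]
        push_cast
        rw [hh2]
        ring
      have E8 : den ([10 * w, 10 * d, 100 * Q, 10 ^ 5 * KQ, 10 ^ 5 * (d * Q), 10 ^ 5 * (KQ + d * Q), 10 ^ 5 * (KQ - d * Q), 100 * h ^ 2] : List ℝ) (.sub (.pow (.v 3) 2) (.mul (.mul (.c 10000) (.v 7)) (.pow (.v 2) 2))) = 10 ^ 10 * (KQ ^ 2 - h ^ 2 * Q ^ 2) := by
        simp only [den, List.getD_cons_zero, List.getD_cons_succ]
        push_cast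
        ring
      have E9 : den ([10 * w, 10 * d, 100 * Q, 10 ^ 5 * KQ, 10 ^ 5 * (d * Q), 10 ^ 5 * (KQ + d * Q), 10 ^ 5 * (KQ - d * Q), 100 * h ^ 2, 10 ^ 10 * (KQ ^ 2 - h ^ 2 * Q ^ 2)] : List ℝ) (.sub (.v 7) (.pow (.v 1) 2)) = 100 * (h ^ 2 - d ^ 2) := by
        simp only [den, List.getD_cons_zero, List.getD_cons_succ]
        push_cast
        ring
      have E10 : den ([10 * w, 10 * d, 100 * Q, 10 ^ 5 * KQ, 10 ^ 5 * (d * Q), 10 ^ 5 * (KQ + d * Q), 10 ^ 5 * (KQ - d * Q), 100 * h ^ 2, 10 ^ 10 * (KQ ^ 2 - h ^ 2 * Q ^ 2), 100 * (h ^ 2 - d ^ 2)] : List ℝ) (.sub (.mul (.c s1) (.pow (.v 2) 2)) (.mul (.c (200000 * a1)) (.v 0))) = 10 ^ 6 * MQ := by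
        simp only [den, List.getD_cons_zero, List.getD_cons_succ]
        push_cast
        rw [hs, ha, hMQ]
        ring
      have E11 : den ([10 * w, 10 * d, 100 * Q, 10 ^ 5 * KQ, 10 ^ 5 * (d * Q), 10 ^ 5 * (KQ + d * Q), 10 ^ 5 * (KQ - d * Q), 100 * h ^ 2, 10 ^ 10 * (KQ ^ 2 - h ^ 2 * Q ^ 2), 100 * (h ^ 2 - d ^ 2), 10 ^ 6 * MQ] : List ℝ) (.sub (.mul (.mul (.mul (.c 2) (.v 5)) (.v 0)) (.v 2)) (.mul (.v 10) (.v 9))) = 10 ^ 8 * (2 * (KQ + d * Q) * (w * Q) - MQ * (h ^ 2 - d ^ 2)) := by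
        simp only [den, List.getD_cons_zero, List.getD_cons_succ]
        push_cast
        ring
      have E12 : den ([10 * w, 10 * d, 100 * Q, 10 ^ 5 * KQ, 10 ^ 5 * (d * Q), 10 ^ 5 * (KQ + d * Q), 10 ^ 5 * (KQ - d * Q), 100 * h ^ 2, 10 ^ 10 * (KQ ^ 2 - h ^ 2 * Q ^ 2), 100 * (h ^ 2 - d ^ 2), 10 ^ 6 * MQ, 10 ^ 8 * (2 * (KQ + d * Q) * (w * Q) - MQ * (h ^ 2 - d ^ 2))] : List ℝ) (.sub (.mul (.mul (.mul (.c 100) (.v 5)) (.v 0)) (.pow (.v 2) 2))
     (.mul (.v 10) (.add (.mul (.v 3) (.v 1)) (.mul (.mul (.c 100) (.v 7)) (.v 2))))) = 10 ^ 12 * ((KQ + d * Q) * w * Q ^ 2 - MQ * (KQ * d + h ^ 2 * Q)) := by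
        simp only [den, List.getD_cons_zero, List.getD_cons_succ]
        push_cast
        ring
      have E13 : den ([10 * w, 10 * d, 100 * Q, 10 ^ 5 * KQ, 10 ^ 5 * (d * Q), 10 ^ 5 * (KQ + d * Q), 10 ^ 5 * (KQ - d * Q), 100 * h ^ 2, 10 ^ 10 * (KQ ^ 2 - h ^ 2 * Q ^ 2), 100 * (h ^ 2 - d ^ 2), 10 ^ 6 * MQ, 10 ^ 8 * (2 * (KQ + d * Q) * (w * Q) - MQ * (h ^ 2 - d ^ 2)), 10 ^ 12 * ((KQ + d * Q) * w * Q ^ 2 - MQ * (KQ * d + h ^ 2 * Q))] : List ℝ) (.add (.c e0) (.mul (.c e1) (.v 7))) = 100 * me * (kap * q + al * lam * h ^ 2) := by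
        simp only [den, List.getD_cons_zero, List.getD_cons_succ]
        push_cast
        rw [he0, he1]
        ring
      rw [run, E2]
      simp only [List.cons_append, List.nil_append]
      rw [run, E3]
      simp only [List.cons_append, List.nil_append]
      rw [run, E4]
      simp only [List.cons_append, List.nil_append]
      rw [run, E5]
      simp only [List.cons_append, List.nil_append]
      rw [run, E6]
      simp only [List.cons_append, List.nil_append]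
      rw [run, E7]
      simp only [List.cons_append, List.nil_append]
      rw [run, E8]
      simp only [List.cons_append, List.nil_append]
      rw [run, E9]
      simp only [List.cons_append, List.nil_append]
      rw [run, E10]
      simp only [List.cons_append, List.nil_append]
      rw [run, E11]
      simp only [List.cons_append, List.nil_append]
      rw [run, E12]
      simp only [List.cons_append, List.nil_append]
      rw [run, E13]
      simp only [List.cons_append, List.nil_append]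
      rfl
    have hgo : den (run [10 * w, 10 * d] (prF b1 s1 u1 a1 e0 e1)) (goF c1 c2 c3 c4 c5 c6) =
        L * 10 ^ 34 * me * (vG al kap (kap * q + al * lam * h ^ 2) (KQ / Q) (MQ / (w * Q ^ 2)) h d
          * (w ^ 2 * Q ^ 6)) := by
      rw [hrun, vG_clear w1.ne' hQ.ne' (by linarith) (by linarith)]
      unfold goF
      simp only [den, List.getD_cons_zero, List.getD_cons_succ]
      rw [h1, h2, h3, h4, h5, h6]
      generalize (4 + (1 - al) * (kap - 1)) / (1 - al) = f1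
      generalize (4 + (1 - al) * (kap - 1)) * 4 / (3 - 2 * al) = f2
      generalize 2 * (KQ + d * Q) * (w * Q) - MQ * (h ^ 2 - d ^ 2) = B'
      generalize (KQ + d * Q) * w * Q ^ 2 - MQ * (KQ * d + h ^ 2 * Q) = X'
      generalize KQ ^ 2 - h ^ 2 * Q ^ 2 = D'
      generalize KQ + d * Q = S'
      generalize KQ - d * Q = T'
      ring
    have hfin := box_nonneg _ _ _ t _ hchk [10 * w, 10 * d] hbox (by
      intro e he
      rcases List.mem_pair.1 he with he | he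
      · rw [he, hrun]
        simp only [den, List.getD_cons_zero, List.getD_cons_succ]
        linarith
      · rw [he, hrun]
        unfold thF
        simp only [den, List.getD_cons_zero, List.getD_cons_succ]
        push_cast
        have h7 := mul_nonneg hth hQ.le
        have h8 : ((3 - h ^ 2) * (KQ / Q + d) - 2 * (KQ / Q * d + h ^ 2)) * Q =
            (3 - h ^ 2) * (KQ + d * Q) - 2 * (KQ * d + h ^ 2 * Q) := by
          field_simp
        rw [h8] at h7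
        linarith)
    rw [hgo] at hfin
    have hp1 : 0 < L * 10 ^ 34 * me := by positivity
    have hp2 : 0 < w ^ 2 * Q ^ 6 := by positivity
    exact nonneg_of_mul_nonneg_left (nonneg_of_mul_nonneg_right hfin hp1) hp2

end Pool.Agent.FPX.VST
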