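import Mathlib
import Pool.Agent.FPX.VSX
import Pool.Agent.FPX.VCL

/-
VCM (helper5): the condition `VCl` for the family `kF` from the box test of BXE.
-/

noncomputable section

namespace Pool.Agent.FPX.VST

open Pool.Agent.EWD Pool.Agent.FPX Pool.Agent.FPX.BXE

/-- registers: 2 `100 Q`, 3 `10⁵ K Q`, 4 `10⁵ d Q`, 5 `10⁵ (K+d) Q`, 6 `10⁵ (K-d) Q`, 7 `100 h²`, 8 `10¹⁰ D Q²`,
9 `100 N`, 10 `10⁶ m w Q²`, 11 `10⁸ (2 w Q S - M N)`, 12, 13 `10¹¹ (2 w Q S + w S² - 2 M N)`;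
`w = x / 10`, `d = y / 10`, `p = 1/10` -/
def prC (b1 s1 u1 a1 : ℤ) : List Ex :=
  [.add (.c u1) (.pow (.v 0) 2),
   .add (.mul (.add (.c b1) (.mul (.c s1) (.v 0))) (.v 2)) (.c (100000 * a1)),
   .mul (.mul (.c 100) (.v 1)) (.v 2),
   .add (.v 3) (.v 4),
   .sub (.v 3) (.v 4),
   .sub (.pow (.v 0) 2) (.c 1),
   .sub (.pow (.v 3) 2) (.mul (.mul (.c 10000) (.v 7)) (.pow (.v 2) 2)),
   .sub (.v 7) (.pow (.v 1) 2),
   .sub (.mul (.c s1) (.pow (.v 2) 2)) (.mul (.c (200000 * a1)) (.v 0)),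
   .sub (.mul (.mul (.mul (.c 2) (.v 5)) (.v 0)) (.v 2)) (.mul (.v 10) (.v 9)),
   .sub (.mul (.mul (.mul (.c 100) (.v 5)) (.v 0)) (.pow (.v 2) 2))
     (.mul (.v 10) (.add (.mul (.v 3) (.v 1)) (.mul (.mul (.c 100) (.v 7)) (.v 2)))),
   .sub (.add (.mul (.c 1000) (.v 11)) (.mul (.v 0) (.pow (.v 5) 2)))
     (.mul (.c 1000) (.mul (.v 10) (.v 9)))]

def goG (bn bd : ℤ) : Ex := .sub (.mul (.c bn) (.v 13)) (.mul (.c bd) (.mul (.v 6) (.mul (.v 0) (.v 5))))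

def goS (an ad : ℤ) : Ex :=
  .sub (.mul (.v 8) (.sub (.mul (.c (an * an)) (.pow (.v 13) 2))
    (.mul (.c (1000000 * ad * ad)) (.add (.pow (.v 11) 2) (.pow (.mul (.v 10) (.v 9)) 2)))))
    (.mul (.c (2000000 * ad * ad)) (.mul (.v 9) (.pow (.v 12) 2)))

theorem run_prC {B s A U w d Q KQ MQ N h : ℝ} {b1 s1 u1 a1 : ℤ} (hb : (b1 : ℝ) = 1000 * B)
    (hs : (s1 : ℝ) = 100 * s) (hu : (u1 : ℝ) = 100 * U) (ha : (a1 : ℝ) = A) (hQ : Q = U + w ^ 2)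
    (hK : KQ = (B + s * w) * Q + A) (hM : MQ = s * Q ^ 2 - 2 * A * w) (hh : h ^ 2 = w ^ 2 - (1 / 10) ^ 2)
    (hN : N = h ^ 2 - d ^ 2) :
    run [10 * w, 10 * d] (prC b1 s1 u1 a1) = [10 * w, 10 * d, 100 * Q, 10 ^ 5 * KQ,
        10 ^ 5 * (d * Q), 10 ^ 5 * (KQ + d * Q), 10 ^ 5 * (KQ - d * Q), 100 * h ^ 2,
        10 ^ 10 * (KQ ^ 2 - h ^ 2 * Q ^ 2), 100 * N, 10 ^ 6 * MQ,
        10 ^ 8 * (2 * (KQ + d * Q) * (w * Q) - MQ * N),
        10 ^ 12 * ((KQ + d * Q) * w * Q ^ 2 - MQ * (KQ * d + h ^ 2 * Q)),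
        10 ^ 11 * (2 * (KQ + d * Q) * (w * Q) + w * (KQ + d * Q) ^ 2 - 2 * (MQ * N))] := by
  unfold prC
  simp only [run, den, List.getD_cons_zero, List.getD_cons_succ, List.cons_append, List.nil_append,
    List.cons.injEq, and_true, true_and]
  push_cast
  rw [hb, hs, hu, ha, hN, hh, hM, hK, hQ]
  refine ⟨?_, ?_, ?_, ?_, ?_, ?_, ?_, ?_, ?_, ?_, ?_, ?_⟩ <;> ring

/-- the four inequalities from inequalities for the numerators -/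
theorem vcl_num {KQ MQ w Q h d α β an ad bn bd : ℝ} (hw : 0 < w) (hQ : 0 < Q)
    (hS : 0 < KQ + d * Q) (hT : 0 < KQ - d * Q) (hD : 0 < KQ ^ 2 - h ^ 2 * Q ^ 2)
    (had : 0 < ad) (hbd : 0 < bd) (hα : α = an / ad) (hβ : β = bn / bd) (hβ0 : 0 < β)
    (f1 : 0 ≤ 2 * (KQ + d * Q) * (w * Q) - MQ * (h ^ 2 - d ^ 2))
    (f2 : 0 ≤ bn * (2 * (KQ + d * Q) * (w * Q) + w * (KQ + d * Q) ^ 2 - 2 * (MQ * (h ^ 2 - d ^ 2)))
      - bd * ((KQ - d * Q) * (w * (KQ + d * Q))))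
    (f3 : 0 ≤ (KQ ^ 2 - h ^ 2 * Q ^ 2) * (an ^ 2 * (2 * (KQ + d * Q) * (w * Q) + w * (KQ + d * Q) ^ 2
        - 2 * (MQ * (h ^ 2 - d ^ 2))) ^ 2 - ad ^ 2 * ((2 * (KQ + d * Q) * (w * Q)
        - MQ * (h ^ 2 - d ^ 2)) ^ 2 + (MQ * (h ^ 2 - d ^ 2)) ^ 2))
      - 2 * ad ^ 2 * ((h ^ 2 - d ^ 2) * ((KQ + d * Q) * w * Q ^ 2 - MQ * (KQ * d + h ^ 2 * Q)) ^ 2)) :
    va2 (KQ / Q) (MQ / (w * Q ^ 2)) h d ≤ 1 ∧
      0 < 1 + (KQ / Q + d) / 2 - 2 * va2 (KQ / Q) (MQ / (w * Q ^ 2)) h d ∧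
      (1 - va2 (KQ / Q) (MQ / (w * Q ^ 2)) h d) ^ 2 + va2 (KQ / Q) (MQ / (w * Q ^ 2)) h d ^ 2
        + va3 (KQ / Q) (MQ / (w * Q ^ 2)) h d / 2 ≤
        (α * (1 + (KQ / Q + d) / 2 - 2 * va2 (KQ / Q) (MQ / (w * Q ^ 2)) h d)) ^ 2 ∧
      (KQ / Q - d) / 2 ≤ β * (1 + (KQ / Q + d) / 2 - 2 * va2 (KQ / Q) (MQ / (w * Q ^ 2)) h d) := by
  have es : KQ / Q + d = (KQ + d * Q) / Q := by
    field_simp
  have et : KQ / Q - d = (KQ - d * Q) / Q := by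
    field_simp
  have e1 : (KQ / Q) ^ 2 - h ^ 2 = (KQ ^ 2 - h ^ 2 * Q ^ 2) / Q ^ 2 := by
    field_simp
  have e5 : (KQ + d * Q) / Q - MQ / (w * Q ^ 2) * (KQ / Q * d + h ^ 2) =
      ((KQ + d * Q) * w * Q ^ 2 - MQ * (KQ * d + h ^ 2 * Q)) / (w * Q ^ 3) := by
    field_simp
  have g2 : va2 (KQ / Q) (MQ / (w * Q ^ 2)) h d =
      MQ * (h ^ 2 - d ^ 2) / (2 * w * Q * (KQ + d * Q)) := by
    unfold va2
    rw [es]
    generalize h ^ 2 - d ^ 2 = N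
    generalize KQ + d * Q = S at hS ⊢
    field_simp
  have g3 : va3 (KQ / Q) (MQ / (w * Q ^ 2)) h d =
      (h ^ 2 - d ^ 2) * ((KQ + d * Q) * w * Q ^ 2 - MQ * (KQ * d + h ^ 2 * Q)) ^ 2 /
        (w ^ 2 * Q ^ 2 * (KQ ^ 2 - h ^ 2 * Q ^ 2) * (KQ + d * Q) ^ 2) := by
    unfold va3
    rw [es, e1, e5]
    generalize h ^ 2 - d ^ 2 = N
    generalize KQ ^ 2 - h ^ 2 * Q ^ 2 = D at hD ⊢
    generalize (KQ + d * Q) * w * Q ^ 2 - MQ * (KQ * d + h ^ 2 * Q) = X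
    generalize KQ + d * Q = S at hS ⊢
    field_simp
  rw [g2, g3, es, et]
  generalize (KQ + d * Q) * w * Q ^ 2 - MQ * (KQ * d + h ^ 2 * Q) = X at f3 ⊢
  generalize KQ ^ 2 - h ^ 2 * Q ^ 2 = D at hD f3 ⊢
  generalize MQ * (h ^ 2 - d ^ 2) = Y at f1 f2 f3 ⊢
  generalize h ^ 2 - d ^ 2 = N at f3 ⊢
  generalize KQ + d * Q = S at hS f1 f2 f3 ⊢
  generalize KQ - d * Q = T at hT f2 ⊢
  have hden : 0 < 2 * w * Q * S := by positivity
  have g4 : 1 + S / Q / 2 - 2 * (Y / (2 * w * Q * S)) =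
      (2 * S * (w * Q) + w * S ^ 2 - 2 * Y) / (2 * w * Q * S) := by
    field_simp
  have g5 : T / Q / 2 = T * (w * S) / (2 * w * Q * S) := by
    field_simp
  have e6 : (1 - Y / (2 * w * Q * S)) ^ 2 + (Y / (2 * w * Q * S)) ^ 2
      + N * X ^ 2 / (w ^ 2 * Q ^ 2 * D * S ^ 2) / 2 =
      (D * ((2 * S * (w * Q) - Y) ^ 2 + Y ^ 2) + 2 * (N * X ^ 2)) / (D * (2 * w * Q * S) ^ 2) := by
    field_simp
  rw [g4, g5, e6]
  generalize 2 * S * (w * Q) + w * S ^ 2 - 2 * Y = Cc at f2 f3 ⊢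
  have hG : T * (w * S) ≤ β * Cc := by
    rw [hβ, div_mul_eq_mul_div, le_div_iff₀ hbd]
    linarith
  have hC0 : 0 < Cc := by
    have h1 : 0 < β * Cc := lt_of_lt_of_le (by positivity) hG
    exact (mul_pos_iff_of_pos_left hβ0).1 h1
  refine ⟨?_, ?_, ?_, ?_⟩
  · rw [div_le_one hden]
    linarith
  · positivity
  · have e2 : (α * (Cc / (2 * w * Q * S))) ^ 2 = D * (an ^ 2 * Cc ^ 2) / ad ^ 2 / (D * (2 * w * Q * S) ^ 2) := by
      rw [hα]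
      field_simp
    rw [e2]
    refine div_le_div_of_nonneg_right ?_ (by positivity)
    rw [le_div_iff₀ (by positivity)]
    linarith
  · rw [← mul_div_assoc]
    exact div_le_div_of_nonneg_right hG hden.le

/-- **the condition `VCl` from three box tests** (`α = an / ad`, `β = bn / bd`) -/
theorem VCl_of_box {B s A U α β : ℝ} {b1 s1 u1 a1 an ad bn bd : ℤ} {t1 t2 t3 : Tr}
    (hk : KFok B s (1 / 10) A U) (hb : (b1 : ℝ) = 1000 * B) (hs : (s1 : ℝ) = 100 * s)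
    (hu : (u1 : ℝ) = 100 * U) (ha : (a1 : ℝ) = A) (had : (0 : ℝ) < ad) (hbd : (0 : ℝ) < bd)
    (hα : α = an / ad) (hβ : β = bn / bd) (hβ0 : 0 < β)
    (k1 : chk (prC b1 s1 u1 a1) (.v 11) [.v 9, thF] t1 [⟨1, 31, 1⟩, ⟨-30, 30, 1⟩] = true)
    (k2 : chk (prC b1 s1 u1 a1) (goG bn bd) [.v 9, thF] t2 [⟨1, 31, 1⟩, ⟨-30, 30, 1⟩] = true)
    (k3 : chk (prC b1 s1 u1 a1) (goS an ad) [.v 9, thF] t3 [⟨1, 31, 1⟩, ⟨-30, 30, 1⟩] = true) :
    VCl (kF B s (1 / 10) A U) α β := by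
  have hkap := hk.kap
  have hU := hk.U0
  -- the four inequalities at one state
  have main : ∀ h d : ℝ, 0 ≤ h → |d| ≤ h →
      h ^ 2 + 1 + 2 * (kF B s (1 / 10) A U (h ^ 2) * d + h ^ 2) / (kF B s (1 / 10) A U (h ^ 2) + d) ≤ 4 →
      va2 (kF B s (1 / 10) A U (h ^ 2)) (2 * deriv (kF B s (1 / 10) A U) (h ^ 2)) h d ≤ 1 ∧
      0 < 1 + (kF B s (1 / 10) A U (h ^ 2) + d) / 2
        - 2 * va2 (kF B s (1 / 10) A U (h ^ 2)) (2 * deriv (kF B s (1 / 10) A U) (h ^ 2)) h d ∧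
      (1 - va2 (kF B s (1 / 10) A U (h ^ 2)) (2 * deriv (kF B s (1 / 10) A U) (h ^ 2)) h d) ^ 2
        + va2 (kF B s (1 / 10) A U (h ^ 2)) (2 * deriv (kF B s (1 / 10) A U) (h ^ 2)) h d ^ 2
        + va3 (kF B s (1 / 10) A U (h ^ 2)) (2 * deriv (kF B s (1 / 10) A U) (h ^ 2)) h d / 2 ≤
        (α * (1 + (kF B s (1 / 10) A U (h ^ 2) + d) / 2
          - 2 * va2 (kF B s (1 / 10) A U (h ^ 2)) (2 * deriv (kF B s (1 / 10) A U) (h ^ 2)) h d)) ^ 2 ∧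
      (kF B s (1 / 10) A U (h ^ 2) - d) / 2 ≤
        β * (1 + (kF B s (1 / 10) A U (h ^ 2) + d) / 2
          - 2 * va2 (kF B s (1 / 10) A U (h ^ 2)) (2 * deriv (kF B s (1 / 10) A U) (h ^ 2)) h d) := by
    intro h d hh0 hda hth0
    have hgt := hkap.gt h hh0
    have hd2 : d ^ 2 ≤ h ^ 2 := by
      rw [← sq_abs d]
      exact pow_le_pow_left₀ (abs_nonneg d) hda 2
    rw [abs_le] at hda
    have hpos : 0 < kF B s (1 / 10) A U (h ^ 2) + d := by linarith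
    have hpos' : 0 < kF B s (1 / 10) A U (h ^ 2) - d := by linarith
    have hth : 0 ≤ (3 - h ^ 2) * (kF B s (1 / 10) A U (h ^ 2) + d)
        - 2 * (kF B s (1 / 10) A U (h ^ 2) * d + h ^ 2) := by
      have e : 2 * (kF B s (1 / 10) A U (h ^ 2) * d + h ^ 2) / (kF B s (1 / 10) A U (h ^ 2) + d)
          ≤ 3 - h ^ 2 := by linarith
      rw [div_le_iff₀ hpos] at e
      linarith
    have hst : VSt (kF B s (1 / 10) A U) h d := ⟨hh0, hd2, hpos, hpos', hth⟩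
    have hh3 := hst.h3 hgt
    obtain ⟨w1, w2, w3⟩ := kF_w (p := (1 / 10 : ℝ)) (n := h ^ 2) (by positivity) (by norm_num)
    rw [(kF_deriv (B := B) (s := s) (A := A) (by norm_num : (0 : ℝ) < 1 / 10) hU (by positivity :
      (0 : ℝ) ≤ h ^ 2)).deriv]
    have hkF : kF B s (1 / 10) A U (h ^ 2) = B + s * √((1 / 10) ^ 2 + h ^ 2)
        + A / (U + √((1 / 10) ^ 2 + h ^ 2) ^ 2) := by
      rw [w2]
      rfl
    rw [hkF] at hth hpos hpos' hgt ⊢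
    set w := √((1 / 10) ^ 2 + h ^ 2) with hwd
    have hh2 : h ^ 2 = w ^ 2 - (1 / 10) ^ 2 := by linarith
    have hQ : 0 < U + w ^ 2 := by positivity
    have eK : B + s * w + A / (U + w ^ 2) = ((B + s * w) * (U + w ^ 2) + A) / (U + w ^ 2) := by
      field_simp
    have eM : 2 * ((s - 2 * A * w / (U + w ^ 2) ^ 2) / (2 * w)) =
        (s * (U + w ^ 2) ^ 2 - 2 * A * w) / (w * (U + w ^ 2) ^ 2) := by
      field_simp
    rw [eM]
    rw [eK] at hth hpos hpos' hgt ⊢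
    have hw31 : w ≤ 31 / 10 := by
      nlinarith
    have hbox : InB [⟨1, 31, 1⟩, ⟨-30, 30, 1⟩] [10 * w, 10 * d] := by
      refine ⟨⟨?_, ?_⟩, ⟨?_, ?_⟩, trivial⟩ <;> push_cast <;> linarith
    set Q := U + w ^ 2 with hQd
    set KQ := (B + s * w) * Q + A with hKQ
    set MQ := s * Q ^ 2 - 2 * A * w with hMQ
    set N := h ^ 2 - d ^ 2 with hN
    have hN0 : 0 ≤ N := by linarith
    clear_value N MQ KQ Q w
    have hrun := run_prC (B := B) (s := s) (A := A) (U := U) (d := d) hb hs hu ha hQd hKQ hMQ hh2 hN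
    have hside : ∀ e ∈ ([.v 9, thF] : List Ex), 0 ≤ den (run [10 * w, 10 * d] (prC b1 s1 u1 a1)) e := by
      intro e he
      rcases List.mem_pair.1 he with he | he
      · rw [he, hrun]
        simp only [den, List.getD_cons_zero, List.getD_cons_succ]
        linarith
      · rw [he, hrun]
        unfold thF
        simp only [den, List.getD_cons_zero, List.getD_cons_succ]
        push_cast
        have h7 := mul_nonneg hth hQ.le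
        have h8 : ((3 - h ^ 2) * (KQ / Q + d) - 2 * (KQ / Q * d + h ^ 2)) * Q =
            (3 - h ^ 2) * (KQ + d * Q) - 2 * (KQ * d + h ^ 2 * Q) := by
          field_simp
        rw [h8] at h7
        linarith
    have f1 := box_nonneg _ _ _ t1 _ k1 [10 * w, 10 * d] hbox hside
    have f2 := box_nonneg _ _ _ t2 _ k2 [10 * w, 10 * d] hbox hside
    have f3 := box_nonneg _ _ _ t3 _ k3 [10 * w, 10 * d] hbox hside
    rw [hrun] at f1 f2 f3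
    unfold goG at f2
    unfold goS at f3
    simp only [den, List.getD_cons_zero, List.getD_cons_succ] at f1 f2 f3
    push_cast at f1 f2 f3
    have eS : (KQ / Q + d) * Q = KQ + d * Q := by
      field_simp
    have eT : (KQ / Q - d) * Q = KQ - d * Q := by
      field_simp
    have eD : ((KQ / Q) ^ 2 - h ^ 2) * Q ^ 2 = KQ ^ 2 - h ^ 2 * Q ^ 2 := by
      field_simp
    have hD1 : 0 < (KQ / Q) ^ 2 - h ^ 2 := sub_pos.2 (pow_lt_pow_left₀ hgt hh0 two_ne_zero)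
    rw [hN] at f1 f2 f3
    refine vcl_num (an := an) (ad := ad) (bn := bn) (bd := bd) w1 hQ (eS ▸ mul_pos hpos hQ)
      (eT ▸ mul_pos hpos' hQ) (eD ▸ mul_pos hD1 (pow_pos hQ 2)) had hbd hα hβ hβ0 ?_ ?_ ?_
    · linarith
    · have : 0 ≤ 10 ^ 11 * (bn * (2 * (KQ + d * Q) * (w * Q) + w * (KQ + d * Q) ^ 2
          - 2 * (MQ * (h ^ 2 - d ^ 2))) - bd * ((KQ - d * Q) * (w * (KQ + d * Q)))) := by
        refine le_of_le_of_eq f2 ?_
        ring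
      linarith
    · refine nonneg_of_mul_nonneg_right (le_of_le_of_eq f3 ?_) (by norm_num : (0 : ℝ) < 10 ^ 32)
      generalize (KQ + d * Q) * w * Q ^ 2 - MQ * (KQ * d + h ^ 2 * Q) = X
      generalize KQ ^ 2 - h ^ 2 * Q ^ 2 = D
      generalize h ^ 2 - d ^ 2 = N
      generalize KQ + d * Q = S
      ring
  exact ⟨fun h d a b c => (main h d a b c).1, fun h d a b c => (main h d a b c).2.1,
    fun h d a b c => (main h d a b c).2.2.1, fun h d a b c => (main h d a b c).2.2.2⟩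

end Pool.Agent.FPX.VST
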