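import Pool.Agent.FPX.VCM
import Pool.Agent.FPX.VSC525
import Pool.Agent.FPX.VSC550
import Pool.Agent.FPX.VSC575
import Pool.Agent.FPX.VSC600
import Pool.Agent.FPX.VSC625
import Pool.Agent.FPX.VSC650

/-
VCN (helper5): the condition `VCl` (class constant of the V stage) for the numerical instances VSCxxx.
-/

set_option maxRecDepth 1000000

namespace Pool.Agent.FPX.VST

open Pool.Agent.FPX.BXE

def VSC525_t1 : Tr := .s 1 (.o) (.o)
def VSC525_t2 : Tr := .s 1 (.s 1 (.s 1 (.l 1 0 [0, 3706553]) (.o)) (.o)) (.o)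
def VSC525_t3 : Tr := .s 1 (.s 1 (.s 1 (.s 1 (.l 1 0 [0, 2192022283471563698298341175045652480]) (.o)) (.o)) (.o)) (.o)

theorem VSC525_c1 : chk (prC (-4980) 146 2225 149) (.v 11) [.v 9, thF] VSC525_t1
    [⟨1, 31, 1⟩, ⟨-30, 30, 1⟩] = true := by decide +kernel
theorem VSC525_c2 : chk (prC (-4980) 146 2225 149) (goG 58 25) [.v 9, thF] VSC525_t2
    [⟨1, 31, 1⟩, ⟨-30, 30, 1⟩] = true := by decide +kernel
theorem VSC525_c3 : chk (prC (-4980) 146 2225 149) (goS 33 50) [.v 9, thF] VSC525_t3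
    [⟨1, 31, 1⟩, ⟨-30, 30, 1⟩] = true := by decide +kernel

theorem VSC525_cl : VCl (kF (-249 / 50) (73 / 50) (1 / 10) 149 (89 / 4)) (33 / 50) (58 / 25) :=
  VCl_of_box (b1 := (-4980)) (s1 := 146) (u1 := 2225) (a1 := 149) (an := 33) (ad := 50) (bn := 58) (bd := 25)
    VSC525_kf (by norm_num) (by norm_num) (by norm_num) (by norm_num) (by norm_num) (by norm_num)
    (by norm_num) (by norm_num) (by norm_num) VSC525_c1 VSC525_c2 VSC525_c3

def VSC550_t1 : Tr := .s 1 (.o) (.o)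
def VSC550_t2 : Tr := .s 1 (.s 1 (.s 1 (.l 1 0 [0, 4174495]) (.o)) (.o)) (.o)
def VSC550_t3 : Tr := .s 1 (.s 1 (.s 1 (.s 1 (.l 1 0 [0, 3756250759117740857287709156884611072]) (.l 1 0 [0, 1533664525039473867437890832804347904])) (.o)) (.o)) (.o)

theorem VSC550_c1 : chk (prC (-4980) 146 2275 151) (.v 11) [.v 9, thF] VSC550_t1
    [⟨1, 31, 1⟩, ⟨-30, 30, 1⟩] = true := by decide +kernel
theorem VSC550_c2 : chk (prC (-4980) 146 2275 151) (goG 58 25) [.v 9, thF] VSC550_t2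
    [⟨1, 31, 1⟩, ⟨-30, 30, 1⟩] = true := by decide +kernel
theorem VSC550_c3 : chk (prC (-4980) 146 2275 151) (goS 33 50) [.v 9, thF] VSC550_t3
    [⟨1, 31, 1⟩, ⟨-30, 30, 1⟩] = true := by decide +kernel

theorem VSC550_cl : VCl (kF (-249 / 50) (73 / 50) (1 / 10) 151 (91 / 4)) (33 / 50) (58 / 25) :=
  VCl_of_box (b1 := (-4980)) (s1 := 146) (u1 := 2275) (a1 := 151) (an := 33) (ad := 50) (bn := 58) (bd := 25)
    VSC550_kf (by norm_num) (by norm_num) (by norm_num) (by norm_num) (by norm_num) (by norm_num)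
    (by norm_num) (by norm_num) (by norm_num) VSC550_c1 VSC550_c2 VSC550_c3

def VSC575_t1 : Tr := .s 1 (.o) (.o)
def VSC575_t2 : Tr := .s 1 (.s 1 (.s 1 (.s 1 (.l 1 0 [0, 5436124]) (.l 1 0 [0, 2311764])) (.o)) (.o)) (.o)
def VSC575_t3 : Tr := .s 1 (.s 1 (.s 1 (.s 0 (.o) (.s 0 (.o) (.s 0 (.o) (.l 1 0 [0, 11159149403496481138621844031335825408])))) (.o)) (.s 1 (.o) (.o))) (.o)

theorem VSC575_c1 : chk (prC (-4890) 145 2350 151) (.v 11) [.v 9, thF] VSC575_t1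
    [⟨1, 31, 1⟩, ⟨-30, 30, 1⟩] = true := by decide +kernel
theorem VSC575_c2 : chk (prC (-4890) 145 2350 151) (goG 58 25) [.v 9, thF] VSC575_t2
    [⟨1, 31, 1⟩, ⟨-30, 30, 1⟩] = true := by decide +kernel
theorem VSC575_c3 : chk (prC (-4890) 145 2350 151) (goS 33 50) [.v 9, thF] VSC575_t3
    [⟨1, 31, 1⟩, ⟨-30, 30, 1⟩] = true := by decide +kernel

theorem VSC575_cl : VCl (kF (-489 / 100) (29 / 20) (1 / 10) 151 (47 / 2)) (33 / 50) (58 / 25) :=
  VCl_of_box (b1 := (-4890)) (s1 := 145) (u1 := 2350) (a1 := 151) (an := 33) (ad := 50) (bn := 58) (bd := 25)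
    VSC575_kf (by norm_num) (by norm_num) (by norm_num) (by norm_num) (by norm_num) (by norm_num)
    (by norm_num) (by norm_num) (by norm_num) VSC575_c1 VSC575_c2 VSC575_c3

def VSC600_t1 : Tr := .s 1 (.o) (.o)
def VSC600_t2 : Tr := .s 1 (.s 1 (.s 1 (.s 0 (.o) (.s 1 (.l 1 0 [0, 5670648]) (.l 1 0 [0, 2728402]))) (.o)) (.o)) (.o)
def VSC600_t3 : Tr := .s 1 (.s 1 (.s 1 (.s 0 (.o) (.s 0 (.o) (.s 0 (.o) (.l 1 0 [0, 10994692774718497342508981048710266880])))) (.o)) (.s 1 (.o) (.o))) (.o)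

theorem VSC600_c1 : chk (prC (-4850) 146 2300 146) (.v 11) [.v 9, thF] VSC600_t1
    [⟨1, 31, 1⟩, ⟨-30, 30, 1⟩] = true := by decide +kernel
theorem VSC600_c2 : chk (prC (-4850) 146 2300 146) (goG 58 25) [.v 9, thF] VSC600_t2
    [⟨1, 31, 1⟩, ⟨-30, 30, 1⟩] = true := by decide +kernel
theorem VSC600_c3 : chk (prC (-4850) 146 2300 146) (goS 33 50) [.v 9, thF] VSC600_t3
    [⟨1, 31, 1⟩, ⟨-30, 30, 1⟩] = true := by decide +kernel

theorem VSC600_cl : VCl (kF (-97 / 20) (73 / 50) (1 / 10) 146 23) (33 / 50) (58 / 25) :=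
  VCl_of_box (b1 := (-4850)) (s1 := 146) (u1 := 2300) (a1 := 146) (an := 33) (ad := 50) (bn := 58) (bd := 25)
    VSC600_kf (by norm_num) (by norm_num) (by norm_num) (by norm_num) (by norm_num) (by norm_num)
    (by norm_num) (by norm_num) (by norm_num) VSC600_c1 VSC600_c2 VSC600_c3

def VSC625_t1 : Tr := .s 1 (.o) (.o)
def VSC625_t2 : Tr := .s 1 (.s 1 (.s 1 (.s 0 (.o) (.s 1 (.s 0 (.o) (.l 1 0 [0, 6190389])) (.l 1 0 [0, 3227686]))) (.o)) (.o)) (.o)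
def VSC625_t3 : Tr := .s 1 (.s 1 (.s 1 (.s 0 (.o) (.s 0 (.o) (.s 0 (.l 1 0 [0, 4347361761050145349437379576646860800]) (.s 0 (.l 1 0 [0, 9338376851961917368248853181090496512]) (.l 1 0 [0, 15180767936392853873791262094868348928]))))) (.o)) (.s 1 (.o) (.o))) (.o)

theorem VSC625_c1 : chk (prC (-4990) 146 2375 153) (.v 11) [.v 9, thF] VSC625_t1
    [⟨1, 31, 1⟩, ⟨-30, 30, 1⟩] = true := by decide +kernel
theorem VSC625_c2 : chk (prC (-4990) 146 2375 153) (goG 58 25) [.v 9, thF] VSC625_t2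
    [⟨1, 31, 1⟩, ⟨-30, 30, 1⟩] = true := by decide +kernel
theorem VSC625_c3 : chk (prC (-4990) 146 2375 153) (goS 33 50) [.v 9, thF] VSC625_t3
    [⟨1, 31, 1⟩, ⟨-30, 30, 1⟩] = true := by decide +kernel

theorem VSC625_cl : VCl (kF (-499 / 100) (73 / 50) (1 / 10) 153 (95 / 4)) (33 / 50) (58 / 25) :=
  VCl_of_box (b1 := (-4990)) (s1 := 146) (u1 := 2375) (a1 := 153) (an := 33) (ad := 50) (bn := 58) (bd := 25)
    VSC625_kf (by norm_num) (by norm_num) (by norm_num) (by norm_num) (by norm_num) (by norm_num)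
    (by norm_num) (by norm_num) (by norm_num) VSC625_c1 VSC625_c2 VSC625_c3

def VSC650_t1 : Tr := .s 1 (.o) (.o)
def VSC650_t2 : Tr := .s 1 (.s 1 (.s 1 (.s 0 (.o) (.s 1 (.s 0 (.o) (.l 1 0 [0, 6708098])) (.l 1 0 [0, 3776571]))) (.o)) (.o)) (.o)
def VSC650_t3 : Tr := .s 1 (.s 1 (.s 1 (.s 0 (.o) (.s 0 (.o) (.s 0 (.s 0 (.o) (.l 1 0 [0, 6096199387097935906893235743176523776])) (.s 0 (.s 1 (.l 1 0 [0, 11898029593552642575206260121765150720]) (.l 0 1 [0, 1])) (.l 1 0 [0, 18110633624728913559591767238022004736]))))) (.l 1 0 [0, 1334569645768251605649576421631197184])) (.s 1 (.o) (.o))) (.o)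

theorem VSC650_c1 : chk (prC (-4950) 145 2475 157) (.v 11) [.v 9, thF] VSC650_t1
    [⟨1, 31, 1⟩, ⟨-30, 30, 1⟩] = true := by decide +kernel
theorem VSC650_c2 : chk (prC (-4950) 145 2475 157) (goG 58 25) [.v 9, thF] VSC650_t2
    [⟨1, 31, 1⟩, ⟨-30, 30, 1⟩] = true := by decide +kernel
theorem VSC650_c3 : chk (prC (-4950) 145 2475 157) (goS 33 50) [.v 9, thF] VSC650_t3
    [⟨1, 31, 1⟩, ⟨-30, 30, 1⟩] = true := by decide +kernel

theorem VSC650_cl : VCl (kF (-99 / 20) (29 / 20) (1 / 10) 157 (99 / 4)) (33 / 50) (58 / 25) :=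
  VCl_of_box (b1 := (-4950)) (s1 := 145) (u1 := 2475) (a1 := 157) (an := 33) (ad := 50) (bn := 58) (bd := 25)
    VSC650_kf (by norm_num) (by norm_num) (by norm_num) (by norm_num) (by norm_num) (by norm_num)
    (by norm_num) (by norm_num) (by norm_num) VSC650_c1 VSC650_c2 VSC650_c3

end Pool.Agent.FPX.VST
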