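import Mathlib
import Pool.Agent.FPX.VLH
import Pool.Agent.FPX.VLC525
import Pool.Agent.FPX.VLC550
import Pool.Agent.FPX.VLC565
import Pool.Agent.FPX.VLC575
import Pool.Agent.FPX.VLC600
import Pool.Agent.FPX.VLC625

/-
VLM (helper30): the lines of the instances `VLCxxx` are the chords `lbLn` of the law LB.
-/

noncomputable section

namespace Pool.Agent.FPX.VST

open Pool.Agent.FPX Pool.Agent.FPX.ASX Pool.Agent.FPX.VTB

theorem VLC525_ne : VLC525_L ≠ [] := by
  unfold VLC525_L
  exact List.cons_ne_nil _ _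

theorem VLC525_m : ∀ s ∈ lbLn, ∃ p ∈ VLC525_L, p.1 = (s.2.1 : ℝ) ∧ p.2.1 = (s.2.2 : ℝ) := by
  intro s hs
  unfold lbLn at hs
  simp only [List.mem_cons, List.not_mem_nil, or_false] at hs
  unfold VLC525_L
  rcases hs with rfl | rfl | rfl | rfl | rfl | rfl | rfl | rfl | rfl | rfl | rfl
  · exact ⟨_, List.mem_cons_self, by norm_num, by norm_num⟩
  · exact ⟨_, (List.mem_cons_of_mem _ List.mem_cons_self), by norm_num, by norm_num⟩
  · exact ⟨_, (List.mem_cons_of_mem _ (List.mem_cons_of_mem _ List.mem_cons_self)), by norm_num, by norm_num⟩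
  · exact ⟨_, (List.mem_cons_of_mem _ (List.mem_cons_of_mem _ (List.mem_cons_of_mem _ List.mem_cons_self))), by norm_num, by norm_num⟩
  · exact ⟨_, (List.mem_cons_of_mem _ (List.mem_cons_of_mem _ (List.mem_cons_of_mem _ (List.mem_cons_of_mem _ List.mem_cons_self)))), by norm_num, by norm_num⟩
  · exact ⟨_, (List.mem_cons_of_mem _ (List.mem_cons_of_mem _ (List.mem_cons_of_mem _ (List.mem_cons_of_mem _ (List.mem_cons_of_mem _ List.mem_cons_self))))), by norm_num, by norm_num⟩
  · exact ⟨_, (List.mem_cons_of_mem _ (List.mem_cons_of_mem _ (List.mem_cons_of_mem _ (List.mem_cons_of_mem _ (List.mem_cons_of_mem _ (List.mem_cons_of_mem _ List.mem_cons_self)))))), by norm_num, by norm_num⟩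
  · exact ⟨_, (List.mem_cons_of_mem _ (List.mem_cons_of_mem _ (List.mem_cons_of_mem _ (List.mem_cons_of_mem _ (List.mem_cons_of_mem _ (List.mem_cons_of_mem _ (List.mem_cons_of_mem _ List.mem_cons_self))))))), by norm_num, by norm_num⟩
  · exact ⟨_, (List.mem_cons_of_mem _ (List.mem_cons_of_mem _ (List.mem_cons_of_mem _ (List.mem_cons_of_mem _ (List.mem_cons_of_mem _ (List.mem_cons_of_mem _ (List.mem_cons_of_mem _ (List.mem_cons_of_mem _ List.mem_cons_self)))))))), by norm_num, by norm_num⟩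
  · exact ⟨_, (List.mem_cons_of_mem _ (List.mem_cons_of_mem _ (List.mem_cons_of_mem _ (List.mem_cons_of_mem _ (List.mem_cons_of_mem _ (List.mem_cons_of_mem _ (List.mem_cons_of_mem _ (List.mem_cons_of_mem _ (List.mem_cons_of_mem _ List.mem_cons_self))))))))), by norm_num, by norm_num⟩
  · exact ⟨_, (List.mem_cons_of_mem _ (List.mem_cons_of_mem _ (List.mem_cons_of_mem _ (List.mem_cons_of_mem _ (List.mem_cons_of_mem _ (List.mem_cons_of_mem _ (List.mem_cons_of_mem _ (List.mem_cons_of_mem _ (List.mem_cons_of_mem _ (List.mem_cons_of_mem _ List.mem_cons_self)))))))))), by norm_num, by norm_num⟩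

theorem VLC550_ne : VLC550_L ≠ [] := by
  unfold VLC550_L
  exact List.cons_ne_nil _ _

theorem VLC550_m : ∀ s ∈ lbLn, ∃ p ∈ VLC550_L, p.1 = (s.2.1 : ℝ) ∧ p.2.1 = (s.2.2 : ℝ) := by
  intro s hs
  unfold lbLn at hs
  simp only [List.mem_cons, List.not_mem_nil, or_false] at hs
  unfold VLC550_L
  rcases hs with rfl | rfl | rfl | rfl | rfl | rfl | rfl | rfl | rfl | rfl | rfl
  · exact ⟨_, List.mem_cons_self, by norm_num, by norm_num⟩
  · exact ⟨_, (List.mem_cons_of_mem _ List.mem_cons_self), by norm_num, by norm_num⟩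
  · exact ⟨_, (List.mem_cons_of_mem _ (List.mem_cons_of_mem _ List.mem_cons_self)), by norm_num, by norm_num⟩
  · exact ⟨_, (List.mem_cons_of_mem _ (List.mem_cons_of_mem _ (List.mem_cons_of_mem _ List.mem_cons_self))), by norm_num, by norm_num⟩
  · exact ⟨_, (List.mem_cons_of_mem _ (List.mem_cons_of_mem _ (List.mem_cons_of_mem _ (List.mem_cons_of_mem _ List.mem_cons_self)))), by norm_num, by norm_num⟩
  · exact ⟨_, (List.mem_cons_of_mem _ (List.mem_cons_of_mem _ (List.mem_cons_of_mem _ (List.mem_cons_of_mem _ (List.mem_cons_of_mem _ List.mem_cons_self))))), by norm_num, by norm_num⟩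
  · exact ⟨_, (List.mem_cons_of_mem _ (List.mem_cons_of_mem _ (List.mem_cons_of_mem _ (List.mem_cons_of_mem _ (List.mem_cons_of_mem _ (List.mem_cons_of_mem _ List.mem_cons_self)))))), by norm_num, by norm_num⟩
  · exact ⟨_, (List.mem_cons_of_mem _ (List.mem_cons_of_mem _ (List.mem_cons_of_mem _ (List.mem_cons_of_mem _ (List.mem_cons_of_mem _ (List.mem_cons_of_mem _ (List.mem_cons_of_mem _ List.mem_cons_self))))))), by norm_num, by norm_num⟩
  · exact ⟨_, (List.mem_cons_of_mem _ (List.mem_cons_of_mem _ (List.mem_cons_of_mem _ (List.mem_cons_of_mem _ (List.mem_cons_of_mem _ (List.mem_cons_of_mem _ (List.mem_cons_of_mem _ (List.mem_cons_of_mem _ List.mem_cons_self)))))))), by norm_num, by norm_num⟩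
  · exact ⟨_, (List.mem_cons_of_mem _ (List.mem_cons_of_mem _ (List.mem_cons_of_mem _ (List.mem_cons_of_mem _ (List.mem_cons_of_mem _ (List.mem_cons_of_mem _ (List.mem_cons_of_mem _ (List.mem_cons_of_mem _ (List.mem_cons_of_mem _ List.mem_cons_self))))))))), by norm_num, by norm_num⟩
  · exact ⟨_, (List.mem_cons_of_mem _ (List.mem_cons_of_mem _ (List.mem_cons_of_mem _ (List.mem_cons_of_mem _ (List.mem_cons_of_mem _ (List.mem_cons_of_mem _ (List.mem_cons_of_mem _ (List.mem_cons_of_mem _ (List.mem_cons_of_mem _ (List.mem_cons_of_mem _ List.mem_cons_self)))))))))), by norm_num, by norm_num⟩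

theorem VLC565_ne : VLC565_L ≠ [] := by
  unfold VLC565_L
  exact List.cons_ne_nil _ _

theorem VLC565_m : ∀ s ∈ lbLn, ∃ p ∈ VLC565_L, p.1 = (s.2.1 : ℝ) ∧ p.2.1 = (s.2.2 : ℝ) := by
  intro s hs
  unfold lbLn at hs
  simp only [List.mem_cons, List.not_mem_nil, or_false] at hs
  unfold VLC565_L
  rcases hs with rfl | rfl | rfl | rfl | rfl | rfl | rfl | rfl | rfl | rfl | rfl
  · exact ⟨_, List.mem_cons_self, by norm_num, by norm_num⟩
  · exact ⟨_, (List.mem_cons_of_mem _ List.mem_cons_self), by norm_num, by norm_num⟩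
  · exact ⟨_, (List.mem_cons_of_mem _ (List.mem_cons_of_mem _ List.mem_cons_self)), by norm_num, by norm_num⟩
  · exact ⟨_, (List.mem_cons_of_mem _ (List.mem_cons_of_mem _ (List.mem_cons_of_mem _ List.mem_cons_self))), by norm_num, by norm_num⟩
  · exact ⟨_, (List.mem_cons_of_mem _ (List.mem_cons_of_mem _ (List.mem_cons_of_mem _ (List.mem_cons_of_mem _ List.mem_cons_self)))), by norm_num, by norm_num⟩
  · exact ⟨_, (List.mem_cons_of_mem _ (List.mem_cons_of_mem _ (List.mem_cons_of_mem _ (List.mem_cons_of_mem _ (List.mem_cons_of_mem _ List.mem_cons_self))))), by norm_num, by norm_num⟩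
  · exact ⟨_, (List.mem_cons_of_mem _ (List.mem_cons_of_mem _ (List.mem_cons_of_mem _ (List.mem_cons_of_mem _ (List.mem_cons_of_mem _ (List.mem_cons_of_mem _ List.mem_cons_self)))))), by norm_num, by norm_num⟩
  · exact ⟨_, (List.mem_cons_of_mem _ (List.mem_cons_of_mem _ (List.mem_cons_of_mem _ (List.mem_cons_of_mem _ (List.mem_cons_of_mem _ (List.mem_cons_of_mem _ (List.mem_cons_of_mem _ List.mem_cons_self))))))), by norm_num, by norm_num⟩
  · exact ⟨_, (List.mem_cons_of_mem _ (List.mem_cons_of_mem _ (List.mem_cons_of_mem _ (List.mem_cons_of_mem _ (List.mem_cons_of_mem _ (List.mem_cons_of_mem _ (List.mem_cons_of_mem _ (List.mem_cons_of_mem _ List.mem_cons_self)))))))), by norm_num, by norm_num⟩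
  · exact ⟨_, (List.mem_cons_of_mem _ (List.mem_cons_of_mem _ (List.mem_cons_of_mem _ (List.mem_cons_of_mem _ (List.mem_cons_of_mem _ (List.mem_cons_of_mem _ (List.mem_cons_of_mem _ (List.mem_cons_of_mem _ (List.mem_cons_of_mem _ List.mem_cons_self))))))))), by norm_num, by norm_num⟩
  · exact ⟨_, (List.mem_cons_of_mem _ (List.mem_cons_of_mem _ (List.mem_cons_of_mem _ (List.mem_cons_of_mem _ (List.mem_cons_of_mem _ (List.mem_cons_of_mem _ (List.mem_cons_of_mem _ (List.mem_cons_of_mem _ (List.mem_cons_of_mem _ (List.mem_cons_of_mem _ List.mem_cons_self)))))))))), by norm_num, by norm_num⟩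

theorem VLC575_ne : VLC575_L ≠ [] := by
  unfold VLC575_L
  exact List.cons_ne_nil _ _

theorem VLC575_m : ∀ s ∈ lbLn, ∃ p ∈ VLC575_L, p.1 = (s.2.1 : ℝ) ∧ p.2.1 = (s.2.2 : ℝ) := by
  intro s hs
  unfold lbLn at hs
  simp only [List.mem_cons, List.not_mem_nil, or_false] at hs
  unfold VLC575_L
  rcases hs with rfl | rfl | rfl | rfl | rfl | rfl | rfl | rfl | rfl | rfl | rfl
  · exact ⟨_, List.mem_cons_self, by norm_num, by norm_num⟩
  · exact ⟨_, (List.mem_cons_of_mem _ List.mem_cons_self), by norm_num, by norm_num⟩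
  · exact ⟨_, (List.mem_cons_of_mem _ (List.mem_cons_of_mem _ List.mem_cons_self)), by norm_num, by norm_num⟩
  · exact ⟨_, (List.mem_cons_of_mem _ (List.mem_cons_of_mem _ (List.mem_cons_of_mem _ List.mem_cons_self))), by norm_num, by norm_num⟩
  · exact ⟨_, (List.mem_cons_of_mem _ (List.mem_cons_of_mem _ (List.mem_cons_of_mem _ (List.mem_cons_of_mem _ List.mem_cons_self)))), by norm_num, by norm_num⟩
  · exact ⟨_, (List.mem_cons_of_mem _ (List.mem_cons_of_mem _ (List.mem_cons_of_mem _ (List.mem_cons_of_mem _ (List.mem_cons_of_mem _ List.mem_cons_self))))), by norm_num, by norm_num⟩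
  · exact ⟨_, (List.mem_cons_of_mem _ (List.mem_cons_of_mem _ (List.mem_cons_of_mem _ (List.mem_cons_of_mem _ (List.mem_cons_of_mem _ (List.mem_cons_of_mem _ List.mem_cons_self)))))), by norm_num, by norm_num⟩
  · exact ⟨_, (List.mem_cons_of_mem _ (List.mem_cons_of_mem _ (List.mem_cons_of_mem _ (List.mem_cons_of_mem _ (List.mem_cons_of_mem _ (List.mem_cons_of_mem _ (List.mem_cons_of_mem _ List.mem_cons_self))))))), by norm_num, by norm_num⟩
  · exact ⟨_, (List.mem_cons_of_mem _ (List.mem_cons_of_mem _ (List.mem_cons_of_mem _ (List.mem_cons_of_mem _ (List.mem_cons_of_mem _ (List.mem_cons_of_mem _ (List.mem_cons_of_mem _ (List.mem_cons_of_mem _ List.mem_cons_self)))))))), by norm_num, by norm_num⟩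
  · exact ⟨_, (List.mem_cons_of_mem _ (List.mem_cons_of_mem _ (List.mem_cons_of_mem _ (List.mem_cons_of_mem _ (List.mem_cons_of_mem _ (List.mem_cons_of_mem _ (List.mem_cons_of_mem _ (List.mem_cons_of_mem _ (List.mem_cons_of_mem _ List.mem_cons_self))))))))), by norm_num, by norm_num⟩
  · exact ⟨_, (List.mem_cons_of_mem _ (List.mem_cons_of_mem _ (List.mem_cons_of_mem _ (List.mem_cons_of_mem _ (List.mem_cons_of_mem _ (List.mem_cons_of_mem _ (List.mem_cons_of_mem _ (List.mem_cons_of_mem _ (List.mem_cons_of_mem _ (List.mem_cons_of_mem _ List.mem_cons_self)))))))))), by norm_num, by norm_num⟩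

theorem VLC600_ne : VLC600_L ≠ [] := by
  unfold VLC600_L
  exact List.cons_ne_nil _ _

theorem VLC600_m : ∀ s ∈ lbLn, ∃ p ∈ VLC600_L, p.1 = (s.2.1 : ℝ) ∧ p.2.1 = (s.2.2 : ℝ) := by
  intro s hs
  unfold lbLn at hs
  simp only [List.mem_cons, List.not_mem_nil, or_false] at hs
  unfold VLC600_L
  rcases hs with rfl | rfl | rfl | rfl | rfl | rfl | rfl | rfl | rfl | rfl | rfl
  · exact ⟨_, List.mem_cons_self, by norm_num, by norm_num⟩
  · exact ⟨_, (List.mem_cons_of_mem _ List.mem_cons_self), by norm_num, by norm_num⟩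
  · exact ⟨_, (List.mem_cons_of_mem _ (List.mem_cons_of_mem _ List.mem_cons_self)), by norm_num, by norm_num⟩
  · exact ⟨_, (List.mem_cons_of_mem _ (List.mem_cons_of_mem _ (List.mem_cons_of_mem _ List.mem_cons_self))), by norm_num, by norm_num⟩
  · exact ⟨_, (List.mem_cons_of_mem _ (List.mem_cons_of_mem _ (List.mem_cons_of_mem _ (List.mem_cons_of_mem _ List.mem_cons_self)))), by norm_num, by norm_num⟩
  · exact ⟨_, (List.mem_cons_of_mem _ (List.mem_cons_of_mem _ (List.mem_cons_of_mem _ (List.mem_cons_of_mem _ (List.mem_cons_of_mem _ List.mem_cons_self))))), by norm_num, by norm_num⟩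
  · exact ⟨_, (List.mem_cons_of_mem _ (List.mem_cons_of_mem _ (List.mem_cons_of_mem _ (List.mem_cons_of_mem _ (List.mem_cons_of_mem _ (List.mem_cons_of_mem _ List.mem_cons_self)))))), by norm_num, by norm_num⟩
  · exact ⟨_, (List.mem_cons_of_mem _ (List.mem_cons_of_mem _ (List.mem_cons_of_mem _ (List.mem_cons_of_mem _ (List.mem_cons_of_mem _ (List.mem_cons_of_mem _ (List.mem_cons_of_mem _ List.mem_cons_self))))))), by norm_num, by norm_num⟩
  · exact ⟨_, (List.mem_cons_of_mem _ (List.mem_cons_of_mem _ (List.mem_cons_of_mem _ (List.mem_cons_of_mem _ (List.mem_cons_of_mem _ (List.mem_cons_of_mem _ (List.mem_cons_of_mem _ (List.mem_cons_of_mem _ List.mem_cons_self)))))))), by norm_num, by norm_num⟩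
  · exact ⟨_, (List.mem_cons_of_mem _ (List.mem_cons_of_mem _ (List.mem_cons_of_mem _ (List.mem_cons_of_mem _ (List.mem_cons_of_mem _ (List.mem_cons_of_mem _ (List.mem_cons_of_mem _ (List.mem_cons_of_mem _ (List.mem_cons_of_mem _ List.mem_cons_self))))))))), by norm_num, by norm_num⟩
  · exact ⟨_, (List.mem_cons_of_mem _ (List.mem_cons_of_mem _ (List.mem_cons_of_mem _ (List.mem_cons_of_mem _ (List.mem_cons_of_mem _ (List.mem_cons_of_mem _ (List.mem_cons_of_mem _ (List.mem_cons_of_mem _ (List.mem_cons_of_mem _ (List.mem_cons_of_mem _ List.mem_cons_self)))))))))), by norm_num, by norm_num⟩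

theorem VLC625_ne : VLC625_L ≠ [] := by
  unfold VLC625_L
  exact List.cons_ne_nil _ _

theorem VLC625_m : ∀ s ∈ lbLn, ∃ p ∈ VLC625_L, p.1 = (s.2.1 : ℝ) ∧ p.2.1 = (s.2.2 : ℝ) := by
  intro s hs
  unfold lbLn at hs
  simp only [List.mem_cons, List.not_mem_nil, or_false] at hs
  unfold VLC625_L
  rcases hs with rfl | rfl | rfl | rfl | rfl | rfl | rfl | rfl | rfl | rfl | rfl
  · exact ⟨_, List.mem_cons_self, by norm_num, by norm_num⟩
  · exact ⟨_, (List.mem_cons_of_mem _ List.mem_cons_self), by norm_num, by norm_num⟩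
  · exact ⟨_, (List.mem_cons_of_mem _ (List.mem_cons_of_mem _ List.mem_cons_self)), by norm_num, by norm_num⟩
  · exact ⟨_, (List.mem_cons_of_mem _ (List.mem_cons_of_mem _ (List.mem_cons_of_mem _ List.mem_cons_self))), by norm_num, by norm_num⟩
  · exact ⟨_, (List.mem_cons_of_mem _ (List.mem_cons_of_mem _ (List.mem_cons_of_mem _ (List.mem_cons_of_mem _ List.mem_cons_self)))), by norm_num, by norm_num⟩
  · exact ⟨_, (List.mem_cons_of_mem _ (List.mem_cons_of_mem _ (List.mem_cons_of_mem _ (List.mem_cons_of_mem _ (List.mem_cons_of_mem _ List.mem_cons_self))))), by norm_num, by norm_num⟩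
  · exact ⟨_, (List.mem_cons_of_mem _ (List.mem_cons_of_mem _ (List.mem_cons_of_mem _ (List.mem_cons_of_mem _ (List.mem_cons_of_mem _ (List.mem_cons_of_mem _ List.mem_cons_self)))))), by norm_num, by norm_num⟩
  · exact ⟨_, (List.mem_cons_of_mem _ (List.mem_cons_of_mem _ (List.mem_cons_of_mem _ (List.mem_cons_of_mem _ (List.mem_cons_of_mem _ (List.mem_cons_of_mem _ (List.mem_cons_of_mem _ List.mem_cons_self))))))), by norm_num, by norm_num⟩
  · exact ⟨_, (List.mem_cons_of_mem _ (List.mem_cons_of_mem _ (List.mem_cons_of_mem _ (List.mem_cons_of_mem _ (List.mem_cons_of_mem _ (List.mem_cons_of_mem _ (List.mem_cons_of_mem _ (List.mem_cons_of_mem _ List.mem_cons_self)))))))), by norm_num, by norm_num⟩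
  · exact ⟨_, (List.mem_cons_of_mem _ (List.mem_cons_of_mem _ (List.mem_cons_of_mem _ (List.mem_cons_of_mem _ (List.mem_cons_of_mem _ (List.mem_cons_of_mem _ (List.mem_cons_of_mem _ (List.mem_cons_of_mem _ (List.mem_cons_of_mem _ List.mem_cons_self))))))))), by norm_num, by norm_num⟩
  · exact ⟨_, (List.mem_cons_of_mem _ (List.mem_cons_of_mem _ (List.mem_cons_of_mem _ (List.mem_cons_of_mem _ (List.mem_cons_of_mem _ (List.mem_cons_of_mem _ (List.mem_cons_of_mem _ (List.mem_cons_of_mem _ (List.mem_cons_of_mem _ (List.mem_cons_of_mem _ List.mem_cons_self)))))))))), by norm_num, by norm_num⟩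

end Pool.Agent.FPX.VST
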