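import Mathlib
import Pool.Agent.FPX.VRA
import Pool.Agent.FPX.EYA

/-
VRB (helper20): the V stage with charges, integrated: if `F` has `∫ max (ν_F, (1+r) ν_F - τ)` small, then
`v = pv κ F Θ` satisfies `∫ φ(ν_v) ≤ q ∫ max (ν_F, (1+r) ν_F - τ) + ...` for every law `φ` below the rows of `v`.
-/

open MeasureTheory Set Filter Topology
open scoped ENNReal NNReal

noncomputable section

namespace Pool.Agent.FPX.VST

open Pool.Agent.EWD Pool.Agent.FPX

variable {M : Type} [MetricSpace M] {γ : ℝ → M}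

/-- the bound of `dΘ` -/
theorem ae_dTh (C : Calc M γ) (P : Fam γ) :
    ∀ᵐ o ∂C.μ, ‖dx C P.Th o‖ ^ 2 + ‖dy C P.Th o‖ ^ 2 ≤ 2 := by
  filter_upwards [ae_goodPt C P] with o ho
  have := (Th_InW ho).s
  linarith

/-- row B on the surface -/
theorem vstB_ae [CompactSpace M] (C : Calc M γ) {κ : ℝ → ℝ} (hκ : Kap κ) {al k mu E₀ lam : ℝ}
    (hok : VOkB κ al k mu E₀ lam) {F T : Fin 3 → M → ℝ} (hF : Sph γ F) (hT : Pre γ T)
    (hv : Sph γ (pv κ F T)) (hT2 : ∀ x, ‖vv (n := 0) T x‖ ≤ 2)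
    (hTd : ∀ᵐ o ∂C.μ, ‖dx C T o‖ ^ 2 + ‖dy C T o‖ ^ 2 ≤ 2) : ∀ᵐ o ∂C.μ,
    al * (‖dx C T o - dx C (pv κ F T) o‖ ^ 2 + ‖dy C T o - dy C (pv κ F T) o‖ ^ 2)
      + k * nuC C (pv κ F T) o - 2 * mu
      - (E₀ + al * lam * ‖at' C T o - at' C (pv κ F T) o‖ ^ 2) * nuC C F o ≤
      QQ C (pv κ F T) T o := by
  have hTl : ∀ k, Lip (T k) := fun k => ⟨3, hT.lip k⟩
  filter_upwards [pv_ae C hκ hF hTl, ae_perp C hv, ae_perp C hF, hTd] with o h1 h2 h3 hd
  obtain ⟨⟨h4, h5⟩, h6, h7⟩ := h1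
  obtain ⟨r1, r2, r3, r4, r5⟩ := pv_rel hκ hF T (C.pt o)
  set v := pv κ F T with hvd
  set R := pR κ F T (C.pt o) with hR
  set g := pg κ F T (C.pt o) with hg
  have a1 : vv (n := 0) T (C.pt o) = at' C T o := rfl
  have a2 : vv (n := 0) v (C.pt o) = at' C v o := rfl
  have a3 : vv (n := 0) F (C.pt o) = at' C F o := rfl
  rw [a1, a2] at r5
  rw [a1, a2, a3] at r4
  rw [a2] at r1
  have r6 : ‖at' C F o‖ = 1 := norm_at hF o
  have e1 : (R - 1) • at' C v o - g • at' C F o = at' C T o - at' C v o := by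
    rw [r4]
    module
  have e2 : C.gx (pR κ F T) o • at' C v o + (R - 1) • dx C v o
      - (C.gx (pg κ F T) o • at' C F o + g • dx C F o) = dx C T o - dx C v o := by
    rw [h4]
    module
  have e3 : C.gy (pR κ F T) o • at' C v o + (R - 1) • dy C v o
      - (C.gy (pg κ F T) o • at' C F o + g • dy C F o) = dy C T o - dy C v o := by
    rw [h5]
    module
  have e4 : C.gx (pR κ F T) o • at' C v o + R • dx C v o
      - (C.gx (pg κ F T) o • at' C F o + g • dx C F o) = dx C T o := by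
    rw [h4]
    module
  have e5 : C.gy (pR κ F T) o • at' C v o + R • dy C v o
      - (C.gy (pg κ F T) o • at' C F o + g • dy C F o) = dy C T o := by
    rw [h5]
    module
  have key := hok.point hκ r1 r6 h2.1 h2.2 h3.1 h3.2 (R := R) (g := g)
    (rx := C.gx (pR κ F T) o) (ry := C.gy (pR κ F T) o) (gx := C.gx (pg κ F T) o)
    (gy := C.gy (pg κ F T) o) r2 r3 (by rw [e1]; exact r5) (by rw [← r4]; exact hT2 _)
    (by rw [e1, e2]; exact h6) (by rw [e1, e3]; exact h7) (by rw [e4, e5]; exact hd)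
  rw [e1, e2, e3, e4, e5] at key
  exact key

/-- **a row of `v`** (slope `1 + ρ`, offset `t`) from the row `(1 + r, τ)` of `F` -/
def RowV (κ : ℝ → ℝ) (al kap lam q r τ ρ t : ℝ) : Prop :=
  ∃ θ mu : ℝ, 0 ≤ θ ∧ θ ≤ 1 ∧ VOkB κ al (kap * (1 + ρ)) mu (kap * q * (1 + θ * r)) lam ∧
    2 * mu ≤ kap * (t - q * θ * τ)

/-- the pointwise inequality with the law `φ` -/
theorem law_ae [CompactSpace M] (C : Calc M γ) {κ : ℝ → ℝ} (hκ : Kap κ) {al kap lam q r τ : ℝ}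
    (hok : VOk κ al kap lam q) {φ : ℝ → ℝ}
    {F T : Fin 3 → M → ℝ} (hF : Sph γ F) (hT : Pre γ T)
    (hv : Sph γ (pv κ F T)) (hT2 : ∀ x, ‖vv (n := 0) T x‖ ≤ 2)
    (hTd : ∀ᵐ o ∂C.μ, ‖dx C T o‖ ^ 2 + ‖dy C T o‖ ^ 2 ≤ 2) (ρs : List (ℝ × ℝ))
    (hρ : ∀ p ∈ ρs, RowV κ al kap lam q r τ p.1 p.2)
    (hφ : ∀ x, 0 ≤ x → φ x ≤ x ∨ ∃ p ∈ ρs, φ x ≤ (1 + p.1) * x - p.2) : ∀ᵐ o ∂C.μ,
    al * (‖dx C T o - dx C (pv κ F T) o‖ ^ 2 + ‖dy C T o - dy C (pv κ F T) o‖ ^ 2)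
      + kap * φ (nuC C (pv κ F T) o)
      - kap * q * max (nuC C F o) ((1 + r) * nuC C F o - τ)
      - al * lam * ‖at' C T o - at' C (pv κ F T) o‖ ^ 2 * nuC C F o ≤
      QQ C (pv κ F T) T o := by
  have hrow : ∀ᵐ o ∂C.μ, ∀ p ∈ ρs, al * (‖dx C T o - dx C (pv κ F T) o‖ ^ 2
      + ‖dy C T o - dy C (pv κ F T) o‖ ^ 2)
      + kap * ((1 + p.1) * nuC C (pv κ F T) o - p.2)
      - kap * q * max (nuC C F o) ((1 + r) * nuC C F o - τ)
      - al * lam * ‖at' C T o - at' C (pv κ F T) o‖ ^ 2 * nuC C F o ≤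
      QQ C (pv κ F T) T o := by
    have h1 : ∀ p : {p // p ∈ ρs}, ∀ᵐ o ∂C.μ, al * (‖dx C T o - dx C (pv κ F T) o‖ ^ 2
      + ‖dy C T o - dy C (pv κ F T) o‖ ^ 2)
      + kap * ((1 + p.1.1) * nuC C (pv κ F T) o - p.1.2)
      - kap * q * max (nuC C F o) ((1 + r) * nuC C F o - τ)
      - al * lam * ‖at' C T o - at' C (pv κ F T) o‖ ^ 2 * nuC C F o ≤
      QQ C (pv κ F T) T o := by
      rintro ⟨p, hp⟩
      obtain ⟨θ, mu, h0, h1, hB, hmu⟩ := hρ p hp
      filter_upwards [vstB_ae C hκ hB hF hT hv hT2 hTd] with o ho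
      refine le_trans ?_ ho
      set y := nuC C F o
      set x := nuC C (pv κ F T) o
      have k1 : y ≤ max y ((1 + r) * y - τ) := le_max_left _ _
      have k2 : (1 + r) * y - τ ≤ max y ((1 + r) * y - τ) := le_max_right _ _
      have k3 : (1 - θ) * y + θ * ((1 + r) * y - τ) ≤ max y ((1 + r) * y - τ) := by
        have h2 := mul_le_mul_of_nonneg_left k1 (by linarith : 0 ≤ 1 - θ)
        have h3 := mul_le_mul_of_nonneg_left k2 h0
        linarith
      have hkq : 0 ≤ kap * q := (mul_pos hok.kap0 hok.q0).le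
      have k4 := mul_le_mul_of_nonneg_left k3 hkq
      have k5 : kap * q * ((1 - θ) * y + θ * ((1 + r) * y - τ)) =
          kap * q * (1 + θ * r) * y - kap * (q * θ * τ) := by ring
      rw [k5] at k4
      nlinarith
    have h2 := ae_all_iff.2 h1
    filter_upwards [h2] with o ho p hp
    exact ho ⟨p, hp⟩
  filter_upwards [hrow, vst_ae C hκ hok hF hT hv hT2] with o h1 h2
  rcases hφ (nuC C (pv κ F T) o) (nuv_nonneg _ _ _) with h | ⟨p, hp, h⟩
  · refine le_trans ?_ h2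
    have k1 : nuC C F o ≤ max (nuC C F o) ((1 + r) * nuC C F o - τ) := le_max_left _ _
    have hkq : 0 ≤ kap * q := (mul_pos hok.kap0 hok.q0).le
    have k2 := mul_le_mul_of_nonneg_left k1 hkq
    have k3 := mul_le_mul_of_nonneg_left h hok.kap0.le
    nlinarith
  · refine le_trans ?_ (h1 p hp)
    have k3 := mul_le_mul_of_nonneg_left h hok.kap0.le
    linarith

section
variable [CompactSpace M]

/-- **THE V STAGE WITH CHARGES** -/
theorem vst_stepB [Nonempty M] (C : Calc M γ) (hγ : Bd γ) (hR : RegAE C) {κ : ℝ → ℝ} (hκ : Kap κ)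
    {al kap lam q r τ : ℝ} (hok : VOk κ al kap lam q)
    (hTh : ∀ (P : Fam γ) (x : M), ‖vv (n := 0) P.Th x‖ ≤ 2)
    {φ : ℝ → ℝ} (hφc : Continuous φ) (ρs : List (ℝ × ℝ))
    (hρ : ∀ p ∈ ρs, RowV κ al kap lam q r τ p.1 p.2)
    (hφ : ∀ x, 0 ≤ x → φ x ≤ x ∨ ∃ p ∈ ρs, φ x ≤ (1 + p.1) * x - p.2)
    {F : Fin 3 → M → ℝ} (hF : Sph γ F) (hJ : ∫ o, jac C F o ∂C.μ ≤ 2 * Real.pi) {δ : ℝ}
    (hH : ∀ g : M → ℝ, Lip g → OddB γ g → (∀ x, |g x| ≤ 8) →
      lam * ∫ o, nuC C F o * g (C.pt o) ^ 2 ∂C.μ ≤ ∫ o, gn C g o ^ 2 ∂C.μ + δ)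
    {ε : ℝ} (hε : 0 < ε) :
    ∃ P : Fam γ, Pre γ P.Th ∧ Sph γ (pv κ F P.Th) ∧
      (∫ o, jac C (pv κ F P.Th) o ∂C.μ = ∫ o, jac C F o ∂C.μ) ∧
      kap * (∫ o, φ (nuC C (pv κ F P.Th) o) ∂C.μ
        - q * ∫ o, max (nuC C F o) ((1 + r) * nuC C F o - τ) ∂C.μ) ≤
        3 * (C.vol - 2 * Real.pi) + 12 / Real.pi * ε + 3 * al * δ := by
  obtain ⟨P, hP, hv, hfl⟩ := pv_fix C hγ hR hκ hF hε
  have hT2 : ∀ x, ‖vv (n := 0) P.Th x‖ ≤ 2 := hTh P
  have hTl : ∀ k, Lip (P.Th k) := fun k => ⟨3, hP.lip k⟩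
  have hz : ∀ x, 0 < 1 + (inner ℝ (vv (n := 0) (pv κ F P.Th) x) (vv (n := 0) F x) : ℝ) := by
    intro x
    obtain ⟨r1, r2, r3, r4, r5⟩ := pv_rel hκ hF P.Th x
    have e1 : (pR κ F P.Th x - 1) • vv (n := 0) (pv κ F P.Th) x - pg κ F P.Th x • vv (n := 0) F x =
        vv (n := 0) P.Th x - vv (n := 0) (pv κ F P.Th) x := by
      conv_rhs => rw [r4]
      module
    exact (vst_of hκ r1 (norm_vv hF x) r2 r3 (by rw [e1]; exact r5)
      (by rw [← r4]; exact hT2 x)).2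
  have hjac := jac_eq_jac C hv hF hz
  refine ⟨P, hP, hv, hjac, ?_⟩
  set v := pv κ F P.Th with hvd
  have hal := hok.al0
  have hq := int_QQ_le C hv P hfl (by rw [hjac]; exact hJ)
  -- the functions `η_k`
  have hη : ∀ k, Lip (fun x => P.Th k x - v k x) := fun k => (hTl k).sub (hv.lip k)
  have hodd : ∀ k, OddB γ (fun x => P.Th k x - v k x) := fun k s => by
    have h1 := hP.odd k s
    have h2 := hv.odd k s
    change P.Th k (γ (s + Real.pi)) - v k (γ (s + Real.pi)) = -(P.Th k (γ s) - v k (γ s))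
    rw [h1, h2]
    ring
  have hbd : ∀ k x, |P.Th k x - v k x| ≤ 8 := fun k x => by
    have h1 := hP.bd k x
    have h2 : |v k x| ≤ 1 := by
      have h3 : ‖vv (n := 0) v x‖ = 1 := norm_vv hv x
      have h4 : |v k x| = ‖(vv (n := 0) v x) k‖ := by
        rw [Real.norm_eq_abs]
        fin_cases k <;> rfl
      rw [h4, ← h3]
      exact PiLp.norm_apply_le _ k
    calc |P.Th k x - v k x| ≤ |P.Th k x| + |v k x| := abs_sub _ _
      _ ≤ 8 := by linarith
  have hk := fun k => hH _ (hη k) (hodd k) (hbd k)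
  -- integration
  have i1 : ∀ k, Integrable (fun o => gn C (fun x => P.Th k x - v k x) o ^ 2) C.μ := fun k =>
    gn_sq_int C (hη k)
  have i2 : ∀ k, Integrable (fun o => nuC C F o * (P.Th k (C.pt o) - v k (C.pt o)) ^ 2) C.μ :=
    fun k => nu_sq_int C hF (hη k)
  have i3 : Integrable (fun o => φ (nuC C v o)) C.μ := nuC_cint C hv.lip hφc
  have i4 : Integrable (fun o => max (nuC C F o) ((1 + r) * nuC C F o - τ)) C.μ :=
    nuC_cint C (φ := fun x => max x ((1 + r) * x - τ)) hF.lip (by fun_prop)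
  have hmain : ∫ o, (al * ∑ k, gn C (fun x => P.Th k x - v k x) o ^ 2 + kap * φ (nuC C v o)
      - kap * q * max (nuC C F o) ((1 + r) * nuC C F o - τ)
      - al * lam * ∑ k, nuC C F o * (P.Th k (C.pt o) - v k (C.pt o)) ^ 2) ∂C.μ
      ≤ ∫ o, QQ C v P.Th o ∂C.μ := by
    refine integral_mono_ae ?_ (QQ_int C hv hTl) ?_
    · exact ((((integrable_finsetSum _ fun k _ => i1 k).const_mul al).add (i3.const_mul kap)).sub
        (i4.const_mul (kap * q))).sub ((integrable_finsetSum _ fun k _ => i2 k).const_mul (al * lam))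
    · filter_upwards [law_ae C hκ hok hF hP hv hT2 (ae_dTh C P) ρs hρ hφ, ae_eta C hTl hv.lip]
        with o h1 h2
      rw [← hvd, h2, eta_norm] at h1
      have e : al * lam * ∑ k, nuC C F o * (P.Th k (C.pt o) - v k (C.pt o)) ^ 2 =
          al * lam * (∑ k, (P.Th k (C.pt o) - v k (C.pt o)) ^ 2) * nuC C F o := by
        rw [← Finset.mul_sum]
        ring
      rw [e]
      linarith
  rw [integral_sub, integral_sub, integral_add, integral_const_mul, integral_const_mul,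
    integral_const_mul, integral_const_mul, integral_finsetSum _ (fun k _ => i1 k),
    integral_finsetSum _ (fun k _ => i2 k), Fin.sum_univ_three, Fin.sum_univ_three] at hmain
  rotate_left
  · exact (integrable_finsetSum _ fun k _ => i1 k).const_mul al
  · exact i3.const_mul kap
  · exact ((integrable_finsetSum _ fun k _ => i1 k).const_mul al).add (i3.const_mul kap)
  · exact i4.const_mul (kap * q)
  · exact (((integrable_finsetSum _ fun k _ => i1 k).const_mul al).add (i3.const_mul kap)).sub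
      (i4.const_mul (kap * q))
  · exact (integrable_finsetSum _ fun k _ => i2 k).const_mul (al * lam)
  have k0 := mul_le_mul_of_nonneg_left (hk 0) hal.le
  have k1 := mul_le_mul_of_nonneg_left (hk 1) hal.le
  have k2 := mul_le_mul_of_nonneg_left (hk 2) hal.le
  linarith

end

end Pool.Agent.FPX.VST
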