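import Pool.Agent.FPX.VSY
import Pool.Agent.FPX.VCM

/-
VSD555 (helper5, generators of helper30 and helper5): a numerical instance of the V stage with class constant.
-/

set_option maxRecDepth 1000000

namespace Pool.Agent.FPX.VST

open Pool.Agent.FPX.BXE

def VSD555_k1 : Tr := .o
def VSD555_k2 : Tr := .o
def VSD555_k3 : Tr := .o
def VSD555_t : Tr := .s 1 (.s 0 (.s 0 (.s 0 (.s 0 (.s 0 (.s 1 (.l 0 1 [1, 0]) (.s 0 (.s 1 (.l 0 1 [1, 0]) (.s 0 (.s 1 (.l 0 1 [1, 0]) (.s 0 (.s 1 (.l 0 1 [1, 0]) (.l 1 0 [117151983878594705387462527448369091574175712711540736, 0])) (.s 1 (.l 0 1 [1, 0]) (.l 1 0 [69389869321888809824588070808636098917117140991475712, 0])))) (.s 1 (.l 0 1 [1, 0]) (.s 1 (.l 0 1 [1, 0]) (.o))))) (.s 1 (.l 0 1 [1, 0]) (.s 0 (.s 1 (.l 0 1 [1, 0]) (.s 1 (.l 0 1 [1, 0]) (.o))) (.s 1 (.l 0 1 [1, 0]) (.s 1 (.l 1 0 [46456884173560226584611763436340451917994833733484544, 0])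 (.o))))))) (.s 1 (.l 0 1 [1, 0]) (.s 0 (.s 1 (.l 0 1 [1, 0]) (.s 0 (.s 1 (.l 0 1 [1, 0]) (.s 1 (.l 1 0 [173345857859507441719309670366380083493808271318319104, 0]) (.o))) (.s 1 (.l 0 1 [1, 0]) (.s 1 (.l 1 0 [41864596726864453951097683938886778907333271729733632, 0]) (.o))))) (.s 1 (.l 0 1 [1, 0]) (.s 0 (.s 1 (.l 0 1 [1, 0]) (.s 1 (.l 1 0 [29022788221125849136872521265725316448498644512931840, 0]) (.o))) (.s 1 (.l 0 1 [1, 0]) (.s 1 (.l 1 0 [23661116386872151550945917364907314878742795697258496, 0]) (.o)))))))) (.s 0 (.s 1 (.l 0 1 [1, 0]) (.s 0 (.s 1 (.l 0 1 [1, 0]) (.s 0 (.s 1 (.l 0 1 [1, 0]) (.s 1 (.s 1 (.l 1 0 [35165337592514593697682890196444224197406975166775296, 0]) (.o)) (.o))) (.s 1 (.l 0 1 [1, 0]) (.s 1 (.s 1 (.l 1 0 [16915748913628107596083197722370955877985157933694976, 0]) (.o)) (.o))))) (.s 1 (.l 0 1 [1, 0]) (.s 0 (.s 1 (.l 0 1 [1, 0]) (.s 1 (.s 1 (.l 1 0 [11850094190400356840490886264112166879305461590392832,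 0]) (.o)) (.o))) (.s 1 (.l 1 0 [270280145695047205069928748764455096563375078681608192, 0]) (.s 1 (.s 1 (.s 1 (.s 1 (.l 1 0 [10087633390929398727157173718223748647608656773251072, 0]) (.o)) (.o)) (.o)) (.o))))))) (.s 1 (.l 0 1 [1, 0]) (.s 0 (.s 1 (.l 0 1 [1, 0]) (.s 1 (.s 0 (.s 0 (.s 1 (.l 0 1 [1, 0]) (.s 0 (.l 1 0 [100238367220668664052074156379770777687475589925044224, 0]) (.s 1 (.l 0 1 [1, 0]) (.s 0 (.l 1 0 [30984034677325248597209595639791235838550712485150720, 0]) (.s 1 (.l 0 1 [1, 0]) (.l 1 0 [16321133814717985393354948262937157441683175753383936, 0])))))) (.s 1 (.l 0 1 [1, 0]) (.s 0 (.s 1 (.l 0 1 [1, 0]) (.s 0 (.s 1 (.l 0 1 [1, 0]) (.l 1 0 [13451270794310483018939040960827858343667675315568640, 0])) (.s 1 (.l 0 1 [1, 0]) (.l 1 0 [11804565347326358589382335799543494164720401868914688, 0])))) (.s 1 (.l 0 1 [1, 0]) (.s 0 (.s 1 (.l 0 1 [1, 0]) (.l 1 0 [10546214319426584512102936957045427556822061806518272,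 0])) (.s 1 (.l 0 1 [1, 0]) (.l 1 0 [9416807440507637809338273943804359479136549053923328, 0]))))))) (.s 0 (.s 1 (.l 0 1 [1, 0]) (.s 0 (.s 1 (.l 0 1 [1, 0]) (.s 0 (.s 1 (.l 0 1 [1, 0]) (.l 1 0 [8294090983375727545533507305781921068150295088857088, 0])) (.s 1 (.l 0 1 [1, 0]) (.l 1 0 [7094278787964756635885992642051739299967845019942912, 0])))) (.s 1 (.l 0 1 [1, 0]) (.s 0 (.s 1 (.l 0 1 [1, 0]) (.l 1 0 [5735544314331638266848310636437453945772959227445248, 0])) (.s 1 (.l 0 1 [1, 0]) (.o)))))) (.s 1 (.l 0 1 [1, 0]) (.s 0 (.s 1 (.l 0 1 [1, 0]) (.s 1 (.l 1 0 [24758018672164691198917500967708405526268016251109376, 0]) (.o))) (.s 1 (.l 0 1 [1, 0]) (.s 1 (.l 1 0 [18799892816321457530602062621162094866144697507643392, 0]) (.o))))))) (.s 1 (.s 1 (.s 0 (.l 1 0 [3269125884549370280391230127626931192521019130642432, 0]) (.o)) (.o)) (.o)))) (.s 1 (.l 0 1 [1, 0]) (.s 1 (.s 0 (.s 0 (.s 1 (.l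 0 1 [1, 0]) (.s 0 (.s 1 (.l 0 1 [1, 0]) (.l 1 0 [6505001512450994089842975400429648062000732974350336, 0])) (.s 1 (.l 0 1 [1, 0]) (.l 1 0 [4031306802055036510495135394812994818110713619283968, 0])))) (.s 1 (.l 0 1 [1, 0]) (.s 1 (.l 0 1 [1, 0]) (.o)))) (.s 0 (.s 1 (.l 0 1 [1, 0]) (.s 1 (.l 0 1 [1, 0]) (.o))) (.s 1 (.l 0 1 [1, 0]) (.s 1 (.l 1 0 [35605341615698703590069629529382777675869418659250176, 0]) (.o))))) (.s 1 (.s 1 (.s 1 (.o) (.o)) (.o)) (.o)))))))) (.s 0 (.s 0 (.s 1 (.l 0 1 [1, 0]) (.s 0 (.s 1 (.l 0 1 [1, 0]) (.s 1 (.s 0 (.s 0 (.s 1 (.l 0 1 [1, 0]) (.s 1 (.l 1 0 [134068484212489056387014090209874504972967103191580672, 0]) (.o))) (.s 1 (.l 0 1 [1, 0]) (.o))) (.s 1 (.l 0 1 [1, 0]) (.o))) (.s 1 (.s 1 (.s 1 (.s 1 (.o) (.o)) (.o)) (.o)) (.o)))) (.s 1 (.l 0 1 [1, 0]) (.s 1 (.s 1 (.l 1 0 [175860862664129423072667933492034187215110368076496896, 0]) (.o)) (.s 1 (.s 1 (.s 1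 (.s 1 (.o) (.o)) (.o)) (.o)) (.o)))))) (.s 1 (.l 0 1 [1, 0]) (.s 0 (.s 1 (.l 0 1 [1, 0]) (.s 1 (.s 1 (.l 1 0 [171903484073682010866244171293610215608938404675321856, 0]) (.o)) (.s 1 (.s 1 (.o) (.o)) (.o)))) (.s 1 (.l 0 1 [1, 0]) (.s 1 (.o) (.o)))))) (.s 0 (.s 1 (.l 0 1 [1, 0]) (.s 1 (.l 1 0 [2936701358282528502539766296036769799014887071428902912, 0]) (.s 1 (.s 1 (.o) (.o)) (.o)))) (.s 1 (.l 0 1 [1, 0]) (.s 1 (.s 0 (.l 1 0 [1702516104167865269133079374661384120396697903480963072, 0]) (.s 0 (.s 1 (.l 0 1 [1, 0]) (.l 1 0 [803857936717988700205385721861733759706305379522576384, 0])) (.s 1 (.l 0 1 [1, 0]) (.l 1 0 [634653801568221665281149152581160530160199440797794304, 0])))) (.s 1 (.s 1 (.o) (.o)) (.o))))))) (.s 0 (.s 0 (.s 0 (.s 1 (.l 0 1 [1, 0]) (.s 1 (.s 1 (.l 0 1 [1, 0]) (.o)) (.s 1 (.o) (.o)))) (.s 1 (.l 0 1 [1, 0]) (.s 1 (.s 1 (.l 0 1 [1, 0]) (.o)) (.s 1 (.o) (.o)))))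 (.s 0 (.s 1 (.l 0 1 [1, 0]) (.s 1 (.s 1 (.l 1 0 [214113623139234237584112484280255171826010464705323204608, 0]) (.o)) (.s 1 (.o) (.o)))) (.s 1 (.l 0 1 [1, 0]) (.s 1 (.o) (.s 1 (.o) (.o)))))) (.s 0 (.s 0 (.s 1 (.l 0 1 [1, 0]) (.s 1 (.o) (.s 1 (.o) (.o)))) (.s 1 (.l 0 1 [1, 0]) (.s 1 (.o) (.o)))) (.s 0 (.s 1 (.l 1 0 [788858716167211942569903832839481834852478795780638900224, 0]) (.s 1 (.o) (.o))) (.s 1 (.l 1 0 [56602277909284897160603328344644317072035679854477180928, 0]) (.s 1 (.s 1 (.o) (.o)) (.o))))))) (.s 1 (.s 1 (.s 0 (.l 1 0 [490931518042230628029599085148308641144336955673451429888, 0]) (.o)) (.s 1 (.s 1 (.s 0 (.l 1 0 [136149733767621079854289323714905657567383236572887384064, 0]) (.l 1 0 [0, 26569269462051380969020537395083562125891479797760])) (.s 0 (.o) (.l 1 0 [0, 45477077479561611254385874052214380558458244038656]))) (.s 0 (.o) (.l 0 1 [0, 1])))) (.s 1 (.s 1 (.s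 1 (.s 0 (.s 0 (.o) (.l 1 0 [0, 4667774387800117278340305188973262189993100574720])) (.l 0 1 [0, 1])) (.s 0 (.s 0 (.o) (.l 1 0 [0, 4884221131987367326296079219213246144008125677568])) (.l 0 1 [0, 1]))) (.s 1 (.s 0 (.s 1 (.s 0 (.s 0 (.o) (.l 1 0 [0, 717165120606048126971810376840903857883926495232])) (.l 0 1 [0, 1])) (.s 0 (.s 0 (.o) (.s 0 (.l 1 0 [0, 296917112869562550861941870707746417262039400448]) (.l 1 0 [0, 1621518744289478387594354612976834016145244684288]))) (.l 0 1 [0, 1]))) (.l 0 1 [0, 1])) (.s 0 (.s 1 (.s 0 (.s 1 (.s 0 (.o) (.l 1 0 [0, 446756087020819142544336692648357817800051392512])) (.o)) (.l 0 1 [0, 1])) (.o)) (.l 0 1 [0, 1])))) (.o)))) (.s 0 (.s 0 (.s 0 (.s 0 (.s 0 (.s 1 (.s 0 (.s 1 (.s 0 (.l 1 0 [129851824254982269398552439479014756456242467670327296, 0]) (.s 1 (.l 1 0 [50424779946993180662684647196166044297813119329107968, 0]) (.l 0 1 [1, 0]))) (.l 0 1 [1,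 0])) (.s 1 (.s 1 (.o) (.l 0 1 [1, 0])) (.l 0 1 [1, 0]))) (.l 0 1 [1, 0])) (.s 1 (.s 0 (.s 1 (.s 1 (.o) (.l 0 1 [1, 0])) (.l 0 1 [1, 0])) (.s 1 (.l 1 0 [74016802360588033059535820334977634625990331866284032, 0]) (.l 0 1 [1, 0]))) (.l 0 1 [1, 0]))) (.s 0 (.s 1 (.s 0 (.s 1 (.l 1 0 [46634400370681361746720517735703576470909969254842368, 0]) (.l 0 1 [1, 0])) (.s 1 (.o) (.l 0 1 [1, 0]))) (.l 0 1 [1, 0])) (.s 1 (.s 1 (.o) (.l 0 1 [1, 0])) (.l 0 1 [1, 0])))) (.s 0 (.s 0 (.s 1 (.s 1 (.o) (.l 0 1 [1, 0])) (.l 0 1 [1, 0])) (.s 1 (.l 1 0 [197893043091018619317342107281583012423611765275754496, 0]) (.l 0 1 [1, 0]))) (.s 1 (.o) (.l 0 1 [1, 0])))) (.s 1 (.o) (.l 0 1 [0, 1]))) (.o))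

theorem VSD555_ck1 : chk (prK (-240) 153 2000 41) goK1 [] VSD555_k1 [⟨0, 160, 1⟩] = true := by decide +kernel
theorem VSD555_ck2 : chk (prK (-240) 153 2000 41) goK2 [] VSD555_k2 [⟨0, 160, 1⟩] = true := by decide +kernel
theorem VSD555_ck3 : chk (prK (-240) 153 2000 41) goK3 [] VSD555_k3 [⟨0, 160, 1⟩] = true := by decide +kernel
theorem VSD555_ct : chk (prF (-240) 153 2000 41 1838040 49839) (goF 782901 30702000000 7982520000000 308982520000000 104705040000000 31516217040000) [.v 9, thF] VSD555_t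
    [⟨1, 31, 1⟩, ⟨-30, 30, 1⟩] = true := by decide +kernel

theorem VSD555_kf : KFok (-6 / 25) (153 / 100) (1 / 10) 41 20 :=
  KFok_of_box (by norm_num) (by norm_num) (by norm_num) (b1 := (-240)) (s1 := 153) (u1 := 2000) (a1 := 41)
    (by norm_num) (by norm_num) (by norm_num) (by norm_num) (by norm_num) (by norm_num) (by norm_num)
    VSD555_ck1 VSD555_ck2 VSD555_ck3

theorem VSD555_ok : VOk (kF (-6 / 25) (153 / 100) (1 / 10) 41 20) (449 / 500) (51 / 25) (111 / 20) (901 / 1000) :=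
  VOk_of_box (L := 7675500) (me := 10000) (b1 := (-240)) (s1 := 153) (u1 := 2000) (a1 := 41) (e0 := 1838040) (e1 := 49839)
    (c1 := 782901) (c2 := 30702000000) (c3 := 7982520000000) (c4 := 308982520000000)
    (c5 := 104705040000000) (c6 := 31516217040000)
    VSD555_kf (by norm_num) (by norm_num) (by norm_num) (by norm_num) (by norm_num) (by norm_num) (by norm_num)
    (by norm_num) (by norm_num) (by norm_num) (by norm_num) (by norm_num) (by norm_num)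
    (by norm_num) (by norm_num) (by norm_num) (by norm_num) (by norm_num) (by norm_num) VSD555_ct

def VSD555_t1 : Tr := .s 1 (.o) (.o)
def VSD555_t2 : Tr := .s 1 (.s 1 (.s 1 (.s 0 (.o) (.s 1 (.s 1 (.s 0 (.o) (.s 0 (.o) (.s 0 (.o) (.l 1 0 [0, 4736764])))) (.l 1 0 [0, 3269069])) (.l 1 0 [0, 1480570]))) (.o)) (.o)) (.o)
def VSD555_t3 : Tr := .s 1 (.s 1 (.o) (.s 1 (.o) (.o))) (.o)

theorem VSD555_c1 : chk (prC (-240) 153 2000 41) (.v 11) [.v 9, thF] VSD555_t1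
    [⟨1, 31, 1⟩, ⟨-30, 30, 1⟩] = true := by decide +kernel
theorem VSD555_c2 : chk (prC (-240) 153 2000 41) (goG 46 25) [.v 9, thF] VSD555_t2
    [⟨1, 31, 1⟩, ⟨-30, 30, 1⟩] = true := by decide +kernel
theorem VSD555_c3 : chk (prC (-240) 153 2000 41) (goS 27 50) [.v 9, thF] VSD555_t3
    [⟨1, 31, 1⟩, ⟨-30, 30, 1⟩] = true := by decide +kernel

theorem VSD555_cl : VCl (kF (-6 / 25) (153 / 100) (1 / 10) 41 20) (27 / 50) (46 / 25) :=
  VCl_of_box (b1 := (-240)) (s1 := 153) (u1 := 2000) (a1 := 41) (an := 27) (ad := 50) (bn := 46) (bd := 25)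
    VSD555_kf (by norm_num) (by norm_num) (by norm_num) (by norm_num) (by norm_num) (by norm_num)
    (by norm_num) (by norm_num) (by norm_num) VSD555_c1 VSD555_c2 VSD555_c3

end Pool.Agent.FPX.VST
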