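import Pool.Agent.FPX.VSY
import Pool.Agent.FPX.VCM

/-
VSD570 (helper5, generators of helper30 and helper5): a numerical instance of the V stage with class constant.
-/

set_option maxRecDepth 1000000

namespace Pool.Agent.FPX.VST

open Pool.Agent.FPX.BXE

def VSD570_k1 : Tr := .o
def VSD570_k2 : Tr := .o
def VSD570_k3 : Tr := .o
def VSD570_t : Tr := .s 1 (.s 0 (.s 0 (.s 0 (.s 0 (.s 0 (.s 1 (.l 0 1 [1, 0]) (.s 0 (.s 1 (.l 0 1 [1, 0]) (.s 0 (.s 1 (.l 0 1 [1, 0]) (.s 0 (.s 1 (.l 0 1 [1, 0]) (.l 1 0 [188861853467993535793214925463931666353210903182180352, 0])) (.s 1 (.l 0 1 [1, 0]) (.l 1 0 [112196384317864343402552889060146239472771292649750528, 0])))) (.s 1 (.l 0 1 [1, 0]) (.s 1 (.l 0 1 [1, 0]) (.o))))) (.s 1 (.l 0 1 [1, 0]) (.s 0 (.s 1 (.l 0 1 [1, 0]) (.s 1 (.l 0 1 [1, 0]) (.o))) (.s 1 (.l 0 1 [1, 0]) (.s 1 (.l 1 0 [82646938861590714665925909229773337548568544791232512, 0]) (.o)))))))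 (.s 1 (.l 0 1 [1, 0]) (.s 0 (.s 1 (.l 0 1 [1, 0]) (.s 0 (.s 1 (.l 0 1 [1, 0]) (.s 1 (.l 1 0 [264708751296265652454286708507333213427428978407243776, 0]) (.o))) (.s 1 (.l 0 1 [1, 0]) (.s 1 (.l 1 0 [65873558318976955005232654753179101179443635021676544, 0]) (.o))))) (.s 1 (.l 0 1 [1, 0]) (.s 0 (.s 1 (.l 0 1 [1, 0]) (.s 1 (.l 1 0 [46218507154401756741724669962122772154078545099882496, 0]) (.o))) (.s 1 (.l 0 1 [1, 0]) (.s 1 (.l 1 0 [37880409596571040423971911562342566531036648644280320, 0]) (.o)))))))) (.s 0 (.s 1 (.l 0 1 [1, 0]) (.s 0 (.s 1 (.l 0 1 [1, 0]) (.s 0 (.s 1 (.l 0 1 [1, 0]) (.s 1 (.s 1 (.l 1 0 [49885910344168786604837047862037000292841147508719616, 0]) (.o)) (.o))) (.s 1 (.l 0 1 [1, 0]) (.s 1 (.s 1 (.l 1 0 [25659987212101062468613115795592693630814244611031040, 0]) (.o)) (.o))))) (.s 1 (.l 0 1 [1, 0]) (.s 0 (.s 1 (.l 0 1 [1, 0]) (.s 1 (.s 1 (.s 1 (.s 0 (.l 1 0 [48479655340752518310844592977988541715749278129848320,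 0]) (.l 1 0 [20271719347303848942926774320240522246682433550286848, 0])) (.o)) (.o)) (.o))) (.s 1 (.l 1 0 [480847112936151778007074331892674474521866213896749056, 0]) (.s 1 (.s 1 (.s 1 (.s 1 (.s 0 (.l 1 0 [21798388452272998468130410205668699394038248595521536, 0]) (.s 1 (.l 1 0 [19657009900650087718139740941860237974956485168332800, 0]) (.l 1 0 [10996618960522679861345184336178333032663527599374336, 0]))) (.l 1 0 [7254960686860693614895015954474137519044392090861568, 0])) (.o)) (.o)) (.o))))))) (.s 1 (.l 0 1 [1, 0]) (.s 0 (.s 1 (.l 0 1 [1, 0]) (.s 1 (.s 0 (.s 0 (.s 1 (.l 0 1 [1, 0]) (.s 0 (.l 1 0 [176779230457942649512613455621167052135787773164519424, 0]) (.s 1 (.l 0 1 [1, 0]) (.s 0 (.l 1 0 [51645827218513720580200499166304756923629919650447360, 0]) (.l 1 0 [36166700394247071720389514547912007564368466216484864, 0]))))) (.s 1 (.l 0 1 [1, 0]) (.s 0 (.s 1 (.l 0 1 [1, 0]) (.s 0 (.s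 1 (.l 0 1 [1, 0]) (.l 1 0 [22618530708586457476143633759098261725529186018263040, 0])) (.s 1 (.l 0 1 [1, 0]) (.l 1 0 [19721074956194770455345822914820438016682076038758400, 0])))) (.s 1 (.l 0 1 [1, 0]) (.s 0 (.s 1 (.l 0 1 [1, 0]) (.l 1 0 [17368938242108879814550705162336920688614846565974016, 0])) (.s 1 (.l 0 1 [1, 0]) (.l 1 0 [15143524318020164560273078640338488387213607816921088, 0]))))))) (.s 0 (.s 1 (.l 0 1 [1, 0]) (.s 0 (.s 1 (.l 0 1 [1, 0]) (.s 0 (.s 1 (.l 0 1 [1, 0]) (.l 1 0 [12832571685365078303448230371214427373220086375514112, 0])) (.s 1 (.l 0 1 [1, 0]) (.l 1 0 [10273323816584303529663944072058391174954377688383488, 0])))) (.s 1 (.l 0 1 [1, 0]) (.s 1 (.l 0 1 [1, 0]) (.o))))) (.s 1 (.l 0 1 [1, 0]) (.s 0 (.s 1 (.l 0 1 [1, 0]) (.s 1 (.l 1 0 [35285445978714503016196866874183611766876425993322496, 0]) (.o))) (.s 1 (.l 0 1 [1, 0]) (.l 1 0 [13594317830816801474513843610123680286693196845547520,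 0])))))) (.s 1 (.s 1 (.s 1 (.s 1 (.l 1 0 [5485073886025998137069130423234946528379460391010304, 0]) (.o)) (.o)) (.o)) (.o)))) (.s 1 (.l 0 1 [1, 0]) (.s 1 (.s 0 (.s 0 (.s 1 (.l 0 1 [1, 0]) (.s 0 (.s 1 (.l 0 1 [1, 0]) (.l 1 0 [9378827184777925616196724915129133260122071255482368, 0])) (.s 1 (.l 0 1 [1, 0]) (.o)))) (.s 1 (.l 0 1 [1, 0]) (.s 1 (.l 0 1 [1, 0]) (.o)))) (.s 0 (.s 1 (.l 0 1 [1, 0]) (.s 1 (.l 0 1 [1, 0]) (.o))) (.s 1 (.l 0 1 [1, 0]) (.s 1 (.l 1 0 [52088145131755317620110248930503111391409504497172480, 0]) (.o))))) (.s 1 (.s 1 (.s 1 (.o) (.s 1 (.o) (.o))) (.o)) (.o)))))))) (.s 0 (.s 0 (.s 1 (.l 0 1 [1, 0]) (.s 0 (.s 1 (.l 0 1 [1, 0]) (.s 1 (.s 0 (.s 0 (.s 1 (.l 0 1 [1, 0]) (.l 1 0 [8704105543280901823321125767533142754236929383858176, 0])) (.s 1 (.l 0 1 [1, 0]) (.o))) (.s 1 (.l 0 1 [1, 0]) (.o))) (.s 1 (.s 1 (.s 1 (.o) (.s 1 (.o) (.o))) (.o)) (.o)))) (.s 1 (.l 0 1 [1, 0])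 (.s 1 (.s 1 (.l 1 0 [308645575075193044718455625148185899252863923457622016, 0]) (.o)) (.s 1 (.s 1 (.s 1 (.o) (.o)) (.o)) (.o)))))) (.s 1 (.l 0 1 [1, 0]) (.s 0 (.s 1 (.l 0 1 [1, 0]) (.s 1 (.s 1 (.l 1 0 [339925023889030941926752358749950650130661616836935680, 0]) (.o)) (.s 1 (.s 1 (.o) (.o)) (.o)))) (.s 1 (.l 0 1 [1, 0]) (.s 1 (.o) (.o)))))) (.s 0 (.s 1 (.l 0 1 [1, 0]) (.s 1 (.l 1 0 [5411806749087467851023253838363807556327235163214839808, 0]) (.s 1 (.o) (.o)))) (.s 1 (.l 0 1 [1, 0]) (.s 1 (.s 0 (.l 1 0 [3271254593491401989628170296813920281714844436030029824, 0]) (.s 0 (.l 1 0 [2826873847129557150914286710547144128015161084784672768, 0]) (.s 1 (.l 0 1 [1, 0]) (.l 1 0 [1251227827383692306066402793355650615538024317708140544, 0])))) (.s 1 (.o) (.o))))))) (.s 0 (.s 0 (.s 0 (.s 1 (.l 0 1 [1, 0]) (.s 1 (.s 1 (.l 0 1 [1, 0]) (.o)) (.s 1 (.o) (.o)))) (.s 1 (.l 0 1 [1, 0]) (.s 1 (.s 1 (.l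 0 1 [1, 0]) (.o)) (.s 1 (.o) (.o))))) (.s 0 (.s 1 (.l 0 1 [1, 0]) (.s 1 (.s 1 (.l 1 0 [429755542065238578713220903254306543420360604242061295616, 0]) (.o)) (.s 1 (.o) (.o)))) (.s 1 (.l 0 1 [1, 0]) (.s 1 (.o) (.o))))) (.s 0 (.s 0 (.s 1 (.l 0 1 [1, 0]) (.s 1 (.o) (.o))) (.s 1 (.l 0 1 [1, 0]) (.s 1 (.o) (.o)))) (.s 0 (.s 1 (.l 1 0 [1672430955056511037519497667254097058229965347363030564864, 0]) (.s 1 (.o) (.o))) (.s 1 (.l 1 0 [121611867694821811413896864997633578875292127610533838848, 0]) (.s 1 (.o) (.o))))))) (.s 1 (.s 1 (.s 0 (.l 1 0 [1235120378667701331430417893607334734524747859993571622912, 0]) (.o)) (.s 1 (.s 1 (.s 0 (.l 1 0 [341302772720417140547641182035016571283128473660709404672, 0]) (.l 1 0 [0, 103444372899449031058027502199385326311697343840256])) (.s 0 (.o) (.l 1 0 [0, 166844814008367640873807286330597853321887030968320]))) (.s 1 (.s 0 (.o) (.l 0 1 [0, 1])) (.s 0 (.l 1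 0 [0, 2480583813359704498138694526966644489043876773888]) (.l 0 1 [0, 1]))))) (.s 1 (.s 1 (.s 1 (.s 0 (.s 0 (.o) (.l 1 0 [0, 15735004261164837677028394623384234124146485755904])) (.l 0 1 [0, 1])) (.s 0 (.s 0 (.o) (.l 1 0 [0, 16208337455274173056259281497635490068989009199104])) (.l 0 1 [0, 1]))) (.s 1 (.s 0 (.s 1 (.s 0 (.s 0 (.o) (.s 0 (.o) (.l 1 0 [0, 4465337568082913195330903024826025475522571534336]))) (.l 0 1 [0, 1])) (.s 0 (.s 0 (.o) (.s 1 (.s 0 (.o) (.l 1 0 [0, 4866591839320531722116187814777035569728730431488])) (.s 1 (.s 0 (.l 1 0 [0, 1277232904741004562511466140821272100299027251200]) (.l 0 1 [0, 1])) (.s 0 (.l 1 0 [0, 1277232904741004562511466140821272100299027251200]) (.l 0 1 [0, 1]))))) (.l 0 1 [0, 1]))) (.l 0 1 [0, 1])) (.s 0 (.s 1 (.s 0 (.s 0 (.o) (.l 1 0 [0, 1851886885909247019823974569200398506548806025216])) (.l 0 1 [0, 1])) (.o)) (.l 0 1 [0, 1])))) (.o)))) (.s 0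 (.s 0 (.s 0 (.s 0 (.s 0 (.s 1 (.s 0 (.s 1 (.s 0 (.l 1 0 [217821200236393435727578678548142250691561853458317312, 0]) (.s 1 (.l 1 0 [82943484886213337401981618868486011203389876957347840, 0]) (.l 0 1 [1, 0]))) (.l 0 1 [1, 0])) (.s 1 (.s 1 (.o) (.l 0 1 [1, 0])) (.l 0 1 [1, 0]))) (.l 0 1 [1, 0])) (.s 1 (.s 0 (.s 1 (.s 1 (.o) (.l 0 1 [1, 0])) (.l 0 1 [1, 0])) (.s 1 (.l 1 0 [128103976331533920636417320489999683023771526701776896, 0]) (.l 0 1 [1, 0]))) (.l 0 1 [1, 0]))) (.s 0 (.s 1 (.s 0 (.s 1 (.l 1 0 [82083443059388320463813283856500606540023318687252480, 0]) (.l 0 1 [1, 0])) (.s 1 (.o) (.l 0 1 [1, 0]))) (.l 0 1 [1, 0])) (.s 1 (.s 1 (.o) (.l 0 1 [1, 0])) (.l 0 1 [1, 0])))) (.s 0 (.s 0 (.s 1 (.s 1 (.o) (.l 0 1 [1, 0])) (.l 0 1 [1, 0])) (.s 1 (.l 1 0 [373639938457676377711254168265121859191036785333370880, 0]) (.l 0 1 [1, 0]))) (.s 1 (.o) (.l 0 1 [1, 0])))) (.s 1 (.o) (.l 0 1 [0, 1])))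 (.o))

theorem VSD570_ck1 : chk (prK (-140) 156 1550 30) goK1 [] VSD570_k1 [⟨0, 160, 1⟩] = true := by decide +kernel
theorem VSD570_ck2 : chk (prK (-140) 156 1550 30) goK2 [] VSD570_k2 [⟨0, 160, 1⟩] = true := by decide +kernel
theorem VSD570_ck3 : chk (prK (-140) 156 1550 30) goK3 [] VSD570_k3 [⟨0, 160, 1⟩] = true := by decide +kernel
theorem VSD570_ct : chk (prF (-140) 156 1550 30 1813185 51243) (goF 6130801 242804000000 62825535000000 2466825535000000 829116070000000 249149379035000) [.v 9, thF] VSD570_t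
    [⟨1, 31, 1⟩, ⟨-30, 30, 1⟩] = true := by decide +kernel

theorem VSD570_kf : KFok (-7 / 50) (39 / 25) (1 / 10) 30 (31 / 2) :=
  KFok_of_box (by norm_num) (by norm_num) (by norm_num) (b1 := (-140)) (s1 := 156) (u1 := 1550) (a1 := 30)
    (by norm_num) (by norm_num) (by norm_num) (by norm_num) (by norm_num) (by norm_num) (by norm_num)
    VSD570_ck1 VSD570_ck2 VSD570_ck3

theorem VSD570_ok : VOk (kF (-7 / 50) (39 / 25) (1 / 10) 30 (31 / 2)) (899 / 1000) (407 / 200) (57 / 10) (891 / 1000) :=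
  VOk_of_box (L := 60701000) (me := 10000) (b1 := (-140)) (s1 := 156) (u1 := 1550) (a1 := 30) (e0 := 1813185) (e1 := 51243)
    (c1 := 6130801) (c2 := 242804000000) (c3 := 62825535000000) (c4 := 2466825535000000)
    (c5 := 829116070000000) (c6 := 249149379035000)
    VSD570_kf (by norm_num) (by norm_num) (by norm_num) (by norm_num) (by norm_num) (by norm_num) (by norm_num)
    (by norm_num) (by norm_num) (by norm_num) (by norm_num) (by norm_num) (by norm_num)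
    (by norm_num) (by norm_num) (by norm_num) (by norm_num) (by norm_num) (by norm_num) VSD570_ct

def VSD570_t1 : Tr := .s 1 (.o) (.o)
def VSD570_t2 : Tr := .s 1 (.s 1 (.s 1 (.s 0 (.o) (.s 1 (.s 0 (.o) (.s 0 (.o) (.l 1 0 [0, 4071270]))) (.l 1 0 [0, 1445993]))) (.o)) (.o)) (.o)
def VSD570_t3 : Tr := .s 1 (.s 1 (.o) (.s 1 (.o) (.o))) (.o)

theorem VSD570_c1 : chk (prC (-140) 156 1550 30) (.v 11) [.v 9, thF] VSD570_t1
    [⟨1, 31, 1⟩, ⟨-30, 30, 1⟩] = true := by decide +kernel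
theorem VSD570_c2 : chk (prC (-140) 156 1550 30) (goG 46 25) [.v 9, thF] VSD570_t2
    [⟨1, 31, 1⟩, ⟨-30, 30, 1⟩] = true := by decide +kernel
theorem VSD570_c3 : chk (prC (-140) 156 1550 30) (goS 27 50) [.v 9, thF] VSD570_t3
    [⟨1, 31, 1⟩, ⟨-30, 30, 1⟩] = true := by decide +kernel

theorem VSD570_cl : VCl (kF (-7 / 50) (39 / 25) (1 / 10) 30 (31 / 2)) (27 / 50) (46 / 25) :=
  VCl_of_box (b1 := (-140)) (s1 := 156) (u1 := 1550) (a1 := 30) (an := 27) (ad := 50) (bn := 46) (bd := 25)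
    VSD570_kf (by norm_num) (by norm_num) (by norm_num) (by norm_num) (by norm_num) (by norm_num)
    (by norm_num) (by norm_num) (by norm_num) VSD570_c1 VSD570_c2 VSD570_c3

end Pool.Agent.FPX.VST
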