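import Mathlib
import Pool.Agent.FPX.VSX

/-
VSY (helper30): the condition `KFok` from the box test of BXE (`w ≤ 16`) and simple bounds (`w ≥ 16`).
-/

noncomputable section

namespace Pool.Agent.FPX.VST

open Pool.Agent.EWD Pool.Agent.FPX Pool.Agent.FPX.BXE

/-- registers: 1 `100 Q`, 2 `10⁵ c Q`, 3 `10⁶ s' Q²`; `x = 10 w` -/
def prK (b1 s1 u1 a1 : ℤ) : List Ex :=
  [.add (.c u1) (.pow (.v 0) 2),
   .add (.mul (.add (.c b1) (.mul (.c (s1 - 100)) (.v 0))) (.v 1)) (.c (100000 * a1)),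
   .sub (.mul (.c s1) (.pow (.v 1) 2)) (.mul (.c (200000 * a1)) (.v 0))]

def goK1 : Ex := .sub (.v 2) (.c 1)

def goK2 : Ex := .v 3

def goK3 : Ex := .sub (.sub (.mul (.mul (.c 4) (.v 3)) (.sub (.add (.mul (.v 2) (.v 1))
  (.mul (.c 1000) (.pow (.v 1) 2))) (.mul (.c 10) (.v 3)))) (.mul (.c 100000) (.pow (.v 1) 4))) (.c 1)

theorem KFok_of_box {B s A U : ℝ} {b1 s1 u1 a1 : ℤ} {t1 t2 t3 : Tr} (A0 : 0 ≤ A) (hs1 : 1 ≤ s)
    (U0 : 0 < U) (hb : (b1 : ℝ) = 1000 * B) (hs : (s1 : ℝ) = 100 * s) (hu : (u1 : ℝ) = 100 * U)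
    (ha : (a1 : ℝ) = A) (l1 : 0 < s - A / 2048) (l2 : 0 < B + (s - 1) * 16)
    (l3 : 1 < 4 * (s - A / 2048) * (B + (s - 1) * 16 + 1 - s))
    (k1 : chk (prK b1 s1 u1 a1) goK1 [] t1 [⟨0, 160, 1⟩] = true)
    (k2 : chk (prK b1 s1 u1 a1) goK2 [] t2 [⟨0, 160, 1⟩] = true)
    (k3 : chk (prK b1 s1 u1 a1) goK3 [] t3 [⟨0, 160, 1⟩] = true) :
    KFok B s (1 / 10) A U := by
  -- small `w`
  have small : ∀ w : ℝ, 0 ≤ w → w ≤ 16 → 0 < B + (s - 1) * w + A / (U + w ^ 2) ∧
      0 ≤ s - 2 * A * w / (U + w ^ 2) ^ 2 ∧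
      1 < 4 * (s - 2 * A * w / (U + w ^ 2) ^ 2) *
        (B + (s - 1) * w + A / (U + w ^ 2) + 1 - (s - 2 * A * w / (U + w ^ 2) ^ 2)) := by
    intro w hw hw16
    have hQ : 0 < U + w ^ 2 := by positivity
    have hbox : InB [⟨0, 160, 1⟩] [10 * w] := by
      refine ⟨⟨?_, ?_⟩, trivial⟩ <;> push_cast <;> linarith
    set Q := U + w ^ 2 with hQd
    have E1 : den ([10 * w] : List ℝ) (.add (.c u1) (.pow (.v 0) 2)) = 100 * Q := by
      simp only [den, List.getD_cons_zero]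
      rw [hu, hQd]
      ring
    have E2 : den ([10 * w, 100 * Q] : List ℝ) (.add (.mul (.add (.c b1) (.mul (.c (s1 - 100)) (.v 0)))
        (.v 1)) (.c (100000 * a1))) = 10 ^ 5 * ((B + (s - 1) * w) * Q + A) := by
      simp only [den, List.getD_cons_zero, List.getD_cons_succ]
      push_cast
      rw [hb, hs, ha]
      ring
    have E3 : den ([10 * w, 100 * Q, 10 ^ 5 * ((B + (s - 1) * w) * Q + A)] : List ℝ)
        (.sub (.mul (.c s1) (.pow (.v 1) 2)) (.mul (.c (200000 * a1)) (.v 0))) =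
        10 ^ 6 * (s * Q ^ 2 - 2 * A * w) := by
      simp only [den, List.getD_cons_zero, List.getD_cons_succ]
      push_cast
      rw [hs, ha]
      ring
    have hrun : run [10 * w] (prK b1 s1 u1 a1) = [10 * w, 100 * Q,
        10 ^ 5 * ((B + (s - 1) * w) * Q + A), 10 ^ 6 * (s * Q ^ 2 - 2 * A * w)] := by
      unfold prK
      rw [run, E1]
      simp only [List.cons_append, List.nil_append]
      rw [run, E2]
      simp only [List.cons_append, List.nil_append]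
      rw [run, E3]
      rfl
    have g1 := box_nonneg _ _ _ t1 _ k1 [10 * w] hbox (by simp)
    have g2 := box_nonneg _ _ _ t2 _ k2 [10 * w] hbox (by simp)
    have g3 := box_nonneg _ _ _ t3 _ k3 [10 * w] hbox (by simp)
    rw [hrun] at g1 g2 g3
    simp only [den, List.getD_cons_zero, List.getD_cons_succ, goK1, goK2, goK3] at g1 g2 g3
    push_cast at g1 g2 g3
    have f1 : B + (s - 1) * w + A / Q = ((B + (s - 1) * w) * Q + A) / Q := by
      field_simp
    have f2 : s - 2 * A * w / Q ^ 2 = (s * Q ^ 2 - 2 * A * w) / Q ^ 2 := by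
      field_simp
    rw [f1, f2]
    set c := (B + (s - 1) * w) * Q + A
    set t := s * Q ^ 2 - 2 * A * w
    have f3 : 4 * (t / Q ^ 2) * (c / Q + 1 - t / Q ^ 2) = 4 * t * (c * Q + Q ^ 2 - t) / Q ^ 4 := by
      field_simp
    rw [f3]
    refine ⟨div_pos (by linarith) hQ, div_nonneg (by linarith) (by positivity), ?_⟩
    rw [lt_div_iff₀ (by positivity)]
    nlinarith
  -- large `w`
  have large : ∀ w : ℝ, 16 ≤ w → 0 < B + (s - 1) * w + A / (U + w ^ 2) ∧
      0 ≤ s - 2 * A * w / (U + w ^ 2) ^ 2 ∧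
      1 < 4 * (s - 2 * A * w / (U + w ^ 2) ^ 2) *
        (B + (s - 1) * w + A / (U + w ^ 2) + 1 - (s - 2 * A * w / (U + w ^ 2) ^ 2)) := by
    intro w hw
    have hw0 : 0 < w := by linarith
    have hQ : 0 < U + w ^ 2 := by positivity
    have hA : 0 ≤ A / (U + w ^ 2) := by positivity
    have h1 : (s - 1) * 16 ≤ (s - 1) * w := mul_le_mul_of_nonneg_left hw (by linarith)
    have h2 : 0 ≤ 2 * A * w / (U + w ^ 2) ^ 2 := by positivity
    have h3 : 2 * A * w / (U + w ^ 2) ^ 2 ≤ A / 2048 := by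
      rw [div_le_div_iff₀ (by positivity) (by norm_num)]
      have h4 : w ^ 2 ≤ U + w ^ 2 := by linarith
      have h5 : (w ^ 2) ^ 2 ≤ (U + w ^ 2) ^ 2 := pow_le_pow_left₀ (by positivity) h4 2
      have h6 : 4096 * w ≤ (w ^ 2) ^ 2 := by
        have : 16 ^ 3 ≤ w ^ 3 := pow_le_pow_left₀ (by norm_num) hw 3
        have e : (w ^ 2) ^ 2 = w ^ 3 * w := by ring
        rw [e]
        nlinarith
      have := mul_le_mul_of_nonneg_left (h6.trans h5) A0
      linarith
    refine ⟨by linarith, by linarith, ?_⟩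
    have h7 : s - A / 2048 ≤ s - 2 * A * w / (U + w ^ 2) ^ 2 := by linarith
    have h8 : B + (s - 1) * 16 + 1 - s ≤ B + (s - 1) * w + A / (U + w ^ 2) + 1
        - (s - 2 * A * w / (U + w ^ 2) ^ 2) := by linarith
    have h9 : 0 < B + (s - 1) * 16 + 1 - s := by
      by_contra hc
      have := mul_nonpos_of_nonneg_of_nonpos (by positivity : 0 ≤ 4 * (s - A / 2048)) (not_lt.1 hc)
      linarith
    have h10 := mul_le_mul h7 h8 h9.le (by linarith)
    linarith
  have all : ∀ w : ℝ, 1 / 10 ≤ w → _ := fun w hw => (le_total w 16).elim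
    (fun h => small w (by linarith) h) (fun h => large w h)
  exact ⟨by norm_num, U0, fun w hw => (all w hw).1, fun w hw => (all w hw).2.1,
    fun w hw => (all w hw).2.2⟩

end Pool.Agent.FPX.VST
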