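import Mathlib
import Pool.Agent.FPX.AZW

/-! The exact value of the form at `aK`, `aK'` in rotated complex coordinates. -/

open MeasureTheory Set Filter Topology

noncomputable section

namespace Pool.Agent.FPX.XCR

open Pool.Agent.EWD Pool.Agent.FPX Pool.Agent.FPX.AZV

/-- the coefficient of `1` -/
def A0 (P : ℂ) (y w t : ℝ) : ℂ := ⟨P.re + 2/3*y*w*Real.sin t^2, P.im⟩

/-- the coefficient of `ζ` -/
def A1 (y c t : ℝ) : ℂ := ⟨4/3*y*c*(Real.sin t*Real.cos t), 0⟩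

/-- the coefficient of `ζ²` -/
def A2 (Q : ℂ) (y w t : ℝ) : ℂ :=
  ⟨-(1-8/3*Real.sin t^2)*Q.re + 2/3*y*w*Real.sin t^2, (1-8/3*Real.sin t^2)*Q.im⟩

/-- `(12/π) L1` -/
def MB (P Q : ℂ) (y w c : ℝ) : ℝ := 3 / Real.pi ^ 2 * ∫ t in (0 : ℝ)..Real.pi,
  ∫ β in (-Real.pi)..Real.pi, ‖zz (A0 P y w t) (A1 y c t) (A2 Q y w t) β‖

/-- a frame adapted to `v` and `u` -/
theorem frm_adapt {v u : E3} (hv : ‖v‖ = 1) (hu : ‖u‖ = 1) : ∃ (m : E3) (w : ℝ),
    Frm m (crs v m) v ∧ 0 ≤ w ∧ w ^ 2 + (inner ℝ v u : ℝ) ^ 2 = 1 ∧ (inner ℝ m u : ℝ) = w ∧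
      (inner ℝ (crs v m) u : ℝ) = 0 := by
  have h2 : ‖prj v u‖ ^ 2 = 1 - (inner ℝ v u : ℝ) ^ 2 := by
    have := norm_prj_sq hv u
    rw [hu, one_pow] at this
    linarith
  rcases (norm_nonneg (prj v u)).eq_or_lt with h0 | h0
  · obtain ⟨m, hF⟩ := exists_frm hv
    rw [← h0] at h2
    have hp := frm_par hF u
    rw [hu] at hp
    have e : (inner ℝ m u : ℝ) ^ 2 + (inner ℝ (crs v m) u : ℝ) ^ 2 = 0 := by nlinarith
    have e1 : (inner ℝ m u : ℝ) = 0 := by
      have : (inner ℝ m u : ℝ) ^ 2 = 0 := by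
        nlinarith [sq_nonneg (inner ℝ m u : ℝ), sq_nonneg (inner ℝ (crs v m) u : ℝ)]
      exact pow_eq_zero_iff (two_ne_zero) |>.1 this
    have e2 : (inner ℝ (crs v m) u : ℝ) = 0 := by
      have : (inner ℝ (crs v m) u : ℝ) ^ 2 = 0 := by
        nlinarith [sq_nonneg (inner ℝ m u : ℝ), sq_nonneg (inner ℝ (crs v m) u : ℝ)]
      exact pow_eq_zero_iff (two_ne_zero) |>.1 this
    exact ⟨m, 0, hF, le_rfl, by nlinarith, e1, e2⟩
  · obtain ⟨w, hw⟩ : ∃ w, w = ‖prj v u‖ := ⟨_, rfl⟩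
    rw [← hw] at h0 h2
    obtain ⟨m, hm⟩ : ∃ m : E3, m = (w⁻¹ : ℝ) • prj v u := ⟨_, rfl⟩
    have hm1 : ‖m‖ = 1 := by
      rw [hm, norm_smul, norm_inv, Real.norm_eq_abs, abs_of_pos h0, ← hw, inv_mul_cancel₀ h0.ne']
    have hmv : inner ℝ v m = (0 : ℝ) := by
      rw [hm, inner_smul_right, prj_perp hv, mul_zero]
    have hF : Frm m (crs v m) v := by
      refine ⟨hm1, ?_, hv, ?_, ?_, ?_⟩
      · have := norm_crs hv hmv
        rw [hm1, one_pow] at this
        nlinarith [norm_nonneg (crs v m)]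
      · exact inner_crs_right v m
      · rw [real_inner_comm]
        exact hmv
      · rw [real_inner_comm]
        exact inner_crs_left v m
    have hum : u = w • m + (inner ℝ v u : ℝ) • v := by
      rw [hm, smul_smul, mul_inv_cancel₀ h0.ne', one_smul]
      unfold prj
      abel
    refine ⟨m, w, hF, h0.le, by linarith, ?_, ?_⟩
    · rw [hum, inner_add_right, inner_smul_right, inner_smul_right, real_inner_self_eq_norm_sq, hm1,
        hF.mv]
      ring
    · have h3 : (inner ℝ (crs v m) m : ℝ) = 0 := by rw [real_inner_comm]; exact hF.mn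
      rw [hum, inner_add_right, inner_smul_right, inner_smul_right, h3, hF.nv]
      ring

theorem zz_rot {e : ℂ} (he : ‖e‖ = 1) (a b c : ℂ) (β : ℝ) :
    ‖zz (e * a) (e * b) (e * c) β‖ = ‖zz a b c β‖ := by
  have : zz (e * a) (e * b) (e * c) β = e * zz a b c β := by
    unfold zz
    ring
  rw [this, norm_mul, he, one_mul]

/-- **the exact value** in rotated coordinates -/
theorem L1_cx {v u a b : E3} (hv : ‖v‖ = 1) (hu : ‖u‖ = 1) {c1 c2 : ℝ} (hc : c1 ^ 2 + c2 ^ 2 = 1) :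
    ∃ (P Q : ℂ) (w : ℝ), ‖P‖ = ‖qp v a b‖ ∧ ‖Q‖ = ‖qm v a b‖ ∧ 0 ≤ w ∧
      w ^ 2 + (inner ℝ v u : ℝ) ^ 2 = 1 ∧
      (inner ℝ (qp v a b) (qp v (c1 • u) (c2 • u)) : ℝ) = w / 2 * P.re ∧
      (inner ℝ (qm v a b) (qm v (c1 • u) (c2 • u)) : ℝ) = w / 2 * Q.re ∧
      ∀ y : ℝ, 12 / Real.pi * L1 v (crs v b) (-crs v a) (aK v a b (y • (c1 • u)))
        (aK' v a b (y • (c2 • u))) = MB P Q y w (inner ℝ v u) := by
  obtain ⟨m, w, hF, hw0, hw1, hmu, hnu⟩ := frm_adapt hv hu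
  obtain ⟨c, hcd⟩ : ∃ c, c = (inner ℝ v u : ℝ) := ⟨_, rfl⟩
  obtain ⟨p1, p2, q1, q2⟩ := cmp hF a b
  obtain ⟨b1, b2⟩ := crs_cmp hF b
  obtain ⟨a1, a2⟩ := crs_cmp hF a
  obtain ⟨r1, r2⟩ := crs_cmp hF (qm v a b)
  obtain ⟨g1, g2, g3, g4⟩ := cmp hF (c1 • u) (c2 • u)
  simp only [inner_smul_right, hmu, hnu, mul_zero, sub_zero, add_zero, zero_add, zero_sub] at g1 g2 g3 g4
  have np := frm_norm' hF (perp_p hv a b).1
  have nq := frm_norm' hF (perp_p hv a b).2
  refine ⟨⟨c1 * inner ℝ m (qp v a b) + c2 * inner ℝ (crs v m) (qp v a b),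
      c1 * inner ℝ (crs v m) (qp v a b) - c2 * inner ℝ m (qp v a b)⟩,
    ⟨c1 * inner ℝ m (qm v a b) - c2 * inner ℝ (crs v m) (qm v a b),
      c1 * inner ℝ (crs v m) (qm v a b) + c2 * inner ℝ m (qm v a b)⟩, w, ?_, ?_, hw0, hw1, ?_, ?_, ?_⟩
  · refine (pow_left_inj₀ (norm_nonneg _) (norm_nonneg _) two_ne_zero).1 ?_
    rw [AZT.sqn, np]
    linear_combination ((inner ℝ m (qp v a b) : ℝ) ^ 2 + (inner ℝ (crs v m) (qp v a b) : ℝ) ^ 2) * hc
  · refine (pow_left_inj₀ (norm_nonneg _) (norm_nonneg _) two_ne_zero).1 ?_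
    rw [AZT.sqn, nq]
    linear_combination ((inner ℝ m (qm v a b) : ℝ) ^ 2 + (inner ℝ (crs v m) (qm v a b) : ℝ) ^ 2) * hc
  · rw [frm_inner hF (perp_p hv a b).1, g1, g2]
    ring
  · rw [frm_inner hF (perp_p hv a b).2, g3, g4]
    ring
  · intro y
    have oN : inner ℝ v (crs v b) = (0 : ℝ) := inner_crs_left v b
    have oN' : inner ℝ v (-crs v a) = (0 : ℝ) := by
      rw [inner_neg_right, inner_crs_left, neg_zero]
    have hang := L1_ang (K := aK v a b (y • (c1 • u))) (K' := aK' v a b (y • (c2 • u))) hF oN oN'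
    have k0 : (inner ℝ m (aK v a b (y • (c1 • u))) : ℝ) =
        -(8/3 * inner ℝ m (qm v a b)) - 4/3 * (y * (c1 * w)) := by
      unfold aK
      simp only [inner_sub_right, inner_neg_right, inner_smul_right, hmu]
    have k1 : (inner ℝ (crs v m) (aK v a b (y • (c1 • u))) : ℝ) =
        -(8/3 * inner ℝ (crs v m) (qm v a b)) := by
      unfold aK
      simp only [inner_sub_right, inner_neg_right, inner_smul_right, hnu]
      ring
    have l0 : (inner ℝ m (aK' v a b (y • (c2 • u))) : ℝ) =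
        8/3 * inner ℝ (crs v m) (qm v a b) - 4/3 * (y * (c2 * w)) := by
      unfold aK'
      simp only [inner_sub_right, inner_neg_right, inner_smul_right, hmu, r1]
      ring
    have l1 : (inner ℝ (crs v m) (aK' v a b (y • (c2 • u))) : ℝ) =
        -(8/3 * inner ℝ m (qm v a b)) := by
      unfold aK'
      simp only [inner_sub_right, inner_neg_right, inner_smul_right, hnu, r2]
      ring
    have k2 : (inner ℝ v (aK v a b (y • (c1 • u))) : ℝ) = -(4/3 * (y * (c1 * c))) := by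
      rw [inner_aK hv, hcd]
      simp only [inner_smul_right]
    have l2 : (inner ℝ v (aK' v a b (y • (c2 • u))) : ℝ) = -(4/3 * (y * (c2 * c))) := by
      rw [inner_aK', hcd]
      simp only [inner_smul_right]
    rw [k0, k1, l0, l1, k2, l2] at hang
    simp only [inner_neg_right, b1, b2, a1, a2] at hang
    have h12 : 12 / Real.pi * L1 v (crs v b) (-crs v a) (aK v a b (y • (c1 • u)))
        (aK' v a b (y • (c2 • u)))
        = 3 / Real.pi ^ 2 * (4 * Real.pi * L1 v (crs v b) (-crs v a) (aK v a b (y • (c1 • u)))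
        (aK' v a b (y • (c2 • u)))) := by
      have hpi := Real.pi_pos
      field_simp
      ring
    rw [h12, hang]
    unfold MB
    congr 1
    have he : ‖(⟨c1, -c2⟩ : ℂ)‖ = 1 := by
      refine (pow_left_inj₀ (norm_nonneg _) zero_le_one two_ne_zero).1 ?_
      rw [AZT.sqn]
      simp only
      linarith [hc]
    refine intervalIntegral.integral_congr fun t _ => intervalIntegral.integral_congr fun β _ => ?_
    rw [← zz_rot he]
    congr 2
    · unfold A0 ca0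
      rw [p1, p2]
      refine Complex.ext ?_ ?_ <;> simp only [Complex.mul_re, Complex.mul_im]
      · linear_combination (2/3 * y * w * Real.sin t ^ 2) * hc
      · ring
    · unfold A1 ca1
      refine Complex.ext ?_ ?_ <;> simp only [Complex.mul_re, Complex.mul_im, ← hcd]
      · linear_combination (4/3 * y * c * (Real.sin t * Real.cos t)) * hc
      · ring
    · unfold A2 ca2
      rw [q1, q2]
      refine Complex.ext ?_ ?_ <;> simp only [Complex.mul_re, Complex.mul_im]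
      · linear_combination (2/3 * y * w * Real.sin t ^ 2) * hc
      · ring

/-- **the exact member**: the value of the form -/
theorem member {v u a b : E3} (hv : ‖v‖ = 1) (hu : ‖u‖ = 1) (ha : inner ℝ v a = (0 : ℝ))
    (hb : inner ℝ v b = (0 : ℝ)) {c1 c2 : ℝ} (hc : c1 ^ 2 + c2 ^ 2 = 1) :
    ∃ (P Q : ℂ) (w : ℝ), ‖P‖ = ‖qp v a b‖ ∧ ‖Q‖ = ‖qm v a b‖ ∧ 0 ≤ w ∧
      w ^ 2 + (inner ℝ v u : ℝ) ^ 2 = 1 ∧ ∀ (X Y : E3) (y : ℝ), QLow v a b X Y
        (8 * inner ℝ (qm v a b) (qm v X Y)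
          + 2 * y * (c1 * inner ℝ u (X - a) + c2 * inner ℝ u (Y - b))
          + 3 + 3 * ‖P‖ ^ 2 - 3 * ‖Q‖ ^ 2 + 2 * y * w * (P.re + Q.re)
          - MB P Q y w (inner ℝ v u)) := by
  obtain ⟨P, Q, w, hP, hQ, hw0, hw1, e1, e2, hL⟩ := L1_cx hv hu (a := a) (b := b) hc
  refine ⟨P, Q, w, hP, hQ, hw0, hw1, fun X Y y => ⟨aK v a b (y • (c1 • u)),
    aK' v a b (y • (c2 • u)), ?_⟩⟩
  rw [hL y]
  have hq := pair_q hv a b X Y
  have hd := pair_d hv ha hb (y • (c1 • u)) (y • (c2 • u))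
  have hJ := jac_pm hv ha hb
  have s1 : (inner ℝ X (aK v a b (y • (c1 • u))) : ℝ)
      = -(8/3 * inner ℝ X (qm v a b)) - 4/3 * inner ℝ (y • (c1 • u)) X := by
    unfold aK
    rw [inner_sub_right, inner_neg_right, inner_smul_right, inner_smul_right,
      real_inner_comm X (y • (c1 • u))]
  have s2 : (inner ℝ Y (aK' v a b (y • (c2 • u))) : ℝ)
      = -(8/3 * inner ℝ Y (crs v (qm v a b))) - 4/3 * inner ℝ (y • (c2 • u)) Y := by
    unfold aK'
    rw [inner_sub_right, inner_neg_right, inner_smul_right, inner_smul_right,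
      real_inner_comm Y (y • (c2 • u))]
  rw [qp_smul, qm_smul, inner_smul_right, inner_smul_right, e1, e2] at hd
  rw [s1, s2, hJ, hP, hQ]
  simp only [real_inner_smul_left, inner_sub_right] at hd ⊢
  linarith [hq, hd]

end Pool.Agent.FPX.XCR
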