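import Mathlib
import Pool.Agent.FPX.XIU

/-
XIV (helper22): the stereographic displacement `η = ξ / (1 - |ξ|²/4)` as an admissible displacement of the
DIRECTION map of XIM (helper47's `stx`).
-/

open MeasureTheory Set Filter Topology
open scoped ENNReal NNReal ComplexConjugate

noncomputable section

namespace Pool.Agent.FPX.XIM

open Real Pool.Agent.FPX.UMP Pool.Agent.FPX.UMQ Pool.Agent.FPX.UXA
open Pool.Agent.FPX.F54 (pr X1 X2 dX1 dX2 X_lt umap)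
open Pool.Agent.FPX.S54 (cc YY vt Fv)

/-- the factor `1 / (1 - |ξ|²/4)` -/
def gq (ξ : (ℝ → ℝ) → ℂ) (f : ℝ → ℝ) : ℝ := 1 / (1 - ‖ξ f‖ ^ 2 / 4)

/-- its derivative -/
def dgq (ξ : (ℝ → ℝ) → ℂ) (dξ : (ℝ → ℝ) → (ℝ → ℝ) → ℂ) (f h : ℝ → ℝ) : ℝ :=
  (conj (ξ f) * dξ f h).re / 2 / (1 - ‖ξ f‖ ^ 2 / 4) ^ 2

theorem CF.inv {Z : (ℝ → ℝ) → ℂ} {dZ : (ℝ → ℝ) → (ℝ → ℝ) → ℂ} (H : CF Z dZ) (h0 : ∀ f, Ef f → Z f ≠ 0) :
    CF (fun f => (Z f)⁻¹) (fun f h => -dZ f h / Z f ^ 2) :=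
  CF.of (fun _ _ _ a b c => (H.tds a b c).inv₀ (h0 _ b))
    fun _ _ _ _ c d e => (H.der c d e).inv (h0 _ c.ef)

theorem normq (z w : ℂ) : (conj w * z + conj z * w) = ((2 * (conj z * w).re : ℝ) : ℂ) := by
  apply Complex.ext
  · simp
    ring
  · simp
    ring

section

variable {ξ : (ℝ → ℝ) → ℂ} {dξ : (ℝ → ℝ) → (ℝ → ℝ) → ℂ} {A B : ℝ}

theorem one_sub_pos (H : Mo ξ dξ A B) (hA : A ≤ 1) {f : ℝ → ℝ} (hf : Ef f) : 3 / 4 ≤ 1 - ‖ξ f‖ ^ 2 / 4 := by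
  have h1 : ‖ξ f‖ ≤ 1 := (H.le_one hf).trans hA
  have h2 := norm_nonneg (ξ f)
  nlinarith

theorem mu_gq (H : Mo ξ dξ A B) (hA : A ≤ 1) :
    Mu (fun f => ((gq ξ f : ℝ) : ℂ)) (fun f h => ((dgq ξ dξ f h : ℝ) : ℂ)) (4 / 3) B where
  cf := by
    have h1 : CF (fun f => 1 + (-(1 / 4 : ℂ)) * (conj (ξ f) * ξ f))
        (fun f h => (-(1 / 4 : ℂ)) * (conj (dξ f h) * ξ f + conj (ξ f) * dξ f h)) := by
      have h2 := H.cf.cj.mul H.cf
      refine CF.of (fun _ _ _ a b c => ((h2.tds a b c).const_mul _).const_add _) ?_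
      exact fun _ _ _ _ c d e => ((h2.der c d e).const_mul _).const_add _
    have e : ∀ f, (1 + (-(1 / 4 : ℂ)) * (conj (ξ f) * ξ f)) = ((1 - ‖ξ f‖ ^ 2 / 4 : ℝ) : ℂ) := fun f => by
      rw [Complex.conj_mul']
      push_cast
      ring
    have h3 := h1.inv fun f hf => by
      rw [e f]
      have := one_sub_pos H hA hf
      exact Complex.ofReal_ne_zero.2 (by positivity)
    refine h3.congr (fun f _ => ?_) fun f h _ => ?_
    · rw [e f]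
      unfold gq
      push_cast
      rw [one_div]
    · rw [e f, normq]
      unfold dgq
      push_cast
      ring
  G0 := by norm_num
  G0' := H.B0
  le := fun f hf => by
    have h1 := one_sub_pos H hA hf
    rw [Complex.norm_real, Real.norm_eq_abs]
    unfold gq
    rw [abs_of_nonneg (by positivity), div_le_iff₀ (by linarith)]
    linarith
  bd := fun f h D hf hm hD hh => by
    have h1 := one_sub_pos H hA hf
    have h2 : ‖ξ f‖ ≤ 1 := (H.le_one hf).trans hA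
    have h3 := H.bd f h D hf hm hD hh
    have h4 : |(conj (ξ f) * dξ f h).re| ≤ B * D := by
      refine (Complex.abs_re_le_norm _).trans ?_
      rw [norm_mul, Complex.norm_conj]
      have := mul_le_mul h2 h3 (norm_nonneg _) zero_le_one
      linarith
    have h5 : (9 / 16 : ℝ) ≤ (1 - ‖ξ f‖ ^ 2 / 4) ^ 2 := by
      have := pow_le_pow_left₀ (by norm_num) h1 2
      norm_num at this
      exact this
    rw [Complex.norm_real, Real.norm_eq_abs]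
    unfold dgq
    rw [abs_div, abs_div, abs_of_pos (by norm_num : (0 : ℝ) < 2),
      abs_of_pos (by positivity : 0 < (1 - ‖ξ f‖ ^ 2 / 4) ^ 2), div_le_iff₀ (by positivity)]
    have h6 : 0 ≤ B * D := (abs_nonneg _).trans h4
    nlinarith [mul_le_mul_of_nonneg_left h5 h6]

/-- **the stereographic displacement is an admissible displacement of the direction map** -/
theorem disp_st (H : Mo ξ dξ A B) (hA : A ≤ 1) (hn : ∀ f, Ef f → ξ (fun t => -f t) = -ξ f)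
    {η : (ℝ → ℝ) → ℂ} {dη : (ℝ → ℝ) → (ℝ → ℝ) → ℂ} (e1 : ∀ f, Ef f → η f = ξ f * ((gq ξ f : ℝ) : ℂ))
    (e2 : ∀ f h, Ef f → dη f h = dξ f h * ((gq ξ f : ℝ) : ℂ) + ξ f * ((dgq ξ dξ f h : ℝ) : ℂ)) :
    Disp η dη (4 / 3 * A) (B * A + 4 / 3 * B) := by
  have h1 := Mo.mulf (mu_gq H hA) H
  have h2 : CF η dη := h1.cf.congr (fun f hf => by rw [e1 f hf]; ring) fun f h hf => by
    rw [e2 f h hf]
    ring
  refine ⟨Mo.of_cf h2 h1.A0 h1.B0 (fun f hf => ?_) (fun f h D hf hm hD hh => ?_), fun f hf => ?_,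
    fun f hf => ?_⟩
  · have := h1.le f hf
    rw [mul_comm] at this
    rw [e1 f hf]
    exact this
  · have := h1.bd f h D hf hm hD hh
    rw [e2 f h hf, show dξ f h * ((gq ξ f : ℝ) : ℂ) + ξ f * ((dgq ξ dξ f h : ℝ) : ℂ)
      = ((dgq ξ dξ f h : ℝ) : ℂ) * ξ f + ((gq ξ f : ℝ) : ℂ) * dξ f h by ring]
    exact this
  · have hf' : Ef fun t => -f t := F54.Ef_neg hf
    rw [e1 _ hf', e1 f hf, hn f hf]
    unfold gq
    rw [hn f hf, norm_neg]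
    ring
  · have h3 := (Mo.dispS H hA hn).pos f hf
    have h4 := one_sub_pos H hA hf
    rw [e1 f hf, ← mul_assoc, Complex.re_mul_ofReal]
    unfold gq
    rw [mul_one_div, div_lt_iff₀ (by linarith)]
    exact h3

end

/-- **the instance for the eight term displacement** -/
theorem disp_st_xi8 {κ κ' : Fin 8 → ℝ → ℝ} {G G' : Fin 8 → ℝ} (H : ∀ j, Rad (κ j) (κ' j) (G j) (G' j)) {A : ℝ}
    (hA0 : 0 ≤ A) (hA1 : A ≤ 1) (hle : ∀ f, Ef f → ‖xi8 κ f‖ ≤ A * cf f)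
    {η : (ℝ → ℝ) → ℂ} {dη : (ℝ → ℝ) → (ℝ → ℝ) → ℂ} (e1 : ∀ f, Ef f → η f = xi8 κ f * ((gq (xi8 κ) f : ℝ) : ℂ))
    (e2 : ∀ f h, Ef f → dη f h = dxi8 κ κ' f h * ((gq (xi8 κ) f : ℝ) : ℂ)
      + xi8 κ f * ((dgq (xi8 κ) (dxi8 κ κ') f h : ℝ) : ℂ)) :
    ∃ B, Disp η dη (4 / 3 * A) B := by
  obtain ⟨A', B, M⟩ := mo_xi8 H
  exact ⟨_, disp_st ⟨M.re, M.im, hA0, M.B0, hle, M.bd⟩ hA1 (fun f hf => xi8_neg κ hf) e1 e2⟩

end Pool.Agent.FPX.XIM
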