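import Mathlib
import Pool.Agent.FPX.XTB

/-
XIX (helper8): the deviation of `xi12` with the EXACT SQUARE of the terms of degree one (`r₃, conj r₃, r₅, conj r₅`):
the list `Psi17` = the 42 terms of `Psi12` and `conj A · {r₃ r₅, conj r₃ conj r₅, r₅², |r₅|², conj r₅²}`; only the
products with the terms of degree two are left in the remainder `tau17`.
-/

open MeasureTheory Set Filter Topology Complex
open scoped ComplexConjugate

noncomputable section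

namespace Pool.Agent.FPX.BU

open Pool.Agent.FPX.BTG (Sta Cls mo aK bK dev)
open Pool.Agent.FPX.BTN (va e1 nf ef bw)
open Pool.Agent.FPX.F54 (X1 X2 X_lt)
open Pool.Agent.FPX.OMS (rF cF cF_eq)
open Pool.Agent.FPX.CERQ (xT)
open Pool.Agent.FPX.SYS (CE)
open Pool.Agent.FPX.OMR (Re)
open Pool.Agent.FPX.XIM (xi8 xi12 x4)
open Pool.Agent.FPX.XIP
open Pool.Agent.FPX.BTI (kap dkap Mm)

/-- the new terms -/
def P5 : PsiH (Fin 5) :=
  ![fun m A _ _ _ _ _ _ _ _ => conj A * (m 0 * m 1), fun m A _ _ _ _ _ _ _ _ => conj A * (conj (m 0) * conj (m 1)),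
    fun m A _ _ _ _ _ _ _ _ => conj A * m 1 ^ 2, fun m A _ _ _ _ _ _ _ _ => conj A * (m 1 * conj (m 1)),
    fun m A _ _ _ _ _ _ _ _ => conj A * conj (m 1) ^ 2]

/-- **the terms of the deviation** (slots 42 - 46 are the new ones) -/
def Psi17 : PsiH (Fin (42 + 5)) := Fin.append Psi12 P5

/-- their a priori bounds -/
def d17 : Fin (42 + 5) → ℝ := Fin.append d12 ![1 / 4, 1 / 4, 5 / 8, 5 / 8, 5 / 8]

theorem psi17_l (i : Fin 42) : Psi17 (Fin.castAdd 5 i) = Psi12 i := Fin.append_left _ _ _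

theorem psi17_r (i : Fin 5) : Psi17 (Fin.natAdd 42 i) = P5 i := Fin.append_right _ _ _

theorem d17_l (i : Fin 42) : d17 (Fin.castAdd 5 i) = d12 i := Fin.append_left _ _ _

theorem d17_r (i : Fin 5) : d17 (Fin.natAdd 42 i) = (![1 / 4, 1 / 4, 5 / 8, 5 / 8, 5 / 8] : Fin 5 → ℝ) i :=
  Fin.append_right _ _ _

theorem psiLe17 : PsiLe Psi17 d17 := by
  intro m A B N M S R G P O h0 h1 h2 h3 h4 h5 hA hB hN hM hS hR hG hP hO q
  have H12 := psiLe12 m A B N M S R G P O h0 h1 h2 h3 h4 h5 hA hB hN hM hS hR hG hP hO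
  have key : ∀ (Z y : ℂ) (a b c : ℝ), ‖Z‖ ≤ a → ‖y‖ ≤ b → 0 ≤ a → a * b ≤ c → ‖Z * y‖ ≤ c := by
    intro Z y a b c hZ hy ha hc
    rw [norm_mul]
    exact (mul_le_mul hZ hy (norm_nonneg _) ha).trans hc
  have hA' : ‖conj A‖ ≤ 8 / 5 := by rwa [Complex.norm_conj]
  have c0 : ‖conj (m 0)‖ ≤ 1 / 4 := by rwa [Complex.norm_conj]
  have c1 : ‖conj (m 1)‖ ≤ 31 / 50 := by rwa [Complex.norm_conj]
  refine Fin.addCases (m := 42) (n := 5) (fun i => ?_) (fun i => ?_) q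
  · rw [psi17_l, d17_l]
    exact H12 i
  · rw [psi17_r, d17_r]
    fin_cases i
    · exact key _ _ (8 / 5) (31 / 200) _ hA' (key _ _ (1 / 4) (31 / 50) _ h0 h1 (by norm_num) (by norm_num))
        (by norm_num) (by show _ ≤ (1 / 4 : ℝ); norm_num)
    · exact key _ _ (8 / 5) (31 / 200) _ hA' (key _ _ (1 / 4) (31 / 50) _ c0 c1 (by norm_num) (by norm_num))
        (by norm_num) (by show _ ≤ (1 / 4 : ℝ); norm_num)
    · refine key _ _ (8 / 5) ((31 / 50) ^ 2) _ hA' ?_ (by norm_num) (by show _ ≤ (5 / 8 : ℝ); norm_num)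
      rw [norm_pow]
      exact pow_le_pow_left₀ (norm_nonneg _) h1 2
    · exact key _ _ (8 / 5) ((31 / 50) ^ 2) _ hA' (key _ _ (31 / 50) (31 / 50) _ h1 c1 (by norm_num) (by norm_num))
        (by norm_num) (by show _ ≤ (5 / 8 : ℝ); norm_num)
    · refine key _ _ (8 / 5) ((31 / 50) ^ 2) _ hA' ?_ (by norm_num) (by show _ ≤ (5 / 8 : ℝ); norm_num)
      rw [norm_pow]
      exact pow_le_pow_left₀ (norm_nonneg _) c1 2

/-- half of the linear part of `xi12` in the real frame -/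
def lin12 (k : Fin 8 → ℝ → ℝ) (n : Fin 4 → ℝ → ℝ) (s c : ℝ) (a b : ℂ) : ℂ :=
  ((c * s * k 0 c : ℝ) : ℂ) * a + ((c * s ^ 3 * k 1 c : ℝ) : ℂ) * conj a + ((c * s ^ 3 * n 0 c : ℝ) : ℂ) * b
    + ((c * s ^ 5 * n 1 c : ℝ) : ℂ) * conj b

/-- the corrections of the slots `|r₃|², conj r₃², r₃ conj r₅, conj r₃ r₅` with `conj A` -/
def e17 (k : Fin 8 → ℝ → ℝ) (n : Fin 4 → ℝ → ℝ) (s c : ℝ) : Fin 42 → ℝ :=
  ![0, 0, 0, 0, 0, 0, 0, 0, 0, 0, 0, 2 * (c * s * k 0 c) * (c * s ^ 3 * k 1 c), 0, (c * s ^ 3 * k 1 c) ^ 2,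
    0, 0, 0, 0, 0, 0, 0, 0, 0, 0, 0, 0, 0, 0, 0, 0, 0, 0, 0, 0,
    2 * (c * s * k 0 c) * (c * s ^ 5 * n 1 c), 2 * (c * s ^ 3 * k 1 c) * (c * s ^ 3 * n 0 c), 0, 0, 0, 0, 0, 0]

/-- the coefficients of the new terms -/
def f17 (k : Fin 8 → ℝ → ℝ) (n : Fin 4 → ℝ → ℝ) (s c : ℝ) : Fin 5 → ℝ :=
  ![2 * (c * s * k 0 c) * (c * s ^ 3 * n 0 c), 2 * (c * s ^ 3 * k 1 c) * (c * s ^ 5 * n 1 c),
    (c * s ^ 3 * n 0 c) ^ 2, 2 * (c * s ^ 3 * n 0 c) * (c * s ^ 5 * n 1 c), (c * s ^ 5 * n 1 c) ^ 2]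

/-- **the coefficients of the deviation of `xi12` in the real frame, with the exact square of the linear part** -/
def u17 (k k' : Fin 8 → ℝ → ℝ) (n n' : Fin 4 → ℝ → ℝ) (s c : ℝ) (τ : ℂ) : Fin (42 + 5) → ℝ :=
  Fin.append (fun i : Fin 42 => u12 k k' n n' s c τ i + e17 k n s c i) (f17 k n s c)

/-- the remainder `ξ² / 4 - lin²` -/
def tau17 (k : Fin 8 → ℝ → ℝ) (n : Fin 4 → ℝ → ℝ) (f : ℝ → ℝ) (a b : ℂ) : ℂ :=
  xi12 (kap k) (mup n) f ^ 2 / 4 - lin12 k n (X1 f) (cF f) a b ^ 2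

section

variable {k k' : Fin 8 → ℝ → ℝ} {n n' : Fin 4 → ℝ → ℝ}

/-- the dependence of `u12` on the remainder -/
theorem dev12_t (s c : ℝ) (τ σ : ℂ) (m : M9) (A B N M S R G P O : ℂ) :
    devH Psi12 (u12 k k' n n' s c (τ + σ)) m A B N M S R G P O =
      devH Psi12 (u12 k k' n n' s c τ) m A B N M S R G P O + σ * conj A := by
  have eσ : ((σ.re : ℝ) : ℂ) * conj A + ((σ.im : ℝ) : ℂ) * (I * conj A) = σ * conj A := by
    have := Complex.re_add_im σ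
    linear_combination conj A * this
  have p26 : Psi12 26 m A B N M S R G P O = conj A := rfl
  have p27 : Psi12 27 m A B N M S R G P O = I * conj A := rfl
  unfold devH
  rw [sum42, sum42, p26, p27]
  simp only [u12, BTI.u8, Matrix.cons_val_zero, Matrix.cons_val_one, Matrix.cons_val, Complex.add_re, Complex.add_im,
    Complex.ofReal_add (τ.re) _, Complex.ofReal_add (τ.im) _]
  linear_combination eσ

/-- the deviation with `Psi17` is the deviation with `Psi12` -/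
theorem dev17_eq (s c : ℝ) (τ : ℂ) (m : M9) (A B N M S R G P O : ℂ) :
    devH Psi17 (u17 k k' n n' s c τ) m A B N M S R G P O =
      devH Psi12 (u12 k k' n n' s c (τ + lin12 k n s c (m 0) (m 1) ^ 2 - ((c * s * k 0 c : ℝ) : ℂ) ^ 2 * m 0 ^ 2))
        m A B N M S R G P O := by
  have e0 : devH Psi17 (u17 k k' n n' s c τ) m A B N M S R G P O =
      devH Psi12 (u12 k k' n n' s c τ) m A B N M S R G P O
        + (∑ i : Fin 42, (e17 k n s c i : ℂ) * Psi12 i m A B N M S R G P O)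
        + ∑ i : Fin 5, (f17 k n s c i : ℂ) * P5 i m A B N M S R G P O := by
    unfold devH
    rw [Fin.sum_univ_add, ← Finset.sum_add_distrib]
    refine congrArg₂ (· + ·) (Finset.sum_congr rfl fun i _ => ?_) (Finset.sum_congr rfl fun i _ => ?_)
    · rw [psi17_l, u17, Fin.append_left, Complex.ofReal_add, add_mul]
    · rw [psi17_r, u17, Fin.append_right]
  have e1 : τ + lin12 k n s c (m 0) (m 1) ^ 2 - ((c * s * k 0 c : ℝ) : ℂ) ^ 2 * m 0 ^ 2 =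
      τ + (lin12 k n s c (m 0) (m 1) ^ 2 - ((c * s * k 0 c : ℝ) : ℂ) ^ 2 * m 0 ^ 2) := by ring
  rw [e0, e1, dev12_t, sum42, Fin.sum_univ_five]
  have p11 : Psi12 11 m A B N M S R G P O = conj A * (m 0 * conj (m 0)) := rfl
  have p13 : Psi12 13 m A B N M S R G P O = conj A * conj (m 0) ^ 2 := rfl
  have p34 : Psi12 34 m A B N M S R G P O = conj A * (m 0 * conj (m 1)) := rfl
  have p35 : Psi12 35 m A B N M S R G P O = conj A * (conj (m 0) * m 1) := rfl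
  rw [p11, p13, p34, p35]
  simp only [P5, e17, f17, Matrix.cons_val_zero, Matrix.cons_val_one, Matrix.cons_val, Complex.ofReal_zero, zero_mul,
    zero_add, add_zero]
  unfold lin12
  push_cast
  ring

end

section

variable {f : ℝ → ℝ}

/-- **the deviation of `xi12` in the real frame, exact square of the linear part** -/
theorem devLe_B17 (H : Re f) (k k' : Fin 8 → ℝ → ℝ) (n n' : Fin 4 → ℝ → ℝ) :
    DevLe5 (Bst9 (xi12 (kap k) (mup n)) (l12 (kap k) (dkap k k') (mup n) (dmup n n'))) Psi17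
      (u17 k k' n n' (X1 f) (cF f) (tau17 k n f (mo (CH Psi17) (nf f) (xT f) (ef f) 0)
        (mo (CH Psi17) (nf f) (xT f) (ef f) 1))) f := by
  intro A B N M S R D P O
  refine (devLe_B12 H k k' n n' A B N M S R D P O).trans (le_of_eq ?_)
  have em : mo (CH Psi12) (nf f) (xT f) (ef f) = mo (CH Psi17) (nf f) (xT f) (ef f) := rfl
  rw [em, dev17_eq]
  congr 3
  unfold tau17 tau12
  ring

/-! ### the remainder -/

/-- the bound of the linear part -/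
def lb17 (k : Fin 8 → ℝ → ℝ) (n : Fin 4 → ℝ → ℝ) (s c r p : ℝ) : ℝ :=
  c * s * |k 0 c| * r + c * s ^ 3 * |k 1 c| * r + c * s ^ 3 * |n 0 c| * p + c * s ^ 5 * |n 1 c| * p

/-- the bound of the terms of degree two -/
def rb17 (k : Fin 8 → ℝ → ℝ) (n : Fin 4 → ℝ → ℝ) (s c r p q K : ℝ) : ℝ :=
  4 * c * s * (|k 2 c| + s ^ 2 * |k 3 c| + s ^ 4 * |k 4 c|) * r ^ 2 + 4 * c * s * (|n 2 c| + |n 3 c|) * (r * p)
    + c * s * K * q

theorem lin12_le (k : Fin 8 → ℝ → ℝ) (n : Fin 4 → ℝ → ℝ) {s c : ℝ} (hs : 0 ≤ s) (hc : 0 ≤ c) {a b : ℂ} {r p : ℝ}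
    (hr : ‖a‖ ≤ r) (hp : ‖b‖ ≤ p) : ‖lin12 k n s c a b‖ ≤ lb17 k n s c r p := by
  have nr : ∀ x : ℝ, ‖(x : ℂ)‖ = |x| := fun x => Complex.norm_real x
  have ac : |c| = c := abs_of_nonneg hc
  have as : |s| = s := abs_of_nonneg hs
  have b0 : ‖((c * s * k 0 c : ℝ) : ℂ) * a‖ ≤ c * s * |k 0 c| * r := by
    rw [norm_mul, nr, abs_mul, abs_mul, ac, as]
    gcongr
  have b1 : ‖((c * s ^ 3 * k 1 c : ℝ) : ℂ) * conj a‖ ≤ c * s ^ 3 * |k 1 c| * r := by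
    rw [norm_mul, nr, abs_mul, abs_mul, abs_pow, ac, as, Complex.norm_conj]
    gcongr
  have b2 : ‖((c * s ^ 3 * n 0 c : ℝ) : ℂ) * b‖ ≤ c * s ^ 3 * |n 0 c| * p := by
    rw [norm_mul, nr, abs_mul, abs_mul, abs_pow, ac, as]
    gcongr
  have b3 : ‖((c * s ^ 5 * n 1 c : ℝ) : ℂ) * conj b‖ ≤ c * s ^ 5 * |n 1 c| * p := by
    rw [norm_mul, nr, abs_mul, abs_mul, abs_pow, ac, as, Complex.norm_conj]
    gcongr
  unfold lin12 lb17
  exact (norm_add_le _ _).trans (add_le_add ((norm_add_le _ _).trans (add_le_add ((norm_add_le _ _).trans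
    (add_le_add b0 b1)) b2)) b3)

/-- the start map minus its linear part -/
theorem rest17_le (H : Re f) (hs : 0 < X1 f) (k : Fin 8 → ℝ → ℝ) (n : Fin 4 → ℝ → ℝ) {m : M9} (E : Mm f m)
    (h5 : (X1 f : ℂ) * CE 5 f = 2 * cF f * m 1) {r p q K : ℝ} {q0 : ℝ} (hr : ‖m 0‖ ≤ r) (hp : ‖m 1‖ ≤ p)
    (h3 : m 3 = (q0 : ℂ)) (h0 : 0 ≤ q0) (hq0 : q0 ≤ q) (h4 : ‖m 4‖ ≤ q0) (hK : 0 ≤ K)
    (hP : BTI.Ph (k 5 (cF f)) (k 6 (cF f)) (k 7 (cF f)) K) :
    ‖xi12 (kap k) (mup n) f - 2 * lin12 k n (X1 f) (cF f) (m 0) (m 1)‖ ≤ rb17 k n (X1 f) (cF f) r p q K := by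
  have hr0 : 0 ≤ r := (norm_nonneg _).trans hr
  have hp0 : 0 ≤ p := (norm_nonneg _).trans hp
  have hc := H.c0.le
  have hs0 := H.h0
  have e : xi12 (kap k) (mup n) f - 2 * lin12 k n (X1 f) (cF f) (m 0) (m 1) =
      4 * cF f * X1 f * k 2 (cF f) * (m 0 * conj (m 0)) + (4 * cF f * X1 f ^ 3 * k 3 (cF f) * m 0 ^ 2
        + (4 * cF f * X1 f ^ 5 * k 4 (cF f) * conj (m 0) ^ 2 + (4 * cF f * X1 f * n 2 (cF f) * (m 0 * conj (m 1))
        + (4 * cF f * X1 f * n 3 (cF f) * (conj (m 0) * m 1)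
        + cF f * X1 f * (k 5 (cF f) * m 4 + k 6 (cF f) * m 3 + k 7 (cF f) * conj (m 4)))))) := by
    unfold xi12 lin12
    rw [BTI.re_xi8 H hs E, re_x4 H hs E h5]
    push_cast
    ring
  have nr : ∀ x : ℝ, ‖(x : ℂ)‖ = |x| := fun x => Complex.norm_real x
  have ac : |cF f| = cF f := abs_of_nonneg hc
  have as : |X1 f| = X1 f := abs_of_nonneg hs0
  have n4 : ‖(4 : ℂ)‖ = 4 := by norm_num
  have n00 := norm_nonneg (m 0)
  have n11 := norm_nonneg (m 1)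
  have hr2 : ‖m 0‖ ^ 2 ≤ r ^ 2 := pow_le_pow_left₀ n00 hr 2
  have b2 : ‖(4 : ℂ) * cF f * X1 f * k 2 (cF f) * (m 0 * conj (m 0))‖ ≤
      4 * cF f * X1 f * |k 2 (cF f)| * r ^ 2 := by
    simp only [norm_mul, nr, ac, as, n4, Complex.norm_conj]
    rw [← pow_two]
    gcongr
  have b3 : ‖(4 : ℂ) * cF f * X1 f ^ 3 * k 3 (cF f) * m 0 ^ 2‖ ≤ 4 * cF f * X1 f ^ 3 * |k 3 (cF f)| * r ^ 2 := by
    simp only [norm_mul, norm_pow, nr, ac, as, n4]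
    gcongr
  have b4 : ‖(4 : ℂ) * cF f * X1 f ^ 5 * k 4 (cF f) * conj (m 0) ^ 2‖ ≤
      4 * cF f * X1 f ^ 5 * |k 4 (cF f)| * r ^ 2 := by
    simp only [norm_mul, norm_pow, nr, ac, as, n4, Complex.norm_conj]
    gcongr
  have b5 : ‖(4 : ℂ) * cF f * X1 f * n 2 (cF f) * (m 0 * conj (m 1))‖ ≤
      4 * cF f * X1 f * |n 2 (cF f)| * (r * p) := by
    simp only [norm_mul, nr, ac, as, n4, Complex.norm_conj]
    gcongr
  have b6 : ‖(4 : ℂ) * cF f * X1 f * n 3 (cF f) * (conj (m 0) * m 1)‖ ≤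
      4 * cF f * X1 f * |n 3 (cF f)| * (r * p) := by
    simp only [norm_mul, nr, ac, as, n4, Complex.norm_conj]
    gcongr
  have b7 : ‖(cF f : ℂ) * X1 f * (k 5 (cF f) * m 4 + k 6 (cF f) * m 3 + k 7 (cF f) * conj (m 4))‖ ≤
      cF f * X1 f * K * q := by
    rw [h3]
    simp only [norm_mul, nr, ac, as]
    calc cF f * X1 f * ‖(k 5 (cF f) : ℂ) * m 4 + k 6 (cF f) * q0 + k 7 (cF f) * conj (m 4)‖
        ≤ cF f * X1 f * (K * q0) := mul_le_mul_of_nonneg_left (hP.le hK h0 h4) (mul_nonneg hc hs0)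
      _ ≤ cF f * X1 f * (K * q) := by gcongr
      _ = _ := by ring
  have c6 := (norm_add_le ((4 : ℂ) * cF f * X1 f * n 3 (cF f) * (conj (m 0) * m 1)) _).trans (add_le_add b6 b7)
  have c5 := (norm_add_le ((4 : ℂ) * cF f * X1 f * n 2 (cF f) * (m 0 * conj (m 1))) _).trans (add_le_add b5 c6)
  have c4 := (norm_add_le ((4 : ℂ) * cF f * X1 f ^ 5 * k 4 (cF f) * conj (m 0) ^ 2) _).trans (add_le_add b4 c5)
  have c3 := (norm_add_le ((4 : ℂ) * cF f * X1 f ^ 3 * k 3 (cF f) * m 0 ^ 2) _).trans (add_le_add b3 c4)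
  have c2 := (norm_add_le ((4 : ℂ) * cF f * X1 f * k 2 (cF f) * (m 0 * conj (m 0))) _).trans (add_le_add b2 c3)
  rw [e]
  refine c2.trans (le_of_eq ?_)
  unfold rb17
  ring

/-- **bound of the remainder** -/
theorem tau17_le (H : Re f) (k : Fin 8 → ℝ → ℝ) (n : Fin 4 → ℝ → ℝ) {m : M9} (E : Mm f m)
    (h5 : (X1 f : ℂ) * CE 5 f = 2 * cF f * m 1) {r p q K : ℝ} {q0 : ℝ} (hr : ‖m 0‖ ≤ r) (hp : ‖m 1‖ ≤ p)
    (h3 : m 3 = (q0 : ℂ)) (h0 : 0 ≤ q0) (hq0 : q0 ≤ q) (h4 : ‖m 4‖ ≤ q0) (hK : 0 ≤ K)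
    (hP : BTI.Ph (k 5 (cF f)) (k 6 (cF f)) (k 7 (cF f)) K) (hm : X1 f = 0 → m 0 = 0 ∧ m 1 = 0) :
    ‖tau17 k n f (m 0) (m 1)‖ ≤ rb17 k n (X1 f) (cF f) r p q K
      * (4 * lb17 k n (X1 f) (cF f) r p + rb17 k n (X1 f) (cF f) r p q K) / 4 := by
  have hr0 : 0 ≤ r := (norm_nonneg _).trans hr
  have hp0 : 0 ≤ p := (norm_nonneg _).trans hp
  have hq0' : 0 ≤ q := h0.trans hq0
  have hc := H.c0.le
  have hs0 := H.h0
  have hrb : 0 ≤ rb17 k n (X1 f) (cF f) r p q K := by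
    unfold rb17
    positivity
  have hlb : 0 ≤ lb17 k n (X1 f) (cF f) r p := by
    unfold lb17
    positivity
  rcases hs0.lt_or_eq with hs | hs
  · set ρ : ℂ := xi12 (kap k) (mup n) f - 2 * lin12 k n (X1 f) (cF f) (m 0) (m 1) with hρ
    have e : tau17 k n f (m 0) (m 1) = ρ * (4 * lin12 k n (X1 f) (cF f) (m 0) (m 1) + ρ) / 4 := by
      unfold tau17
      rw [hρ]
      ring
    have n4 : ‖(4 : ℂ)‖ = 4 := by norm_num
    have bρ : ‖ρ‖ ≤ rb17 k n (X1 f) (cF f) r p q K := rest17_le H hs k n E h5 hr hp h3 h0 hq0 h4 hK hP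
    have bl : ‖(4 : ℂ) * lin12 k n (X1 f) (cF f) (m 0) (m 1)‖ ≤ 4 * lb17 k n (X1 f) (cF f) r p := by
      rw [norm_mul, n4]
      exact mul_le_mul_of_nonneg_left (lin12_le k n hs0 hc hr hp) (by norm_num)
    rw [e, norm_div, norm_mul, n4]
    have b9 := (norm_add_le ((4 : ℂ) * lin12 k n (X1 f) (cF f) (m 0) (m 1)) ρ).trans (add_le_add bl bρ)
    gcongr
  · obtain ⟨m0, m1⟩ := hm hs.symm
    have et : tau17 k n f (m 0) (m 1) = 0 := by
      unfold tau17 lin12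
      rw [(z_l12 (k := k) (k' := k) (n := n) (n' := n) H hs.symm).1, m0, m1]
      simp
    rw [et, norm_zero]
    positivity

/-- **state dependent bound of the remainder** for a start map without products: the bound is
`c s K q₀ · (lin + c s K q₀ / 4)` with the moments of the state itself -/
theorem tau17_st (H : Re f) (k : Fin 8 → ℝ → ℝ) (n : Fin 4 → ℝ → ℝ) {Q : Type} [Fintype Q] (Ψ : PsiH Q) {K : ℝ}
    (hK : 0 ≤ K) (hP : BTI.Ph (k 5 (cF f)) (k 6 (cF f)) (k 7 (cF f)) K) :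
    ‖tau17 k n f (mo (CH Ψ) (nf f) (xT f) (ef f) 0) (mo (CH Ψ) (nf f) (xT f) (ef f) 1)‖ ≤
      rb17 k n (X1 f) (cF f) ‖mo (CH Ψ) (nf f) (xT f) (ef f) 0‖ ‖mo (CH Ψ) (nf f) (xT f) (ef f) 1‖ (OMR.q0 f) K
      * (4 * lb17 k n (X1 f) (cF f) ‖mo (CH Ψ) (nf f) (xT f) (ef f) 0‖ ‖mo (CH Ψ) (nf f) (xT f) (ef f) 1‖
        + rb17 k n (X1 f) (cF f) ‖mo (CH Ψ) (nf f) (xT f) (ef f) 0‖ ‖mo (CH Ψ) (nf f) (xT f) (ef f) 1‖
          (OMR.q0 f) K) / 4 := by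
  refine tau17_le H k n (mm_moH Ψ H).1 (mm_moH Ψ H).2 le_rfl le_rfl (BTI.mo3_q0 H Ψ0) (XEN.q0_nn f) le_rfl ?_ hK hP
    fun h => ⟨BTI.z_mo Ψ0 H h 0, BTI.z_mo Ψ0 H h 1⟩
  show ‖mo (BTI.C9 Ψ0) (nf f) (xT f) (ef f) 4‖ ≤ _
  rw [BTI.mo4_q2 H Ψ0]
  exact XEN.q2_le H

end

end Pool.Agent.FPX.BU
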