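import Mathlib
import Pool.Agent.FPX.XTB

/-
XTC (helper47): state-dependent bound of the remainder of the stereographic start map with eight terms:
`|ξ² / 4 - (linear part)² / 4| ≤ (a b / 2 |r₃| + b² / 4 q₀) q₀`.
-/

open MeasureTheory Set Filter Topology Complex
open scoped ComplexConjugate

noncomputable section

namespace Pool.Agent.FPX.BTI

open Pool.Agent.FPX.BTG (Sta Cls mo aK bK dev)
open Pool.Agent.FPX.BTN (va e1 nf ef bw)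
open Pool.Agent.FPX.UMP (Ef)
open Pool.Agent.FPX.F54 (X1 X2 X_lt)
open Pool.Agent.FPX.OMS (rF cF cF_eq)
open Pool.Agent.FPX.CERQ (xT)
open Pool.Agent.FPX.OMR (Re)
open Pool.Agent.FPX.XIM (xi8 xi12 x4)
open Pool.Agent.FPX.XIP (B8)
open Pool.Agent.FPX.ALX (Xa)

/-- bound of the linear part of the start map by `|r₃|` -/
def aT (k : Fin 8 → ℝ → ℝ) (s c : ℝ) : ℝ := 2 * c * s * (|k 0 c| + s ^ 2 * |k 1 c|)

/-- bound of the part of degree two by `q₀` (`K`, `L` phase bounds, `ph_of1`, `ph_of2`, `ph_of3`) -/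
def bT (s c K L : ℝ) : ℝ := c * s * (K + 2 * L)

/-- the linear part -/
def xl8 (k : Fin 8 → ℝ → ℝ) (f : ℝ → ℝ) (r3 : ℂ) : ℂ :=
  2 * cF f * X1 f * k 0 (cF f) * r3 + 2 * cF f * X1 f ^ 3 * k 1 (cF f) * conj r3

/-- the remainder `ξ² / 4 - (linear part)² / 4` -/
def tau8x (k : Fin 8 → ℝ → ℝ) (f : ℝ → ℝ) (r3 : ℂ) : ℂ := xi8 (kap k) f ^ 2 / 4 - xl8 k f r3 ^ 2 / 4

/-- the two remainders -/
theorem tau8_eq (k : Fin 8 → ℝ → ℝ) (f : ℝ → ℝ) (r3 : ℂ) : tau8 k f r3 = tau8x k f r3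
    + (((2 * cF f ^ 2 * X1 f ^ 4 * (k 0 (cF f) * k 1 (cF f)) : ℝ) : ℂ) * (r3 * conj r3)
      + ((cF f ^ 2 * X1 f ^ 6 * k 1 (cF f) ^ 2 : ℝ) : ℂ) * conj r3 ^ 2) := by
  unfold tau8 tau8x xl8
  push_cast
  ring

theorem tau8_eq_of (k : Fin 8 → ℝ → ℝ) (h : ∀ c, k 1 c = 0) (f : ℝ → ℝ) (r3 : ℂ) :
    tau8 k f r3 = tau8x k f r3 := by
  rw [tau8_eq, h]
  simp

theorem xl8_le {f : ℝ → ℝ} (H : Re f) (k : Fin 8 → ℝ → ℝ) (r3 : ℂ) :
    ‖xl8 k f r3‖ ≤ aT k (X1 f) (cF f) * ‖r3‖ := by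
  have nr : ∀ x : ℝ, ‖(x : ℂ)‖ = |x| := fun x => Complex.norm_real x
  have ac : |cF f| = cF f := abs_of_nonneg H.c0.le
  have as : |X1 f| = X1 f := abs_of_nonneg H.h0
  have n2 : ‖(2 : ℂ)‖ = 2 := by norm_num
  unfold xl8 aT
  refine (norm_add_le _ _).trans (le_of_eq ?_)
  simp only [norm_mul, norm_pow, nr, ac, as, n2, Complex.norm_conj]
  ring

/-- the part of degree two -/
theorem xi2_le {f : ℝ → ℝ} (H : Re f) (hs : 0 < X1 f) (k : Fin 8 → ℝ → ℝ) {m : M9} (E : Mm f m) {K L : ℝ}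
    {q0 : ℝ} (h3 : m 3 = (q0 : ℂ)) (h0 : 0 ≤ q0) (h4 : ‖m 4‖ ≤ q0) (hr : ‖m 0‖ ^ 2 ≤ q0 / 2) (hK : 0 ≤ K)
    (hP : Ph (k 5 (cF f)) (k 6 (cF f)) (k 7 (cF f)) K) (hL : 0 ≤ L)
    (hP' : Ph (X1 f ^ 2 * k 3 (cF f)) (k 2 (cF f)) (X1 f ^ 4 * k 4 (cF f)) L) :
    ‖xi8 (kap k) f - xl8 k f (m 0)‖ ≤ bT (X1 f) (cF f) K L * q0 := by
  have hc := H.c0.le
  have hs0 := H.h0
  have e : xi8 (kap k) f - xl8 k f (m 0) =
      (4 : ℂ) * cF f * X1 f * (((X1 f ^ 2 * k 3 (cF f) : ℝ) : ℂ) * m 0 ^ 2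
        + k 2 (cF f) * ((‖m 0‖ ^ 2 : ℝ) : ℂ) + ((X1 f ^ 4 * k 4 (cF f) : ℝ) : ℂ) * conj (m 0 ^ 2))
      + cF f * X1 f * (k 5 (cF f) * m 4 + k 6 (cF f) * q0 + k 7 (cF f) * conj (m 4)) := by
    have em : m 0 * conj (m 0) = ((‖m 0‖ ^ 2 : ℝ) : ℂ) := by
      rw [Complex.mul_conj, Complex.normSq_eq_norm_sq]
    rw [re_xi8 H hs E, em, h3]
    unfold xl8
    rw [map_pow]
    push_cast
    ring
  have nr : ∀ x : ℝ, ‖(x : ℂ)‖ = |x| := fun x => Complex.norm_real x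
  have ac : |cF f| = cF f := abs_of_nonneg hc
  have as : |X1 f| = X1 f := abs_of_nonneg hs0
  have n4 : ‖(4 : ℂ)‖ = 4 := by norm_num
  have b1 : ‖((X1 f ^ 2 * k 3 (cF f) : ℝ) : ℂ) * m 0 ^ 2 + k 2 (cF f) * ((‖m 0‖ ^ 2 : ℝ) : ℂ)
      + ((X1 f ^ 4 * k 4 (cF f) : ℝ) : ℂ) * conj (m 0 ^ 2)‖ ≤ L * (‖m 0‖ ^ 2) :=
    hP'.le hL (sq_nonneg _) (le_of_eq (norm_pow _ _))
  have b2 := hP.le hK h0 h4
  rw [e]
  refine (norm_add_le _ _).trans ?_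
  simp only [norm_mul ((4 : ℂ) * cF f * X1 f), norm_mul ((4 : ℂ) * cF f), norm_mul (4 : ℂ), nr, ac, as, n4]
  rw [norm_mul ((cF f : ℂ) * X1 f), norm_mul (cF f : ℂ), nr, nr, ac, as]
  have c1 : 4 * cF f * X1 f * ‖((X1 f ^ 2 * k 3 (cF f) : ℝ) : ℂ) * m 0 ^ 2 + k 2 (cF f) * ((‖m 0‖ ^ 2 : ℝ) : ℂ)
      + ((X1 f ^ 4 * k 4 (cF f) : ℝ) : ℂ) * conj (m 0 ^ 2)‖ ≤ 4 * cF f * X1 f * (L * (q0 / 2)) :=
    mul_le_mul_of_nonneg_left (b1.trans (mul_le_mul_of_nonneg_left hr hL)) (by positivity)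
  have c2 : cF f * X1 f * ‖(k 5 (cF f) : ℂ) * m 4 + k 6 (cF f) * q0 + k 7 (cF f) * conj (m 4)‖ ≤
      cF f * X1 f * (K * q0) := mul_le_mul_of_nonneg_left b2 (by positivity)
  unfold bT
  linarith

/-- **the state-dependent bound of the remainder** -/
theorem tau8x_le {f : ℝ → ℝ} (H : Re f) (k : Fin 8 → ℝ → ℝ) {m : M9} (E : Mm f m) {K L : ℝ}
    {q0 : ℝ} (h3 : m 3 = (q0 : ℂ)) (h0 : 0 ≤ q0) (h4 : ‖m 4‖ ≤ q0) (hr : ‖m 0‖ ^ 2 ≤ q0 / 2) (hK : 0 ≤ K)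
    (hP : Ph (k 5 (cF f)) (k 6 (cF f)) (k 7 (cF f)) K) (hL : 0 ≤ L)
    (hP' : Ph (X1 f ^ 2 * k 3 (cF f)) (k 2 (cF f)) (X1 f ^ 4 * k 4 (cF f)) L) (hm : X1 f = 0 → m 0 = 0) {a b : ℝ}
    (ha : aT k (X1 f) (cF f) ≤ a) (hb : bT (X1 f) (cF f) K L ≤ b) :
    ‖tau8x k f (m 0)‖ ≤ (a * b / 2 * ‖m 0‖ + b ^ 2 / 4 * q0) * q0 := by
  have hc := H.c0.le
  have hs0 := H.h0
  have ha0 : 0 ≤ aT k (X1 f) (cF f) := by
    unfold aT
    positivity
  have hb0 : 0 ≤ bT (X1 f) (cF f) K L := by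
    unfold bT
    positivity
  have ha' := ha0.trans ha
  have hb' := hb0.trans hb
  have n0 := norm_nonneg (m 0)
  rcases hs0.lt_or_eq with hs | hs
  · have e : tau8x k f (m 0) =
        (xi8 (kap k) f - xl8 k f (m 0)) * (2 * xl8 k f (m 0) + (xi8 (kap k) f - xl8 k f (m 0))) / 4 := by
      unfold tau8x
      ring
    have h2 := (xi2_le H hs k E h3 h0 h4 hr hK hP hL hP').trans (mul_le_mul_of_nonneg_right hb h0)
    have h1 := (xl8_le H k (m 0)).trans (mul_le_mul_of_nonneg_right ha n0)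
    set ρ := xi8 (kap k) f - xl8 k f (m 0)
    have n2 : ‖(2 : ℂ)‖ = 2 := by norm_num
    have n4 : ‖(4 : ℂ)‖ = 4 := by norm_num
    have h5 : ‖2 * xl8 k f (m 0) + ρ‖ ≤ 2 * (a * ‖m 0‖) + b * q0 := by
      refine (norm_add_le _ _).trans ?_
      rw [norm_mul, n2]
      linarith
    rw [e, norm_div, norm_mul, n4]
    have h6 : ‖ρ‖ * ‖2 * xl8 k f (m 0) + ρ‖ ≤ (b * q0) * (2 * (a * ‖m 0‖) + b * q0) :=
      mul_le_mul h2 h5 (norm_nonneg _) (mul_nonneg hb' h0)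
    have h7 : (b * q0) * (2 * (a * ‖m 0‖) + b * q0) / 4 = (a * b / 2 * ‖m 0‖ + b ^ 2 / 4 * q0) * q0 := by
      ring
    rw [← h7]
    linarith
  · have et : tau8x k f (m 0) = 0 := by
      unfold tau8x xl8
      rw [(z_l8 (k := k) (k' := k) H hs.symm).1, hm hs.symm]
      simp
    rw [et, norm_zero]
    positivity

/-- the bounds of the linear part and of the part of degree two at the latitude of the state: `|k₀| ≤ a₀`, … -/
theorem aT_le {k : Fin 8 → ℝ → ℝ} {s c a0 a1 : ℝ} (hs : 0 ≤ s) (hc : 0 ≤ c) (h0 : |k 0 c| ≤ a0)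
    (h1 : |k 1 c| ≤ a1) : aT k s c ≤ 2 * c * s * (a0 + s ^ 2 * a1) := by
  unfold aT
  gcongr

/-- **the remainder at a state** -/
theorem tau8x_st {f : ℝ → ℝ} (H : Re f) (k : Fin 8 → ℝ → ℝ) {Q : Type} [Fintype Q] (Ψ : Psi9 Q) {K L a b : ℝ}
    (hK : 0 ≤ K) (hP : Ph (k 5 (cF f)) (k 6 (cF f)) (k 7 (cF f)) K) (hL : 0 ≤ L)
    (hP' : Ph (X1 f ^ 2 * k 3 (cF f)) (k 2 (cF f)) (X1 f ^ 4 * k 4 (cF f)) L)
    (ha : aT k (X1 f) (cF f) ≤ a) (hb : bT (X1 f) (cF f) K L ≤ b) :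
    ‖tau8x k f (mo (C9 Ψ) (nf f) (xT f) (ef f) 0)‖ ≤
      (a * b / 2 * ‖mo (C9 Ψ) (nf f) (xT f) (ef f) 0‖ + b ^ 2 / 4 * OMR.q0 f) * OMR.q0 f := by
  refine tau8x_le H k (mm_mo Ψ H) (mo3_q0 H Ψ) (XEN.q0_nn f) ?_ ?_ hK hP hL hP' (fun h => z_mo Ψ H h 0) ha hb
  · rw [mo4_q2 H]
    exact XEN.q2_le H
  · rw [← r3_eq H.hf H.h0 H.h2]
    have := XEN.r3_sq H
    linarith

/-- the moments of the state on the visual circle -/
theorem mo_va {f : ℝ → ℝ} (H : Re f) {Q : Type} [Fintype Q] (Ψ : Psi9 Q) :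
    mo (C9 Ψ) (nf f) (xT f) (ef f) = mo (C9 Ψ) va (Xa (X1 f) f) e1 := BTG.t_mo H.hf H.h0 H.h2

/-- the zero moment of degree two of a function on the visual circle -/
theorem mo3_va {Q : Type} (Ψ : Psi9 Q) (X : ℝ → ℝ) :
    mo (C9 Ψ) va X e1 3 = ((∫ a, X a ^ 2 ∂va : ℝ) : ℂ) := by
  rw [← integral_complex_ofReal]
  show ∫ a, ((X a : ℝ) : ℂ) ^ 2 ∂va = _
  congr 1
  funext t
  push_cast
  ring

/-- **the same in terms of the function `X` of the state on the visual circle**: this is the hypothesis at the control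
points -/
theorem tau8x_va {f : ℝ → ℝ} (H : Re f) (k : Fin 8 → ℝ → ℝ) {Q : Type} [Fintype Q] (Ψ : Psi9 Q) {K L a b : ℝ}
    (hK : 0 ≤ K) (hP : Ph (k 5 (cF f)) (k 6 (cF f)) (k 7 (cF f)) K) (hL : 0 ≤ L)
    (hP' : Ph (X1 f ^ 2 * k 3 (cF f)) (k 2 (cF f)) (X1 f ^ 4 * k 4 (cF f)) L)
    (ha : aT k (X1 f) (cF f) ≤ a) (hb : bT (X1 f) (cF f) K L ≤ b) :
    ‖tau8x k f (mo (C9 Ψ) (nf f) (xT f) (ef f) 0)‖ ≤
      (a * b / 2 * ‖mo (C9 Ψ) va (Xa (X1 f) f) e1 0‖ + b ^ 2 / 4 * ∫ t, Xa (X1 f) f t ^ 2 ∂va)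
        * ∫ t, Xa (X1 f) f t ^ 2 ∂va := by
  have h := tau8x_st H k Ψ hK hP hL hP' ha hb
  have e : OMR.q0 f = ∫ t, Xa (X1 f) f t ^ 2 ∂va := by
    have h1 := mo3_q0 H Ψ
    rw [mo_va H Ψ, mo3_va] at h1
    exact (Complex.ofReal_injective h1).symm
  rw [e] at h
  rw [← mo_va H Ψ]
  exact h

/-! ### the exact square of the whole linear part -/

/-- the coefficients with the exact square of the linear part (slots 11, 13) -/
def u8x (k k' : Fin 8 → ℝ → ℝ) (s c : ℝ) (τ : ℂ) : Fin 28 → ℝ := fun i =>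
  u8 k k' s c τ i + if i = 11 then 2 * c ^ 2 * s ^ 4 * (k 0 c * k 1 c) else
    if i = 13 then c ^ 2 * s ^ 6 * k 1 c ^ 2 else 0

theorem u8_ne (k k' : Fin 8 → ℝ → ℝ) (s c : ℝ) (τ τ' : ℂ) {i : Fin 28} (h1 : i ≠ 26) (h2 : i ≠ 27) :
    u8 k k' s c τ i = u8 k k' s c τ' i := by
  unfold u8
  fin_cases i <;> first | exact absurd rfl h1 | exact absurd rfl h2 | simp

/-- the terms of the deviation: change of the remainder -/
theorem dev9_x {k k' : Fin 8 → ℝ → ℝ} {s c : ℝ} {τ τ' : ℂ} {m : M9} (h : τ' = τ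
    + (((2 * c ^ 2 * s ^ 4 * (k 0 c * k 1 c) : ℝ) : ℂ) * (m 0 * conj (m 0))
      + ((c ^ 2 * s ^ 6 * k 1 c ^ 2 : ℝ) : ℂ) * conj (m 0) ^ 2)) (A B N M S R G : ℂ) :
    dev9 Psi8 (u8 k k' s c τ') m A B N M S R G = dev9 Psi8 (u8x k k' s c τ) m A B N M S R G := by
  have e26 : u8 k k' s c τ' 26 = τ'.re := rfl
  have e27 : u8 k k' s c τ' 27 = τ'.im := rfl
  have f26 : u8 k k' s c τ 26 = τ.re := rfl
  have f27 : u8 k k' s c τ 27 = τ.im := rfl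
  have p26 : Psi8 26 m A B N M S R G = conj A := rfl
  have p27 : Psi8 27 m A B N M S R G = I * conj A := rfl
  have p11 : Psi8 11 m A B N M S R G = conj A * (m 0 * conj (m 0)) := rfl
  have p13 : Psi8 13 m A B N M S R G = conj A * conj (m 0) ^ 2 := rfl
  unfold dev9
  have key : ∀ q : Fin 28, (u8 k k' s c τ' q : ℂ) * Psi8 q m A B N M S R G
      - (u8x k k' s c τ q : ℂ) * Psi8 q m A B N M S R G =
      (if q = 26 then ((τ'.re - τ.re : ℝ) : ℂ) * conj A else 0)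
      + (if q = 27 then ((τ'.im - τ.im : ℝ) : ℂ) * (I * conj A) else 0)
      - (if q = 11 then ((2 * c ^ 2 * s ^ 4 * (k 0 c * k 1 c) : ℝ) : ℂ) * (conj A * (m 0 * conj (m 0))) else 0)
      - (if q = 13 then ((c ^ 2 * s ^ 6 * k 1 c ^ 2 : ℝ) : ℂ) * (conj A * conj (m 0) ^ 2) else 0) := by
    intro q
    unfold u8x
    by_cases h26 : q = 26
    · subst h26
      rw [e26, f26, p26]
      simp only [Fin.reduceEq, if_true, if_false]
      push_cast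
      ring
    by_cases h27 : q = 27
    · subst h27
      rw [e27, f27, p27]
      simp only [Fin.reduceEq, if_true, if_false]
      push_cast
      ring
    rw [u8_ne k k' s c τ' τ h26 h27]
    by_cases h11 : q = 11
    · subst h11
      rw [p11]
      simp only [Fin.reduceEq, if_true, if_false]
      push_cast
      ring
    by_cases h13 : q = 13
    · subst h13
      rw [p13]
      simp only [Fin.reduceEq, if_true, if_false]
      push_cast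
      ring
    rw [if_neg h26, if_neg h27, if_neg h11, if_neg h13]
    rw [if_neg h11, if_neg h13]
    simp
  have hd : ∑ q, (u8 k k' s c τ' q : ℂ) * Psi8 q m A B N M S R G
      - ∑ q, (u8x k k' s c τ q : ℂ) * Psi8 q m A B N M S R G = 0 := by
    rw [← Finset.sum_sub_distrib, Finset.sum_congr rfl fun q _ => key q]
    simp only [Finset.sum_sub_distrib, Finset.sum_add_distrib, Finset.sum_ite_eq', Finset.mem_univ, if_true]
    have h1 := Complex.re_add_im τ'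
    have h2 := Complex.re_add_im τ
    push_cast
    push_cast at h
    linear_combination (conj A) * h1 - (conj A) * h2 + (conj A) * h
  exact sub_eq_zero.1 hd

/-- **the deviation of the stereographic map of `xi8` with the exact square of the linear part** -/
theorem devLe_B8x {f : ℝ → ℝ} (H : Re f) (k k' : Fin 8 → ℝ → ℝ) : DevLe (B8 (kap k) (dkap k k')) Psi8
    (u8x k k' (X1 f) (cF f) (tau8x k f (mo (C9 Psi8) (nf f) (xT f) (ef f) 0))) f := by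
  intro A B N M S R D
  refine (devLe_B8 H k k' A B N M S R D).trans (le_of_eq ?_)
  rw [dev9_x (tau8_eq k f _)]

end Pool.Agent.FPX.BTI
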